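import Pool.Agent.Lib.MP_565fc2_lc.SC.Iface

/-!
# SC-A00: the FC-centre `fcr G`, finite conjugacy, non-elementary groups
-/

set_option autoImplicit false

namespace Pool.SC

open Subgroup Function

section

variable {G : Type} [Group G]

theorem mem_fcr {x : G} : x ∈ fcr G ↔ FinConj ⊤ x := Iff.rfl

theorem FinConj.mono {H H' : Subgroup G} (h : H ≤ H') {x : G} (hx : FinConj H' x) : FinConj H x :=
  Set.Finite.subset hx (by rintro y ⟨g, hg, rfl⟩; exact ⟨g, h hg, rfl⟩)

/-- finitely many conjugates under a finite index subgroup: finitely many conjugates -/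
theorem finConj_top_of_finiteIndex (H : Subgroup G) [H.FiniteIndex] {x : G} (hx : FinConj H x) :
    FinConj ⊤ x := by
  classical
  -- g = t * h with t in a finite transversal
  let f : (G ⧸ H) × {y | ∃ h ∈ H, y = h * x * h⁻¹} → G := fun p => p.1.out * p.2 * (p.1.out)⁻¹
  have : Finite {y | ∃ h ∈ H, y = h * x * h⁻¹} := hx
  refine (Set.finite_range f).subset ?_
  rintro y ⟨g, -, rfl⟩
  obtain ⟨s, hs⟩ := QuotientGroup.mk_out_eq_mul H g
  refine ⟨((g : G ⧸ H), ⟨(s : G)⁻¹ * x * s, (s : G)⁻¹, inv_mem s.2, by simp⟩), ?_⟩
  change Quotient.out (g : G ⧸ H) * ((s : G)⁻¹ * x * s) * (Quotient.out (g : G ⧸ H))⁻¹ = _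
  rw [hs]; simp [mul_assoc]

/-- an element centralised by a finite index subgroup has finitely many conjugates -/
theorem mem_fcr_of_commute (H : Subgroup G) [H.FiniteIndex] {x : G} (h : ∀ g ∈ H, g * x = x * g) :
    x ∈ fcr G := by
  refine finConj_top_of_finiteIndex H ((Set.finite_singleton x).subset ?_)
  rintro y ⟨g, hg, rfl⟩
  simp [h g hg]

instance fcr_normal : (fcr G).Normal := by
  refine ⟨fun x hx g => ?_⟩
  refine Set.Finite.subset hx ?_
  rintro y ⟨h, -, rfl⟩
  exact ⟨h * g, mem_top _, by simp [mul_assoc]⟩

/-- finite normal subgroups are contained in the FC-centre -/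
theorem le_fcr (N : Subgroup G) [hN : N.Normal] [hf : Finite N] : N ≤ fcr G := by
  intro x hx
  have h : (N : Set G).Finite := hf
  refine h.subset ?_
  rintro y ⟨g, -, rfl⟩
  exact hN.conj_mem x hx g

/-- the centralizer of a finite normal subgroup has finite index -/
theorem centralizer_finiteIndex (N : Subgroup G) [hN : N.Normal] [Finite N] :
    (centralizer (N : Set G)).FiniteIndex := by
  have : Finite (MulAut N) := by
    have : Finite (N → N) := inferInstance
    exact Finite.of_injective (fun f : MulAut N => (f : N → N)) (fun a b h => by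
      ext x; exact congrArg (fun t : N → N => (t x : G)) h)
  have h := finiteIndex_ker (MulAut.conjNormal (H := N))
  refine @finiteIndex_of_le _ _ _ _ h ?_
  intro g hg
  rw [MonoidHom.mem_ker] at hg
  rw [mem_centralizer_iff]
  intro n hn
  have h1 : ((MulAut.conjNormal g ⟨n, hn⟩ : N) : G) = n := by rw [hg]; rfl
  rw [MulAut.conjNormal_apply] at h1
  calc n * g = (g * n * g⁻¹) * g := by rw [h1]
    _ = g * n := by simp

theorem centralizer_finiteIndex' (N : Subgroup G) (hN : N.Normal) (hf : Finite N) :
    (centralizer (N : Set G)).FiniteIndex := centralizer_finiteIndex N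

/-- an infinite group with finite FC-centre is not virtually cyclic -/
theorem nonElem_of_fcr_finite (h1 : Infinite G) (h2 : Finite (fcr G)) : NonElem G := by
  intro g hg
  have hmem : g ∈ fcr G := by
    refine mem_fcr_of_commute (zpowers g) ?_
    rintro x ⟨k, rfl⟩
    exact (Commute.zpow_self g k).eq
  have hle : zpowers g ≤ fcr G := by simpa [zpowers_le] using hmem
  have hfin : Finite (zpowers g) := Finite.of_injective (inclusion hle) (inclusion_injective hle)
  have : Finite G := by
    have hq : Finite (G ⧸ zpowers g) := inferInstance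
    exact Finite.of_subgroup_quotient (zpowers g)
  exact not_finite G

/-- non-elementary groups are infinite -/
theorem NonElem.infinite_A (h : NonElem G) : Infinite G := by
  by_contra hn
  rw [not_infinite_iff_finite] at hn
  exact h 1 inferInstance

theorem NEH.infinite_A (h : NEH G) : Infinite G := h.2.infinite_A

theorem WordHyp.fg_A (h : WordHyp G) : Group.FG G := by
  obtain ⟨S, hS, hc, -⟩ := h
  exact Group.fg_iff.2 ⟨S, hc, hS⟩

end

section hom

variable {G H : Type} [Group G] [Group H]

/-- images of elements with finitely many conjugates -/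
theorem FinConj.map {K : Subgroup G} {x : G} (hx : FinConj K x) (f : G →* H) :
    FinConj (K.map f) (f x) := by
  refine (Set.Finite.image f hx).subset ?_
  rintro y ⟨h, ⟨g, hg, rfl⟩, rfl⟩
  exact ⟨g * x * g⁻¹, ⟨g, hg, rfl⟩, by simp⟩

/-- if the kernel is finite then finitely many conjugates of the image: finitely many conjugates -/
theorem finConj_of_map (f : G →* H) (hf : Finite f.ker) {K : Subgroup G} {x : G}
    (hx : FinConj (K.map f) (f x)) : FinConj K x := by
  classical
  have hfib : ∀ y : H, (f ⁻¹' {y}).Finite := by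
    intro y
    by_cases hy : ∃ g, f g = y
    · obtain ⟨g, rfl⟩ := hy
      have h1 : (f.ker : Set G).Finite := hf
      refine (h1.image (fun k => g * k)).subset ?_
      intro z hz
      refine ⟨g⁻¹ * z, ?_, by simp⟩
      have : f z = f g := hz
      simp [MonoidHom.mem_ker, this]
    · convert Set.finite_empty
      ext z
      simp only [Set.mem_preimage, Set.mem_singleton_iff, Set.mem_empty_iff_false, iff_false]
      exact fun h => hy ⟨z, h⟩
  refine (Set.Finite.preimage' hx (fun y _ => hfib y)).subset ?_
  rintro y ⟨g, hg, rfl⟩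
  exact ⟨f g, mem_map_of_mem f hg, by simp⟩

/-- a surjection with finite kernel pulls the FC-centre back to the FC-centre -/
theorem mem_fcr_of_map (f : G →* H) (hs : Surjective f) (hf : Finite f.ker) {x : G}
    (hx : f x ∈ fcr H) : x ∈ fcr G := by
  refine finConj_of_map f hf (K := ⊤) ?_
  rw [map_top_of_surjective f hs]; exact hx

theorem map_mem_fcr (f : G →* H) (hs : Surjective f) {x : G} (hx : x ∈ fcr G) : f x ∈ fcr H := by
  have := FinConj.map (K := ⊤) hx f
  rwa [map_top_of_surjective f hs] at this

end hom

/-- the quotient by a finite FC-centre has trivial FC-centre -/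
theorem fcr_quotient_fcr (G : Type) [Group G] (h : Finite (fcr G)) : fcr (G ⧸ fcr G) = ⊥ := by
  rw [eq_bot_iff]
  intro x hx
  obtain ⟨g, rfl⟩ := QuotientGroup.mk'_surjective (fcr G) x
  have h1 : g ∈ fcr G := mem_fcr_of_map (QuotientGroup.mk' (fcr G)) (QuotientGroup.mk'_surjective _)
    (by rw [QuotientGroup.ker_mk']; exact h) hx
  rw [mem_bot]
  exact (QuotientGroup.eq_one_iff g).2 h1

end Pool.SC
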