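import Pool.Agent.Lib.MP_565fc2_lc.SC.A00Fcr

/-!
# SC-A01: invariance under isomorphism and under surjections with finite kernel
-/

set_option autoImplicit false

namespace Pool.SC

open Subgroup Function

section equiv

variable {G H : Type} [Group G] [Group H]

theorem wl_image_equiv (e : G ≃* H) (S : Set G) (g : G) : wl (e '' S) (e g) = wl S g := by
  have key : ∀ {A B : Type} [Group A] [Group B] (f : A ≃* B) (T : Set A) (a : A) (n : ℕ),
      (∃ l : List A, l.length = n ∧ (∀ x ∈ l, x ∈ T ∨ x⁻¹ ∈ T) ∧ l.prod = a) →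
      (∃ l : List B, l.length = n ∧ (∀ x ∈ l, x ∈ f '' T ∨ x⁻¹ ∈ f '' T) ∧ l.prod = f a) := by
    rintro A B _ _ f T a n ⟨l, h1, h2, h3⟩
    refine ⟨l.map f, by simpa using h1, ?_, ?_⟩
    · intro x hx
      obtain ⟨y, hy, rfl⟩ := List.mem_map.1 hx
      rcases h2 y hy with h | h
      · exact Or.inl ⟨y, h, rfl⟩
      · exact Or.inr ⟨y⁻¹, h, by simp⟩
    · rw [← h3, map_list_prod]
  unfold wl
  congr 1
  ext n
  constructor
  · intro h
    have := key e.symm _ _ n h
    simpa [Set.image_image] using this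
  · intro h
    exact key e S g n h

theorem four_image_equiv (e : G ≃* H) (S : Set G) (D : ℕ) (h : Four S D) : Four (e '' S) D := by
  have key : ∀ x y : H, wd (e '' S) x y = wd S (e.symm x) (e.symm y) := by
    intro x y
    unfold wd
    rw [← wl_image_equiv e S]
    simp
  intro x y z w
  simp only [key]
  exact h _ _ _ _

theorem closure_image_equiv (e : G ≃* H) (S : Set G) (h : closure S = ⊤) :
    closure (e '' S) = ⊤ := by
  have := MonoidHom.map_closure e.toMonoidHom S
  rw [h, ← MonoidHom.range_eq_map] at this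
  have h2 : e.toMonoidHom.range = ⊤ := MonoidHom.range_eq_top.2 e.surjective
  rw [h2] at this
  exact this.symm

theorem wordHyp_of_equiv (e : G ≃* H) (h : WordHyp G) : WordHyp H := by
  obtain ⟨S, h1, h2, D, h3⟩ := h
  exact ⟨e '' S, h1.image _, closure_image_equiv e S h2, D, four_image_equiv e S D h3⟩

theorem lox_of_equiv (e : G ≃* H) {g : G} (h : Lox g) : Lox (e g) := by
  obtain ⟨S, h1, h2, k, h3⟩ := h
  refine ⟨e '' S, h1.image _, closure_image_equiv e S h2, k, fun n => ?_⟩
  rw [← map_pow, wl_image_equiv]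
  exact h3 n

theorem nonElem_of_equiv (e : G ≃* H) (h : NonElem G) : NonElem H := by
  intro x hx
  apply h (e.symm x)
  have h1 : zpowers (e.symm x) = (zpowers x).comap e.toMonoidHom := by
    ext y
    simp only [mem_zpowers_iff, mem_comap]
    constructor
    · rintro ⟨k, rfl⟩
      exact ⟨k, by simp⟩
    · rintro ⟨k, hk⟩
      refine ⟨k, ?_⟩
      rw [← map_zpow, hk]; simp
  rw [h1]
  refine ⟨?_⟩
  rw [index_comap_of_surjective _ (f := e.toMonoidHom) e.surjective]
  exact hx.index_ne_zero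

end equiv

section finker

variable {G H : Type} [Group G] [Group H]

theorem wordHyp_iff_of_finKer (hB4 : B4) (f : G →* H) (hs : Surjective f) (hf : Finite f.ker) :
    WordHyp G ↔ WordHyp H := by
  have e : G ⧸ f.ker ≃* H := QuotientGroup.quotientKerEquivOfSurjective f hs
  rw [← (hB4 G f.ker hf).1]
  exact ⟨wordHyp_of_equiv e, wordHyp_of_equiv e.symm⟩

theorem nonElem_iff_of_finKer (hB4 : B4) (f : G →* H) (hs : Surjective f) (hf : Finite f.ker) :
    NonElem G ↔ NonElem H := by
  have e : G ⧸ f.ker ≃* H := QuotientGroup.quotientKerEquivOfSurjective f hs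
  rw [← (hB4 G f.ker hf).2.1]
  exact ⟨nonElem_of_equiv e, nonElem_of_equiv e.symm⟩

theorem neh_iff_of_finKer (hB4 : B4) (f : G →* H) (hs : Surjective f) (hf : Finite f.ker) :
    NEH G ↔ NEH H :=
  and_congr (wordHyp_iff_of_finKer hB4 f hs hf) (nonElem_iff_of_finKer hB4 f hs hf)

theorem lox_iff_of_finKer (hB4 : B4) (f : G →* H) (hs : Surjective f) (hf : Finite f.ker) (g : G) :
    Lox (f g) ↔ Lox g := by
  let e : G ⧸ f.ker ≃* H := QuotientGroup.quotientKerEquivOfSurjective f hs
  rw [← (hB4 G f.ker hf).2.2 g]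
  have h1 : e (QuotientGroup.mk' f.ker g) = f g := rfl
  constructor
  · intro h
    rw [← h1] at h
    have := lox_of_equiv e.symm h
    simpa using this
  · intro h
    rw [← h1]
    exact lox_of_equiv e h

end finker

/-- `Lox` elements have infinite order: no positive power is trivial -/
theorem Lox.pow_ne_one_A {G : Type} [Group G] {g : G} (h : Lox g) {n : ℕ} (hn : 0 < n) :
    g ^ n ≠ 1 := by
  intro h1
  obtain ⟨S, -, -, k, hk⟩ := h
  have h2 : ∀ m : ℕ, g ^ (n * m) = 1 := fun m => by rw [pow_mul, h1, one_pow]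
  have h3 : wl S (1 : G) = 0 := by
    have : (0 : ℕ) ∈ {n | ∃ l : List G, l.length = n ∧ (∀ x ∈ l, x ∈ S ∨ x⁻¹ ∈ S) ∧ l.prod = 1} :=
      ⟨[], rfl, by simp, rfl⟩
    exact Nat.le_zero.1 (Nat.sInf_le this)
  have h4 := hk (n * 1)
  rw [h2, h3] at h4
  omega

theorem Lox.zpow_ne_one_A {G : Type} [Group G] {g : G} (h : Lox g) {n : ℤ} (hn : n ≠ 0) :
    g ^ n ≠ 1 := by
  intro h1
  have h2 : g ^ n.natAbs = 1 := by
    rcases Int.natAbs_eq n with h3 | h3
    · rw [h3, zpow_natCast] at h1; exact h1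
    · rw [h3, zpow_neg, inv_eq_one, zpow_natCast] at h1; exact h1
  exact h.pow_ne_one_A (Int.natAbs_pos.2 hn) h2

/-- finite index subgroups of infinite hyperbolic groups contain `Lox` elements -/
theorem exists_lox_mem {G : Type} [Group G] (hB2 : B2) (hB3 : B3) (hG : WordHyp G)
    (hi : Infinite G) (H : Subgroup G) [hH : H.FiniteIndex] : ∃ g ∈ H, Lox g := by
  obtain ⟨g, hg⟩ := hB2 G hG hi
  obtain ⟨n, hn, -, hm⟩ := exists_pow_mem_of_index_ne_zero hH.index_ne_zero g
  exact ⟨g ^ n, hm, hB3 G g n hn hg⟩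

end Pool.SC
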