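import Pool.Agent.Lib.MP_565fc2_lc.SC.A01FinKer

/-!
# SC-A02: the crossed pushout (lemma P)
-/

set_option autoImplicit false

namespace Pool.SC

open Subgroup Function

/-- **Lemma P.** `ι : E → G` with normal image, `j : E → M`, an action `α` of `G` on `M` which extends conjugation on `j E`
and for which `ι e` acts as conjugation by `j e`.  Then `G' = (M ⋊ G) / {((j e)⁻¹, ι e)}` contains `M` and `G`. -/
theorem crossedPushout {G M E : Type} [Group G] [Group M] [Group E] (ι : E →* G) (j : E →* M)
    (α : G →* MulAut M) (hι : Injective ι) (hj : Injective j) (hn : ι.range.Normal)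
    (h1 : ∀ (g : G) (e e' : E), ι e' = g * ι e * g⁻¹ → j e' = α g (j e))
    (h2 : ∀ (e : E) (m : M), α (ι e) m = j e * m * (j e)⁻¹) :
    ∃ (G' : Type) (_ : Group G') (u : G →* G') (v : M →* G') (π : G' →* G ⧸ ι.range),
      Injective u ∧ Injective v ∧ (∀ g m, u g * v m * (u g)⁻¹ = v (α g m)) ∧
      (∀ e, u (ι e) = v (j e)) ∧ (∀ x, ∃ m g, x = v m * u g) ∧
      Surjective π ∧ π.ker = v.range ∧ π.comp u = QuotientGroup.mk' ι.range := by
  classical
  -- the subgroup to be killed
  let ν : E →* M ⋊[α] G :=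
    { toFun := fun e => ⟨(j e)⁻¹, ι e⟩
      map_one' := by ext <;> simp
      map_mul' := by
        intro a b
        ext
        · simp only [SemidirectProduct.mul_left, h2, map_mul]
          group
        · simp }
  have hνl : ∀ e, (ν e).left = (j e)⁻¹ := fun e => rfl
  have hνr : ∀ e, (ν e).right = ι e := fun e => rfl
  have hnorm : ν.range.Normal := by
    refine ⟨?_⟩
    rintro _ ⟨e, rfl⟩ ⟨m, g⟩
    obtain ⟨e', he'⟩ := hn.conj_mem (ι e) ⟨e, rfl⟩ g
    refine ⟨e', ?_⟩
    have hje := h1 g e e' he'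
    have hact : ∀ m' : M, α g (α (ι e) m') = α (ι e') (α g m') := by
      intro m'
      rw [he']
      simp [map_mul]
    ext
    · simp only [hνl, SemidirectProduct.mul_left, SemidirectProduct.mul_right, hνr,
        SemidirectProduct.inv_left, map_inv]
      have h5 : α (g * ι e) ((α g)⁻¹ m) = α (ι e') m := by
        have h6 : g * ι e * g⁻¹ = ι e' := he'.symm
        rw [← map_inv, ← MulAut.mul_apply, ← map_mul, h6]
      rw [h5, h2, ← hje]
      group
    · simp only [hνr, he', SemidirectProduct.mul_right, SemidirectProduct.inv_right]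
  let N : Subgroup (M ⋊[α] G) := ν.range
  let q : M ⋊[α] G →* (M ⋊[α] G) ⧸ N := QuotientGroup.mk' N
  have hq : ∀ x, q x = 1 ↔ ∃ e, ν e = x := fun x => by
    rw [← MonoidHom.mem_ker, QuotientGroup.ker_mk']; rfl
  let π₀ : M ⋊[α] G →* G ⧸ ι.range := (QuotientGroup.mk' ι.range).comp SemidirectProduct.rightHom
  have hπ₀ : N ≤ π₀.ker := by
    rintro _ ⟨e, rfl⟩
    rw [MonoidHom.mem_ker]
    change QuotientGroup.mk' ι.range (ι e) = 1
    rw [← MonoidHom.mem_ker, QuotientGroup.ker_mk']
    exact ⟨e, rfl⟩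
  refine ⟨(M ⋊[α] G) ⧸ N, inferInstance, q.comp SemidirectProduct.inr, q.comp SemidirectProduct.inl,
    QuotientGroup.lift N π₀ (fun x hx => hπ₀ hx), ?_, ?_, ?_, ?_, ?_, ?_, ?_, ?_⟩
  · rw [injective_iff_map_eq_one]
    intro g hg
    obtain ⟨e, he⟩ := (hq _).1 hg
    have hl := congrArg SemidirectProduct.left he
    have hr := congrArg SemidirectProduct.right he
    rw [hνl] at hl
    rw [hνr] at hr
    simp only [SemidirectProduct.left_inr, inv_eq_one] at hl
    simp only [SemidirectProduct.right_inr] at hr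
    have : e = 1 := hj (by rw [hl, map_one])
    rw [← hr, this, map_one]
  · rw [injective_iff_map_eq_one]
    intro m hm
    obtain ⟨e, he⟩ := (hq _).1 hm
    have hl := congrArg SemidirectProduct.left he
    have hr := congrArg SemidirectProduct.right he
    rw [hνl] at hl
    rw [hνr] at hr
    simp only [SemidirectProduct.left_inl] at hl
    simp only [SemidirectProduct.right_inl] at hr
    have : e = 1 := hι (by rw [hr, map_one])
    rw [← hl, this, map_one, inv_one]
  · intro g m
    simp only [MonoidHom.comp_apply, ← map_mul, ← map_inv]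
    rw [SemidirectProduct.inl_aut]
  · intro e
    change q (SemidirectProduct.inr (ι e)) = q (SemidirectProduct.inl (j e))
    have h3 : q (SemidirectProduct.inl (j e) * ν e) = q (SemidirectProduct.inl (j e)) := by
      rw [map_mul, (hq (ν e)).2 ⟨e, rfl⟩, mul_one]
    rw [← h3]
    congr 1
    ext
    · simp [hνl]
    · simp [hνr]
  · intro x
    obtain ⟨⟨m, g⟩, rfl⟩ := QuotientGroup.mk'_surjective N x
    refine ⟨m, g, ?_⟩
    change q _ = q _ * q _
    rw [← map_mul, ← SemidirectProduct.mk_eq_inl_mul_inr]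
  · intro x
    obtain ⟨g, rfl⟩ := QuotientGroup.mk'_surjective ι.range x
    refine ⟨q (SemidirectProduct.inr g), ?_⟩
    change QuotientGroup.lift N π₀ _ (QuotientGroup.mk' N _) = _
    simp [π₀]
  · ext x
    obtain ⟨⟨m, g⟩, rfl⟩ := QuotientGroup.mk'_surjective N x
    rw [MonoidHom.mem_ker]
    have h4 : QuotientGroup.lift N π₀ (fun x hx => hπ₀ hx) (QuotientGroup.mk' N ⟨m, g⟩) =
        QuotientGroup.mk' ι.range g := rfl
    rw [h4, ← MonoidHom.mem_ker, QuotientGroup.ker_mk']
    constructor
    · rintro ⟨e, rfl⟩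
      refine ⟨m * j e, ?_⟩
      change q _ = q _
      have h3 : q (SemidirectProduct.inl (m * j e) * ν e) = q (SemidirectProduct.inl (m * j e)) := by
        rw [map_mul, (hq (ν e)).2 ⟨e, rfl⟩, mul_one]
      rw [← h3]
      congr 1
      ext
      · simp [hνl]
      · simp [hνr]
    · rintro ⟨m', hm'⟩
      have h5 : q (SemidirectProduct.inl m') = q ⟨m, g⟩ := hm'
      have h6 : q ((SemidirectProduct.inl m')⁻¹ * ⟨m, g⟩) = 1 := by
        rw [map_mul, map_inv, h5, inv_mul_cancel]
      obtain ⟨e, he⟩ := (hq _).1 h6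
      have hr := congrArg SemidirectProduct.right he
      rw [hνr] at hr
      refine ⟨e, ?_⟩
      simpa using hr
  · ext g
    rfl

end Pool.SC
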