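import Pool.Agent.Lib.MP_565fc2_lc.SC.A02Pushout

/-!
# SC-A03: two quotients `X`, `Y` of `G` embed into groups with the same finite radical
-/

set_option autoImplicit false

namespace Pool.SC

open Subgroup Function

/-- the quotient `θ : G → X` has the same type as `G`: it is injective on `fcr G`, the centralizer of `fcr G` is mapped
into the centralizer of `fcr X`, and `fcr X` is contained in the image of `fcr G · C(fcr G)` -/
structure NearQ {G X : Type} [Group G] [Group X] (θ : G →* X) : Prop where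
  surj : Surjective θ
  neh : NEH X
  inj : ∀ e ∈ fcr G, θ e = 1 → e = 1
  cent : ∀ c ∈ centralizer (fcr G : Set G), θ c ∈ centralizer (fcr X : Set X)
  decomp : ∀ x ∈ fcr X, ∃ e ∈ fcr G, ∃ c ∈ centralizer (fcr G : Set G), x = θ e * θ c

namespace NearQ

variable {G X : Type} [Group G] [Group X] {θ : G →* X}

theorem map_mem (h : NearQ θ) {e : G} (he : e ∈ fcr G) : θ e ∈ fcr X := map_mem_fcr θ h.surj he

theorem mem_centralizer (h : NearQ θ) {g : G} (hg : θ g ∈ centralizer (fcr X : Set X)) :
    g ∈ centralizer (fcr G : Set G) := by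
  rw [mem_centralizer_iff]
  intro e he
  have h1 : g * e * g⁻¹ * e⁻¹ ∈ fcr G := mul_mem (fcr_normal.conj_mem e he g) (inv_mem he)
  have h2 : θ (g * e * g⁻¹ * e⁻¹) = 1 := by
    have := (mem_centralizer_iff.1 hg) (θ e) (h.map_mem he)
    simp only [map_mul, map_inv]
    rw [← this]; simp
  have h3 := h.inj _ h1 h2
  calc e * g = (g * e * g⁻¹ * e⁻¹)⁻¹ * (g * e) := by group
    _ = g * e := by rw [h3]; simp

theorem ker_le (h : NearQ θ) : θ.ker ≤ centralizer (fcr G : Set G) := fun g hg =>
  h.mem_centralizer (by rw [MonoidHom.mem_ker.1 hg]; exact one_mem _)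

/-- a homomorphism on `G` which is trivial on the centralizer of the radical descends to `X` -/
theorem exists_lift (h : NearQ θ) {A : Type} [Group A] (β : G →* A)
    (hβ : centralizer (fcr G : Set G) ≤ β.ker) : ∃ α : X →* A, ∀ g, α (θ g) = β g := by
  refine ⟨MonoidHom.liftOfSurjective θ h.surj ⟨β, h.ker_le.trans hβ⟩, fun g => ?_⟩
  exact MonoidHom.liftOfRightInverse_comp_apply θ _ _ ⟨β, h.ker_le.trans hβ⟩ g

end NearQ

section

variable {G X Y : Type} [Group G] [Group X] [Group Y] {θ : G →* X} {ψ : G →* Y}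

/-- first step: a group `Y'` containing `Y` and `fcr X` -/
theorem exists_first_A (hB1 : B1) (hB4 : B4) (hX : NearQ θ) (hY : NearQ ψ) :
    ∃ (Y' : Type) (_ : Group Y') (u : Y →* Y') (v : fcr X →* Y'),
      Injective u ∧ Injective v ∧ NEH Y' ∧
      (∀ (g : G) (m m' : fcr X), (m' : X) = θ g * m * (θ g)⁻¹ → u (ψ g) * v m * (u (ψ g))⁻¹ = v m') ∧
      (∀ (e : G) (m : fcr X), e ∈ fcr G → (m : X) = θ e → u (ψ e) = v m) ∧
      (∀ x, ∃ m y, x = v m * u y) ∧ (∀ m, v m ∈ fcr Y') ∧
      (∀ x ∈ fcr Y', ∃ m, ∃ y ∈ fcr Y, x = v m * u y) := by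
  have hfX : Finite (fcr X) := hB1 X hX.neh
  obtain ⟨α, hα⟩ := hY.exists_lift ((MulAut.conjNormal (H := fcr X)).comp θ) (by
    intro c hc
    rw [MonoidHom.mem_ker]
    ext m
    change ((MulAut.conjNormal (θ c) m : fcr X) : X) = m
    rw [MulAut.conjNormal_apply]
    have := (mem_centralizer_iff.1 (hX.cent c hc)) m m.2
    rw [← this]; simp)
  have hα' : ∀ (g : G) (m : fcr X), ((α (ψ g) m : fcr X) : X) = θ g * m * (θ g)⁻¹ := by
    intro g m
    rw [hα]
    change ((MulAut.conjNormal (θ g) m : fcr X) : X) = _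
    rw [MulAut.conjNormal_apply]
  let ι : fcr G →* Y := ψ.comp (fcr G).subtype
  let j : fcr G →* fcr X := (θ.comp (fcr G).subtype).codRestrict (fcr X) (fun e => hX.map_mem e.2)
  have hι : Injective ι := by
    rw [injective_iff_map_eq_one]
    intro e he
    exact Subtype.ext (hY.inj e e.2 he)
  have hj : Injective j := by
    rw [injective_iff_map_eq_one]
    intro e he
    exact Subtype.ext (hX.inj e e.2 (congrArg Subtype.val he))
  have hn : ι.range.Normal := by
    have h1 : ι.range = (fcr G).map ψ := by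
      simp only [ι, MonoidHom.range_comp, range_subtype]
    rw [h1]
    exact Normal.map fcr_normal ψ hY.surj
  have hjv : ∀ e, ((j e : fcr X) : X) = θ e := fun e => rfl
  obtain ⟨Y', _, u, v, π, hu, hv, hact, hglue, hgen, hπs, hπk, hπu⟩ :=
    crossedPushout ι j α hι hj hn (by
      intro y e e' h
      obtain ⟨g, rfl⟩ := hY.surj y
      have h1 : e' = ⟨g * (e : G) * g⁻¹, fcr_normal.conj_mem (e : G) e.2 g⟩ := hι (by
        rw [h]; simp [ι])
      ext
      rw [hα', h1, hjv, hjv]
      simp) (by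
      intro e m
      ext
      change ((α (ψ e) m : fcr X) : X) = _
      rw [hα']
      simp [hjv])
  have hfin : Finite v.range := Finite.of_surjective v.rangeRestrict v.rangeRestrict_surjective
  have hker : Finite π.ker := by rw [hπk]; exact hfin
  have hnv : v.range.Normal := by rw [← hπk]; infer_instance
  have hfinι : Finite ι.range := by
    have : Finite (fcr G) := Finite.of_injective j hj
    exact Finite.of_surjective ι.rangeRestrict ι.rangeRestrict_surjective
  have hneh : NEH Y' := by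
    rw [neh_iff_of_finKer hB4 π hπs hker]
    rw [← neh_iff_of_finKer hB4 (QuotientGroup.mk' ι.range) (QuotientGroup.mk'_surjective _)
      (by rw [QuotientGroup.ker_mk']; exact hfinι)]
    exact hY.neh
  have hvm : ∀ m, v m ∈ fcr Y' := fun m => le_fcr v.range ⟨m, rfl⟩
  refine ⟨Y', _, u, v, hu, hv, hneh, ?_, ?_, hgen, hvm, ?_⟩
  · intro g m m' h
    rw [hact]
    congr 1
    ext
    rw [hα', h]
  · intro e m he h
    have h1 := hglue ⟨e, he⟩
    have h2 : j ⟨e, he⟩ = m := Subtype.ext (by rw [hjv, h])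
    rw [← h2, ← h1]; rfl
  · intro x hx
    obtain ⟨m, y, rfl⟩ := hgen x
    refine ⟨m, y, ?_, rfl⟩
    have h1 : u y ∈ fcr Y' := by
      have := mul_mem (inv_mem (hvm m)) hx
      simpa using this
    refine finConj_of_map u (K := ⊤) ?_ (FinConj.mono le_top h1)
    rw [(MonoidHom.ker_eq_bot_iff u).2 hu]
    infer_instance

end

end Pool.SC
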