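import Pool.Agent.Lib.MP_565fc2_lc.SC.A03Pair

/-!
# SC-A04: two quotients `X`, `Y` of `G` embed into groups `X'`, `Y'` with the same finite radical `F`
-/

set_option autoImplicit false

namespace Pool.SC

open Subgroup Function

section

variable {G X Y : Type} [Group G] [Group X] [Group Y] {θ : G →* X} {ψ : G →* Y}

/-- second step: groups `X'`, `Y'` containing `X`, `Y`, with the same radical `F` and the same action of `G` on it -/
theorem exists_pair_A (hB1 : B1) (hB4 : B4) (hX : NearQ θ) (hY : NearQ ψ) :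
    ∃ (X' Y' F : Type) (_ : Group X') (_ : Group Y') (_ : Group F) (u' : X →* X') (u : Y →* Y')
      (i₁ : F →* X') (i₂ : F →* Y'),
      Finite F ∧ Injective u' ∧ Injective u ∧ Injective i₁ ∧ Injective i₂ ∧ NEH X' ∧ NEH Y' ∧
      i₁.range = fcr X' ∧ i₂.range = fcr Y' ∧
      (∀ (g : G) (f f' : F), i₂ f' = u (ψ g) * i₂ f * (u (ψ g))⁻¹ →
        i₁ f' = u' (θ g) * i₁ f * (u' (θ g))⁻¹) ∧
      (∀ c ∈ centralizer (fcr G : Set G), ∀ f : F, u (ψ c) * i₂ f * (u (ψ c))⁻¹ = i₂ f) ∧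
      (∀ x, ∃ f y, x = i₁ f * u' y) ∧ (∀ x, ∃ f y, x = i₂ f * u y) ∧
      (∀ f, ∃ f₁ f₂, f = f₁ * f₂ ∧ (∃ x, i₁ f₁ = u' x) ∧ (∃ y, i₂ f₂ = u y)) := by
  classical
  have hfX : Finite (fcr X) := hB1 X hX.neh
  obtain ⟨Y', _, u, v, hu, hv, hneh, hact, hglue, hgen, hvm, hrad⟩ := exists_first_A hB1 hB4 hX hY
  have hfY' : Finite (fcr Y') := hB1 Y' hneh
  -- elements of the radical of `X` commute with images of the centralizer
  have hcX : ∀ c ∈ centralizer (fcr G : Set G), ∀ x ∈ fcr X, x * θ c = θ c * x :=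
    fun c hc x hx => mem_centralizer_iff.1 (hX.cent c hc) x hx
  have hcY : ∀ c ∈ centralizer (fcr G : Set G), ∀ y ∈ fcr Y, y * ψ c = ψ c * y :=
    fun c hc y hy => mem_centralizer_iff.1 (hY.cent c hc) y hy
  -- C acts trivially on fcr Y'
  have htriv : ∀ c ∈ centralizer (fcr G : Set G), ∀ z ∈ fcr Y',
      u (ψ c) * z * (u (ψ c))⁻¹ = z := by
    intro c hc z hz
    obtain ⟨m, y, hy, rfl⟩ := hrad z hz
    have h1 : u (ψ c) * v m * (u (ψ c))⁻¹ = v m := by
      refine hact c m m ?_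
      rw [← hcX c hc m m.2]; simp
    have h2 : u (ψ c) * u y * (u (ψ c))⁻¹ = u y := by
      rw [← map_mul, ← map_inv, ← map_mul, ← hcY c hc y hy]; simp
    calc u (ψ c) * (v m * u y) * (u (ψ c))⁻¹
        = (u (ψ c) * v m * (u (ψ c))⁻¹) * (u (ψ c) * u y * (u (ψ c))⁻¹) := by group
      _ = v m * u y := by rw [h1, h2]
  obtain ⟨α, hα⟩ := hX.exists_lift
    ((MulAut.conjNormal (H := fcr Y')).comp (u.comp ψ)) (by
    intro c hc
    rw [MonoidHom.mem_ker]
    ext m
    change ((MulAut.conjNormal (u (ψ c)) m : fcr Y') : Y') = m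
    rw [MulAut.conjNormal_apply]
    exact htriv c hc m m.2)
  have hα' : ∀ (g : G) (m : fcr Y'), ((α (θ g) m : fcr Y') : Y') = u (ψ g) * m * (u (ψ g))⁻¹ := by
    intro g m
    rw [hα]
    change ((MulAut.conjNormal (u (ψ g)) m : fcr Y') : Y') = _
    rw [MulAut.conjNormal_apply]
  let ι : fcr X →* X := (fcr X).subtype
  let j : fcr X →* fcr Y' := v.codRestrict (fcr Y') hvm
  have hjv : ∀ m, ((j m : fcr Y') : Y') = v m := fun m => rfl
  have hι : Injective ι := (fcr X).subtype_injective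
  have hj : Injective j := fun a b h => hv (congrArg Subtype.val h)
  have hr : ι.range = fcr X := by simp [ι]
  have hn : ι.range.Normal := by rw [hr]; infer_instance
  -- the elements of the central part
  have hcentral : ∀ c ∈ centralizer (fcr G : Set G), ∀ (m : fcr X), (m : X) = θ c →
      ∀ z ∈ fcr Y', v m * z = z * v m := by
    intro c hc m hm z hz
    obtain ⟨m', y, hy, rfl⟩ := hrad z hz
    have h1 : v m * v m' = v m' * v m := by
      rw [← map_mul, ← map_mul]
      congr 1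
      ext
      simp only [coe_mul, hm]
      exact (hcX c hc m' m'.2).symm
    have h2 : u y * v m * (u y)⁻¹ = v m := by
      obtain ⟨e, he, c', hc', rfl⟩ := hY.decomp y hy
      rw [← map_mul ψ]
      refine hact (e * c') m m ?_
      have h3 : (m : X) * θ c' = θ c' * m := hcX c' hc' m m.2
      have h4 : θ e * (m : X) = m * θ e := by
        rw [hm]; exact hcX c hc (θ e) (hX.map_mem he)
      rw [map_mul]
      have h6 : (m : X) * (θ e * θ c') = θ e * θ c' * m := by
        rw [← mul_assoc, ← h4, mul_assoc (θ e), h3, mul_assoc]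
      rw [← h6]; group
    have h5 : u y * v m = v m * u y := by
      rw [mul_inv_eq_iff_eq_mul] at h2; exact h2
    rw [← mul_assoc, h1, mul_assoc, ← h5, mul_assoc]
  obtain ⟨X', _, u', v', π, hu', hv', hact', hglue', hgen', hπs, hπk, hπu⟩ :=
    crossedPushout ι j α hι hj hn (by
      intro x e e' h
      obtain ⟨g, rfl⟩ := hX.surj x
      ext
      rw [hα', hjv, hjv]
      exact (hact g e e' h).symm) (by
      intro x m
      ext
      obtain ⟨e, he, c, hc, hx⟩ := hX.decomp x x.2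
      have h1 : ι x = θ (e * c) := by rw [map_mul]; exact hx
      have hmem : θ c ∈ fcr X := by
        have : θ c = (θ e)⁻¹ * x := by rw [hx]; simp
        rw [this]; exact mul_mem (inv_mem (hX.map_mem he)) x.2
      have h2 : x = ⟨θ e, hX.map_mem he⟩ * ⟨θ c, hmem⟩ := Subtype.ext hx
      rw [h1, hα']
      simp only [coe_mul, coe_inv, hjv]
      have h3 : u (ψ c) * m * (u (ψ c))⁻¹ = m := htriv c hc m m.2
      have h4 : v ⟨θ c, hmem⟩ * m = m * v ⟨θ c, hmem⟩ := hcentral c hc _ rfl m m.2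
      have h5 : u (ψ e) = v ⟨θ e, hX.map_mem he⟩ := hglue e _ he rfl
      conv_rhs => rw [h2]
      simp only [map_mul, mul_inv_rev]
      calc u (ψ e) * u (ψ c) * m * ((u (ψ c))⁻¹ * (u (ψ e))⁻¹)
          = u (ψ e) * (u (ψ c) * m * (u (ψ c))⁻¹) * (u (ψ e))⁻¹ := by group
        _ = u (ψ e) * m * (u (ψ e))⁻¹ := by rw [h3]
        _ = v ⟨θ e, hX.map_mem he⟩ * m * (v ⟨θ e, hX.map_mem he⟩)⁻¹ := by rw [h5]
        _ = v ⟨θ e, hX.map_mem he⟩ * (m * v ⟨θ c, hmem⟩ * (v ⟨θ c, hmem⟩)⁻¹) *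
            (v ⟨θ e, hX.map_mem he⟩)⁻¹ := by simp
        _ = _ := by rw [← h4]; group)
  have hfin : Finite v'.range := Finite.of_surjective v'.rangeRestrict v'.rangeRestrict_surjective
  have hker : Finite π.ker := by rw [hπk]; exact hfin
  have hnv : v'.range.Normal := by rw [← hπk]; infer_instance
  have hfinι : Finite ι.range := by rw [hr]; exact hfX
  have hnehX' : NEH X' := by
    rw [neh_iff_of_finKer hB4 π hπs hker]
    rw [← neh_iff_of_finKer hB4 (QuotientGroup.mk' ι.range) (QuotientGroup.mk'_surjective _)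
      (by rw [QuotientGroup.ker_mk']; exact hfinι)]
    exact hX.neh
  refine ⟨X', Y', fcr Y', _, _, inferInstance, u', u, v', (fcr Y').subtype, hfY', hu', hu, hv',
    (fcr Y').subtype_injective, hnehX', hneh, ?_, by simp, ?_, ?_, hgen', ?_, ?_⟩
  · apply le_antisymm (le_fcr v'.range)
    intro x hx
    obtain ⟨m, y, rfl⟩ := hgen' x
    have h1 : u' y ∈ fcr X' := by
      have := mul_mem (inv_mem (le_fcr v'.range ⟨m, rfl⟩)) hx
      simpa using this
    have h2 : y ∈ fcr X := by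
      refine finConj_of_map u' (K := ⊤) ?_ (FinConj.mono le_top h1)
      rw [(MonoidHom.ker_eq_bot_iff u').2 hu']
      infer_instance
    have h3 : u' y = v' (j ⟨y, h2⟩) := hglue' ⟨y, h2⟩
    rw [h3, ← map_mul]
    exact ⟨_, rfl⟩
  · intro g f f' h
    have h1 : f' = α (θ g) f := by
      ext
      rw [hα']; exact h
    rw [h1, hact']
  · intro c hc f
    exact htriv c hc f f.2
  · intro x
    obtain ⟨m, y, rfl⟩ := hgen x
    exact ⟨⟨v m, hvm m⟩, y, rfl⟩
  · intro f
    obtain ⟨m, y, hy, hf⟩ := hrad f f.2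
    have huy : u y ∈ fcr Y' := by
      have : u y = (v m)⁻¹ * f := by rw [hf]; simp
      rw [this]; exact mul_mem (inv_mem (hvm m)) f.2
    refine ⟨⟨v m, hvm m⟩, ⟨u y, huy⟩, Subtype.ext hf, ⟨m, ?_⟩, ⟨y, rfl⟩⟩
    exact (hglue' m).symm

end

end Pool.SC
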