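import Pool.Agent.Lib.MP_565fc2_lc.SC.A04Pair2

/-!
# SC-A05: small cancellation in amalgams over the common finite radical
-/

set_option autoImplicit false

namespace Pool.SC

open Subgroup Function

section coprod

variable {A B : Type} [Group A] [Group B]

theorem lox_inr (hFL : FreeProdLox) (hA : WordHyp A) (hB : WordHyp B) {b : B} (hb : Lox b) :
    Lox (Monoid.Coprod.inr b : Monoid.Coprod A B) := by
  have h := hFL B A hB hA b hb
  exact lox_of_equiv (MulEquiv.coprodComm B A) h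

theorem finConj_inl (hFC : FreeProdFC) {H : Subgroup A} (hfi : H.FiniteIndex) (hi : Infinite A)
    (hfcr : fcr A = ⊥) {x : Monoid.Coprod A B}
    (hx : FinConj (H.map (Monoid.Coprod.inl : A →* Monoid.Coprod A B)) x) : x = 1 := by
  have hH : Infinite H := by
    by_contra hn
    rw [not_infinite_iff_finite] at hn
    have : Finite A := Finite.of_subgroup_quotient H
    exact not_finite A
  obtain ⟨a, rfl, ha⟩ := hFC A B H hH x hx
  have h1 : a ∈ fcr A := finConj_top_of_finiteIndex H ha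
  rw [hfcr, mem_bot] at h1
  rw [h1, map_one]

theorem finConj_inr (hFC : FreeProdFC) {H : Subgroup B} (hfi : H.FiniteIndex) (hi : Infinite B)
    (hfcr : fcr B = ⊥) {x : Monoid.Coprod A B}
    (hx : FinConj (H.map (Monoid.Coprod.inr : B →* Monoid.Coprod A B)) x) : x = 1 := by
  have h1 := FinConj.map hx (Monoid.Coprod.swap A B)
  rw [Subgroup.map_map] at h1
  have h2 : (Monoid.Coprod.swap A B).comp Monoid.Coprod.inr = Monoid.Coprod.inl := rfl
  rw [h2] at h1
  have h3 := finConj_inl hFC hfi hi hfcr h1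
  exact Monoid.Coprod.swap_eq_one.1 h3

end coprod

/-- quotient by the whole (finite) radical has trivial radical -/
theorem fcr_quotient_eq_bot {G : Type} [Group G] (N : Subgroup G) [N.Normal] (hN : N = fcr G)
    (hf : Finite N) : fcr (G ⧸ N) = ⊥ := by
  rw [eq_bot_iff]
  intro x hx
  obtain ⟨g, rfl⟩ := QuotientGroup.mk'_surjective N x
  have h1 : g ∈ fcr G := mem_fcr_of_map (QuotientGroup.mk' N) (QuotientGroup.mk'_surjective _)
    (by rw [QuotientGroup.ker_mk']; exact hf) hx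
  rw [mem_bot]
  exact (QuotientGroup.eq_one_iff g).2 (by rw [hN]; exact h1)

/-- **Small cancellation in the amalgam.** `A₁`, `A₂` non-elementary hyperbolic with the same radical `E`, `H₁`, `H₂` finite
index subgroups commuting with `E`. -/
theorem amalgSC (hAm : Amalg) (hFP : FreeProdHyp) (hFL : FreeProdLox) (hFC : FreeProdFC)
    (hSC : ScGen) (hB2 : B2) (hB3 : B3) (hB4 : B4)
    {A₁ A₂ E : Type} [Group A₁] [Group A₂] [Group E] [Finite E] (i₁ : E →* A₁) (i₂ : E →* A₂)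
    (hi₁ : Injective i₁) (hi₂ : Injective i₂) (hr₁ : i₁.range = fcr A₁) (hr₂ : i₂.range = fcr A₂)
    (hA₁ : NEH A₁) (hA₂ : NEH A₂) (H₁ : Subgroup A₁) (H₂ : Subgroup A₂) (hH₁ : H₁.FiniteIndex)
    (hH₂ : H₂.FiniteIndex) (hc₁ : ∀ h ∈ H₁, ∀ e, i₁ e * h = h * i₁ e)
    (hc₂ : ∀ h ∈ H₂, ∀ e, i₂ e * h = h * i₂ e) :
    ∃ (D : Type) (_ : Group D) (j₁ : A₁ →* D) (j₂ : A₂ →* D),
      Injective j₁ ∧ Injective j₂ ∧ (∀ e, j₁ (i₁ e) = j₂ (i₂ e)) ∧ j₁.range ⊔ j₂.range = ⊤ ∧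
      ∀ (ι : Type) [Finite ι] [Nonempty ι] (cl : ι → Bool) (g : ι → D),
        (∀ i e, j₁ (i₁ e) * g i = g i * j₁ (i₁ e)) → ∀ M : Set D, M.Finite → (1 : D) ∉ M →
        ∃ u : ι → D, (∀ i, cl i = true → u i ∈ H₁.map j₁) ∧ (∀ i, cl i = false → u i ∈ H₂.map j₂) ∧
          NEH (D ⧸ normalClosure (Set.range fun i => g i * u i)) ∧
          ∀ m ∈ M, m ∉ normalClosure (Set.range fun i => g i * u i) := by
  classical
  have hn₁ : i₁.range.Normal := by rw [hr₁]; infer_instance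
  have hn₂ : i₂.range.Normal := by rw [hr₂]; infer_instance
  have hf₁ : Finite i₁.range := Finite.of_surjective i₁.rangeRestrict i₁.rangeRestrict_surjective
  have hf₂ : Finite i₂.range := Finite.of_surjective i₂.rangeRestrict i₂.rangeRestrict_surjective
  obtain ⟨D, _, j₁, j₂, π, hj₁, hj₂, hglue, hgen, hπs, hπk, hπ₁, hπ₂⟩ :=
    hAm A₁ A₂ E i₁ i₂ hi₁ hi₂ hn₁ hn₂
  have hglue' : ∀ e, j₁ (i₁ e) = j₂ (i₂ e) := fun e => DFunLike.congr_fun hglue e
  have hπ₁' : ∀ a, π (j₁ a) = Monoid.Coprod.inl (QuotientGroup.mk' i₁.range a) :=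
    fun a => DFunLike.congr_fun hπ₁ a
  have hπ₂' : ∀ a, π (j₂ a) = Monoid.Coprod.inr (QuotientGroup.mk' i₂.range a) :=
    fun a => DFunLike.congr_fun hπ₂ a
  refine ⟨D, _, j₁, j₂, hj₁, hj₂, hglue', hgen, ?_⟩
  intro ι _ _ cl g hg M hM h1M
  have hkf : Finite π.ker := by
    rw [hπk]; exact Finite.of_surjective (j₁.comp i₁).rangeRestrict (MonoidHom.rangeRestrict_surjective _)
  have hQ₁ : WordHyp (A₁ ⧸ i₁.range) := ((hB4 A₁ i₁.range hf₁).1).2 hA₁.1
  have hQ₂ : WordHyp (A₂ ⧸ i₂.range) := ((hB4 A₂ i₂.range hf₂).1).2 hA₂.1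
  have hN₁ : NonElem (A₁ ⧸ i₁.range) := ((hB4 A₁ i₁.range hf₁).2.1).2 hA₁.2
  have hN₂ : NonElem (A₂ ⧸ i₂.range) := ((hB4 A₂ i₂.range hf₂).2.1).2 hA₂.2
  have hD : WordHyp D := (wordHyp_iff_of_finKer hB4 π hπs hkf).2 (hFP _ _ hQ₁ hQ₂)
  obtain ⟨h₁, hh₁, hl₁⟩ := exists_lox_mem hB2 hB3 hA₁.1 hA₁.infinite_A H₁
  obtain ⟨h₂, hh₂, hl₂⟩ := exists_lox_mem hB2 hB3 hA₂.1 hA₂.infinite_A H₂
  have hlQ₁ : Lox (QuotientGroup.mk' i₁.range h₁) := ((hB4 A₁ i₁.range hf₁).2.2 h₁).2 hl₁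
  have hlQ₂ : Lox (QuotientGroup.mk' i₂.range h₂) := ((hB4 A₂ i₂.range hf₂).2.2 h₂).2 hl₂
  have hlD₁ : Lox (j₁ h₁) := by
    rw [← lox_iff_of_finKer hB4 π hπs hkf, hπ₁']
    exact hFL _ _ hQ₁ hQ₂ _ hlQ₁
  have hlD₂ : Lox (j₂ h₂) := by
    rw [← lox_iff_of_finKer hB4 π hπs hkf, hπ₂']
    exact lox_inr hFL hQ₁ hQ₂ hlQ₂
  have hncomm : ∀ (γ : D) (n m : ℤ), n ≠ 0 → m ≠ 0 → γ * (j₁ h₁) ^ n * γ⁻¹ ≠ (j₂ h₂) ^ m := by
    intro γ n m hn hm h
    have h1 := congrArg (fun x => Monoid.Coprod.fst (π x)) h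
    simp only [map_mul, map_inv, map_zpow, hπ₁', hπ₂', Monoid.Coprod.fst_apply_inl,
      Monoid.Coprod.fst_apply_inr, one_zpow] at h1
    have h2 := hlQ₁.zpow_ne_one_A hn
    apply h2
    exact conj_eq_one_iff.1 h1
  let Hf : Bool → Subgroup D := fun b => cond b (H₁.map j₁) (H₂.map j₂)
  let hf : Bool → D := fun b => cond b (j₁ h₁) (j₂ h₂)
  have hcent : ∀ σ, Hf σ ≤ centralizer ((j₁.comp i₁).range : Set D) := by
    intro σ
    cases σ
    · rintro _ ⟨h, hh, rfl⟩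
      rw [mem_centralizer_iff]
      rintro _ ⟨e, rfl⟩
      change j₁ (i₁ e) * _ = _ * j₁ (i₁ e)
      rw [hglue', ← map_mul, ← map_mul, hc₂ h hh e]
    · rintro _ ⟨h, hh, rfl⟩
      rw [mem_centralizer_iff]
      rintro _ ⟨e, rfl⟩
      change j₁ (i₁ e) * _ = _ * j₁ (i₁ e)
      rw [← map_mul, ← map_mul, hc₁ h hh e]
  have hEn : (j₁.comp i₁).range.Normal := by rw [← hπk]; infer_instance
  have hEf : Finite (j₁.comp i₁).range := by rw [← hπk]; exact hkf
  obtain ⟨u, hu, hNEH, hM'⟩ := hSC D (j₁.comp i₁).range hD Bool Hf hf inferInstance hcent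
    (by
      intro σ
      cases σ
      · exact mem_map_of_mem j₂ hh₂
      · exact mem_map_of_mem j₁ hh₁)
    (by
      intro σ
      cases σ
      · exact hlD₂
      · exact hlD₁)
    (by
      intro σ τ hne hc
      obtain ⟨γ, n, m, hn, hm, h⟩ := hc
      cases σ <;> cases τ
      · exact hne rfl
      · -- γ b^n γ⁻¹ = a^m
        refine hncomm γ⁻¹ m n hm hn ?_
        change γ * (j₂ h₂) ^ n * γ⁻¹ = (j₁ h₁) ^ m at h
        rw [← h]; group
      · exact hncomm γ n m hn hm h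
      · exact hne rfl)
    (by
      intro σ x hx
      rw [← hπk, MonoidHom.mem_ker]
      have h1 := FinConj.map hx π
      cases σ
      · have h2 : (Hf false).map π = (H₂.map (QuotientGroup.mk' i₂.range)).map
            (Monoid.Coprod.inr : _ →* Monoid.Coprod (A₁ ⧸ i₁.range) (A₂ ⧸ i₂.range)) := by
          change (H₂.map j₂).map π = _
          rw [Subgroup.map_map, Subgroup.map_map, hπ₂]
        rw [h2] at h1
        refine finConj_inr hFC ?_ hN₂.infinite_A (fcr_quotient_eq_bot _ hr₂ hf₂) h1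
        exact ⟨by
          have := index_map_dvd H₂ (QuotientGroup.mk'_surjective i₂.range)
          exact fun h0 => hH₂.index_ne_zero (by rw [h0] at this; exact Nat.eq_zero_of_zero_dvd this)⟩
      · have h2 : (Hf true).map π = (H₁.map (QuotientGroup.mk' i₁.range)).map
            (Monoid.Coprod.inl : _ →* Monoid.Coprod (A₁ ⧸ i₁.range) (A₂ ⧸ i₂.range)) := by
          change (H₁.map j₁).map π = _
          rw [Subgroup.map_map, Subgroup.map_map, hπ₁]
        rw [h2] at h1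
        refine finConj_inl hFC ?_ hN₁.infinite_A (fcr_quotient_eq_bot _ hr₁ hf₁) h1
        exact ⟨by
          have := index_map_dvd H₁ (QuotientGroup.mk'_surjective i₁.range)
          exact fun h0 => hH₁.index_ne_zero (by rw [h0] at this; exact Nat.eq_zero_of_zero_dvd this)⟩)
    ι cl g
    (by
      intro i
      rw [mem_centralizer_iff]
      rintro _ ⟨e, rfl⟩
      exact hg i e) M hM h1M
  refine ⟨u, ?_, ?_, hNEH, hM'⟩
  · intro i hi
    have := hu i
    rw [hi] at this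
    exact this
  · intro i hi
    have := hu i
    rw [hi] at this
    exact this

end Pool.SC
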