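import Pool.Agent.Lib.MP_565fc2_lc.SC.A05AmalgSC

/-!
# SC-A06: common quotients of two near quotients
-/

set_option autoImplicit false

namespace Pool.SC

open Subgroup Function

theorem common_quotient (hAm : Amalg) (hFP : FreeProdHyp) (hFL : FreeProdLox) (hFC : FreeProdFC)
    (hSC : ScGen) (hB1 : B1) (hB2 : B2) (hB3 : B3) (hB4 : B4)
    {G X Y : Type} [Group G] [Group X] [Group Y] (hG : Group.FG G) (hfG : Finite (fcr G))
    {θ : G →* X} {ψ : G →* Y} (hX : NearQ θ) (hY : NearQ ψ)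
    (M₁ : Set X) (M₂ : Set Y) (hM₁ : M₁.Finite) (hM₂ : M₂.Finite) (h1₁ : (1 : X) ∉ M₁)
    (h1₂ : (1 : Y) ∉ M₂) :
    ∃ (L : Type) (_ : Group L) (g₁ : X →* L) (g₂ : Y →* L), Surjective g₁ ∧ Surjective g₂ ∧ NEH L ∧
      (∀ m ∈ M₁, g₁ m ≠ 1) ∧ (∀ m ∈ M₂, g₂ m ≠ 1) := by
  classical
  obtain ⟨X', Y', F, _, _, _, u', u, i₁, i₂, hF, hu', hu, hi₁, hi₂, hX', hY', hr₁, hr₂, hact, htriv,
    hgen₁, hgen₂, hdec⟩ := exists_pair_A hB1 hB4 hX hY
  set C : Subgroup G := centralizer (fcr G : Set G) with hC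
  have hCfi : C.FiniteIndex := centralizer_finiteIndex (fcr G)
  -- finite index of the images
  have hfi : ∀ {A A' : Type} [Group A] [Group A'] (f : G →* A) (w : A →* A') (i : F →* A'),
      Surjective f → Injective w → (∀ x, ∃ e y, x = i e * w y) → ((C.map f).map w).FiniteIndex := by
    intro A A' _ _ f w i hf hw hg
    have h1 : (C.map f).FiniteIndex := ⟨by
      have := index_map_dvd C hf
      exact fun h0 => hCfi.index_ne_zero (by rw [h0] at this; exact Nat.eq_zero_of_zero_dvd this)⟩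
    have h2 : w.range.FiniteIndex := by
      have : Finite (A' ⧸ w.range) := by
        refine Finite.of_surjective (fun e : F => ((i e : A') : A' ⧸ w.range)) ?_
        intro x
        obtain ⟨x, rfl⟩ := QuotientGroup.mk_surjective x
        obtain ⟨e, y, rfl⟩ := hg x
        refine ⟨e, ?_⟩
        rw [QuotientGroup.eq]
        exact ⟨y, by simp⟩
      exact finiteIndex_of_finite_quotient
    refine ⟨?_⟩
    rw [index_map]
    refine mul_ne_zero ?_ h2.index_ne_zero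
    have h3 : ((C.map f) ⊔ w.ker).FiniteIndex := finiteIndex_of_le (le_sup_left : C.map f ≤ _)
    exact h3.index_ne_zero
  have hH₁ := hfi θ u' i₁ hX.surj hu' hgen₁
  have hH₂ := hfi ψ u i₂ hY.surj hu hgen₂
  obtain ⟨D, _, j₁, j₂, hj₁, hj₂, hglue, hgenD, hsc⟩ :=
    amalgSC hAm hFP hFL hFC hSC hB2 hB3 hB4 i₁ i₂ hi₁ hi₂ hr₁ hr₂ hX' hY'
      ((C.map θ).map u') ((C.map ψ).map u) hH₁ hH₂
      (by
        rintro _ ⟨_, ⟨c, hc, rfl⟩, rfl⟩ e
        have h1 := hact c e e (htriv c hc e).symm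
        rw [eq_mul_inv_iff_mul_eq] at h1
        exact h1)
      (by
        rintro _ ⟨_, ⟨c, hc, rfl⟩, rfl⟩ e
        have h1 := (htriv c hc e).symm
        rw [eq_mul_inv_iff_mul_eq] at h1
        exact h1)
  let a : G →* D := j₁.comp (u'.comp θ)
  let b : G →* D := j₂.comp (u.comp ψ)
  have hconj : ∀ (s : G) (f : F), a s * j₁ (i₁ f) * (a s)⁻¹ = b s * j₁ (i₁ f) * (b s)⁻¹ := by
    intro s f
    have h1 : u (ψ s) * i₂ f * (u (ψ s))⁻¹ ∈ fcr Y' :=
      fcr_normal.conj_mem _ (by rw [← hr₂]; exact ⟨f, rfl⟩) _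
    rw [← hr₂] at h1
    obtain ⟨f', hf'⟩ := h1
    have h2 := hact s f f' hf'
    calc a s * j₁ (i₁ f) * (a s)⁻¹ = j₁ (u' (θ s) * i₁ f * (u' (θ s))⁻¹) := by
          simp [a]
      _ = j₁ (i₁ f') := by rw [h2]
      _ = j₂ (i₂ f') := hglue f'
      _ = j₂ (u (ψ s) * i₂ f * (u (ψ s))⁻¹) := by rw [hf']
      _ = b s * j₁ (i₁ f) * (b s)⁻¹ := by rw [hglue f]; simp [b]
  obtain ⟨S, hScl, hSfin⟩ := Group.fg_iff.1 hG
  have hfinS : Finite (insert (1 : G) S : Set G) := hSfin.insert 1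
  have hneS : Nonempty (insert (1 : G) S : Set G) := ⟨⟨1, Set.mem_insert _ _⟩⟩
  let gg : (insert (1 : G) S : Set G) × Bool → D := fun p => (a p.1)⁻¹ * b p.1
  obtain ⟨w, hw₁, hw₂, hNEH, hM⟩ := hsc ((insert (1 : G) S : Set G) × Bool) (fun p => p.2) gg
    (by
      rintro ⟨s, c⟩ e
      have h1 := hconj s e
      change j₁ (i₁ e) * ((a s)⁻¹ * b s) = ((a s)⁻¹ * b s) * j₁ (i₁ e)
      calc j₁ (i₁ e) * ((a s)⁻¹ * b s) = (a s)⁻¹ * (a s * j₁ (i₁ e) * (a s)⁻¹) * b s := by group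
        _ = ((a s)⁻¹ * b s) * j₁ (i₁ e) := by rw [h1]; group)
    ((fun x => j₁ (u' x)) '' M₁ ∪ (fun y => j₂ (u y)) '' M₂)
    ((hM₁.image _).union (hM₂.image _))
    (by
      rintro (⟨x, hx, h⟩ | ⟨y, hy, h⟩)
      · have : x = 1 := by
          apply hu'; apply hj₁; rw [map_one, map_one]; exact h
        exact h1₁ (this ▸ hx)
      · have : y = 1 := by
          apply hu; apply hj₂; rw [map_one, map_one]; exact h
        exact h1₂ (this ▸ hy))
  set N : Subgroup D := normalClosure (Set.range fun i => gg i * w i) with hN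
  let q : D →* D ⧸ N := QuotientGroup.mk' N
  have hqs : Surjective q := QuotientGroup.mk'_surjective N
  have hrel : ∀ p, q (gg p) * q (w p) = 1 := by
    intro p
    rw [← map_mul, ← MonoidHom.mem_ker, QuotientGroup.ker_mk']
    exact subset_normalClosure ⟨p, rfl⟩
  -- the image of b is contained in the image of a
  have hba : ∀ g, q (b g) ∈ (q.comp a).range := by
    intro g
    have hg : g ∈ closure S := by rw [hScl]; exact mem_top _
    induction hg using closure_induction with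
    | mem s hs =>
      obtain ⟨_, ⟨c, hc, rfl⟩, hc2⟩ := hw₁ (⟨s, Set.mem_insert_of_mem _ hs⟩, true) rfl
      obtain ⟨c0, hc0, rfl⟩ := hc
      have h1 := hrel (⟨s, Set.mem_insert_of_mem _ hs⟩, true)
      rw [← hc2] at h1
      change q ((a s)⁻¹ * b s) * q (a c0) = 1 at h1
      refine ⟨s * c0⁻¹, ?_⟩
      rw [map_mul, map_inv] at h1
      have h2 : q (b s) = q (a s) * (q (a c0))⁻¹ := by
        rw [mul_eq_one_iff_eq_inv, inv_mul_eq_iff_eq_mul] at h1; exact h1
      rw [h2]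
      simp
    | one => simp
    | mul x y _ _ hx hy => rw [map_mul, map_mul]; exact mul_mem hx hy
    | inv x _ hx => rw [map_inv, map_inv]; exact inv_mem hx
  have hab : ∀ g, q (a g) ∈ (q.comp b).range := by
    intro g
    have hg : g ∈ closure S := by rw [hScl]; exact mem_top _
    induction hg using closure_induction with
    | mem s hs =>
      obtain ⟨_, ⟨c, hc, rfl⟩, hc2⟩ := hw₂ (⟨s, Set.mem_insert_of_mem _ hs⟩, false) rfl
      obtain ⟨c0, hc0, rfl⟩ := hc
      have h1 := hrel (⟨s, Set.mem_insert_of_mem _ hs⟩, false)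
      rw [← hc2] at h1
      change q ((a s)⁻¹ * b s) * q (b c0) = 1 at h1
      refine ⟨s * c0, ?_⟩
      rw [map_mul, map_inv] at h1
      have h2 : q (b s) * q (b c0) = q (a s) := by
        rw [mul_assoc, inv_mul_eq_one] at h1; exact h1.symm
      rw [← h2]
      simp
    | one => simp
    | mul x y _ _ hx hy => rw [map_mul, map_mul]; exact mul_mem hx hy
    | inv x _ hx => rw [map_inv, map_inv]; exact inv_mem hx
  have haX : ∀ x, q (j₁ (u' x)) ∈ (q.comp a).range := by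
    intro x
    obtain ⟨g, rfl⟩ := hX.surj x
    exact ⟨g, rfl⟩
  have haY : ∀ y, q (j₂ (u y)) ∈ (q.comp a).range := by
    intro y
    obtain ⟨g, rfl⟩ := hY.surj y
    exact hba g
  have haF : ∀ f, q (j₁ (i₁ f)) ∈ (q.comp a).range := by
    intro f
    obtain ⟨f₁, f₂, rfl, ⟨x, hx⟩, ⟨y, hy⟩⟩ := hdec f
    rw [map_mul, map_mul, map_mul]
    refine mul_mem ?_ ?_
    · rw [hx]; exact haX x
    · rw [hglue, hy]; exact haY y
  have htop : (q.comp a).range = ⊤ := by
    rw [eq_top_iff]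
    have h1 : (j₁.range ⊔ j₂.range).map q ≤ (q.comp a).range := by
      rw [Subgroup.map_sup, sup_le_iff]
      constructor
      · rintro _ ⟨_, ⟨x, rfl⟩, rfl⟩
        obtain ⟨f, y, rfl⟩ := hgen₁ x
        rw [map_mul, map_mul]
        exact mul_mem (haF f) (haX y)
      · rintro _ ⟨_, ⟨x, rfl⟩, rfl⟩
        obtain ⟨f, y, rfl⟩ := hgen₂ x
        rw [map_mul, map_mul]
        refine mul_mem ?_ (haY y)
        rw [← hglue]; exact haF f
    rw [hgenD, map_top_of_surjective q hqs] at h1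
    exact h1
  have hsa : Surjective (q.comp a) := MonoidHom.range_eq_top.1 htop
  have hsb : Surjective (q.comp b) := by
    intro x
    obtain ⟨g, rfl⟩ := hsa x
    exact hab g
  refine ⟨D ⧸ N, inferInstance, q.comp (j₁.comp u'), q.comp (j₂.comp u), ?_, ?_, hNEH, ?_, ?_⟩
  · intro x
    obtain ⟨g, rfl⟩ := hsa x
    exact ⟨θ g, rfl⟩
  · intro x
    obtain ⟨g, rfl⟩ := hsb x
    exact ⟨ψ g, rfl⟩
  · intro m hm h
    refine hM (j₁ (u' m)) (Or.inl ⟨m, hm, rfl⟩) ?_
    have h2 : q (j₁ (u' m)) = 1 := h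
    rwa [← MonoidHom.mem_ker, QuotientGroup.ker_mk'] at h2
  · intro m hm h
    refine hM (j₂ (u m)) (Or.inr ⟨m, hm, rfl⟩) ?_
    have h2 : q (j₂ (u m)) = 1 := h
    rwa [← MonoidHom.mem_ker, QuotientGroup.ker_mk'] at h2

end Pool.SC
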