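import Pool.Agent.Lib.MP_565fc2_lc.SC.A01FinKer

/-!
# SC-A07: a hyperbolic group without proper finite index subgroups from a non residually finite one
-/

set_option autoImplicit false

namespace Pool.SC

open Subgroup Function

theorem fcr_coprod_self (hFC : FreeProdFC) {B : Type} [Group B] (hi : Infinite B) :
    fcr (Monoid.Coprod B B) = ⊥ := by
  rw [eq_bot_iff]
  intro x hx
  have hit : Infinite (⊤ : Subgroup B) := Infinite.of_surjective _ (Equiv.Set.univ B).surjective
  obtain ⟨a, rfl, -⟩ := hFC B B ⊤ hit x (FinConj.mono le_top hx)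
  have h2 : Monoid.Coprod.swap B B (Monoid.Coprod.inl a) ∈ fcr (Monoid.Coprod B B) :=
    map_mem_fcr _ (Monoid.Coprod.swap_surjective) hx
  obtain ⟨b, hb, -⟩ := hFC B B ⊤ hit _ (FinConj.mono le_top h2)
  have h3 := congrArg Monoid.Coprod.snd hb
  simp only [Monoid.Coprod.swap_inl, Monoid.Coprod.snd_apply_inr, Monoid.Coprod.snd_apply_inl] at h3
  rw [h3, map_one]
  exact one_mem _

theorem exists_noFinQuot (hFP : FreeProdHyp) (hFC : FreeProdFC) (hSN : ScNormal) (hB1 : B1)
    (hB4 : B4) {B : Type} [Group B] (hB : WordHyp B) (hRF : ¬ Group.ResiduallyFinite B) :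
    ∃ (B₀ : Type) (_ : Group B₀), NEH B₀ ∧ fcr B₀ = ⊥ ∧
      ∀ H : Subgroup B₀, H.FiniteIndex → H = ⊤ := by
  classical
  have hi : Infinite B := by
    by_contra hn
    rw [not_infinite_iff_finite] at hn
    exact hRF inferInstance
  set X := Monoid.Coprod B B with hXdef
  have hfX : fcr X = ⊥ := fcr_coprod_self hFC hi
  have hiX : Infinite X := Infinite.of_injective _ (Monoid.Coprod.inl_injective (M := B) (N := B))
  have hX : NEH X := ⟨hFP B B hB hB, nonElem_of_fcr_finite hiX (by rw [hfX]; infer_instance)⟩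
  let R : Subgroup X := ⨅ H : FiniteIndexNormalSubgroup X, H.toSubgroup
  have hRn : R.Normal := normal_iInf_normal fun H => H.isNormal'
  rw [Group.residuallyFinite_iff_forall_finiteIndexNormalSubgroup] at hRF
  push Not at hRF
  obtain ⟨k, hk, hk1⟩ := hRF
  have hkR : Monoid.Coprod.inl k ∈ R := by
    rw [mem_iInf]
    intro H
    exact hk (H.comap Monoid.Coprod.inl)
  have hRi : Infinite R := by
    by_contra hn
    rw [not_infinite_iff_finite] at hn
    have h1 := le_fcr R hkR
    rw [hfX, mem_bot] at h1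
    exact hk1 (Monoid.Coprod.inl_injective (N := B) (by rw [h1, map_one]))
  have hfg : Group.FG X := hX.1.fg_A
  obtain ⟨S, hScl, hSfin⟩ := Group.fg_iff.1 hfg
  have hfinS : Finite (insert (1 : X) S : Set X) := hSfin.insert 1
  have hneS : Nonempty (insert (1 : X) S : Set X) := ⟨⟨1, Set.mem_insert _ _⟩⟩
  have hcen : ∀ g : X, g ∈ centralizer (fcr X : Set X) := by
    intro g
    rw [mem_centralizer_iff, hfX]
    intro e he
    have : e = 1 := by simpa using he
    simp [this]
  obtain ⟨u, huR, hQ, -⟩ := hSN X hX R hRn hRi (fun g _ => hcen g) (insert (1 : X) S : Set X)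
    (fun s => (s : X)) (fun s => hcen s) ∅ Set.finite_empty (by simp)
  set N : Subgroup X := normalClosure (Set.range fun i : (insert (1 : X) S : Set X) => (i : X) * u i)
    with hN
  let q : X →* X ⧸ N := QuotientGroup.mk' N
  have hqs : Surjective q := QuotientGroup.mk'_surjective N
  have hnf : ∀ H : Subgroup (X ⧸ N), H.FiniteIndex → H = ⊤ := by
    intro H hH
    have hKfi : H.normalCore.FiniteIndex := inferInstance
    have h1 : (H.normalCore.comap q) = ⊤ := by
      have hfi : (H.normalCore.comap q).FiniteIndex := ⟨by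
        rw [index_comap_of_surjective _ hqs]; exact hKfi.index_ne_zero⟩
      have hRle : R ≤ H.normalCore.comap q :=
        iInf_le_of_le (FiniteIndexNormalSubgroup.ofSubgroup (H.normalCore.comap q)) le_rfl
      rw [eq_top_iff, ← hScl, closure_le]
      intro s hs
      have h2 : s * u ⟨s, Set.mem_insert_of_mem _ hs⟩ ∈ N :=
        subset_normalClosure ⟨⟨s, Set.mem_insert_of_mem _ hs⟩, rfl⟩
      have h3 : s * u ⟨s, Set.mem_insert_of_mem _ hs⟩ ∈ H.normalCore.comap q := by
        rw [mem_comap]
        have : q (s * u ⟨s, Set.mem_insert_of_mem _ hs⟩) = 1 := by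
          rw [← MonoidHom.mem_ker, QuotientGroup.ker_mk']; exact h2
        rw [this]; exact one_mem _
      exact (mul_mem_cancel_right (hRle (huR _))).1 h3
    rw [eq_top_iff]
    intro x _
    obtain ⟨g, rfl⟩ := hqs x
    have : g ∈ H.normalCore.comap q := by rw [h1]; exact mem_top _
    exact H.normalCore_le this
  have hfQ : Finite (fcr (X ⧸ N)) := hB1 _ hQ
  refine ⟨(X ⧸ N) ⧸ fcr (X ⧸ N), inferInstance, ?_, fcr_quotient_fcr _ hfQ, ?_⟩
  · exact (neh_iff_of_finKer hB4 (QuotientGroup.mk' (fcr (X ⧸ N))) (QuotientGroup.mk'_surjective _)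
      (by rw [QuotientGroup.ker_mk']; exact hfQ)).1 hQ
  · intro H hH
    have h1 : H.comap (QuotientGroup.mk' (fcr (X ⧸ N))) = ⊤ := by
      apply hnf
      refine ⟨?_⟩
      rw [index_comap_of_surjective _ (QuotientGroup.mk'_surjective _)]
      exact hH.index_ne_zero
    rw [eq_top_iff]
    intro x _
    obtain ⟨g, rfl⟩ := QuotientGroup.mk'_surjective _ x
    have : g ∈ H.comap (QuotientGroup.mk' (fcr (X ⧸ N))) := by rw [h1]; exact mem_top _
    exact this

end Pool.SC
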