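import Pool.Agent.Lib.MP_565fc2_lc.SC.A05AmalgSC

/-!
# SC-A08: near every non-elementary hyperbolic group there is one in which the centralizer of a finite normal subgroup is
contained in all finite index subgroups
-/

set_option autoImplicit false

namespace Pool.SC

open Subgroup Function

/-- pull-back of finite index subgroups -/
theorem finiteIndex_comap' {G H : Type} [Group G] [Group H] (f : G →* H) (K : Subgroup H)
    (hK : K.FiniteIndex) : (K.comap f).FiniteIndex := by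
  refine ⟨?_⟩
  rw [index_comap]
  exact fun h => hK.index_ne_zero (index_eq_zero_of_relIndex_eq_zero h)

theorem exists_LT (hAm : Amalg) (hFP : FreeProdHyp) (hFL : FreeProdLox) (hFC : FreeProdFC)
    (hSC : ScGen) (hB1 : B1) (hB2 : B2) (hB3 : B3) (hB4 : B4)
    {B₀ : Type} [Group B₀] (hB₀ : NEH B₀) (hfB : fcr B₀ = ⊥)
    (hnf : ∀ H : Subgroup B₀, H.FiniteIndex → H = ⊤)
    {G : Type} [Group G] (hG : NEH G) (M : Set G) (hM : M.Finite) (h1M : (1 : G) ∉ M) :
    ∃ (G' : Type) (_ : Group G') (π : G →* G'), Surjective π ∧ NEH G' ∧ (∀ m ∈ M, π m ≠ 1) ∧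
      ∃ W : Subgroup G', W.Normal ∧ Finite W ∧
        ∀ H : Subgroup G', H.FiniteIndex → centralizer (W : Set G') ≤ H := by
  classical
  have hfG : Finite (fcr G) := hB1 G hG
  set C : Subgroup G := centralizer (fcr G : Set G) with hC
  have hCfi : C.FiniteIndex := centralizer_finiteIndex (fcr G)
  -- the second factor
  let i₁ : fcr G →* G := (fcr G).subtype
  let i₂ : fcr G →* fcr G × B₀ := MonoidHom.inl (fcr G) B₀
  have hi₂ : Injective i₂ := fun a b h => congrArg Prod.fst h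
  have hr₁ : i₁.range = fcr G := by simp [i₁]
  have hr₂ : i₂.range = fcr (fcr G × B₀) := by
    apply le_antisymm
    · have hn : i₂.range.Normal := by
        refine ⟨?_⟩
        rintro _ ⟨k, rfl⟩ ⟨a, b⟩
        exact ⟨a * k * a⁻¹, by simp [i₂]⟩
      have hf : Finite i₂.range := Finite.of_surjective i₂.rangeRestrict i₂.rangeRestrict_surjective
      exact le_fcr i₂.range
    · rintro ⟨k, b⟩ h
      have h1 : (MonoidHom.snd (fcr G) B₀) (k, b) ∈ fcr B₀ :=
        map_mem_fcr _ (fun b => ⟨(1, b), rfl⟩) h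
      rw [hfB, mem_bot] at h1
      have h2 : b = 1 := h1
      exact ⟨k, by simp [i₂, h2]⟩
  have hA₂ : NEH (fcr G × B₀) := by
    rw [neh_iff_of_finKer hB4 (MonoidHom.snd (fcr G) B₀) (fun b => ⟨(1, b), rfl⟩)]
    · exact hB₀
    · refine Finite.of_injective (fun x : (MonoidHom.snd (fcr G) B₀).ker => x.1.1) ?_
      rintro ⟨⟨a, b⟩, h⟩ ⟨⟨a', b'⟩, h'⟩ hh
      have hb : b = 1 := h
      have hb' : b' = 1 := h'
      have ha : a = a' := hh
      simp [ha, hb, hb']
  let H₂ : Subgroup (fcr G × B₀) := (MonoidHom.inr (fcr G) B₀).range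
  have hH₂ : H₂.FiniteIndex := by
    have : Finite ((fcr G × B₀) ⧸ H₂) := by
      refine Finite.of_surjective (fun e : fcr G => (((e, 1) : fcr G × B₀) : (fcr G × B₀) ⧸ H₂)) ?_
      intro x
      obtain ⟨⟨a, b⟩, rfl⟩ := QuotientGroup.mk_surjective x
      refine ⟨a, ?_⟩
      rw [QuotientGroup.eq]
      exact ⟨b, by simp⟩
    exact finiteIndex_of_finite_quotient
  obtain ⟨D, _, j₁, j₂, hj₁, hj₂, hglue, hgenD, hsc⟩ :=
    amalgSC hAm hFP hFL hFC hSC hB2 hB3 hB4 i₁ i₂ (fcr G).subtype_injective hi₂ hr₁ hr₂ hG hA₂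
      C H₂ hCfi hH₂
      (fun h hh e => mem_centralizer_iff.1 hh e e.2)
      (by
        rintro _ ⟨b, rfl⟩ e
        simp [i₂])
  have hfgB : Group.FG B₀ := hB₀.1.fg_A
  obtain ⟨SB, hSB, hSBf⟩ := Group.fg_iff.1 hfgB
  have hfgG : Group.FG G := hG.1.fg_A
  have hfgC : Group.FG C := inferInstance
  obtain ⟨SC, hSCc, hSCf⟩ := Group.fg_iff.1 hfgC
  have h1 : Finite (insert (1 : B₀) SB : Set B₀) := hSBf.insert 1
  have h2 : Nonempty (insert (1 : B₀) SB : Set B₀) := ⟨⟨1, Set.mem_insert _ _⟩⟩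
  have h3 : Finite SC := hSCf
  let gg : (insert (1 : B₀) SB : Set B₀) ⊕ SC → D :=
    Sum.elim (fun b => j₂ (1, b)) (fun c => j₁ (c : C))
  let cl : (insert (1 : B₀) SB : Set B₀) ⊕ SC → Bool := Sum.elim (fun _ => true) (fun _ => false)
  obtain ⟨w, hw₁, hw₂, hNEH, hMM⟩ := hsc _ cl gg
    (by
      rintro (b | c) e
      · change j₁ (i₁ e) * j₂ (1, b) = j₂ (1, b) * j₁ (i₁ e)
        rw [hglue, ← map_mul, ← map_mul]
        simp [i₂]
      · change j₁ (i₁ e) * j₁ (c : C) = j₁ (c : C) * j₁ (i₁ e)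
        rw [← map_mul, ← map_mul]
        congr 1
        exact mem_centralizer_iff.1 (c : C).2 e e.2)
    (j₁ '' M ∪ j₁ '' {x | x ∈ fcr G ∧ x ≠ 1})
    ((hM.image _).union ((Set.Finite.subset (hfG : (fcr G : Set G).Finite) (fun x hx => hx.1)).image _))
    (by
      rintro (⟨x, hx, h⟩ | ⟨x, hx, h⟩)
      · have : x = 1 := hj₁ (by rw [map_one]; exact h)
        exact h1M (this ▸ hx)
      · have : x = 1 := hj₁ (by rw [map_one]; exact h)
        exact hx.2 this)
  set N : Subgroup D := normalClosure (Set.range fun i => gg i * w i) with hN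
  let q : D →* D ⧸ N := QuotientGroup.mk' N
  have hqs : Surjective q := QuotientGroup.mk'_surjective N
  have hrel : ∀ p, q (gg p) * q (w p) = 1 := by
    intro p
    rw [← map_mul, ← MonoidHom.mem_ker, QuotientGroup.ker_mk']
    exact subset_normalClosure ⟨p, rfl⟩
  let π : G →* D ⧸ N := q.comp j₁
  have hb : ∀ b : B₀, q (j₂ (1, b)) ∈ π.range := by
    intro b
    have hb : b ∈ closure SB := by rw [hSB]; exact mem_top _
    induction hb using closure_induction with
    | mem s hs =>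
      obtain ⟨c, hc, hc2⟩ := hw₁ (Sum.inl ⟨s, Set.mem_insert_of_mem _ hs⟩) rfl
      have h4 := hrel (Sum.inl ⟨s, Set.mem_insert_of_mem _ hs⟩)
      rw [← hc2] at h4
      change q (j₂ (1, s)) * q (j₁ c) = 1 at h4
      refine ⟨c⁻¹, ?_⟩
      rw [mul_eq_one_iff_eq_inv] at h4
      rw [h4]; simp [π]
    | one =>
      have : ((1, 1) : fcr G × B₀) = 1 := rfl
      rw [this, map_one, map_one]; exact one_mem _
    | mul x y _ _ hx hy =>
      have : ((1, x * y) : fcr G × B₀) = (1, x) * (1, y) := by simp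
      rw [this, map_mul, map_mul]; exact mul_mem hx hy
    | inv x _ hx =>
      have : ((1, x⁻¹) : fcr G × B₀) = (1, x)⁻¹ := by simp
      rw [this, map_inv, map_inv]; exact inv_mem hx
  have hπs : Surjective π := by
    rw [← MonoidHom.range_eq_top, eq_top_iff]
    have h1 : (j₁.range ⊔ j₂.range).map q ≤ π.range := by
      rw [Subgroup.map_sup, sup_le_iff]
      constructor
      · rintro _ ⟨_, ⟨x, rfl⟩, rfl⟩
        exact ⟨x, rfl⟩
      · rintro _ ⟨_, ⟨⟨k, b⟩, rfl⟩, rfl⟩
        have h5 : ((k, b) : fcr G × B₀) = i₂ k * (1, b) := by simp [i₂]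
        rw [h5, map_mul, map_mul]
        refine mul_mem ?_ (hb b)
        rw [← hglue]
        exact ⟨i₁ k, rfl⟩
    rw [hgenD, map_top_of_surjective q hqs] at h1
    exact h1
  have hkey : ∀ x ∈ N, x ∉ (j₁ '' M ∪ j₁ '' {x | x ∈ fcr G ∧ x ≠ 1}) := fun x hx hx' => hMM x hx' hx
  have hker : ∀ g : G, π g = 1 → j₁ g ∈ N := by
    intro g hg
    have : q (j₁ g) = 1 := hg
    rwa [← MonoidHom.mem_ker, QuotientGroup.ker_mk'] at this
  refine ⟨D ⧸ N, inferInstance, π, hπs, hNEH, ?_, (fcr G).map π, Normal.map fcr_normal π hπs, ?_, ?_⟩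
  · intro m hm h
    exact hkey _ (hker m h) (Or.inl ⟨m, hm, rfl⟩)
  · exact Finite.of_surjective (fun x : fcr G => (⟨π x, mem_map_of_mem π x.2⟩ : (fcr G).map π))
      (by rintro ⟨_, x, hx, rfl⟩; exact ⟨⟨x, hx⟩, rfl⟩)
  · intro H hH x hx
    obtain ⟨g, rfl⟩ := hπs x
    have hgC : g ∈ C := by
      rw [hC, mem_centralizer_iff]
      intro e he
      have h6 : g * e * g⁻¹ * e⁻¹ ∈ fcr G := mul_mem (fcr_normal.conj_mem e he g) (inv_mem he)
      have h7 : π (g * e * g⁻¹ * e⁻¹) = 1 := by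
        have := (mem_centralizer_iff.1 hx) (π e) (mem_map_of_mem π he)
        simp only [map_mul, map_inv]
        rw [← this]; simp
      have h8 : g * e * g⁻¹ * e⁻¹ = 1 := by
        by_contra hne
        exact hkey _ (hker _ h7) (Or.inr ⟨_, ⟨h6, hne⟩, rfl⟩)
      calc e * g = (g * e * g⁻¹ * e⁻¹)⁻¹ * (g * e) := by group
        _ = g * e := by rw [h8]; simp
    -- the preimage of H contains B₀
    have hH' : (H.comap q).FiniteIndex := finiteIndex_comap' q H hH
    have hBtop := hnf ((H.comap q).comap (j₂.comp (MonoidHom.inr (fcr G) B₀)))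
      (finiteIndex_comap' _ _ hH')
    have hB' : ∀ b : B₀, q (j₂ (1, b)) ∈ H := by
      intro b
      have : b ∈ (H.comap q).comap (j₂.comp (MonoidHom.inr (fcr G) B₀)) := by
        rw [hBtop]; exact mem_top _
      exact this
    have hCH : ∀ c : C, q (j₁ c) ∈ H := by
      intro c
      have hc : c ∈ closure SC := by rw [hSCc]; exact mem_top _
      induction hc using closure_induction with
      | mem s hs =>
        obtain ⟨_, ⟨b, rfl⟩, hb2⟩ := hw₂ (Sum.inr ⟨s, hs⟩) rfl
        have h4 := hrel (Sum.inr ⟨s, hs⟩)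
        rw [← hb2] at h4
        change q (j₁ (s : C)) * q (j₂ (1, b)) = 1 at h4
        rw [mul_eq_one_iff_eq_inv] at h4
        rw [h4]
        exact inv_mem (hB' b)
      | one => simp
      | mul x y _ _ hx hy => rw [coe_mul, map_mul, map_mul]; exact mul_mem hx hy
      | inv x _ hx => rw [coe_inv, map_inv, map_inv]; exact inv_mem hx
    exact hCH ⟨g, hgC⟩

end Pool.SC
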