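import Pool.Agent.Lib.MP_565fc2_lc.SC.A06Common
import Pool.Agent.Lib.MP_565fc2_lc.SC.A07NoFin
import Pool.Agent.Lib.MP_565fc2_lc.SC.A08LT

/-!
# SC-A09: the maximal choice and `TRG`
-/

set_option autoImplicit false

namespace Pool.SC

open Subgroup Function

/-- an element whose image commutes with the image of `W`, for `f` injective on the normal subgroup `W`, centralises `W` -/
theorem mem_centralizer_of_map {G Y : Type} [Group G] [Group Y] (f : G →* Y) (W : Subgroup G)
    (hW : W.Normal) (hinj : ∀ w ∈ W, f w = 1 → w = 1) {g : G}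
    (hg : ∀ w ∈ W, f w * f g = f g * f w) : g ∈ centralizer (W : Set G) := by
  rw [mem_centralizer_iff]
  intro w hw
  have h1 : g * w * g⁻¹ * w⁻¹ ∈ W := mul_mem (hW.conj_mem w hw g) (inv_mem hw)
  have h2 : f (g * w * g⁻¹ * w⁻¹) = 1 := by
    simp only [map_mul, map_inv]
    rw [← hg w hw]; simp
  have h3 := hinj _ h1 h2
  calc w * g = (g * w * g⁻¹ * w⁻¹)⁻¹ * (g * w) := by group
    _ = g * w := by rw [h3]; simp

/-- the set of admissible_A sizes -/
def admissible_A {G₁ : Type} [Group G₁] (W : Subgroup G₁) (M : Set G₁) (k : ℕ) : Prop :=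
  ∃ (Y : Type) (_ : Group Y) (f : G₁ →* Y), Surjective f ∧ NEH Y ∧ (∀ m ∈ M, f m ≠ 1) ∧
    (∀ w ∈ W, f w = 1 → w = 1) ∧ ((centralizer (W : Set G₁)).map f).relIndex (fcr Y) = k

theorem exists_max_A (hB1 : B1) {G₁ : Type} [Group G₁] (hG₁ : NEH G₁) (W : Subgroup G₁) [W.Normal]
    [Finite W] (hWH : ∀ H : Subgroup G₁, H.FiniteIndex → centralizer (W : Set G₁) ≤ H)
    (M : Set G₁) (hM : M.Finite) (h1M : (1 : G₁) ∉ M) :
    ∃ (G' : Type) (_ : Group G') (π : G₁ →* G'), Surjective π ∧ NEH G' ∧ (∀ m ∈ M, π m ≠ 1) ∧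
      ∃ M' : Set G', M'.Finite ∧ (1 : G') ∉ M' ∧
        ∀ (X : Type) [Group X] (f : G' →* X), Surjective f → NEH X → (∀ m ∈ M', f m ≠ 1) →
          NearQ f := by
  classical
  set C : Subgroup G₁ := centralizer (W : Set G₁) with hC
  have hCfi : C.FiniteIndex := centralizer_finiteIndex W
  have hne : {k | admissible_A W M k}.Nonempty :=
    ⟨_, G₁, _, MonoidHom.id G₁, surjective_id, hG₁, fun m hm h => h1M (h ▸ hm), fun w _ h => h, rfl⟩
  have hbd : BddAbove {k | admissible_A W M k} := by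
    refine ⟨C.index, ?_⟩
    rintro k ⟨Y, _, f, hf, -, -, -, rfl⟩
    have h1 : (C.map f).index ∣ C.index := index_map_dvd C hf
    have h2 : (C.map f).index ≤ C.index := Nat.le_of_dvd (Nat.pos_of_ne_zero hCfi.index_ne_zero) h1
    have hfi : (C.map f).FiniteIndex :=
      ⟨fun h0 => hCfi.index_ne_zero (by rw [h0] at h1; exact Nat.eq_zero_of_zero_dvd h1)⟩
    have hn : (C.map f).Normal := Normal.map inferInstance f hf
    have h3 : (C.map f).relIndex (fcr Y) ∣ (C.map f).index := relIndex_dvd_index_of_normal _ _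
    exact (Nat.le_of_dvd (Nat.pos_of_ne_zero hfi.index_ne_zero) h3).trans h2
  obtain ⟨G', _, π, hπs, hG', hπM, hπW, hJ⟩ := Nat.sSup_mem hne hbd
  have hmax : ∀ k, admissible_A W M k → k ≤ sSup {k | admissible_A W M k} :=
    fun k hk => le_csSup hbd hk
  have hfG' : Finite (fcr G') := hB1 G' hG'
  have hWmap : (W.map π) ≤ fcr G' := by
    have h1 : (W.map π).Normal := Normal.map inferInstance π hπs
    have h2 : Finite (W.map π) :=
      Finite.of_surjective (fun x : W => (⟨π x, mem_map_of_mem π x.2⟩ : W.map π))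
        (by rintro ⟨_, x, hx, rfl⟩; exact ⟨⟨x, hx⟩, rfl⟩)
    exact le_fcr _
  -- `C(fcr G') = π C`
  have hCG' : ∀ c, c ∈ centralizer (fcr G' : Set G') ↔ c ∈ C.map π := by
    intro c
    constructor
    · intro hc
      obtain ⟨g, rfl⟩ := hπs c
      refine ⟨g, mem_centralizer_of_map π W inferInstance hπW ?_, rfl⟩
      intro w hw
      exact mem_centralizer_iff.1 hc (π w) (hWmap (mem_map_of_mem π hw))
    · rintro ⟨g, hg, rfl⟩
      have hfi : (centralizer (fcr G' : Set G')).FiniteIndex := centralizer_finiteIndex _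
      have h1 := hWH _ (finiteIndex_comap' π _ hfi)
      exact h1 hg
  refine ⟨G', _, π, hπs, hG', hπM, {x | x ∈ fcr G' ∧ x ≠ 1} ∪ (π '' M ∪ π '' {w | w ∈ W ∧ w ≠ 1}),
    ?_, ?_, ?_⟩
  · refine Set.Finite.union ?_ (Set.Finite.union (hM.image _) (Set.Finite.image _ ?_))
    · exact Set.Finite.subset (hfG' : (fcr G' : Set G').Finite) (fun x hx => hx.1)
    · exact Set.Finite.subset (inferInstanceAs (Finite W) : (W : Set G₁).Finite) (fun x hx => hx.1)
  · rintro (h | ⟨m, hm, h⟩ | ⟨w, hw, h⟩)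
    · exact h.2 rfl
    · exact hπM m hm h
    · exact hw.2 (hπW w hw.1 h)
  · intro X _ f hf hX hM'
    have hinj : ∀ e ∈ fcr G', f e = 1 → e = 1 := by
      intro e he h
      by_contra hne
      exact hM' e (Or.inl ⟨he, hne⟩) h
    have hfπW : ∀ w ∈ W, (f.comp π) w = 1 → w = 1 := by
      intro w hw h
      by_contra hne
      exact hM' (π w) (Or.inr (Or.inr ⟨w, ⟨hw, hne⟩, rfl⟩)) h
    have hfX : Finite (fcr X) := hB1 X hX
    have hcentX : ∀ g ∈ C, f (π g) ∈ centralizer (fcr X : Set X) := by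
      intro g hg
      have hfi : (centralizer (fcr X : Set X)).FiniteIndex := centralizer_finiteIndex _
      exact hWH _ (finiteIndex_comap' (f.comp π) _ hfi) hg
    refine ⟨hf, hX, hinj, ?_, ?_⟩
    · intro c hc
      obtain ⟨g, hg, rfl⟩ := (hCG' c).1 hc
      exact hcentX g hg
    · -- maximality
      have hadm : admissible_A W M (((C.map (f.comp π))).relIndex (fcr X)) :=
        ⟨X, _, f.comp π, hf.comp hπs, hX,
          fun m hm h => hM' (π m) (Or.inr (Or.inl ⟨m, hm, rfl⟩)) h, hfπW, rfl⟩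
      have hle := hmax _ hadm
      rw [← hJ] at hle
      set F := fcr X with hF
      let φ : fcr G' →* F := (f.comp (fcr G').subtype).codRestrict F
        (fun e => map_mem_fcr f hf e.2)
      set A : Subgroup F := (C.map (f.comp π)).subgroupOf F with hA
      have hAn : A.Normal := by
        have : (C.map (f.comp π)).Normal := Normal.map inferInstance _ (hf.comp hπs)
        exact normal_subgroupOf
      have hcomap : A.comap φ = (C.map π).subgroupOf (fcr G') := by
        ext x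
        rw [mem_comap, mem_subgroupOf, mem_subgroupOf]
        change f x ∈ C.map (f.comp π) ↔ _
        constructor
        · rintro ⟨g, hg, h⟩
          have h1 : f ((x : G') * (π g)⁻¹) = 1 := by
            rw [map_mul, map_inv, mul_inv_eq_one]; exact h.symm
          obtain ⟨y, hy⟩ := hπs ((x : G') * (π g)⁻¹)
          have h2 : y ∈ C := mem_centralizer_of_map (f.comp π) W inferInstance hfπW (by
            intro w hw
            have : (f.comp π) y = 1 := by change f (π y) = 1; rw [hy]; exact h1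
            rw [this]; simp)
          have h3 : (x : G') = π (y * g) := by rw [map_mul, hy]; simp
          rw [h3]
          exact mem_map_of_mem π (mul_mem h2 hg)
        · rintro ⟨g, hg, h⟩
          exact ⟨g, hg, by rw [← h]; rfl⟩
      have h4 : (C.map π).relIndex (fcr G') = A.relIndex φ.range := by
        rw [relIndex, ← hcomap, index_comap]
      have h5 : (C.map (f.comp π)).relIndex F = A.index := rfl
      rw [h4, h5] at hle
      have h6 : A.relIndex (φ.range ⊔ A) * (φ.range ⊔ A).index = A.index :=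
        relIndex_mul_index le_sup_right
      rw [relIndex_sup_right] at h6
      have hApos : 0 < A.index := Nat.pos_of_ne_zero (by
        have : A.FiniteIndex := inferInstance
        exact this.index_ne_zero)
      have h7 : (φ.range ⊔ A).index = 1 := by
        rw [← h6] at hle hApos
        have h8 : 0 < A.relIndex φ.range := Nat.pos_of_mul_pos_right hApos
        have h9 : 0 < (φ.range ⊔ A).index := Nat.pos_of_mul_pos_left hApos
        have h10 : A.relIndex φ.range * (φ.range ⊔ A).index ≤ A.relIndex φ.range * 1 := by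
          simpa using hle
        have := Nat.le_of_mul_le_mul_left h10 h8
        omega
      rw [index_eq_one] at h7
      intro x hx
      have h8 : (⟨x, hx⟩ : F) ∈ φ.range ⊔ A := by rw [h7]; exact mem_top _
      rw [mem_sup_of_normal_right] at h8
      obtain ⟨_, ⟨e, rfl⟩, a, ha, hea⟩ := h8
      rw [hA, mem_subgroupOf] at ha
      obtain ⟨g, hg, hga⟩ := ha
      refine ⟨e, e.2, π g, (hCG' _).2 ⟨g, hg, rfl⟩, ?_⟩
      have h9 := congrArg Subtype.val hea
      have h10 : f e * (a : X) = x := h9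
      rw [← h10, ← hga]; rfl

theorem trg_of_nonRF (hAm : Amalg) (hFP : FreeProdHyp) (hFL : FreeProdLox) (hFC : FreeProdFC)
    (hSC : ScGen) (hSN : ScNormal) (hB1 : B1) (hB2 : B2) (hB3 : B3) (hB4 : B4)
    {B : Type} [Group B] (hB : WordHyp B) (hRF : ¬ Group.ResiduallyFinite B) : TRG := by
  obtain ⟨B₀, _, hB₀, hfB, hnf⟩ := exists_noFinQuot hFP hFC hSN hB1 hB4 hB hRF
  intro G _ hG M hM h1M
  obtain ⟨G₁, _, π₁, hπ₁, hG₁, hπM, W, hWn, hWf, hWH⟩ :=
    exists_LT hAm hFP hFL hFC hSC hB1 hB2 hB3 hB4 hB₀ hfB hnf hG M hM h1M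
  obtain ⟨G', _, π₂, hπ₂, hG', hπM₂, M', hM', h1M', hnear⟩ :=
    exists_max_A hB1 hG₁ W hWH (π₁ '' M) (hM.image _)
      (by rintro ⟨m, hm, h⟩; exact hπM m hm h)
  refine ⟨G', _, π₂.comp π₁, hπ₂.comp hπ₁, hG', fun m hm => hπM₂ _ ⟨m, hm, rfl⟩, M', hM', h1M', ?_⟩
  intro X Y _ _ f₁ f₂ hf₁ hf₂ hX hY h₁ h₂ M₁ M₂ hM₁ hM₂ h1₁ h1₂
  exact common_quotient hAm hFP hFL hFC hSC hB1 hB2 hB3 hB4 hG'.1.fg_A (hB1 G' hG')
    (hnear X f₁ hf₁ hX h₁) (hnear Y f₂ hf₂ hY h₂) M₁ M₂ hM₁ hM₂ h1₁ h1₂

end Pool.SC
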