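import Pool.Agent.Lib.MP_565fc2_lc.SC.Defs

/-!
# SC-TSent (helper12): a first-order sentence about finite sets permuted by conjugation
-/

namespace Pool.SC

open Function FirstOrder FirstOrder.Language

/-- product of terms -/
def tMul {α : Type} (s t : LG.Term α) : LG.Term α := Functions.apply₂ (GrpFun.mul : LG.Functions 2) s t

theorem realize_tMul {α G : Type} [Group G] (s t : LG.Term α) (v : α → G) :
    (tMul s t).realize v = s.realize v * t.realize v := by
  unfold tMul
  rw [Term.realize_functions_apply₂]
  rfl

/-- the quantifier free formula `y * x_f = x_{σ f} * y` for all `f` (variables `x_f`, `y`) -/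
noncomputable def permF {X : Type} [Finite X] (σ : X → X) : LG.Formula ((Empty ⊕ X) ⊕ Unit) :=
  Formula.iInf fun f : X => Term.equal
    (tMul (Term.var (Sum.inr ())) (Term.var (Sum.inl (Sum.inr f))))
    (tMul (Term.var (Sum.inl (Sum.inr (σ f)))) (Term.var (Sum.inr ())))

theorem realize_permF {X G : Type} [Finite X] [Group G] (σ : X → X) (v : Empty → G) (x : X → G)
    (y : Unit → G) : (permF σ).Realize (Sum.elim (Sum.elim v x) y) ↔
      ∀ f, y () * x f * (y ())⁻¹ = x (σ f) := by
  unfold permF
  rw [Formula.realize_iInf]
  refine forall_congr' fun f => ?_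
  rw [Formula.realize_equal, realize_tMul, realize_tMul]
  simp only [Term.realize_var, Sum.elim_inl, Sum.elim_inr]
  exact (mul_inv_eq_iff_eq_mul).symm

/-- For every finite set `X` and every finite family `σ` of selfmaps of `X` there is a sentence
which says: there are distinct elements `x_f` (`f ∈ X`) such that conjugation by any group element
permutes them by some `σ_p`, and all `σ_p` occur. -/
theorem exists_sentence (X P : Type) [Finite X] [Finite P] (σ : P → X → X) :
    ∃ φ : LG.Sentence, ∀ (G : Type) [Group G], G ⊨ φ ↔ ∃ x : X → G, Injective x ∧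
      (∀ y : G, ∃ p : P, ∀ f : X, y * x f * y⁻¹ = x (σ p f)) ∧
      (∀ p : P, ∃ y : G, ∀ f : X, y * x f * y⁻¹ = x (σ p f)) := by
  classical
  let φ1 : LG.Formula (Empty ⊕ X) := Formula.iInf fun f : {q : X × X // q.1 ≠ q.2} =>
    (Term.equal (Term.var (Sum.inr f.1.1)) (Term.var (Sum.inr f.1.2))).not
  let φ2 : LG.Formula (Empty ⊕ X) := Formula.iAlls Unit (Formula.iSup fun p : P => permF (σ p))
  let φ3 : LG.Formula (Empty ⊕ X) := Formula.iInf fun p : P => Formula.iExs Unit (permF (σ p))
  refine ⟨Formula.iExs X (φ1 ⊓ (φ2 ⊓ φ3)), fun G _ => ?_⟩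
  unfold Sentence.Realize
  rw [Formula.realize_iExs]
  refine exists_congr fun x => ?_
  rw [Formula.realize_inf, Formula.realize_inf]
  refine and_congr ?_ (and_congr ?_ ?_)
  · simp only [φ1]
    rw [Formula.realize_iInf]
    constructor
    · intro h a b hab
      by_contra hne
      have := h ⟨(a, b), hne⟩
      rw [Formula.realize_not, Formula.realize_equal] at this
      exact this hab
    · intro h f
      rw [Formula.realize_not, Formula.realize_equal]
      intro he
      exact f.2 (h he)
  · simp only [φ2]
    rw [Formula.realize_iAlls]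
    constructor
    · intro h y
      have := h (fun _ => y)
      rw [Formula.realize_iSup] at this
      obtain ⟨p, hp⟩ := this
      exact ⟨p, (realize_permF (σ p) _ x (fun _ => y)).1 hp⟩
    · intro h y
      rw [Formula.realize_iSup]
      obtain ⟨p, hp⟩ := h (y ())
      exact ⟨p, (realize_permF (σ p) _ x y).2 hp⟩
  · simp only [φ3]
    rw [Formula.realize_iInf]
    refine forall_congr' fun p => ?_
    rw [Formula.realize_iExs]
    constructor
    · rintro ⟨y, hy⟩
      exact ⟨y (), (realize_permF (σ p) _ x y).1 hy⟩
    · rintro ⟨y, hy⟩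
      exact ⟨fun _ => y, (realize_permF (σ p) _ x (fun _ => y)).2 hy⟩

end Pool.SC
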