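import Pool.Agent.Lib.MP_565fc2_lc.SC.A01FinKer
import Pool.Agent.Lib.MP_565fc2_lc.SC.TSent

/-!
# SC-A10: the splitting property `SPG` if all hyperbolic groups are residually finite
-/

set_option autoImplicit false

namespace Pool.SC

open Subgroup Function FirstOrder FirstOrder.Language

/-- finitely many homomorphisms from a finitely generated group to a finite group -/
theorem finite_hom_A {G P : Type} [Group G] [Group P] (hG : Group.FG G) [Finite P] :
    Finite (G →* P) := by
  obtain ⟨S, hS, hSf⟩ := Group.fg_iff.1 hG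
  have : Finite S := hSf
  refine Finite.of_injective (fun f : G →* P => fun s : S => f s) ?_
  intro f g h
  refine MonoidHom.eq_of_eqOn_dense hS ?_
  intro s hs
  exact congrFun h ⟨s, hs⟩

/-- elements of `C` inducing pairwise different conjugations on a finite quotient -/
theorem exists_sep_A {G : Type} [Group G] (hG : NEH G) (hB1 : B1) (hRF : Group.ResiduallyFinite G)
    (C : Subgroup G) [C.FiniteIndex] (n : ℕ) :
    ∃ (N₀ : Subgroup G), N₀.Normal ∧ N₀.FiniteIndex ∧ ∃ r : Fin n → C, ∀ i j, i ≠ j →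
      ∃ d : C, ((r j : G) * d * (r j : G)⁻¹) * ((r i : G) * d * (r i : G)⁻¹)⁻¹ ∉ N₀ := by
  classical
  have hfG : Finite (fcr G) := hB1 G hG
  have hiG : Infinite G := hG.infinite_A
  have hiC : Infinite C := by
    by_contra hn
    rw [not_infinite_iff_finite] at hn
    have : Finite G := Finite.of_subgroup_quotient C
    exact not_finite G
  have hZ : Finite (center C) := by
    refine Finite.of_injective (fun z : center C => (⟨((z : C) : G), ?_⟩ : fcr G)) ?_
    · refine mem_fcr_of_commute C ?_
      intro g hg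
      have h1 := mem_center_iff.1 z.2 ⟨g, hg⟩
      exact congrArg Subtype.val h1
    · intro a b h
      have h1 : ((a : C) : G) = ((b : C) : G) := congrArg (fun t : fcr G => (t : G)) h
      exact Subtype.ext (Subtype.ext h1)
  have hQ : Infinite (C ⧸ center C) := by
    by_contra hn
    rw [not_infinite_iff_finite] at hn
    have : Finite C := Finite.of_subgroup_quotient (center C)
    exact not_finite C
  let emb := Infinite.natEmbedding (C ⧸ center C)
  let r : Fin n → C := fun i => (emb i).out
  have hr : ∀ i j : Fin n, i ≠ j → ∃ d : C, ((r j : G) * d * (r j : G)⁻¹) *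
      ((r i : G) * d * (r i : G)⁻¹)⁻¹ ≠ 1 := by
    intro i j hij
    have h1 : (r i)⁻¹ * r j ∉ center C := by
      intro h
      rw [← QuotientGroup.eq] at h
      simp only [r, QuotientGroup.out_eq'] at h
      have := emb.injective h
      exact hij (Fin.ext this)
    rw [mem_center_iff] at h1
    push Not at h1
    obtain ⟨d, hd⟩ := h1
    refine ⟨d, fun h => hd ?_⟩
    rw [mul_inv_eq_one] at h
    have h2 : r j * d * (r j)⁻¹ = r i * d * (r i)⁻¹ := Subtype.ext h
    calc d * ((r i)⁻¹ * r j) = (r i)⁻¹ * (r i * d * (r i)⁻¹) * r j := by group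
      _ = (r i)⁻¹ * r j * d := by rw [← h2]; group
  choose! d hd using hr
  have hN : ∀ p : Fin n × Fin n, ∃ N : FiniteIndexNormalSubgroup G, p.1 ≠ p.2 →
      ((r p.2 : G) * d p.1 p.2 * (r p.2 : G)⁻¹) * ((r p.1 : G) * d p.1 p.2 * (r p.1 : G)⁻¹)⁻¹ ∉ N := by
    intro p
    by_cases hp : p.1 = p.2
    · exact ⟨FiniteIndexNormalSubgroup.ofSubgroup ⊤, fun h => absurd hp h⟩
    · obtain ⟨N, hN⟩ := Group.exists_finiteIndexNormalSubgroup_notMem _ (hd p.1 p.2 hp)
      exact ⟨N, fun _ => hN⟩
  choose N hN using hN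
  refine ⟨⨅ p, (N p).toSubgroup, normal_iInf_normal fun p => (N p).isNormal', ?_, r, ?_⟩
  · exact finiteIndex_iInf fun p => (N p).isFiniteIndex'
  · intro i j hij
    refine ⟨d i j, fun h => ?_⟩
    exact hN (i, j) hij ((mem_iInf.1 h) (i, j))

theorem spg_of_RF (hSN : ScNormal) (hB1 : B1) (hB4 : B4)
    (hRF : ∀ (G : Type) [Group G], WordHyp G → Group.ResiduallyFinite G) : SPG := by
  classical
  intro G _ hG M hM h1M
  have hfG : Finite (fcr G) := hB1 G hG
  have hiG : Infinite G := hG.infinite_A
  have hfgG : Group.FG G := hG.1.fg_A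
  set C : Subgroup G := centralizer (fcr G : Set G) with hC
  have hCfi : C.FiniteIndex := centralizer_finiteIndex (fcr G)
  have hCn : C.Normal := inferInstance
  obtain ⟨N₀, hN₀n, hN₀fi, r, hr⟩ := exists_sep_A hG hB1 (hRF G hG.1) C (C.index + 1)
  -- the finite quotient and the image of `C`
  have hQ₀ : Finite (G ⧸ N₀) := inferInstance
  let p₀ : G →* G ⧸ N₀ := QuotientGroup.mk' N₀
  have hp₀ : Surjective p₀ := QuotientGroup.mk'_surjective N₀
  let C₁ : Subgroup (G ⧸ N₀) := C.map p₀
  have hC₁n : C₁.Normal := Normal.map hCn p₀ hp₀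
  let ρ : G →* MulAut C₁ := (MulAut.conjNormal (H := C₁)).comp p₀
  have hρ : ∀ (g : G) (c : C₁), ((ρ g c : C₁) : G ⧸ N₀) = p₀ g * c * (p₀ g)⁻¹ := by
    intro g c
    change ((MulAut.conjNormal (p₀ g) c : C₁) : G ⧸ N₀) = _
    rw [MulAut.conjNormal_apply]
  have hMA : Finite (MulAut C₁) :=
    Finite.of_injective (fun f : MulAut C₁ => (f : C₁ → C₁)) (fun a b h => by
      ext x; exact congrArg (fun t : C₁ → C₁ => (t x : G ⧸ N₀)) h)
  let P : Subgroup (MulAut C₁) := ρ.range
  have hPcard : C.index < Nat.card P := by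
    have h1 : Injective (fun i : Fin (C.index + 1) => (⟨ρ (r i), ⟨r i, rfl⟩⟩ : P)) := by
      intro i j hij
      by_contra hne
      obtain ⟨d, hd⟩ := hr i j hne
      have h2 : ρ (r i) = ρ (r j) := congrArg (fun t : P => (t : MulAut C₁)) hij
      have h3 := congrArg (fun t : MulAut C₁ =>
        ((t ⟨p₀ (d : G), mem_map_of_mem p₀ d.2⟩ : C₁) : G ⧸ N₀)) h2
      simp only [hρ] at h3
      apply hd
      have h4 : p₀ (((r j : G) * d * (r j : G)⁻¹) * ((r i : G) * d * (r i : G)⁻¹)⁻¹) = 1 := by
        rw [map_mul, map_inv, mul_inv_eq_one]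
        simp only [map_mul, map_inv]
        exact h3.symm
      rwa [← MonoidHom.mem_ker, QuotientGroup.ker_mk'] at h4
    have h2 := Nat.card_le_card_of_injective _ h1
    rw [Nat.card_eq_fintype_card (α := Fin (C.index + 1)), Fintype.card_fin] at h2
    omega
  -- the normal subgroup R
  have hhom : Finite (G →* P) := finite_hom_A hfgG
  let K : Subgroup G := ⨅ χ : G →* P, χ.ker
  have hKn : K.Normal := normal_iInf_normal fun χ => inferInstance
  have hKfi : K.FiniteIndex := finiteIndex_iInf fun χ => finiteIndex_ker χ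
  let R : Subgroup G := N₀ ⊓ (C ⊓ K)
  have hRn : R.Normal := inferInstance
  have hRfi : R.FiniteIndex := inferInstance
  have hRi : Infinite R := by
    by_contra hn
    rw [not_infinite_iff_finite] at hn
    have : Finite G := Finite.of_subgroup_quotient R
    exact not_finite G
  have hfgC : Group.FG C := inferInstance
  obtain ⟨S, hS, hSf⟩ := Group.fg_iff.1 hfgC
  have hfinS : Finite (insert (1 : C) S : Set C) := hSf.insert 1
  have hneS : Nonempty (insert (1 : C) S : Set C) := ⟨⟨1, Set.mem_insert _ _⟩⟩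
  obtain ⟨u, hu, hNEH, hMM⟩ := hSN G hG R hRn hRi (inf_le_right.trans inf_le_left)
    (insert (1 : C) S : Set C) (fun s => ((s : C) : G)) (fun s => (s : C).2) M hM h1M
  set N : Subgroup G := normalClosure (Set.range fun i : (insert (1 : C) S : Set C) =>
    ((i : C) : G) * u i) with hN
  let q : G →* G ⧸ N := QuotientGroup.mk' N
  have hqs : Surjective q := QuotientGroup.mk'_surjective N
  have hqM : ∀ m ∈ M, q m ≠ 1 := by
    intro m hm h
    rw [← MonoidHom.mem_ker, QuotientGroup.ker_mk'] at h
    exact hMM m hm h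
  obtain ⟨φ, hφ⟩ := exists_sentence C₁ P (fun p c => (p : MulAut C₁) c)
  refine ⟨φ, ?_, ?_⟩
  · -- the group in which the sentence holds
    let γ : G →* (G ⧸ N₀) × (G ⧸ N) := p₀.prod q
    let G' := γ.range
    let π : G →* G' := γ.rangeRestrict
    have hπs : Surjective π := γ.rangeRestrict_surjective
    let κ : G' →* G ⧸ N := (MonoidHom.snd _ _).comp γ.range.subtype
    have hκs : Surjective κ := by
      intro x
      obtain ⟨g, rfl⟩ := hqs x
      exact ⟨π g, rfl⟩
    have hκf : Finite κ.ker := by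
      refine Finite.of_injective (fun x : κ.ker => x.1.1.1) ?_
      rintro ⟨⟨⟨a, b⟩, h⟩, h'⟩ ⟨⟨⟨a', b'⟩, h₁⟩, h₁'⟩ hh
      have hb : b = 1 := h'
      have hb' : b' = 1 := h₁'
      have ha : a = a' := hh
      subst ha hb hb'
      rfl
    have hG' : NEH G' := (neh_iff_of_finKer hB4 κ hκs hκf).2 hNEH
    -- elements (c, 1)
    have hC₁N : ∀ c ∈ C₁, ((c, 1) : (G ⧸ N₀) × (G ⧸ N)) ∈ γ.range := by
      have h1 : ∀ c : C, ∃ g ∈ N, p₀ g = p₀ c := by
        intro c
        have hc : c ∈ closure S := by rw [hS]; exact mem_top _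
        induction hc using closure_induction with
        | mem s hs =>
          refine ⟨(s : G) * u ⟨s, Set.mem_insert_of_mem _ hs⟩,
            subset_normalClosure ⟨⟨s, Set.mem_insert_of_mem _ hs⟩, rfl⟩, ?_⟩
          have h2 : u ⟨s, Set.mem_insert_of_mem _ hs⟩ ∈ N₀ := (hu _).1
          have h3 : p₀ (u ⟨s, Set.mem_insert_of_mem _ hs⟩) = 1 := by
            rw [← MonoidHom.mem_ker, QuotientGroup.ker_mk']; exact h2
          rw [map_mul, h3, mul_one]
        | one => exact ⟨1, one_mem _, rfl⟩
        | mul x y _ _ hx hy =>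
          obtain ⟨a, ha, ha'⟩ := hx
          obtain ⟨b, hb, hb'⟩ := hy
          exact ⟨a * b, mul_mem ha hb, by rw [map_mul, ha', hb', coe_mul, map_mul]⟩
        | inv x _ hx =>
          obtain ⟨a, ha, ha'⟩ := hx
          exact ⟨a⁻¹, inv_mem ha, by rw [map_inv, ha', coe_inv, map_inv]⟩
      rintro _ ⟨c, hc, rfl⟩
      obtain ⟨g, hg, hg'⟩ := h1 ⟨c, hc⟩
      refine ⟨g, ?_⟩
      have h4 : q g = 1 := by rw [← MonoidHom.mem_ker, QuotientGroup.ker_mk']; exact hg
      change (p₀ g, q g) = _
      rw [hg', h4]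
    let x : C₁ →* G' :=
      { toFun := fun c => ⟨((c : G ⧸ N₀), 1), hC₁N c c.2⟩
        map_one' := rfl
        map_mul' := fun a b => by
          apply Subtype.ext
          change ((((a * b : C₁) : G ⧸ N₀)), (1 : G ⧸ N)) = (_, (1 : G ⧸ N) * 1)
          rw [mul_one]; rfl }
    have hxinj : ∀ c : C₁, x c = 1 → c = 1 := by
      intro c h
      have h1 := congrArg (fun t : G' => (t : (G ⧸ N₀) × (G ⧸ N)).1) h
      exact Subtype.ext h1
    have hxc : ∀ (g : G) (c : C₁), π g * x c * (π g)⁻¹ = x (ρ g c) := by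
      intro g c
      apply Subtype.ext
      apply Prod.ext
      · change p₀ g * c * (p₀ g)⁻¹ = ((ρ g c : C₁) : G ⧸ N₀)
        rw [hρ]
      · change q g * 1 * (q g)⁻¹ = 1
        simp
    refine ⟨G', inferInstance, π, hπs, hG', ?_, x '' {c | c ≠ 1}, Set.toFinite _, ?_, ?_⟩
    · intro m hm h
      exact hqM m hm (congrArg (fun t : G' => (t : (G ⧸ N₀) × (G ⧸ N)).2) h)
    · rintro ⟨c, hc, h⟩
      exact hc (hxinj c h)
    · intro L _ f hf hM'
      rw [hφ]
      refine ⟨fun c => f (x c), ?_, ?_, ?_⟩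
      · intro a b h
        by_contra hne
        have h1 : a * b⁻¹ ≠ 1 := by rwa [Ne, mul_inv_eq_one]
        apply hM' (x (a * b⁻¹)) ⟨_, h1, rfl⟩
        have h2 : f (x a) = f (x b) := h
        rw [map_mul, map_mul, h2, ← map_mul, ← map_mul, mul_inv_cancel, map_one, map_one]
      · intro y
        obtain ⟨y, rfl⟩ := hf y
        obtain ⟨g, rfl⟩ := hπs y
        refine ⟨⟨ρ g, ⟨g, rfl⟩⟩, fun c => ?_⟩
        rw [← map_inv, ← map_mul, ← map_mul, hxc]
      · rintro ⟨_, ⟨g, rfl⟩⟩
        refine ⟨f (π g), fun c => ?_⟩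
        rw [← map_inv, ← map_mul, ← map_mul, hxc]
  · -- the group in which the sentence fails
    refine ⟨G ⧸ N, inferInstance, q, hqs, hNEH, hqM, ∅, Set.finite_empty, by simp, ?_⟩
    intro L _ f hf _ hL
    rw [hφ] at hL
    obtain ⟨x, hx, h1, h2⟩ := hL
    choose t ht using h1
    have huniq : ∀ (p p' : P), (∀ c, x ((p : MulAut C₁) c) = x ((p' : MulAut C₁) c)) → p = p' := by
      intro p p' h
      apply Subtype.ext
      ext c
      exact congrArg Subtype.val (hx (h c))
    let τ : L →* P :=
      { toFun := t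
        map_one' := by
          apply huniq
          intro c
          have := ht 1 c
          rw [← this]; simp
        map_mul' := fun a b => by
          apply huniq
          intro c
          have h3 := ht (a * b) c
          rw [← h3]
          change _ = x ((t a : MulAut C₁) ((t b : MulAut C₁) c))
          rw [← ht a, ← ht b]
          group }
    have hτ : Surjective τ := by
      intro p
      obtain ⟨y, hy⟩ := h2 p
      refine ⟨y, huniq _ _ fun c => ?_⟩
      change x ((t y : MulAut C₁) c) = _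
      rw [← ht y, hy]
    let ψ : G →* P := (τ.comp f).comp q
    have hψ : Surjective ψ := (hτ.comp hf).comp hqs
    have hRψ : R ≤ ψ.ker := (inf_le_right.trans inf_le_right).trans (iInf_le _ ψ)
    have hCψ : C ≤ ψ.ker := by
      have h3 : ∀ c : C, (c : G) ∈ ψ.ker := by
        intro c
        have hc : c ∈ closure S := by rw [hS]; exact mem_top _
        induction hc using closure_induction with
        | mem s hs =>
          have h4 : (s : G) * u ⟨s, Set.mem_insert_of_mem _ hs⟩ ∈ ψ.ker := by
            have h5 : (s : G) * u ⟨s, Set.mem_insert_of_mem _ hs⟩ ∈ N :=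
              subset_normalClosure ⟨⟨s, Set.mem_insert_of_mem _ hs⟩, rfl⟩
            have h6 : q ((s : G) * u ⟨s, Set.mem_insert_of_mem _ hs⟩) = 1 := by
              rw [← MonoidHom.mem_ker, QuotientGroup.ker_mk']; exact h5
            rw [MonoidHom.mem_ker]
            change (τ.comp f) (q _) = 1
            rw [h6, map_one]
          exact (mul_mem_cancel_right (hRψ (hu _))).1 h4
        | one => simp
        | mul x y _ _ hx hy => rw [coe_mul]; exact mul_mem hx hy
        | inv x _ hx => rw [coe_inv]; exact inv_mem hx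
      exact fun c hc => h3 ⟨c, hc⟩
    have h3 : ψ.ker.index = Nat.card P := by
      rw [index_ker, MonoidHom.range_eq_top.2 hψ]
      exact Nat.card_congr (Equiv.Set.univ P)
    have h4 : ψ.ker.index ≤ C.index :=
      Nat.le_of_dvd (Nat.pos_of_ne_zero hCfi.index_ne_zero) (index_dvd_of_le hCψ)
    omega

end Pool.SC
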