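import Mathlib

/-!
# SC-Defs: hyperbolic groups, marked groups, the question (MP_565fc2_lc)

All distances are natural numbers; all Gromov product constants are doubled, so that every inequality is linear over `ℕ`
and `omega` can be used.
-/

set_option autoImplicit false

namespace Pool.SC

noncomputable section

section Group

variable {G : Type} [Group G]

/-- word length of `g` with respect to the set `S` -/
def wl (S : Set G) (g : G) : ℕ :=
  sInf {n | ∃ l : List G, l.length = n ∧ (∀ x ∈ l, x ∈ S ∨ x⁻¹ ∈ S) ∧ l.prod = g}

/-- word distance with respect to the set `S` -/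
def wd (S : Set G) (x y : G) : ℕ := wl S (x⁻¹ * y)

/-- Gromov's four point condition for the word metric, with constant `D` (`= 2 δ`) -/
def Four (S : Set G) (D : ℕ) : Prop := ∀ x y z w : G,
  wd S x y + wd S z w ≤ max (wd S x z + wd S y w) (wd S x w + wd S y z) + D

variable (G) in
/-- `G` is (word) hyperbolic -/
def WordHyp : Prop := ∃ S : Set G, S.Finite ∧ Subgroup.closure S = ⊤ ∧ ∃ D : ℕ, Four S D

variable (G) in
/-- `G` is not virtually cyclic: no cyclic subgroup has finite index -/
def NonElem : Prop := ∀ g : G, ¬ (Subgroup.zpowers g).FiniteIndex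

variable (G) in
/-- non-elementary hyperbolic groups -/
def NEH : Prop := WordHyp G ∧ NonElem G

/-- `g` generates an undistorted infinite cyclic subgroup -/
def Lox (g : G) : Prop := ∃ S : Set G, S.Finite ∧ Subgroup.closure S = ⊤ ∧ ∃ k : ℕ, ∀ n : ℕ, n ≤ k * wl S (g ^ n)

/-- `x` has finitely many conjugates under `H` -/
def FinConj (H : Subgroup G) (x : G) : Prop := {y | ∃ h ∈ H, y = h * x * h⁻¹}.Finite

/-- nonzero powers of `a` and `b` are conjugate -/
def Comm (a b : G) : Prop := ∃ γ : G, ∃ n m : ℤ, n ≠ 0 ∧ m ≠ 0 ∧ γ * a ^ n * γ⁻¹ = b ^ m

end Group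

/-! ### the language of groups -/

/-- function symbols `1`, `⁻¹`, `·` -/
inductive GrpFun : ℕ → Type
  | one : GrpFun 0
  | inv : GrpFun 1
  | mul : GrpFun 2

/-- the first order language of groups -/
def LG : FirstOrder.Language := ⟨GrpFun, fun _ => Empty⟩

instance grpStructure (G : Type) [Group G] : LG.Structure G where
  funMap {n} f := match n, f with
    | _, GrpFun.one => fun _ => 1
    | _, GrpFun.inv => fun v => (v 0)⁻¹
    | _, GrpFun.mul => fun v => v 0 * v 1
  RelMap {_} r := nomatch r

/-! ### the space of marked groups -/

/-- A finitely generated marked group: a normal subgroup of the free group on `ℕ` which contains almost all free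
generators; the marked group is the quotient, with the images of the free generators as marking. -/
structure MGrp where
  /-- the kernel of the marking -/
  ker : Subgroup (FreeGroup ℕ)
  normal : ker.Normal
  fin : ∃ n, ∀ k, n ≤ k → FreeGroup.of k ∈ ker

namespace MGrp

instance (p : MGrp) : p.ker.Normal := p.normal

/-- the group -/
abbrev grp (p : MGrp) : Type := FreeGroup ℕ ⧸ p.ker

/-- the least `n` such that all generators `a_k`, `k ≥ n`, are trivial -/
def rk (p : MGrp) : ℕ := sInf {n | ∀ k, n ≤ k → FreeGroup.of k ∈ p.ker}

open Classical in
/-- pointwise convergence of the kernels; the sets `rk = n` are open -/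
instance : TopologicalSpace MGrp :=
  TopologicalSpace.induced (fun p : MGrp => ((fun w => decide (w ∈ p.ker) : FreeGroup ℕ → Bool), p.rk)) inferInstance

end MGrp

/-- the marked non-elementary hyperbolic groups -/
def HH : Set MGrp := {p | NEH p.grp}

/-- the set of all first order sentences of the language of groups which are true in `p` -/
def Th (p : MGrp) : LG.Theory := LG.completeTheory p.grp

/-- Question Q1 -/
def Q1 : Prop := ∃ S : Set (closure HH), S ∈ residual (closure HH) ∧ ((fun p : closure HH => Th p.1) '' S).Countable

end

end Pool.SC
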