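import Pool.Agent.Lib.MP_565fc2_lc.SC.FFree

/-!
# SC, part F: amalgamated products over a finite group, normal in both factors (`Amalg`)
-/

set_option autoImplicit false

namespace Pool.SC.F

open Monoid Function
open scoped Classical

noncomputable section

section

variable {A₁ A₂ E : Type} [Group A₁] [Group A₂] [Group E] (i₁ : E →* A₁) (i₂ : E →* A₂)

/-- the two embeddings as a family -/
def famMap : ∀ b, E →* Fam A₁ A₂ b
  | true => i₁
  | false => i₂

/-- the amalgamated product -/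
abbrev Am : Type := PushoutI (famMap i₁ i₂)

/-- first factor -/
def am₁ : A₁ →* Am i₁ i₂ := (PushoutI.of true : Fam A₁ A₂ true →* PushoutI (famMap i₁ i₂))

/-- second factor -/
def am₂ : A₂ →* Am i₁ i₂ := (PushoutI.of false : Fam A₁ A₂ false →* PushoutI (famMap i₁ i₂))

theorem am₁_apply (e : E) : am₁ i₁ i₂ (i₁ e) = PushoutI.base (famMap i₁ i₂) e :=
  PushoutI.of_apply_eq_base (famMap i₁ i₂) true e

theorem am₂_apply (e : E) : am₂ i₁ i₂ (i₂ e) = PushoutI.base (famMap i₁ i₂) e :=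
  PushoutI.of_apply_eq_base (famMap i₁ i₂) false e

theorem am_induction {p : Am i₁ i₂ → Prop} (x : Am i₁ i₂) (h1 : ∀ a, p (am₁ i₁ i₂ a))
    (h2 : ∀ a, p (am₂ i₁ i₂ a)) (hm : ∀ x y, p x → p y → p (x * y)) : p x := by
  induction x using PushoutI.induction_on with
  | of b g =>
    cases b
    · exact h2 g
    · exact h1 g
  | base e =>
    rw [← am₁_apply]
    exact h1 _
  | mul x y hx hy => exact hm x y hx hy

theorem base_normal (h1 : i₁.range.Normal) (h2 : i₂.range.Normal) :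
    ((am₁ i₁ i₂).comp i₁).range.Normal := by
  constructor
  intro n hn g
  induction g using am_induction generalizing n with
  | h1 a =>
    obtain ⟨e, rfl⟩ := hn
    obtain ⟨e', he'⟩ := h1.conj_mem _ ⟨e, rfl⟩ a
    refine ⟨e', ?_⟩
    rw [MonoidHom.comp_apply, he', map_mul, map_mul, map_inv]
    rfl
  | h2 a =>
    obtain ⟨e, rfl⟩ := hn
    obtain ⟨e', he'⟩ := h2.conj_mem _ ⟨e, rfl⟩ a
    refine ⟨e', ?_⟩
    rw [MonoidHom.comp_apply, MonoidHom.comp_apply, am₁_apply, am₁_apply, ← am₂_apply,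
      ← am₂_apply, he', map_mul, map_mul, map_inv]
  | hm x y hx hy =>
    have := hx _ (hy _ hn)
    rw [mul_inv_rev]
    simpa only [mul_assoc] using this

end

theorem _root_.Pool.SC.amalg : Amalg := by
  intro A₁ A₂ E _ _ _ _ i₁ i₂ hi₁ hi₂ hn₁ hn₂
  have hφ : ∀ b, Injective (famMap i₁ i₂ b) := by
    intro b
    cases b
    · exact hi₂
    · exact hi₁
  -- the projection
  let f : ∀ b, Fam A₁ A₂ b →* Monoid.Coprod (A₁ ⧸ i₁.range) (A₂ ⧸ i₂.range) :=
    famLift A₁ A₂ (Monoid.Coprod.inl.comp (QuotientGroup.mk' i₁.range))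
      (Monoid.Coprod.inr.comp (QuotientGroup.mk' i₂.range))
  have hf : ∀ b, (f b).comp (famMap i₁ i₂ b) = 1 := by
    intro b
    cases b
    · ext e
      show Monoid.Coprod.inr (QuotientGroup.mk' i₂.range (i₂ e)) = 1
      rw [(QuotientGroup.eq_one_iff (N := i₂.range) (i₂ e)).2 ⟨e, rfl⟩ |> (show
        QuotientGroup.mk' i₂.range (i₂ e) = 1 from ·), map_one]
    · ext e
      show Monoid.Coprod.inl (QuotientGroup.mk' i₁.range (i₁ e)) = 1
      rw [(QuotientGroup.eq_one_iff (N := i₁.range) (i₁ e)).2 ⟨e, rfl⟩ |> (show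
        QuotientGroup.mk' i₁.range (i₁ e) = 1 from ·), map_one]
  let π : Am i₁ i₂ →* Monoid.Coprod (A₁ ⧸ i₁.range) (A₂ ⧸ i₂.range) := PushoutI.lift f 1 hf
  have hπ₁ : ∀ a, π (am₁ i₁ i₂ a) = Monoid.Coprod.inl (QuotientGroup.mk' i₁.range a) :=
    fun a => PushoutI.lift_of f 1 hf (i := true) a
  have hπ₂ : ∀ a, π (am₂ i₁ i₂ a) = Monoid.Coprod.inr (QuotientGroup.mk' i₂.range a) :=
    fun a => PushoutI.lift_of f 1 hf (i := false) a
  have hsup : (am₁ i₁ i₂).range ⊔ (am₂ i₁ i₂).range = ⊤ := by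
    rw [eq_top_iff]
    rintro x -
    induction x using am_induction with
    | h1 a => exact (le_sup_left : (am₁ i₁ i₂).range ≤ _) ⟨a, rfl⟩
    | h2 a => exact (le_sup_right : (am₂ i₁ i₂).range ≤ _) ⟨a, rfl⟩
    | hm x y hx hy => exact mul_mem hx hy
  have hN := base_normal i₁ i₂ hn₁ hn₂
  refine ⟨Am i₁ i₂, inferInstance, am₁ i₁ i₂, am₂ i₁ i₂, π, PushoutI.of_injective hφ true,
    PushoutI.of_injective hφ false, ?_, hsup, ?_, ?_, ?_, ?_⟩
  · ext e
    rw [MonoidHom.comp_apply, MonoidHom.comp_apply, am₁_apply, am₂_apply]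
  · intro y
    induction y using Monoid.Coprod.induction_on with
    | inl a =>
      obtain ⟨a, rfl⟩ := QuotientGroup.mk'_surjective _ a
      exact ⟨_, hπ₁ a⟩
    | inr a =>
      obtain ⟨a, rfl⟩ := QuotientGroup.mk'_surjective _ a
      exact ⟨_, hπ₂ a⟩
    | mul x y hx hy =>
      obtain ⟨x, rfl⟩ := hx
      obtain ⟨y, rfl⟩ := hy
      exact ⟨x * y, map_mul _ _ _⟩
  · -- the kernel
    set N := ((am₁ i₁ i₂).comp i₁).range with hNdef
    apply le_antisymm
    · let q₁ : A₁ ⧸ i₁.range →* Am i₁ i₂ ⧸ N := QuotientGroup.map i₁.range N (am₁ i₁ i₂) (by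
        rintro _ ⟨e, rfl⟩
        exact ⟨e, rfl⟩)
      let q₂ : A₂ ⧸ i₂.range →* Am i₁ i₂ ⧸ N := QuotientGroup.map i₂.range N (am₂ i₁ i₂) (by
        rintro _ ⟨e, rfl⟩
        refine ⟨e, ?_⟩
        rw [MonoidHom.comp_apply, am₁_apply, am₂_apply])
      have hq : ∀ x, Monoid.Coprod.lift q₁ q₂ (π x) = QuotientGroup.mk' N x := by
        intro x
        induction x using am_induction with
        | h1 a =>
          rw [hπ₁, Monoid.Coprod.lift_apply_inl]
          rfl
        | h2 a =>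
          rw [hπ₂, Monoid.Coprod.lift_apply_inr]
          rfl
        | hm x y hx hy => rw [map_mul, map_mul, hx, hy, map_mul]
      intro x hx
      rw [MonoidHom.mem_ker] at hx
      have h1 := hq x
      rw [hx, map_one] at h1
      exact (QuotientGroup.eq_one_iff x).1 h1.symm
    · rintro _ ⟨e, rfl⟩
      rw [MonoidHom.mem_ker, MonoidHom.comp_apply, am₁_apply]
      exact PushoutI.lift_base f 1 hf e
  · ext a
    exact hπ₁ a
  · ext a
    exact hπ₂ a

end

end Pool.SC.F
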