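import Pool.Agent.Lib.MP_565fc2_lc.SC.Defs

/-!
# SC-Iface: the interface between the parts (statements only; each is a `def ... : Prop`)

Part T proves `T_yes : FPk → TRG → Q1` and `T_no : FPk → SPG → ¬ Q1`.
Part A proves `TRG` from a non-residually-finite hyperbolic group, `SPG` if all hyperbolic groups are residually finite
(using `ScGen`, `ScNormal`, `Amalg`, `B1 … B6`, `FreeProdHyp`, ...).
Part F proves `Amalg`, `FreeProdHyp`, `FreeProdLox`, `FreeProdFC`.
Part S proves `DehnHyp`, `FPk`.
Part H (basic geometry) proves `B1 … B6`.  Part C (small cancellation, helper46) proves `ScGen`, `ScNormal`.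
-/

set_option autoImplicit false

namespace Pool.SC

open Function

noncomputable section

/-! ### T: group theoretic forms of the two topological conditions -/

/-- transitivity: near every non-elementary hyperbolic group there is one, `G'`, such that any two non-elementary hyperbolic
quotients of `G'` near `G'` have common quotients near both -/
def TRG : Prop := ∀ (G : Type) [Group G], NEH G → ∀ M : Set G, M.Finite → (1 : G) ∉ M →
  ∃ (G' : Type) (_ : Group G') (π : G →* G'), Surjective π ∧ NEH G' ∧ (∀ m ∈ M, π m ≠ 1) ∧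
    ∃ M' : Set G', M'.Finite ∧ (1 : G') ∉ M' ∧
      ∀ (G₁ G₂ : Type) [Group G₁] [Group G₂] (f₁ : G' →* G₁) (f₂ : G' →* G₂), Surjective f₁ → Surjective f₂ →
        NEH G₁ → NEH G₂ → (∀ m ∈ M', f₁ m ≠ 1) → (∀ m ∈ M', f₂ m ≠ 1) →
        ∀ (M₁ : Set G₁) (M₂ : Set G₂), M₁.Finite → M₂.Finite → (1 : G₁) ∉ M₁ → (1 : G₂) ∉ M₂ →
          ∃ (L : Type) (_ : Group L) (g₁ : G₁ →* L) (g₂ : G₂ →* L), Surjective g₁ ∧ Surjective g₂ ∧ NEH L ∧
            (∀ m ∈ M₁, g₁ m ≠ 1) ∧ (∀ m ∈ M₂, g₂ m ≠ 1)

/-- splitting: near every non-elementary hyperbolic group some first order sentence is stably true and stably false -/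
def SPG : Prop := ∀ (G : Type) [Group G], NEH G → ∀ M : Set G, M.Finite → (1 : G) ∉ M → ∃ φ : LG.Sentence,
  (∃ (G' : Type) (_ : Group G') (π : G →* G'), Surjective π ∧ NEH G' ∧ (∀ m ∈ M, π m ≠ 1) ∧
    ∃ M' : Set G', M'.Finite ∧ (1 : G') ∉ M' ∧ ∀ (L : Type) [Group L] (f : G' →* L), Surjective f →
      (∀ m ∈ M', f m ≠ 1) → L ⊨ φ) ∧
  (∃ (G' : Type) (_ : Group G') (π : G →* G'), Surjective π ∧ NEH G' ∧ (∀ m ∈ M, π m ≠ 1) ∧
    ∃ M' : Set G', M'.Finite ∧ (1 : G') ∉ M' ∧ ∀ (L : Type) [Group L] (f : G' →* L), Surjective f →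
      (∀ m ∈ M', f m ≠ 1) → ¬ L ⊨ φ)

/-- kernels of markings of hyperbolic groups are finitely normally generated -/
def FPk : Prop := ∀ (G : Type) [Group G], WordHyp G → ∀ (n : ℕ) (f : FreeGroup (Fin n) →* G), Surjective f →
  f.ker.IsFinitelyNormallyGenerated

/-! ### C: small cancellation -/

/-- General small cancellation quotients.  `E` a finite normal subgroup, `C` its centralizer; subgroups `H σ ≤ C`, with
undistorted elements `h σ ∈ H σ` which are pairwise not commensurable; every element with finitely many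
`H σ`-conjugates lies in `E`.  Then for all `g i ∈ C` there are `u i ∈ H (cl i)` such that adding the relations `g i u i = 1`
gives a non-elementary hyperbolic group and does not kill the elements of the finite set `M`. -/
def ScGen : Prop := ∀ (D : Type) [Group D] (E : Subgroup D) [E.Normal] [Finite E], WordHyp D →
  ∀ (κ : Type) [Finite κ] (H : κ → Subgroup D) (h : κ → D), Nonempty κ →
    (∀ σ, H σ ≤ Subgroup.centralizer (E : Set D)) → (∀ σ, h σ ∈ H σ) → (∀ σ, Lox (h σ)) →
    (∀ σ τ, σ ≠ τ → ¬ Comm (h σ) (h τ)) → (∀ σ x, FinConj (H σ) x → x ∈ E) →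
    ∀ (ι : Type) [Finite ι] [Nonempty ι] (cl : ι → κ) (g : ι → D), (∀ i, g i ∈ Subgroup.centralizer (E : Set D)) →
      ∀ M : Set D, M.Finite → (1 : D) ∉ M →
        ∃ u : ι → D, (∀ i, u i ∈ H (cl i)) ∧
          NEH (D ⧸ Subgroup.normalClosure (Set.range fun i => g i * u i)) ∧
          ∀ m ∈ M, m ∉ Subgroup.normalClosure (Set.range fun i => g i * u i)

/-- the elements with finitely many conjugates -/
def fcr (G : Type) [Group G] : Subgroup G where
  carrier := {x | FinConj ⊤ x}
  mul_mem' := by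
    intro a b ha hb
    refine (Set.Finite.image2 (fun x y => x * y) ha hb).subset ?_
    rintro y ⟨h, hh, rfl⟩
    exact ⟨h * a * h⁻¹, ⟨h, hh, rfl⟩, h * b * h⁻¹, ⟨h, hh, rfl⟩, by group⟩
  one_mem' := by
    refine (Set.finite_singleton (1 : G)).subset ?_
    rintro y ⟨h, _, rfl⟩
    simp
  inv_mem' := by
    intro a ha
    refine (Set.Finite.image (fun x => x⁻¹) ha).subset ?_
    rintro y ⟨h, hh, rfl⟩
    exact ⟨h * a * h⁻¹, ⟨h, hh, rfl⟩, by group⟩

/-- small cancellation over an infinite normal subgroup `R` -/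
def ScNormal : Prop := ∀ (G : Type) [Group G], NEH G → ∀ R : Subgroup G, R.Normal → Infinite R →
  R ≤ Subgroup.centralizer (fcr G : Set G) →
  ∀ (ι : Type) [Finite ι] [Nonempty ι] (g : ι → G), (∀ i, g i ∈ Subgroup.centralizer (fcr G : Set G)) →
    ∀ M : Set G, M.Finite → (1 : G) ∉ M →
      ∃ u : ι → G, (∀ i, u i ∈ R) ∧
        NEH (G ⧸ Subgroup.normalClosure (Set.range fun i => g i * u i)) ∧
        ∀ m ∈ M, m ∉ Subgroup.normalClosure (Set.range fun i => g i * u i)

/-! ### H: basic facts on hyperbolic groups -/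

/-- the FC-centre is finite -/
def B1 : Prop := ∀ (G : Type) [Group G], NEH G → Finite (fcr G)

/-- infinite hyperbolic groups contain undistorted elements -/
def B2 : Prop := ∀ (G : Type) [Group G], WordHyp G → Infinite G → ∃ g : G, Lox g

/-- powers of undistorted elements -/
def B3 : Prop := ∀ (G : Type) [Group G] (g : G) (n : ℕ), 0 < n → Lox g → Lox (g ^ n)

/-- finite normal subgroups do not matter -/
def B4 : Prop := ∀ (G : Type) [Group G] (E : Subgroup G) [E.Normal], Finite E →
  (WordHyp (G ⧸ E) ↔ WordHyp G) ∧ (NonElem (G ⧸ E) ↔ NonElem G) ∧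
    ∀ g : G, (Lox (QuotientGroup.mk' E g) ↔ Lox g)

/-- infinite normal subgroups contain undistorted elements -/
def B5 : Prop := ∀ (G : Type) [Group G], NEH G → ∀ R : Subgroup G, R.Normal → Infinite R → ∃ g ∈ R, Lox g

/-- elements with finitely many conjugates under an infinite normal subgroup -/
def B6 : Prop := ∀ (G : Type) [Group G], NEH G → ∀ R : Subgroup G, R.Normal → Infinite R →
  ∀ x : G, FinConj R x → FinConj ⊤ x

/-! ### S: Dehn property implies hyperbolic -/

/-- If every nonempty word which is trivial in `G` has a subword of length `≤ K` which is not geodesic, then the word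
metric satisfies the four point condition. (`S = S⁻¹` finite.) -/
def DehnHyp : Prop := ∀ (G : Type) [Group G] (S : Set G), S.Finite → Subgroup.closure S = ⊤ → (∀ s ∈ S, s⁻¹ ∈ S) →
  ∀ K : ℕ, (∀ l : List G, l ≠ [] → (∀ x ∈ l, x ∈ S) → l.prod = 1 →
      ∃ l₁ m l₂ : List G, l = l₁ ++ m ++ l₂ ∧ m.length ≤ K ∧ wl S m.prod < m.length) →
    ∃ D : ℕ, Four S D

/-! ### F: free products and amalgams -/

/-- free products of hyperbolic groups are hyperbolic -/
def FreeProdHyp : Prop := ∀ (A B : Type) [Group A] [Group B], WordHyp A → WordHyp B → WordHyp (Monoid.Coprod A B)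

/-- undistorted elements stay undistorted -/
def FreeProdLox : Prop := ∀ (A B : Type) [Group A] [Group B], WordHyp A → WordHyp B → ∀ a : A, Lox a →
  Lox (Monoid.Coprod.inl a : Monoid.Coprod A B)

/-- conjugacy in free products -/
def FreeProdFC : Prop := ∀ (A B : Type) [Group A] [Group B] (H : Subgroup A), Infinite H →
  (∀ x : Monoid.Coprod A B, FinConj (H.map (Monoid.Coprod.inl : A →* Monoid.Coprod A B)) x →
    ∃ a : A, x = Monoid.Coprod.inl a ∧ FinConj H a)

/-- amalgamated products over a finite group which is normal in both factors -/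
def Amalg : Prop := ∀ (A₁ A₂ E : Type) [Group A₁] [Group A₂] [Group E] [Finite E] (i₁ : E →* A₁) (i₂ : E →* A₂),
  Injective i₁ → Injective i₂ → ∀ (_ : i₁.range.Normal) (_ : i₂.range.Normal),
    ∃ (D : Type) (_ : Group D) (j₁ : A₁ →* D) (j₂ : A₂ →* D)
      (π : D →* Monoid.Coprod (A₁ ⧸ i₁.range) (A₂ ⧸ i₂.range)),
      Injective j₁ ∧ Injective j₂ ∧ j₁.comp i₁ = j₂.comp i₂ ∧
      j₁.range ⊔ j₂.range = ⊤ ∧ Surjective π ∧ π.ker = (j₁.comp i₁).range ∧
      π.comp j₁ = Monoid.Coprod.inl.comp (QuotientGroup.mk' i₁.range) ∧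
      π.comp j₂ = Monoid.Coprod.inr.comp (QuotientGroup.mk' i₂.range)

end

end Pool.SC
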