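import Pool.Agent.Lib.MP_565fc2_lc.SC.FWord
import Pool.Agent.Lib.MP_565fc2_lc.SC.Iface

/-!
# SC, part F: free products (`FreeProdHyp`, `FreeProdLox`, `FreeProdFC`)
-/

set_option autoImplicit false

namespace Pool.SC.F

open Monoid Monoid.CoprodI Function
open scoped Classical

noncomputable section

/-! ### two factors as a family -/

/-- the two factors as a family of types -/
def Fam (A B : Type) : Bool → Type := fun b => cond b A B

instance famGroup (A B : Type) [Group A] [Group B] : ∀ b, Group (Fam A B b)
  | true => (inferInstance : Group A)
  | false => (inferInstance : Group B)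

section

variable (A B : Type) [Group A] [Group B]

/-- first factor -/
def ofA : A →* CoprodI (Fam A B) := (CoprodI.of : Fam A B true →* CoprodI (Fam A B))

/-- second factor -/
def ofB : B →* CoprodI (Fam A B) := (CoprodI.of : Fam A B false →* CoprodI (Fam A B))

/-- homomorphisms out of the family -/
def famLift {K : Type} [Group K] (f : A →* K) (g : B →* K) : ∀ b, Fam A B b →* K
  | true => f
  | false => g

/-- the two descriptions of the free product -/
def coprodEquiv : Monoid.Coprod A B ≃* CoprodI (Fam A B) :=
  MonoidHom.toMulEquiv (Monoid.Coprod.lift (ofA A B) (ofB A B))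
    (CoprodI.lift (famLift A B Monoid.Coprod.inl Monoid.Coprod.inr))
    (by
      apply Monoid.Coprod.hom_ext
      · ext x
        exact CoprodI.lift_of (famLift (K := Monoid.Coprod A B) A B
          Monoid.Coprod.inl Monoid.Coprod.inr) (i := true) x
      · ext x
        exact CoprodI.lift_of (famLift (K := Monoid.Coprod A B) A B
          Monoid.Coprod.inl Monoid.Coprod.inr) (i := false) x)
    (by
      apply CoprodI.ext_hom
      intro b
      cases b
      · ext x
        exact congrArg (Monoid.Coprod.lift (ofA A B) (ofB A B))
          (CoprodI.lift_of (famLift A B Monoid.Coprod.inl Monoid.Coprod.inr) (i := false) x)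
      · ext x
        exact congrArg (Monoid.Coprod.lift (ofA A B) (ofB A B))
          (CoprodI.lift_of (famLift A B Monoid.Coprod.inl Monoid.Coprod.inr) (i := true) x))

theorem coprodEquiv_inl (a : A) :
    coprodEquiv A B (Monoid.Coprod.inl a) = (CoprodI.of (i := true) (M := Fam A B) a) := rfl

theorem coprodEquiv_inr (a : B) :
    coprodEquiv A B (Monoid.Coprod.inr a) = (CoprodI.of (i := false) (M := Fam A B) a) := rfl

/-- the family of generating sets -/
def famSet {A B : Type} (S : Set A) (T : Set B) : ∀ b, Set (Fam A B b)
  | true => S
  | false => T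

end

/-- free products of hyperbolic groups are hyperbolic -/
theorem _root_.Pool.SC.freeProdHyp : FreeProdHyp := by
  intro A B _ _ hA hB
  obtain ⟨S, hSf, hS, D, hD⟩ := hA
  obtain ⟨T, hTf, hT, D', hD'⟩ := hB
  apply WordHyp.equiv (coprodEquiv A B).symm
  refine ⟨fgen (famSet S T), fgen_finite ?_, fgen_closure ?_, max D D', four_fgen ?_ ?_⟩
  · intro b
    cases b
    · exact hTf
    · exact hSf
  · intro b
    cases b
    · exact hT
    · exact hS
  · intro b
    cases b
    · exact hT
    · exact hS
  · intro b
    cases b
    · intro x y z w
      exact (hD' x y z w).trans (Nat.add_le_add_left (le_max_right _ _) _)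
    · intro x y z w
      exact (hD x y z w).trans (Nat.add_le_add_left (le_max_left _ _) _)

/-- undistorted elements stay undistorted -/
theorem _root_.Pool.SC.freeProdLox : FreeProdLox := by
  intro A B _ _ hA hB a ha
  obtain ⟨T, hTf, hT, -⟩ := hB
  obtain ⟨S, hSf, hS, k, hk⟩ := ha
  have h1 : ∀ b, Subgroup.closure (famSet S T b) = ⊤ := by
    intro b
    cases b
    · exact hT
    · exact hS
  have h2 : Lox (coprodEquiv A B (Monoid.Coprod.inl a)) := by
    refine ⟨fgen (famSet S T), fgen_finite ?_, fgen_closure h1, k, fun n => ?_⟩
    · intro b
      cases b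
      · exact hTf
      · exact hSf
    · rw [← map_pow, ← map_pow, coprodEquiv_inl, wl_fgen h1, gl_of]
      exact hk n
  have h3 := Lox.equiv (coprodEquiv A B).symm _ h2
  rwa [MulEquiv.symm_apply_apply] at h3

/-! ### conjugates of elements outside a factor -/

section

variable {ι : Type} {G : ι → Type} [∀ i, Group (G i)]

theorem fst_of_smul {i : ι} {m : G i} {w : Word G} (hw : w.fstIdx ≠ some i) (hm : m ≠ 1) :
    (of m • w).fstIdx = some i := by
  rw [← Word.cons_eq_smul (h1 := hw) (h2 := hm), Word.fstIdx_cons]

/-- right multiplication by an element of the factor `i` does not change whether the word starts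
with the factor `j ≠ i` -/
theorem fst_mul_of (i : ι) (m : G i) (w : Word G) : ∀ j : ι, j ≠ i →
    ((Word.equiv (w.prod * of m)).fstIdx = some j ↔ w.fstIdx = some j) := by
  have hE : (Word.empty : Word G).fstIdx = none := rfl
  have hof : ∀ (b : G i), b ≠ 1 → (Word.equiv (of b : CoprodI G)).fstIdx = some i := by
    intro b hb
    have : (of b : CoprodI G) = (of b • (Word.empty : Word G)).prod := by
      rw [Word.prod_smul, Word.prod_empty, mul_one]
    rw [this, equiv_prod]
    exact fst_of_smul (by rw [hE]; simp) hb
  induction w using Word.consRecOn with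
  | empty =>
    intro j hj
    rw [Word.prod_empty, one_mul, hE]
    by_cases hm : m = 1
    · rw [hm, map_one, ← Word.prod_empty, equiv_prod, hE]
    · rw [hof m hm]
      simp only [reduceCtorEq, iff_false]
      exact fun e => hj (Option.some.inj e).symm
  | cons k b w h1 h2 ih =>
    intro j hj
    have e1 : Word.equiv ((Word.cons b w h1 h2).prod * of m)
        = of b • Word.equiv (w.prod * of m) := by
      have : (Word.cons b w h1 h2).prod * of m
          = (of b • Word.equiv (w.prod * of m)).prod := by
        rw [Word.prod_smul, prod_equiv, Word.prod_cons, mul_assoc]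
      rw [this, equiv_prod]
    rw [e1, Word.fstIdx_cons]
    by_cases hk : k = i
    · subst hk
      constructor
      · intro h
        exfalso
        by_cases hw : (Word.equiv (w.prod * of m)).fstIdx = some k
        · -- then `w` is empty
          have hw' : w = Word.empty := by
            by_contra hne
            induction w using Word.consRecOn with
            | empty => exact hne rfl
            | cons k' b' w' h1' h2' _ =>
              rw [Word.fstIdx_cons] at h1
              have hk' : k' ≠ k := fun e => h1 (by rw [e])
              have := (ih k' hk').2 (Word.fstIdx_cons _ _ _ _)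
              rw [hw] at this
              exact hk' (Option.some.inj this).symm
          subst hw'
          rw [Word.prod_empty, one_mul] at h
          have : of b • Word.equiv (of m : CoprodI G) = Word.equiv (of (b * m) : CoprodI G) := by
            have : (of (b * m) : CoprodI G) = (of b • Word.equiv (of m : CoprodI G)).prod := by
              rw [Word.prod_smul, prod_equiv, map_mul]
            rw [this, equiv_prod]
          rw [this] at h
          by_cases hbm : b * m = 1
          · rw [hbm, map_one, ← Word.prod_empty, equiv_prod, hE] at h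
            simp at h
          · rw [hof _ hbm] at h
            exact hj (Option.some.inj h).symm
        · rw [fst_of_smul hw h2] at h
          exact hj (Option.some.inj h).symm
      · intro h
        exact absurd (Option.some.inj h).symm hj
    · have h3 : (Word.equiv (w.prod * of m)).fstIdx ≠ some k := fun e => h1 ((ih k hk).1 e)
      rw [fst_of_smul h3 h2]

/-- an element outside the factor `i` has infinitely many conjugates under an infinite subgroup of
the factor -/
theorem mem_factor_of_finConj {i : ι} (H : Subgroup (G i)) (hH : Infinite H) (x : CoprodI G)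
    (hx : FinConj (H.map (of : G i →* CoprodI G)) x) : ∃ a : G i, x = of a := by
  by_contra hne
  set w := Word.equiv x with hw
  have hxw : w.prod = x := prod_equiv x
  set t := tl i w with ht
  have ht1 : t.fstIdx ≠ some i := tl_fst i w
  have hxt : x = of (hd i w) * t.prod := by rw [← hxw, prod_eq i w]
  have key : ∀ h : G i, hd i (Word.equiv (of h * x * (of h)⁻¹)) = h * hd i w := by
    intro h
    have e1 : of h * x * (of h)⁻¹ = (of (h * hd i w) • Word.equiv (t.prod * of h⁻¹)).prod := by
      rw [Word.prod_smul, prod_equiv, hxt, map_mul, map_inv]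
      group
    have hte : t ≠ Word.empty := by
      intro e
      apply hne
      refine ⟨hd i w, ?_⟩
      rw [hxt, e, Word.prod_empty, mul_one]
    obtain ⟨j, hj⟩ : ∃ j, t.fstIdx = some j := by
      rcases h0 : t.fstIdx with _ | j
      · exfalso
        apply hte
        have h1 : t.toList = [] := by
          unfold Word.fstIdx at h0
          rw [Option.map_eq_none_iff, List.head?_eq_none_iff] at h0
          exact h0
        exact Word.ext h1
      · exact ⟨j, rfl⟩
    have hji : j ≠ i := fun e => ht1 (by rw [hj, e])
    have h2 : (Word.equiv (t.prod * of h⁻¹)).fstIdx ≠ some i := by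
      rw [(fst_mul_of i h⁻¹ t j hji).2 hj]
      exact fun e => hji (Option.some.inj e)
    rw [e1, equiv_prod, hd_smul, hd_of_ne h2, mul_one]
  have hinj : Injective fun h : H => of h.1 * x * (of h.1 : CoprodI G)⁻¹ := by
    intro a b hab
    have h1 := congrArg (fun g => hd i (Word.equiv g)) hab
    simp only [key] at h1
    exact Subtype.ext (mul_right_cancel h1)
  have hfin : (Set.range fun h : H => of h.1 * x * (of h.1 : CoprodI G)⁻¹).Finite := by
    refine hx.subset ?_
    rintro _ ⟨h, rfl⟩
    exact ⟨of h.1, ⟨h.1, h.2, rfl⟩, rfl⟩
  exact Set.infinite_range_of_injective hinj hfin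

end

/-- conjugacy in free products -/
theorem _root_.Pool.SC.freeProdFC : FreeProdFC := by
  intro A B _ _ H hH x hx
  have h1 : FinConj (Subgroup.map (of : Fam A B true →* CoprodI (Fam A B)) H)
      (coprodEquiv A B x) := by
    refine (hx.image (coprodEquiv A B)).subset ?_
    rintro y ⟨h, ⟨a, ha, rfl⟩, rfl⟩
    refine ⟨Monoid.Coprod.inl (M := A) (N := B) a * x * (Monoid.Coprod.inl (M := A) (N := B) a)⁻¹,
      ⟨_, ⟨a, ha, rfl⟩, rfl⟩, ?_⟩
    rw [map_mul, map_mul, map_inv]
    rfl
  obtain ⟨a, ha⟩ := mem_factor_of_finConj (i := true) _ hH _ h1
  have hxa : x = Monoid.Coprod.inl (M := A) (N := B) a := by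
    apply (coprodEquiv A B).injective
    rw [ha]
    rfl
  refine ⟨a, hxa, ?_⟩
  have h2 : Injective (Monoid.Coprod.inl : A →* Monoid.Coprod A B) :=
    Monoid.Coprod.inl_injective
  subst hxa
  unfold FinConj at hx ⊢
  refine (hx.preimage h2.injOn).subset ?_
  rintro y ⟨h, hh, rfl⟩
  refine ⟨Monoid.Coprod.inl h, ⟨h, hh, rfl⟩, ?_⟩
  rw [← map_inv, ← map_mul, ← map_mul]

end

end Pool.SC.F
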