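import Pool.Agent.Lib.MP_565fc2_lc.SC.FWL
import Pool.Agent.Lib.MP_565fc2_lc.SC.Iface

/-!
# SC, part F: finite normal subgroups do not matter (`B4`)
-/

set_option autoImplicit false

namespace Pool.SC.F

variable {G : Type} [Group G] (E : Subgroup G) [E.Normal]

/-- generators of `G` from generators of `G ⧸ E` -/
theorem closure_lift {T : Set (G ⧸ E)} (hT : Subgroup.closure T = ⊤) :
    Subgroup.closure (Quotient.out '' T ∪ (E : Set G)) = ⊤ := by
  set K := Subgroup.closure (Quotient.out '' T ∪ (E : Set G)) with hK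
  have h1 : (QuotientGroup.mk' E).ker ≤ K := by
    rw [QuotientGroup.ker_mk']
    exact fun x hx => Subgroup.subset_closure (Or.inr hx)
  have h2 : K.map (QuotientGroup.mk' E) = ⊤ := by
    rw [eq_top_iff, ← hT, Subgroup.closure_le]
    intro x hx
    refine ⟨x.out, Subgroup.subset_closure (Or.inl ⟨x, hx, rfl⟩), ?_⟩
    exact QuotientGroup.out_eq' x
  rw [← Subgroup.comap_map_eq_self h1, h2, Subgroup.comap_top]

theorem image_out {T : Set (G ⧸ E)} : QuotientGroup.mk' E '' (Quotient.out '' T) = T := by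
  rw [Set.image_image]
  conv_rhs => rw [← Set.image_id T]
  exact Set.image_congr fun x _ => QuotientGroup.out_eq' x

/-- lengths in `G` and `G ⧸ E` for generators coming from the quotient -/
theorem wl_lift_le {T : Set (G ⧸ E)} (hT : Subgroup.closure T = ⊤) (g : G) :
    wl (Quotient.out '' T ∪ (E : Set G)) g ≤ wl T (g : G ⧸ E) + 1 := by
  obtain ⟨m, m1, m2, m3⟩ := exists_lift_list (QuotientGroup.mk' E) (S := Quotient.out '' T)
    (by rw [image_out]; exact hT) (g : G ⧸ E)
  rw [image_out] at m1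
  have he : m.prod⁻¹ * g ∈ E := by
    rw [← QuotientGroup.eq]
    exact m3
  refine wl_le (m ++ [m.prod⁻¹ * g]) (by simp [m1]) ?_ (by simp)
  intro x hx
  rw [List.mem_append, List.mem_singleton] at hx
  rcases hx with hx | rfl
  · exact (m2 x hx).imp Or.inl Or.inl
  · exact Or.inl (Or.inr he)

theorem wl_quot_le {T : Set (G ⧸ E)} (hT : Subgroup.closure T = ⊤) (g : G) :
    wl T (g : G ⧸ E) ≤ wl (Quotient.out '' T ∪ (E : Set G)) g := by
  refine wl_map_le (QuotientGroup.mk' E) (closure_lift E hT) ?_ g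
  rintro x (⟨y, hy, rfl⟩ | hx)
  · left
    have : QuotientGroup.mk' E y.out = y := QuotientGroup.out_eq' y
    rw [this]
    exact hy
  · right; right
    exact (QuotientGroup.eq_one_iff x).2 hx

/-- lengths in `G` and `G ⧸ E` for generators coming from `G` -/
theorem exists_wl_le_add [Finite E] {S : Set G} (hS : Subgroup.closure S = ⊤) :
    ∃ C, ∀ g : G, wl S g ≤ wl (QuotientGroup.mk' E '' S) (g : G ⧸ E) + C := by
  obtain ⟨C, hC⟩ := ((Set.toFinite (E : Set G)).image (wl S)).bddAbove
  refine ⟨C, fun g => ?_⟩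
  obtain ⟨g', h1, h2⟩ := exists_lift (QuotientGroup.mk' E) hS (QuotientGroup.mk'_surjective E)
    (g : G ⧸ E)
  have he : g'⁻¹ * g ∈ E := by
    rw [← QuotientGroup.eq]
    exact h1
  have h3 : wl S (g'⁻¹ * g) ≤ C := hC (Set.mem_image_of_mem _ he)
  have h4 := wl_mul_le hS g' (g'⁻¹ * g)
  rw [mul_inv_cancel_left] at h4
  omega

theorem wl_mk_le {S : Set G} (hS : Subgroup.closure S = ⊤) (g : G) :
    wl (QuotientGroup.mk' E '' S) (g : G ⧸ E) ≤ wl S g :=
  wl_map_le (QuotientGroup.mk' E) (T := QuotientGroup.mk' E '' S) hS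
    (fun x hx => Or.inl (Set.mem_image_of_mem _ hx)) g

theorem wordHyp_quot [Finite E] : WordHyp (G ⧸ E) ↔ WordHyp G := by
  constructor
  · rintro ⟨T, hTf, hT, D, hD⟩
    refine ⟨Quotient.out '' T ∪ (E : Set G), (hTf.image _).union (Set.toFinite _),
      closure_lift E hT, D + 4 * 1, ?_⟩
    refine four_of_close' (QuotientGroup.mk' E) (T := T) ?_ ?_ hD
    · intro x y
      exact wl_lift_le E hT (x⁻¹ * y)
    · intro x y
      exact (wl_quot_le E hT (x⁻¹ * y)).trans (Nat.le_add_right _ _)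
  · rintro ⟨S, hSf, hS, D, hD⟩
    obtain ⟨C, hC⟩ := exists_wl_le_add E hS
    refine ⟨QuotientGroup.mk' E '' S, hSf.image _,
      closure_image_top _ (QuotientGroup.mk'_surjective E) hS, D + 4 * C, ?_⟩
    refine four_of_close (QuotientGroup.mk' E) (QuotientGroup.mk'_surjective E) ?_ ?_ hD
    · intro x y
      exact hC (x⁻¹ * y)
    · intro x y
      exact (wl_mk_le E hS (x⁻¹ * y)).trans (Nat.le_add_right _ _)

theorem nonElem_quot [Finite E] : NonElem (G ⧸ E) ↔ NonElem G := by
  constructor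
  · intro h a ha
    apply h (a : G ⧸ E)
    have h1 : (Subgroup.zpowers a).map (QuotientGroup.mk' E) = Subgroup.zpowers (a : G ⧸ E) := by
      rw [MonoidHom.map_zpowers]
      rfl
    rw [← h1, Subgroup.finiteIndex_iff]
    have h2 := Subgroup.index_map_dvd (Subgroup.zpowers a) (QuotientGroup.mk'_surjective E)
    exact ne_zero_of_dvd_ne_zero ha.index_ne_zero h2
  · intro h b hb
    obtain ⟨a, rfl⟩ := QuotientGroup.mk'_surjective E b
    apply h a
    rw [Subgroup.finiteIndex_iff_finite_quotient]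
    have : Finite ((G ⧸ E) ⧸ Subgroup.zpowers (QuotientGroup.mk' E a)) :=
      Subgroup.finiteIndex_iff_finite_quotient.1 hb
    refine Finite.of_surjective (fun p : ((G ⧸ E) ⧸ Subgroup.zpowers (QuotientGroup.mk' E a)) × E =>
      ((p.1.out.out * p.2.1 : G) : G ⧸ Subgroup.zpowers a)) ?_
    intro q
    obtain ⟨g, rfl⟩ := QuotientGroup.mk_surjective q
    set q1 : (G ⧸ E) ⧸ Subgroup.zpowers (QuotientGroup.mk' E a) :=
      QuotientGroup.mk (g : G ⧸ E) with hq1
    have h1 : q1.out⁻¹ * (g : G ⧸ E) ∈ Subgroup.zpowers (QuotientGroup.mk' E a) := by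
      rw [← QuotientGroup.eq, hq1]
      exact QuotientGroup.out_eq' _
    obtain ⟨n, hn⟩ := Subgroup.mem_zpowers_iff.1 h1
    set g1 : G := q1.out.out with hg1
    have h2 : (g1 : G ⧸ E) = q1.out := QuotientGroup.out_eq' _
    have h3 : (g1⁻¹ * g * a ^ (-n)) ∈ E := by
      rw [← QuotientGroup.eq_one_iff, QuotientGroup.mk_mul, QuotientGroup.mk_mul,
        QuotientGroup.mk_inv, h2, ← hn]
      have : ((a ^ (-n) : G) : G ⧸ E) = (QuotientGroup.mk' E a) ^ (-n) := by
        rw [← map_zpow]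
        rfl
      rw [this, ← zpow_add, add_neg_cancel, zpow_zero]
    refine ⟨(q1, ⟨_, h3⟩), ?_⟩
    show ((g1 * (g1⁻¹ * g * a ^ (-n)) : G) : G ⧸ Subgroup.zpowers a) = (g : G ⧸ Subgroup.zpowers a)
    rw [QuotientGroup.eq, Subgroup.mem_zpowers_iff]
    refine ⟨n, ?_⟩
    group

theorem lox_quot [Finite E] (g : G) : Lox (QuotientGroup.mk' E g) ↔ Lox g := by
  constructor
  · rintro ⟨T, hTf, hT, k, hk⟩
    refine ⟨Quotient.out '' T ∪ (E : Set G), (hTf.image _).union (Set.toFinite _),
      closure_lift E hT, k, fun n => ?_⟩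
    refine (hk n).trans (Nat.mul_le_mul_left _ ?_)
    rw [← map_pow]
    exact wl_quot_le E hT (g ^ n)
  · intro hg
    obtain ⟨S, hSf, hS, k, hk⟩ := id hg
    obtain ⟨C, hC⟩ := exists_wl_le_add E hS
    have hT := closure_image_top _ (QuotientGroup.mk'_surjective E) hS
    refine ⟨QuotientGroup.mk' E '' S, hSf.image _, hT, k * (C + 1), fun n => ?_⟩
    rcases Nat.eq_zero_or_pos n with rfl | hn
    · exact Nat.zero_le _
    · have h1 : 1 ≤ wl (QuotientGroup.mk' E '' S) (QuotientGroup.mk' E g ^ n) := by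
        rw [Nat.one_le_iff_ne_zero, Ne, wl_eq_zero hT]
        intro h2
        rw [← map_pow] at h2
        have h3 : g ^ n ∈ E := (QuotientGroup.eq_one_iff _).1 h2
        have h4 : (g ^ n) ^ (Nat.card E) = 1 := by
          have h5 := congrArg (Subtype.val : E → G) (pow_card_eq_one' (G := E) (x := ⟨g ^ n, h3⟩))
          simpa only [SubmonoidClass.coe_pow, OneMemClass.coe_one] using h5
        rw [← pow_mul] at h4
        exact hg.pow_ne_one (Nat.mul_pos hn Nat.card_pos) h4
      have h5 : wl S (g ^ n) ≤ wl (QuotientGroup.mk' E '' S) (QuotientGroup.mk' E g ^ n) + C := by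
        have := hC (g ^ n)
        rwa [show ((g ^ n : G) : G ⧸ E) = QuotientGroup.mk' E g ^ n from
          (map_pow (QuotientGroup.mk' E) g n)] at this
      refine (hk n).trans ?_
      rw [mul_assoc]
      refine Nat.mul_le_mul_left _ ?_
      nlinarith

/-- finite normal subgroups do not matter -/
theorem _root_.Pool.SC.b4 : B4 := by
  intro G _ E _ hE
  exact ⟨wordHyp_quot E, nonElem_quot E, lox_quot E⟩

end Pool.SC.F
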