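import Pool.Agent.Lib.MP_565fc2_lc.SC.Defs

/-!
# SC, part F: word length, word distance, the four point condition

`wl`, `wd`, `Four` of `Defs.lean`; transfer along homomorphisms; the four point condition at the base point `1`.
-/

set_option autoImplicit false

namespace Pool.SC.F

section WL

variable {G H : Type} [Group G] [Group H] {S : Set G}

theorem wl_prod_le {l : List G} (h : ∀ x ∈ l, x ∈ S ∨ x⁻¹ ∈ S) : wl S l.prod ≤ l.length :=
  Nat.sInf_le ⟨l, rfl, h, rfl⟩

theorem exists_word (hS : Subgroup.closure S = ⊤) (g : G) :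
    ∃ l : List G, l.length = wl S g ∧ (∀ x ∈ l, x ∈ S ∨ x⁻¹ ∈ S) ∧ l.prod = g := by
  have h : g ∈ (Subgroup.closure S).toSubmonoid := by rw [hS]; exact Subgroup.mem_top g
  rw [Subgroup.closure_toSubmonoid] at h
  obtain ⟨l, h1', h2⟩ := Submonoid.exists_list_of_mem_closure h
  have h1 : ∀ x ∈ l, x ∈ S ∨ x⁻¹ ∈ S := fun x hx => by
    simpa only [Set.mem_union, Set.mem_inv] using h1' x hx
  exact Nat.sInf_mem (s := {n | ∃ l : List G, l.length = n ∧ (∀ x ∈ l, x ∈ S ∨ x⁻¹ ∈ S) ∧ l.prod = g})
    ⟨l.length, l, rfl, h1, h2⟩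

theorem wl_le {n : ℕ} {g : G} (l : List G) (h1 : l.length ≤ n) (h2 : ∀ x ∈ l, x ∈ S ∨ x⁻¹ ∈ S)
    (h3 : l.prod = g) : wl S g ≤ n := by
  rw [← h3]
  exact (wl_prod_le h2).trans h1

@[simp]
theorem wl_one (S : Set G) : wl S (1 : G) = 0 :=
  Nat.le_zero.1 (wl_le [] le_rfl (by simp) (by simp))

theorem wl_gen {x : G} (hx : x ∈ S ∨ x⁻¹ ∈ S) : wl S x ≤ 1 :=
  wl_le [x] (by simp) (by simpa using hx) (by simp)

theorem wl_eq_zero (hS : Subgroup.closure S = ⊤) {g : G} : wl S g = 0 ↔ g = 1 := by
  constructor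
  · intro h
    obtain ⟨l, h1, -, h3⟩ := exists_word hS g
    rw [h, List.length_eq_zero_iff] at h1
    rw [← h3, h1, List.prod_nil]
  · rintro rfl
    exact wl_one S

private theorem wl_inv_le (hS : Subgroup.closure S = ⊤) (g : G) : wl S g⁻¹ ≤ wl S g := by
  obtain ⟨l, h1, h2, h3⟩ := exists_word hS g
  refine wl_le (l.map (·⁻¹)).reverse (by simp [h1]) ?_ ?_
  · intro x hx
    rw [List.mem_reverse, List.mem_map] at hx
    obtain ⟨y, hy, rfl⟩ := hx
    rw [inv_inv]
    exact (h2 y hy).symm
  · rw [← h3, List.prod_inv_reverse]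

theorem wl_inv (hS : Subgroup.closure S = ⊤) (g : G) : wl S g⁻¹ = wl S g := by
  refine le_antisymm (wl_inv_le hS g) ?_
  have := wl_inv_le hS g⁻¹
  rwa [inv_inv] at this

theorem wl_mul_le (hS : Subgroup.closure S = ⊤) (g h : G) : wl S (g * h) ≤ wl S g + wl S h := by
  obtain ⟨l, h1, h2, h3⟩ := exists_word hS g
  obtain ⟨m, k1, k2, k3⟩ := exists_word hS h
  refine wl_le (l ++ m) (by simp [h1, k1]) ?_ (by simp [h3, k3])
  intro x hx
  rw [List.mem_append] at hx
  exact hx.elim (h2 x) (k2 x)

/-- an element of length `n + 1` is a generator times an element of length `n` -/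
theorem exists_cons (hS : Subgroup.closure S = ⊤) {g : G} {n : ℕ} (h : wl S g = n + 1) :
    ∃ x g' : G, (x ∈ S ∨ x⁻¹ ∈ S) ∧ g = x * g' ∧ wl S g' = n := by
  obtain ⟨l, h1, h2, h3⟩ := exists_word hS g
  rw [h] at h1
  cases l with
  | nil => simp at h1
  | cons x l =>
    have hx : x ∈ S ∨ x⁻¹ ∈ S := h2 x (by simp)
    refine ⟨x, l.prod, hx, by rw [← h3, List.prod_cons], ?_⟩
    have h4 : l.length = n := by simpa using h1
    have h5 : wl S l.prod ≤ n := wl_le l h4.le (fun y hy => h2 y (by simp [hy])) rfl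
    have h6 := wl_mul_le hS x l.prod
    rw [← List.prod_cons, h3, h] at h6
    have := wl_gen hx
    omega

/-- homomorphisms which send generators to generators or `1` do not increase lengths -/
theorem wl_map_le (f : G →* H) {T : Set H} (hS : Subgroup.closure S = ⊤)
    (hf : ∀ x ∈ S, f x ∈ T ∨ (f x)⁻¹ ∈ T ∨ f x = 1) (g : G) : wl T (f g) ≤ wl S g := by
  obtain ⟨l, h1, h2, h3⟩ := exists_word hS g
  have key : ∀ l : List G, (∀ x ∈ l, x ∈ S ∨ x⁻¹ ∈ S) →
      ∃ m : List H, m.length ≤ l.length ∧ (∀ x ∈ m, x ∈ T ∨ x⁻¹ ∈ T) ∧ m.prod = f l.prod := by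
    intro l
    induction l with
    | nil => exact fun _ => ⟨[], by simp⟩
    | cons x l ih =>
      intro hl
      obtain ⟨m, m1, m2, m3⟩ := ih fun y hy => hl y (by simp [hy])
      have hx : f x ∈ T ∨ (f x)⁻¹ ∈ T ∨ f x = 1 := by
        rcases hl x (by simp) with h | h
        · exact hf x h
        · rcases hf _ h with h | h | h
          · right; left
            rwa [map_inv] at h
          · left
            rwa [map_inv, inv_inv] at h
          · right; right
            rwa [map_inv, inv_eq_one] at h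
      rcases hx with h | h | h
      · refine ⟨f x :: m, by simpa using m1, ?_, by simp [m3]⟩
        intro y hy
        rcases List.mem_cons.1 hy with rfl | hy
        · exact Or.inl h
        · exact m2 y hy
      · refine ⟨f x :: m, by simpa using m1, ?_, by simp [m3]⟩
        intro y hy
        rcases List.mem_cons.1 hy with rfl | hy
        · exact Or.inr h
        · exact m2 y hy
      · exact ⟨m, m1.trans (by simp), m2, by simp [m3, h]⟩
  obtain ⟨m, m1, m2, m3⟩ := key l h2
  exact wl_le m (m1.trans h1.le) m2 (by rw [m3, h3])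

/-- words in the image lift -/
theorem exists_lift_list (f : G →* H) {S : Set G} (hT : Subgroup.closure (f '' S) = ⊤) (h : H) :
    ∃ m : List G, m.length = wl (f '' S) h ∧ (∀ x ∈ m, x ∈ S ∨ x⁻¹ ∈ S) ∧ f m.prod = h := by
  obtain ⟨l, h1, h2, h3⟩ := exists_word hT h
  have key : ∀ l : List H, (∀ x ∈ l, x ∈ f '' S ∨ x⁻¹ ∈ f '' S) →
      ∃ m : List G, m.length = l.length ∧ (∀ x ∈ m, x ∈ S ∨ x⁻¹ ∈ S) ∧ f m.prod = l.prod := by
    intro l
    induction l with
    | nil => exact fun _ => ⟨[], by simp⟩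
    | cons x l ih =>
      intro hl
      obtain ⟨m, m1, m2, m3⟩ := ih fun y hy => hl y (by simp [hy])
      obtain ⟨y, hy, hyx⟩ : ∃ y : G, (y ∈ S ∨ y⁻¹ ∈ S) ∧ f y = x := by
        rcases hl x (by simp) with ⟨y, hy, hyx⟩ | ⟨y, hy, hyx⟩
        · exact ⟨y, Or.inl hy, hyx⟩
        · exact ⟨y⁻¹, Or.inr (by rwa [inv_inv]), by rw [map_inv, hyx, inv_inv]⟩
      refine ⟨y :: m, by simp [m1], ?_, by simp [m3, hyx]⟩
      intro z hz
      rcases List.mem_cons.1 hz with rfl | hz
      · exact hy
      · exact m2 z hz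
  obtain ⟨m, m1, m2, m3⟩ := key l h2
  exact ⟨m, by rw [m1, h1], m2, by rw [m3, h3]⟩

/-- elements of the image lift to elements of the same length -/
theorem exists_lift (f : G →* H) (hS : Subgroup.closure S = ⊤) (hf : Function.Surjective f)
    (h : H) : ∃ g : G, f g = h ∧ wl S g = wl (f '' S) h := by
  have hT : Subgroup.closure (f '' S) = ⊤ := by
    rw [← MonoidHom.map_closure, hS, ← MonoidHom.range_eq_map, MonoidHom.range_eq_top]
    exact hf
  obtain ⟨m, m1, m2, m3⟩ := exists_lift_list f hT h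
  refine ⟨m.prod, m3, le_antisymm ?_ ?_⟩
  · exact wl_le m m1.le m2 rfl
  · have := wl_map_le f (T := f '' S) hS (fun x hx => Or.inl ⟨x, hx, rfl⟩) m.prod
    rwa [m3] at this

/-- change of the generating set -/
theorem wl_le_mul {T : Set G} (hS : Subgroup.closure S = ⊤) (hT : Subgroup.closure T = ⊤) {C : ℕ}
    (hC : ∀ x ∈ T, wl S x ≤ C) (g : G) : wl S g ≤ C * wl T g := by
  obtain ⟨l, h1, h2, h3⟩ := exists_word hT g
  have key : ∀ l : List G, (∀ x ∈ l, x ∈ T ∨ x⁻¹ ∈ T) → wl S l.prod ≤ C * l.length := by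
    intro l
    induction l with
    | nil => simp
    | cons x l ih =>
      intro hl
      have hx : wl S x ≤ C := by
        rcases hl x (by simp) with h | h
        · exact hC x h
        · rw [← wl_inv hS]
          exact hC _ h
      have h5 := ih fun y hy => hl y (by simp [hy])
      have h6 := wl_mul_le hS x l.prod
      rw [List.prod_cons, List.length_cons, Nat.mul_succ]
      omega
  have h4 := key l h2
  rwa [h3, h1] at h4

theorem exists_wl_le_mul {T : Set G} (hS : Subgroup.closure S = ⊤)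
    (hT : Subgroup.closure T = ⊤) (hTf : T.Finite) : ∃ C, ∀ g, wl S g ≤ C * wl T g := by
  obtain ⟨C, hC⟩ := (hTf.image (wl S)).bddAbove
  exact ⟨C, wl_le_mul hS hT fun x hx => hC (Set.mem_image_of_mem _ hx)⟩

/-- `Lox` does not depend on the generating set -/
theorem _root_.Pool.SC.Lox.of_gen {T : Set G} {g : G} (h : Lox g) (hT : Subgroup.closure T = ⊤)
    (hTf : T.Finite) : ∃ k : ℕ, ∀ n : ℕ, n ≤ k * wl T (g ^ n) := by
  obtain ⟨S, -, hS, k, hk⟩ := h
  obtain ⟨C, hC⟩ := exists_wl_le_mul hS hT hTf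
  refine ⟨k * C, fun n => (hk n).trans ?_⟩
  rw [mul_assoc]
  exact Nat.mul_le_mul_left _ (hC _)

/-- undistorted elements have infinite order -/
theorem _root_.Pool.SC.Lox.pow_ne_one {g : G} (h : Lox g) {n : ℕ} (hn : 0 < n) : g ^ n ≠ 1 := by
  obtain ⟨S, -, -, k, hk⟩ := h
  intro h1
  have := hk n
  rw [h1, wl_one] at this
  omega

end WL

section WD

variable {G H : Type} [Group G] [Group H] {S : Set G}

@[simp]
theorem wd_self (S : Set G) (x : G) : wd S x x = 0 := by
  unfold wd
  rw [inv_mul_cancel, wl_one]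

theorem wd_one_left (S : Set G) (x : G) : wd S 1 x = wl S x := by
  unfold wd
  rw [inv_one, one_mul]

theorem wd_comm (hS : Subgroup.closure S = ⊤) (x y : G) : wd S x y = wd S y x := by
  unfold wd
  rw [← wl_inv hS, mul_inv_rev, inv_inv]

theorem wd_one_right (hS : Subgroup.closure S = ⊤) (x : G) : wd S x 1 = wl S x := by
  rw [wd_comm hS, wd_one_left]

theorem wd_triangle (hS : Subgroup.closure S = ⊤) (x y z : G) :
    wd S x z ≤ wd S x y + wd S y z := by
  unfold wd
  have := wl_mul_le hS (x⁻¹ * y) (y⁻¹ * z)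
  rwa [mul_assoc, mul_inv_cancel_left] at this

@[simp]
theorem wd_mul_left (S : Set G) (g x y : G) : wd S (g * x) (g * y) = wd S x y := by
  unfold wd
  rw [mul_inv_rev, mul_assoc, inv_mul_cancel_left]

theorem wd_eq_zero (hS : Subgroup.closure S = ⊤) {x y : G} : wd S x y = 0 ↔ x = y := by
  unfold wd
  rw [wl_eq_zero hS, inv_mul_eq_one]

/-- it is enough to check the four point condition with one point equal to `1` -/
theorem four_of_base {D : ℕ} (h : ∀ x y z : G,
    wd S x y + wd S z 1 ≤ max (wd S x z + wd S y 1) (wd S x 1 + wd S y z) + D) : Four S D := by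
  intro x y z w
  have := h (w⁻¹ * x) (w⁻¹ * y) (w⁻¹ * z)
  rw [← inv_mul_cancel w] at this
  simpa only [wd_mul_left] using this

/-- the four point condition passes to maps which change distances by at most `C` -/
theorem four_of_close (f : G → H) {T : Set H} {D C : ℕ} (hf : Function.Surjective f)
    (h1 : ∀ x y, wd S x y ≤ wd T (f x) (f y) + C) (h2 : ∀ x y, wd T (f x) (f y) ≤ wd S x y + C)
    (h : Four S D) : Four T (D + 4 * C) := by
  intro x y z w
  obtain ⟨x, rfl⟩ := hf x
  obtain ⟨y, rfl⟩ := hf y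
  obtain ⟨z, rfl⟩ := hf z
  obtain ⟨w, rfl⟩ := hf w
  have k := h x y z w
  have a1 := h2 x y
  have a2 := h2 z w
  have a3 := h1 x z
  have a4 := h1 y w
  have a5 := h1 x w
  have a6 := h1 y z
  omega

/-- the converse direction of `four_of_close` -/
theorem four_of_close' (f : G → H) {T : Set H} {D C : ℕ}
    (h1 : ∀ x y, wd S x y ≤ wd T (f x) (f y) + C) (h2 : ∀ x y, wd T (f x) (f y) ≤ wd S x y + C)
    (h : Four T D) : Four S (D + 4 * C) := by
  intro x y z w
  have k := h (f x) (f y) (f z) (f w)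
  have a1 := h1 x y
  have a2 := h1 z w
  have a3 := h2 x z
  have a4 := h2 y w
  have a5 := h2 x w
  have a6 := h2 y z
  omega

end WD

section Iso

variable {G H : Type} [Group G] [Group H]

theorem closure_image_top (f : G →* H) (hf : Function.Surjective f) {S : Set G}
    (hS : Subgroup.closure S = ⊤) : Subgroup.closure (f '' S) = ⊤ := by
  rw [← MonoidHom.map_closure, hS, ← MonoidHom.range_eq_map, MonoidHom.range_eq_top]
  exact hf

theorem wl_equiv (e : G ≃* H) {S : Set G} (hS : Subgroup.closure S = ⊤) (g : G) :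
    wl (e '' S) (e g) = wl S g := by
  refine le_antisymm ?_ ?_
  · exact wl_map_le e.toMonoidHom (T := e '' S) hS (fun x hx => Or.inl (Set.mem_image_of_mem e hx)) g
  · have hT : Subgroup.closure (e '' S) = ⊤ := closure_image_top e.toMonoidHom e.surjective hS
    have := wl_map_le e.symm.toMonoidHom (T := S) hT (by
      rintro _ ⟨x, hx, rfl⟩
      left
      simpa using hx) (e g)
    simpa using this

theorem _root_.Pool.SC.WordHyp.of_equiv (e : G ≃* H) (h : WordHyp G) : WordHyp H := by
  obtain ⟨S, hS, hc, D, hD⟩ := h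
  refine ⟨e '' S, hS.image _, closure_image_top e.toMonoidHom e.surjective hc, D + 4 * 0, ?_⟩
  have key : ∀ x y, wd (e '' S) (e x) (e y) = wd S x y := by
    intro x y
    unfold wd
    rw [← map_inv, ← map_mul, wl_equiv e hc]
  exact four_of_close e e.surjective (fun x y => by rw [key]; exact Nat.le_add_right _ _)
    (fun x y => by rw [key]; exact Nat.le_add_right _ _) hD

theorem wordHyp_congr (e : G ≃* H) : WordHyp G ↔ WordHyp H :=
  ⟨fun h => h.of_equiv e, fun h => h.of_equiv e.symm⟩

/-- a group which contains a group that is not virtually cyclic is not virtually cyclic -/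
theorem _root_.Pool.SC.NonElem.of_injective (f : G →* H) (hf : Function.Injective f) (h : NonElem G) :
    NonElem H := by
  intro a hfin
  have h1 : ((Subgroup.zpowers a).comap f).FiniteIndex := by
    rw [Subgroup.finiteIndex_iff, Subgroup.index_comap]
    exact ((Subgroup.zpowers a).isFiniteRelIndex_of_finiteIndex).relIndex_ne_zero
  have hc : IsCyclic ((Subgroup.zpowers a).comap f) := by
    have e : ((Subgroup.zpowers a).comap f).map f ≤ Subgroup.zpowers a :=
      Subgroup.map_comap_le _ _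
    let φ : ((Subgroup.zpowers a).comap f) →* Subgroup.zpowers a :=
      { toFun := fun x => ⟨f x.1, x.2⟩
        map_one' := by ext; simp
        map_mul' := fun x y => by ext; simp }
    exact isCyclic_of_injective φ (fun x y hxy => by
      apply Subtype.ext
      apply hf
      exact congrArg Subtype.val hxy)
  obtain ⟨⟨g, hg⟩, hgen⟩ := hc
  apply h g
  have : Subgroup.zpowers g = (Subgroup.zpowers a).comap f := by
    apply le_antisymm
    · rw [Subgroup.zpowers_le]
      exact hg
    · intro x hx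
      obtain ⟨n, hn⟩ := hgen ⟨x, hx⟩
      refine ⟨n, ?_⟩
      have := congrArg Subtype.val hn
      simpa using this
  rw [this]
  exact h1

theorem nonElem_congr (e : G ≃* H) : NonElem G ↔ NonElem H :=
  ⟨fun h => h.of_injective e.toMonoidHom e.injective,
    fun h => h.of_injective e.symm.toMonoidHom e.symm.injective⟩

theorem neh_congr (e : G ≃* H) : NEH G ↔ NEH H :=
  and_congr (wordHyp_congr e) (nonElem_congr e)

theorem _root_.Pool.SC.WordHyp.equiv {G G' : Type} [Group G] [Group G'] (e : G ≃* G') (h : WordHyp G) :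
    WordHyp G' := (wordHyp_congr e).1 h

theorem _root_.Pool.SC.NonElem.equiv {G G' : Type} [Group G] [Group G'] (e : G ≃* G') (h : NonElem G) :
    NonElem G' := (nonElem_congr e).1 h

theorem _root_.Pool.SC.NEH.equiv {G G' : Type} [Group G] [Group G'] (e : G ≃* G') (h : NEH G) :
    NEH G' := (neh_congr e).1 h

theorem _root_.Pool.SC.Lox.equiv {G G' : Type} [Group G] [Group G'] (e : G ≃* G') (g : G) (h : Lox g) :
    Lox (e g) := by
  obtain ⟨S, hS, hc, k, hk⟩ := h
  refine ⟨e '' S, hS.image _, closure_image_top e.toMonoidHom e.surjective hc, k, fun n => ?_⟩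
  rw [← map_pow, wl_equiv e hc]
  exact hk n

theorem _root_.Pool.SC.WordHyp.fg {G : Type} [Group G] (h : WordHyp G) : Group.FG G := by
  obtain ⟨S, hS, hc, -⟩ := h
  exact Group.fg_iff.2 ⟨S, hc, hS⟩

end Iso

end Pool.SC.F
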