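import Pool.Agent.Lib.MP_565fc2_lc.SC.FWL

/-!
# SC, part F: word length in a free product

The length of an element of a free product is the sum of the lengths of its syllables; distances by
the common head.
-/

set_option autoImplicit false

namespace Pool.SC.F

open Monoid Monoid.CoprodI Function
open scoped Classical

noncomputable section

variable {ι : Type} {G : ι → Type} [∀ i, Group (G i)]

/-- sum of the lengths of the syllables -/
def wlen (S : ∀ i, Set (G i)) (w : Word G) : ℕ := (w.toList.map fun p => wl (S p.1) p.2).sum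

variable {S : ∀ i, Set (G i)}

@[simp]
theorem wlen_empty : wlen S (Word.empty : Word G) = 0 := rfl

theorem wlen_cons {i : ι} (m : G i) (w : Word G) (h1 : w.fstIdx ≠ some i) (h2 : m ≠ 1) :
    wlen S (Word.cons m w h1 h2) = wl (S i) m + wlen S w := by
  simp [wlen]

theorem wlen_rcons {i : ι} (p : Word.Pair G i) :
    wlen S (Word.rcons p) = wl (S i) p.head + wlen S p.tail := by
  unfold Word.rcons
  split_ifs with h
  · rw [h, wl_one, zero_add]
  · exact wlen_cons _ _ _ _

/-- the head of a word in the factor `i` -/
def hd (i : ι) (w : Word G) : G i := (Word.equivPair i w).head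

/-- the rest of a word after the head in the factor `i` -/
def tl (i : ι) (w : Word G) : Word G := (Word.equivPair i w).tail

theorem tl_fst (i : ι) (w : Word G) : (tl i w).fstIdx ≠ some i := (Word.equivPair i w).fstIdx_ne

theorem wlen_eq (i : ι) (w : Word G) : wlen S w = wl (S i) (hd i w) + wlen S (tl i w) := by
  have h := wlen_rcons (S := S) (Word.equivPair i w)
  rw [← Word.equivPair_symm, Equiv.symm_apply_apply] at h
  exact h

theorem prod_eq (i : ι) (w : Word G) : w.prod = of (hd i w) * (tl i w).prod := by
  have h := Word.prod_rcons (Word.equivPair i w)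
  rw [← Word.equivPair_symm, Equiv.symm_apply_apply] at h
  exact h

theorem hd_smul {i : ι} (m : G i) (w : Word G) : hd i (of m • w) = m * hd i w := by
  unfold hd
  rw [Word.equivPair_smul_same]

theorem tl_smul {i : ι} (m : G i) (w : Word G) : tl i (of m • w) = tl i w := by
  unfold tl
  rw [Word.equivPair_smul_same]

theorem hd_of_ne {i : ι} {w : Word G} (h : w.fstIdx ≠ some i) : hd i w = 1 := by
  unfold hd
  rw [Word.equivPair_eq_of_fstIdx_ne h]

theorem tl_of_ne {i : ι} {w : Word G} (h : w.fstIdx ≠ some i) : tl i w = w := by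
  unfold tl
  rw [Word.equivPair_eq_of_fstIdx_ne h]

theorem hd_cons {i : ι} (m : G i) (w : Word G) (h1 : w.fstIdx ≠ some i) (h2 : m ≠ 1) :
    hd i (Word.cons m w h1 h2) = m := by
  rw [Word.cons_eq_smul, hd_smul, hd_of_ne h1, mul_one]

theorem tl_cons {i : ι} (m : G i) (w : Word G) (h1 : w.fstIdx ≠ some i) (h2 : m ≠ 1) :
    tl i (Word.cons m w h1 h2) = w := by
  rw [Word.cons_eq_smul, tl_smul, tl_of_ne h1]

/-- the length of an element -/
def gl (S : ∀ i, Set (G i)) (g : CoprodI G) : ℕ := wlen S (Word.equiv g)

theorem equiv_prod (w : Word G) : Word.equiv w.prod = w := Word.equiv.right_inv w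

theorem prod_equiv (g : CoprodI G) : (Word.equiv g).prod = g := Word.equiv.left_inv g

theorem gl_prod (w : Word G) : gl S w.prod = wlen S w := by
  unfold gl
  rw [equiv_prod]

@[simp]
theorem gl_one : gl S (1 : CoprodI G) = 0 := by
  rw [← Word.prod_empty, gl_prod, wlen_empty]

theorem gl_of {i : ι} (m : G i) : gl S (of m : CoprodI G) = wl (S i) m := by
  by_cases h : m = 1
  · rw [h, map_one, gl_one, wl_one]
  · have h1 : (Word.empty : Word G).fstIdx ≠ some i := by simp [Word.fstIdx, Word.empty]
    have h2 : (of m : CoprodI G) = (Word.cons m Word.empty h1 h).prod := by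
      rw [Word.prod_cons, Word.prod_empty, mul_one]
    rw [h2, gl_prod, wlen_cons, wlen_empty, add_zero]

/-- the generating set of the free product -/
def fgen (S : ∀ i, Set (G i)) : Set (CoprodI G) := ⋃ i, (of : G i →* CoprodI G) '' S i

theorem mem_fgen {x : CoprodI G} : x ∈ fgen S ↔ ∃ i, ∃ s ∈ S i, of s = x := by
  simp [fgen]

theorem fgen_finite [Finite ι] (h : ∀ i, (S i).Finite) : (fgen S).Finite :=
  Set.finite_iUnion fun i => (h i).image _

theorem fgen_closure (h : ∀ i, Subgroup.closure (S i) = ⊤) : Subgroup.closure (fgen S) = ⊤ := by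
  rw [eq_top_iff]
  rintro g -
  induction g using CoprodI.induction_on with
  | one => exact one_mem _
  | of i m =>
    have h1 : (Subgroup.closure (S i)).map (of : G i →* CoprodI G) ≤
        Subgroup.closure (fgen S) := by
      rw [MonoidHom.map_closure, Subgroup.closure_le]
      rintro _ ⟨s, hs, rfl⟩
      exact Subgroup.subset_closure (mem_fgen.2 ⟨i, s, hs, rfl⟩)
    apply h1
    rw [h i]
    exact ⟨m, Subgroup.mem_top m, rfl⟩
  | mul x y hx hy => exact mul_mem hx hy

/-- multiplication by a generator changes `gl` by at most one -/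
theorem gl_mul_le (h : ∀ i, Subgroup.closure (S i) = ⊤) {i : ι} {s : G i}
    (hs : s ∈ S i ∨ s⁻¹ ∈ S i) (g : CoprodI G) : gl S (of s * g) ≤ gl S g + 1 := by
  obtain ⟨w, rfl⟩ : ∃ w : Word G, w.prod = g := ⟨Word.equiv g, prod_equiv g⟩
  rw [← Word.prod_smul, gl_prod, gl_prod, wlen_eq i (of s • w), wlen_eq i w, hd_smul, tl_smul]
  have h1 := wl_mul_le (h i) s (hd i w)
  have h2 := wl_gen hs
  omega

/-- the word length in a free product is the sum of the syllable lengths -/
theorem wl_fgen (h : ∀ i, Subgroup.closure (S i) = ⊤) (g : CoprodI G) :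
    wl (fgen S) g = gl S g := by
  apply le_antisymm
  · obtain ⟨w, rfl⟩ : ∃ w : Word G, w.prod = g := ⟨Word.equiv g, prod_equiv g⟩
    rw [gl_prod]
    induction w using Word.consRecOn with
    | empty => simp
    | cons i m w h1 h2 ih =>
      rw [Word.prod_cons, wlen_cons]
      have h3 := wl_mul_le (fgen_closure h) (of m) w.prod
      have h4 : wl (fgen S) (of m) ≤ wl (S i) m :=
        wl_map_le of (h i) (fun x hx => Or.inl (mem_fgen.2 ⟨i, x, hx, rfl⟩)) m
      omega
  · obtain ⟨l, h1, h2, rfl⟩ := exists_word (fgen_closure h) g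
    rw [← h1]
    clear h1
    induction l with
    | nil => simp
    | cons x l ih =>
      have h3 := ih fun y hy => h2 y (by simp [hy])
      obtain ⟨i, s, hs, rfl⟩ : ∃ (i : ι) (s : G i), (s ∈ S i ∨ s⁻¹ ∈ S i) ∧ of s = x := by
        rcases h2 x (by simp) with h4 | h4
        · obtain ⟨i, s, hs, rfl⟩ := mem_fgen.1 h4
          exact ⟨i, s, Or.inl hs, rfl⟩
        · obtain ⟨i, s, hs, hx⟩ := mem_fgen.1 h4
          exact ⟨i, s⁻¹, Or.inr (by rwa [inv_inv]), by rw [map_inv, hx, inv_inv]⟩
      have h5 := gl_mul_le h hs l.prod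
      rw [List.prod_cons, List.length_cons]
      omega

/-- the key computation: no cancellation -/
theorem wlen_key (h : ∀ i, Subgroup.closure (S i) = ⊤) (x : Word G) : ∀ (i : ι) (g : G i)
    (y : Word G), x.fstIdx ≠ some i → y.fstIdx ≠ some i → g ≠ 1 →
      wlen S ((x.prod⁻¹ * of g) • y) = wlen S x + wl (S i) g + wlen S y := by
  induction x using Word.consRecOn with
  | empty =>
    intro i g y _ hy hg
    rw [Word.prod_empty, inv_one, one_mul, ← Word.cons_eq_smul (h1 := hy) (h2 := hg), wlen_cons,
      wlen_empty, zero_add]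
  | cons j s x h1 h2 ih =>
    intro i g y hx hy hg
    rw [Word.fstIdx_cons] at hx
    have hji : j ≠ i := fun e => hx (by rw [e])
    have e1 : ((Word.cons s x h1 h2).prod⁻¹ * of g) • y
        = (x.prod⁻¹ * of s⁻¹) • (Word.cons g y hy hg) := by
      rw [Word.prod_cons, Word.cons_eq_smul, mul_inv_rev, map_inv, smul_smul]
    rw [e1, ih j s⁻¹ (Word.cons g y hy hg) h1 (by
      rw [Word.fstIdx_cons]
      exact fun e => hji (Option.some.inj e).symm) (inv_ne_one.2 h2), wlen_cons, wlen_cons,
      wl_inv (h j)]
    ring

/-- distance when the heads are different -/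
theorem wd_of_ne (h : ∀ i, Subgroup.closure (S i) = ⊤) (i : ι) {x y : Word G}
    (hxy : hd i x ≠ hd i y) : wd (fgen S) x.prod y.prod =
      wlen S (tl i x) + wd (S i) (hd i x) (hd i y) + wlen S (tl i y) := by
  unfold wd
  rw [wl_fgen h]
  have e1 : x.prod⁻¹ * y.prod = (((tl i x).prod⁻¹ * of ((hd i x)⁻¹ * hd i y)) • tl i y).prod := by
    rw [Word.prod_smul, prod_eq i x, prod_eq i y, map_mul, map_inv]
    group
  rw [e1, gl_prod, wlen_key h _ i _ _ (tl_fst i x) (tl_fst i y)]
  rwa [Ne, inv_mul_eq_one]

/-- distance when the heads are equal -/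
theorem wd_of_eq (i : ι) {x y : Word G} (hxy : hd i x = hd i y) :
    wd (fgen S) x.prod y.prod = wd (fgen S) (tl i x).prod (tl i y).prod := by
  rw [prod_eq i x, prod_eq i y, hxy, wd_mul_left]

theorem wl_prod (h : ∀ i, Subgroup.closure (S i) = ⊤) (w : Word G) :
    wl (fgen S) w.prod = wlen S w := by
  rw [wl_fgen h, gl_prod]

theorem wd_le_add (h : ∀ i, Subgroup.closure (S i) = ⊤) (x y : Word G) :
    wd (fgen S) x.prod y.prod ≤ wlen S x + wlen S y := by
  have h1 := wl_mul_le (fgen_closure h) x.prod⁻¹ y.prod
  rw [wl_inv (fgen_closure h), wl_prod h, wl_prod h] at h1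
  exact h1

/-- the four point condition in a free product -/
theorem four_fgen (h : ∀ i, Subgroup.closure (S i) = ⊤) {D : ℕ} (hD : ∀ i, Four (S i) D) :
    Four (fgen S) D := by
  have hT := fgen_closure h
  have key : ∀ x y z : Word G, wd (fgen S) x.prod y.prod + wlen S z ≤
      max (wd (fgen S) x.prod z.prod + wlen S y) (wlen S x + wd (fgen S) y.prod z.prod) + D := by
    intro x
    induction x using Word.consRecOn with
    | empty =>
      intro y z
      rw [Word.prod_empty, wd_one_left, wd_one_left, wl_prod h, wl_prod h, wlen_empty]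
      omega
    | cons i s x h1 h2 ih =>
      intro y z
      set x' := Word.cons s x h1 h2 with hx'
      have hs : hd i x' = s := hd_cons s x h1 h2
      have ht : tl i x' = x := tl_cons s x h1 h2
      have ex : wlen S x' = wl (S i) s + wlen S x := wlen_cons s x h1 h2
      have ey := wlen_eq (S := S) i y
      have ez := wlen_eq (S := S) i z
      by_cases hy : hd i x' = hd i y
      · have ey1 := wd_of_eq (S := S) i hy
        rw [ht] at ey1
        by_cases hz : hd i x' = hd i z
        · have ez1 := wd_of_eq (S := S) i hz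
          have eyz := wd_of_eq (S := S) i (hy.symm.trans hz)
          rw [ht] at ez1
          rw [← hy, hs] at ey
          rw [← hz, hs] at ez
          have := ih (tl i y) (tl i z)
          omega
        · have ez1 := wd_of_ne h i hz
          have a1 := wd_le_add h x (tl i y)
          rw [ht] at ez1
          rw [← hy] at ey
          have a2 := wd_triangle (h i) (hd i z) (hd i x') 1
          rw [wd_one_right (h i), wd_one_right (h i), wd_comm (h i) (hd i z)] at a2
          omega
      · have ey1 := wd_of_ne h i hy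
        rw [ht, hs] at ey1
        by_cases hz : hd i x' = hd i z
        · have hyz : hd i y ≠ hd i z := fun e => hy (hz.trans e.symm)
          have eyz := wd_of_ne h i hyz
          rw [← hz, hs] at ez eyz
          have a1 := wd_comm (h i) s (hd i y)
          omega
        · have ez1 := wd_of_ne h i hz
          rw [ht, hs] at ez1
          by_cases hyz : hd i y = hd i z
          · rw [← hyz] at ez1 ez
            omega
          · have eyz := wd_of_ne h i hyz
            have a1 := hD i s (hd i y) (hd i z) 1
            rw [wd_one_right (h i), wd_one_right (h i), wd_one_right (h i)] at a1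
            omega
  apply four_of_base
  intro x y z
  have := key (Word.equiv x) (Word.equiv y) (Word.equiv z)
  rw [prod_equiv, prod_equiv, prod_equiv] at this
  rw [wd_one_right hT, wd_one_right hT, wd_one_right hT, wl_fgen h, wl_fgen h, wl_fgen h]
  exact this

end

end Pool.SC.F
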