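import Pool.Agent.Lib.MP_565fc2_lc.SC.HCent
import Pool.Agent.Lib.MP_565fc2_lc.SC.Iface

/-!
# SC-HMain (helper12): B1, B2, B3, B5, B6
-/

namespace Pool.SC

open Function

namespace H

variable {G : Type} [Group G]

/-- a subgroup that covers the group with finitely many translates has finite index -/
theorem finiteIndex_of_cover (H : Subgroup G) {T : Set G} (hT : T.Finite)
    (h : ∀ y, ∃ a ∈ H, ∃ t ∈ T, y = a * t) : H.FiniteIndex := by
  have hfin : Finite (G ⧸ H) := by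
    have h1 : (Set.range fun t : T => (QuotientGroup.mk (t.1)⁻¹ : G ⧸ H)).Finite := by
      have : Finite T := hT
      exact Set.finite_range _
    have h2 : (Set.univ : Set (G ⧸ H)) ⊆ Set.range fun t : T => (QuotientGroup.mk (t.1)⁻¹ : G ⧸ H) := by
      intro x _
      obtain ⟨y, rfl⟩ := QuotientGroup.mk_surjective x
      obtain ⟨a, ha, t, ht, hy⟩ := h y⁻¹
      refine ⟨⟨t, ht⟩, ?_⟩
      change (QuotientGroup.mk t⁻¹ : G ⧸ H) = QuotientGroup.mk y
      rw [QuotientGroup.eq]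
      have h3 : y = t⁻¹ * a⁻¹ := by rw [← mul_inv_rev, ← hy, inv_inv]
      rw [h3, inv_inv, mul_inv_cancel_left]
      exact H.inv_mem ha
    exact Set.finite_univ_iff.1 (h1.subset h2)
  exact Subgroup.finiteIndex_of_finite_quotient

/-- an undistorted element of a non-elementary hyperbolic group has infinitely many conjugates -/
theorem not_finConj_lox (hG : NEH G) {g : G} (hg : Lox g) : ¬ FinConj ⊤ g := by
  classical
  intro hfin
  obtain ⟨S, hf, hS, D, hD⟩ := hG.1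
  obtain ⟨T, hT, hTc⟩ := cent_cover hf hS hD hg
  have hex : ∀ z : {y | ∃ h ∈ (⊤ : Subgroup G), y = h * g * h⁻¹}, ∃ h : G, z.1 = h * g * h⁻¹ := by
    rintro ⟨z, h, -, hz⟩
    exact ⟨h, hz⟩
  choose q hq using hex
  have hfin' : Finite {y | ∃ h ∈ (⊤ : Subgroup G), y = h * g * h⁻¹} := hfin
  apply hG.2 g
  refine finiteIndex_of_cover (Subgroup.zpowers g) (T := Set.image2 (fun s t => s * t) T
    (Set.range fun z => (q z)⁻¹)) (hT.image2 _ (Set.finite_range _)) fun y => ?_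
  let z : {y | ∃ h ∈ (⊤ : Subgroup G), y = h * g * h⁻¹} := ⟨y⁻¹ * g * (y⁻¹)⁻¹, y⁻¹, trivial, rfl⟩
  have hz : y⁻¹ * g * (y⁻¹)⁻¹ = q z * g * (q z)⁻¹ := hq z
  -- `c = y * q z` commutes with `g`
  have hc : (y * q z) * g = g * (y * q z) := by
    have h1 : y * (y⁻¹ * g * (y⁻¹)⁻¹) * q z = y * (q z * g * (q z)⁻¹) * q z := by rw [hz]
    have h2 : y * (y⁻¹ * g * (y⁻¹)⁻¹) * q z = g * (y * q z) := by group
    have h3 : y * (q z * g * (q z)⁻¹) * q z = (y * q z) * g := by group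
    rw [← h3, ← h1, h2]
  obtain ⟨j, s, hs, hcs⟩ := hTc _ hc
  refine ⟨g ^ j, Subgroup.zpow_mem_zpowers g j, s * (q z)⁻¹, ⟨s, hs, (q z)⁻¹, ⟨z, rfl⟩, rfl⟩, ?_⟩
  rw [← mul_assoc, ← hcs, mul_inv_cancel_right]

end H

open H

theorem b1 : B1 := by
  intro G _ hG
  by_contra hinf
  have hinf' : Infinite (fcr G) := not_finite_iff_infinite.1 hinf
  obtain ⟨S, hf, hS, D, hD⟩ := hG.1
  obtain ⟨g, hg, hl⟩ := exists_lox_of_infinite hf hS hD (fcr G) hinf'
  exact not_finConj_lox hG hl hg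

theorem b2 : B2 := by
  intro G _ hG hinf
  obtain ⟨S, hf, hS, D, hD⟩ := hG
  have : Infinite (⊤ : Subgroup G) :=
    Infinite.of_injective (fun g : G => (⟨g, trivial⟩ : (⊤ : Subgroup G)))
      (fun a b h => congrArg Subtype.val h)
  obtain ⟨g, -, hl⟩ := exists_lox_of_infinite hf hS hD ⊤ this
  exact ⟨g, hl⟩

theorem b3 : B3 := fun _ _ _ _ hn h => lox_pow hn h

theorem b5 : B5 := by
  intro G _ hG R _ hinf
  obtain ⟨S, hf, hS, D, hD⟩ := hG.1
  exact exists_lox_of_infinite hf hS hD R hinf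

namespace H

variable {G : Type} [Group G]

/-- pigeonhole: if all powers of `c` are in finitely many translates of `A` then a fixed power of `c`
is in `A` -/
theorem exists_pow_mem (A : Subgroup G) {T : Set G} (hT : T.Finite) :
    ∃ m : ℕ, 0 < m ∧ ∀ c : G, (∀ i : ℕ, ∃ a ∈ A, ∃ t ∈ T, c ^ i = a * t) → c ^ m ∈ A := by
  classical
  refine ⟨(hT.toFinset.card).factorial, Nat.factorial_pos _, fun c hc => ?_⟩
  choose a ha t ht hat using hc
  obtain ⟨i, hi, j, hj, hij, htt⟩ := Finset.exists_ne_map_eq_of_card_lt_of_maps_to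
    (s := Finset.range (hT.toFinset.card + 1)) (t := hT.toFinset) (by simp)
    (f := fun i => t i) (fun i _ => by simpa using ht i)
  have key : ∀ i j : ℕ, i < j → j ≤ hT.toFinset.card → t i = t j →
      c ^ (hT.toFinset.card).factorial ∈ A := by
    intro i j hij hj htt
    have h1 : c ^ (j - i) = a j * (a i)⁻¹ := by
      have h2 : c ^ j = c ^ (j - i) * c ^ i := by rw [← pow_add]; congr 1; omega
      have h3 : c ^ (j - i) = c ^ j * (c ^ i)⁻¹ := by rw [h2, mul_inv_cancel_right]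
      rw [h3, hat j, hat i, htt]
      group
    have h4 : c ^ (j - i) ∈ A := h1 ▸ A.mul_mem (ha j) (A.inv_mem (ha i))
    have h5 : (j - i) ∣ (hT.toFinset.card).factorial := Nat.dvd_factorial (by omega) (by omega)
    obtain ⟨e, he⟩ := h5
    rw [he, pow_mul]
    exact A.pow_mem h4 e
  rw [Finset.mem_range] at hi hj
  rcases lt_or_gt_of_ne hij with h | h
  · exact key i j h (by omega) htt
  · exact key j i h (by omega) htt.symm

end H

open H

theorem b6 : B6 := by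
  classical
  intro G _ hG R hRn hRinf x hx
  obtain ⟨g, hgR, hgL⟩ := b5 G hG R hRn hRinf
  obtain ⟨S, hf, hS, D, hD⟩ := hG.1
  -- a fixed power of every element of `R` commutes with `x`
  obtain ⟨m1, hm1, hR⟩ : ∃ m : ℕ, 0 < m ∧ ∀ r ∈ R, r ^ m ∈ Subgroup.centralizer {x} := by
    have hex : ∀ z : {y | ∃ h ∈ R, y = h * x * h⁻¹}, ∃ h ∈ R, z.1 = h * x * h⁻¹ := fun z => z.2
    choose q hqR hq using hex
    have hfin' : Finite {y | ∃ h ∈ R, y = h * x * h⁻¹} := hx
    obtain ⟨m, hm, h⟩ := exists_pow_mem (Subgroup.centralizer {x})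
      (Set.finite_range fun z => (q z)⁻¹)
    refine ⟨m, hm, fun r hr => h r fun i => ?_⟩
    set y := r ^ i with hy
    have hyR : y ∈ R := R.pow_mem hr i
    let z : {y | ∃ h ∈ R, y = h * x * h⁻¹} := ⟨y⁻¹ * x * (y⁻¹)⁻¹, y⁻¹, R.inv_mem hyR, rfl⟩
    have hz : y⁻¹ * x * (y⁻¹)⁻¹ = q z * x * (q z)⁻¹ := hq z
    have hc : (y * q z) * x = x * (y * q z) := by
      have h1 : y * (y⁻¹ * x * (y⁻¹)⁻¹) * q z = y * (q z * x * (q z)⁻¹) * q z := by rw [hz]
      have h2 : y * (y⁻¹ * x * (y⁻¹)⁻¹) * q z = x * (y * q z) := by group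
      have h3 : y * (q z * x * (q z)⁻¹) * q z = (y * q z) * x := by group
      rw [← h3, ← h1, h2]
    exact ⟨y * q z, Subgroup.mem_centralizer_singleton_iff.2 hc, (q z)⁻¹, ⟨z, rfl⟩,
      by rw [mul_inv_cancel_right]⟩
  set h := g ^ m1 with hh
  have hhL : Lox h := lox_pow hm1 hgL
  -- the centraliser of the conjugacy class of `h`
  let Z : Subgroup G := Subgroup.centralizer (Set.range fun y : G => y * h * y⁻¹)
  have hZ : ∀ z, z ∈ Z ↔ ∀ y : G, (y * h * y⁻¹) * z = z * (y * h * y⁻¹) := by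
    intro z
    change z ∈ Subgroup.centralizer _ ↔ _
    rw [Subgroup.mem_centralizer_iff]
    constructor
    · intro H y
      exact H _ ⟨y, rfl⟩
    · rintro H _ ⟨y, rfl⟩
      exact H y
  have hZn : ∀ z ∈ Z, ∀ w : G, w * z * w⁻¹ ∈ Z := by
    intro z hz w
    rw [hZ] at hz ⊢
    intro y
    have h1 := hz (w⁻¹ * y)
    have h2 : w * ((w⁻¹ * y) * h * (w⁻¹ * y)⁻¹ * z) * w⁻¹ =
      w * (z * ((w⁻¹ * y) * h * (w⁻¹ * y)⁻¹)) * w⁻¹ := by rw [h1]
    have h3 : w * ((w⁻¹ * y) * h * (w⁻¹ * y)⁻¹ * z) * w⁻¹ = y * h * y⁻¹ * (w * z * w⁻¹) := by group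
    have h4 : w * (z * ((w⁻¹ * y) * h * (w⁻¹ * y)⁻¹)) * w⁻¹ = w * z * w⁻¹ * (y * h * y⁻¹) := by group
    rw [← h3, ← h4, h2]
  have hxZ : x ∈ Z := by
    rw [hZ]
    intro y
    have h1 := hR (y * g * y⁻¹) (hRn.conj_mem g hgR y)
    rw [conj_pow, ← hh] at h1
    exact Subgroup.mem_centralizer_singleton_iff.1 h1
  by_cases hZf : Finite Z
  · have hZf' : (Z : Set G).Finite := hZf
    refine hZf'.subset ?_
    rintro _ ⟨w, -, rfl⟩
    exact hZn x hxZ w
  · exfalso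
    have hZinf : Infinite Z := not_finite_iff_infinite.1 hZf
    obtain ⟨z, hzZ, hzL⟩ := exists_lox_of_infinite hf hS hD Z hZinf
    obtain ⟨T, hT, hTc⟩ := cent_cover hf hS hD hhL
    obtain ⟨m2, hm2, hpow⟩ := exists_pow_mem (Subgroup.zpowers h) hT
    have hZh : ∀ c ∈ Z, c ^ m2 ∈ Subgroup.zpowers h := by
      intro c hc
      refine hpow c fun i => ?_
      have h1 : c ^ i ∈ Z := Z.pow_mem hc i
      have h2 := (hZ _).1 h1 1
      simp only [one_mul, inv_one, mul_one] at h2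
      obtain ⟨j, s, hs, hcs⟩ := hTc _ h2.symm
      exact ⟨h ^ j, Subgroup.zpow_mem_zpowers h j, s, hs, hcs⟩
    obtain ⟨b, hb⟩ := Subgroup.mem_zpowers_iff.1 (hZh z hzZ)
    refine not_finConj_lox hG (lox_pow hm2 hzL) ?_
    refine (Set.toFinite ({h ^ b, h ^ (-b)} : Set G)).subset ?_
    rintro _ ⟨y, -, rfl⟩
    obtain ⟨b', hb'⟩ := Subgroup.mem_zpowers_iff.1 (hZh _ (hZn z hzZ y))
    rw [conj_pow, ← hb] at hb'
    have h1 := conj_pow_eq hf hS hD hhL hb'.symm
    rw [← hb, ← hb']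
    rcases Int.natAbs_eq_natAbs_iff.1 h1 with h2 | h2
    · left
      rw [h2]
    · right
      rw [h2, neg_neg]
      rfl

end Pool.SC
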