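import Pool.Agent.Lib.MP_565fc2_lc.SC.Iface

/-!
# SC-Q6: small cancellation over infinite normal subgroups

PROOF.  `E = fcr G` (finite by `B1`, normal), `κ = Unit`, `H = R`, `h` from `B5`.  `FinConj R x → x ∈ fcr G` is `B6`.  `ScGen`.
-/

set_option autoImplicit false

namespace Pool.SC

private theorem fcr_normal' (G : Type) [Group G] : (fcr G).Normal := by
  refine ⟨fun x hx g => ?_⟩
  have hx' : FinConj ⊤ x := hx
  show FinConj ⊤ (g * x * g⁻¹)
  refine Set.Finite.subset hx' ?_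
  rintro y ⟨k, -, rfl⟩
  exact ⟨k * g, trivial, by group⟩

theorem scNormal (h : ScGen) (h1 : B1) (h5 : B5) (h6 : B6) : ScNormal := by
  intro G _ hG R hR hRinf hRc ι _ _ g hg M hM hM1
  have : (fcr G).Normal := fcr_normal' G
  have : Finite (fcr G) := h1 G hG
  obtain ⟨a, haR, hla⟩ := h5 G hG R hR hRinf
  obtain ⟨u, hu1, hu2, hu3⟩ := h G (fcr G) hG.1 Unit (fun _ => R) (fun _ => a) ⟨()⟩ (fun _ => hRc) (fun _ => haR)
    (fun _ => hla) (fun σ τ hne => absurd (Subsingleton.elim σ τ) hne)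
    (fun _ x hx => h6 G hG R hR hRinf x hx) ι (fun _ => ()) g hg M hM hM1
  exact ⟨u, hu1, hu2, hu3⟩

end Pool.SC
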