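import Pool.Agent.Lib.MP_565fc2_lc.SC.SMorse
import Pool.Agent.Lib.MP_565fc2_lc.SC.Iface

/-!
# SC-SDehn: the Dehn property implies the four point condition (helper28)
-/

set_option autoImplicit false
set_option linter.unusedSectionVars false

namespace Pool.SC

section

variable {G : Type} [Group G] {S : Set G}

theorem Geod.pfx {α : ℕ → G} {l k : ℕ} (hα : Geod S α l) (hk : k ≤ l) : Geod S α k :=
  fun i j hij hj => hα i j hij (hj.trans hk)

theorem Geod.rev (hS : Subgroup.closure S = ⊤) {α : ℕ → G} {l : ℕ} (hα : Geod S α l) :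
    Geod S (fun i => α (l - i)) l := by
  intro i j hij hj
  show wd S (α (l - i)) (α (l - j)) = j - i
  rw [wd_comm hS, hα _ _ (by omega) (by omega)]
  omega

/-- **(PR)** nearest points are almost between -/
theorem pr {K : ℕ} (hD : DehnData S K) {α : ℕ → G} {k : ℕ} {z : G} (hα : Geod S α k)
    (hn : ∀ j ≤ k, wd S z (α k) ≤ wd S z (α j)) :
    wd S z (α k) + k ≤ wd S z (α 0) + 2 * (3 * mC K + 1) := by
  have hS := hD.gen
  obtain ⟨β, b0, b1, b2⟩ := exists_geod hS z (α k)
  set b := wd S z (α k) with hb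
  obtain ⟨γ, c0, c1, c2⟩ := exists_geod hS z (α 0)
  set n := wd S z (α 0) with hnn
  set u : ℕ → G := fun i => if i ≤ b then β i else α (k - (i - b)) with hu
  have u1 : ∀ i ≤ b, u i = β i := fun i hi => if_pos hi
  have u2 : ∀ i, b ≤ i → u i = α (k - (i - b)) := by
    intro i hi
    rcases Nat.eq_or_lt_of_le hi with h | h
    · rw [← h, u1 b le_rfl, b1, Nat.sub_self, Nat.sub_zero]
    · exact if_neg (by omega)
  -- distances between the two parts
  have far : ∀ i j, i ≤ b → j ≤ k → b - i ≤ wd S (β i) (α j) := by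
    intro i j hi hj
    have h1 := hn j hj
    have h2 := wd_tri hS z (β i) (α j)
    have h3 := b2 0 i (Nat.zero_le _) hi
    rw [b0] at h3
    omega
  have hstep : ∀ i < b + k, wd S (u i) (u (i + 1)) ≤ 1 := by
    intro i hi
    rcases lt_or_ge i b with h | h
    · rw [u1 i h.le, u1 (i + 1) (by omega), b2 i (i + 1) (by omega) (by omega)]
      omega
    · rw [u2 i h, u2 (i + 1) (by omega), wd_comm hS, hα _ _ (by omega) (by omega)]
      omega
  have hq : ∀ i j, i ≤ j → j ≤ b + k → j - i ≤ 3 * wd S (u i) (u j) := by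
    intro i j hij hj
    rcases le_or_gt j b with h | h
    · rw [u1 i (by omega), u1 j h, b2 i j hij h]
      omega
    · rcases le_or_gt i b with h' | h'
      · rw [u1 i h', u2 j h.le]
        have h1 := far i (k - (j - b)) h' (Nat.sub_le _ _)
        have h2 := wd_tri hS (α (k - (j - b))) (β i) (α k)
        have h3 := wd_comm hS (α (k - (j - b))) (β i)
        have h4 := hα (k - (j - b)) k (by omega) le_rfl
        have h5 := b2 i b h' le_rfl
        rw [b1] at h5
        omega
      · rw [u2 i h'.le, u2 j h.le, wd_comm hS, hα _ _ (by omega) (by omega)]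
        omega
  have hM : ∀ t ≤ n, ∃ j ≤ b + k, wd S (γ t) (u j) ≤ mC K := fun t ht =>
    morse hD (α := γ) (l := n) c2 hstep (by rw [u1 0 (Nat.zero_le _), b0, c0])
      (by rw [u2 _ (by omega), c1]; congr 1; omega) hq ht
  obtain ⟨t, ht, ⟨j, hj, hjt⟩, hlast⟩ := exists_last (fun t => ∃ j ≤ b, wd S (γ t) (β j) ≤ mC K)
    ⟨0, Nat.zero_le _, by rw [c0, b0, wd_self]; exact Nat.zero_le _⟩ n
  have hw : ∃ i ≤ k, wd S (β j) (α i) ≤ 2 * mC K + 1 := by
    rcases Nat.eq_or_lt_of_le ht with h | h
    · refine ⟨0, Nat.zero_le _, ?_⟩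
      rw [h, c1] at hjt
      rw [wd_comm hS]
      omega
    · obtain ⟨j', hj', h1⟩ := hM (t + 1) (by omega)
      have h2 : b < j' := by
        by_contra h3
        refine hlast (t + 1) (by omega) (by omega) ⟨j', by omega, ?_⟩
        rwa [u1 j' (by omega)] at h1
      rw [u2 j' h2.le] at h1
      refine ⟨k - (j' - b), Nat.sub_le _ _, ?_⟩
      have h3 := wd_tri hS (β j) (γ t) (α (k - (j' - b)))
      have h4 := wd_tri hS (γ t) (γ (t + 1)) (α (k - (j' - b)))
      have h5 := c2 t (t + 1) (by omega) (by omega)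
      have h6 := wd_comm hS (β j) (γ t)
      omega
  obtain ⟨i, hi, hw⟩ := hw
  have h1 := far j i hj hi
  have h2 := b2 j b hj le_rfl
  rw [b1] at h2
  have h3 := wd_tri hS (γ t) (β j) (α k)
  have h4 := c2 0 t (Nat.zero_le _) ht
  rw [c0] at h4
  have h5 := c2 t n ht le_rfl
  rw [c1] at h5
  have h6 := wd_tri hS z (γ t) (α k)
  have h7 := wd_tri hS (α 0) (γ t) (α k)
  have h8 := wd_comm hS (α 0) (γ t)
  have h9 := hα 0 k (Nat.zero_le _) le_rfl
  omega

theorem exists_nearest (α : ℕ → G) (l : ℕ) (z : G) : ∃ k ≤ l, ∀ j ≤ l, wd S z (α k) ≤ wd S z (α j) := by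
  obtain ⟨k, hk, h⟩ := Finset.exists_min_image (Finset.range (l + 1)) (fun j => wd S z (α j)) ⟨0, by simp⟩
  refine ⟨k, by have := Finset.mem_range.1 hk; omega, fun j hj => h j (Finset.mem_range.2 (by omega))⟩

theorem four_of_dehnData {K : ℕ} (hD : DehnData S K) : Four S (4 * (3 * mC K + 1)) := by
  have hS := hD.gen
  intro x y z w
  obtain ⟨α, a0, a1, a2⟩ := exists_geod hS x y
  set l := wd S x y with hl
  have hα : Geod S α l := a2
  have main : ∀ v : G, ∃ k ≤ l, wd S v (α k) + k ≤ wd S v x + 2 * (3 * mC K + 1) ∧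
      wd S v (α k) + (l - k) ≤ wd S v y + 2 * (3 * mC K + 1) := by
    intro v
    obtain ⟨k, hk, hn⟩ := exists_nearest (S := S) α l v
    refine ⟨k, hk, ?_, ?_⟩
    · have := pr hD (hα.pfx hk) (z := v) fun j hj => hn j (hj.trans hk)
      rwa [a0] at this
    · have h := pr hD (α := fun i => α (l - i)) (k := l - k) (z := v) ((hα.rev hS).pfx (Nat.sub_le _ _)) (by
        intro j hj
        show wd S v (α (l - (l - k))) ≤ wd S v (α (l - j))
        have e : l - (l - k) = k := by omega
        rw [e]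
        exact hn _ (Nat.sub_le _ _))
      have e : l - (l - k) = k := by omega
      simp only [e, Nat.sub_zero, a1] at h
      exact h
  obtain ⟨kz, hz, z1, z2⟩ := main z
  obtain ⟨kw, hw, w1, w2⟩ := main w
  have t1 := wd_tri hS z (α kz) w
  have t2 := wd_tri hS (α kz) (α kw) w
  have c1 := wd_comm hS (α kw) w
  have c2 := wd_comm hS z x
  have c3 := wd_comm hS z y
  have c4 := wd_comm hS w x
  have c5 := wd_comm hS w y
  rcases le_total kz kw with h | h
  · have t3 := hα kz kw h hw
    have := le_max_right (wd S x z + wd S y w) (wd S x w + wd S y z)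
    omega
  · have t3 := hα kw kz h hz
    have c6 := wd_comm hS (α kz) (α kw)
    have := le_max_left (wd S x z + wd S y w) (wd S x w + wd S y z)
    omega

end

/-- **Part S, first half.** -/
theorem dehnHyp : DehnHyp := by
  intro G _ S _ hgen hsym K hK
  exact ⟨_, four_of_dehnData ⟨hgen, hsym, hK⟩⟩

end Pool.SC
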