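import Pool.Agent.Lib.MP_565fc2_lc.SC.Defs

/-!
# SC-SBasic: word length and word distance for a generating set (helper28)

Everything is stated for a set `S` with `Subgroup.closure S = ⊤`.
-/

set_option autoImplicit false

namespace Pool.SC

section

variable {G : Type} [Group G] {S : Set G}

/-- words with letters in `S ∪ S⁻¹` -/
def IsWord (S : Set G) (l : List G) : Prop := ∀ x ∈ l, x ∈ S ∨ x⁻¹ ∈ S

theorem IsWord.nil : IsWord S ([] : List G) := by intro x hx; simp at hx

theorem IsWord.append {l m : List G} (hl : IsWord S l) (hm : IsWord S m) : IsWord S (l ++ m) := by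
  intro x hx
  rcases List.mem_append.1 hx with h | h
  · exact hl x h
  · exact hm x h

theorem IsWord.sub {l m : List G} (hl : IsWord S l) (h : ∀ x ∈ m, x ∈ l) : IsWord S m :=
  fun x hx => hl x (h x hx)

theorem IsWord.take {l : List G} (hl : IsWord S l) (i : ℕ) : IsWord S (l.take i) :=
  hl.sub fun _ hx => List.mem_of_mem_take hx

theorem IsWord.drop {l : List G} (hl : IsWord S l) (i : ℕ) : IsWord S (l.drop i) :=
  hl.sub fun _ hx => List.mem_of_mem_drop hx

theorem IsWord.inv {l : List G} (hl : IsWord S l) : IsWord S (l.map fun x => x⁻¹).reverse := by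
  intro x hx
  rw [List.mem_reverse, List.mem_map] at hx
  obtain ⟨y, hy, rfl⟩ := hx
  rw [inv_inv]
  exact (hl y hy).symm

theorem prod_inv_word (l : List G) : ((l.map fun x => x⁻¹).reverse).prod = l.prod⁻¹ := by
  rw [List.prod_inv_reverse]

theorem wl_le {l : List G} (hl : IsWord S l) : wl S l.prod ≤ l.length :=
  Nat.sInf_le ⟨l, rfl, hl, rfl⟩

theorem exists_word (hS : Subgroup.closure S = ⊤) (g : G) :
    ∃ l : List G, l.length = wl S g ∧ IsWord S l ∧ l.prod = g := by
  have h : {n | ∃ l : List G, l.length = n ∧ (∀ x ∈ l, x ∈ S ∨ x⁻¹ ∈ S) ∧ l.prod = g}.Nonempty := by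
    have hg : g ∈ (Subgroup.closure S).toSubmonoid := by rw [hS]; trivial
    rw [Subgroup.closure_toSubmonoid] at hg
    obtain ⟨l, hl, hp⟩ := Submonoid.exists_list_of_mem_closure hg
    exact ⟨l.length, l, rfl, fun x hx => by simpa using hl x hx, hp⟩
  obtain ⟨l, h1, h2, h3⟩ := Nat.sInf_mem h
  exact ⟨l, h1, h2, h3⟩

theorem exists_word_sym (hS : Subgroup.closure S = ⊤) (hsym : ∀ s ∈ S, s⁻¹ ∈ S) (g : G) :
    ∃ l : List G, l.length = wl S g ∧ (∀ x ∈ l, x ∈ S) ∧ l.prod = g := by
  obtain ⟨l, h1, h2, h3⟩ := exists_word hS g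
  refine ⟨l, h1, fun x hx => ?_, h3⟩
  rcases h2 x hx with h | h
  · exact h
  · have := hsym _ h
    rwa [inv_inv] at this

theorem wl_one : wl S (1 : G) = 0 := by
  have := wl_le (S := S) (l := []) IsWord.nil
  simpa using this

theorem wl_mul (hS : Subgroup.closure S = ⊤) (g h : G) : wl S (g * h) ≤ wl S g + wl S h := by
  obtain ⟨l, h1, h2, rfl⟩ := exists_word hS g
  obtain ⟨m, h3, h4, rfl⟩ := exists_word hS h
  rw [← List.prod_append, ← h1, ← h3, ← List.length_append]
  exact wl_le (h2.append h4)

theorem wl_inv_le (hS : Subgroup.closure S = ⊤) (g : G) : wl S g⁻¹ ≤ wl S g := by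
  obtain ⟨l, h1, h2, rfl⟩ := exists_word hS g
  rw [← prod_inv_word, ← h1]
  have := wl_le h2.inv
  simpa using this

theorem wl_inv (hS : Subgroup.closure S = ⊤) (g : G) : wl S g⁻¹ = wl S g := by
  refine le_antisymm (wl_inv_le hS g) ?_
  have := wl_inv_le hS g⁻¹
  rwa [inv_inv] at this

theorem wl_eq_zero (hS : Subgroup.closure S = ⊤) {g : G} (h : wl S g = 0) : g = 1 := by
  obtain ⟨l, h1, -, rfl⟩ := exists_word hS g
  rw [h, List.length_eq_zero_iff] at h1
  rw [h1]
  rfl

theorem wd_self (x : G) : wd S x x = 0 := by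
  rw [wd, inv_mul_cancel, wl_one]

theorem wd_comm (hS : Subgroup.closure S = ⊤) (x y : G) : wd S x y = wd S y x := by
  rw [wd, wd, ← wl_inv hS, mul_inv_rev, inv_inv]

theorem wd_tri (hS : Subgroup.closure S = ⊤) (x y z : G) : wd S x z ≤ wd S x y + wd S y z := by
  have h : x⁻¹ * z = (x⁻¹ * y) * (y⁻¹ * z) := by group
  rw [wd, h]
  exact wl_mul hS _ _

theorem wd_mul_left (g x y : G) : wd S (g * x) (g * y) = wd S x y := by
  rw [wd, wd]
  congr 1
  group

theorem wd_eq_zero (hS : Subgroup.closure S = ⊤) {x y : G} (h : wd S x y = 0) : x = y := by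
  have := wl_eq_zero hS h
  exact (inv_mul_eq_one.1 this)

theorem wd_one_left (x : G) : wd S 1 x = wl S x := by
  rw [wd, inv_one, one_mul]

theorem wd_mul_right_le {x s : G} (hs : s ∈ S ∨ s⁻¹ ∈ S) : wd S x (x * s) ≤ 1 := by
  rw [wd, inv_mul_cancel_left]
  have := wl_le (S := S) (l := [s]) (by intro y hy; rw [List.mem_singleton] at hy; rwa [hy])
  simpa using this

/-- two consecutive points on a path differ by a letter or are equal -/
theorem eq_or_mem_of_wd_le_one (hS : Subgroup.closure S = ⊤) {x y : G} (h : wd S x y ≤ 1) :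
    x = y ∨ (x⁻¹ * y ∈ S ∨ (x⁻¹ * y)⁻¹ ∈ S) := by
  rcases Nat.eq_or_lt_of_le h with h | h
  · right
    obtain ⟨l, h1, h2, h3⟩ := exists_word hS (x⁻¹ * y)
    have h4 : l.length = 1 := h1.trans h
    obtain ⟨a, rfl⟩ := List.length_eq_one_iff.1 h4
    rw [← h3]
    have := h2 a (by simp)
    simpa using this
  · left
    exact wd_eq_zero hS (by omega)

/-- geodesics -/
theorem exists_geod (hS : Subgroup.closure S = ⊤) (x y : G) : ∃ p : ℕ → G, p 0 = x ∧ p (wd S x y) = y ∧
    ∀ i j, i ≤ j → j ≤ wd S x y → wd S (p i) (p j) = j - i := by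
  obtain ⟨l, h1, h2, h3⟩ := exists_word hS (x⁻¹ * y)
  have h1' : l.length = wd S x y := h1
  refine ⟨fun i => x * (l.take i).prod, by simp, ?_, ?_⟩
  · show x * (l.take (wd S x y)).prod = y
    rw [← h1', List.take_length, h3]
    group
  · intro i j hij hj
    show wd S (x * (l.take i).prod) (x * (l.take j).prod) = j - i
    rw [wd_mul_left]
    set a := l.take i with ha
    set m := (l.take j).drop i with hm
    set c := l.drop j with hc
    have e1 : l.take j = a ++ m := by
      rw [ha, hm]
      have : l.take i = (l.take j).take i := by rw [List.take_take, min_eq_left hij]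
      rw [this, List.take_append_drop]
    have e2 : l = a ++ m ++ c := by rw [← e1, hc, List.take_append_drop]
    have lm : m.length = j - i := by
      rw [hm, List.length_drop, List.length_take]
      omega
    have la : a.length = i := by
      rw [ha, List.length_take]
      omega
    have lc : c.length = l.length - j := by
      rw [hc, List.length_drop]
    have e3 : wd S a.prod (l.take j).prod = wl S m.prod := by
      rw [wd, e1, List.prod_append]
      congr 1
      group
    rw [e3]
    have hmw : IsWord S m := (h2.take j).drop i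
    have haw : IsWord S a := h2.take i
    have hcw : IsWord S c := h2.drop j
    have b1 := wl_le hmw
    have b2 := wl_le haw
    have b3 := wl_le hcw
    have b4 : wl S l.prod ≤ wl S a.prod + wl S m.prod + wl S c.prod := by
      have : l.prod = a.prod * m.prod * c.prod := by
        rw [← List.prod_append, ← List.prod_append, ← e2]
      rw [this]
      exact (wl_mul hS _ _).trans (Nat.add_le_add_right (wl_mul hS _ _) _)
    have b5 : wl S l.prod = l.length := by rw [h3, h1]
    omega

end

end Pool.SC
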