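import Pool.Agent.Lib.MP_565fc2_lc.SC.Iface
import Pool.Agent.Lib.MP_565fc2_lc.SC.SBasic

/-!
# SC-SFP: hyperbolic groups are finitely presented (helper28)

`fpk : FPk`: the kernel of every marking `FreeGroup (Fin n) →* G` of a hyperbolic group is the normal closure of a finite
set.
-/

set_option autoImplicit false

namespace Pool.SC

open Function

section

variable {G : Type} [Group G] {S : Set G} {D : ℕ}

/-- the value of a word under a map on letters -/
def fval {H : Type} [Group H] (Φ : G → H) (l : List G) : H := (l.map Φ).prod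

section fval

omit [Group G]

variable {H : Type} [Group H] (Φ : G → H)

theorem fval_nil : fval Φ [] = 1 := rfl

theorem fval_append (l m : List G) : fval Φ (l ++ m) = fval Φ l * fval Φ m := by
  simp [fval]

theorem fval_cons (x : G) (l : List G) : fval Φ (x :: l) = Φ x * fval Φ l := by
  simp [fval]

theorem fval_singleton (x : G) : fval Φ [x] = Φ x := by
  simp [fval]

end fval

/-- distance between two points on geodesics which start at `1` and end at distance `≤ 1` -/
theorem ladder_dist (hS : Subgroup.closure S = ⊤) (hF : Four S D) {v v' : List G} (hv : IsWord S v) (hv' : IsWord S v')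
    (gv : v.length = wl S v.prod) (gv' : v'.length = wl S v'.prod) (hd : wd S v.prod v'.prod ≤ 1) (t : ℕ)
    (h1 : t ≤ v.length) (h2 : t ≤ v'.length) : wd S (v.take t).prod (v'.take t).prod ≤ D + 2 := by
  have key := hF (v.take t).prod (v'.take t).prod 1 v.prod
  have ev : (v.take t).prod * (v.drop t).prod = v.prod := by rw [← List.prod_append, List.take_append_drop]
  have ev' : (v'.take t).prod * (v'.drop t).prod = v'.prod := by rw [← List.prod_append, List.take_append_drop]
  have a1 : wd S (v.take t).prod 1 ≤ t := by
    rw [wd_comm hS, wd_one_left]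
    refine (wl_le (hv.take t)).trans ?_
    rw [List.length_take]
    omega
  have a2 : wd S (v'.take t).prod 1 ≤ t := by
    rw [wd_comm hS, wd_one_left]
    refine (wl_le (hv'.take t)).trans ?_
    rw [List.length_take]
    omega
  have a3 : wd S (v.take t).prod v.prod ≤ v.length - t := by
    rw [← ev, wd, inv_mul_cancel_left]
    refine (wl_le (hv.drop t)).trans ?_
    rw [List.length_drop]
  have a4 : wd S (v'.take t).prod v'.prod ≤ v'.length - t := by
    rw [← ev', wd, inv_mul_cancel_left]
    refine (wl_le (hv'.drop t)).trans ?_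
    rw [List.length_drop]
  have a5 : wd S (1 : G) v.prod = v.length := by rw [wd_one_left, gv]
  have a6 : wd S (1 : G) v'.prod = v'.length := by rw [wd_one_left, gv']
  have a7 := wd_tri hS (v'.take t).prod v'.prod v.prod
  have a8 := wd_tri hS (1 : G) v.prod v'.prod
  have a9 : wd S v'.prod v.prod ≤ 1 := by rw [wd_comm hS]; exact hd
  have b1 : wd S (v.take t).prod 1 + wd S (v'.take t).prod v.prod ≤ v.length + 2 := by omega
  have b2 : wd S (v.take t).prod v.prod + wd S (v'.take t).prod 1 ≤ v.length + 2 := by omega
  have b3 := max_le b1 b2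
  omega

/-- a short word between two points -/
theorem exists_short (hS : Subgroup.closure S = ⊤) {x y : G} {n : ℕ} (h : wd S x y ≤ n) :
    ∃ c : List G, IsWord S c ∧ c.length ≤ n ∧ x * c.prod = y := by
  obtain ⟨c, h1, h2, h3⟩ := exists_word hS (x⁻¹ * y)
  refine ⟨c, h2, ?_, ?_⟩
  · rw [h1]
    exact h
  · rw [h3]
    group

variable {H : Type} [Group H] {Φ : G → H}

/-- `Φ` respects all relations of length `≤ 2 D + 6` -/
def Cells (S : Set G) (D : ℕ) (Φ : G → H) : Prop := ∀ a b : List G, IsWord S a → IsWord S b → a.prod = b.prod →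
  a.length + b.length ≤ 2 * D + 6 → fval Φ a = fval Φ b

theorem ladder_step (hS : Subgroup.closure S = ⊤) (hF : Four S D) (hc : Cells S D Φ) {v v' : List G}
    (hv : IsWord S v) (hv' : IsWord S v')
    (gv : v.length = wl S v.prod) (gv' : v'.length = wl S v'.prod) (hd : wd S v.prod v'.prod ≤ 1) (t : ℕ) :
    t ≤ v.length → t ≤ v'.length → ∀ c : List G, IsWord S c → c.length ≤ D + 2 →
      (v.take t).prod * c.prod = (v'.take t).prod → fval Φ (v.take t) * fval Φ c = fval Φ (v'.take t) := by
  induction t with
  | zero =>
    intro _ _ c hcw hcl hcp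
    simp only [List.take_zero, List.prod_nil, one_mul] at hcp
    simp only [List.take_zero, fval_nil, one_mul]
    rw [← fval_nil Φ]
    exact hc c [] hcw IsWord.nil (by simpa using hcp) (by simp; omega)
  | succ t ih =>
    intro h1 h2 c hcw hcl hcp
    obtain ⟨e, he, hel, hep⟩ := exists_short hS (ladder_dist hS hF hv hv' gv gv' hd t (by omega) (by omega))
    have ih' := ih (by omega) (by omega) e he hel hep
    have t1 : v.take (t + 1) = v.take t ++ [v[t]] := by
      rw [List.take_append_getElem]
    have t2 : v'.take (t + 1) = v'.take t ++ [v'[t]] := by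
      rw [List.take_append_getElem]
    have m1 : v[t] ∈ v := List.getElem_mem _
    have m2 : v'[t] ∈ v' := List.getElem_mem _
    rw [t1, t2, List.prod_append, List.prod_append, List.prod_singleton, List.prod_singleton, ← hep, mul_assoc,
      mul_assoc] at hcp
    have hcp' := mul_left_cancel hcp
    have key : fval Φ (v[t] :: c) = fval Φ (e ++ [v'[t]]) := by
      refine hc _ _ ?_ ?_ ?_ ?_
      · intro x hx
        rcases List.mem_cons.1 hx with rfl | hx
        · exact hv _ m1
        · exact hcw _ hx
      · refine he.append ?_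
        intro x hx
        rw [List.mem_singleton] at hx
        rw [hx]
        exact hv' _ m2
      · rw [List.prod_cons, List.prod_append, List.prod_singleton]
        exact hcp'
      · simp only [List.length_cons, List.length_append, List.length_nil]
        omega
    rw [fval_cons, fval_append, fval_singleton] at key
    rw [t1, t2, fval_append, fval_append, fval_singleton, fval_singleton, mul_assoc, key, ← mul_assoc, ih']

theorem ladder_end (hS : Subgroup.closure S = ⊤) (hF : Four S D) (hc : Cells S D Φ) {v v' : List G}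
    (hv : IsWord S v) (hv' : IsWord S v')
    (gv : v.length = wl S v.prod) (gv' : v'.length = wl S v'.prod) {s : G} (hs : s ∈ S ∨ s⁻¹ ∈ S)
    (hp : v.prod * s = v'.prod) : fval Φ v * Φ s = fval Φ v' := by
  have hd : wd S v.prod v'.prod ≤ 1 := by
    rw [← hp]
    exact wd_mul_right_le hs
  have hd' : wd S v'.prod v.prod ≤ 1 := by rw [wd_comm hS]; exact hd
  have l1 : v.length ≤ v'.length + 1 := by
    have := wd_tri hS (1 : G) v'.prod v.prod
    rw [wd_one_left, wd_one_left, ← gv, ← gv'] at this
    omega
  have l2 : v'.length ≤ v.length + 1 := by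
    have := wd_tri hS (1 : G) v.prod v'.prod
    rw [wd_one_left, wd_one_left, ← gv, ← gv'] at this
    omega
  obtain ⟨m, hm⟩ : ∃ m, m = min v.length v'.length := ⟨_, rfl⟩
  have m1 : m ≤ v.length := by omega
  have m2 : m ≤ v'.length := by omega
  obtain ⟨e, he, hel, hep⟩ := exists_short hS (ladder_dist hS hF hv hv' gv gv' hd m m1 m2)
  have ih := ladder_step hS hF hc hv hv' gv gv' hd m m1 m2 e he hel hep
  have hsw : IsWord S [s] := by
    intro x hx
    rw [List.mem_singleton] at hx
    rw [hx]
    exact hs
  have ev : (v.take m).prod * (v.drop m).prod = v.prod := by rw [← List.prod_append, List.take_append_drop]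
  have ev' : (v'.take m).prod * (v'.drop m).prod = v'.prod := by rw [← List.prod_append, List.take_append_drop]
  have fv : fval Φ v = fval Φ (v.take m) * fval Φ (v.drop m) := by rw [← fval_append, List.take_append_drop]
  have fv' : fval Φ v' = fval Φ (v'.take m) * fval Φ (v'.drop m) := by rw [← fval_append, List.take_append_drop]
  have key : fval Φ (v.drop m ++ [s]) = fval Φ (e ++ v'.drop m) := by
    refine hc _ _ ((hv.drop m).append hsw) (he.append (hv'.drop m)) ?_ ?_
    · rw [List.prod_append, List.prod_append, List.prod_singleton]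
      have : (v.take m).prod * ((v.drop m).prod * s) = (v.take m).prod * (e.prod * (v'.drop m).prod) := by
        rw [← mul_assoc, ev, hp, ← mul_assoc, hep, ev']
      exact mul_left_cancel this
    · simp only [List.length_append, List.length_drop, List.length_cons, List.length_nil]
      omega
  rw [fval_append, fval_append, fval_singleton] at key
  rw [fv, mul_assoc, key, ← mul_assoc, ih, ← fv']

/-- a map on letters which respects all short relations respects all relations -/
theorem cells_all (hS : Subgroup.closure S = ⊤) (hF : Four S D) (hc : Cells S D Φ) {a b : List G} (ha : IsWord S a)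
    (hb : IsWord S b) (h : a.prod = b.prod) : fval Φ a = fval Φ b := by
  choose v h1 h2 h3 using exists_word (S := S) hS
  have g : ∀ x, (v x).length = wl S (v x).prod := fun x => by rw [h1, h3]
  have main : ∀ l : List G, IsWord S l → fval Φ l = fval Φ (v l.prod) := by
    intro l
    induction l using List.reverseRecOn with
    | nil =>
      intro _
      have : v ([] : List G).prod = [] := by
        rw [← List.length_eq_zero_iff, h1]
        exact wl_one
      rw [this]
    | append_singleton l s ih =>
      intro hl
      have hl1 : IsWord S l := hl.sub fun x hx => List.mem_append_left _ hx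
      have hs : s ∈ S ∨ s⁻¹ ∈ S := hl s (by simp)
      rw [fval_append, fval_singleton, ih hl1]
      refine ladder_end hS hF hc (h2 _) (h2 _) (g _) (g _) hs ?_
      rw [h3, h3, List.prod_append, List.prod_singleton]
  rw [main a ha, main b hb, h]

/-- there are finitely many words of bounded length -/
theorem finite_words (hfin : S.Finite) (n : ℕ) : {l : List G | IsWord S l ∧ l.length ≤ n}.Finite := by
  have hT : ({x | x ∈ S ∨ x⁻¹ ∈ S} : Set G).Finite := by
    have e : ({x | x ∈ S ∨ x⁻¹ ∈ S} : Set G) = S ∪ (fun x => x⁻¹) '' S := by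
      ext x
      simp only [Set.mem_ofPred_eq, Set.mem_union, Set.mem_image]
      constructor
      · rintro (h | h)
        · exact Or.inl h
        · exact Or.inr ⟨x⁻¹, h, inv_inv x⟩
      · rintro (h | ⟨y, hy, rfl⟩)
        · exact Or.inl h
        · exact Or.inr (by rwa [inv_inv])
    rw [e]
    exact hfin.union (hfin.image _)
  induction n with
  | zero =>
    refine (Set.finite_singleton ([] : List G)).subset ?_
    rintro l ⟨-, h⟩
    rw [Set.mem_singleton_iff, ← List.length_eq_zero_iff]
    omega
  | succ n ih =>
    refine ((Set.finite_singleton ([] : List G)).union (hT.image2 (fun x l => x :: l) ih)).subset ?_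
    rintro l ⟨h, hl⟩
    cases l with
    | nil => exact Or.inl rfl
    | cons x l =>
      right
      refine ⟨x, h x (by simp), l, ⟨h.sub fun y hy => List.mem_cons_of_mem _ hy, ?_⟩, rfl⟩
      simp only [List.length_cons] at hl
      omega

end

theorem fpk : FPk := by
  intro G _ hG n f hf
  obtain ⟨S, hfin, hS, D, hF⟩ := hG
  have hw : ∀ g : G, f (surjInv hf g) = g := fun g => surjInv_eq hf g
  obtain ⟨w, hw⟩ : ∃ w : G → FreeGroup (Fin n), ∀ g, f (w g) = g := ⟨_, hw⟩
  have hfw : ∀ l : List G, f (fval w l) = l.prod := by
    intro l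
    induction l with
    | nil => simp [fval]
    | cons x l ih => rw [fval_cons, map_mul, hw, ih, List.prod_cons]
  choose u hu1 hu2 hu3 using fun i : Fin n => exists_word hS (f (FreeGroup.of i))
  set R₁ : Set (FreeGroup (Fin n)) := Set.range fun i => (FreeGroup.of i)⁻¹ * fval w (u i) with hR₁
  set W : Set (List G) := {l : List G | IsWord S l ∧ l.length ≤ 2 * D + 6} with hW
  have hWf : W.Finite := finite_words hfin _
  set R₂ : Set (FreeGroup (Fin n)) := (fun p : List G × List G => fval w p.1 * (fval w p.2)⁻¹) ''
    {p : List G × List G | (p.1 ∈ W ∧ p.2 ∈ W) ∧ p.1.prod = p.2.prod} with hR₂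
  have f2 : R₂.Finite := by
    refine Set.Finite.image _ ((hWf.prod hWf).subset ?_)
    rintro ⟨a, b⟩ ⟨⟨h1, h2⟩, -⟩
    exact ⟨h1, h2⟩
  refine ⟨R₁ ∪ R₂, (Set.finite_range _).union f2, ?_⟩
  refine le_antisymm ?_ ?_
  · refine Subgroup.normalClosure_le_normal ?_
    rintro x (⟨i, rfl⟩ | ⟨⟨a, b⟩, ⟨-, h⟩, rfl⟩)
    · show f _ = 1
      rw [map_mul, map_inv, hfw, hu3, inv_mul_cancel]
    · show f _ = 1
      rw [map_mul, map_inv, hfw, hfw]
      have h' : a.prod = b.prod := h
      rw [h', mul_inv_cancel]
  · set N : Subgroup (FreeGroup (Fin n)) := Subgroup.normalClosure (R₁ ∪ R₂) with hN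
    have hRN : R₁ ∪ R₂ ⊆ (N : Set (FreeGroup (Fin n))) := Subgroup.subset_normalClosure
    let Φ : G → FreeGroup (Fin n) ⧸ N := fun g => QuotientGroup.mk' N (w g)
    have hΦ : ∀ l : List G, fval Φ l = QuotientGroup.mk' N (fval w l) := by
      intro l
      induction l with
      | nil => simp [fval]
      | cons x l ih => rw [fval_cons, fval_cons, map_mul, ih]
    have hc : Cells S D Φ := by
      intro a b ha hb hab hl
      rw [hΦ, hΦ]
      have hm : fval w a * (fval w b)⁻¹ ∈ N :=
        hRN (Or.inr ⟨(a, b), ⟨⟨⟨ha, by show a.length ≤ _; omega⟩, ⟨hb, by show b.length ≤ _; omega⟩⟩, hab⟩, rfl⟩)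
      rw [← QuotientGroup.ker_mk' N] at hm
      have hm' : QuotientGroup.mk' N (fval w a * (fval w b)⁻¹) = 1 := hm
      rw [map_mul, map_inv] at hm'
      exact mul_inv_eq_one.1 hm'
    have hx : ∀ x : FreeGroup (Fin n), ∃ l : List G, IsWord S l ∧ f x = l.prod ∧ QuotientGroup.mk' N x = fval Φ l := by
      intro x
      have hof : ∀ i : Fin n, QuotientGroup.mk' N (FreeGroup.of i) = fval Φ (u i) := by
        intro i
        have hm : (FreeGroup.of i)⁻¹ * fval w (u i) ∈ N := hRN (Or.inl ⟨i, rfl⟩)
        rw [← QuotientGroup.ker_mk' N] at hm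
        have hm' : QuotientGroup.mk' N ((FreeGroup.of i)⁻¹ * fval w (u i)) = 1 := hm
        rw [map_mul, map_inv] at hm'
        rw [hΦ]
        exact inv_mul_eq_one.1 hm'
      induction x using FreeGroup.induction_on with
      | C1 => exact ⟨[], IsWord.nil, by simp, by simp [fval]⟩
      | of i => exact ⟨u i, hu2 i, (hu3 i).symm, hof i⟩
      | inv_of i ih =>
        refine ⟨((u i).map fun x => x⁻¹).reverse, (hu2 i).inv, ?_, ?_⟩
        · rw [prod_inv_word, hu3, map_inv]
        · rw [map_inv, hof, inv_eq_iff_mul_eq_one, ← fval_append, ← fval_nil Φ]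
          refine cells_all hS hF hc ((hu2 i).append (hu2 i).inv) IsWord.nil ?_
          rw [List.prod_append, prod_inv_word, mul_inv_cancel, List.prod_nil]
      | mul x y ihx ihy =>
        obtain ⟨l, h1, h2, h3⟩ := ihx
        obtain ⟨m, h4, h5, h6⟩ := ihy
        refine ⟨l ++ m, h1.append h4, ?_, ?_⟩
        · rw [map_mul, h2, h5, List.prod_append]
        · rw [map_mul, h3, h6, fval_append]
    intro x hxk
    obtain ⟨l, h1, h2, h3⟩ := hx x
    have hxk' : f x = 1 := hxk
    rw [← QuotientGroup.ker_mk' N]
    show QuotientGroup.mk' N x = 1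
    rw [h3, ← fval_nil Φ]
    exact cells_all hS hF hc h1 IsWord.nil (by rw [← h2, hxk', List.prod_nil])

end Pool.SC
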