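import Pool.Agent.Lib.MP_565fc2_lc.SC.Q5
import Pool.Agent.Lib.MP_565fc2_lc.SC.Q6
import Pool.Agent.Lib.MP_565fc2_lc.SC.SDehn
import Pool.Agent.Lib.MP_565fc2_lc.SC.SFP
import Pool.Agent.Lib.MP_565fc2_lc.SC.HMain
import Pool.Agent.Lib.MP_565fc2_lc.SC.FKer
import Pool.Agent.Lib.MP_565fc2_lc.SC.FFree
import Pool.Agent.Lib.MP_565fc2_lc.SC.FAmalg
import Pool.Agent.Lib.MP_565fc2_lc.SC.A09Max
import Pool.Agent.Lib.MP_565fc2_lc.SC.A10Spg
import Pool.Agent.Lib.MP_565fc2_lc.SC.TNonempty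

/-!
# SC-Fin: assembly
-/

set_option autoImplicit false

namespace Pool.SC

theorem scGen' : ScGen := scGen dehnHyp b4

theorem scNormal' : ScNormal := scNormal scGen' b1 b5 b6

theorem q1_iff : Q1 ↔ ∃ (G : Type) (_ : Group G), WordHyp G ∧ ¬ Group.ResiduallyFinite G := by
  constructor
  · intro h
    by_contra hcon
    refine T_no fpk freeProdHyp (spg_of_RF scNormal' b1 b4 ?_) h
    intro G _ hG
    by_contra hRF
    exact hcon ⟨G, _, hG, hRF⟩
  · rintro ⟨G, _, hG, hRF⟩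
    exact T_yes fpk (trg_of_nonRF amalg freeProdHyp freeProdLox freeProdFC scGen' scNormal' b1 b2 b3 b4 hG hRF)

end Pool.SC
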