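import Pool.Agent.Lib.MP_565fc2_lc.SC.Fin

/-!
# SC-FinT: three equivalent conditions
-/

set_option autoImplicit false

namespace Pool.SC

open FirstOrder FirstOrder.Language Topology Function

/-- local splitting by sentences: every elementary class is meagre -/
theorem meagre_of_split {H : Set MGrp}
    (hs : ∀ U : Set MGrp, IsOpen U → (U ∩ H).Nonempty →
      ∃ (σ : LG.Sentence) (V1 V2 : Set MGrp), V1 ⊆ U ∧ V2 ⊆ U ∧ IsOpen V1 ∧ IsOpen V2 ∧
        (V1 ∩ H).Nonempty ∧ (V2 ∩ H).Nonempty ∧ (∀ M ∈ V1, M ∈ closure H → M ∈ holds σ) ∧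
        (∀ M ∈ V2, M ∈ closure H → M ∉ holds σ)) (T : LG.Theory) :
    IsMeagre {x : closure H | Th (x : MGrp) = T} := by
  have hdense : Dense (interior {x : closure H | Th (x : MGrp) ≠ T}) := by
    rw [dense_iff_inter_open]
    intro O hO hOne
    obtain ⟨U, hU, hUO⟩ := isOpen_induced_iff.1 hO
    obtain ⟨x, hx⟩ := hOne
    have hxU : (x : MGrp) ∈ U := by
      rw [← hUO] at hx
      exact hx
    obtain ⟨σ, V1, V2, h1U, h2U, h1o, h2o, ⟨M1, hM1, hM1H⟩, ⟨M2, hM2, hM2H⟩, hσ1, hσ2⟩ :=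
      hs U hU (meets hU hxU)
    by_cases hσ : σ ∈ T
    · refine ⟨⟨M2, subset_closure hM2H⟩, ?_, ?_⟩
      · rw [← hUO]
        exact h2U hM2
      · refine mem_interior.2 ⟨(fun x : closure H => (x : MGrp)) ⁻¹' V2, ?_, h2o.preimage continuous_subtype_val, hM2⟩
        intro y hy hyT
        rw [← hyT] at hσ
        exact hσ2 _ hy y.2 hσ
    · refine ⟨⟨M1, subset_closure hM1H⟩, ?_, ?_⟩
      · rw [← hUO]
        exact h1U hM1
      · refine mem_interior.2 ⟨(fun x : closure H => (x : MGrp)) ⁻¹' V1, ?_, h1o.preimage continuous_subtype_val, hM1⟩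
        intro y hy hyT
        apply hσ
        rw [← hyT]
        exact hσ1 _ hy y.2
  have h1 : {x : closure H | Th (x : MGrp) ≠ T} ∈ residual (closure H) :=
    Filter.mem_of_superset (residual_of_dense_open isOpen_interior hdense) interior_subset
  have h2 : {x : closure H | Th (x : MGrp) ≠ T} = {x : closure H | Th (x : MGrp) = T}ᶜ := rfl
  rw [h2] at h1
  exact h1

theorem meagre_class (hfp : FPk) (h : SPG) (T : LG.Theory) : IsMeagre {x : closure HH | Th (x : MGrp) = T} := by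
  refine meagre_of_split ?_ T
  rintro U hU ⟨p, hpU, hpH⟩
  obtain ⟨M, hM, hM1, hMU⟩ := exists_finite_avoid hU hpU
  obtain ⟨φ, ⟨G1, _, π1, hπ1, hG1, hπ1M, M1, hM1f, hM11, hL1⟩,
    ⟨G2, _, π2, hπ2, hG2, hπ2M, M2, hM2f, hM21, hL2⟩⟩ := h p.grp hpH M hM hM1
  obtain ⟨V1, hV1o, hpV1, hV1⟩ := exists_open_quotients hfp p π1 hπ1 hG1.1 M1 hM1f hM11
  obtain ⟨V2, hV2o, hpV2, hV2⟩ := exists_open_quotients hfp p π2 hπ2 hG2.1 M2 hM2f hM21
  refine ⟨φ, U ∩ V1, U ∩ V2, Set.inter_subset_left, Set.inter_subset_left, hU.inter hV1o,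
    hU.inter hV2o, ⟨quoM p π1, ⟨hMU G1 π1 hπ1M, hpV1⟩, t_neh_equiv (quoE p π1 hπ1).symm hG1⟩,
    ⟨quoM p π2, ⟨hMU G2 π2 hπ2M, hpV2⟩, t_neh_equiv (quoE p π2 hπ2).symm hG2⟩, ?_, ?_⟩
  · rintro q ⟨_, hq⟩ _
    obtain ⟨f, hf, hfM⟩ := hV1 q hq
    exact hL1 q.grp f hf hfM
  · rintro q ⟨_, hq⟩ _
    obtain ⟨f, hf, hfM⟩ := hV2 q hq
    exact hL2 q.grp f hf hfM

theorem q1_tfae : List.TFAE [Q1, ∃ p : closure HH, ¬ IsMeagre {x : closure HH | Th (x : MGrp) = Th (p : MGrp)},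
    ∃ (G : Type) (_ : Group G), WordHyp G ∧ ¬ Group.ResiduallyFinite G] := by
  tfae_have 3 → 1 := q1_iff.2
  tfae_have 2 → 3 := by
    rintro ⟨p, hp⟩
    by_contra hcon
    refine hp (meagre_class fpk (spg_of_RF scNormal' b1 b4 ?_) _)
    intro G _ hG
    by_contra hRF
    exact hcon ⟨G, _, hG, hRF⟩
  tfae_have 1 → 2 := by
    rintro ⟨S, hS, hc⟩
    by_contra hcon
    push Not at hcon
    have hB : BaireSpace (closure HH) := baire_closure HH
    have hne : Nonempty (closure HH) := (HH_nonempty freeProdHyp).mono subset_closure |>.to_subtype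
    have h1 : IsMeagre (⋃ T ∈ (fun p : closure HH => Th p.1) '' S, {x : closure HH | Th (x : MGrp) = T}) := by
      refine isMeagre_biUnion hc ?_
      rintro _ ⟨p, _, rfl⟩
      exact hcon p
    have h2 : S ⊆ ⋃ T ∈ (fun p : closure HH => Th p.1) '' S, {x : closure HH | Th (x : MGrp) = T} := by
      intro x hx
      exact Set.mem_biUnion ⟨x, hx, rfl⟩ rfl
    have h3 := Filter.inter_mem hS (h1.mono h2)
    rw [Set.inter_compl_self] at h3
    obtain ⟨x, hx⟩ := (dense_of_mem_residual h3).nonempty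
    exact hx
  tfae_finish

end Pool.SC
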