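import Pool.Agent.Lib.MP_565fc2_lc.SC.Defs

/-!
# SC-G1: metrics with the four point condition; broken lines

`Hyp4 d D`: `ℕ`-valued metric with the four point condition.  `Bt d k x y z`: `y` is `k`-between `x` and `z`.
PROOFS.  Everything follows from `four` and `tri` by `omega` (four point inequality applied to the right points).
`lg_a`: induction on `i`.  `i = 1` is `h1`.  Step `i ≥ 2`: by induction `Bt (k+D) (x 0) (x (i-1)) (x i)`; apply `four` with the pairs
`(x (i-1), x (i+1)), (x 0, x i)`: `d(x(i-1),x(i+1)) + d(x 0,x i) ≤ max (d(x(i-1),x 0) + d(x(i+1),x i)) (d(x(i-1),x i) + d(x(i+1),x 0)) + D`;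
the first alternative contradicts `h2` for `i-1` (with `h1` and the induction hypothesis), the second is the claim.
`lg_b`: for `i = 0, n` trivial.  For `0 < i < n`: if `i + 1 = n` use `lg_a`.  Otherwise the mirror image of `lg_a` (apply `lg_a` to
`fun j => x (n - j)`) gives `Bt (k+D) (x n) (x (i+1)) (x i)`, `lg_a` gives `Bt (k+D) (x 0) (x i) (x (i+1))`; apply `four` with the pairs
`(x 0, x (i+1)), (x i, x n)`: `d(x 0,x(i+1)) + d(x i,x n) ≤ max (d(x 0,x i) + d(x(i+1),x n)) (d(x 0,x n) + d(x(i+1),x i)) + D`;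
the first alternative contradicts `h2` for `i`, the second is the claim.
`lg_int`: apply `lg_b` to `fun a : ℕ => x (i + a)`.
`lg_len`: by induction on `l - i` from `lg_a` in the form `d(x i,x (l+1)) ≥ d(x i,x l) + d(x l,x(l+1)) - k - D` (if `l > i`).
-/

set_option autoImplicit false

namespace Pool.SC

variable {X : Type}

/-- a metric with values in `ℕ` and the four point condition with constant `D` -/
structure Hyp4 (d : X → X → ℕ) (D : ℕ) : Prop where
  zero : ∀ x, d x x = 0
  eq : ∀ x y, d x y = 0 → x = y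
  symm : ∀ x y, d x y = d y x
  tri : ∀ x y z, d x z ≤ d x y + d y z
  four : ∀ x y z w, d x y + d z w ≤ max (d x z + d y w) (d x w + d y z) + D

/-- `y` is `k`-between `x` and `z` -/
def Bt (d : X → X → ℕ) (k : ℕ) (x y z : X) : Prop := d x y + d y z ≤ d x z + k

variable {d : X → X → ℕ} {D : ℕ}

theorem Bt.symm (h : Hyp4 d D) {k : ℕ} {x y z : X} (hb : Bt d k x y z) : Bt d k z y x := by
  unfold Bt at *
  rw [h.symm z y, h.symm y x, h.symm z x]
  omega

theorem Bt.mono {k k' : ℕ} {x y z : X} (hb : Bt d k x y z) (hk : k ≤ k') : Bt d k' x y z := by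
  unfold Bt at *
  omega

/-- moving the end points and the middle point -/
theorem Bt.move (h : Hyp4 d D) {k : ℕ} {x y z x' y' z' : X} (hb : Bt d k x y z) :
    Bt d (k + 2 * d x x' + 2 * d y y' + 2 * d z z') x' y' z' := by
  unfold Bt at *
  have e1 := h.tri x' x y'
  have e2 := h.tri x y y'
  have e3 := h.tri y' y z'
  have e4 := h.tri y z z'
  have e5 := h.tri x x' z
  have e6 := h.tri x' z' z
  have s1 := h.symm x' x
  have s2 := h.symm y' y
  have s3 := h.symm z' z
  omega

theorem lg_a (h : Hyp4 d D) (k n : ℕ) (x : ℕ → X)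
    (h1 : ∀ i, 0 < i → i < n → Bt d k (x (i - 1)) (x i) (x (i + 1)))
    (h2 : ∀ i, 0 < i → i + 1 < n → 2 * k + 3 * D < 2 * d (x i) (x (i + 1))) :
    ∀ i, 0 < i → i < n → Bt d (k + D) (x 0) (x i) (x (i + 1)) := by
  intro i
  induction i with
  | zero => intro h0; exact absurd h0 (lt_irrefl _)
  | succ j ih =>
    intro _ hj
    rcases Nat.eq_zero_or_pos j with hj0 | hj0
    · subst hj0
      exact (h1 1 one_pos hj).mono (Nat.le_add_right _ _)
    · have e1 := ih hj0 (by omega)
      have e2 := h1 (j + 1) (Nat.succ_pos _) hj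
      have e3 := h2 j hj0 hj
      have e4 := h.four (x j) (x (j + 1 + 1)) (x 0) (x (j + 1))
      rw [Nat.add_sub_cancel] at e2
      unfold Bt at *
      have s1 := h.symm (x j) (x 0)
      have s2 := h.symm (x (j + 1 + 1)) (x (j + 1))
      have s3 := h.symm (x (j + 1 + 1)) (x 0)
      omega

theorem lg_b (h : Hyp4 d D) (k n : ℕ) (x : ℕ → X)
    (h1 : ∀ i, 0 < i → i < n → Bt d k (x (i - 1)) (x i) (x (i + 1)))
    (h2 : ∀ i, 0 < i → i + 1 < n → 2 * k + 3 * D < 2 * d (x i) (x (i + 1))) :
    ∀ i, i ≤ n → Bt d (k + 2 * D) (x 0) (x i) (x n) := by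
  intro i hi
  rcases Nat.eq_zero_or_pos i with h0 | h0
  · subst h0
    unfold Bt
    rw [h.zero]
    omega
  rcases Nat.lt_or_ge (i + 1) n with hn | hn
  · have e1 := lg_a h k n x h1 h2 i h0 (by omega)
    have e2 := lg_a h k n (fun j => x (n - j)) (fun j hj hjn => by
      have := (h1 (n - j) (by omega) (by omega)).symm h
      have a1 : n - (j - 1) = n - j + 1 := by omega
      have a2 : n - (j + 1) = n - j - 1 := by omega
      rw [a1, a2]
      exact this) (fun j hj hjn => by
      have := h2 (n - (j + 1)) (by omega) (by omega)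
      have a1 : n - (j + 1) + 1 = n - j := by omega
      rw [a1] at this
      rw [h.symm (x (n - j))]
      exact this) (n - (i + 1)) (by omega) (by omega)
    have e3 := h2 i h0 hn
    have e4 := h.four (x 0) (x (i + 1)) (x i) (x n)
    have a1 : n - 0 = n := rfl
    have a2 : n - (n - (i + 1)) = i + 1 := by omega
    have a3 : n - (n - (i + 1) + 1) = i := by omega
    rw [a1, a2, a3] at e2
    unfold Bt at *
    have s1 := h.symm (x n) (x (i + 1))
    have s2 := h.symm (x (i + 1)) (x i)
    have s3 := h.symm (x n) (x i)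
    omega
  · rcases Nat.lt_or_ge i n with hn2 | hn2
    · have e1 := lg_a h k n x h1 h2 i h0 hn2
      have : i + 1 = n := by omega
      rw [this] at e1
      exact e1.mono (by omega)
    · have : i = n := le_antisymm hi hn2
      subst this
      unfold Bt
      rw [h.zero]
      omega

theorem lg_int (h : Hyp4 d D) (k : ℕ) (x : ℤ → X) (h1 : ∀ i, Bt d k (x (i - 1)) (x i) (x (i + 1)))
    (h2 : ∀ i, 2 * k + 3 * D < 2 * d (x i) (x (i + 1))) :
    ∀ i j l, i ≤ j → j ≤ l → Bt d (k + 2 * D) (x i) (x j) (x l) := by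
  intro i j l hij hjl
  have e := lg_b h k (l - i).toNat (fun a : ℕ => x (i + a)) (fun a ha _ => by
    have := h1 (i + a)
    have a1 : i + (a : ℤ) - 1 = i + ((a - 1 : ℕ) : ℤ) := by omega
    have a2 : i + (a : ℤ) + 1 = i + ((a + 1 : ℕ) : ℤ) := by omega
    rw [a1, a2] at this
    exact this) (fun a _ _ => by
    have := h2 (i + a)
    have a2 : i + (a : ℤ) + 1 = i + ((a + 1 : ℕ) : ℤ) := by omega
    rw [a2] at this
    exact this) (j - i).toNat (by omega)
  have a1 : i + ((0 : ℕ) : ℤ) = i := by simp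
  have a2 : i + ((j - i).toNat : ℤ) = j := by omega
  have a3 : i + ((l - i).toNat : ℤ) = l := by omega
  rw [a1, a2, a3] at e
  exact e

/-- the length of a broken line -/
theorem lg_len (h : Hyp4 d D) (k e : ℕ) (x : ℤ → X) (h1 : ∀ i, Bt d k (x (i - 1)) (x i) (x (i + 1)))
    (h2 : ∀ i, 2 * k + 3 * D < 2 * d (x i) (x (i + 1))) (h3 : ∀ i, e ≤ d (x i) (x (i + 1))) (h4 : 2 * (k + D) ≤ e) :
    ∀ (i : ℤ) (a : ℕ), a * e ≤ 2 * d (x i) (x (i + a)) := by
  intro i a
  induction a with
  | zero => simp
  | succ a ih =>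
    rcases Nat.eq_zero_or_pos a with h0 | h0
    · subst h0
      have := h3 i
      have a1 : i + ((0 + 1 : ℕ) : ℤ) = i + 1 := by simp
      rw [a1]
      omega
    · have e1 := lg_a h k (a + 1) (fun b : ℕ => x (i + b)) (fun b hb _ => by
        have := h1 (i + b)
        have a1 : i + (b : ℤ) - 1 = i + ((b - 1 : ℕ) : ℤ) := by omega
        have a2 : i + (b : ℤ) + 1 = i + ((b + 1 : ℕ) : ℤ) := by omega
        rw [a1, a2] at this
        exact this) (fun b _ _ => by
        have := h2 (i + b)
        have a2 : i + (b : ℤ) + 1 = i + ((b + 1 : ℕ) : ℤ) := by omega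
        rw [a2] at this
        exact this) a h0 (Nat.lt_succ_self a)
      have e2 := h3 (i + a)
      have a2 : i + (a : ℤ) + 1 = i + ((a + 1 : ℕ) : ℤ) := by omega
      rw [a2] at e2
      have a1 : i + ((0 : ℕ) : ℤ) = i := by simp
      rw [a1] at e1
      unfold Bt at e1
      have e3 : (a + 1) * e = a * e + e := by ring
      rw [e3]
      omega

end Pool.SC
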