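import Pool.Agent.Lib.MP_565fc2_lc.SC.G1

/-!
# SC-G2: points between the ends of a chain; nearest points

PROOFS.
`exists_step` (discrete intermediate value): `f : ℕ → ℕ`, `f 0 ≤ c`, `c < f n`, `f (i+1) ≤ f i + l`: the last `i < n` with `f i ≤ c` has
`c ≤ f i + l` (and `c < f (i+1)`).
`ft`: `f i = d (x 0) (x i)`.  If `d (x 0) z ≥ d (x 0) (x n)` take `i = n` (`d z (x n) ≤ m` from `hz`).  Otherwise `exists_step` with
`c = d (x 0) z` gives `i` with `f i ≤ c ≤ f i + l`; apply `four` with the pairs `(z, x i), (x 0, x n)`: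
`d z (x i) + d (x 0) (x n) ≤ max (d z (x 0) + d (x i) (x n)) (d z (x n) + d (x i) (x 0)) + D`.
`ncc`: let `R = d(a,α) + d(α,x n) - d(a,x n)` (`≥ 0`).  If `R ≤ 2 l` nothing to do.  `2 * d(α,x n) ≥ R`.  Take `i` = the last index `≤ n` with
`2 * d(α,x i) ≤ R` (exists: `i = 0`); then `R ≤ 2 * d(α,x i) + 2 l` (if `i = n` because `2 d(α,x n) ≥ R`, otherwise because
`2 * d(α,x (i+1)) > R`).  Apply `four` with the pairs `(a, x i), (α, x n)`:
`d(a,x i) + d(α,x n) ≤ max (d(a,α) + d(x i,x n)) (d(a,x n) + d(x i,α)) + D`, together with `d(a,x i) ≥ d(a,α)`,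
`d(α,x i) + d(x i,x n) ≤ d(α,x n) + k`.  First alternative: `d(a,α) + d(α,x n) ≤ d(a,x i) + d(α,x n) ≤ d(a,α) + d(x i,x n) + D ≤
d(a,α) + d(α,x n) + k - d(α,x i) + D`, so `d(α,x i) ≤ k + D`, `R ≤ 2 (k + D) + 2 l`.  Second alternative: `d(a,α) + d(α,x n) ≤
d(a,x n) + d(α,x i) + D`, so `R ≤ d(α,x i) + D ≤ R/2 + D`, `R ≤ 2 D`.
-/

set_option autoImplicit false

namespace Pool.SC

variable {X : Type} {d : X → X → ℕ} {D : ℕ}

theorem exists_step (f : ℕ → ℕ) (n c l : ℕ) (h0 : f 0 ≤ c) (hn : c < f n) (hs : ∀ i, i < n → f (i + 1) ≤ f i + l) :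
    ∃ i, i < n ∧ f i ≤ c ∧ c < f (i + 1) ∧ c ≤ f i + l := by
  classical
  have hex : ∃ j, c < f j := ⟨n, hn⟩
  obtain ⟨j, hj1, hj2, hj3⟩ : ∃ j, c < f j ∧ (∀ i, i < j → ¬ c < f i) ∧ j ≤ n :=
    ⟨Nat.find hex, Nat.find_spec hex, fun i hi => Nat.find_min hex hi, Nat.find_min' hex hn⟩
  have hj0 : j ≠ 0 := by
    intro h
    rw [h] at hj1
    omega
  obtain ⟨i, rfl⟩ := Nat.exists_eq_succ_of_ne_zero hj0
  have h1 := hj2 i (Nat.lt_succ_self i)
  have h2 := hs i (by omega)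
  have hj1' : c < f (i + 1) := hj1
  exact ⟨i, by omega, by omega, hj1', by omega⟩

theorem ft (h : Hyp4 d D) (k m l n : ℕ) (x : ℕ → X) (z : X) (h1 : ∀ i, i ≤ n → Bt d k (x 0) (x i) (x n))
    (h2 : ∀ i, i < n → d (x i) (x (i + 1)) ≤ l) (hz : Bt d m (x 0) z (x n)) :
    ∃ i, i ≤ n ∧ d z (x i) ≤ max k m + l + D := by
  have hz' : d (x 0) z + d z (x n) ≤ d (x 0) (x n) + m := hz
  by_cases hc : d (x 0) (x n) ≤ d (x 0) z
  · exact ⟨n, le_rfl, by omega⟩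
  · obtain ⟨i, hi1, hi2, hi3, hi4⟩ := exists_step (fun i => d (x 0) (x i)) n (d (x 0) z) l
      (by simp [h.zero]) (by simpa using hc)
      (fun i hi => le_trans (h.tri (x 0) (x i) (x (i + 1))) (Nat.add_le_add_left (h2 i hi) _))
    have h4 := h.four z (x i) (x 0) (x n)
    have hb : d (x 0) (x i) + d (x i) (x n) ≤ d (x 0) (x n) + k := h1 i (by omega)
    have hs1 := h.symm z (x 0)
    have hs2 := h.symm (x i) (x 0)
    exact ⟨i, by omega, by omega⟩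

theorem ncc (h : Hyp4 d D) (k l n : ℕ) (x : ℕ → X) (a : X) (h0 : ∀ i, i ≤ n → d a (x 0) ≤ d a (x i))
    (h1 : ∀ i, i ≤ n → Bt d k (x 0) (x i) (x n)) (h2 : ∀ i, i < n → d (x i) (x (i + 1)) ≤ l) :
    Bt d (4 * l + 2 * k + 2 * D) a (x 0) (x n) := by
  show d a (x 0) + d (x 0) (x n) ≤ d a (x n) + (4 * l + 2 * k + 2 * D)
  by_contra hcon
  have ht1 := h.tri (x 0) a (x n)
  have hsa := h.symm (x 0) a
  have ht2 := h.tri a (x 0) (x n)
  have ht3 := h.tri a (x n) (x 0)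
  have hsn := h.symm (x n) (x 0)
  -- an index `i` with `2 d(α, x i) ≤ R ≤ 2 d(α, x i) + 2 l`
  obtain ⟨i, hi1, hi2, hi3⟩ : ∃ i, i ≤ n ∧
      2 * d (x 0) (x i) + d a (x n) ≤ d a (x 0) + d (x 0) (x n) ∧
      d a (x 0) + d (x 0) (x n) ≤ 2 * d (x 0) (x i) + d a (x n) + 2 * l := by
    by_cases hc : 2 * d (x 0) (x n) + d a (x n) ≤ d a (x 0) + d (x 0) (x n)
    · exact ⟨n, le_rfl, hc, by omega⟩
    · obtain ⟨i, hi1, hi2, hi3, hi4⟩ := exists_step (fun i => 2 * d (x 0) (x i)) n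
        (d a (x 0) + d (x 0) (x n) - d a (x n)) (2 * l)
        (by simp [h.zero]) (by show _ < 2 * d (x 0) (x n); omega)
        (fun i hi => by
          have e1 := h.tri (x 0) (x i) (x (i + 1))
          have e2 := h2 i hi
          show 2 * d (x 0) (x (i + 1)) ≤ 2 * d (x 0) (x i) + 2 * l
          omega)
      exact ⟨i, by omega, by omega, by omega⟩
  have h4 := h.four a (x i) (x 0) (x n)
  have hb : d (x 0) (x i) + d (x i) (x n) ≤ d (x 0) (x n) + k := h1 i hi1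
  have hs2 := h.symm (x i) (x 0)
  have hm := h0 i hi1
  omega

end Pool.SC
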