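import Pool.Agent.Lib.MP_565fc2_lc.SC.G2

/-!
# SC-G3: the pseudometric `oA` of a subset; sets with nearest point control

`oA d A a b` = supremum over `p, q ∈ A` of `d(a,p) + d(b,q) - d(a,q) - d(b,p)` (it is at most `2 d(a,b)`, so it is a maximum).
PROOFS.  `oA_le_iff`-type facts: the set `{n | ∃ p ∈ A, ∃ q ∈ A, d a q + d b p + n = d a p + d b q}` is bounded by `2 d(a,b)`
(triangle inequality) and contains `0` (if `A` is nonempty), so its supremum is attained (`Nat.sSup_mem`) and `le_oA` holds (`le_csSup`).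
`oA_tri`: attained at `(p,q)` for `(a,c)`, use `le_oA` for `(a,b)` and `(b,c)` (if `d a p + d b q < d a q + d b p` the bound is trivial: use
truncated subtraction / omega).  `oA_mem`: `p = b, q = a`.  `oA_map`: the defining sets coincide (bijection `p ↦ g p` on `A`).
`nc_oA`: `f p = d(a,p) - d(α,p)` satisfies `d(a,α) - c ≤ f p ≤ d(a,α)` for `p ∈ A`, so `oA ≤ c`.
`nc_two`: triangle inequality with `nc_oA` and `oA_mem`.
`nc_long`: `d(α,β) > c + D`, `Bt c a α β`, `Bt c b β α`: `four` with the pairs `(a, β), (α, b)`: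
`d(a,β) + d(α,b) ≤ max (d(a,α) + d(β,b)) (d(a,b) + d(β,α)) + D`; the first alternative is impossible.
`nc_bt`: from `nc_long`, `d(α,b) ≤ d(α,β) + d(β,b)`.
-/

set_option autoImplicit false

namespace Pool.SC

open Set

noncomputable section

variable {X : Type}

/-- twice the distance of the projections of `a` and `b` to `A` -/
def oA (d : X → X → ℕ) (A : Set X) (a b : X) : ℕ :=
  sSup {n | ∃ p ∈ A, ∃ q ∈ A, d a q + d b p + n = d a p + d b q}

/-- `α` is a nearest point of `A` to `a` -/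
def Near (d : X → X → ℕ) (A : Set X) (a α : X) : Prop := α ∈ A ∧ ∀ p ∈ A, d a α ≤ d a p

/-- nearest point control -/
def NC (d : X → X → ℕ) (A : Set X) (c : ℕ) : Prop := ∀ a α, Near d A a α → ∀ p ∈ A, Bt d c a α p

variable {d : X → X → ℕ} {D : ℕ} {A : Set X}

theorem exists_near (d : X → X → ℕ) (hA : A.Nonempty) (a : X) : ∃ α, Near d A a α := by
  classical
  obtain ⟨p0, hp0⟩ := hA
  have hex : ∃ n, ∃ p ∈ A, d a p = n := ⟨_, p0, hp0, rfl⟩
  obtain ⟨p, hp, hpn⟩ := Nat.find_spec hex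
  exact ⟨p, hp, fun q hq => by rw [hpn]; exact Nat.find_min' hex ⟨q, hq, rfl⟩⟩

theorem oA_bdd (h : Hyp4 d D) (A : Set X) (a b : X) :
    ∀ n ∈ {n | ∃ p ∈ A, ∃ q ∈ A, d a q + d b p + n = d a p + d b q}, n ≤ 2 * d a b := by
  rintro n ⟨p, -, q, -, hn⟩
  have h1 := h.tri a b p
  have h2 := h.tri b a q
  have h3 := h.symm b a
  omega

theorem oA_le (h : Hyp4 d D) (hA : A.Nonempty) {a b : X} {t : ℕ}
    (ht : ∀ p ∈ A, ∀ q ∈ A, d a p + d b q ≤ d a q + d b p + t) : oA d A a b ≤ t := by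
  obtain ⟨p0, hp0⟩ := hA
  have hne : {n | ∃ p ∈ A, ∃ q ∈ A, d a q + d b p + n = d a p + d b q}.Nonempty :=
    ⟨0, p0, hp0, p0, hp0, by omega⟩
  have hb : BddAbove {n | ∃ p ∈ A, ∃ q ∈ A, d a q + d b p + n = d a p + d b q} :=
    ⟨2 * d a b, fun n hn => oA_bdd h A a b n hn⟩
  obtain ⟨p, hp, q, hq, hn⟩ := Nat.sSup_mem hne hb
  have := ht p hp q hq
  unfold oA
  omega

theorem le_oA (h : Hyp4 d D) {a b p q : X} (hp : p ∈ A) (hq : q ∈ A) :
    d a p + d b q ≤ d a q + d b p + oA d A a b := by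
  by_cases hc : d a p + d b q ≤ d a q + d b p
  · omega
  · have hb : BddAbove {n | ∃ p ∈ A, ∃ q ∈ A, d a q + d b p + n = d a p + d b q} :=
      ⟨2 * d a b, fun n hn => oA_bdd h A a b n hn⟩
    have hm : (d a p + d b q - (d a q + d b p)) ∈
        {n | ∃ p ∈ A, ∃ q ∈ A, d a q + d b p + n = d a p + d b q} :=
      ⟨p, hp, q, hq, by omega⟩
    have := le_csSup hb hm
    unfold oA
    omega

theorem oA_self (h : Hyp4 d D) (hA : A.Nonempty) (a : X) : oA d A a a = 0 := by
  have := oA_le (t := 0) h hA (a := a) (b := a) (fun p _ q _ => by omega)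
  omega

theorem oA_symm (A : Set X) (a b : X) : oA d A a b = oA d A b a := by
  unfold oA
  congr 1
  ext n
  constructor
  · rintro ⟨p, hp, q, hq, hn⟩
    exact ⟨q, hq, p, hp, by omega⟩
  · rintro ⟨p, hp, q, hq, hn⟩
    exact ⟨q, hq, p, hp, by omega⟩

theorem oA_tri (h : Hyp4 d D) (hA : A.Nonempty) (a b c : X) : oA d A a c ≤ oA d A a b + oA d A b c := by
  refine oA_le h hA fun p hp q hq => ?_
  have h1 := le_oA h (a := a) (b := b) hp hq
  have h2 := le_oA h (a := b) (b := c) hp hq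
  omega

theorem oA_le_two (h : Hyp4 d D) (hA : A.Nonempty) (a b : X) : oA d A a b ≤ 2 * d a b := by
  refine oA_le h hA fun p _ q _ => ?_
  have h1 := h.tri a b p
  have h2 := h.tri b a q
  have h3 := h.symm b a
  omega

theorem oA_mem (h : Hyp4 d D) {a b : X} (ha : a ∈ A) (hb : b ∈ A) : oA d A a b = 2 * d a b := by
  have h1 := oA_le_two h ⟨a, ha⟩ a b
  have h2 := le_oA h (a := a) (b := b) hb ha
  have h3 := h.symm b a
  have h4 := h.zero a
  have h5 := h.zero b
  omega

theorem oA_map (g : X → X) (hg : ∀ x y, d (g x) (g y) = d x y) (a b : X) :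
    oA d (g '' A) (g a) (g b) = oA d A a b := by
  unfold oA
  congr 1
  ext n
  constructor
  · rintro ⟨_, ⟨p, hp, rfl⟩, _, ⟨q, hq, rfl⟩, hn⟩
    exact ⟨p, hp, q, hq, by simpa only [hg] using hn⟩
  · rintro ⟨p, hp, q, hq, hn⟩
    exact ⟨g p, ⟨p, hp, rfl⟩, g q, ⟨q, hq, rfl⟩, by simpa only [hg] using hn⟩

theorem nc_oA (h : Hyp4 d D) {c : ℕ} (hA : NC d A c) {a α : X} (hα : Near d A a α) : oA d A a α ≤ c := by
  refine oA_le h ⟨α, hα.1⟩ fun p hp q hq => ?_
  have h1 := h.tri a α p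
  have h2 := hA a α hα q hq
  unfold Bt at h2
  omega

theorem nc_two (h : Hyp4 d D) {c : ℕ} (hA : NC d A c) {a b α β : X} (hα : Near d A a α) (hβ : Near d A b β) :
    oA d A a b ≤ 2 * d α β + 2 * c ∧ 2 * d α β ≤ oA d A a b + 2 * c := by
  have hne : A.Nonempty := ⟨α, hα.1⟩
  have ha := nc_oA h hA hα
  have hb := nc_oA h hA hβ
  have hm := oA_mem h hα.1 hβ.1
  have t1 := oA_tri h hne a α b
  have t2 := oA_tri h hne α β b
  have t3 := oA_tri h hne α a β
  have t4 := oA_tri h hne a b β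
  have s1 := oA_symm (d := d) A a α
  have s2 := oA_symm (d := d) A b β
  omega

theorem nc_long (h : Hyp4 d D) {c : ℕ} (hA : NC d A c) {a b α β : X} (hα : Near d A a α) (hβ : Near d A b β)
    (hl : c + D < d α β) : d a α + d α β + d β b ≤ d a b + 2 * c + D := by
  have h1 := hA a α hα β hβ.1
  have h2 := hA b β hβ α hα.1
  unfold Bt at h1 h2
  have h4 := h.four a β α b
  have s1 := h.symm β α
  have s2 := h.symm b β
  have s3 := h.symm b α
  rcases le_total (d a α + d β b) (d a b + d β α) with hm | hm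
  · rw [max_eq_right hm] at h4
    omega
  · rw [max_eq_left hm] at h4
    omega

theorem nc_bt (h : Hyp4 d D) {c : ℕ} (hA : NC d A c) {a b α β : X} (hα : Near d A a α) (hβ : Near d A b β)
    (hl : c + D < d α β) : Bt d (2 * c + D) a α b ∧ Bt d (2 * c + D) a β b := by
  have h1 := nc_long h hA hα hβ hl
  have t1 := h.tri α β b
  have t2 := h.tri a α β
  unfold Bt
  omega

/-- the Behrstock inequality.  PROOF: `α ∈ A`, `β ∈ B` nearest to `a`; say `d(a,α) ≤ d(a,β)` (then the second alternative holds; the other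
case is symmetric).  `β' ∈ B` nearest to `α`: if `d(β,β') > c + D`, `nc_long` for `B` and `a, α` gives
`d(a,β) + d(β,β') + d(β',α) ≤ d(a,α) + 2c + D`, so in all cases `d(β,β') ≤ 2c + D`, `oA B a α ≤ 2 (2c + D) + 2c` by `nc_two`;
triangle inequality. -/
theorem behr (h : Hyp4 d D) {B : Set X} {c t : ℕ} (hA : NC d A c) (hB : NC d B c) (hAn : A.Nonempty) (hBn : B.Nonempty)
    (h1 : ∀ z ∈ B, ∀ z' ∈ B, oA d A z z' ≤ t) (h2 : ∀ z ∈ A, ∀ z' ∈ A, oA d B z z' ≤ t) (a : X) :
    (∀ z ∈ B, oA d A a z ≤ t + 6 * c + 2 * D) ∨ (∀ z ∈ A, oA d B a z ≤ t + 6 * c + 2 * D) := by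
  obtain ⟨α, hα⟩ := exists_near d hAn a
  obtain ⟨β, hβ⟩ := exists_near d hBn a
  rcases le_total (d a α) (d a β) with hle | hle
  · right
    intro z hz
    obtain ⟨β', hβ'⟩ := exists_near d hBn α
    have hd : d β β' ≤ 2 * c + D := by
      by_contra hcon
      have := nc_long h hB hβ hβ' (by omega)
      have s1 := h.symm β' α
      omega
    have h3 := (nc_two h hB hβ hβ').1
    have h4 := h2 α hα.1 z hz
    have h5 := oA_tri h hBn a α z
    omega
  · left
    intro z hz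
    obtain ⟨α', hα'⟩ := exists_near d hAn β
    have hd : d α α' ≤ 2 * c + D := by
      by_contra hcon
      have := nc_long h hA hα hα' (by omega)
      have s1 := h.symm α' β
      omega
    have h3 := (nc_two h hA hα hα').1
    have h4 := h1 β hβ.1 z hz
    have h5 := oA_tri h hAn a β z
    omega

end

end Pool.SC
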