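import Mathlib

/-!
# SC-P1: abstract projection systems, the chain lemma

`Y` indices, `V` vertices, `e : Y → V` the inclusion, `p y u v` the distance of the projections of `u, v` to `y`.
The values `p y u v` with `u = e y` or `v = e y` are junk.

PROOFS.  All chain statements are for `Z : ℕ → V`, `y : ℕ → Y`, `Z i = e (y i)` for `0 < i < n`, consecutive members different and
`3 th < p (y i) (Z (i-1)) (Z (i+1))` for `0 < i < n`.
`ch_left`: for all `i < j ≤ n`: `Z i ≠ Z j`, and if `j < n` then `p (y j) (Z (j-1)) (Z i) ≤ th`.  Induction on `j - i` (or on `j` for fixed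
`i`).  `j = i + 1`: consecutive; `self`.  `j > i + 1`: by induction (for `j - 1`) `Z i ≠ Z (j-1)` and `p (y (j-1)) (Z (j-2)) (Z i) ≤ th`, so
`p (y (j-1)) (Z i) (Z j) ≥ p (y (j-1)) (Z (j-2)) (Z j) - th > 2 th`  (`tri`, `symm`); if `Z i = Z j` this contradicts `self`; so `Z i ≠ Z j`, and for
`j < n` `beh` (with `y (j-1)`, `y j`, `u = Z i`) excludes `p (y (j-1)) (Z i) (e (y j)) ≤ th`, so `p (y j) (Z i) (e (y (j-1))) ≤ th`.
`ch_right`: mirror image (apply `ch_left` to `fun i => Z (n - i)`).
`ch_mid`, `ch_side`: triangle inequality.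
-/

set_option autoImplicit false

namespace Pool.SC

/-- abstract projection system -/
structure PS (Y V : Type) where
  e : Y → V
  inj : Function.Injective e
  p : Y → V → V → ℕ
  th : ℕ
  symm : ∀ y u v, p y u v = p y v u
  tri : ∀ y u v w, u ≠ e y → v ≠ e y → w ≠ e y → p y u w ≤ p y u v + p y v w
  self : ∀ y u, u ≠ e y → p y u u ≤ th
  beh : ∀ y z u, y ≠ z → u ≠ e y → u ≠ e z → p y u (e z) ≤ th ∨ p z u (e y) ≤ th

variable {Y V : Type} (R : PS Y V)

/-- a chain with local projections larger than `c` -/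
structure Chain (c n : ℕ) (Z : ℕ → V) (y : ℕ → Y) : Prop where
  ind : ∀ i, 0 < i → i < n → Z i = R.e (y i)
  ne : ∀ i, i < n → Z i ≠ Z (i + 1)
  big : ∀ i, 0 < i → i < n → c < R.p (y i) (Z (i - 1)) (Z (i + 1))

variable {R}

/-- the reversed chain -/
theorem Chain.rev {c n : ℕ} {Z : ℕ → V} {y : ℕ → Y} (h : Chain R c n Z y) :
    Chain R c n (fun i => Z (n - i)) (fun i => y (n - i)) := by
  refine ⟨fun i h0 hi => h.ind (n - i) (by omega) (by omega), fun i hi => ?_, fun i h0 hi => ?_⟩
  · have := h.ne (n - (i + 1)) (by omega)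
    rw [show n - (i + 1) + 1 = n - i by omega] at this
    exact fun hh => this hh.symm
  · have := h.big (n - i) (by omega) (by omega)
    rw [R.symm, show n - i - 1 = n - (i + 1) by omega, show n - i + 1 = n - (i - 1) by omega] at this
    exact this

theorem Chain.mono {c c' n : ℕ} {Z : ℕ → V} {y : ℕ → Y} (h : Chain R c n Z y) (hc : c' ≤ c) : Chain R c' n Z y := by
  exact ⟨h.ind, h.ne, fun i h0 hi => lt_of_le_of_lt hc (h.big i h0 hi)⟩

theorem ch_left {n : ℕ} {Z : ℕ → V} {y : ℕ → Y} (h : Chain R (3 * R.th) n Z y) :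
    ∀ i j, i < j → j ≤ n → Z i ≠ Z j ∧ (j < n → R.p (y j) (Z (j - 1)) (Z i) ≤ R.th) := by
  intro i j
  induction j with
  | zero => intro hi; omega
  | succ j ih =>
    intro hij hjn
    rcases Nat.lt_or_ge i j with hlt | hge
    · obtain ⟨hne, hp⟩ := ih hlt (by omega)
      have hp := hp (by omega)
      have hj0 : 0 < j := by omega
      have hind := h.ind j hj0 (by omega)
      have hbig := h.big j hj0 (by omega)
      have h1 : Z (j - 1) ≠ R.e (y j) := by
        rw [← hind]
        have := h.ne (j - 1) (by omega)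
        rwa [show j - 1 + 1 = j by omega] at this
      have h2 : Z (j + 1) ≠ R.e (y j) := by
        rw [← hind]; exact fun hh => h.ne j (by omega) hh.symm
      have h3 : Z i ≠ R.e (y j) := by rw [← hind]; exact hne
      have htri := R.tri (y j) _ _ _ h1 h3 h2
      have hgt : 2 * R.th < R.p (y j) (Z i) (Z (j + 1)) := by omega
      have hne' : Z i ≠ Z (j + 1) := by
        intro hh
        rw [← hh] at hgt
        have := R.self (y j) (Z i) h3
        omega
      refine ⟨hne', fun hj => ?_⟩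
      have hind' := h.ind (j + 1) (by omega) hj
      have hyy : y j ≠ y (j + 1) := by
        intro hh
        apply h.ne j (by omega)
        rw [hind, hind', hh]
      rcases R.beh (y j) (y (j + 1)) (Z i) hyy h3 (by rw [← hind']; exact hne') with hb | hb
      · rw [← hind'] at hb; omega
      · rw [← hind, R.symm] at hb
        exact hb
    · have hij' : i = j := by omega
      subst hij'
      refine ⟨h.ne i (by omega), fun hj => ?_⟩
      have hind' := h.ind (i + 1) (by omega) hj
      exact R.self _ _ (by rw [← hind']; exact h.ne i (by omega))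

theorem ch_right {n : ℕ} {Z : ℕ → V} {y : ℕ → Y} (h : Chain R (3 * R.th) n Z y) :
    ∀ i j, 0 < i → i < j → j ≤ n → R.p (y i) (Z (i + 1)) (Z j) ≤ R.th := by
  intro i j h0 hij hjn
  have := (ch_left h.rev (n - j) (n - i) (by omega) (by omega)).2 (by omega)
  rwa [show n - (n - i) = i by omega, show n - (n - i - 1) = i + 1 by omega,
    show n - (n - j) = j by omega] at this

theorem ch_mid {n : ℕ} {Z : ℕ → V} {y : ℕ → Y} (h : Chain R (3 * R.th) n Z y) (i j l : ℕ) (hij : i < j) (hjl : j < l)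
    (hl : l ≤ n) :
    R.p (y j) (Z (j - 1)) (Z (j + 1)) ≤ R.p (y j) (Z i) (Z l) + 2 * R.th ∧
      R.p (y j) (Z i) (Z l) ≤ R.p (y j) (Z (j - 1)) (Z (j + 1)) + 2 * R.th := by
  have hind := h.ind j (by omega) (by omega)
  have h1 : Z (j - 1) ≠ R.e (y j) := by
    rw [← hind]; exact (ch_left h (j - 1) j (by omega) (by omega)).1
  have h2 : Z (j + 1) ≠ R.e (y j) := by
    rw [← hind]; exact fun hh => h.ne j (by omega) hh.symm
  have h3 : Z i ≠ R.e (y j) := by
    rw [← hind]; exact (ch_left h i j hij (by omega)).1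
  have h4 : Z l ≠ R.e (y j) := by
    rw [← hind]; exact fun hh => (ch_left h j l hjl hl).1 hh.symm
  have a1 := (ch_left h i j hij (by omega)).2 (by omega)
  have a2 := ch_right h j l (by omega) hjl hl
  have s1 := R.symm (y j) (Z (j - 1)) (Z i)
  have s2 := R.symm (y j) (Z (j + 1)) (Z l)
  have t1 := R.tri (y j) _ _ _ h1 h3 h2
  have t2 := R.tri (y j) _ _ _ h3 h4 h2
  have t3 := R.tri (y j) _ _ _ h3 h1 h4
  have t4 := R.tri (y j) _ _ _ h1 h2 h4
  constructor <;> omega

theorem ch_side_left {n : ℕ} {Z : ℕ → V} {y : ℕ → Y} (h : Chain R (3 * R.th) n Z y) (i l j : ℕ) (hi : i < j) (hl : l < j)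
    (hj : j < n) : R.p (y j) (Z i) (Z l) ≤ 2 * R.th := by
  have hind := h.ind j (by omega) (by omega)
  have h1 : Z (j - 1) ≠ R.e (y j) := by
    rw [← hind]; exact (ch_left h (j - 1) j (by omega) (by omega)).1
  have h3 : Z i ≠ R.e (y j) := by
    rw [← hind]; exact (ch_left h i j hi (by omega)).1
  have h4 : Z l ≠ R.e (y j) := by
    rw [← hind]; exact (ch_left h l j hl (by omega)).1
  have a1 := (ch_left h i j hi (by omega)).2 hj
  have a2 := (ch_left h l j hl (by omega)).2 hj
  have s1 := R.symm (y j) (Z (j - 1)) (Z i)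
  have t3 := R.tri (y j) _ _ _ h3 h1 h4
  omega

theorem ch_side_right {n : ℕ} {Z : ℕ → V} {y : ℕ → Y} (h : Chain R (3 * R.th) n Z y) (i l j : ℕ) (h0 : 0 < j) (hi : j < i)
    (hl : j < l) (hin : i ≤ n) (hln : l ≤ n) : R.p (y j) (Z i) (Z l) ≤ 2 * R.th := by
  have hind := h.ind j h0 (by omega)
  have h1 : Z (j + 1) ≠ R.e (y j) := by
    rw [← hind]; exact fun hh => h.ne j (by omega) hh.symm
  have h3 : Z i ≠ R.e (y j) := by
    rw [← hind]; exact fun hh => (ch_left h j i hi hin).1 hh.symm
  have h4 : Z l ≠ R.e (y j) := by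
    rw [← hind]; exact fun hh => (ch_left h j l hl hln).1 hh.symm
  have a1 := ch_right h j i h0 hi hin
  have a2 := ch_right h j l h0 hl hln
  have s1 := R.symm (y j) (Z (j + 1)) (Z i)
  have t3 := R.tri (y j) _ _ _ h3 h1 h4
  omega

end Pool.SC
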