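import Pool.Agent.Lib.MP_565fc2_lc.SC.G3
import Pool.Agent.Lib.MP_565fc2_lc.SC.P1

/-!
# SC-G4: the projection system of a family of subsets (paper 2.4)

`SetSys`: subsets `A y`, nearest point control `c`, `oA`-diameter of `A z` seen from `A y` at most `t0` for `y ≠ z`.
Vertices `Y ⊕ X`, `vs (inl y) = A y`, `vs (inr x) = {x}`; `pp y u v` = supremum of `oA (A y) a b`, `a ∈ vs u`, `b ∈ vs v`.
PROOFS.  `pp_bdd`: for `u, v ≠ inl y` and fixed `a ∈ vs u`, `b ∈ vs v`: `oA a' b' ≤ oA a' a + oA a b + oA b b' ≤ oA a b + 2 t0` for all `a' ∈ vs u`, `b' ∈ vs v` (`ov`;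
for points `oA x x = 0`).  So the set is bounded and `le_pp`, `pp_le` hold.  Triangle inequality: the supremum is attained (bounded set of natural
numbers, nonempty).
`beh`: `u` a vertex different from `y ≠ z`, `a ∈ vs u`: `behr` (with `t = t0`) gives `∀ b ∈ A z, oA (A y) a b ≤ t0 + 6c + 2D` or the same with `y, z` exchanged;
then `pp y u (inl z) ≤ 2 t0 + 6 c + 2 D` (other points `a' ∈ vs u`: `oA (A y) a' a ≤ t0`).
`equi`: `gX` an isometry of `X` with `gX '' A y = A (gY y)`: `oA_map` and bijection of the sets `vs`.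
-/

set_option autoImplicit false

namespace Pool.SC

noncomputable section

/-- a family of subsets with nearest point control and bounded overlaps -/
structure SetSys (Y X : Type) (d : X → X → ℕ) (D : ℕ) where
  hyp : Hyp4 d D
  A : Y → Set X
  ne : ∀ y, (A y).Nonempty
  c : ℕ
  t0 : ℕ
  nc : ∀ y, NC d (A y) c
  ov : ∀ y z, y ≠ z → ∀ a ∈ A z, ∀ b ∈ A z, oA d (A y) a b ≤ t0

variable {Y X : Type} {d : X → X → ℕ} {D : ℕ} (Q : SetSys Y X d D)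

/-- the set of a vertex -/
def SetSys.vs : Y ⊕ X → Set X
  | Sum.inl y => Q.A y
  | Sum.inr x => {x}

/-- the distance of the projections -/
def SetSys.pp (y : Y) (u v : Y ⊕ X) : ℕ := sSup {n | ∃ a ∈ Q.vs u, ∃ b ∈ Q.vs v, n = oA d (Q.A y) a b}

private theorem SetSys.vs_ne (u : Y ⊕ X) : (Q.vs u).Nonempty := by
  cases u with
  | inl z => exact Q.ne z
  | inr x => exact ⟨x, rfl⟩

private theorem SetSys.vs_diam (y : Y) {u : Y ⊕ X} (hu : u ≠ Sum.inl y) {a a' : X} (ha : a ∈ Q.vs u)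
    (ha' : a' ∈ Q.vs u) : oA d (Q.A y) a a' ≤ Q.t0 := by
  cases u with
  | inl z => exact Q.ov y z (fun h => hu (by rw [h])) a ha a' ha'
  | inr x =>
    have h1 : a = x := ha
    have h2 : a' = x := ha'
    rw [h1, h2, oA_self Q.hyp (Q.ne y)]
    exact Nat.zero_le _

private theorem SetSys.move (y : Y) {u v : Y ⊕ X} (hu : u ≠ Sum.inl y) (hv : v ≠ Sum.inl y) {a b a' b' : X}
    (ha : a ∈ Q.vs u) (hb : b ∈ Q.vs v) (ha' : a' ∈ Q.vs u) (hb' : b' ∈ Q.vs v) :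
    oA d (Q.A y) a' b' ≤ oA d (Q.A y) a b + 2 * Q.t0 := by
  have h1 := oA_tri Q.hyp (Q.ne y) a' a b'
  have h2 := oA_tri Q.hyp (Q.ne y) a b b'
  have h3 := Q.vs_diam y hu ha' ha
  have h4 := Q.vs_diam y hv hb hb'
  omega

theorem SetSys.le_pp (y : Y) {u v : Y ⊕ X} (hu : u ≠ Sum.inl y) (hv : v ≠ Sum.inl y) {a b : X} (ha : a ∈ Q.vs u)
    (hb : b ∈ Q.vs v) : oA d (Q.A y) a b ≤ Q.pp y u v := by
  unfold SetSys.pp
  refine le_csSup ⟨oA d (Q.A y) a b + 2 * Q.t0, ?_⟩ ⟨a, ha, b, hb, rfl⟩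
  rintro n ⟨a', ha', b', hb', rfl⟩
  exact Q.move y hu hv ha hb ha' hb'

theorem SetSys.pp_le (y : Y) {u v : Y ⊕ X} {t : ℕ} (h : ∀ a ∈ Q.vs u, ∀ b ∈ Q.vs v, oA d (Q.A y) a b ≤ t) :
    Q.pp y u v ≤ t := by
  unfold SetSys.pp
  obtain ⟨a, ha⟩ := Q.vs_ne u
  obtain ⟨b, hb⟩ := Q.vs_ne v
  refine csSup_le ⟨_, a, ha, b, hb, rfl⟩ ?_
  rintro n ⟨a', ha', b', hb', rfl⟩
  exact h a' ha' b' hb'

theorem SetSys.pp_le_of (y : Y) {u v : Y ⊕ X} (hu : u ≠ Sum.inl y) (hv : v ≠ Sum.inl y) {a b : X} (ha : a ∈ Q.vs u)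
    (hb : b ∈ Q.vs v) : Q.pp y u v ≤ oA d (Q.A y) a b + 2 * Q.t0 :=
  Q.pp_le y fun _ ha' _ hb' => Q.move y hu hv ha hb ha' hb'

/-- the value for two points -/
theorem SetSys.pp_points (y : Y) (a b : X) : Q.pp y (Sum.inr a) (Sum.inr b) = oA d (Q.A y) a b := by
  refine le_antisymm (Q.pp_le y ?_) (Q.le_pp y (by simp) (by simp) (a := a) (b := b) rfl rfl)
  intro a' ha' b' hb'
  have h1 : a' = a := ha'
  have h2 : b' = b := hb'
  rw [h1, h2]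

private theorem SetSys.pp_symm (y : Y) (u v : Y ⊕ X) : Q.pp y u v = Q.pp y v u := by
  unfold SetSys.pp
  congr 1
  ext n
  constructor
  · rintro ⟨a, ha, b, hb, h⟩
    exact ⟨b, hb, a, ha, by rw [h, oA_symm]⟩
  · rintro ⟨a, ha, b, hb, h⟩
    exact ⟨b, hb, a, ha, by rw [h, oA_symm]⟩

private theorem SetSys.pp_tri (y : Y) (u v w : Y ⊕ X) (hu : u ≠ Sum.inl y) (hv : v ≠ Sum.inl y) (hw : w ≠ Sum.inl y) :
    Q.pp y u w ≤ Q.pp y u v + Q.pp y v w := by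
  refine Q.pp_le y fun a ha c hc => ?_
  obtain ⟨b, hb⟩ := Q.vs_ne v
  have h1 := oA_tri Q.hyp (Q.ne y) a b c
  have h2 := Q.le_pp y hu hv ha hb
  have h3 := Q.le_pp y hv hw hb hc
  omega

private theorem SetSys.pp_beh (y z : Y) (u : Y ⊕ X) (hyz : y ≠ z) (hu : u ≠ Sum.inl y) (hu' : u ≠ Sum.inl z) :
    Q.pp y u (Sum.inl z) ≤ 2 * Q.t0 + 6 * Q.c + 2 * D ∨ Q.pp z u (Sum.inl y) ≤ 2 * Q.t0 + 6 * Q.c + 2 * D := by
  obtain ⟨a, ha⟩ := Q.vs_ne u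
  rcases behr Q.hyp (Q.nc y) (Q.nc z) (Q.ne y) (Q.ne z) (Q.ov y z hyz) (Q.ov z y hyz.symm) a with h | h
  · left
    refine Q.pp_le y fun a' ha' b hb => ?_
    have h1 := oA_tri Q.hyp (Q.ne y) a' a b
    have h2 := Q.vs_diam y hu ha' ha
    have h3 := h b hb
    omega
  · right
    refine Q.pp_le z fun a' ha' b hb => ?_
    have h1 := oA_tri Q.hyp (Q.ne z) a' a b
    have h2 := Q.vs_diam z hu' ha' ha
    have h3 := h b hb
    omega

theorem SetSys.exists_ps : ∃ R : PS Y (Y ⊕ X), R.e = Sum.inl ∧ R.p = Q.pp ∧ R.th = 2 * Q.t0 + 6 * Q.c + 2 * D := by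
  refine ⟨⟨Sum.inl, Sum.inl_injective, Q.pp, 2 * Q.t0 + 6 * Q.c + 2 * D, Q.pp_symm, Q.pp_tri, ?_, Q.pp_beh⟩,
    rfl, rfl, rfl⟩
  intro y u hu
  refine Q.pp_le y fun a ha b hb => ?_
  have := Q.vs_diam y hu ha hb
  omega

/-- the projection system -/
def SetSys.ps : PS Y (Y ⊕ X) := Q.exists_ps.choose

theorem SetSys.ps_e : Q.ps.e = Sum.inl := Q.exists_ps.choose_spec.1

theorem SetSys.ps_p : Q.ps.p = Q.pp := Q.exists_ps.choose_spec.2.1

theorem SetSys.ps_th : Q.ps.th = 2 * Q.t0 + 6 * Q.c + 2 * D := Q.exists_ps.choose_spec.2.2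

theorem SetSys.equi (gX : X → X) (gY : Y → Y) (hg : ∀ x y, d (gX x) (gX y) = d x y)
    (hA : ∀ y, gX '' Q.A y = Q.A (gY y)) (y : Y) (u v : Y ⊕ X) :
    Q.pp (gY y) (Sum.map gY gX u) (Sum.map gY gX v) = Q.pp y u v := by
  have hvs : ∀ w : Y ⊕ X, Q.vs (Sum.map gY gX w) = gX '' Q.vs w := by
    intro w
    cases w with
    | inl z => exact (hA z).symm
    | inr x => exact (Set.image_singleton).symm
  unfold SetSys.pp
  rw [hvs, hvs, ← hA y]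
  congr 1
  ext n
  constructor
  · rintro ⟨_, ⟨a, ha, rfl⟩, _, ⟨b, hb, rfl⟩, h⟩
    exact ⟨a, ha, b, hb, by rw [h, oA_map gX hg]⟩
  · rintro ⟨a, ha, b, hb, h⟩
    exact ⟨gX a, ⟨a, ha, rfl⟩, gX b, ⟨b, hb, rfl⟩, by rw [h, oA_map gX hg]⟩

end

end Pool.SC
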