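import Pool.Agent.Lib.MP_565fc2_lc.SC.HLox

/-!
# SC-HCent (helper12): centralisers of undistorted elements
-/

namespace Pool.SC.H

open Function

variable {G : Type} [Group G] {S : Set G}

/-- some power of an undistorted element is normalised: `|h ^ 2| ≥ |h| + M` -/
theorem exists_norm_pow (hf : S.Finite) (hS : Subgroup.closure S = ⊤) {g : G} (hg : Lox g) (M : ℕ) :
    ∃ m : ℕ, 0 < m ∧ wl S (g ^ m) + M ≤ wl S ((g ^ m) ^ 2) := by
  by_contra hc
  push Not at hc
  obtain ⟨k, hk⟩ := lox_gen hg hf hS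
  have h1 : ∀ j : ℕ, wl S (g ^ 2 ^ j) ≤ wl S g + M * j := by
    intro j
    induction j with
    | zero => simp
    | succ j ih =>
      have h2 := hc (2 ^ j) (by positivity)
      rw [← pow_mul, ← pow_succ] at h2
      have h3 : M * (j + 1) = M * j + M := by ring
      omega
  set B := k * (wl S g + M) with hB
  have h2 : 2 ^ (2 * (2 * B)) ≤ B * (2 * (2 * B) + 1) := by
    have h3 := hk (2 ^ (2 * (2 * B)))
    have h4 := h1 (2 * (2 * B))
    refine h3.trans ?_
    rw [hB, mul_assoc]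
    refine Nat.mul_le_mul_left k (h4.trans ?_)
    have h5 : (wl S g + M) * (2 * (2 * B) + 1) = wl S g * (2 * (2 * B)) + wl S g + (M * (2 * (2 * B)) + M) := by
      ring
    rw [← hB, h5]
    have := Nat.zero_le (wl S g * (2 * (2 * B)))
    omega
  have h6 : 2 * B + 1 ≤ 2 ^ (2 * B) := Nat.lt_two_pow_self
  have h7 : 2 ^ (2 * (2 * B)) = 2 ^ (2 * B) * 2 ^ (2 * B) := by
    rw [← pow_add]; congr 1; ring
  have h8 : (2 * B + 1) * (2 * B + 1) ≤ 2 ^ (2 * B) * 2 ^ (2 * B) := Nat.mul_le_mul h6 h6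
  have h9 : (2 * B + 1) * (2 * B + 1) = B * (2 * (2 * B) + 1) + 3 * B + 1 := by ring
  omega

/-- a normalised element: its powers are monotone -/
theorem norm_mono (hS : Subgroup.closure S = ⊤) {D : ℕ} (hD : Four S D) {h : G}
    (hh : wl S h + (2 * D + 1) ≤ wl S (h ^ 2)) (n : ℕ) :
    wl S (h ^ n) + 1 ≤ wl S (h ^ (n + 1)) := by
  have e : ∀ g : G, wd S 1 (g * 1) = wl S g := by
    intro g
    rw [mul_one, wd_one_left]
  rcases Nat.eq_zero_or_pos n with rfl | hn
  · rw [pow_zero, wl_one, zero_add, pow_one]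
    by_contra h0
    have h1 : wl S h = 0 := by omega
    have h2 := wl_eq_zero hS h1
    rw [h2, one_pow, wl_one] at hh
    omega
  · have := disp_mono hS hD (g := h) (x := 1) (by rw [e, e]; omega) n hn
    rwa [e, e] at this

theorem norm_ge (hS : Subgroup.closure S = ⊤) {D : ℕ} (hD : Four S D) {h : G}
    (hh : wl S h + (2 * D + 1) ≤ wl S (h ^ 2)) (n k : ℕ) :
    wl S (h ^ n) + k ≤ wl S (h ^ (n + k)) := by
  induction k with
  | zero => simp
  | succ k ih =>
    have := norm_mono hS hD hh (n + k)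
    have e : n + (k + 1) = n + k + 1 := by ring
    rw [e]
    omega

theorem wd_pow (h : G) (i j : ℕ) (hij : i ≤ j) : wd S (h ^ i) (h ^ j) = wl S (h ^ (j - i)) := by
  unfold wd
  congr 1
  have : h ^ j = h ^ i * h ^ (j - i) := by rw [← pow_add]; congr 1; omega
  rw [this, inv_mul_cancel_left]

theorem wl_pow_le (hS : Subgroup.closure S = ⊤) (h : G) (i j : ℕ) :
    wl S (h ^ (i + j)) ≤ wl S (h ^ i) + wl S (h ^ j) := by
  rw [pow_add]
  exact wl_mul hS _ _

/-- powers of a normalised element lie on a quasi-geodesic -/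
theorem norm_add (hS : Subgroup.closure S = ⊤) {D : ℕ} (hD : Four S D) {h : G}
    (hh : wl S h + (2 * D + 1) ≤ wl S (h ^ 2)) (p q : ℕ) :
    wl S (h ^ p) + wl S (h ^ q) ≤ wl S (h ^ (p + q)) + wl S h := by
  rcases Nat.eq_zero_or_pos p with rfl | hp
  · rw [pow_zero, wl_one, zero_add, zero_add]
    omega
  rcases Nat.eq_zero_or_pos q with rfl | hq
  · rw [pow_zero, wl_one, add_zero, add_zero]
    omega
  -- the points `h ^ 0`, `h ^ (p - 1)`, `h ^ p`, `h ^ (p + 1)`, `h ^ (p + q)`
  have m1 := norm_mono hS hD hh (p - 1)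
  have m2 := norm_mono hS hD hh (q - 1)
  rw [Nat.sub_add_cancel hp] at m1
  rw [Nat.sub_add_cancel hq] at m2
  -- first four points: 1, h^(p-1), h^(p+1), h^p
  have e1 := hD (h ^ (p - 1)) (h ^ (p + 1)) (h ^ 0) (h ^ p)
  rw [wd_pow h (p - 1) (p + 1) (by omega), wd_pow h 0 p (by omega),
    wd_comm hS (h ^ (p - 1)) (h ^ 0), wd_pow h 0 (p - 1) (by omega),
    wd_comm hS (h ^ (p + 1)) (h ^ p), wd_pow h p (p + 1) (by omega),
    wd_pow h (p - 1) p (by omega), wd_comm hS (h ^ (p + 1)) (h ^ 0),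
    wd_pow h 0 (p + 1) (by omega)] at e1
  have i1 : p + 1 - (p - 1) = 2 := by omega
  have i2 : p - (p - 1) = 1 := by omega
  have i3 : p + 1 - p = 1 := by omega
  rw [i1, i2, i3, Nat.sub_zero, Nat.sub_zero, Nat.sub_zero, pow_one] at e1
  -- second four points: 1, h^(p+1), h^(p+q), h^p
  have e2 := hD (h ^ 0) (h ^ (p + 1)) (h ^ (p + q)) (h ^ p)
  rw [wd_pow h 0 (p + 1) (by omega), wd_comm hS (h ^ (p + q)) (h ^ p),
    wd_pow h p (p + q) (by omega), wd_pow h 0 (p + q) (by omega),
    wd_comm hS (h ^ (p + 1)) (h ^ p), wd_pow h p (p + 1) (by omega), wd_pow h 0 p (by omega),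
    wd_pow h (p + 1) (p + q) (by omega)] at e2
  have j1 : p + q - p = q := by omega
  have j2 : p + q - (p + 1) = q - 1 := by omega
  rw [i3, j1, j2, Nat.sub_zero, Nat.sub_zero, Nat.sub_zero, pow_one] at e2
  omega

/-- every element commuting with a normalised element is close to a power of it -/
theorem cent_close (hS : Subgroup.closure S = ⊤) {D : ℕ} (hD : Four S D) {h : G}
    (hh : wl S h + (2 * D + 1) ≤ wl S (h ^ 2)) {c : G} (hc : c * h = h * c) :
    ∃ j : ℤ, wl S (h ^ j * c) ≤ 2 * wl S h + 3 * D := by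
  set n : ℕ := wl S c + wl S h + 2 * D + 1 with hn
  have hcn : ∀ k : ℕ, c * h ^ k = h ^ k * c := fun k =>
    (Commute.pow_right (show Commute c h from hc) k).eq
  -- translate so that all exponents are natural: base point `h ^ n`
  set u := (1 : G) with hu
  set v := h ^ (2 * n) with hv
  set z := h ^ n * c with hz
  have hlen : n ≤ wl S (h ^ n) := by
    have := norm_ge hS hD hh 0 n
    rw [pow_zero, wl_one, zero_add] at this
    simpa using this
  have hadd := norm_add hS hD hh n n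
  have hnn : n + n = 2 * n := by ring
  rw [hnn] at hadd
  -- distances
  have d1 : wd S u c = wl S c := by rw [hu, wd_one_left]
  have d2 : wd S v (v * c) = wl S c := by
    unfold wd
    rw [inv_mul_cancel_left]
  have d3 : wd S c z = wl S (h ^ n) := by
    unfold wd
    rw [hz, ← hcn n, inv_mul_cancel_left]
  have hvz : v * c = h ^ n * z := by
    rw [hv, hz, ← mul_assoc, ← pow_add, hnn]
  have d4 : wd S z (v * c) = wl S (h ^ n) := by
    rw [hvz]
    unfold wd
    have : z⁻¹ * (h ^ n * z) = h ^ n := by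
      rw [hz, ← hcn n]
      have h1 : h ^ n * (c * h ^ n) = c * h ^ n * h ^ n := by
        rw [← mul_assoc, ← hcn n]
      rw [h1, inv_mul_cancel_left]
    rw [this]
  have d5 : wd S c (v * c) = wl S (h ^ (2 * n)) := by
    rw [hv, ← hcn (2 * n)]
    unfold wd
    rw [inv_mul_cancel_left]
  have d6 : wd S u v = wl S (h ^ (2 * n)) := by rw [hu, wd_one_left]
  -- `u, z, v` nearly on a geodesic
  have e1 := hD c (v * c) u z
  have e2 := hD u (v * c) v z
  have t1 := wd_tri hS c u z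
  have t2 := wd_tri hS (v * c) v z
  rw [wd_comm hS c u] at t1
  rw [wd_comm hS (v * c) v, wd_comm hS (v * c) z] at t2
  rw [wd_comm hS c u, wd_comm hS (v * c) z, d4, d5, d1, d3, wd_comm hS (v * c) u] at e1
  rw [d6, wd_comm hS (v * c) z, d4, wd_comm hS (v * c) v, d2, wd_comm hS v z] at e2
  rw [d1, d3] at t1
  rw [d2, d4, wd_comm hS v z] at t2
  have key : wd S u z + wd S z v ≤ wl S (h ^ (2 * n)) + wl S h + 2 * D := by
    omega
  -- choose the power
  obtain ⟨j, hj, hj1, hj2⟩ : ∃ j, j ≤ 2 * n ∧ (wl S (h ^ j) ≤ wd S u z ∨ j = 0) ∧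
      (wd S u z ≤ wl S (h ^ (j + 1)) ∨ j = 2 * n) := by
    have hex : ∃ j, wd S u z ≤ wl S (h ^ (j + 1)) := by
      refine ⟨wd S u z, ?_⟩
      have := norm_ge hS hD hh 0 (wd S u z + 1)
      rw [pow_zero, wl_one, zero_add] at this
      omega
    classical
    by_cases hle : Nat.find hex ≤ 2 * n
    · refine ⟨Nat.find hex, hle, ?_, Or.inl (Nat.find_spec hex)⟩
      rcases Nat.eq_zero_or_pos (Nat.find hex) with h0 | h0
      · exact Or.inr h0
      · left
        have := Nat.find_min hex (m := Nat.find hex - 1) (by omega)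
        rw [Nat.sub_add_cancel h0] at this
        omega
    · refine ⟨2 * n, le_rfl, Or.inl ?_, Or.inr rfl⟩
      have := Nat.find_min hex (m := 2 * n - 1) (by omega)
      have hpos : 1 ≤ 2 * n := by omega
      rw [Nat.sub_add_cancel hpos] at this
      omega
  have f1 : wd S u (h ^ j) = wl S (h ^ j) := by rw [hu, wd_one_left]
  have f2 : wd S (h ^ j) v = wl S (h ^ (2 * n - j)) := wd_pow h j (2 * n) hj
  have f3 := norm_add hS hD hh j (2 * n - j)
  have f4 : j + (2 * n - j) = 2 * n := by omega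
  rw [f4] at f3
  have f5 := wl_pow_le hS h j 1
  rw [pow_one] at f5
  have f6 : j = 0 → wl S (h ^ j) = 0 := by
    intro h0
    rw [h0, pow_zero, wl_one]
  have f7 : j = 2 * n → wl S (h ^ j) = wl S (h ^ (2 * n)) := by
    intro h0
    rw [h0]
  have e3 := hD z (h ^ j) u v
  rw [d6, wd_comm hS z u, f2, wd_comm hS (h ^ j) u, f1] at e3
  have fin : wd S z (h ^ j) ≤ 2 * wl S h + 3 * D := by
    omega
  refine ⟨(n : ℤ) - j, ?_⟩
  have : h ^ ((n : ℤ) - j) * c = (h ^ j)⁻¹ * z := by
    rw [hz, zpow_sub, zpow_natCast, zpow_natCast, ← mul_assoc]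
    congr 1
    exact ((Commute.refl h).pow_pow n j).inv_right.eq
  rw [this]
  rw [wd_comm hS] at fin
  exact fin

/-- the centraliser of an undistorted element is covered by finitely many translates of the powers -/
theorem cent_cover (hf : S.Finite) (hS : Subgroup.closure S = ⊤) {D : ℕ} (hD : Four S D) {g : G}
    (hg : Lox g) : ∃ T : Set G, T.Finite ∧ ∀ c, c * g = g * c → ∃ j : ℤ, ∃ s ∈ T, c = g ^ j * s := by
  obtain ⟨m, hm, hh⟩ := exists_norm_pow hf hS hg (2 * D + 1)
  refine ⟨_, ball_finite hf hS (2 * wl S (g ^ m) + 3 * D), fun c hc => ?_⟩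
  obtain ⟨j, hj⟩ := cent_close hS hD hh (c := c)
    ((Commute.pow_right (show Commute c g from hc) m).eq)
  refine ⟨-(m * j), (g ^ m) ^ j * c, hj, ?_⟩
  rw [← zpow_natCast g m, ← zpow_mul, ← mul_assoc, ← zpow_add, neg_add_cancel, zpow_zero, one_mul]

/-- conjugate powers of an undistorted element have the same exponent up to sign -/
theorem conj_pow_eq (hf : S.Finite) (hS : Subgroup.closure S = ⊤) {D : ℕ} (hD : Four S D) {h : G}
    (hh : Lox h) {y : G} {a b : ℤ} (hy : y * h ^ a * y⁻¹ = h ^ b) : a.natAbs = b.natAbs := by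
  obtain ⟨m, hm, hn⟩ := exists_norm_pow hf hS hh (2 * D + 1)
  set k := h ^ m with hk
  have hy' : ∀ n : ℕ, y * k ^ (a * n) * y⁻¹ = k ^ (b * n) := by
    intro n
    have e : ∀ c : ℤ, k ^ (c * n) = (h ^ c) ^ (m * n) := by
      intro c
      rw [hk, ← zpow_natCast h m, ← zpow_mul, ← zpow_natCast, ← zpow_mul]
      congr 1
      push_cast
      ring
    rw [e, e, ← hy, conj_pow]
  have hlen : ∀ c : ℤ, ∀ n : ℕ, wl S (k ^ (c * n)) = wl S (k ^ (c.natAbs * n)) := by
    intro c n
    rcases Int.natAbs_eq c with h1 | h1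
    · have : c * n = ((c.natAbs * n : ℕ) : ℤ) := by
        rw [Nat.cast_mul, ← h1]
      rw [this, zpow_natCast]
    · have : c * n = -((c.natAbs * n : ℕ) : ℤ) := by
        rw [Nat.cast_mul, ← neg_mul, ← h1]
      rw [this, zpow_neg, zpow_natCast, wl_inv hS]
  have hcmp : ∀ n : ℕ, wl S (k ^ (b.natAbs * n)) ≤ wl S (k ^ (a.natAbs * n)) + 2 * wl S y ∧
      wl S (k ^ (a.natAbs * n)) ≤ wl S (k ^ (b.natAbs * n)) + 2 * wl S y := by
    intro n
    rw [← hlen, ← hlen, ← hy' n]
    have h1 := wl_mul hS (y * k ^ (a * n)) y⁻¹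
    have h2 := wl_mul hS y (k ^ (a * n))
    rw [wl_inv hS] at h1
    refine ⟨by omega, ?_⟩
    have h3 := wl_mul hS (y⁻¹ * (y * k ^ (a * n) * y⁻¹)) y
    have h4 := wl_mul hS y⁻¹ (y * k ^ (a * n) * y⁻¹)
    rw [wl_inv hS] at h4
    have h5 : y⁻¹ * (y * k ^ (a * n) * y⁻¹) * y = k ^ (a * n) := by group
    rw [h5] at h3
    omega
  set A := a.natAbs with hA
  set B := b.natAbs with hB
  set n := 2 * wl S y + 1 with hn'
  rcases Nat.lt_trichotomy A B with h1 | h1 | h1
  · exfalso
    have h2 := (hcmp n).1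
    have h3 := norm_ge hS hD hn (A * n) (B * n - A * n)
    have h4 : A * n + 1 * n ≤ B * n := by
      rw [← add_mul]
      exact Nat.mul_le_mul_right n h1
    have h5 : A * n + (B * n - A * n) = B * n := by omega
    rw [h5] at h3
    omega
  · exact h1
  · exfalso
    have h2 := (hcmp n).2
    have h3 := norm_ge hS hD hn (B * n) (A * n - B * n)
    have h4 : B * n + 1 * n ≤ A * n := by
      rw [← add_mul]
      exact Nat.mul_le_mul_right n h1
    have h5 : B * n + (A * n - B * n) = A * n := by omega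
    rw [h5] at h3
    omega

end Pool.SC.H
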