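import Pool.Agent.Lib.MP_565fc2_lc.SC.SBasic

/-!
# SC-HLox (helper12): undistorted elements, Koubi's lemma; every infinite subgroup of a hyperbolic
group contains an undistorted element
-/

namespace Pool.SC.H

open Function

variable {G : Type} [Group G] {S : Set G}

/-- balls are finite -/
theorem ball_finite (hf : S.Finite) (hS : Subgroup.closure S = ⊤) (n : ℕ) :
    {g : G | wl S g ≤ n}.Finite := by
  classical
  let T : Set G := S ∪ (fun x => x⁻¹) '' S
  have hT : T.Finite := hf.union (hf.image _)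
  have : Finite T := hT
  have h1 : {l : List T | l.length ≤ n}.Finite := List.finite_length_le T n
  refine (h1.image fun l => (l.map Subtype.val).prod).subset ?_
  intro g hg
  obtain ⟨l, hl1, hl2, hl3⟩ := exists_word hS g
  have hl4 : ∀ x ∈ l, x ∈ T := by
    intro x hx
    rcases hl2 x hx with h | h
    · exact Or.inl h
    · exact Or.inr ⟨x⁻¹, h, inv_inv x⟩
  refine ⟨l.attach.map fun x => ⟨x.1, hl4 x.1 x.2⟩, ?_, ?_⟩
  · have hg' : wl S g ≤ n := hg
    simp only [Set.mem_ofPred_eq, List.length_map, List.length_attach]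
    omega
  · simp only [List.map_map]
    have : (l.attach.map (Subtype.val ∘ fun x : {x // x ∈ l} => (⟨x.1, hl4 x.1 x.2⟩ : T))) = l := by
      have h2 : (Subtype.val ∘ fun x : {x // x ∈ l} => (⟨x.1, hl4 x.1 x.2⟩ : T)) =
          (fun x : {x // x ∈ l} => x.1) := rfl
      rw [h2]
      exact List.attach_map_subtype_val l
    rw [this, hl3]

/-- the length is a length for every two finite generating sets -/
theorem wl_le_mul (hS : Subgroup.closure S = ⊤) {T : Set G} (hT : Subgroup.closure T = ⊤)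
    (hTf : T.Finite) : ∃ C, ∀ g, wl S g ≤ C * wl T g := by
  obtain ⟨C, hC⟩ := (hTf.image (wl S)).bddAbove
  refine ⟨C, fun g => ?_⟩
  obtain ⟨l, hl1, hl2, hl3⟩ := exists_word hT g
  have key : ∀ l : List G, IsWord T l → wl S l.prod ≤ C * l.length := by
    intro l
    induction l with
    | nil => intro _; simp [wl_one]
    | cons a l ih =>
      intro h
      have h1 := ih fun x hx => h x (List.mem_cons_of_mem a hx)
      have h2 : wl S a ≤ C := by
        rcases h a List.mem_cons_self with h | h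
        · exact hC ⟨a, h, rfl⟩
        · rw [← wl_inv hS]
          exact hC ⟨a⁻¹, h, rfl⟩
      rw [List.prod_cons, List.length_cons]
      have h3 := wl_mul hS a l.prod
      have h4 : C * (l.length + 1) = C * l.length + C := by ring
      omega
  rw [← hl1, ← hl3]
  exact key l hl2

theorem lox_gen {g : G} (h : Lox g) (hf : S.Finite) (hS : Subgroup.closure S = ⊤) :
    ∃ k : ℕ, ∀ n : ℕ, n ≤ k * wl S (g ^ n) := by
  obtain ⟨T, hTf, hT, k, hk⟩ := h
  obtain ⟨C, hC⟩ := wl_le_mul hT hS hf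
  refine ⟨k * C, fun n => (hk n).trans ?_⟩
  rw [mul_assoc]
  exact Nat.mul_le_mul_left k (hC _)

theorem lox_pow_ne_one {g : G} (h : Lox g) {n : ℕ} (hn : 0 < n) : g ^ n ≠ 1 := by
  obtain ⟨T, -, -, k, hk⟩ := h
  intro h1
  have := hk n
  rw [h1, wl_one] at this
  omega

theorem lox_zpow_ne_one {g : G} (h : Lox g) {n : ℤ} (hn : n ≠ 0) : g ^ n ≠ 1 := by
  intro h1
  rcases Int.natAbs_eq n with h2 | h2
  · rw [h2, zpow_natCast] at h1
    exact lox_pow_ne_one h (by omega) h1
  · rw [h2, zpow_neg, zpow_natCast, inv_eq_one] at h1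
    exact lox_pow_ne_one h (by omega) h1

/-- a linear lower bound up to additive constants is enough -/
theorem lox_of_linear (hf : S.Finite) (hS : Subgroup.closure S = ⊤) {g : G} {A C : ℕ}
    (h : ∀ n : ℕ, n ≤ A * wl S (g ^ n) + C) : Lox g := by
  refine ⟨S, hf, hS, A + C, fun n => ?_⟩
  rcases Nat.eq_zero_or_pos n with rfl | hn
  · exact Nat.zero_le _
  · have h1 : wl S (g ^ n) ≠ 0 := by
      intro h0
      have h2 := wl_eq_zero hS h0
      have h3 := h (n * (C + 1))
      rw [pow_mul, h2, one_pow, wl_one] at h3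
      have h4 : 1 * (C + 1) ≤ n * (C + 1) := Nat.mul_le_mul_right _ hn
      omega
    have h5 := h n
    have h6 : C * 1 ≤ C * wl S (g ^ n) := Nat.mul_le_mul_left _ (Nat.pos_of_ne_zero h1)
    have h7 : (A + C) * wl S (g ^ n) = A * wl S (g ^ n) + C * wl S (g ^ n) := by ring
    omega

/-- B3 -/
theorem lox_pow {g : G} {n : ℕ} (hn : 0 < n) (h : Lox g) : Lox (g ^ n) := by
  obtain ⟨T, hTf, hT, k, hk⟩ := h
  refine ⟨T, hTf, hT, k, fun m => ?_⟩
  rw [← pow_mul]
  refine le_trans ?_ (hk (n * m))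
  exact Nat.le_mul_of_pos_left m hn

theorem wd_pow_pow (g x : G) (i j : ℕ) (h : i ≤ j) :
    wd S (g ^ i * x) (g ^ j * x) = wd S x (g ^ (j - i) * x) := by
  have : g ^ j = g ^ i * g ^ (j - i) := by rw [← pow_add]; congr 1; omega
  rw [this, mul_assoc, wd_mul_left]

/-- monotonicity of the displacement of powers -/
theorem disp_mono (hS : Subgroup.closure S = ⊤) {D : ℕ} (hD : Four S D) {g x : G}
    (h : wd S x (g * x) + D + 1 ≤ wd S x (g ^ 2 * x)) (n : ℕ) (hn : 1 ≤ n) :
    wd S x (g ^ n * x) + 1 ≤ wd S x (g ^ (n + 1) * x) := by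
  induction n, hn using Nat.le_induction with
  | base =>
    have : (1 : ℕ) + 1 = 2 := rfl
    rw [this, pow_one]
    omega
  | succ n hn ih =>
    have h1 := hD x (g ^ 2 * x) (g ^ 1 * x) (g ^ (n + 1 + 1) * x)
    rw [wd_pow_pow g x 1 (n + 1 + 1) (by omega), wd_pow_pow g x 2 (n + 1 + 1) (by omega),
      wd_comm hS (g ^ 2 * x), wd_pow_pow g x 1 2 (by omega)] at h1
    have e1 : n + 1 + 1 - 1 = n + 1 := by omega
    have e2 : n + 1 + 1 - 2 = n := by omega
    have e3 : 2 - 1 = 1 := rfl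
    rw [e1, e2, e3, pow_one] at h1
    omega

/-- the criterion for undistorted elements -/
theorem lox_crit (hf : S.Finite) (hS : Subgroup.closure S = ⊤) {D : ℕ} (hD : Four S D) {g x : G}
    (h : wd S x (g * x) + D + 1 ≤ wd S x (g ^ 2 * x)) : Lox g := by
  have h1 : ∀ n : ℕ, n ≤ wd S x (g ^ n * x) + 1 := by
    intro n
    induction n with
    | zero => omega
    | succ n ih =>
      rcases Nat.eq_zero_or_pos n with rfl | hn
      · omega
      · have := disp_mono hS hD h n hn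
        omega
  refine lox_of_linear hf hS (A := 1) (C := 2 * wl S x + 1) fun n => ?_
  have h2 := h1 n
  have h3 : wd S x (g ^ n * x) ≤ wl S x + (wl S (g ^ n) + wl S x) := by
    have h4 := wl_mul hS x⁻¹ (g ^ n * x)
    have h5 := wl_mul hS (g ^ n) x
    rw [wl_inv hS] at h4
    unfold wd
    omega
  omega

/-- the displacement of an element which is not undistorted -/
theorem disp_le (hf : S.Finite) (hS : Subgroup.closure S = ⊤) {D : ℕ} (hD : Four S D) {g : G}
    (h : ¬ Lox g) (x : G) : wd S x (g ^ 2 * x) ≤ wd S x (g * x) + D := by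
  by_contra hc
  exact h (lox_crit hf hS hD (x := x) (by omega))

/-- KOUBI'S LEMMA -/
theorem koubi (hf : S.Finite) (hS : Subgroup.closure S = ⊤) {D : ℕ} (hD : Four S D) {F : Set G}
    (hF : F.Finite) (h1 : ∀ f ∈ F, ¬ Lox f) (h2 : ∀ f ∈ F, ∀ f' ∈ F, ¬ Lox (f * f')) :
    ∃ x : G, ∀ f ∈ F, wd S x (f * x) ≤ 12 * D + 4 := by
  classical
  -- minimal maximal displacement
  let P : Set ℕ := {n | ∃ x : G, ∀ f ∈ F, wd S x (f * x) ≤ n}
  have hP : P.Nonempty := by
    obtain ⟨C, hC⟩ := (hF.image fun f => wd S 1 (f * 1)).bddAbove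
    exact ⟨C, 1, fun f hf' => hC ⟨f, hf', rfl⟩⟩
  obtain ⟨x, hx⟩ := Nat.sInf_mem hP
  set L := sInf P with hL
  by_cases hLK : L ≤ 12 * D + 4
  · exact ⟨x, fun f hf' => (hx f hf').trans hLK⟩
  exfalso
  push Not at hLK
  have hmin : ∀ y : G, ¬ ∀ f ∈ F, wd S y (f * y) ≤ L - 1 := by
    intro y hy
    have : L ≤ L - 1 := Nat.sInf_le ⟨y, hy⟩
    omega
  -- an element with maximal displacement
  obtain ⟨f0, hf0, hf0L⟩ : ∃ f0 ∈ F, wd S x (f0 * x) = L := by
    by_contra hc
    push Not at hc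
    refine hmin x fun f hf' => ?_
    have h3 := hx f hf'
    have h4 := hc f hf'
    omega
  -- the point at distance `t` on the geodesic
  obtain ⟨y, hy1, hy2⟩ : ∃ y, wd S x y = 2 * D + 1 ∧ wd S y (f0 * x) = L - (2 * D + 1) := by
    obtain ⟨p, hp0, hpn, hp⟩ := exists_geod hS x (f0 * x)
    refine ⟨p (2 * D + 1), ?_, ?_⟩
    · have := hp 0 (2 * D + 1) (by omega) (by omega)
      rw [hp0] at this
      omega
    · have := hp (2 * D + 1) (wd S x (f0 * x)) (by omega) le_rfl
      rw [hpn] at this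
      omega
  refine hmin y fun r hr => ?_
  -- abbreviations
  set a := wd S x (r * x) with ha
  have haL : a ≤ L := hx r hr
  have hry : wd S (r * x) (r * y) = 2 * D + 1 := by rw [wd_mul_left]; exact hy1
  by_cases hcase : a < L - 2 * (2 * D + 1)
  · have t1 := wd_tri hS y x (r * y)
    have t2 := wd_tri hS x (r * x) (r * y)
    rw [wd_comm hS y x] at t1
    omega
  push Not at hcase
  -- the basic distances
  have sq : ∀ g : G, wd S (g⁻¹ * x) (g * x) = wd S x (g ^ 2 * x) := by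
    intro g
    rw [← wd_mul_left g (g⁻¹ * x) (g * x)]
    congr 1
    · group
    · rw [pow_two, mul_assoc]
  have inv : ∀ g z w : G, wd S (g⁻¹ * z) w = wd S z (g * w) := by
    intro g z w
    rw [← wd_mul_left g (g⁻¹ * z) w]
    congr 1
    group
  have d1 : wd S (f0⁻¹ * x) (f0 * x) ≤ L + D := by
    rw [sq, ← hf0L]
    exact disp_le hf hS hD (h1 f0 hf0) x
  have d2 : wd S (r⁻¹ * x) (r * x) ≤ a + D := by
    rw [sq]
    exact disp_le hf hS hD (h1 r hr) x
  have d3 : wd S (f0⁻¹ * x) x = L := by rw [inv]; exact hf0L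
  have d4 : wd S (r⁻¹ * x) x = a := by rw [inv]
  set q := wd S (f0⁻¹ * x) (r * x) with hq
  set q' := wd S (r⁻¹ * x) (f0 * x) with hq'
  set p := wd S (f0 * x) (r * x) with hp
  -- first estimate: p ≤ L + 3 D
  have hp3 : p ≤ L + 3 * D := by
    by_contra hc
    push Not at hc
    have e1 := hD (f0 * x) (r * x) (f0⁻¹ * x) x
    rw [wd_comm hS (f0 * x) (f0⁻¹ * x), wd_comm hS (r * x) x, wd_comm hS (f0 * x) x,
      wd_comm hS (r * x) (f0⁻¹ * x), d3, hf0L] at e1
    have e2 := hD (r * x) (f0 * x) (r⁻¹ * x) x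
    rw [wd_comm hS (r * x) (f0 * x), wd_comm hS (r * x) (r⁻¹ * x), wd_comm hS (f0 * x) x,
      wd_comm hS (r * x) x, wd_comm hS (f0 * x) (r⁻¹ * x), d4, hf0L] at e2
    -- the product
    have g1 : wd S x ((f0 * r) * x) = q := by
      rw [hq, inv, mul_assoc]
    have g2 : wd S (((f0 * r)⁻¹) * x) ((f0 * r) * x) ≤ q + D := by
      rw [sq, ← g1]
      exact disp_le hf hS hD (h2 f0 hf0 r hr) x
    have g3 : wd S (((f0 * r)⁻¹) * x) x = q := by rw [inv]; exact g1
    have g4 : wd S (f0 * x) ((f0 * r) * x) = a := by rw [mul_assoc, wd_mul_left]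
    have g5 : wd S (((f0 * r)⁻¹) * x) (r⁻¹ * x) = L := by
      rw [mul_inv_rev, mul_assoc, wd_mul_left]
      exact d3
    have e3 := hD x ((f0 * r) * x) (f0 * x) ((f0 * r)⁻¹ * x)
    rw [g1, hf0L, wd_comm hS ((f0 * r) * x) ((f0 * r)⁻¹ * x), wd_comm hS x ((f0 * r)⁻¹ * x), g3,
      wd_comm hS ((f0 * r) * x) (f0 * x), g4] at e3
    have e4 := hD x ((f0 * r)⁻¹ * x) (r⁻¹ * x) (f0 * x)
    rw [wd_comm hS x ((f0 * r)⁻¹ * x), g3, wd_comm hS x (r⁻¹ * x), d4, hf0L, g5,
      wd_comm hS ((f0 * r)⁻¹ * x) (f0 * x)] at e4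
    omega
  -- distances from `y`
  have b2 : wd S y (r * x) ≤ a - (2 * D + 1) + D := by
    have e1 := hD y (r * x) x (f0 * x)
    rw [wd_comm hS y x, hy1, hy2, hf0L, wd_comm hS (r * x) (f0 * x), wd_comm hS (r * x) x] at e1
    omega
  have b3 : wd S y (r⁻¹ * x) ≤ a - (2 * D + 1) + D := by
    have e0 := hD (f0 * x) (r⁻¹ * x) x (r * x)
    rw [wd_comm hS (f0 * x) (r⁻¹ * x), wd_comm hS (f0 * x) x, hf0L, d4] at e0
    have e1 := hD y (r⁻¹ * x) x (f0 * x)
    rw [wd_comm hS y x, hy1, hy2, hf0L, d4] at e1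
    omega
  have b4 : wd S (r * y) x = wd S y (r⁻¹ * x) := by
    rw [wd_comm hS (r * y) x, wd_comm hS y (r⁻¹ * x), inv]
  have e5 := hD y (r * y) x (r * x)
  rw [wd_comm hS y x, hy1, wd_comm hS (r * y) (r * x), hry, b4] at e5
  omega

/-- every infinite subgroup of a hyperbolic group contains an undistorted element -/
theorem exists_lox_of_infinite (hf : S.Finite) (hS : Subgroup.closure S = ⊤) {D : ℕ}
    (hD : Four S D) (R : Subgroup G) (hR : Infinite R) : ∃ g ∈ R, Lox g := by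
  classical
  by_contra hc
  push Not at hc
  have hB := ball_finite hf hS (12 * D + 4)
  have hRinf : (R : Set G).Infinite := Set.infinite_coe_iff.1 hR
  obtain ⟨F, hFR, hFc⟩ := hRinf.exists_subset_card_eq (hB.toFinset.card + 1)
  obtain ⟨x, hx⟩ := koubi hf hS hD (F := (F : Set G)) F.finite_toSet
    (fun f hf' => hc f (hFR hf'))
    (fun f hf' f' hf'' => hc _ (R.mul_mem (hFR hf') (hFR hf'')))
  have h1 : F.card ≤ hB.toFinset.card := by
    refine Finset.card_le_card_of_injOn (fun f => x⁻¹ * (f * x)) ?_ ?_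
    · intro f hf'
      simp only [Set.Finite.coe_toFinset, Set.mem_ofPred_eq]
      exact hx f hf'
    · intro f _ f' _ hff
      simpa using hff
  omega

end Pool.SC.H
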