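import Pool.Agent.Lib.MP_565fc2_lc.SC.SBasic
import Pool.Agent.Lib.MP_565fc2_lc.SC.G3

/-!
# SC-L1: hyperbolic groups with a fixed generating set; normalized elements (paper 5.1, 5.2)

PROOFS.  `hyp4`: from SBasic (`wd_self`, `wd_eq_zero`, `wd_comm`, `wd_tri`) and `four`.
`ball_fin`: the ball of radius `r` is contained in the set of products of words of length `≤ r` in the finite set `S ∪ S⁻¹` (induction on `r`:
`Ball (r+1) ⊆ image2 (*) (Ball r) ({1} ∪ S ∪ S⁻¹)`, remove the last letter of a shortest word).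
`pig`: `b` = cardinality of the ball of radius `r`.
`exists_nrm`: `Lox h` gives `S'`, `k` with `a ≤ k * wl S' (h^a)`; the elements of `H.S` have bounded length `C` with respect to `S'`, so
`wl S' g ≤ C * wl H.S g`; hence `a ≤ k' * n (h^a)` for all `a`, `k' = k C`.  If no `h^(2^j)` is normalized then
`n (h^(2^(j+1))) ≤ n (h^(2^j)) + 2 D` for all `j`, so `2^j ≤ k' (n h + 2 D j)` for all `j`, which is false for large `j`.
`nrm_grow`: `a_k = n (h^k)`.  Claim `a_(k+1) + a_1 + D ≥ a_k + a_2` for all `k ≥ 1`; then, as `a_2 ≥ a_1 + 2 D + 1`, `a_(k+1) ≥ a_k + D + 1`.  Induction on `k`;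
`k = 1` trivial.  `k ≥ 2`: `four` with the pairs `(1, h^2), (h, h^(k+1))`:
`d(1,h^2) + d(h,h^(k+1)) ≤ max (d(1,h) + d(h^2,h^(k+1))) (d(1,h^(k+1)) + d(h,h^2)) + D`, i.e. `a_2 + a_k ≤ max (a_1 + a_(k-1)) (a_(k+1) + a_1) + D`; the first
alternative contradicts `a_k ≥ a_(k-1)` and `a_2 > a_1 + D`.  For `k = 0`: `a_1 ≥ 1` because `a_2 ≥ 1`.
`nrm_bt`: translate: `Bt (n h) (h^(-i)) 1 (h^j)` for `i, j : ℕ`, i.e. `a_i + a_j ≤ a_(i+j) + a_1`.  Trivial if `i = 0` or `j = 0`; for `i = 1` by the claim above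
(`a_(j+1) + a_1 + D ≥ a_j + a_2 ≥ a_j + a_1 + 2D + 1`).  For `i ≥ 2`, `j ≥ 1`: `four` with the pairs `(h⁻¹, h^j), (h^(-i), 1)`:
`d(h⁻¹,h^j) + d(h^(-i),1) ≤ max (d(h⁻¹,h^(-i)) + d(h^j,1)) (d(h⁻¹,1) + d(h^j,h^(-i))) + D`, i.e.
`a_(j+1) + a_i ≤ max (a_(i-1) + a_j) (a_1 + a_(i+j)) + D`; the first alternative is impossible because `a_(j+1) ≥ a_j + a_2 - a_1 - D ≥ a_j + D + 1` and
`a_i ≥ a_(i-1)`; the second gives `a_(i+j) ≥ a_(j+1) + a_i - a_1 - D ≥ a_j + a_i + (D + 1) - a_1 - D`.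
-/

set_option autoImplicit false

namespace Pool.SC

noncomputable section

/-- a hyperbolic group with a fixed finite generating set -/
structure HG (G : Type) [Group G] where
  S : Set G
  fin : S.Finite
  gen : Subgroup.closure S = ⊤
  D : ℕ
  four : Four S D

variable {G : Type} [Group G] (H : HG G)

/-- the word distance -/
def HG.d (x y : G) : ℕ := wd H.S x y

/-- the word length -/
def HG.n (g : G) : ℕ := wl H.S g

theorem HG.hyp4 : Hyp4 H.d H.D :=
  ⟨fun x => wd_self x, fun _ _ h => wd_eq_zero H.gen h, fun x y => wd_comm H.gen x y,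
    fun x y z => wd_tri H.gen x y z, fun x y z w => H.four x y z w⟩

theorem HG.d_left (g x y : G) : H.d (g * x) (g * y) = H.d x y := wd_mul_left g x y

theorem HG.d_one (g : G) : H.d 1 g = H.n g := wd_one_left g

theorem HG.d_mul (x g : G) : H.d x (x * g) = H.n g := by
  show wl H.S (x⁻¹ * (x * g)) = wl H.S g
  rw [inv_mul_cancel_left]

theorem HG.d_eq (x y : G) : H.d x y = H.n (x⁻¹ * y) := rfl

theorem HG.n_one : H.n 1 = 0 := wl_one

theorem HG.n_inv (g : G) : H.n g⁻¹ = H.n g := wl_inv H.gen g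

theorem HG.n_mul (g g' : G) : H.n (g * g') ≤ H.n g + H.n g' := wl_mul H.gen g g'

theorem HG.n_pos {g : G} (hg : g ≠ 1) : 1 ≤ H.n g := by
  by_contra hc
  exact hg (wl_eq_zero H.gen (show wl H.S g = 0 by have : H.n g = 0 := by omega
                                                   exact this))

theorem HG.n_pow (g : G) (k : ℕ) : H.n (g ^ k) ≤ k * H.n g := by
  induction k with
  | zero => rw [pow_zero, H.n_one]; omega
  | succ k ih =>
    rw [pow_succ]
    have := H.n_mul (g ^ k) g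
    rw [Nat.succ_mul]
    omega

theorem HG.n_zpow (g : G) (k : ℤ) : H.n (g ^ k) = H.n (g ^ k.natAbs) := by
  rcases Int.natAbs_eq k with h | h
  · conv_lhs => rw [h, zpow_natCast]
  · conv_lhs => rw [h, zpow_neg, zpow_natCast, H.n_inv]

theorem HG.ball_fin (r : ℕ) : {g : G | H.n g ≤ r}.Finite := by
  induction r with
  | zero =>
    apply (Set.finite_singleton (1 : G)).subset
    intro g hg
    have h0 : wl H.S g = 0 := Nat.le_zero.1 hg
    exact wl_eq_zero H.gen h0
  | succ r ih =>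
    have hfin : (insert (1 : G) (H.S ∪ H.S⁻¹)).Finite := (H.fin.union H.fin.inv).insert 1
    apply (ih.image2 (fun x y : G => x * y) hfin).subset
    intro g hg
    obtain ⟨l, h1, h2, h3⟩ := exists_word H.gen g
    have h4 : l.length ≤ r + 1 := by rw [h1]; exact hg
    rcases List.eq_nil_or_concat l with hl | ⟨m, x, hl⟩
    · refine ⟨1, ?_, 1, Or.inl rfl, ?_⟩
      · show H.n 1 ≤ r
        rw [H.n_one]
        omega
      · rw [hl] at h3
        simpa using h3
    · rw [List.concat_eq_append] at hl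
      have hm : IsWord H.S m := fun y hy => h2 y (by rw [hl]; exact List.mem_append_left _ hy)
      have hx : x ∈ H.S ∨ x⁻¹ ∈ H.S := h2 x (by rw [hl]; simp)
      refine ⟨m.prod, ?_, x, ?_, ?_⟩
      · show wl H.S m.prod ≤ r
        have := wl_le hm
        rw [hl, List.length_append, List.length_singleton] at h4
        omega
      · rcases hx with hx | hx
        · exact Or.inr (Or.inl hx)
        · exact Or.inr (Or.inr (Set.mem_inv.2 hx))
      · show m.prod * x = g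
        rw [← h3, hl, List.prod_append, List.prod_singleton]

/-- pigeonhole principle in balls -/
theorem HG.pig (r : ℕ) : ∃ b : ℕ, ∀ f : ℕ → G, (∀ i, i ≤ b → H.n (f i) ≤ r) → ∃ i j, i < j ∧ j ≤ b ∧ f i = f j := by
  classical
  refine ⟨(H.ball_fin r).toFinset.card, fun f hf => ?_⟩
  obtain ⟨i, hi, j, hj, hij, he⟩ := Finset.exists_ne_map_eq_of_card_lt_of_maps_to
    (s := Finset.range ((H.ball_fin r).toFinset.card + 1)) (t := (H.ball_fin r).toFinset) (f := f)
    (by rw [Finset.card_range]; omega)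
    (fun i hi => by
      have hi' := Finset.mem_range.1 (Finset.mem_coe.1 hi)
      exact Finset.mem_coe.2 ((Set.Finite.mem_toFinset _).2 (hf i (by omega))))
  rw [Finset.mem_range] at hi hj
  rcases lt_or_gt_of_ne hij with h | h
  · exact ⟨i, j, h, by omega, he⟩
  · exact ⟨j, i, h, by omega, he.symm⟩

/-- normalized elements -/
def Nrm (h : G) : Prop := H.n h + 2 * H.D + 1 ≤ H.n (h ^ 2)

variable {H}

private theorem two_pow_big (A B : ℕ) : ∃ j : ℕ, A + B * j < 2 ^ j := by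
  refine ⟨2 * (A + 2 * B + 1), ?_⟩
  set m := A + 2 * B + 1 with hm
  have h1 : m < 2 ^ m := Nat.lt_two_pow_self
  have h2 : 2 ^ (2 * m) = 2 ^ m * 2 ^ m := by rw [two_mul, pow_add]
  rw [h2]
  have h3 : (m + 1) * (m + 1) ≤ 2 ^ m * 2 ^ m := Nat.mul_le_mul h1 h1
  have h4 : 2 * B * m ≤ m * m := Nat.mul_le_mul (by omega) le_rfl
  have h5 : B * (2 * m) = 2 * B * m := by ring
  have h6 : (m + 1) * (m + 1) = m * m + 2 * m + 1 := by ring
  rw [h5]
  omega

private theorem wl_comp {S S' : Set G} (hS : Subgroup.closure S = ⊤) (hS' : Subgroup.closure S' = ⊤)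
    {C : ℕ} (hC : ∀ x ∈ S, wl S' x ≤ C) (g : G) : wl S' g ≤ C * wl S g := by
  obtain ⟨l, h1, h2, rfl⟩ := exists_word hS g
  rw [← h1]
  clear h1
  induction l with
  | nil =>
    rw [List.prod_nil, wl_one]
    omega
  | cons x l ih =>
    rw [List.prod_cons, List.length_cons, Nat.mul_succ]
    have hx : wl S' x ≤ C := by
      rcases h2 x (by simp) with h | h
      · exact hC x h
      · rw [← wl_inv hS']
        exact hC _ h
    have := wl_mul hS' x l.prod
    have := ih (fun y hy => h2 y (List.mem_cons_of_mem _ hy))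
    omega

theorem exists_nrm {h : G} (hh : Lox h) : ∃ n : ℕ, 0 < n ∧ Nrm H (h ^ n) := by
  obtain ⟨S', hfin, hgen, k, hk⟩ := hh
  obtain ⟨C, hC⟩ : ∃ C, ∀ x ∈ H.S, wl S' x ≤ C := by
    obtain ⟨C, hC⟩ := (H.fin.image (wl S')).bddAbove
    exact ⟨C, fun x hx => hC ⟨x, hx, rfl⟩⟩
  have hlin : ∀ a : ℕ, a ≤ k * C * H.n (h ^ a) := by
    intro a
    have h1 := hk a
    have h2 : wl S' (h ^ a) ≤ C * H.n (h ^ a) := wl_comp H.gen hgen hC _
    calc a ≤ k * wl S' (h ^ a) := h1
      _ ≤ k * (C * H.n (h ^ a)) := Nat.mul_le_mul le_rfl h2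
      _ = k * C * H.n (h ^ a) := by ring
  by_contra hcon
  push Not at hcon
  have hstep : ∀ j : ℕ, H.n (h ^ (2 ^ j)) ≤ H.n h + 2 * H.D * j := by
    intro j
    induction j with
    | zero => simp
    | succ j ih =>
      have h1 := hcon (2 ^ j) (by positivity)
      unfold Nrm at h1
      rw [← pow_mul, ← pow_succ] at h1
      have h2 : 2 * H.D * (j + 1) = 2 * H.D * j + 2 * H.D := by ring
      omega
  obtain ⟨j, hj⟩ := two_pow_big (k * C * H.n h) (k * C * (2 * H.D))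
  have h1 := hlin (2 ^ j)
  have h2 : k * C * H.n (h ^ (2 ^ j)) ≤ k * C * (H.n h + 2 * H.D * j) := Nat.mul_le_mul le_rfl (hstep j)
  have h3 : k * C * (H.n h + 2 * H.D * j) = k * C * H.n h + k * C * (2 * H.D) * j := by ring
  omega

private theorem d_pp (h : G) (m r : ℕ) : H.d (h ^ m) (h ^ (m + r)) = H.n (h ^ r) := by
  rw [pow_add, H.d_mul]

private theorem d_pp' (h : G) (m r : ℕ) : H.d (h ^ (m + r)) (h ^ m) = H.n (h ^ r) := by
  rw [H.hyp4.symm, d_pp]

private theorem nrm_key {h : G} (hh : Nrm H h) (k : ℕ) :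
    H.n (h ^ (k + 1)) + H.n (h ^ 2) ≤ H.n (h ^ (k + 2)) + H.n h + H.D := by
  have hN : H.n h + 2 * H.D + 1 ≤ H.n (h ^ 2) := hh
  induction k with
  | zero =>
    show H.n (h ^ 1) + H.n (h ^ 2) ≤ H.n (h ^ 2) + H.n h + H.D
    rw [pow_one]
    omega
  | succ k ih =>
    have h4 := H.hyp4.four (h ^ 0) (h ^ 2) (h ^ 1) (h ^ (k + 3))
    have e1 : H.d (h ^ 0) (h ^ 2) = H.n (h ^ 2) := d_pp h 0 2
    have e2 : H.d (h ^ 1) (h ^ (k + 3)) = H.n (h ^ (k + 2)) := by
      rw [show k + 3 = 1 + (k + 2) by ring]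
      exact d_pp h 1 (k + 2)
    have e3 : H.d (h ^ 0) (h ^ 1) = H.n h := by
      have := d_pp (H := H) h 0 1
      have e : H.n (h ^ 1) = H.n h := by rw [pow_one]
      rw [← e]
      exact this
    have e4 : H.d (h ^ 2) (h ^ (k + 3)) = H.n (h ^ (k + 1)) := by
      rw [show k + 3 = 2 + (k + 1) by ring]
      exact d_pp h 2 (k + 1)
    have e5 : H.d (h ^ 0) (h ^ (k + 3)) = H.n (h ^ (k + 3)) := by
      have := d_pp (H := H) h 0 (k + 3)
      rwa [Nat.zero_add] at this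
    have e6 : H.d (h ^ 2) (h ^ 1) = H.n h := by
      have := d_pp' (H := H) h 1 1
      have e : H.n (h ^ 1) = H.n h := by rw [pow_one]
      rw [← e]
      exact this
    rw [e1, e2, e3, e4, e5, e6] at h4
    show H.n (h ^ (k + 2)) + H.n (h ^ 2) ≤ H.n (h ^ (k + 3)) + H.n h + H.D
    omega

private theorem nrm_grow' {h : G} (hh : Nrm H h) (k : ℕ) : H.n (h ^ k) + 1 ≤ H.n (h ^ (k + 1)) := by
  have hN : H.n h + 2 * H.D + 1 ≤ H.n (h ^ 2) := hh
  cases k with
  | zero =>
    rw [pow_zero, H.n_one, Nat.zero_add, pow_one]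
    apply H.n_pos
    rintro rfl
    rw [one_pow, H.n_one] at hN
    omega
  | succ k =>
    have := nrm_key hh k
    show H.n (h ^ (k + 1)) + 1 ≤ H.n (h ^ (k + 2))
    omega

private theorem nrm_diff' {h : G} (hh : Nrm H h) (a c : ℕ) : H.n (h ^ a) + c ≤ H.n (h ^ (a + c)) := by
  induction c with
  | zero => simp
  | succ c ih =>
    have := nrm_grow' hh (a + c)
    rw [← Nat.add_assoc a c 1]
    omega

private theorem nrm_add {h : G} (hh : Nrm H h) (p q : ℕ) :
    H.n (h ^ p) + H.n (h ^ q) ≤ H.n (h ^ (p + q)) + H.n h := by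
  have hN : H.n h + 2 * H.D + 1 ≤ H.n (h ^ 2) := hh
  cases q with
  | zero =>
    rw [pow_zero, H.n_one, Nat.add_zero, Nat.add_zero]
    omega
  | succ q =>
    cases p with
    | zero =>
      rw [pow_zero, H.n_one, Nat.zero_add, Nat.zero_add]
      omega
    | succ p =>
      cases p with
      | zero =>
        have := nrm_grow' hh (q + 1)
        rw [Nat.zero_add, pow_one, Nat.add_comm 1 (q + 1)]
        omega
      | succ p =>
        -- `p + 2` and `q + 1`
        have hk1 := nrm_key hh q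
        have hk2 := nrm_grow' hh (p + 1)
        have h4 := H.hyp4.four (h ^ (p + 1)) (h ^ (p + q + 3)) (h ^ 0) (h ^ (p + 2))
        have e1 : H.d (h ^ (p + 1)) (h ^ (p + q + 3)) = H.n (h ^ (q + 2)) := by
          rw [show p + q + 3 = p + 1 + (q + 2) by ring]
          exact d_pp h (p + 1) (q + 2)
        have e2 : H.d (h ^ 0) (h ^ (p + 2)) = H.n (h ^ (p + 2)) := by
          have := d_pp (H := H) h 0 (p + 2)
          rwa [Nat.zero_add] at this
        have e3 : H.d (h ^ (p + 1)) (h ^ 0) = H.n (h ^ (p + 1)) := by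
          have := d_pp' (H := H) h 0 (p + 1)
          rwa [Nat.zero_add] at this
        have e4 : H.d (h ^ (p + q + 3)) (h ^ (p + 2)) = H.n (h ^ (q + 1)) := by
          rw [show p + q + 3 = p + 2 + (q + 1) by ring]
          exact d_pp' h (p + 2) (q + 1)
        have e5 : H.d (h ^ (p + 1)) (h ^ (p + 2)) = H.n h := by
          have := d_pp (H := H) h (p + 1) 1
          rwa [pow_one] at this
        have e6 : H.d (h ^ (p + q + 3)) (h ^ 0) = H.n (h ^ (p + q + 3)) := by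
          have := d_pp' (H := H) h 0 (p + q + 3)
          rwa [Nat.zero_add] at this
        rw [e1, e2, e3, e4, e5, e6] at h4
        have e7 : H.n (h ^ (p + 1 + 1 + (q + 1))) = H.n (h ^ (p + q + 3)) := by
          rw [show p + 1 + 1 + (q + 1) = p + q + 3 by ring]
        rw [e7]
        show H.n (h ^ (p + 2)) + H.n (h ^ (q + 1)) ≤ H.n (h ^ (p + q + 3)) + H.n h
        have hk2' : H.n (h ^ (p + 1)) + 1 ≤ H.n (h ^ (p + 2)) := hk2
        omega

theorem nrm_lox {h : G} (hh : Nrm H h) : Lox h := by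
  refine ⟨H.S, H.fin, H.gen, 1, fun n => ?_⟩
  have h1 := nrm_diff' hh 0 n
  rw [Nat.zero_add] at h1
  rw [one_mul]
  show n ≤ H.n (h ^ n)
  omega

theorem nrm_grow {h : G} (hh : Nrm H h) (k : ℕ) : H.n (h ^ k) + 1 ≤ H.n (h ^ (k + 1)) :=
  nrm_grow' hh k

/-- growth: `|a_m - a_n| ≥ |m - n|` -/
theorem nrm_diff {h : G} (hh : Nrm H h) (a b : ℕ) (hab : a ≤ b) : H.n (h ^ a) + (b - a) ≤ H.n (h ^ b) := by
  have h1 := nrm_diff' hh a (b - a)
  rwa [Nat.add_sub_cancel' hab] at h1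

theorem nrm_bt {h : G} (hh : Nrm H h) (i j l : ℤ) (hij : i ≤ j) (hjl : j ≤ l) :
    Bt H.d (H.n h) (h ^ i) (h ^ j) (h ^ l) := by
  obtain ⟨p, rfl⟩ := Int.le.dest hij
  obtain ⟨q, rfl⟩ := Int.le.dest hjl
  have hd : ∀ (a : ℤ) (r : ℕ), H.d (h ^ a) (h ^ (a + r)) = H.n (h ^ r) := by
    intro a r
    rw [zpow_add, H.d_mul, zpow_natCast]
  have h1 := hd i p
  have h2 := hd (i + p) q
  have h3 := hd i (p + q : ℕ)
  rw [Nat.cast_add, ← Int.add_assoc] at h3
  show H.d (h ^ i) (h ^ (i + (p : ℤ))) + H.d (h ^ (i + (p : ℤ))) (h ^ (i + (p : ℤ) + (q : ℤ)))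
    ≤ H.d (h ^ i) (h ^ (i + (p : ℤ) + (q : ℤ))) + H.n h
  rw [h1, h2, h3]
  exact nrm_add hh p q

/-- powers are different -/
theorem nrm_pow_ne {h : G} (hh : Nrm H h) (k : ℤ) (hk : k ≠ 0) : h ^ k ≠ 1 := by
  intro he
  have h1 := H.n_zpow h k
  rw [he, H.n_one] at h1
  have h2 := nrm_diff' hh 0 k.natAbs
  rw [Nat.zero_add] at h2
  have h3 : k.natAbs ≠ 0 := Int.natAbs_ne_zero.2 hk
  omega

end

end Pool.SC
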