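import Pool.Agent.Lib.MP_565fc2_lc.SC.L1

/-!
# SC-L2: the elementary closure `E(h)` and its orientation preserving part `E⁺(h)` (paper 5.3)

PROOFS: pure algebra.  `conj_Ep`: `c h^a c⁻¹ = h^b` (`a, b ≠ 0`), `s h^k = h^k s`, `k > 0`: `c s c⁻¹` commutes with `c h^(k a) c⁻¹ = h^(k b)`, hence with
`h^(|k b|)`.
`comm_tri`: if `b h^a b⁻¹ = h'^a'` with `a, a' ≠ 0` then `Comm h h'`; if `b h^a b⁻¹ ∈ Eh h'` and `(b h^a b⁻¹)^k = h'^k'`, see `L3`.
-/

set_option autoImplicit false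

namespace Pool.SC

variable {G : Type} [Group G]

private theorem L2_conj {c h : G} {a b : ℤ} (h1 : c * h ^ a * c⁻¹ = h ^ b) (k : ℤ) :
    c * h ^ (a * k) * c⁻¹ = h ^ (b * k) := by
  rw [zpow_mul, ← conj_zpow, h1, zpow_mul]

/-- the commensurator of `⟨h⟩` -/
def Eh (h : G) : Subgroup G where
  carrier := {g | ∃ n m : ℤ, n ≠ 0 ∧ m ≠ 0 ∧ g * h ^ n * g⁻¹ = h ^ m}
  mul_mem' := by
    rintro g g' ⟨n, m, hn, hm, h1⟩ ⟨n', m', hn', hm', h2⟩
    refine ⟨n' * n, m * m', mul_ne_zero hn' hn, mul_ne_zero hm hm', ?_⟩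
    have e : g * g' * h ^ (n' * n) * (g * g')⁻¹ = g * (g' * h ^ (n' * n) * g'⁻¹) * g⁻¹ := by group
    rw [e, L2_conj h2 n, mul_comm m' n, L2_conj h1 m']
  one_mem' := ⟨1, 1, one_ne_zero, one_ne_zero, by group⟩
  inv_mem' := by
    rintro g ⟨n, m, hn, hm, h1⟩
    refine ⟨m, n, hm, hn, ?_⟩
    rw [← h1]
    group

/-- the elements which commute with a positive power of `h` -/
def Ep (h : G) : Subgroup G where
  carrier := {g | ∃ n : ℕ, 0 < n ∧ g * h ^ n = h ^ n * g}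
  mul_mem' := by
    rintro g g' ⟨n, hn, h1⟩ ⟨n', hn', h2⟩
    refine ⟨n * n', Nat.mul_pos hn hn', ?_⟩
    have c1 : Commute g (h ^ (n * n')) := by
      rw [pow_mul]
      exact Commute.pow_right h1 n'
    have c2 : Commute g' (h ^ (n * n')) := by
      rw [mul_comm, pow_mul]
      exact Commute.pow_right h2 n
    exact c1.mul_left c2
  one_mem' := ⟨1, Nat.one_pos, by group⟩
  inv_mem' := by
    rintro g ⟨n, hn, h1⟩
    refine ⟨n, hn, ?_⟩
    have c1 : Commute g (h ^ n) := h1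
    exact c1.inv_left

theorem mem_Eh {h g : G} : g ∈ Eh h ↔ ∃ n m : ℤ, n ≠ 0 ∧ m ≠ 0 ∧ g * h ^ n * g⁻¹ = h ^ m := by
  exact Iff.rfl

theorem mem_Ep {h g : G} : g ∈ Ep h ↔ ∃ n : ℕ, 0 < n ∧ g * h ^ n = h ^ n * g := by
  exact Iff.rfl

theorem Ep_le_Eh (h : G) : Ep h ≤ Eh h := by
  rintro g ⟨n, hn, h1⟩
  refine ⟨n, n, by positivity, by positivity, ?_⟩
  rw [zpow_natCast, h1]
  group

theorem self_mem_Ep (h : G) : h ∈ Ep h := by
  exact ⟨1, Nat.one_pos, by group⟩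

theorem zpow_mem_Eh (h : G) (k : ℤ) : h ^ k ∈ Eh h := by
  exact Subgroup.zpow_mem _ (Ep_le_Eh h (self_mem_Ep h)) k

theorem conj_Ep {h c s : G} (hc : c ∈ Eh h) (hs : s ∈ Ep h) : c * s * c⁻¹ ∈ Ep h := by
  obtain ⟨a, b, ha, hb, h1⟩ := hc
  obtain ⟨k, hk, h2⟩ := hs
  have c1 : Commute s (h ^ (a * k)) := by
    have c0 : Commute s (h ^ k) := h2
    rw [mul_comm, zpow_mul, zpow_natCast]
    exact c0.zpow_right a
  have c2 : Commute (c * s * c⁻¹) (h ^ (b * k)) := by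
    rw [← L2_conj h1 k]
    exact (Commute.conj_iff c).2 c1
  have hpos : 0 < (b * k).natAbs := by
    apply Int.natAbs_pos.2
    exact mul_ne_zero hb (by positivity)
  refine ⟨(b * k).natAbs, hpos, ?_⟩
  show Commute (c * s * c⁻¹) (h ^ (b * k).natAbs)
  rcases Int.natAbs_eq (b * k) with h3 | h3
  · rw [h3, zpow_natCast] at c2
    exact c2
  · rw [h3, zpow_neg, zpow_natCast] at c2
    simpa using c2.inv_right

/-- the coset `y E(h)` as a set: a line -/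
def line (h y : G) : Set G := {x | y⁻¹ * x ∈ Eh h}

theorem self_mem_line (h y : G) : y ∈ line h y := by
  show y⁻¹ * y ∈ Eh h
  rw [inv_mul_cancel]
  exact (Eh h).one_mem

theorem mem_line_zpow {h y x : G} (hx : x ∈ line h y) (k : ℤ) : x * h ^ k ∈ line h y := by
  show y⁻¹ * (x * h ^ k) ∈ Eh h
  rw [← mul_assoc]
  exact (Eh h).mul_mem hx (zpow_mem_Eh h k)

theorem mem_line_mul {h y x e : G} (hx : x ∈ line h y) (he : e ∈ Eh h) : x * e ∈ line h y := by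
  show y⁻¹ * (x * e) ∈ Eh h
  rw [← mul_assoc]
  exact (Eh h).mul_mem hx he

theorem line_eq_of_mem {h y x : G} (hx : x ∈ line h y) : line h x = line h y := by
  have hx' : y⁻¹ * x ∈ Eh h := hx
  ext z
  show x⁻¹ * z ∈ Eh h ↔ y⁻¹ * z ∈ Eh h
  have e : y⁻¹ * z = y⁻¹ * x * (x⁻¹ * z) := by group
  rw [e, Subgroup.mul_mem_cancel_left _ hx']

theorem line_smul (h y g : G) : (fun x => g * x) '' line h y = line h (g * y) := by
  ext z
  constructor
  · rintro ⟨x, hx, rfl⟩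
    show (g * y)⁻¹ * (g * x) ∈ Eh h
    have e : (g * y)⁻¹ * (g * x) = y⁻¹ * x := by group
    rw [e]
    exact hx
  · intro hz
    refine ⟨g⁻¹ * z, ?_, by group⟩
    show y⁻¹ * (g⁻¹ * z) ∈ Eh h
    have e : y⁻¹ * (g⁻¹ * z) = (g * y)⁻¹ * z := by group
    rw [e]
    exact hz

end Pool.SC
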