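import Pool.Agent.Lib.MP_565fc2_lc.SC.L2

/-!
# SC-L3: `E(h)` is a quasi-line (paper 5.4, 5.5)

`Eh_close`: `h` normalized, `g ∈ E(h)`: some `h^i` is at distance `≤ 2 |h| + 3 D` from `g`.
PROOF.  `g h^a g⁻¹ = h^b`, `a, b ≠ 0`; replacing `(a,b)` by `(-a,-b)` we may assume `a > 0`.  For every integer `k`: `g h^(k a) = h^(k b) g`, so
`d(g h^(k a), h^(k b)) = |g|`.  `Bt (n h) (g h^(-k a)) g (g h^(k a))` (`nrm_bt`, left invariance).  `four` twice (or `Bt.move` is not enough, because the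
end points move by `|g|`; one uses that they are far away): for `k` with `|h^(k a)| > 2 |g| + |h| + 2 D` (exists by `nrm_diff`), `P = g h^(k a)`, `P' = h^(k b)`,
`Q = g h^(-k a)`, `Q' = h^(-k b)`, Gromov products (doubled, base point `g`): `G(P,P';g) = d(g,P) + d(g,P') - d(P,P') ≥ 2 d(g,P) - 2 |g| > |h| + 2 D`, same for `Q`;
`|h| ≥ G(P,Q;g) ≥ min (G(P,P';g), G(P',Q';g), G(Q',Q;g)) - 2 D`, so `G(P',Q';g) ≤ |h| + 2 D`, i.e. `Bt (|h| + 2D) Q' g P'`.  Apply `ft` to the chain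
`x i = h^(i - k |b|)`, `i ≤ 2 k |b|` (`Bt (n h)` by `nrm_bt`, steps `n h`), `z = g`: distance `≤ (|h| + 2 D) + |h| + D`.
`Eh_pow`: `w ∈ E(h)`: `w^k = h^k'` with `k > 0`.  PROOF: for every `j`, `w^j = h^(i_j) b_j`, `|b_j| ≤ 2|h| + 3D`; by `pig` `b_j = b_j'`, `j < j'`;
`w^(j'-j) = w^j' (w^j)⁻¹ = h^(i_j' - i_j)`.
`Eh_nc`: NC for lines.  PROOF: `α` nearest to `a` in `line h y`, `p` in the line: `α⁻¹ p ∈ E(h)`, so `p = α h^j b`, `|b| ≤ B = 2|h| + 3D`
(`Eh_close` for `α⁻¹ p`).  `ncc` for the chain `x i = α h^(± i)`, `i ≤ |j|` (in the line by `mem_line_zpow`, `Bt (n h)` by `nrm_bt`, steps `n h`):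
`Bt (6|h| + 2D) a α (α h^j)`; then `Bt.move` with `d (α h^j) p ≤ B`: `Bt (6|h| + 2D + 2B) a α p`.
-/

set_option autoImplicit false

namespace Pool.SC

variable {G : Type} [Group G] {H : HG G}

private theorem L3_step (h : G) (t : ℤ) : H.d (h ^ t) (h ^ (t + 1)) = H.n h := by
  rw [H.d_eq, zpow_add, zpow_one, inv_mul_cancel_left]

private theorem L3_bt_left {k : ℕ} {x y z : G} (g : G) (hb : Bt H.d k x y z) :
    Bt H.d k (g * x) (g * y) (g * z) := by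
  unfold Bt at hb ⊢
  rw [H.d_left, H.d_left, H.d_left]
  exact hb

private theorem L3_grow {h : G} (hh : Nrm H h) (k : ℕ) : k ≤ H.n (h ^ k) := by
  have h1 := nrm_diff hh 0 k (Nat.zero_le k)
  omega

theorem Eh_close {h g : G} (hh : Nrm H h) (hg : g ∈ Eh h) : ∃ i : ℤ, H.d g (h ^ i) ≤ 2 * H.n h + 3 * H.D := by
  have hyp := H.hyp4
  -- `g h^a = h^b g`, `a > 0`
  obtain ⟨a, b, ha, hab⟩ : ∃ (a : ℕ) (b : ℤ), 0 < a ∧ g * h ^ (a : ℤ) * g⁻¹ = h ^ b := by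
    obtain ⟨n, m, hn, hm, hnm⟩ := mem_Eh.1 hg
    rcases lt_or_gt_of_ne hn with h1 | h1
    · refine ⟨n.natAbs, -m, Int.natAbs_pos.2 hn, ?_⟩
      have e : ((n.natAbs : ℕ) : ℤ) = -n := by omega
      rw [e, zpow_neg, zpow_neg, ← hnm]
      group
    · refine ⟨n.natAbs, m, Int.natAbs_pos.2 hn, ?_⟩
      have e : ((n.natAbs : ℕ) : ℤ) = n := by omega
      rw [e, hnm]
  have hconj : ∀ k : ℤ, g * h ^ ((a : ℤ) * k) = h ^ (b * k) * g := by
    intro k
    have h1 : (g * h ^ (a : ℤ) * g⁻¹) ^ k = g * (h ^ (a : ℤ)) ^ k * g⁻¹ := conj_zpow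
    rw [hab, ← zpow_mul, ← zpow_mul] at h1
    rw [h1, inv_mul_cancel_right]
  obtain ⟨K, hK⟩ : ∃ K : ℕ, K = 2 * H.n g + H.n h + 2 * H.D + 1 := ⟨_, rfl⟩
  -- the four points
  have hA : K ≤ H.n (h ^ (a * K)) := by
    have h1 := L3_grow hh (a * K)
    have h2 : K ≤ a * K := Nat.le_mul_of_pos_left K ha
    omega
  have hzp : ∀ s : ℤ, (s = 1 ∨ s = -1) →
      H.d g (g * h ^ ((a : ℤ) * (s * K))) = H.n (h ^ (a * K)) := by
    intro s hs
    rw [H.d_mul, H.n_zpow]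
    congr 2
    rcases hs with rfl | rfl
    · rw [one_mul]
      exact_mod_cast Int.natAbs_natCast (a * K)
    · rw [neg_one_mul, mul_neg, Int.natAbs_neg]
      exact_mod_cast Int.natAbs_natCast (a * K)
  have hPP : ∀ k : ℤ, H.d (g * h ^ ((a : ℤ) * k)) (h ^ (b * k)) = H.n g := by
    intro k
    rw [hconj, H.d_eq, mul_inv_rev, mul_assoc, inv_mul_cancel, mul_one, H.n_inv]
  have hbt : Bt H.d (H.n h) (g * h ^ ((a : ℤ) * (-1 * K))) g (g * h ^ ((a : ℤ) * (1 * K))) := by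
    have h1 := nrm_bt hh ((a : ℤ) * (-1 * K)) 0 ((a : ℤ) * (1 * K)) (by
      have : (0 : ℤ) ≤ a * K := by positivity
      linarith) (by positivity)
    have h2 := L3_bt_left g h1
    rwa [zpow_zero, mul_one] at h2
  set P := g * h ^ ((a : ℤ) * (1 * K)) with hP
  set Q := g * h ^ ((a : ℤ) * (-1 * K)) with hQ
  set P' := h ^ (b * (1 * K)) with hP'
  set Q' := h ^ (b * (-1 * K)) with hQ'
  have d1 : H.d g P = H.n (h ^ (a * K)) := hzp 1 (Or.inl rfl)
  have d2 : H.d g Q = H.n (h ^ (a * K)) := hzp (-1) (Or.inr rfl)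
  have d3 : H.d P P' = H.n g := hPP (1 * K)
  have d4 : H.d Q Q' = H.n g := hPP (-1 * K)
  have hmid : Bt H.d (H.n h + 2 * H.D) Q' g P' := by
    unfold Bt at hbt ⊢
    have f1 := hyp.four P Q g P'
    have f2 := hyp.four P' Q' g Q
    have f2' := hyp.four P' Q g Q'
    have t1 := hyp.tri g P' P
    have t2 := hyp.tri g Q' Q
    have s1 := hyp.symm P' P
    have s2 := hyp.symm Q' Q
    have s3 := hyp.symm P g
    have s4 := hyp.symm Q g
    have s5 := hyp.symm P' g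
    have s6 := hyp.symm Q' g
    have s7 := hyp.symm P Q
    have s8 := hyp.symm P' Q'
    have s9 := hyp.symm Q P'
    omega
  -- the chain
  obtain ⟨M, hM⟩ : ∃ M : ℕ, M = b.natAbs * K := ⟨_, rfl⟩
  have hends : Bt H.d (H.n h + 2 * H.D) (h ^ (-(M : ℤ))) g (h ^ (M : ℤ)) := by
    rcases le_or_gt 0 b with h0 | h0
    · have e1 : b * (1 * (K : ℤ)) = M := by
        rw [hM]
        push_cast
        rw [abs_of_nonneg h0]
        ring
      have e2 : b * (-1 * (K : ℤ)) = -(M : ℤ) := by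
        rw [← e1]
        ring
      rw [hQ', hP', e1, e2] at hmid
      exact hmid
    · have e1 : b * (-1 * (K : ℤ)) = M := by
        rw [hM]
        push_cast
        rw [abs_of_neg h0]
        ring
      have e2 : b * (1 * (K : ℤ)) = -(M : ℤ) := by
        rw [← e1]
        ring
      rw [hQ', hP', e1, e2] at hmid
      exact Bt.symm hyp hmid
  have e0 : ((0 : ℕ) : ℤ) - M = -(M : ℤ) := by omega
  have eN : ((2 * M : ℕ) : ℤ) - M = (M : ℤ) := by omega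
  obtain ⟨i, -, hi⟩ := ft hyp (H.n h) (H.n h + 2 * H.D) (H.n h) (2 * M)
    (fun i : ℕ => h ^ ((i : ℤ) - M)) g
    (fun i hi => nrm_bt hh _ _ _ (by push_cast; omega) (by omega))
    (fun i _ => by
      have e : ((i + 1 : ℕ) : ℤ) - M = ((i : ℤ) - M) + 1 := by push_cast; ring
      show H.d (h ^ ((i : ℤ) - M)) (h ^ (((i + 1 : ℕ) : ℤ) - M)) ≤ H.n h
      rw [e, L3_step])
    (by
      show Bt H.d (H.n h + 2 * H.D) (h ^ (((0 : ℕ) : ℤ) - M)) g (h ^ (((2 * M : ℕ) : ℤ) - M))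
      rw [e0, eN]
      exact hends)
  refine ⟨(i : ℤ) - M, hi.trans ?_⟩
  omega

theorem Eh_pow {h w : G} (hh : Nrm H h) (hw : w ∈ Eh h) : ∃ k : ℕ, 0 < k ∧ ∃ k' : ℤ, w ^ k = h ^ k' := by
  have h1 : ∀ j : ℕ, ∃ i : ℤ, H.d (w ^ j) (h ^ i) ≤ 2 * H.n h + 3 * H.D := fun j =>
    Eh_close hh (Subgroup.pow_mem _ hw j)
  choose f hf using h1
  obtain ⟨b, hb⟩ := H.pig (2 * H.n h + 3 * H.D)
  obtain ⟨i, j, hij, -, he⟩ := hb (fun j => (h ^ f j)⁻¹ * w ^ j) (fun j _ => by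
    have h2 := hf j
    rw [H.hyp4.symm, H.d_eq] at h2
    exact h2)
  have he' : (h ^ f i)⁻¹ * w ^ i = (h ^ f j)⁻¹ * w ^ j := he
  refine ⟨j - i, by omega, f j - f i, ?_⟩
  have h3 : w ^ j = h ^ f j * ((h ^ f i)⁻¹ * w ^ i) := by
    rw [he', mul_inv_cancel_left]
  have h4 : w ^ (j - i) * w ^ i = w ^ j := by
    rw [← pow_add]
    congr 1
    omega
  rw [h3, ← mul_assoc] at h4
  have h5 := mul_right_cancel h4
  rw [h5, zpow_sub]

theorem Eh_nc {h : G} (hh : Nrm H h) (y : G) : NC H.d (line h y) (10 * H.n h + 8 * H.D) := by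
  have hyp := H.hyp4
  intro a α hα p hp
  have hmem : α⁻¹ * p ∈ Eh h := by
    have h1 : y⁻¹ * α ∈ Eh h := hα.1
    have h2 : y⁻¹ * p ∈ Eh h := hp
    have h3 := Subgroup.mul_mem _ (Subgroup.inv_mem _ h1) h2
    have e : (y⁻¹ * α)⁻¹ * (y⁻¹ * p) = α⁻¹ * p := by group
    rwa [e] at h3
  obtain ⟨i, hi⟩ := Eh_close hh hmem
  have hi' : H.d (α * h ^ i) p ≤ 2 * H.n h + 3 * H.D := by
    have h1 := H.d_left α (α⁻¹ * p) (h ^ i)
    rw [mul_inv_cancel_left] at h1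
    rw [hyp.symm, h1]
    exact hi
  have hkey : Bt H.d (4 * H.n h + 2 * H.n h + 2 * H.D) a α (α * h ^ i) := by
    rcases le_or_gt 0 i with h0 | h0
    · obtain ⟨N, rfl⟩ := Int.eq_ofNat_of_zero_le h0
      have h1 := ncc hyp (H.n h) (H.n h) N (fun t : ℕ => α * h ^ (t : ℤ)) a
        (fun t _ => by
          show H.d a (α * h ^ ((0 : ℕ) : ℤ)) ≤ H.d a (α * h ^ (t : ℤ))
          rw [Nat.cast_zero, zpow_zero, mul_one]
          exact hα.2 _ (mem_line_zpow hα.1 _))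
        (fun t ht => L3_bt_left α (nrm_bt hh _ _ _ (by push_cast; omega) (by omega)))
        (fun t _ => by
          show H.d (α * h ^ (t : ℤ)) (α * h ^ ((t + 1 : ℕ) : ℤ)) ≤ H.n h
          have e : ((t + 1 : ℕ) : ℤ) = (t : ℤ) + 1 := by push_cast; ring
          rw [H.d_left, e, L3_step])
      have h2 : Bt H.d (4 * H.n h + 2 * H.n h + 2 * H.D) a (α * h ^ ((0 : ℕ) : ℤ))
        (α * h ^ (N : ℤ)) := h1
      rw [Nat.cast_zero, zpow_zero, mul_one] at h2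
      exact h2
    · obtain ⟨N, hN⟩ := Int.eq_ofNat_of_zero_le (a := -i) (by omega)
      have hiN : i = -(N : ℤ) := by omega
      subst hiN
      have h1 := ncc hyp (H.n h) (H.n h) N (fun t : ℕ => α * h ^ (-(t : ℤ))) a
        (fun t _ => by
          show H.d a (α * h ^ (-((0 : ℕ) : ℤ))) ≤ H.d a (α * h ^ (-(t : ℤ)))
          rw [Nat.cast_zero, neg_zero, zpow_zero, mul_one]
          exact hα.2 _ (mem_line_zpow hα.1 _))
        (fun t ht => L3_bt_left α (Bt.symm hyp (nrm_bt hh _ _ _ (by omega) (by push_cast; omega))))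
        (fun t _ => by
          show H.d (α * h ^ (-(t : ℤ))) (α * h ^ (-((t + 1 : ℕ) : ℤ))) ≤ H.n h
          have e : -(t : ℤ) = -((t + 1 : ℕ) : ℤ) + 1 := by push_cast; ring
          rw [H.d_left, hyp.symm, e, L3_step])
      have h2 : Bt H.d (4 * H.n h + 2 * H.n h + 2 * H.D) a (α * h ^ (-((0 : ℕ) : ℤ)))
        (α * h ^ (-(N : ℤ))) := h1
      rw [Nat.cast_zero, neg_zero, zpow_zero, mul_one] at h2
      exact h2
  have hm := Bt.move hyp hkey (x' := a) (y' := α) (z' := p)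
  have z1 := hyp.zero a
  have z2 := hyp.zero α
  exact Bt.mono hm (by omega)

end Pool.SC
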