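import Pool.Agent.Lib.MP_565fc2_lc.SC.L3

/-!
# SC-L4: different lines have bounded overlap (paper 5.6)

PROOF of `line_overlap`.  Let `hm` bound `n h`, `n h'`; `B = 2 hm + 3 D`, `c1 = 10 hm + 8 D`, `ρ = 2 hm + 4 B + 2 c1 + 2 D`, `b` the pigeonhole number
(`HG.pig`) of radius `ρ`; `t = 2 (b hm + B + c1 + D) + 2 c1`.  Let `z, z' ∈ line h' y'`, `ζ, ζ'` nearest in `line h y` (`exists_near`), `R = d(ζ,ζ')`.
By `nc_two` it suffices that `R ≤ b hm + B + c1 + D`.  Suppose not; in particular `R > c1 + D`, so `nc_long`: `d(z,ζ) + R + d(ζ',z') ≤ d(z,z') + 2 c1 + D`.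
`ζ⁻¹ ζ' ∈ E(h)`, so `ζ' = ζ h^j e`, `|e| ≤ B` (`Eh_close`), `R ≤ |j| n h + B`, so `|j| > b`.  Let `q i = ζ h^(± i)` (sign of `j`), `i ≤ |j|`.
`Bt (n h) ζ (q i) (ζ h^j)`, so `Bt (hm + 2 B) ζ (q i) ζ'`, so `Bt (hm + 2B + 2 c1 + D) z (q i) z'` (triangle inequalities
`d(z,q) ≤ d(z,ζ) + d(ζ,q)` etc.).  In the same way `z' = z h'^l e'`, `|e'| ≤ B`, and `Bt (hm + 4B + 2 c1 + D) z (q i) (z h'^l)`; `ft` for the chain
`z h'^(± a)`, `a ≤ |l|`: some `a_i` with `d(q i, z h'^(± a_i)) ≤ ρ`.  Put `f i = (z h'^(± a_i))⁻¹ q i`, `|f i| ≤ ρ`; by `pig` (`i ≤ b < |j|`) `f i = f i'`, `i < i'`.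
Then `h^(± (i' - i)) = (q i)⁻¹ q i' = (f i)⁻¹ h'^c (f i)` for some integer `c`, `≠ 0` because `h^(i'-i) ≠ 1`.  So `Comm h h'` (with `γ = f i`); by hypothesis
`h = h'`, and `f i ∈ E(h)`; so `q i = (z h^(...)) f i ∈ line h z = line h y'` and `q i ∈ line h ζ = line h y`: `y⁻¹ y' ∈ E(h)`.  Contradiction.
-/

set_option autoImplicit false

namespace Pool.SC

variable {G : Type} [Group G] {H : HG G}

/-- the chain `x, x h^(± 1), ..., x h^i` -/
private theorem chainZ {h : G} (hh : Nrm H h) (x : G) (i : ℤ) :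
    ∃ f : ℕ → ℤ, f 0 = 0 ∧ f i.natAbs = i ∧
      (∀ k, k ≤ i.natAbs → Bt H.d (H.n h) x (x * h ^ f k) (x * h ^ i)) ∧
      (∀ k, H.d (x * h ^ f k) (x * h ^ f (k + 1)) ≤ H.n h) ∧
      ∀ k l, k < l → l ≤ i.natAbs → f l - f k ≠ 0 := by
  have tr : ∀ a b c : ℤ, Bt H.d (H.n h) (h ^ a) (h ^ b) (h ^ c) →
      Bt H.d (H.n h) (x * h ^ a) (x * h ^ b) (x * h ^ c) := by
    intro a b c hb
    unfold Bt at hb ⊢
    rw [H.d_left, H.d_left, H.d_left]
    exact hb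
  rcases le_total 0 i with hi | hi
  · refine ⟨fun k => (k : ℤ), by simp, by simp [abs_of_nonneg hi], ?_, ?_, ?_⟩
    · intro k hk
      have h1 := tr 0 k i (nrm_bt hh 0 k i (by omega) (by omega))
      simpa using h1
    · intro k
      have e : x * h ^ ((k + 1 : ℕ) : ℤ) = (x * h ^ (k : ℤ)) * h := by
        push_cast
        rw [zpow_add_one, mul_assoc]
      show H.d (x * h ^ (k : ℤ)) (x * h ^ ((k + 1 : ℕ) : ℤ)) ≤ _
      rw [e, H.d_mul]
    · intro k l hkl _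
      show (l : ℤ) - (k : ℤ) ≠ 0
      omega
  · refine ⟨fun k => -(k : ℤ), by simp, by simp [abs_of_nonpos hi], ?_, ?_, ?_⟩
    · intro k hk
      have h1 := (tr i (-(k : ℤ)) 0 (nrm_bt hh i (-(k : ℤ)) 0 (by omega) (by omega))).symm H.hyp4
      simpa using h1
    · intro k
      have e : x * h ^ (-((k + 1 : ℕ) : ℤ)) = (x * h ^ (-(k : ℤ))) * h⁻¹ := by
        push_cast
        rw [neg_add, ← sub_eq_add_neg, zpow_sub_one, mul_assoc]
      show H.d (x * h ^ (-(k : ℤ))) (x * h ^ (-((k + 1 : ℕ) : ℤ))) ≤ _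
      rw [e, H.d_mul, H.n_inv]
    · intro k l hkl _
      show -(l : ℤ) - -(k : ℤ) ≠ 0
      omega

private theorem NC.mono' {A : Set G} {c c' : ℕ} (hA : NC H.d A c) (h : c ≤ c') : NC H.d A c' :=
  fun a α hα p hp => (hA a α hα p hp).mono h

private theorem line_close {h : G} (hh : Nrm H h) {y z z' : G} (hz : z ∈ line h y) (hz' : z' ∈ line h y) :
    ∃ l : ℤ, H.d z' (z * h ^ l) ≤ 2 * H.n h + 3 * H.D := by
  have h1 : z⁻¹ * z' ∈ Eh h := by
    have h2 : z' ∈ line h z := by rw [line_eq_of_mem hz]; exact hz'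
    exact h2
  obtain ⟨l, hl⟩ := Eh_close hh h1
  refine ⟨l, ?_⟩
  rw [← H.d_left z, mul_inv_cancel_left] at hl
  exact hl

theorem line_overlap {h h' : G} (hh : Nrm H h) (hh' : Nrm H h') (hc : h = h' ∨ ¬ Comm h h') :
    ∃ t : ℕ, ∀ y y' : G, (h ≠ h' ∨ y⁻¹ * y' ∉ Eh h) →
      ∀ z ∈ line h' y', ∀ z' ∈ line h' y', oA H.d (line h y) z z' ≤ t := by
  classical
  have hyp := H.hyp4
  obtain ⟨hm, hm1, hm2⟩ : ∃ hm, H.n h ≤ hm ∧ H.n h' ≤ hm := ⟨max (H.n h) (H.n h'), le_max_left _ _, le_max_right _ _⟩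
  obtain ⟨B, hB⟩ : ∃ B, B = 2 * hm + 3 * H.D := ⟨_, rfl⟩
  obtain ⟨c1, hc1⟩ : ∃ c1, c1 = 10 * hm + 8 * H.D := ⟨_, rfl⟩
  obtain ⟨b, hb⟩ := H.pig (2 * hm + 4 * B + 2 * c1 + 2 * H.D)
  refine ⟨2 * (b * hm + B + c1 + H.D) + 2 * c1, ?_⟩
  intro y y' hne z hz z' hz'
  have hNC : NC H.d (line h y) c1 := NC.mono' (Eh_nc hh y) (by omega)
  have hLn : (line h y).Nonempty := ⟨y, self_mem_line h y⟩
  obtain ⟨ζ, hζ⟩ := exists_near H.d hLn z
  obtain ⟨ζ', hζ'⟩ := exists_near H.d hLn z'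
  have hR : H.d ζ ζ' ≤ b * hm + B + c1 + H.D := by
    by_contra hcon
    push Not at hcon
    have hlong := nc_long hyp hNC hζ hζ' (by omega)
    obtain ⟨i, hi⟩ := line_close hh hζ.1 hζ'.1
    obtain ⟨l, hl⟩ := line_close hh' hz hz'
    have hsym1 := hyp.symm ζ' (ζ * h ^ i)
    have hsym2 := hyp.symm z' (z * h' ^ l)
    -- `|i| > b`
    have hib : b < i.natAbs := by
      by_contra hcon2
      push Not at hcon2
      have h1 := hyp.tri ζ (ζ * h ^ i) ζ'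
      have h2 : H.d ζ (ζ * h ^ i) ≤ b * hm := by
        rw [H.d_mul, H.n_zpow]
        exact le_trans (H.n_pow _ _) (Nat.mul_le_mul hcon2 hm1)
      omega
    obtain ⟨f, f0, f1, f2, f3, f4⟩ := chainZ hh ζ i
    obtain ⟨g, g0, g1, g2, g3, g4⟩ := chainZ hh' z l
    have key : ∀ k : ℕ, ∃ a : ℤ, k ≤ b → H.n ((z * h' ^ a)⁻¹ * (ζ * h ^ f k)) ≤ 2 * hm + 4 * B + 2 * c1 + 2 * H.D := by
      intro k
      by_cases hk : k ≤ b
      · have hbt := f2 k (by omega)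
        unfold Bt at hbt
        have t1 := hyp.tri z ζ (ζ * h ^ f k)
        have t2 := hyp.tri (ζ * h ^ f k) (ζ * h ^ i) ζ'
        have t3 := hyp.tri ζ ζ' (ζ * h ^ i)
        have t4 := hyp.tri (ζ * h ^ f k) ζ' z'
        have t5 := hyp.tri (ζ * h ^ f k) z' (z * h' ^ l)
        have t6 := hyp.tri z (z * h' ^ l) z'
        have hz3 : Bt H.d (hm + 4 * B + 2 * c1 + H.D) (z * h' ^ g 0) (ζ * h ^ f k) (z * h' ^ g l.natAbs) := by
          rw [g0, g1, zpow_zero, mul_one]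
          unfold Bt
          omega
        obtain ⟨a, ha, ha'⟩ := ft hyp (H.n h') (hm + 4 * B + 2 * c1 + H.D) (H.n h') l.natAbs (fun k => z * h' ^ g k)
          (ζ * h ^ f k)
          (by
            intro k' hk'
            have := g2 k' hk'
            simpa only [g0, g1, zpow_zero, mul_one] using this)
          (fun k' _ => g3 k') hz3
        refine ⟨g a, fun _ => ?_⟩
        rw [← H.d_eq, hyp.symm]
        have hmax : max (H.n h') (hm + 4 * B + 2 * c1 + H.D) ≤ hm + 4 * B + 2 * c1 + H.D := max_le (by omega) le_rfl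
        have ha2 : H.d (ζ * h ^ f k) (z * h' ^ g a) ≤ max (H.n h') (hm + 4 * B + 2 * c1 + H.D) + H.n h' + H.D := ha'
        omega
      · exact ⟨0, fun hk' => absurd hk' hk⟩
    choose a ha using key
    obtain ⟨k1, k2, hk12, hk2, hF⟩ := hb (fun k => (z * h' ^ a k)⁻¹ * (ζ * h ^ f k)) ha
    obtain ⟨F, hF1⟩ : ∃ F, F = (z * h' ^ a k1)⁻¹ * (ζ * h ^ f k1) := ⟨_, rfl⟩
    have hF2 : F = (z * h' ^ a k2)⁻¹ * (ζ * h ^ f k2) := hF1.trans hF
    have e1 : ζ * h ^ f k1 = z * h' ^ a k1 * F := by rw [hF1]; group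
    have e2 : ζ * h ^ f k2 = z * h' ^ a k2 * F := by rw [hF2]; group
    have hfd : f k2 - f k1 ≠ 0 := f4 k1 k2 hk12 (by omega)
    have e3 : F * h ^ (f k2 - f k1) * F⁻¹ = h' ^ (a k2 - a k1) := by
      have e4 : h ^ (f k2 - f k1) = (ζ * h ^ f k1)⁻¹ * (ζ * h ^ f k2) := by
        rw [sub_eq_neg_add, zpow_add, zpow_neg]
        group
      rw [e4, e1, e2, sub_eq_neg_add, zpow_add, zpow_neg]
      group
    have had : a k2 - a k1 ≠ 0 := by
      intro h0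
      rw [h0, zpow_zero] at e3
      have e5 : h ^ (f k2 - f k1) = 1 := by
        have : F * h ^ (f k2 - f k1) = F := by
          rw [mul_inv_eq_one] at e3
          exact e3
        simpa using this
      exact nrm_pow_ne hh _ hfd e5
    have hComm : Comm h h' := ⟨F, _, _, hfd, had, e3⟩
    have hhh : h = h' := by
      rcases hc with hc | hc
      · exact hc
      · exact absurd hComm hc
    have hy : y⁻¹ * y' ∉ Eh h := by
      rcases hne with hne | hne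
      · exact absurd hhh hne
      · exact hne
    subst hhh
    have hFE : F ∈ Eh h := mem_Eh.2 ⟨_, _, hfd, had, e3⟩
    have m1 : ζ * h ^ f k1 ∈ line h y := mem_line_zpow hζ.1 _
    have m2 : ζ * h ^ f k1 ∈ line h y' := by
      rw [e1]
      exact mem_line_mul (mem_line_zpow hz _) hFE
    apply hy
    have m3 : y⁻¹ * (ζ * h ^ f k1) ∈ Eh h := m1
    have m4 : y'⁻¹ * (ζ * h ^ f k1) ∈ Eh h := m2
    have m5 := (Eh h).mul_mem m3 ((Eh h).inv_mem m4)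
    have e6 : y⁻¹ * (ζ * h ^ f k1) * (y'⁻¹ * (ζ * h ^ f k1))⁻¹ = y⁻¹ * y' := by group
    rwa [e6] at m5
  have := (nc_two hyp hNC hζ hζ').1
  omega

end Pool.SC
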