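import Pool.Agent.Lib.MP_565fc2_lc.SC.L4

/-!
# SC-L5: corners; `E(h) ∩ c E(h) c⁻¹` is finite; subgroups without finite orbits (paper 5.7, 5.8, 5.9)

`corner`: `t` an overlap constant for the lines `line h 1`, `line h' c` (different), `p ∈ line h 1 = E(h)`, `q ∈ line h' c`:
`Bt (2 c1 + t + 2 |c|) p 1 q`, `c1 = 10 |h| + 8 D`.
PROOF.  `α` nearest to `q` in `E(h)`.  `2 d(α,1) = oA α 1 ≤ oA α q + oA q c + oA c 1 ≤ c1 + t + 2 |c|` (`oA_mem`, `nc_oA`, hypothesis, `oA_le_two`).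
`Bt c1 q α p` (`Eh_nc`); `Bt.move` for the middle point: `Bt (c1 + 2 d(α,1)) q 1 p`.
`inter_fin`: `c ∉ E(h)`: `E(h) ∩ c E(h) c⁻¹` is finite.  PROOF: `g` in it: `d(g, h^i) ≤ B` and `c⁻¹ g c ∈ E(h)`, `d(c⁻¹ g c, h^j) ≤ B`, so `d(g c, c h^j) ≤ B`, so
`d(h^i, c h^j) ≤ 2 B + |c|`; `corner` with `t` from `line_overlap` gives `|h^i| + |c h^j| ≤ d(h^i, c h^j) + const`, so `|h^i|`, hence `|g|`, is bounded; `ball_fin`.
`not_le_Eh`: `K` a subgroup containing `h` such that only `1` has finitely many `K`-conjugates: `K` is not contained in `E(h)`.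
PROOF.  Otherwise every `g ∈ K` is `g = h^i b`, `b` in the finite set `F = E(h) ∩ Ball(B)`; for `b ∈ F` `b h^(n_b) b⁻¹ = h^(m_b)`, `n_b ≠ 0`; let `N = ∏ |n_b|` (product over `F`).
Then `b h^N b⁻¹` is a power of `h`, so `g h^N g⁻¹ = h^i (b h^N b⁻¹) h^(-i) = b h^N b⁻¹`: the `K`-conjugates of `h^N` form a finite set; `h^N ≠ 1`.
`exists_tests`: there is a nonempty finite list `T` of elements of `K \ E(h)` with `⋂_(c ∈ T) c E⁺(h) c⁻¹ ∩ E⁺(h) = 1`.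
PROOF.  For a finite nonempty `T ⊆ K \ E(h)` let `F_T` be that intersection: finite by `inter_fin` (`E⁺ ≤ E`).  Choose `T` with `#F_T` minimal
(nonempty family by `not_le_Eh`).  For `c ∈ K \ E(h)`: `F_(T ∪ {c}) = F_T`, so `F_T ⊆ c E⁺(h) c⁻¹`; for `c ∈ K ∩ E(h)`: `c E⁺ c⁻¹ = E⁺ ⊇ F_T` (`conj_Ep`).  So
for `s ∈ F_T` all `K`-conjugates `c⁻¹ s c` lie in `E⁺(h)`; moreover `c⁻¹ s c ∈ F_T` again?  For `c, c' ∈ K`: `c⁻¹ s c ∈ c' E⁺ c'⁻¹` iff `s ∈ (c c') E⁺ (c c')⁻¹`: true.  So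
`F_T` contains all `K`-conjugates of `s`: finitely many; so `s = 1`.
-/

set_option autoImplicit false

namespace Pool.SC

variable {G : Type} [Group G] {H : HG G}

theorem corner {h h' c : G} (hh : Nrm H h) {t : ℕ}
    (ht : ∀ z ∈ line h' c, ∀ z' ∈ line h' c, oA H.d (line h 1) z z' ≤ t) {p q : G} (hp : p ∈ Eh h) (hq : q ∈ line h' c) :
    Bt H.d (2 * (10 * H.n h + 8 * H.D) + t + 2 * H.n c) p 1 q := by
  have hy := H.hyp4
  have hA : (line h (1 : G)).Nonempty := ⟨1, self_mem_line h 1⟩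
  have hp1 : p ∈ line h (1 : G) := by
    show (1 : G)⁻¹ * p ∈ Eh h
    rw [inv_one, one_mul]
    exact hp
  obtain ⟨α, hα⟩ := exists_near H.d hA q
  have hnc := Eh_nc hh (1 : G)
  have h1 := nc_oA hy hnc hα
  have h2 := oA_mem hy hα.1 (self_mem_line h (1 : G))
  have h3 := oA_tri hy hA α q 1
  have h4 := oA_tri hy hA q c 1
  have h5 := ht q hq c (self_mem_line h' c)
  have h6 := oA_le_two hy hA c 1
  have h7 := oA_symm (d := H.d) (line h (1 : G)) q α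
  have h8 : H.d q α + H.d α p ≤ H.d q p + (10 * H.n h + 8 * H.D) := hnc q α hα p hp1
  have h9 : H.d c 1 = H.n c := by rw [hy.symm, H.d_one]
  have t1 := hy.tri p α 1
  have t2 := hy.tri 1 α q
  have s1 := hy.symm p α
  have s2 := hy.symm 1 α
  have s3 := hy.symm α q
  have s4 := hy.symm q p
  show H.d p 1 + H.d 1 q ≤ H.d p q + (2 * (10 * H.n h + 8 * H.D) + t + 2 * H.n c)
  omega

theorem inter_fin {h c : G} (hh : Nrm H h) (hc : c ∉ Eh h) : {g : G | g ∈ Eh h ∧ c⁻¹ * g * c ∈ Eh h}.Finite := by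
  obtain ⟨t, ht⟩ := line_overlap hh hh (Or.inl rfl)
  have hcc : (1 : G)⁻¹ * c ∉ Eh h := by
    rw [inv_one, one_mul]
    exact hc
  have ht' := ht 1 c (Or.inr hcc)
  refine (H.ball_fin (2 * (10 * H.n h + 8 * H.D) + t + 2 * H.n c + H.n c)).subset ?_
  rintro g ⟨hg1, hg2⟩
  have hq : g * c ∈ line h c := by
    show c⁻¹ * (g * c) ∈ Eh h
    rw [← mul_assoc]
    exact hg2
  have h1 : H.d g 1 + H.d 1 (g * c) ≤ H.d g (g * c) + (2 * (10 * H.n h + 8 * H.D) + t + 2 * H.n c) :=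
    corner hh ht' hg1 hq
  have h2 := H.d_mul g c
  have h3 : H.d g 1 = H.n g := by rw [H.hyp4.symm, H.d_one]
  show H.n g ≤ _
  omega

theorem not_le_Eh {h : G} (hh : Nrm H h) (K : Subgroup G) (hK : h ∈ K) (hf : ∀ x, FinConj K x → x = 1) :
    ∃ c ∈ K, c ∉ Eh h := by
  classical
  by_contra hcon
  push Not at hcon
  set B : ℕ := 2 * H.n h + 3 * H.D with hB
  have hF : {b : G | b ∈ Eh h ∧ H.n b ≤ B}.Finite := (H.ball_fin B).subset fun b hb => hb.2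
  have hex : ∀ b : G, ∃ n : ℤ, n ≠ 0 ∧ (b ∈ Eh h → ∃ m : ℤ, b * h ^ n * b⁻¹ = h ^ m) := by
    intro b
    by_cases hb : b ∈ Eh h
    · obtain ⟨n, m, hn, -, hnm⟩ := mem_Eh.mp hb
      exact ⟨n, hn, fun _ => ⟨m, hnm⟩⟩
    · exact ⟨1, one_ne_zero, fun h' => absurd h' hb⟩
  choose e he0 he using hex
  set N : ℤ := ∏ b ∈ hF.toFinset, e b with hN
  have hN0 : N ≠ 0 := Finset.prod_ne_zero_iff.mpr fun b _ => he0 b
  have key : ∀ b : G, b ∈ Eh h → H.n b ≤ B → ∃ m : ℤ, b * h ^ N * b⁻¹ = h ^ m := by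
    intro b hb1 hb2
    have hmem : b ∈ hF.toFinset := hF.mem_toFinset.mpr ⟨hb1, hb2⟩
    obtain ⟨k, hk⟩ : e b ∣ N := Finset.dvd_prod_of_mem e hmem
    obtain ⟨m, hm⟩ := he b hb1
    refine ⟨m * k, ?_⟩
    rw [hk, zpow_mul, ← conj_zpow, hm, ← zpow_mul]
  have hfin : FinConj K (h ^ N) := by
    refine (hF.image fun b => b * h ^ N * b⁻¹).subset ?_
    rintro y ⟨g, hg, rfl⟩
    obtain ⟨i, hi⟩ := Eh_close hh (hcon g hg)
    refine ⟨(h ^ i)⁻¹ * g, ⟨?_, ?_⟩, ?_⟩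
    · exact (Eh h).mul_mem ((Eh h).inv_mem (zpow_mem_Eh h i)) (hcon g hg)
    · have h1 := H.d_eq (h ^ i) g
      have h2 := H.hyp4.symm (h ^ i) g
      show H.n ((h ^ i)⁻¹ * g) ≤ B
      omega
    · have hb1 : (h ^ i)⁻¹ * g ∈ Eh h :=
        (Eh h).mul_mem ((Eh h).inv_mem (zpow_mem_Eh h i)) (hcon g hg)
      have hb2 : H.n ((h ^ i)⁻¹ * g) ≤ B := by
        have h1 := H.d_eq (h ^ i) g
        have h2 := H.hyp4.symm (h ^ i) g
        omega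
      obtain ⟨m, hm⟩ := key _ hb1 hb2
      show (h ^ i)⁻¹ * g * h ^ N * ((h ^ i)⁻¹ * g)⁻¹ = g * h ^ N * g⁻¹
      have h3 : g * h ^ N * g⁻¹ = h ^ i * ((h ^ i)⁻¹ * g * h ^ N * ((h ^ i)⁻¹ * g)⁻¹) * (h ^ i)⁻¹ := by
        group
      rw [h3, hm, ← zpow_neg, ← zpow_add, ← zpow_add]
      congr 1
      ring
  exact nrm_pow_ne hh N hN0 (hf _ hfin)

theorem exists_tests {h : G} (hh : Nrm H h) (K : Subgroup G) (hK : h ∈ K) (hf : ∀ x, FinConj K x → x = 1) :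
    ∃ T : List G, T ≠ [] ∧ (∀ c ∈ T, c ∈ K ∧ c ∉ Eh h) ∧
      ∀ s, s ∈ Ep h → (∀ c ∈ T, c⁻¹ * s * c ∈ Ep h) → s = 1 := by
  classical
  obtain ⟨c0, hc0K, hc0E⟩ := not_le_Eh hh K hK hf
  let FT : List G → Set G := fun T => {s | s ∈ Ep h ∧ ∀ c ∈ T, c⁻¹ * s * c ∈ Ep h}
  let ok : List G → Prop := fun T => T ≠ [] ∧ ∀ c ∈ T, c ∈ K ∧ c ∉ Eh h
  have hfin : ∀ T, ok T → (FT T).Finite := by
    rintro T ⟨hT, hT2⟩
    obtain ⟨c, hc⟩ := List.exists_mem_of_ne_nil T hT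
    refine (inter_fin hh (hT2 c hc).2).subset ?_
    rintro s ⟨hs1, hs2⟩
    exact ⟨Ep_le_Eh h hs1, Ep_le_Eh h (hs2 c hc)⟩
  have hex : ∃ n : ℕ, ∃ T, ok T ∧ (FT T).ncard = n :=
    ⟨_, [c0], ⟨by simp, by simpa using ⟨hc0K, hc0E⟩⟩, rfl⟩
  obtain ⟨T, hT, hTn⟩ := Nat.find_spec hex
  have hmin : ∀ T', ok T' → (FT T).ncard ≤ (FT T').ncard := by
    intro T' hT'
    rw [hTn]
    exact Nat.find_min' hex ⟨T', hT', rfl⟩
  -- all `K`-conjugates of the elements of `FT T` are in `E⁺(h)`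
  have hall : ∀ c ∈ K, ∀ s ∈ FT T, c⁻¹ * s * c ∈ Ep h := by
    intro c hc s hs
    by_cases hcE : c ∈ Eh h
    · have h1 := conj_Ep ((Eh h).inv_mem hcE) hs.1
      rwa [inv_inv] at h1
    · have hok : ok (c :: T) := by
        refine ⟨by simp, ?_⟩
        intro c' hc'
        rcases List.mem_cons.mp hc' with rfl | hc'
        · exact ⟨hc, hcE⟩
        · exact hT.2 c' hc'
      have hsub : FT (c :: T) ⊆ FT T := by
        rintro s ⟨hs1, hs2⟩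
        exact ⟨hs1, fun c' hc' => hs2 c' (List.mem_cons_of_mem _ hc')⟩
      have heq : FT (c :: T) = FT T := Set.eq_of_subset_of_ncard_le hsub (hmin _ hok) (hfin T hT)
      rw [← heq] at hs
      exact hs.2 c List.mem_cons_self
  refine ⟨T, hT.1, hT.2, fun s hs1 hs2 => hf s ?_⟩
  refine (hfin T hT).subset ?_
  rintro y ⟨k, hk, rfl⟩
  have hs : s ∈ FT T := ⟨hs1, hs2⟩
  refine ⟨?_, ?_⟩
  · have h1 := hall k⁻¹ (K.inv_mem hk) s hs
    rwa [inv_inv] at h1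
  · intro c hc
    have h1 := hall (k⁻¹ * c) (K.mul_mem (K.inv_mem hk) (hT.2 c hc).1) s hs
    have h2 : (k⁻¹ * c)⁻¹ * s * (k⁻¹ * c) = c⁻¹ * (k * s * k⁻¹) * c := by group
    rwa [h2] at h1

end Pool.SC
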