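import Pool.Agent.Lib.MP_565fc2_lc.SC.P1

/-!
# SC-P2: far vertices; bi-infinite chains

PROOFS.
`alt`: if `2 th < p y u v` then for every `w`: `p w' (e y) u ≤ th` or `p w' (e y) v ≤ th`, where `w = e w'` is different from `e y`, and
`u, v ≠ e y`, `u, v ≠ e w'`: otherwise `beh` (for `y`, `w'` and `u`, resp. `v`) gives `p y u (e w') ≤ th` and `p y v (e w') ≤ th`, so
`p y u v ≤ 2 th` by `tri`.
`ch_far`: chain with constant `4 th`, `w : Y` with `e w ≠ Z i` for all `i ≤ n`, `1 ≤ n`.  For `0 < i < n` `ch_mid` gives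
`2 th < p (y i) (Z 0) (Z n)`, so `alt`.  Take the least `i ≥ 1` with `p w (Z i) (Z n) ≤ th` (`i = n` works by `self`).  Then `i = 1` or
`p w (Z (i-1)) (Z 0) ≤ th`; so `p w (Z 0) (Z n) ≤ p w (Z 0) (Z (i-1)) + p w (Z (i-1)) (Z i) + p w (Z i) (Z n)`; for `i = 1` the first term
is `≤ th` by `self`.
`zc_*`: bi-infinite chains `y : ℤ → Y`: apply the `ℕ` versions to `fun a : ℕ => e (y (i + a))`.
-/

set_option autoImplicit false

namespace Pool.SC

variable {Y V : Type} {R : PS Y V}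

theorem alt {y w : Y} {u v : V} (hyw : y ≠ w) (hu : u ≠ R.e y) (hv : v ≠ R.e y) (hu' : u ≠ R.e w) (hv' : v ≠ R.e w)
    (h : 2 * R.th < R.p y u v) : R.p w (R.e y) u ≤ R.th ∨ R.p w (R.e y) v ≤ R.th := by
  by_contra hcon
  push Not at hcon
  obtain ⟨h1, h2⟩ := hcon
  have a1 : R.p y u (R.e w) ≤ R.th := by
    rcases R.beh y w u hyw hu hu' with h3 | h3
    · exact h3
    · rw [R.symm] at h3
      omega
  have a2 : R.p y v (R.e w) ≤ R.th := by
    rcases R.beh y w v hyw hv hv' with h3 | h3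
    · exact h3
    · rw [R.symm] at h3
      omega
  have hwy : R.e w ≠ R.e y := fun h3 => hyw (R.inj h3).symm
  have a3 := R.tri y u (R.e w) v hu hwy hv
  rw [R.symm y (R.e w) v] at a3
  omega

theorem ch_far {n : ℕ} {Z : ℕ → V} {y : ℕ → Y} (h : Chain R (4 * R.th) n Z y) (hn : 1 ≤ n) (w : Y)
    (hw : ∀ i, i ≤ n → Z i ≠ R.e w) : ∃ i, i < n ∧ R.p w (Z 0) (Z n) ≤ R.p w (Z i) (Z (i + 1)) + 2 * R.th := by
  classical
  have h3 : Chain R (3 * R.th) n Z y := h.mono (by omega)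
  have hex : ∃ i, 1 ≤ i ∧ i ≤ n ∧ R.p w (Z i) (Z n) ≤ R.th :=
    ⟨n, hn, le_rfl, R.self w (Z n) (hw n le_rfl)⟩
  obtain ⟨hi1, hin, hip⟩ := Nat.find_spec hex
  have hmin := fun m (hm : m < Nat.find hex) => Nat.find_min hex hm
  generalize Nat.find hex = i at hi1 hin hip hmin
  refine ⟨i - 1, by omega, ?_⟩
  have e1 : i - 1 + 1 = i := by omega
  rw [e1]
  have t1 := R.tri w (Z (i - 1)) (Z i) (Z n) (hw _ (by omega)) (hw _ hin) (hw _ le_rfl)
  rcases Nat.eq_or_lt_of_le hi1 with h1 | h1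
  · have e2 : i - 1 = 0 := by omega
    rw [e2] at t1 ⊢
    omega
  · have hj : R.p w (Z (i - 1)) (Z n) ≤ R.th → False := by
      intro h4
      exact hmin (i - 1) (by omega) ⟨by omega, by omega, h4⟩
    have hm := ch_mid h3 0 (i - 1) n (by omega) (by omega) le_rfl
    have hb := h.big (i - 1) (by omega) (by omega)
    have hZ := h.ind (i - 1) (by omega) (by omega)
    have n0 : Z 0 ≠ Z (i - 1) := (ch_left h3 0 (i - 1) (by omega) (by omega)).1
    have n1 : Z (i - 1) ≠ Z n := (ch_left h3 (i - 1) n (by omega) le_rfl).1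
    have hyw : y (i - 1) ≠ w := by
      intro h4
      apply hw (i - 1) (by omega)
      rw [hZ, h4]
    have ha := alt (R := R) (y := y (i - 1)) (w := w) (u := Z 0) (v := Z n) hyw
      (by rw [← hZ]; exact n0) (by rw [← hZ]; exact n1.symm) (hw 0 (by omega)) (hw n le_rfl)
      (by omega)
    rw [← hZ] at ha
    rcases ha with ha | ha
    · have t2 := R.tri w (Z 0) (Z (i - 1)) (Z n) (hw _ (by omega)) (hw _ (by omega)) (hw _ le_rfl)
      rw [R.symm w (Z 0) (Z (i - 1))] at t2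
      omega
    · exact absurd ha hj

variable (R) in
/-- a bi-infinite chain of indices -/
structure ZChain (y : ℤ → Y) : Prop where
  ne : ∀ i, y i ≠ y (i + 1)
  big : ∀ i, 4 * R.th < R.p (y i) (R.e (y (i - 1))) (R.e (y (i + 1)))

private theorem P2_chain {y : ℤ → Y} (h : ZChain R y) (i : ℤ) (n : ℕ) :
    Chain R (4 * R.th) n (fun a : ℕ => R.e (y (i + a))) (fun a : ℕ => y (i + a)) where
  ind := fun _ _ _ => rfl
  ne := by
    intro a _ h1
    have h2 := R.inj h1
    apply h.ne (i + a)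
    rw [h2]
    congr 1
    push_cast
    ring
  big := by
    intro a ha _
    have h1 := h.big (i + a)
    have e1 : i + (a : ℤ) - 1 = i + ((a - 1 : ℕ) : ℤ) := by
      rw [Nat.cast_sub (by omega)]
      push_cast
      ring
    have e2 : i + (a : ℤ) + 1 = i + ((a + 1 : ℕ) : ℤ) := by
      push_cast
      ring
    rw [e1, e2] at h1
    exact h1

private theorem P2_chain3 {y : ℤ → Y} (h : ZChain R y) (i : ℤ) (n : ℕ) :
    Chain R (3 * R.th) n (fun a : ℕ => R.e (y (i + a))) (fun a : ℕ => y (i + a)) :=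
  (P2_chain h i n).mono (by omega)

private theorem P2_ne {y : ℤ → Y} (h : ZChain R y) (i j : ℤ) (hij : i < j) : y i ≠ y j := by
  intro h1
  obtain ⟨a, ha⟩ := Int.eq_ofNat_of_zero_le (show 0 ≤ j - i by omega)
  have h2 := (ch_left (P2_chain3 h i a) 0 a (by omega) le_rfl).1
  apply h2
  show R.e (y (i + ((0 : ℕ) : ℤ))) = R.e (y (i + (a : ℤ)))
  have e1 : i + ((0 : ℕ) : ℤ) = i := by simp
  have e2 : i + (a : ℤ) = j := by omega
  rw [e1, e2, h1]

theorem zc_inj {y : ℤ → Y} (h : ZChain R y) : Function.Injective y := by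
  intro i j hij
  rcases lt_trichotomy i j with h1 | h1 | h1
  · exact absurd hij (P2_ne h i j h1)
  · exact h1
  · exact absurd hij.symm (P2_ne h j i h1)

theorem zc_mid {y : ℤ → Y} (h : ZChain R y) (i j l : ℤ) (hij : i < j) (hjl : j < l) :
    R.p (y j) (R.e (y (j - 1))) (R.e (y (j + 1))) ≤ R.p (y j) (R.e (y i)) (R.e (y l)) + 2 * R.th ∧
      R.p (y j) (R.e (y i)) (R.e (y l)) ≤ R.p (y j) (R.e (y (j - 1))) (R.e (y (j + 1))) + 2 * R.th := by
  obtain ⟨a, ha⟩ := Int.eq_ofNat_of_zero_le (show 0 ≤ j - i by omega)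
  obtain ⟨b, hb⟩ := Int.eq_ofNat_of_zero_le (show 0 ≤ l - i by omega)
  have h1 := ch_mid (P2_chain3 h i b) 0 a b (by omega) (by omega) le_rfl
  have e0 : i + ((0 : ℕ) : ℤ) = i := by simp
  have e1 : i + (a : ℤ) = j := by omega
  have e2 : i + (b : ℤ) = l := by omega
  have e3 : i + ((a - 1 : ℕ) : ℤ) = j - 1 := by omega
  have e4 : i + ((a + 1 : ℕ) : ℤ) = j + 1 := by omega
  simp only [e0, e1, e2, e3, e4] at h1
  exact h1

theorem zc_side {y : ℤ → Y} (h : ZChain R y) (i j l : ℤ) (hij : (i < j ∧ l < j) ∨ (j < i ∧ j < l)) :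
    R.p (y j) (R.e (y i)) (R.e (y l)) ≤ 2 * R.th := by
  rcases hij with ⟨h1, h2⟩ | ⟨h1, h2⟩
  · obtain ⟨a, ha⟩ := Int.eq_ofNat_of_zero_le (show 0 ≤ i - min i l by omega)
    obtain ⟨b, hb⟩ := Int.eq_ofNat_of_zero_le (show 0 ≤ l - min i l by omega)
    obtain ⟨c, hc⟩ := Int.eq_ofNat_of_zero_le (show 0 ≤ j - min i l by omega)
    have h3 := ch_side_left (P2_chain3 h (min i l) (c + 1)) a b c (by omega) (by omega) (by omega)
    have e1 : min i l + (a : ℤ) = i := by omega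
    have e2 : min i l + (b : ℤ) = l := by omega
    have e3 : min i l + (c : ℤ) = j := by omega
    simp only [e1, e2, e3] at h3
    exact h3
  · obtain ⟨a, ha⟩ := Int.eq_ofNat_of_zero_le (show 0 ≤ i - (j - 1) by omega)
    obtain ⟨b, hb⟩ := Int.eq_ofNat_of_zero_le (show 0 ≤ l - (j - 1) by omega)
    have h3 := ch_side_right (P2_chain3 h (j - 1) (max a b)) a b 1 (by omega) (by omega) (by omega)
      (by omega) (by omega)
    have e1 : j - 1 + (a : ℤ) = i := by omega
    have e2 : j - 1 + (b : ℤ) = l := by omega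
    have e3 : j - 1 + ((1 : ℕ) : ℤ) = j := by push_cast; ring
    simp only [e1, e2, e3] at h3
    exact h3

/-- neighbours: `y (j-1)` and `y i`, `i < j`, project close to each other on `y j` -/
theorem zc_left {y : ℤ → Y} (h : ZChain R y) (i j : ℤ) (hij : i < j) :
    R.p (y j) (R.e (y (j - 1))) (R.e (y i)) ≤ R.th := by
  obtain ⟨a, ha⟩ := Int.eq_ofNat_of_zero_le (show 0 ≤ j - i by omega)
  have h1 := (ch_left (P2_chain3 h i (a + 1)) 0 a (by omega) (by omega)).2 (by omega)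
  have e0 : i + ((0 : ℕ) : ℤ) = i := by simp
  have e1 : i + (a : ℤ) = j := by omega
  have e3 : i + ((a - 1 : ℕ) : ℤ) = j - 1 := by omega
  simp only [e0, e1, e3] at h1
  exact h1

theorem zc_right {y : ℤ → Y} (h : ZChain R y) (i j : ℤ) (hij : i < j) :
    R.p (y i) (R.e (y (i + 1))) (R.e (y j)) ≤ R.th := by
  obtain ⟨a, ha⟩ := Int.eq_ofNat_of_zero_le (show 0 ≤ j - (i - 1) by omega)
  have h1 := ch_right (P2_chain3 h (i - 1) a) 1 a (by omega) (by omega) le_rfl
  have e0 : i - 1 + ((1 : ℕ) : ℤ) = i := by push_cast; ring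
  have e1 : i - 1 + (a : ℤ) = j := by omega
  have e3 : i - 1 + ((1 + 1 : ℕ) : ℤ) = i + 1 := by push_cast; ring
  simp only [e0, e1, e3] at h1
  exact h1

/-- an index which is not in the chain; `c` bounds the projections of consecutive members -/
theorem zc_far {y : ℤ → Y} (h : ZChain R y) (w : Y) (c : ℕ) (hw : ∀ i, y i ≠ w)
    (hc : ∀ i, R.p w (R.e (y i)) (R.e (y (i + 1))) ≤ c) (i l : ℤ) : R.p w (R.e (y i)) (R.e (y l)) ≤ c + 3 * R.th := by
  have hne : ∀ i, R.e (y i) ≠ R.e w := fun i h1 => hw i (R.inj h1)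
  have key : ∀ i l : ℤ, i < l → R.p w (R.e (y i)) (R.e (y l)) ≤ c + 3 * R.th := by
    intro i l hil
    obtain ⟨a, ha⟩ := Int.eq_ofNat_of_zero_le (show 0 ≤ l - i by omega)
    obtain ⟨b, hb, h1⟩ := ch_far (P2_chain h i a) (by omega) w (fun b _ => hne _)
    have e0 : i + ((0 : ℕ) : ℤ) = i := by simp
    have e1 : i + (a : ℤ) = l := by omega
    have e2 : i + ((b + 1 : ℕ) : ℤ) = i + (b : ℤ) + 1 := by push_cast; ring
    simp only [e0, e1, e2] at h1
    have h2 := hc (i + (b : ℤ))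
    omega
  rcases lt_trichotomy i l with h1 | h1 | h1
  · exact key i l h1
  · subst h1
    have := R.self w (R.e (y i)) (hne i)
    omega
  · rw [R.symm]
    exact key l i h1

end Pool.SC
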