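import Pool.Agent.Lib.MP_565fc2_lc.SC.P2

/-!
# SC-P3: rotating families and windmills: definitions

`Rot`: a projection system with a group action and rotation subgroups (paper, section 4).  `Wm`: windmills.
The one step extension of a windmill `w`:
`wB w` (adjacent indices), `wPlus w` (`W⁺`), `wN w` (`N'`), `wNew w` (`W' = N' W⁺`).
-/

set_option autoImplicit false

namespace Pool.SC

/-- a rotating family on a projection system -/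
structure Rot (D Y V : Type) [Group D] extends PS Y V where
  /-- action on the indices and on the vertices -/
  aY : D → Y → Y
  aV : D → V → V
  aV_one : ∀ v, aV 1 v = v
  aV_mul : ∀ g h v, aV (g * h) v = aV g (aV h v)
  e_a : ∀ g y, e (aY g y) = aV g (e y)
  equi : ∀ g y u v, p (aY g y) (aV g u) (aV g v) = p y u v
  /-- rotation subgroups -/
  Γ : Y → Subgroup D
  Γ_conj : ∀ g y n, n ∈ Γ y → g * n * g⁻¹ ∈ Γ (aY g y)
  Γ_fix : ∀ y n, n ∈ Γ y → aY n y = y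
  /-- base point -/
  x0 : V
  x0_ne : ∀ g y, aV g x0 ≠ e y
  /-- rotation lengths -/
  L : Y → ℕ
  L_inv : ∀ g y, L (aY g y) = L y
  rot : ∀ y n, n ∈ Γ y → n ≠ 1 → L y ≤ p y x0 (aV n x0)
  th_pos : 1 ≤ th
  L_big : ∀ y, 100 * th ≤ L y
  /-- rank -/
  r : Y → ℕ
  rank : ∀ y z, z ≠ y → 10 * th ≤ p z x0 (e y) → r z < r y

variable {D Y V : Type} [Group D]

/-- the group generated by all rotations -/
def Rot.NN (R : Rot D Y V) : Subgroup D := ⨆ y, R.Γ y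

/-- windmills -/
structure Wm (R : Rot D Y V) where
  W : Set V
  N : Subgroup D
  x0_mem : R.x0 ∈ W
  inv : ∀ n ∈ N, ∀ w ∈ W, R.aV n w ∈ W
  Γ_le : ∀ y, R.e y ∈ W → R.Γ y ≤ N
  conv : ∀ y, R.e y ∉ W → ∀ a ∈ W, ∀ b ∈ W, R.p y a b < 10 * R.th
  green : ∀ n ∈ N, n ≠ 1 → ∃ y, R.L y ≤ R.p y R.x0 (R.aV n R.x0) + 44 * R.th

variable {R : Rot D Y V} (w : Wm R)

/-- the indices adjacent to the windmill -/
def wB : Set V := {u | ∃ y, u = R.e y ∧ u ∉ w.W ∧ ∀ z, R.e z ∉ w.W → z ≠ y → ∀ a ∈ w.W, R.p z (R.e y) a < 20 * R.th}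

/-- the hull of the windmill and its neighbours -/
def wPlus : Set V := {u | u ∈ w.W ∨ u ∈ wB w ∨
  ∃ y, u = R.e y ∧ ∃ a b, (a ∈ w.W ∨ a ∈ wB w) ∧ (b ∈ w.W ∨ b ∈ wB w) ∧ a ≠ R.e y ∧ b ≠ R.e y ∧ 6 * R.th ≤ R.p y a b}

/-- the new group -/
def wN : Subgroup D := w.N ⊔ ⨆ y : {y : Y // R.e y ∈ wPlus w ∧ R.e y ∉ w.W}, R.Γ y.1

/-- the new vertex set -/
def wNew : Set V := {u | ∃ n ∈ wN w, ∃ a ∈ wPlus w, u = R.aV n a}

/-- normal forms: `NF w m n g y` : `g 0 = 1`, `g (i+1) = g i * ρ_i` with `1 ≠ ρ_i ∈ Γ (y i)`, `y i` in `W⁺ \ W`, `y i ≠ y (i+1)`,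
`n = g m * a` with `a ∈ N` -/
structure NF (m : ℕ) (n : D) (g : ℕ → D) (y : ℕ → Y) : Prop where
  g0 : g 0 = 1
  step : ∀ i, i < m → (g i)⁻¹ * g (i + 1) ∈ R.Γ (y i) ∧ g i ≠ g (i + 1)
  mem : ∀ i, i < m → R.e (y i) ∈ wPlus w ∧ R.e (y i) ∉ w.W
  ne : ∀ i, i + 1 < m → y i ≠ y (i + 1)
  last : (g m)⁻¹ * n ∈ w.N

end Pool.SC
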