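import Pool.Agent.Lib.MP_565fc2_lc.SC.P3

/-!
# SC-P4: one step of the windmill: elementary facts (paper, section 4 (a), (b))

Constants: `K = 10 th`, so `2K = 20 th`, `K - 4 th = 6 th`.
`act_ne`: `u ≠ e y ↔ aV g u ≠ e (aY g y)` (aV g is a bijection, `e_a`).
`wPlus_near` (a): `y1` an index with `e y1 ∈ W⁺ \ W`, `y2 ≠ y1` an index with `e y2 ∉ W`, `a ∈ W`: `p y2 (e y1) a ≤ 21 th`.
PROOF.  If `e y1 ∈ wB`: `< 20 th`.  Otherwise (third alternative) there are `u1, u2` in `W ∪ B`, different from `e y1`, with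
`6 th ≤ p y1 u1 u2`.  Suppose `p y2 (e y1) a > 21 th`.  `beh` for `y1, y2`, `u = a` (`a ≠ e y1, e y2` because `a ∈ W`) and `p y2 a (e y1) > th` give
`p y1 a (e y2) ≤ th`.  By `tri` some `u ∈ {u1,u2}` has `3 th ≤ p y1 u a`, so `p y1 u (e y2) ≥ 2 th > th` (if `u ≠ ...`: all vertices are different from
`e y1`); if `u = e y2` then `self` gives `p y1 u (e y2) ≤ th`, contradiction; so `u ≠ e y2` and `beh` gives `p y2 u (e y1) ≤ th`; so
`p y2 u a ≥ p y2 (e y1) a - th > 20 th`.  But `u ∈ W` gives `p y2 u a < 10 th` (`conv`) and `u ∈ wB`, `u = e y`, `y ≠ y2` gives `p y2 u a < 20 th`.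
`wPlus_near'`: the same bound for `u ∈ W⁺`, `u ≠ e y2` (if `u ∈ W`: `conv`; otherwise `u = e y1`).
`wB_inv, wPlus_inv` (b): `W`, hence `W ∪ B` and `W⁺`, and their complements, are invariant under `N` (use `equi`, and the inverse of `n`).
`plus_close` (f): for `v` with `e v ∉ W⁺` and `a, b ∈ W⁺`: `p v a b < 8 th`.
PROOF.  Claim: there is `a' ∈ W ∪ B` with `p v a a' ≤ th`: `a' = a` if `a ∈ W ∪ B` (`self`).  Otherwise `a = e y` with `u1, u2` as above;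
`e v ≠ e y, u1, u2`; by `tri` some `u` has `3 th ≤ p y u (e v)`, so `beh` gives `p v u (e y) ≤ th`.  The same for `b`; then
`p v a' b' < 6 th` because otherwise `e v ∈ W⁺` (third alternative; `a', b' ≠ e v`).
-/

set_option autoImplicit false

namespace Pool.SC

variable {D Y V : Type} [Group D] {R : Rot D Y V} (w : Wm R)

private theorem P4_inv_act (g : D) (u : V) : R.aV g⁻¹ (R.aV g u) = u := by
  rw [← R.aV_mul, inv_mul_cancel, R.aV_one]

private theorem P4_act_inv (g : D) (u : V) : R.aV g (R.aV g⁻¹ u) = u := by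
  rw [← R.aV_mul, mul_inv_cancel, R.aV_one]

theorem aV_inj (g : D) : Function.Injective (R.aV g) := by
  intro u v h
  have := congrArg (R.aV g⁻¹) h
  rwa [P4_inv_act, P4_inv_act] at this

theorem aY_inv (g : D) (y : Y) : R.aY g⁻¹ (R.aY g y) = y := by
  apply R.inj
  rw [R.e_a, R.e_a, P4_inv_act]

private theorem P4_aY_inv' (g : D) (y : Y) : R.aY g (R.aY g⁻¹ y) = y := by
  apply R.inj
  rw [R.e_a, R.e_a, P4_act_inv]

theorem act_ne (g : D) (u : V) (y : Y) : R.aV g u ≠ R.e (R.aY g y) ↔ u ≠ R.e y := by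
  rw [R.e_a, (aV_inj g).ne_iff]

/-- the main case of `wPlus_near` -/
private theorem P4_near {y1 y2 : Y} (h2 : R.e y2 ∉ w.W) (hne : y2 ≠ y1) {a : V} (ha : a ∈ w.W)
    (ha1 : a ≠ R.e y1) (ha2 : a ≠ R.e y2) (hbig : 21 * R.th < R.p y2 (R.e y1) a)
    (hA : R.p y1 a (R.e y2) ≤ R.th) {u : V} (hu : u ∈ w.W ∨ u ∈ wB w) (hu1 : u ≠ R.e y1)
    (h3 : 3 * R.th ≤ R.p y1 u a) : False := by
  have hth := R.th_pos
  have he : R.e y2 ≠ R.e y1 := fun h => hne (R.inj h)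
  have hu2 : u ≠ R.e y2 := by
    intro hh
    rw [hh, R.symm] at h3
    omega
  have t1 := R.tri y1 u (R.e y2) a hu1 he ha1
  rw [R.symm y1 (R.e y2) a] at t1
  rcases R.beh y1 y2 u (Ne.symm hne) hu1 hu2 with hb | hb
  · omega
  · have t2 := R.tri y2 (R.e y1) u a (Ne.symm he) hu2 ha2
    rw [R.symm y2 (R.e y1) u] at t2
    rcases hu with hu | ⟨y, hy, -, hB⟩
    · have := w.conv y2 h2 u hu a ha
      omega
    · have hyy : y2 ≠ y := by
        intro hh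
        exact hu2 (by rw [hy, hh])
      have := hB y2 h2 hyy a ha
      rw [← hy] at this
      omega

theorem wPlus_near {y1 y2 : Y} (h1 : R.e y1 ∈ wPlus w) (h1' : R.e y1 ∉ w.W) (h2 : R.e y2 ∉ w.W) (hne : y2 ≠ y1) {a : V}
    (ha : a ∈ w.W) : R.p y2 (R.e y1) a ≤ 21 * R.th := by
  have hth := R.th_pos
  rcases h1 with h1 | ⟨y, hy, -, hB⟩ | ⟨y, hy, u1, u2, hu1, hu2, hn1, hn2, h6⟩
  · exact absurd h1 h1'
  · have hyy := R.inj hy
    subst hyy
    have := hB y2 h2 hne a ha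
    omega
  · have hyy := R.inj hy
    subst hyy
    by_contra hbig
    push Not at hbig
    have ha1 : a ≠ R.e y1 := fun hh => h1' (hh ▸ ha)
    have ha2 : a ≠ R.e y2 := fun hh => h2 (hh ▸ ha)
    have hA : R.p y1 a (R.e y2) ≤ R.th := by
      rcases R.beh y1 y2 a (Ne.symm hne) ha1 ha2 with hb | hb
      · exact hb
      · rw [R.symm] at hb
        omega
    have t := R.tri y1 u1 a u2 hn1 ha1 hn2
    rw [R.symm y1 a u2] at t
    rcases Nat.lt_or_ge (R.p y1 u1 a) (3 * R.th) with h | h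
    · exact P4_near w h2 hne ha ha1 ha2 hbig hA hu2 hn2 (by omega)
    · exact P4_near w h2 hne ha ha1 ha2 hbig hA hu1 hn1 h

theorem wPlus_near' {u : V} {y2 : Y} (h1 : u ∈ wPlus w) (h2 : R.e y2 ∉ w.W) (hne : u ≠ R.e y2) {a : V}
    (ha : a ∈ w.W) : R.p y2 u a ≤ 21 * R.th := by
  by_cases hu : u ∈ w.W
  · have := w.conv y2 h2 u hu a ha
    omega
  · have hy : ∃ y, u = R.e y := by
      rcases h1 with h | ⟨y, hy, -⟩ | ⟨y, hy, -⟩
      · exact absurd h hu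
      · exact ⟨y, hy⟩
      · exact ⟨y, hy⟩
    obtain ⟨y, rfl⟩ := hy
    exact wPlus_near w h1 hu h2 (fun hh => hne (by rw [hh])) ha

theorem w_inv_iff {n : D} (hn : n ∈ w.N) (u : V) : R.aV n u ∈ w.W ↔ u ∈ w.W := by
  constructor
  · intro h
    have := w.inv n⁻¹ (w.N.inv_mem hn) _ h
    rwa [P4_inv_act] at this
  · exact w.inv n hn u

private theorem P4_eW_iff {n : D} (hn : n ∈ w.N) (y : Y) : R.e (R.aY n y) ∈ w.W ↔ R.e y ∈ w.W := by
  rw [R.e_a, w_inv_iff w hn]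

private theorem P4_wB_inv {n : D} (hn : n ∈ w.N) {u : V} (hu : u ∈ wB w) : R.aV n u ∈ wB w := by
  obtain ⟨y, hy, hW, hB⟩ := hu
  refine ⟨R.aY n y, by rw [hy, R.e_a], by rwa [w_inv_iff w hn], fun z hz hzy a ha => ?_⟩
  have hz' : R.e (R.aY n⁻¹ z) ∉ w.W := by rwa [P4_eW_iff w (w.N.inv_mem hn)]
  have hzy' : R.aY n⁻¹ z ≠ y := by
    intro hh
    exact hzy (by rw [← hh, P4_aY_inv'])
  have := hB _ hz' hzy' (R.aV n⁻¹ a) ((w_inv_iff w (w.N.inv_mem hn) a).2 ha)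
  rw [← R.equi n, P4_aY_inv', P4_act_inv, ← R.e_a] at this
  exact this

private theorem P4_WB_inv {n : D} (hn : n ∈ w.N) {u : V} (hu : u ∈ w.W ∨ u ∈ wB w) :
    R.aV n u ∈ w.W ∨ R.aV n u ∈ wB w :=
  hu.imp (w.inv n hn u) (P4_wB_inv w hn)

private theorem P4_wPlus_inv {n : D} (hn : n ∈ w.N) {u : V} (hu : u ∈ wPlus w) : R.aV n u ∈ wPlus w := by
  rcases hu with h | h | ⟨y, hy, a, b, ha, hb, hna, hnb, h6⟩
  · exact Or.inl (w.inv n hn u h)
  · exact Or.inr (Or.inl (P4_wB_inv w hn h))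
  · refine Or.inr (Or.inr ⟨R.aY n y, by rw [hy, R.e_a], R.aV n a, R.aV n b, P4_WB_inv w hn ha,
      P4_WB_inv w hn hb, (act_ne n a y).2 hna, (act_ne n b y).2 hnb, ?_⟩)
    rwa [R.equi]

theorem wPlus_inv_iff {n : D} (hn : n ∈ w.N) (u : V) : R.aV n u ∈ wPlus w ↔ u ∈ wPlus w := by
  constructor
  · intro h
    have := P4_wPlus_inv w (w.N.inv_mem hn) h
    rwa [P4_inv_act] at this
  · exact P4_wPlus_inv w hn

theorem wNew_inv_iff {n : D} (hn : n ∈ wN w) (u : V) : R.aV n u ∈ wNew w ↔ u ∈ wNew w := by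
  constructor
  · rintro ⟨m, hm, a, ha, h⟩
    refine ⟨n⁻¹ * m, (wN w).mul_mem ((wN w).inv_mem hn) hm, a, ha, ?_⟩
    rw [R.aV_mul, ← h, P4_inv_act]
  · rintro ⟨m, hm, a, ha, h⟩
    refine ⟨n * m, (wN w).mul_mem hn hm, a, ha, ?_⟩
    rw [R.aV_mul, ← h]

private theorem P4_close {v : Y} (hv : R.e v ∉ wPlus w) {a : V} (ha : a ∈ wPlus w) :
    ∃ a', (a' ∈ w.W ∨ a' ∈ wB w) ∧ a' ≠ R.e v ∧ R.p v a a' ≤ R.th := by
  have hth := R.th_pos
  have hWB : ∀ u, (u ∈ w.W ∨ u ∈ wB w) → u ≠ R.e v := by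
    intro u hu hh
    rw [hh] at hu
    rcases hu with hu | hu
    · exact hv (Or.inl hu)
    · exact hv (Or.inr (Or.inl hu))
  have hself : (a ∈ w.W ∨ a ∈ wB w) → ∃ a', (a' ∈ w.W ∨ a' ∈ wB w) ∧ a' ≠ R.e v ∧ R.p v a a' ≤ R.th :=
    fun h => ⟨a, h, hWB a h, R.self v a (hWB a h)⟩
  have hav : a ≠ R.e v := fun hh => hv (hh ▸ ha)
  rcases ha with h | h | ⟨y, hy, u1, u2, hu1, hu2, hn1, hn2, h6⟩
  · exact hself (Or.inl h)
  · exact hself (Or.inr h)
  · have hyv : y ≠ v := by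
      intro hh
      exact hav (by rw [hy, hh])
    have hev : R.e v ≠ R.e y := fun hh => hyv (R.inj hh).symm
    have key : ∀ u, (u ∈ w.W ∨ u ∈ wB w) → u ≠ R.e y → 3 * R.th ≤ R.p y u (R.e v) →
        ∃ a', (a' ∈ w.W ∨ a' ∈ wB w) ∧ a' ≠ R.e v ∧ R.p v a a' ≤ R.th := by
      intro u hu hny h3
      refine ⟨u, hu, hWB u hu, ?_⟩
      rcases R.beh y v u hyv hny (hWB u hu) with hb | hb
      · omega
      · rw [hy, R.symm]
        exact hb
    have t := R.tri y u1 (R.e v) u2 hn1 hev hn2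
    rw [R.symm y (R.e v) u2] at t
    rcases Nat.lt_or_ge (R.p y u1 (R.e v)) (3 * R.th) with h | h
    · exact key u2 hu2 hn2 (by omega)
    · exact key u1 hu1 hn1 h

theorem plus_close {v : Y} (hv : R.e v ∉ wPlus w) {a b : V} (ha : a ∈ wPlus w) (hb : b ∈ wPlus w) :
    R.p v a b < 8 * R.th := by
  obtain ⟨a', ha', hna, hpa⟩ := P4_close w hv ha
  obtain ⟨b', hb', hnb, hpb⟩ := P4_close w hv hb
  have hav : a ≠ R.e v := fun hh => hv (hh ▸ ha)
  have hbv : b ≠ R.e v := fun hh => hv (hh ▸ hb)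
  have h6 : R.p v a' b' < 6 * R.th := by
    by_contra h
    push Not at h
    exact hv (Or.inr (Or.inr ⟨v, rfl, a', b', ha', hb', hna, hnb, h⟩))
  have t1 := R.tri v a a' b hav hna hbv
  have t2 := R.tri v a' b' b hna hnb hbv
  rw [R.symm v b' b] at t2
  omega

end Pool.SC
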