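import Pool.Agent.Lib.MP_565fc2_lc.SC.P4

/-!
# SC-P5: normal forms in the new group of a windmill (paper, section 4 (c))

PROOF of `exists_nf`.  `Subgroup.closure_induction_left`-style: the set of all `n` with a normal form contains `1` (`m = 0`, `g = 1`) and is closed under
left multiplication by (i) elements `c ∈ w.N`: from `(m, g, y)` for `n` one gets `(m, fun i => c * g i * c⁻¹, fun i => aY c (y i))` for `c * n`
(`(c g_m c⁻¹)⁻¹ (c n) = c (g_m⁻¹ n) ∈ N`; `(c g_i c⁻¹)⁻¹ c g_{i+1} c⁻¹ = c (g_i⁻¹ g_{i+1}) c⁻¹ ∈ Γ (aY c (y i))` by `Γ_conj`; membership by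
`wPlus_inv_iff`, `w_inv_iff`, `e_a`);  (ii) elements `ρ ∈ Γ z`, `e z ∈ W⁺ \ W`, `ρ ≠ 1`: if `m = 0` or `z ≠ y 0`: new form of length `m + 1` with
`g' 0 = 1`, `g' (i+1) = ρ * g i`, `y' 0 = z`, `y' (i+1) = y i`.  If `m > 0` and `z = y 0`: `ρ₁ = ρ * g 1` (`g 0 = 1`); if `ρ₁ ≠ 1`: the same
length, `g' 0 = 1`, `g' (i+1) = ρ * g (i+1)`, same `y`; if `ρ₁ = 1`: length `m - 1`, `g' i = ρ * g (i+1)`, `y' i = y (i+1)`.
`wN` is generated by `w.N` and the `Γ z`: use `Subgroup.iSup`/`closure` induction (for instance show that `wN w` is the closure of the union of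
the carriers and use `Subgroup.closure_induction_left` or prove that `{n | ∀ k, NFs k → NFs (n * k)}` is a subgroup).
-/

set_option autoImplicit false

namespace Pool.SC

variable {D Y V : Type} [Group D] {R : Rot D Y V} (w : Wm R)

private theorem p5_aY_mul (g h : D) (y : Y) : R.aY (g * h) y = R.aY g (R.aY h y) := by
  apply R.inj
  rw [R.e_a, R.aV_mul, R.e_a, R.e_a]

private theorem p5_conj {n c : D} (hc : c ∈ w.N) {m : ℕ} {g : ℕ → D} {y : ℕ → Y}
    (h : NF w m n g y) : NF w m (c * n) (fun i => c * g i * c⁻¹) (fun i => R.aY c (y i)) where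
  g0 := by
    simp only [h.g0]
    group
  step := fun i hi => by
    obtain ⟨h1, h2⟩ := h.step i hi
    refine ⟨?_, fun h3 => h2 ?_⟩
    · have e : (c * g i * c⁻¹)⁻¹ * (c * g (i + 1) * c⁻¹) = c * ((g i)⁻¹ * g (i + 1)) * c⁻¹ := by
        group
      rw [e]
      exact R.Γ_conj c (y i) _ h1
    · exact mul_left_cancel (mul_right_cancel h3)
  mem := fun i hi => by
    obtain ⟨h1, h2⟩ := h.mem i hi
    rw [R.e_a]
    exact ⟨(wPlus_inv_iff w hc _).2 h1, fun h3 => h2 ((w_inv_iff w hc _).1 h3)⟩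
  ne := fun i hi h3 => h.ne i hi (by
    have h4 := congrArg (R.aY c⁻¹) h3
    rwa [aY_inv, aY_inv] at h4)
  last := by
    have e : (c * g m * c⁻¹)⁻¹ * (c * n) = c * ((g m)⁻¹ * n) := by group
    rw [e]
    exact w.N.mul_mem hc h.last

private theorem p5_rot {n ρ : D} {z : Y} (hz : R.e z ∈ wPlus w ∧ R.e z ∉ w.W) (hρ : ρ ∈ R.Γ z)
    (h : ∃ (m : ℕ) (g : ℕ → D) (y : ℕ → Y), NF w m n g y) :
    ∃ (m : ℕ) (g : ℕ → D) (y : ℕ → Y), NF w m (ρ * n) g y := by
  obtain ⟨m, g, y, h⟩ := h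
  by_cases hρ1 : ρ = 1
  · subst hρ1
    exact ⟨m, g, y, by rwa [one_mul]⟩
  by_cases hcase : m = 0 ∨ z ≠ y 0
  · refine ⟨m + 1, fun i => Nat.casesOn i 1 fun j => ρ * g j, fun i => Nat.casesOn i z y, ?_⟩
    refine ⟨rfl, ?_, ?_, ?_, ?_⟩
    · intro i hi
      cases i with
      | zero =>
        show (1 : D)⁻¹ * (ρ * g 0) ∈ R.Γ z ∧ (1 : D) ≠ ρ * g 0
        rw [h.g0, mul_one, inv_one, one_mul]
        exact ⟨hρ, fun h1 => hρ1 h1.symm⟩
      | succ j =>
        obtain ⟨h1, h2⟩ := h.step j (by omega)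
        show (ρ * g j)⁻¹ * (ρ * g (j + 1)) ∈ R.Γ (y j) ∧ ρ * g j ≠ ρ * g (j + 1)
        refine ⟨?_, fun h3 => h2 (mul_left_cancel h3)⟩
        have e : (ρ * g j)⁻¹ * (ρ * g (j + 1)) = (g j)⁻¹ * g (j + 1) := by group
        rw [e]
        exact h1
    · intro i hi
      cases i with
      | zero => exact hz
      | succ j => exact h.mem j (by omega)
    · intro i hi
      cases i with
      | zero =>
        show z ≠ y 0
        rcases hcase with h0 | h0
        · omega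
        · exact h0
      | succ j => exact h.ne j (by omega)
    · show (ρ * g m)⁻¹ * (ρ * n) ∈ w.N
      have e : (ρ * g m)⁻¹ * (ρ * n) = (g m)⁻¹ * n := by group
      rw [e]
      exact h.last
  · push Not at hcase
    obtain ⟨hm, hzy⟩ := hcase
    obtain ⟨k, rfl⟩ : ∃ k, m = k + 1 := ⟨m - 1, by omega⟩
    have hs0 := h.step 0 (by omega)
    rw [h.g0, inv_one, one_mul, zero_add, ← hzy] at hs0
    by_cases h1 : ρ * g 1 = 1
    · refine ⟨k, fun i => ρ * g (i + 1), fun i => y (i + 1), h1, ?_, ?_, ?_, ?_⟩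
      · intro i hi
        obtain ⟨h2, h3⟩ := h.step (i + 1) (by omega)
        refine ⟨?_, fun h4 => h3 (mul_left_cancel h4)⟩
        have e : (ρ * g (i + 1))⁻¹ * (ρ * g (i + 1 + 1)) = (g (i + 1))⁻¹ * g (i + 1 + 1) := by
          group
        show (ρ * g (i + 1))⁻¹ * (ρ * g (i + 1 + 1)) ∈ R.Γ (y (i + 1))
        rw [e]
        exact h2
      · intro i hi
        exact h.mem (i + 1) (by omega)
      · intro i hi
        exact h.ne (i + 1) (by omega)
      · show (ρ * g (k + 1))⁻¹ * (ρ * n) ∈ w.N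
        have e : (ρ * g (k + 1))⁻¹ * (ρ * n) = (g (k + 1))⁻¹ * n := by group
        rw [e]
        exact h.last
    · refine ⟨k + 1, fun i => Nat.casesOn i 1 fun j => ρ * g (j + 1), y, rfl, ?_, h.mem, h.ne, ?_⟩
      · intro i hi
        cases i with
        | zero =>
          show (1 : D)⁻¹ * (ρ * g (0 + 1)) ∈ R.Γ (y 0) ∧ (1 : D) ≠ ρ * g (0 + 1)
          rw [inv_one, one_mul, zero_add, ← hzy]
          exact ⟨(R.Γ z).mul_mem hρ hs0.1, fun h2 => h1 h2.symm⟩
        | succ j =>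
          obtain ⟨h2, h3⟩ := h.step (j + 1) hi
          show (ρ * g (j + 1))⁻¹ * (ρ * g (j + 1 + 1)) ∈ R.Γ (y (j + 1)) ∧
            ρ * g (j + 1) ≠ ρ * g (j + 1 + 1)
          refine ⟨?_, fun h4 => h3 (mul_left_cancel h4)⟩
          have e : (ρ * g (j + 1))⁻¹ * (ρ * g (j + 1 + 1)) = (g (j + 1))⁻¹ * g (j + 1 + 1) := by
            group
          rw [e]
          exact h2
      · show (ρ * g (k + 1))⁻¹ * (ρ * n) ∈ w.N
        have e : (ρ * g (k + 1))⁻¹ * (ρ * n) = (g (k + 1))⁻¹ * n := by group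
        rw [e]
        exact h.last

theorem exists_nf [Nonempty Y] {n : D} (hn : n ∈ wN w) : ∃ (m : ℕ) (g : ℕ → D) (y : ℕ → Y), NF w m n g y := by
  let P : D → Prop := fun n => ∃ (m : ℕ) (g : ℕ → D) (y : ℕ → Y), NF w m n g y
  let T : Subgroup D :=
    { carrier := {k | ∀ n, P n ↔ P (k * n)}
      mul_mem' := fun {a b} ha hb n => by
        rw [mul_assoc]
        exact (hb n).trans (ha (b * n))
      one_mem' := fun n => by rw [one_mul]
      inv_mem' := fun {a} ha n => by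
        have := ha (a⁻¹ * n)
        rw [mul_inv_cancel_left] at this
        exact this.symm }
  have hN : w.N ≤ T := by
    intro c hc n
    refine ⟨fun ⟨m, g, y, h⟩ => ⟨m, _, _, p5_conj w hc h⟩, fun ⟨m, g, y, h⟩ => ?_⟩
    have h1 := p5_conj w (w.N.inv_mem hc) h
    rw [inv_mul_cancel_left] at h1
    exact ⟨m, _, _, h1⟩
  have hG : ⨆ y : {y : Y // R.e y ∈ wPlus w ∧ R.e y ∉ w.W}, R.Γ y.1 ≤ T := by
    refine iSup_le fun z ρ hρ n => ⟨fun h => p5_rot w z.2 hρ h, fun h => ?_⟩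
    have h1 := p5_rot w z.2 ((R.Γ z.1).inv_mem hρ) h
    rwa [inv_mul_cancel_left] at h1
  have h1 : n ∈ T := (sup_le hN hG : wN w ≤ T) hn
  have h2 : P 1 := ⟨0, fun _ => 1, fun _ => Classical.arbitrary Y, ⟨rfl, fun i hi => absurd hi (by omega),
      fun i hi => absurd hi (by omega), fun i hi => absurd hi (by omega), by
        rw [inv_one, one_mul]
        exact w.N.one_mem⟩⟩
  have h3 := (h1 1).1 h2
  rwa [mul_one] at h3

/-- the partial products lie in the new group -/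
theorem nf_mem {n : D} {m : ℕ} {g : ℕ → D} {y : ℕ → Y} (h : NF w m n g y) : ∀ i, i ≤ m → g i ∈ wN w := by
  intro i
  induction i with
  | zero =>
    intro _
    rw [h.g0]
    exact (wN w).one_mem
  | succ i ih =>
    intro hi
    have h1 := ih (by omega)
    have h2 := (h.step i (by omega)).1
    have h3 : R.Γ (y i) ≤ wN w :=
      le_trans (le_iSup (fun y : {y : Y // R.e y ∈ wPlus w ∧ R.e y ∉ w.W} => R.Γ y.1)
        ⟨y i, h.mem i (by omega)⟩) le_sup_right
    have h4 := (wN w).mul_mem h1 (h3 h2)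
    rwa [mul_inv_cancel_left] at h4

/-- the two translates of `y i` coincide -/
theorem nf_fix {n : D} {m : ℕ} {g : ℕ → D} {y : ℕ → Y} (h : NF w m n g y) (i : ℕ) (hi : i < m) :
    R.aY (g (i + 1)) (y i) = R.aY (g i) (y i) := by
  have h1 := R.Γ_fix (y i) _ (h.step i hi).1
  have h2 : g (i + 1) = g i * ((g i)⁻¹ * g (i + 1)) := by group
  rw [h2, p5_aY_mul, h1]

end Pool.SC
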