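import Pool.Agent.Lib.MP_565fc2_lc.SC.P5

/-!
# SC-P6: the chain of a normal form (paper, section 4 (d))

For a normal form `(m, g, y)` of `n` and `a, b ∈ W⁺` let `Z 0 = a`, `Z (i+1) = e (aY (g i) (y i))` for `i < m`, `Z (m+1) = aV (g m) b`.
`nfZ`: the sequence; `nfy`: its indices.
`nf_chain`: if `m ≥ 1`, this is a chain with constant `4 th` (local values even `≥ L - 42 th`); if `a = e (y 0)` the first member is dropped
(`s = 1`; then the list starts with `e z_0 = e (y 0) = a`), if `b = e (y (m-1))` the last member is dropped (`t = 1`; then the list ends with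
`e z_{m-1} = aV (g m) b`).
PROOF.  Put `z_i = aY (g i) (y i) = aY (g (i+1)) (y i)` (`nf_fix`), `x0 ∈ W`.
(1) `L (y i) ≤ p (z_i) (aV (g i) x0) (aV (g (i+1)) x0)`: translate by `(g i)⁻¹` (`equi`), `rot` for `ρ = (g i)⁻¹ g (i+1)`.
(2) for `i + 1 < m`: `p (z_{i+1}) (e z_i) (aV (g (i+1)) x0) ≤ 21 th`: translate by `(g (i+1))⁻¹`: `p (y (i+1)) (e (y i)) x0`, `wPlus_near`.
(3) for `i + 1 < m`: `p (z_i) (aV (g (i+1)) x0) (e z_{i+1}) ≤ 21 th`: translate by `(g (i+1))⁻¹`: `p (y i) x0 (e (y (i+1)))`.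
(4) `p (y 0) a x0 ≤ 21 th` (`wPlus_near'`), and `p (z_{m-1}) (aV (g m) x0) (aV (g m) b) = p (y (m-1)) x0 b ≤ 21 th`.
With `tri` all local values are `≥ L (y i) - 42 th ≥ 58 th`.  Consecutive members are different: `z_i ≠ z_{i+1}` because translation by
`(g (i+1))⁻¹` gives `y i ≠ y (i+1)`; `a ≠ e (y 0) = e z_0`; `aV (g m) b ≠ e z_{m-1}` by `act_ne`.
(A dropped end is not an interior member, nor a neighbour of one, so (4) is only needed when `s = 0`, resp. `t = 0`.)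
`nf_green`: normal form from `exists_nf`; `m = 0` would give `n ∈ w.N`: use `w.green`.  `m ≥ 1`: `a = x0`, `b = aV c x0` with `c = (g m)⁻¹ n ∈ N`, so `aV (g m) b = aV n x0`; `ch_mid` gives
`p z_0 x0 (aV n x0) ≥ L (y 0) - 44 th`.
-/

set_option autoImplicit false

namespace Pool.SC

variable {D Y V : Type} [Group D] {R : Rot D Y V} (w : Wm R)

/-- the sequence of vertices of a normal form -/
def nfZ (R : Rot D Y V) (m : ℕ) (g : ℕ → D) (y : ℕ → Y) (a b : V) : ℕ → V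
  | 0 => a
  | i + 1 => if i < m then R.e (R.aY (g i) (y i)) else R.aV (g m) b

/-- its indices -/
def nfy (R : Rot D Y V) (g : ℕ → D) (y : ℕ → Y) : ℕ → Y := fun i => R.aY (g (i - 1)) (y (i - 1))

private theorem p6_aY_one (v : Y) : R.aY 1 v = v := by
  apply R.inj
  rw [R.e_a, R.aV_one]

private theorem p6_aY_inj (g : D) {u v : Y} (h : R.aY g u = R.aY g v) : u = v := by
  have := congrArg (R.aY g⁻¹) h
  rwa [aY_inv, aY_inv] at this

private theorem p6_x0_ne (v : Y) : R.x0 ≠ R.e v := by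
  have := R.x0_ne 1 v
  rwa [R.aV_one] at this

private theorem p6_x0_mem : R.x0 ∈ wPlus w := Or.inl w.x0_mem

/-- the local value at the vertex number `j` -/
private theorem p6_loc {n : D} {m : ℕ} {g : ℕ → D} {y : ℕ → Y} (h : NF w m n g y) {j : ℕ} (hj : j < m) {u v : V}
    (hu : u ∈ wPlus w) (hu' : u ≠ R.e (y j)) (hv : v ∈ wPlus w) (hv' : v ≠ R.e (y j)) :
    R.L (y j) ≤ R.p (R.aY (g j) (y j)) (R.aV (g j) u) (R.aV (g (j + 1)) v) + 42 * R.th := by
  have hfix := nf_fix w h j hj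
  have hmem := h.mem j hj
  have hst := h.step j hj
  -- (1)
  have h1 : R.L (y j) ≤ R.p (R.aY (g j) (y j)) (R.aV (g j) R.x0) (R.aV (g (j + 1)) R.x0) := by
    have e1 : R.aV (g (j + 1)) R.x0 = R.aV (g j) (R.aV ((g j)⁻¹ * g (j + 1)) R.x0) := by
      rw [← R.aV_mul]
      congr 1
      group
    rw [e1, R.equi]
    refine R.rot _ _ hst.1 ?_
    intro hc
    exact hst.2 (inv_mul_eq_one.mp hc)
  -- (2)
  have h2 : R.p (R.aY (g j) (y j)) (R.aV (g j) u) (R.aV (g j) R.x0) ≤ 21 * R.th := by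
    rw [R.equi]
    exact wPlus_near' w hu hmem.2 hu' w.x0_mem
  -- (3)
  have h3 : R.p (R.aY (g j) (y j)) (R.aV (g (j + 1)) v) (R.aV (g (j + 1)) R.x0) ≤ 21 * R.th := by
    rw [← hfix, R.equi]
    exact wPlus_near' w hv hmem.2 hv' w.x0_mem
  have n1 : R.aV (g j) R.x0 ≠ R.e (R.aY (g j) (y j)) := R.x0_ne _ _
  have n2 : R.aV (g (j + 1)) R.x0 ≠ R.e (R.aY (g j) (y j)) := R.x0_ne _ _
  have n3 : R.aV (g j) u ≠ R.e (R.aY (g j) (y j)) := (act_ne _ _ _).mpr hu'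
  have n4 : R.aV (g (j + 1)) v ≠ R.e (R.aY (g j) (y j)) := by
    rw [← hfix]
    exact (act_ne _ _ _).mpr hv'
  have t1 := R.tri _ _ _ _ n1 n3 n2
  have t2 := R.tri _ _ _ _ n3 n4 n2
  have s1 := R.symm (R.aY (g j) (y j)) (R.aV (g j) R.x0) (R.aV (g j) u)
  omega

private theorem p6_Z_left {n : D} {m : ℕ} {g : ℕ → D} {y : ℕ → Y} (h : NF w m n g y) {a b : V} (ha : a ∈ wPlus w)
    {j : ℕ} (hj : j < m) (ha' : j = 0 → a ≠ R.e (y 0)) :
    ∃ u, nfZ R m g y a b j = R.aV (g j) u ∧ u ∈ wPlus w ∧ u ≠ R.e (y j) := by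
  rcases j with _ | j
  · refine ⟨a, ?_, ha, ha' rfl⟩
    rw [h.g0, R.aV_one]
    rfl
  · refine ⟨R.e (y j), ?_, (h.mem j (by omega)).1, ?_⟩
    · have : nfZ R m g y a b (j + 1) = R.e (R.aY (g j) (y j)) := if_pos (by omega)
      rw [this, ← nf_fix w h j (by omega), R.e_a]
    · intro hc
      exact h.ne j hj (R.inj hc)

private theorem p6_Z_right {n : D} {m : ℕ} {g : ℕ → D} {y : ℕ → Y} (h : NF w m n g y) {a b : V} (hb : b ∈ wPlus w)
    {j : ℕ} (hj : j < m) (hb' : j + 1 = m → b ≠ R.e (y (m - 1))) :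
    ∃ v, nfZ R m g y a b (j + 2) = R.aV (g (j + 1)) v ∧ v ∈ wPlus w ∧ v ≠ R.e (y j) := by
  by_cases hjm : j + 1 < m
  · refine ⟨R.e (y (j + 1)), ?_, (h.mem (j + 1) hjm).1, ?_⟩
    · have : nfZ R m g y a b (j + 2) = R.e (R.aY (g (j + 1)) (y (j + 1))) := if_pos hjm
      rw [this, R.e_a]
    · intro hc
      exact h.ne j hjm (R.inj hc).symm
  · have hjm' : j + 1 = m := by omega
    refine ⟨b, ?_, hb, ?_⟩
    · have : nfZ R m g y a b (j + 2) = R.aV (g m) b := if_neg hjm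
      rw [this, hjm']
    · have := hb' hjm'
      rwa [← hjm', Nat.add_sub_cancel] at this

private theorem p6_big {n : D} {m : ℕ} {g : ℕ → D} {y : ℕ → Y} (h : NF w m n g y) {a b : V}
    (ha : a ∈ wPlus w) (hb : b ∈ wPlus w) {j : ℕ} (hj : j < m) (ha' : j = 0 → a ≠ R.e (y 0))
    (hb' : j + 1 = m → b ≠ R.e (y (m - 1))) :
    R.L (y j) ≤ R.p (nfy R g y (j + 1)) (nfZ R m g y a b j) (nfZ R m g y a b (j + 2)) + 42 * R.th := by
  obtain ⟨u, hu1, hu2, hu3⟩ := p6_Z_left w h (b := b) ha hj ha'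
  obtain ⟨v, hv1, hv2, hv3⟩ := p6_Z_right w h (a := a) hb hj hb'
  rw [hu1, hv1]
  exact p6_loc w h hj hu2 hu3 hv2 hv3

private theorem p6_ne {n : D} {m : ℕ} {g : ℕ → D} {y : ℕ → Y} (h : NF w m n g y) {a b : V}
    {k : ℕ} (hk : k ≤ m) (hm : 1 ≤ m) (ha' : k = 0 → a ≠ R.e (y 0)) (hb' : k = m → b ≠ R.e (y (m - 1))) :
    nfZ R m g y a b k ≠ nfZ R m g y a b (k + 1) := by
  rcases k with _ | k
  · have e1 : nfZ R m g y a b (0 + 1) = R.e (R.aY (g 0) (y 0)) := if_pos (show 0 < m by omega)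
    rw [e1, h.g0, p6_aY_one]
    exact ha' rfl
  · have e1 : nfZ R m g y a b (k + 1) = R.e (R.aY (g k) (y k)) := if_pos (by omega)
    rw [e1, ← nf_fix w h k (by omega)]
    by_cases hkm : k + 1 < m
    · have e2 : nfZ R m g y a b (k + 1 + 1) = R.e (R.aY (g (k + 1)) (y (k + 1))) := if_pos hkm
      rw [e2]
      intro hc
      exact h.ne k hkm (p6_aY_inj _ (R.inj hc))
    · have hkm' : k + 1 = m := by omega
      have e2 : nfZ R m g y a b (k + 1 + 1) = R.aV (g m) b := if_neg hkm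
      rw [e2, hkm']
      refine Ne.symm ((act_ne _ _ _).mpr ?_)
      have := hb' hkm'
      rwa [← hkm', Nat.add_sub_cancel] at this

theorem nf_chain {n : D} {m : ℕ} {g : ℕ → D} {y : ℕ → Y} (h : NF w m n g y) (hm : 1 ≤ m) {a b : V}
    (ha : a ∈ wPlus w) (hb : b ∈ wPlus w) (s t : ℕ) (hs : s ≤ 1) (ht : t ≤ 1) (ha' : s = 0 → a ≠ R.e (y 0))
    (hb' : t = 0 → b ≠ R.e (y (m - 1))) :
    Chain R.toPS (4 * R.th) (m + 1 - s - t) (fun i => nfZ R m g y a b (i + s)) (fun i => nfy R g y (i + s)) := by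
  refine ⟨?_, ?_, ?_⟩
  · intro i hi0 hi
    show nfZ R m g y a b (i + s) = R.e (nfy R g y (i + s))
    obtain ⟨k, hk⟩ : ∃ k, i + s = k + 1 := ⟨i + s - 1, by omega⟩
    rw [hk]
    exact if_pos (by omega)
  · intro i hi
    show nfZ R m g y a b (i + s) ≠ nfZ R m g y a b (i + 1 + s)
    have e1 : i + 1 + s = i + s + 1 := by omega
    rw [e1]
    exact p6_ne w h (by omega) hm (fun h0 => ha' (by omega)) (fun h0 => hb' (by omega))
  · intro i hi0 hi
    show 4 * R.th < R.p (nfy R g y (i + s)) (nfZ R m g y a b (i - 1 + s)) (nfZ R m g y a b (i + 1 + s))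
    obtain ⟨j, hj⟩ : ∃ j, i + s = j + 1 := ⟨i + s - 1, by omega⟩
    have e1 : i - 1 + s = j := by omega
    have e2 : i + 1 + s = j + 2 := by omega
    rw [hj, e1, e2]
    have h1 := p6_big w h ha hb (j := j) (by omega) (fun h0 => ha' (by omega)) (fun h0 => hb' (by omega))
    have h2 := R.L_big (y j)
    have h3 := R.th_pos
    omega

theorem nf_first {n : D} {m : ℕ} {g : ℕ → D} {y : ℕ → Y} (h : NF w m n g y) (hm : 1 ≤ m) {a b : V}
    (ha : a ∈ wPlus w) (hb : b ∈ wPlus w) (ha' : a ≠ R.e (y 0)) (hb' : b ≠ R.e (y (m - 1))) :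
    R.L (y 0) ≤ R.p (nfy R g y 1) a (nfZ R m g y a b 2) + 42 * R.th := by
  have h1 := p6_big w h ha hb (j := 0) (by omega) (fun _ => ha') (fun _ => hb')
  exact h1

theorem nf_green {n : D} (hn : n ∈ wN w) (h1 : n ≠ 1) : ∃ y, R.L y ≤ R.p y R.x0 (R.aV n R.x0) + 44 * R.th := by
  rcases isEmpty_or_nonempty Y with hY | hY
  · refine w.green n ?_ h1
    have he : wN w = w.N := by
      simp [wN]
    rwa [he] at hn
  obtain ⟨m, g, y, h⟩ := exists_nf w hn
  rcases Nat.eq_zero_or_pos m with hm | hm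
  · subst hm
    have hl := h.last
    rw [h.g0, inv_one, one_mul] at hl
    exact w.green n hl h1
  · have hb0 : R.aV ((g m)⁻¹ * n) R.x0 ∈ wPlus w := Or.inl (w.inv _ h.last _ w.x0_mem)
    have ha' : R.x0 ≠ R.e (y 0) := p6_x0_ne _
    have hb' : R.aV ((g m)⁻¹ * n) R.x0 ≠ R.e (y (m - 1)) := R.x0_ne _ _
    have hc := nf_chain w h hm (p6_x0_mem w) hb0 0 0 (by omega) (by omega) (fun _ => ha') (fun _ => hb')
    have hf := nf_first w h hm (p6_x0_mem w) hb0 ha' hb'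
    have hmid := (ch_mid (hc.mono (c' := 3 * R.th) (by omega)) 0 1 (m + 1) (by omega) (by omega) (by omega)).1
    have e1 : nfZ R m g y R.x0 (R.aV ((g m)⁻¹ * n) R.x0) (m + 1) = R.aV n R.x0 := by
      have : nfZ R m g y R.x0 (R.aV ((g m)⁻¹ * n) R.x0) (m + 1) =
          R.aV (g m) (R.aV ((g m)⁻¹ * n) R.x0) := if_neg (lt_irrefl m)
      rw [this, ← R.aV_mul]
      congr 1
      group
    have e0 : nfZ R m g y R.x0 (R.aV ((g m)⁻¹ * n) R.x0) 0 = R.x0 := rfl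
    have eL : R.L (nfy R g y 1) = R.L (y 0) := R.L_inv _ _
    refine ⟨nfy R g y 1, ?_⟩
    rw [eL]
    simp only [Nat.add_zero, Nat.sub_self, zero_add, Nat.reduceAdd] at hmid
    rw [e1, e0] at hmid
    omega

end Pool.SC
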