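import Pool.Agent.Lib.MP_565fc2_lc.SC.P6

/-!
# SC-P7: the new windmill is convex (paper, section 4 (e))

PROOF of `new_conv`.  `v` an index with `e v ∉ W'`, `a, b ∈ W'`.  `a = aV n₁ a₀`, `b = aV n₂ b₀`, `a₀, b₀ ∈ W⁺`; translating by `n₁⁻¹` (`equi`,
`wNew_inv_iff`) we may assume `a ∈ W⁺`, `b = aV n b₀`.  Normal form `(m,g,y)` of `n` (`exists_nf`), `c = (g m)⁻¹ n ∈ N`, `b = aV (g m) b₁`,
`b₁ = aV c b₀ ∈ W⁺` (`wPlus_inv_iff`).  If `m = 0`: `b = b₁ ∈ W⁺`, `e v ∉ W⁺` (`plus_sub_new`), `plus_close`.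
If `m ≥ 1`: let `s = 1` if `a = e (y 0)`, otherwise `s = 0`; `t = 1` if `b₁ = e (y (m-1))`, otherwise `t = 0`.  `nf_chain` gives a chain
`Z i = nfZ (i + s)` of length `k = m + 1 - s - t` with `Z 0 = a` and `Z k = b` (use `nf_fix`).  If `k = 0` then `a = b` and `self`.
All members are in `W'` (`g i ∈ wN w` by `nf_mem`, `e (y i) ∈ W⁺`), so different from `e v`; `ch_far` gives `i < k` with
`p v a b ≤ p v (Z i) (Z (i+1)) + 2 th`.  `Z i` and `Z (i+1)` both lie in the translate `aV (g (i+s)) W⁺` (`Z i = e z_{i+s-1} =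
aV (g (i+s)) (e (y (i+s-1)))` by `nf_fix`, or `a`; `Z (i+1) = e z_{i+s} = aV (g (i+s)) (e (y (i+s)))`, or `b = aV (g m) b₁`).  Translate by its inverse: two
vertices of `W⁺`, and `aY (g (i+s))⁻¹ v` is not in `W'`, so not in `W⁺`: `plus_close` gives `p v (Z i) (Z (i+1)) < 8 th`.
-/

set_option autoImplicit false

namespace Pool.SC

variable {D Y V : Type} [Group D] {R : Rot D Y V} (w : Wm R)

theorem plus_sub_new : wPlus w ⊆ wNew w := by
  intro u hu
  exact ⟨1, (wN w).one_mem, u, hu, (R.aV_one u).symm⟩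

private theorem p7_not_new {v : Y} (hv : R.e v ∉ wNew w) {g : D} (hg : g ∈ wN w) :
    R.e (R.aY g⁻¹ v) ∉ wNew w := by
  rw [R.e_a]
  exact fun h => hv ((wNew_inv_iff w ((wN w).inv_mem hg) _).1 h)

private theorem p7_trans (v : Y) (g : D) (u1 u2 : V) :
    R.p v (R.aV g u1) (R.aV g u2) = R.p (R.aY g⁻¹ v) u1 u2 := by
  have h1 : R.aY g (R.aY g⁻¹ v) = v := by
    have := aY_inv (R := R) g⁻¹ v
    rwa [inv_inv] at this
  have h2 := R.equi g (R.aY g⁻¹ v) u1 u2
  rwa [h1] at h2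

private theorem p7_close {v : Y} (hv : R.e v ∉ wNew w) {g : D} (hg : g ∈ wN w) {u1 u2 : V}
    (h1 : u1 ∈ wPlus w) (h2 : u2 ∈ wPlus w) : R.p v (R.aV g u1) (R.aV g u2) < 8 * R.th := by
  rw [p7_trans]
  exact plus_close w (fun h => p7_not_new w hv hg (plus_sub_new w h)) h1 h2

private theorem p7_core {v : Y} (hv : R.e v ∉ wNew w) {a b0 : V} {n : D} (ha : a ∈ wPlus w)
    (hb0 : b0 ∈ wPlus w) (hn : n ∈ wN w) : R.p v a (R.aV n b0) < 10 * R.th := by
  have : Nonempty Y := ⟨v⟩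
  have hth := R.th_pos
  obtain ⟨m, g, y, h⟩ := exists_nf w hn
  have hb1 : R.aV ((g m)⁻¹ * n) b0 ∈ wPlus w := (wPlus_inv_iff w h.last _).2 hb0
  have hb : R.aV n b0 = R.aV (g m) (R.aV ((g m)⁻¹ * n) b0) := by
    rw [← R.aV_mul]
    congr 1
    group
  generalize R.aV ((g m)⁻¹ * n) b0 = b1 at hb1 hb
  rw [hb]
  rcases Nat.eq_zero_or_pos m with hm | hm
  · subst hm
    have h1 := p7_close w hv (wN w).one_mem ha hb1
    rw [h.g0]
    rw [R.aV_one] at h1
    omega
  · -- the two members of the pair number `j` lie in a common translate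
    have hpair : ∀ j, j ≤ m → ∃ u1 u2, u1 ∈ wPlus w ∧ u2 ∈ wPlus w ∧
        nfZ R m g y a b1 j = R.aV (g j) u1 ∧ nfZ R m g y a b1 (j + 1) = R.aV (g j) u2 := by
      intro j hj
      have hL : ∃ u1, u1 ∈ wPlus w ∧ nfZ R m g y a b1 j = R.aV (g j) u1 := by
        rcases j with _ | j
        · refine ⟨a, ha, ?_⟩
          rw [h.g0, R.aV_one]
          rfl
        · refine ⟨R.e (y j), (h.mem j (by omega)).1, ?_⟩
          have e1 : nfZ R m g y a b1 (j + 1) = R.e (R.aY (g j) (y j)) := if_pos (by omega)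
          rw [e1, ← nf_fix w h j (by omega), R.e_a]
      have hRR : ∃ u2, u2 ∈ wPlus w ∧ nfZ R m g y a b1 (j + 1) = R.aV (g j) u2 := by
        rcases Nat.lt_or_ge j m with hjm | hjm
        · refine ⟨R.e (y j), (h.mem j hjm).1, ?_⟩
          have e1 : nfZ R m g y a b1 (j + 1) = R.e (R.aY (g j) (y j)) := if_pos hjm
          rw [e1, R.e_a]
        · have hjm' : j = m := by omega
          subst hjm'
          refine ⟨b1, hb1, ?_⟩
          exact if_neg (lt_irrefl j)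
      obtain ⟨u1, h1, h2⟩ := hL
      obtain ⟨u2, h3, h4⟩ := hRR
      exact ⟨u1, u2, h1, h3, h2, h4⟩
    have hmem : ∀ j, j ≤ m + 1 → nfZ R m g y a b1 j ∈ wNew w := by
      intro j hj
      rcases Nat.lt_or_ge j (m + 1) with hjm | hjm
      · obtain ⟨u1, u2, h1, h2, h3, h4⟩ := hpair j (by omega)
        exact ⟨g j, nf_mem w h j (by omega), u1, h1, h3⟩
      · have hjm' : j = m + 1 := by omega
        subst hjm'
        obtain ⟨u1, u2, h1, h2, h3, h4⟩ := hpair m le_rfl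
        exact ⟨g m, nf_mem w h m le_rfl, u2, h2, h4⟩
    have hne : ∀ j, j ≤ m + 1 → nfZ R m g y a b1 j ≠ R.e v := by
      intro j hj h1
      apply hv
      rw [← h1]
      exact hmem j hj
    have hstep : ∀ j, j ≤ m → R.p v (nfZ R m g y a b1 j) (nfZ R m g y a b1 (j + 1)) < 8 * R.th := by
      intro j hj
      obtain ⟨u1, u2, h1, h2, h3, h4⟩ := hpair j hj
      rw [h3, h4]
      exact p7_close w hv (nf_mem w h j hj) h1 h2
    -- the ends
    obtain ⟨s, hs, hs0, hsa⟩ : ∃ s, s ≤ 1 ∧ (s = 0 → a ≠ R.e (y 0)) ∧ nfZ R m g y a b1 s = a := by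
      by_cases hc : a = R.e (y 0)
      · refine ⟨1, le_rfl, fun h0 => absurd h0 (by omega), ?_⟩
        have e1 : nfZ R m g y a b1 1 = R.e (R.aY (g 0) (y 0)) := if_pos hm
        rw [e1, R.e_a, h.g0, R.aV_one, hc]
      · exact ⟨0, by omega, fun _ => hc, rfl⟩
    obtain ⟨t, ht, ht0, htb⟩ : ∃ t, t ≤ 1 ∧ (t = 0 → b1 ≠ R.e (y (m - 1))) ∧
        nfZ R m g y a b1 (m + 1 - t) = R.aV (g m) b1 := by
      by_cases hc : b1 = R.e (y (m - 1))
      · refine ⟨1, le_rfl, fun h0 => absurd h0 (by omega), ?_⟩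
        obtain ⟨k, rfl⟩ : ∃ k, m = k + 1 := ⟨m - 1, by omega⟩
        have e0 : k + 1 + 1 - 1 = k + 1 := by omega
        have e1 : nfZ R (k + 1) g y a b1 (k + 1) = R.e (R.aY (g k) (y k)) := if_pos (by omega)
        rw [Nat.add_sub_cancel] at hc
        rw [e0, e1, ← nf_fix w h k (by omega), R.e_a, hc]
      · exact ⟨0, by omega, fun _ => hc, if_neg (lt_irrefl m)⟩
    have hch := nf_chain w h hm ha hb1 s t hs ht hs0 ht0
    rcases Nat.eq_zero_or_pos (m + 1 - s - t) with hk | hk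
    · have e1 : s = m + 1 - t := by omega
      have e2 : a = R.aV (g m) b1 := by
        rw [← htb, ← e1, hsa]
      rw [← e2]
      have h1 := R.self v a (by
        have := hne s (by omega)
        rwa [hsa] at this)
      omega
    · obtain ⟨i, hi, hfar⟩ := ch_far hch hk v (fun i hi => hne (i + s) (by omega))
      have e1 : m + 1 - s - t + s = m + 1 - t := by omega
      have e2 : i + 1 + s = i + s + 1 := by omega
      simp only [zero_add] at hfar
      rw [hsa, e1, htb, e2] at hfar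
      have h2 := hstep (i + s) (by omega)
      omega

theorem new_conv {v : Y} (hv : R.e v ∉ wNew w) {a b : V} (ha : a ∈ wNew w) (hb : b ∈ wNew w) : R.p v a b < 10 * R.th := by
  obtain ⟨n1, hn1, a0, ha0, rfl⟩ := ha
  obtain ⟨n2, hn2, b0, hb0, rfl⟩ := hb
  have e1 : R.aV n2 b0 = R.aV n1 (R.aV (n1⁻¹ * n2) b0) := by
    rw [← R.aV_mul]
    congr 1
    group
  rw [e1, p7_trans]
  exact p7_core w (p7_not_new w hv hn1) ha0 hb0 ((wN w).mul_mem ((wN w).inv_mem hn1) hn2)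

end Pool.SC
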