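import Pool.Agent.Lib.MP_565fc2_lc.SC.P7

/-!
# SC-P8: the windmill theorem (paper, section 4)

PROOF.  `step`: the windmill `⟨wNew w, wN w, …⟩`: `inv` by definition of `wNew`; `Γ_le`: `e y = aV n a`, `a ∈ W⁺`; then `a = e (aY n⁻¹ y)`, `Γ (aY n⁻¹ y) ≤ wN w`
(if `a ∈ W` by `w.Γ_le`, otherwise by definition), and `Γ y = n Γ(…) n⁻¹` by `Γ_conj`; `conv` = `new_conv`; `green` = `nf_green`.
`step_rank`: if every index of rank `< k` is in `W` then every index of rank `≤ k` is in the new `W`: let `e y ∉ W`, `r y ≤ k`.  Then `e y ∈ wB`: for `z ≠ y`,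
`e z ∉ W`, `a ∈ W`: if `20 th ≤ p z (e y) a` then `p z x0 (e y) ≥ p z (e y) a - p z a x0 > 20 th - 10 th` (`conv`), so `r z < r y ≤ k` (`rank`), so
`e z ∈ W`: contradiction.
Start: `W = {x0}`, `N = ⊥`: `conv`: `p y x0 x0 ≤ th` (`self`, `x0_ne` with `g = 1`).
Iterate (`Nat.rec`): windmills `w_k` with `N_k ≤ N_{k+1}`, all indices of rank `< k` in `W_k`.  `⨆ y, Γ y`: every element lies in some `N_k`
(directed union; `Γ y ≤ N_k` for `k > r y`).
-/

set_option autoImplicit false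

namespace Pool.SC

variable {D Y V : Type} [Group D] {R : Rot D Y V}

private theorem P8_x0_ne (y : Y) : R.x0 ≠ R.e y := by
  have h := R.x0_ne 1 y
  rwa [R.aV_one] at h

private theorem P8_gam (w : Wm R) (y : Y) (hy : R.e y ∈ wNew w) : R.Γ y ≤ wN w := by
  obtain ⟨n, hn, a, ha, hya⟩ := hy
  have ha' : a = R.e (R.aY n⁻¹ y) := by
    rw [R.e_a, hya, ← R.aV_mul, inv_mul_cancel, R.aV_one]
  have h0 : R.Γ (R.aY n⁻¹ y) ≤ wN w := by
    by_cases h : R.e (R.aY n⁻¹ y) ∈ w.W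
    · exact (w.Γ_le _ h).trans le_sup_left
    · refine le_trans ?_ (le_sup_right : _ ≤ wN w)
      exact le_iSup (fun y : {y : Y // R.e y ∈ wPlus w ∧ R.e y ∉ w.W} => R.Γ y.1)
        ⟨R.aY n⁻¹ y, ha' ▸ ha, h⟩
  intro g hg
  have h1 := h0 (R.Γ_conj n⁻¹ y g hg)
  have h2 := (wN w).mul_mem ((wN w).mul_mem hn h1) ((wN w).inv_mem hn)
  have e : n * (n⁻¹ * g * n⁻¹⁻¹) * n⁻¹ = g := by group
  rwa [e] at h2

theorem step (w : Wm R) : ∃ w' : Wm R, w.N ≤ w'.N ∧ w.W ⊆ w'.W ∧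
    ∀ k, (∀ y, R.r y < k → R.e y ∈ w.W) → ∀ y, R.r y < k + 1 → R.e y ∈ w'.W := by
  refine ⟨⟨wNew w, wN w, plus_sub_new w (Or.inl w.x0_mem), fun n hn u hu => (wNew_inv_iff w hn u).2 hu,
    P8_gam w, fun y hy a ha b hb => new_conv w hy ha hb, fun n hn h1 => nf_green w hn h1⟩,
    le_sup_left, fun u hu => plus_sub_new w (Or.inl hu), ?_⟩
  intro k hk y hy
  show R.e y ∈ wNew w
  apply plus_sub_new w
  by_cases hW : R.e y ∈ w.W
  · exact Or.inl hW
  · refine Or.inr (Or.inl ⟨y, rfl, hW, fun z hz hzy a ha => ?_⟩)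
    by_contra hcon
    push Not at hcon
    have n1 : R.e y ≠ R.e z := fun h => hzy (R.inj h).symm
    have n2 : a ≠ R.e z := fun h => hz (h ▸ ha)
    have t := R.tri z (R.e y) R.x0 a n1 (P8_x0_ne z) n2
    have hc := w.conv z hz R.x0 w.x0_mem a ha
    have hr := R.rank y z hzy (by
      rw [R.symm]
      omega)
    exact hz (hk z (by omega))

private theorem P8_start (R : Rot D Y V) : ∃ _w : Wm R, True := by
  refine ⟨⟨{R.x0}, ⊥, rfl, ?_, ?_, ?_, ?_⟩, trivial⟩
  · intro n hn u hu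
    rw [Subgroup.mem_bot] at hn
    rw [hn, R.aV_one]
    exact hu
  · intro y hy
    exact absurd (Set.mem_singleton_iff.1 hy).symm (P8_x0_ne y)
  · intro y _ a ha b hb
    rw [Set.mem_singleton_iff.1 ha, Set.mem_singleton_iff.1 hb]
    have h1 := R.self y R.x0 (P8_x0_ne y)
    have h2 := R.th_pos
    omega
  · intro n hn h1
    exact absurd (Subgroup.mem_bot.1 hn) h1

/-- THE WINDMILL THEOREM -/
theorem windmill (R : Rot D Y V) {n : D} (hn : n ∈ R.NN) (h1 : n ≠ 1) :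
    ∃ y, R.L y ≤ R.p y R.x0 (R.aV n R.x0) + 44 * R.th := by
  obtain ⟨w0, -⟩ := P8_start R
  choose f hfN hfW hfr using (step (R := R))
  let s : ℕ → Wm R := fun k => f^[k] w0
  have hs : ∀ k, s (k + 1) = f (s k) := fun k => Function.iterate_succ_apply' f k w0
  have hrank : ∀ k y, R.r y < k → R.e y ∈ (s k).W := by
    intro k
    induction k with
    | zero => intro y hy; omega
    | succ k ih =>
      intro y hy
      rw [hs]
      exact hfr (s k) k ih y hy
  have hmono : Monotone fun k => (s k).N := by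
    refine monotone_nat_of_le_succ fun k => ?_
    show (s k).N ≤ (s (k + 1)).N
    rw [hs]
    exact hfN (s k)
  have hle : R.NN ≤ ⨆ k, (s k).N := by
    refine iSup_le fun y => ?_
    exact ((s (R.r y + 1)).Γ_le y (hrank _ y (by omega))).trans (le_iSup (fun k => (s k).N) _)
  obtain ⟨k, hk⟩ := (Subgroup.mem_iSup_of_directed hmono.directed_le).1 (hle hn)
  exact (s k).green n hk h1

end Pool.SC
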