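import Pool.Agent.Lib.MP_565fc2_lc.SC.L1

/-!
# SC-Q1: local geodesics (paper 7.1, first part)

`γ 0, …, γ T` with `d(γ i, γ j) = j - i` for `i ≤ j ≤ i + K1`; `K1 ≥ 8 D + 8`; `b = K1 / 2`, so `2 b ≤ K1`, `b ≥ 4 D + 4`, `2 b > 3 D`.
`loc_bt`: `Bt (2 D) (γ i) (γ j) (γ l)` for `i ≤ j ≤ l ≤ T`.  PROOF.  `lg_b` with `k = 0` for the list `γ i`, …, `γ (j - 2b)`, `γ (j - b)`, `γ j`, `γ (j + b)`, …, `γ l` (steps `b` away from `γ j`, the
first and the last step may be shorter: if `j - i = u b + v`, `0 < v ≤ b`, the list starts `γ i, γ (j - u b), …`).  Consecutive triples have total length `≤ 2 b ≤ K1`, so they are geodesic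
(`Bt 0`).  (Formally: list `x a = γ (max i (j - (p - a) b))` for `a ≤ p`, `x a = γ (min l (j + (a - p) b))` for `a ≥ p`, `p` = number of steps to the left; use `p = ⌈(j-i)/b⌉`, `p' = ⌈(l-j)/b⌉`.)
`loc_len`: `l - i ≤ 2 (d(γ i, γ l) + D)`.  PROOF: induction on `l - i`: if `l - i ≤ K1` clear.  Otherwise `j = l - b`: `d(γ i,γ l) ≥ d(γ i,γ j) + b - 2 D` (`loc_bt`), and
`b - 2 D ≥ b/2`.
-/

set_option autoImplicit false

namespace Pool.SC

variable {G : Type} [Group G] (H : HG G)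

theorem loc_bt (γ : ℕ → G) (T K1 : ℕ) (hK : 8 * H.D + 8 ≤ K1)
    (hg : ∀ i j, i ≤ j → j ≤ T → j ≤ i + K1 → H.d (γ i) (γ j) = j - i) (i j l : ℕ) (hij : i ≤ j) (hjl : j ≤ l)
    (hl : l ≤ T) : Bt H.d (2 * H.D) (γ i) (γ j) (γ l) := by
  obtain ⟨b, hb1, hb2⟩ : ∃ b, 4 * H.D + 4 ≤ b ∧ 2 * b ≤ K1 := ⟨K1 / 2, by omega, by omega⟩
  obtain ⟨q, hq1, hq2⟩ : ∃ q, q * b ≤ j - i ∧ j - i < q * b + b := by
    refine ⟨(j - i) / b, Nat.div_mul_le_self _ _, ?_⟩
    have := Nat.lt_div_mul_add (a := j - i) (b := b) (by omega)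
    exact this
  obtain ⟨q', hq1', hq2'⟩ : ∃ q', q' * b ≤ l - j ∧ l - j < q' * b + b := by
    refine ⟨(l - j) / b, Nat.div_mul_le_self _ _, ?_⟩
    have := Nat.lt_div_mul_add (a := l - j) (b := b) (by omega)
    exact this
  obtain ⟨f, hL, hR⟩ : ∃ f : ℕ → ℕ, (∀ c, c ≤ q + 1 → f (q + 1 - c) = max i (j - c * b)) ∧
      (∀ c, f (q + 1 + c) = min l (j + c * b)) := by
    refine ⟨fun a => if a ≤ q + 1 then max i (j - (q + 1 - a) * b) else min l (j + (a - (q + 1)) * b),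
      ?_, ?_⟩
    · intro c hc
      have e1 : q + 1 - c ≤ q + 1 := by omega
      have e2 : q + 1 - (q + 1 - c) = c := by omega
      simp only [e1, if_true, e2]
    · intro c
      rcases Nat.eq_zero_or_pos c with hc | hc
      · subst hc
        simp only [Nat.add_zero, le_refl, if_true, Nat.sub_self, Nat.zero_mul, Nat.sub_zero]
        omega
      · have e1 : ¬ (q + 1 + c ≤ q + 1) := by omega
        have e2 : q + 1 + c - (q + 1) = c := by omega
        simp only [e1, if_false, e2]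
  have hstep : ∀ a, f a ≤ f (a + 1) ∧ f (a + 1) ≤ f a + b := by
    intro a
    rcases Nat.lt_or_ge a (q + 1) with ha | ha
    · obtain ⟨e, he⟩ : ∃ e, q + 1 = a + (e + 1) := ⟨q - a, by omega⟩
      have h1 := hL (e + 1) (by omega)
      have h2 := hL e (by omega)
      have e1 : q + 1 - (e + 1) = a := by omega
      have e2 : q + 1 - e = a + 1 := by omega
      rw [e1, Nat.succ_mul] at h1
      rw [e2] at h2
      omega
    · obtain ⟨c, hc⟩ : ∃ c, a = q + 1 + c := ⟨a - (q + 1), by omega⟩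
      have h1 := hR c
      have h2 := hR (c + 1)
      rw [Nat.succ_mul] at h2
      rw [← hc] at h1
      have e2 : q + 1 + (c + 1) = a + 1 := by omega
      rw [e2] at h2
      omega
  have hfull : ∀ a, 1 ≤ a → a + 1 ≤ q + 1 + q' → f (a + 1) = f a + b := by
    intro a ha1 ha2
    rcases Nat.lt_or_ge a (q + 1) with ha | ha
    · obtain ⟨e, he⟩ : ∃ e, q + 1 = a + (e + 1) := ⟨q - a, by omega⟩
      have h1 := hL (e + 1) (by omega)
      have h2 := hL e (by omega)
      have e1 : q + 1 - (e + 1) = a := by omega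
      have e2 : q + 1 - e = a + 1 := by omega
      have h3 : (e + 1) * b ≤ q * b := Nat.mul_le_mul_right b (by omega)
      rw [Nat.succ_mul] at h3
      rw [e1, Nat.succ_mul] at h1
      rw [e2] at h2
      omega
    · obtain ⟨c, hc⟩ : ∃ c, a = q + 1 + c := ⟨a - (q + 1), by omega⟩
      have h1 := hR c
      have h2 := hR (c + 1)
      have h3 : (c + 1) * b ≤ q' * b := Nat.mul_le_mul_right b (by omega)
      rw [Nat.succ_mul] at h2 h3
      rw [← hc] at h1
      have e2 : q + 1 + (c + 1) = a + 1 := by omega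
      rw [e2] at h2
      omega
  have hfl : ∀ a, f a ≤ l := by
    intro a
    rcases Nat.lt_or_ge a (q + 1) with ha | ha
    · have h1 := hL (q + 1 - a) (by omega)
      have e1 : q + 1 - (q + 1 - a) = a := by omega
      rw [e1] at h1
      omega
    · obtain ⟨c, hc⟩ : ∃ c, a = q + 1 + c := ⟨a - (q + 1), by omega⟩
      have h1 := hR c
      rw [← hc] at h1
      omega
  have hd : ∀ u v, u ≤ v → v ≤ l → v ≤ u + K1 → H.d (γ u) (γ v) = v - u :=
    fun u v h1 h2 h3 => hg u v h1 (le_trans h2 hl) h3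
  have h0 : f 0 = i := by
    have h1 := hL (q + 1) le_rfl
    rw [Nat.sub_self, Nat.succ_mul] at h1
    omega
  have hj : f (q + 1) = j := by
    have h1 := hR 0
    rw [Nat.add_zero, Nat.zero_mul] at h1
    omega
  have hn : f (q + 1 + (q' + 1)) = l := by
    have h1 := hR (q' + 1)
    rw [Nat.succ_mul] at h1
    omega
  have key := lg_b (D := H.D) H.hyp4 0 (q + 1 + (q' + 1)) (fun a => γ (f a)) ?_ ?_ (q + 1) (by omega)
  · simp only [h0, hj, hn, Nat.zero_add] at key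
    exact key
  · intro a ha1 ha2
    obtain ⟨e, rfl⟩ : ∃ e, a = e + 1 := ⟨a - 1, by omega⟩
    have s1 := hstep e
    have s2 := hstep (e + 1)
    have s3 := hfl (e + 1 + 1)
    show H.d (γ (f (e + 1 - 1))) (γ (f (e + 1))) + H.d (γ (f (e + 1))) (γ (f (e + 1 + 1))) ≤
      H.d (γ (f (e + 1 - 1))) (γ (f (e + 1 + 1))) + 0
    rw [Nat.add_sub_cancel, hd (f e) (f (e + 1)) s1.1 (by omega) (by omega),
      hd (f (e + 1)) (f (e + 1 + 1)) s2.1 s3 (by omega), hd (f e) (f (e + 1 + 1)) (by omega) s3 (by omega)]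
    omega
  · intro a ha1 ha2
    have s1 := hfull a ha1 (by omega)
    have s3 := hfl (a + 1)
    show 2 * 0 + 3 * H.D < 2 * H.d (γ (f a)) (γ (f (a + 1)))
    rw [hd (f a) (f (a + 1)) (by omega) s3 (by omega)]
    omega

theorem loc_len (γ : ℕ → G) (T K1 : ℕ) (hK : 8 * H.D + 8 ≤ K1)
    (hg : ∀ i j, i ≤ j → j ≤ T → j ≤ i + K1 → H.d (γ i) (γ j) = j - i) (i l : ℕ) (hil : i ≤ l) (hl : l ≤ T) :
    l - i ≤ 2 * (H.d (γ i) (γ l) + H.D) := by
  obtain ⟨b, hb1, hb2⟩ : ∃ b, 4 * H.D + 4 ≤ b ∧ 2 * b ≤ K1 := ⟨K1 / 2, by omega, by omega⟩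
  obtain ⟨n, hn⟩ : ∃ n, n = l := ⟨l, rfl⟩
  induction l using Nat.strong_induction_on generalizing n with
  | _ l ih =>
    rcases Nat.lt_or_ge K1 (l - i) with hlt | hge
    · have h1 := ih (l - b) (by omega) (by omega) (by omega) _ rfl
      have h2 := loc_bt H γ T K1 hK hg i (l - b) l (by omega) (by omega) hl
      have h3 := hg (l - b) l (by omega) hl (by omega)
      unfold Bt at h2
      omega
    · have h3 := hg i l hil hl (by omega)
      omega

end Pool.SC
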