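import Pool.Agent.Lib.MP_565fc2_lc.SC.G3

/-!
# SC-Q2: a path with a large projection to `P` follows `P` (paper 7.1, middle part)

Abstract: `γ 0, …, γ T` with steps `≤ 1` and `Bt (2D) (γ i) (γ j) (γ l)` for `i ≤ j ≤ l ≤ T`; `NC P c`; `ρ = 2 c + 3 D + 1`.
`follow1`: if `2 c + 2 (c + D) < oA P (γ i) (γ l)`, `i ≤ l ≤ T`, and `α, β` are nearest in `P` to `γ i`, `γ l` then some `t ∈ [i,l]` has `d(γ t, α) ≤ ρ` and some `t' ∈ [i,l]` has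
`d(γ t', β) ≤ ρ`.   PROOF: `nc_two`: `d(α,β) > c + D`; `nc_bt`: `Bt (2c+D) (γ i) α (γ l)`; `ft` with `k = 2D`, `m = 2c+D`, `l = 1` for the chain `γ i, …, γ l`.
`follow`: let `6 c + 4 D + 2 < G1 ` and `G1 + c + 2 ρ + 2 ≤ oA P (γ 0) (γ T)`.  Then there are `t1 ≤ t3 ≤ T` and `α, β ∈ P` with `d(γ t1,α) ≤ ρ`, `d(γ t3,β) ≤ ρ`,
`G1 ≤ 2 d(α,β) + 2 ρ + c`, `2 d(α,β) ≤ G1 + 2 + 2 ρ + c`.
PROOF.  `α` nearest to `γ 0`; `t1` from `follow1` (`i = 0`, `l = T`).  `f t = oA P (γ t1) (γ t)` for `t ≥ t1`: `f t1 = 0`, `|f (t+1) - f t| ≤ 2` (`oA_tri`, `oA_le_two`),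
`f T ≥ oA P (γ 0) (γ T) - oA P (γ 0) α - oA P α (γ t1) ≥ G1 + 2` (`nc_oA`, `oA_le_two`).  `t2` = first `t ≥ t1` with `f t ≥ G1`; so `f t2 ≤ G1 + 2`.  `β` nearest to `γ t2`; `α'` nearest to `γ t1`;
`follow1` for `(t1,t2)` (`G1 > 4 c + 2 D`): `t3 ∈ [t1,t2]` with `d(γ t3,β) ≤ ρ`.  `2 d(α,β) = oA α β`, and `|oA α β - f t2| ≤ oA α (γ t1) + oA (γ t2) β ≤ 2 ρ + c`.
-/

set_option autoImplicit false

namespace Pool.SC

variable {X : Type} {d : X → X → ℕ} {D : ℕ}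

theorem follow1 (h : Hyp4 d D) {P : Set X} {c : ℕ} (hP : NC d P c) (hPn : P.Nonempty) (γ : ℕ → X) (T : ℕ)
    (hs : ∀ i, i < T → d (γ i) (γ (i + 1)) ≤ 1)
    (hb : ∀ i j l, i ≤ j → j ≤ l → l ≤ T → Bt d (2 * D) (γ i) (γ j) (γ l)) (i l : ℕ) (hil : i ≤ l) (hl : l ≤ T)
    {α β : X} (hα : Near d P (γ i) α) (hβ : Near d P (γ l) β) (hbig : 4 * c + 2 * D < oA d P (γ i) (γ l)) :
    (∃ t, i ≤ t ∧ t ≤ l ∧ d (γ t) α ≤ 2 * c + 3 * D + 1) ∧ (∃ t, i ≤ t ∧ t ≤ l ∧ d (γ t) β ≤ 2 * c + 3 * D + 1) := by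
  have h1 := (nc_two h hP hα hβ).1
  have hlong : c + D < d α β := by omega
  obtain ⟨hbα, hbβ⟩ := nc_bt h hP hα hβ hlong
  have key : ∀ z, Bt d (2 * c + D) (γ i) z (γ l) → ∃ t, i ≤ t ∧ t ≤ l ∧ d (γ t) z ≤ 2 * c + 3 * D + 1 := by
    intro z hz
    have e0 : i + 0 = i := rfl
    have e1 : i + (l - i) = l := by omega
    obtain ⟨a, ha, hda⟩ := ft h (2 * D) (2 * c + D) 1 (l - i) (fun a => γ (i + a)) z
      (fun a ha => by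
        show Bt d (2 * D) (γ (i + 0)) (γ (i + a)) (γ (i + (l - i)))
        rw [e0, e1]
        exact hb i (i + a) l (by omega) (by omega) hl)
      (fun a ha => hs (i + a) (by omega))
      (by
        show Bt d (2 * c + D) (γ (i + 0)) z (γ (i + (l - i)))
        rw [e0, e1]
        exact hz)
    refine ⟨i + a, by omega, by omega, ?_⟩
    have hda' : d z (γ (i + a)) ≤ max (2 * D) (2 * c + D) + 1 + D := hda
    have s1 := h.symm (γ (i + a)) z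
    have hm : max (2 * D) (2 * c + D) ≤ 2 * c + 2 * D := max_le (by omega) (by omega)
    omega
  exact ⟨key α hbα, key β hbβ⟩

theorem follow (h : Hyp4 d D) {P : Set X} {c : ℕ} (hP : NC d P c) (hPn : P.Nonempty) (γ : ℕ → X) (T : ℕ)
    (hs : ∀ i, i < T → d (γ i) (γ (i + 1)) ≤ 1)
    (hb : ∀ i j l, i ≤ j → j ≤ l → l ≤ T → Bt d (2 * D) (γ i) (γ j) (γ l)) (G1 : ℕ) (h1 : 4 * c + 2 * D < G1)
    (h2 : G1 + c + 2 * (2 * c + 3 * D + 1) + 2 ≤ oA d P (γ 0) (γ T)) :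
    ∃ t1 t3 : ℕ, t1 ≤ t3 ∧ t3 ≤ T ∧ ∃ α ∈ P, ∃ β ∈ P, d (γ t1) α ≤ 2 * c + 3 * D + 1 ∧
      d (γ t3) β ≤ 2 * c + 3 * D + 1 ∧ G1 ≤ 2 * d α β + 2 * (2 * c + 3 * D + 1) + c ∧
      2 * d α β ≤ G1 + 2 + 2 * (2 * c + 3 * D + 1) + c := by
  obtain ⟨α, hα⟩ := exists_near d hPn (γ 0)
  obtain ⟨βT, hβT⟩ := exists_near d hPn (γ T)
  obtain ⟨⟨t1, -, ht1T, hdt1⟩, -⟩ := follow1 h hP hPn γ T hs hb 0 T (Nat.zero_le T) le_rfl hα hβT (by omega)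
  have hoα := nc_oA h hP hα
  have hoα2 := oA_le_two h hPn (γ t1) α
  have sα := oA_symm (d := d) P α (γ t1)
  have tr1 := oA_tri h hPn (γ 0) α (γ T)
  have tr2 := oA_tri h hPn α (γ t1) (γ T)
  have eT : t1 + (T - t1) = T := by omega
  obtain ⟨i, hi1, hi2, hi3, -⟩ := exists_step (fun t => oA d P (γ t1) (γ (t1 + t))) (T - t1) (G1 - 1) 2
    (by
      show oA d P (γ t1) (γ t1) ≤ G1 - 1
      rw [oA_self h hPn]
      exact Nat.zero_le _)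
    (by
      show G1 - 1 < oA d P (γ t1) (γ (t1 + (T - t1)))
      rw [eT]
      omega)
    (fun t ht => by
      have e1 := oA_tri h hPn (γ t1) (γ (t1 + t)) (γ (t1 + t + 1))
      have e2 := oA_le_two h hPn (γ (t1 + t)) (γ (t1 + t + 1))
      have e3 := hs (t1 + t) (by omega)
      show oA d P (γ t1) (γ (t1 + (t + 1))) ≤ oA d P (γ t1) (γ (t1 + t)) + 2
      rw [← Nat.add_assoc]
      omega)
  have hi2' : oA d P (γ t1) (γ (t1 + i)) ≤ G1 - 1 := hi2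
  have hi3' : G1 - 1 < oA d P (γ t1) (γ (t1 + i + 1)) := hi3
  have f1 := oA_tri h hPn (γ t1) (γ (t1 + i)) (γ (t1 + i + 1))
  have f2 := oA_le_two h hPn (γ (t1 + i)) (γ (t1 + i + 1))
  have f3 := hs (t1 + i) (by omega)
  obtain ⟨α', hα'⟩ := exists_near d hPn (γ t1)
  obtain ⟨β, hβ⟩ := exists_near d hPn (γ (t1 + i + 1))
  obtain ⟨-, ⟨t3, ht3a, ht3b, hdt3⟩⟩ := follow1 h hP hPn γ T hs hb t1 (t1 + i + 1) (by omega) (by omega) hα' hβ (by omega)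
  have hoβ := nc_oA h hP hβ
  have sβ := oA_symm (d := d) P β (γ (t1 + i + 1))
  have hm := oA_mem h hα.1 hβ.1
  have g1 := oA_tri h hPn α (γ t1) β
  have g2 := oA_tri h hPn (γ t1) (γ (t1 + i + 1)) β
  have g3 := oA_tri h hPn (γ t1) α (γ (t1 + i + 1))
  have g4 := oA_tri h hPn α β (γ (t1 + i + 1))
  exact ⟨t1, t3, ht3a, by omega, α, hα.1, β, hβ.1, hdt1, hdt3, by omega, by omega⟩

end Pool.SC
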