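import Pool.Agent.Lib.MP_565fc2_lc.SC.R11
import Pool.Agent.Lib.MP_565fc2_lc.SC.Q1
import Pool.Agent.Lib.MP_565fc2_lc.SC.Q2

/-!
# SC-Q3: the Dehn property of the quotient (paper 7.1)

`N` normal in `G`, all relators in `N`, every `1 ≠ n ∈ N` has a large projection to some axis (Greendlinger).
PROOF of `dehn`.  `ρ = 2 c2 + 3 D + 1`, `Λ = max_i 2 n (r i)` (finite nonempty or empty `ι`; use `Finite ι`), `K = 4 Λ + 8 D + 100`.  Let `l = [s_1, …, s_T]`, `T ≥ 1`, `l.prod ∈ N`, and suppose that every sub-word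
`m` of length `≤ K` satisfies `wl S̄ (mk m.prod) = m.length` (it is always `≤`, `S̄ = mk '' S`).  `γ t = s_1 ⋯ s_t`; `d(γ i, γ j) ≤ j - i` and for `j - i ≤ K`
`j - i = wl S̄ (mk ((γ i)⁻¹ γ j)) ≤ wl S ((γ i)⁻¹ γ j) = d(γ i,γ j)`; so `γ` is a `K`-local geodesic.  `γ T = l.prod ≠ 1`: `loc_len` gives `T ≤ 2 (d(1,γ T) + D)` and if `T ≤ K` then `d = T ≥ 1`; if `T > K ≥ 2 D` also
`d > 0`.  Greendlinger: `i, y` with `2 n (r i) ≤ oA P 1 (γ T) + (44 th + 4 k3 + 2 c2)`, `P = apts (ax i y)`.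
Let `L = 2 n (r i)`, `G1 = L - (44 th + 4 k3 + 2 c2) - (c2 + 2 ρ + 2)`.  As `L ≥ 1000 th + 4 k3 + 2 c2`, `th ≥ 6 c2 + 2 D + 2 t0`, all constants `c2, k3, D, ρ` are `≤ th`, `G1 ≥ 900 th`.  `follow` (`loc_bt`, steps `≤ 1`):
`t1 ≤ t3`, `α = y x_j`, `β = y x_j'`, `|2 d(α,β) - G1| ≤ 2 ρ + c2 + 2`.
`t3 - t1 ≤ 2 (d(γ t1,γ t3) + D) ≤ 2 (d(α,β) + 2 ρ + D) ≤ K`, so `t3 - t1 = wl S̄ (mk ((γ t1)⁻¹ γ t3))`, and `t3 - t1 ≥ d(α,β) - 2 ρ ≥ 400 th`.
Let `j ≤ j'` (otherwise exchange the roles: use `r⁻¹`, or the inverse element).  `g = y r y⁻¹ ∈ N`, `g α = y x_(j+k0)`.  `d(g α, β)`: if `j' ≤ j + k0`, `bt_x (j, j', j+k0)` and `per_le`: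
`d(x_j',x_(j+k0)) ≤ n r + 2 k3 - d(α,β)`; if `j' > j + k0`: `bt_x (j, j+k0, j')`, `per_ge`: `≤ d(α,β) - n r + 2 k3`.  In both cases (with `2 d(α,β) ≥ G1 - 2ρ - c2 - 2`, `2 d(α,β) ≤ L`) it is
`≤ 22 th + 2 k3 + c2 + … ≤ 40 th`.  Then `wl S̄ (mk ((γ t1)⁻¹ γ t3)) = wl S̄ (mk ((g γ t1)⁻¹ γ t3)) ≤ d(g γ t1, γ t3) ≤ 40 th + 2 ρ < 400 th`.  Contradiction.
-/

set_option autoImplicit false

namespace Pool.SC

noncomputable section

variable {G : Type} [Group G] {κ : Type} {ι : Type} {cl : ι → κ} (A : PD G κ ι cl)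

private theorem wl_mk_le' {S : Set G} (hS : Subgroup.closure S = ⊤) (N : Subgroup G) [N.Normal] (g : G) :
    wl (QuotientGroup.mk' N '' S) (QuotientGroup.mk' N g) ≤ wl S g := by
  obtain ⟨l, h1, h2, rfl⟩ := exists_word hS g
  rw [← h1]
  have h3 : IsWord (QuotientGroup.mk' N '' S) (l.map (QuotientGroup.mk' N)) := by
    intro x hx
    obtain ⟨y, hy, rfl⟩ := List.mem_map.1 hx
    rcases h2 y hy with h | h
    · exact Or.inl ⟨y, h, rfl⟩
    · exact Or.inr ⟨y⁻¹, h, by rw [map_inv]⟩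
  have h4 := wl_le h3
  rw [List.length_map, ← map_list_prod] at h4
  exact h4

private theorem sub_word (l : List G) (i j : ℕ) (hij : i ≤ j) :
    l = l.take i ++ (l.drop i).take (j - i) ++ l.drop j ∧
      ((l.take i).prod)⁻¹ * (l.take j).prod = ((l.drop i).take (j - i)).prod := by
  have h1 : l.take j = l.take i ++ (l.drop i).take (j - i) := by
    obtain ⟨k, rfl⟩ := Nat.exists_eq_add_of_le hij
    rw [Nat.add_sub_cancel_left]
    exact List.take_add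
  refine ⟨?_, ?_⟩
  · rw [← h1]
    exact (List.take_append_drop j l).symm
  · rw [h1, List.prod_append, inv_mul_cancel_left]

/-- the corner opposite to `x_j'` after one period -/
theorem PD.close_rot (i : ι) (y : G) (j j' : ℤ) : ∃ t : ℤ, (t = 1 ∨ t = -1) ∧
    A.d (y * A.r i ^ t * y⁻¹ * (y * A.x i j)) (y * A.x i j') ≤
      max (A.n (A.r i) - A.d (A.x i j) (A.x i j')) (A.d (A.x i j) (A.x i j') - A.n (A.r i)) + 2 * A.k3 := by
  have hmv : ∀ t : ℤ, A.d (y * A.r i ^ t * y⁻¹ * (y * A.x i j)) (y * A.x i j') =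
      A.d (A.x i (j + t * A.k0)) (A.x i j') := by
    intro t
    have e : y * A.r i ^ t * y⁻¹ * (y * A.x i j) = y * A.x i (j + t * A.k0) := by
      rw [A.x_per_mul]
      group
    rw [e]
    exact A.toHG.d_left _ _ _
  have hH := A.toHG.hyp4
  rcases le_total j j' with hjj | hjj
  · refine ⟨1, Or.inl rfl, ?_⟩
    rw [hmv, one_mul]
    have h1 := A.per_ge i j
    have h2 := A.per_le i j
    rcases le_total j' (j + A.k0) with h3 | h3
    · have h4 : A.d (A.x i j) (A.x i j') + A.d (A.x i j') (A.x i (j + A.k0)) ≤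
          A.d (A.x i j) (A.x i (j + A.k0)) + A.k3 := A.bt_x i j j' (j + A.k0) hjj h3
      have s1 : A.d (A.x i (j + A.k0)) (A.x i j') = A.d (A.x i j') (A.x i (j + A.k0)) := hH.symm _ _
      omega
    · have h4 : A.d (A.x i j) (A.x i (j + A.k0)) + A.d (A.x i (j + A.k0)) (A.x i j') ≤
          A.d (A.x i j) (A.x i j') + A.k3 :=
        A.bt_x i j (j + A.k0) j' (by have := A.k0_ge; omega) h3
      omega
  · refine ⟨-1, Or.inr rfl, ?_⟩
    rw [hmv]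
    have e0 : j + -1 * (A.k0 : ℤ) = j - A.k0 := by ring
    rw [e0]
    have h1 := A.per_ge i (j - A.k0)
    have h2 := A.per_le i (j - A.k0)
    rw [sub_add_cancel] at h1 h2
    have s2 : A.d (A.x i (j - A.k0)) (A.x i j) = A.d (A.x i j) (A.x i (j - A.k0)) := hH.symm _ _
    have s3 : A.d (A.x i j) (A.x i j') = A.d (A.x i j') (A.x i j) := hH.symm _ _
    rcases le_total (j - A.k0) j' with h3 | h3
    · have h4 : A.d (A.x i (j - A.k0)) (A.x i j') + A.d (A.x i j') (A.x i j) ≤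
          A.d (A.x i (j - A.k0)) (A.x i j) + A.k3 := A.bt_x i (j - A.k0) j' j h3 hjj
      omega
    · have h4 : A.d (A.x i j') (A.x i (j - A.k0)) + A.d (A.x i (j - A.k0)) (A.x i j) ≤
          A.d (A.x i j') (A.x i j) + A.k3 :=
        A.bt_x i j' (j - A.k0) j h3 (by have := A.k0_ge; omega)
      have s1 : A.d (A.x i (j - A.k0)) (A.x i j') = A.d (A.x i j') (A.x i (j - A.k0)) := hH.symm _ _
      omega

theorem PD.dehn [Finite ι] (hbig : ∀ i, 1000 * A.th + (4 * A.k3 + 2 * A.c2) ≤ 2 * A.n (A.r i)) (N : Subgroup G) [N.Normal]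
    (hr : ∀ i, A.r i ∈ N)
    (hN : ∀ n ∈ N, n ≠ 1 → ∃ i y, 2 * A.n (A.r i) ≤ oA A.d (A.apts (A.ax i y)) 1 n + (44 * A.th + 4 * A.k3 + 2 * A.c2)) :
    ∃ K : ℕ, ∀ l : List G, l ≠ [] → (∀ x ∈ l, x ∈ A.S ∨ x⁻¹ ∈ A.S) → l.prod ∈ N →
      ∃ l₁ m l₂ : List G, l = l₁ ++ m ++ l₂ ∧ m.length ≤ K ∧
        wl (QuotientGroup.mk' N '' A.S) (QuotientGroup.mk' N m.prod) < m.length := by
  obtain ⟨Λ, hΛ⟩ : ∃ Λ : ℕ, ∀ i, 2 * A.n (A.r i) ≤ Λ := by
    obtain ⟨Λ, hΛ⟩ := (Set.finite_range fun i => 2 * A.n (A.r i)).bddAbove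
    exact ⟨Λ, fun i => hΛ ⟨i, rfl⟩⟩
  refine ⟨4 * Λ + 8 * A.D + 100, fun l hl hw hlN => ?_⟩
  by_contra hcon
  have hcon' : ∀ l₁ m l₂ : List G, l = l₁ ++ m ++ l₂ → m.length ≤ 4 * Λ + 8 * A.D + 100 →
      m.length ≤ wl (QuotientGroup.mk' N '' A.S) (QuotientGroup.mk' N m.prod) := by
    intro l₁ m l₂ h1 h2
    by_contra h3
    exact hcon ⟨l₁, m, l₂, h1, h2, Nat.lt_of_not_le h3⟩
  clear hcon
  have hH := A.toHG.hyp4
  set γ : ℕ → G := fun t => (l.take t).prod with hγ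
  set T := l.length with hT
  have hT1 : 1 ≤ T := List.length_pos_iff.2 hl
  have hlen : ∀ i j, i ≤ j → j ≤ T → ((l.drop i).take (j - i)).length = j - i := by
    intro i j hij hj
    rw [List.length_take, List.length_drop]
    omega
  have hsub : ∀ i j, i ≤ j → (γ i)⁻¹ * γ j = ((l.drop i).take (j - i)).prod :=
    fun i j hij => (sub_word l i j hij).2
  have hup : ∀ i j, i ≤ j → j ≤ T → A.d (γ i) (γ j) ≤ j - i := by
    intro i j hij hj
    rw [A.toHG.d_eq, hsub i j hij]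
    have h1 : IsWord A.S ((l.drop i).take (j - i)) :=
      fun x hx => hw x (List.mem_of_mem_drop (List.mem_of_mem_take hx))
    have h2 := wl_le h1
    rw [hlen i j hij hj] at h2
    exact h2
  have hlow : ∀ i j, i ≤ j → j ≤ T → j - i ≤ 4 * Λ + 8 * A.D + 100 →
      j - i ≤ wl (QuotientGroup.mk' N '' A.S) (QuotientGroup.mk' N ((γ i)⁻¹ * γ j)) := by
    intro i j hij hj hK
    have h1 := hcon' (l.take i) ((l.drop i).take (j - i)) (l.drop j) (sub_word l i j hij).1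
      (by rw [hlen i j hij hj]; exact hK)
    rw [hlen i j hij hj, ← hsub i j hij] at h1
    exact h1
  have hmk : ∀ g : G, wl (QuotientGroup.mk' N '' A.S) (QuotientGroup.mk' N g) ≤ A.n g :=
    fun g => wl_mk_le' A.gen N g
  have hgeo : ∀ i j, i ≤ j → j ≤ T → j ≤ i + (4 * Λ + 8 * A.D + 100) → A.d (γ i) (γ j) = j - i := by
    intro i j hij hj hK
    refine le_antisymm (hup i j hij hj) ((hlow i j hij hj (by omega)).trans ?_)
    exact hmk _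
  have hγ0 : γ 0 = 1 := by simp [hγ]
  have hγT : γ T = l.prod := by simp [hγ, hT]
  have hne : γ T ≠ 1 := by
    intro h1
    have h2 : A.d (γ 0) (γ T) = 0 := by rw [hγ0, h1]; exact hH.zero 1
    rcases Nat.lt_or_ge (4 * Λ + 8 * A.D + 100) T with h3 | h3
    · have h4 : T - 0 ≤ 2 * (A.d (γ 0) (γ T) + A.D) :=
        loc_len A.toHG γ T (4 * Λ + 8 * A.D + 100) (by omega) hgeo 0 T (Nat.zero_le _) le_rfl
      omega
    · have h4 := hgeo 0 T (Nat.zero_le _) le_rfl (by omega)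
      omega
  obtain ⟨i, y, hiy⟩ := hN (γ T) (by rw [hγT]; exact hlN) hne
  have hb := hbig i
  have hL := hΛ i
  -- constants
  have k1 : A.c2 = 4 * A.lM + 2 * A.k3 + 2 * A.D := rfl
  have k2 : 2 * A.c2 ≤ A.t0 := Nat.le_add_left _ _
  have k3 : A.th = 2 * A.t0 + 6 * A.c2 + 2 * A.D := rfl
  have k4 := A.m0_lM
  have k5 := A.m0_big
  have k6 := A.hM_pos
  have hstep : ∀ i, i < T → A.d (γ i) (γ (i + 1)) ≤ 1 := by
    intro i hi
    have := hup i (i + 1) (by omega) (by omega)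
    omega
  have hbt : ∀ i j l, i ≤ j → j ≤ l → l ≤ T → Bt A.d (2 * A.D) (γ i) (γ j) (γ l) := fun i j l h1 h2 h3 =>
    loc_bt A.toHG γ T (4 * Λ + 8 * A.D + 100) (by omega) hgeo i j l h1 h2 h3
  obtain ⟨t1, t3, ht13, ht3, α, hα, β, hβ, hd1, hd2, hg1, hg2⟩ := follow hH (A.ax_nc (A.ax i y)) (A.ax_ne _) γ T hstep
    hbt (2 * A.n (A.r i) - (44 * A.th + 4 * A.k3 + 2 * A.c2) - (A.c2 + 2 * (2 * A.c2 + 3 * A.D + 1) + 2))
    (by omega) (by rw [hγ0]; omega)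
  rw [A.apts_ax] at hα hβ
  obtain ⟨j, rfl⟩ := hα
  obtain ⟨j', rfl⟩ := hβ
  obtain ⟨t, -, hrot⟩ := A.close_rot i y j j'
  have e1 : A.d (y * A.x i j) (y * A.x i j') = A.d (A.x i j) (A.x i j') := A.toHG.d_left _ _ _
  rw [e1] at hg1 hg2
  have htri : A.d (γ t1) (γ t3) ≤ A.d (A.x i j) (A.x i j') + 2 * (2 * A.c2 + 3 * A.D + 1) := by
    have a1 := hH.tri (γ t1) (y * A.x i j) (γ t3)
    have a2 := hH.tri (y * A.x i j) (y * A.x i j') (γ t3)
    have a3 := hH.symm (y * A.x i j') (γ t3)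
    omega
  have htri2 : A.d (A.x i j) (A.x i j') ≤ A.d (γ t1) (γ t3) + 2 * (2 * A.c2 + 3 * A.D + 1) := by
    have a1 := hH.tri (y * A.x i j) (γ t1) (y * A.x i j')
    have a2 := hH.tri (γ t1) (γ t3) (y * A.x i j')
    have a3 := hH.symm (y * A.x i j) (γ t1)
    omega
  have hlen13 : t3 - t1 ≤ 2 * (A.d (γ t1) (γ t3) + A.D) :=
    loc_len A.toHG γ T (4 * Λ + 8 * A.D + 100) (by omega) hgeo t1 t3 ht13 ht3
  have hK13 : t3 - t1 ≤ 4 * Λ + 8 * A.D + 100 := by omega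
  have hlow13 := hlow t1 t3 ht13 ht3 hK13
  have hup13 := hup t1 t3 ht13 ht3
  have hgN : y * A.r i ^ t * y⁻¹ ∈ N :=
    Subgroup.Normal.conj_mem inferInstance _ (N.zpow_mem (hr i) t) y
  have hmkeq : QuotientGroup.mk' N ((γ t1)⁻¹ * γ t3) =
      QuotientGroup.mk' N ((y * A.r i ^ t * y⁻¹ * γ t1)⁻¹ * γ t3) := by
    have h1 : QuotientGroup.mk' N (y * A.r i ^ t * y⁻¹) = 1 := (QuotientGroup.eq_one_iff _).2 hgN
    rw [map_mul, map_mul, map_inv, map_inv, map_mul, h1, one_mul]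
  rw [hmkeq] at hlow13
  have hfin := hlow13.trans (hmk _)
  rw [← A.toHG.d_eq] at hfin
  have htri3 : A.d (y * A.r i ^ t * y⁻¹ * γ t1) (γ t3) ≤
      A.d (y * A.r i ^ t * y⁻¹ * (y * A.x i j)) (y * A.x i j') + 2 * (2 * A.c2 + 3 * A.D + 1) := by
    have a1 := hH.tri (y * A.r i ^ t * y⁻¹ * γ t1) (y * A.r i ^ t * y⁻¹ * (y * A.x i j)) (γ t3)
    have a2 := hH.tri (y * A.r i ^ t * y⁻¹ * (y * A.x i j)) (y * A.x i j') (γ t3)
    have a3 := hH.symm (y * A.x i j') (γ t3)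
    have a4 : A.d (y * A.r i ^ t * y⁻¹ * γ t1) (y * A.r i ^ t * y⁻¹ * (y * A.x i j)) =
      A.d (γ t1) (y * A.x i j) := A.toHG.d_left _ _ _
    omega
  omega

end

end Pool.SC
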