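import Pool.Agent.Lib.MP_565fc2_lc.SC.Q3
import Pool.Agent.Lib.MP_565fc2_lc.SC.Iface

/-!
# SC-Q4: the quotient is hyperbolic and not virtually cyclic (paper 7.2, 7.3)

`quot_hyp`: `DehnHyp` for `G ⧸ N` and the set `S̄ = mk '' S ∪ (mk '' S)⁻¹` (finite, symmetric, generates; `wl S̄ = wl (mk '' S)` because words may use inverses; prove `wl S̄ g ≤ wl (mk '' S) g`, which is what is needed: a word over
`mk '' S` is a word over `S̄`): a word `l̄` over `S̄` lifts to a word `l` over `S ∪ S⁻¹` of the same length, `l̄.prod = 1` gives `l.prod ∈ N`; `dehn`; map the sub-word.  So `Four S̄ D'`.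
`quot_ne`.  PROOF.  Let `s` be a class (`Nonempty κ`), `h = A.h s`, `c ∉ Eh h` a given element; `n c` is bounded by `m0` (hypothesis).
(0) for `P = apts a` (any axis) and `g`, `k`: `oA P g (g h^k) ≤ t0` (`line_ax`, both points in the line `ln s g`).
(1) `h^k ∉ N` for `k ≠ 0`: `h^k ≠ 1` (`nrm_pow_ne`), Greendlinger gives `2 n (r i) ≤ t0 + 44 th + 4 k3 + 2 c2`, contradiction to `hbig` (`th ≥ t0`, `th ≥ 1`).
(2) suppose `⟨ḡ⟩` has finite index in `G ⧸ N`: there are `a, a' ≥ 1` with `h̄^a = ḡ^b`, `(c̄ h̄ c̄⁻¹)^(a') = ḡ^(b')`  (a finite index subgroup contains a positive power of every element).  So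
`c̄ h̄^(a' b) c̄⁻¹ = ḡ^(b b') = h̄^(a b')`.  `b ≠ 0` and `b' ≠ 0` because `h̄` has infinite order.  So `x = c h^(a' b) c⁻¹ h^(-a b') ∈ N`, and `x ≠ 1` because `c ∉ Eh h`.  But for every axis
`oA P 1 x ≤ oA 1 c + oA c (c h^…) + oA (c h^…) (c h^… c⁻¹) + oA … ≤ 4 n c + 2 t0 ≤ 4 m0 + 2 t0 ≤ 3 th`: contradiction to Greendlinger and `hbig`.
-/

set_option autoImplicit false

namespace Pool.SC

noncomputable section

variable {G : Type} [Group G] {κ : Type} {ι : Type} {cl : ι → κ} (A : PD G κ ι cl)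

/-- lifting words to a group from a quotient -/
private theorem q4_lift {G : Type} [Group G] (N : Subgroup G) [N.Normal] (S : Set G) :
    ∀ l : List (G ⧸ N), (∀ x ∈ l, x ∈ QuotientGroup.mk' N '' S ∨ x⁻¹ ∈ QuotientGroup.mk' N '' S) →
      ∃ m : List G, m.map (QuotientGroup.mk' N) = l ∧ ∀ x ∈ m, x ∈ S ∨ x⁻¹ ∈ S := by
  intro l
  induction l with
  | nil => intro _; exact ⟨[], rfl, by simp⟩
  | cons a l ih =>
    intro h
    obtain ⟨m, hm, hmS⟩ := ih fun x hx => h x (List.mem_cons_of_mem a hx)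
    rcases h a List.mem_cons_self with ⟨s, hs, hsa⟩ | ⟨s, hs, hsa⟩
    · refine ⟨s :: m, by rw [List.map_cons, hsa, hm], ?_⟩
      intro x hx
      rcases List.mem_cons.1 hx with rfl | hx
      · exact Or.inl hs
      · exact hmS x hx
    · refine ⟨s⁻¹ :: m, by rw [List.map_cons, map_inv, hsa, hm, inv_inv], ?_⟩
      intro x hx
      rcases List.mem_cons.1 hx with rfl | hx
      · exact Or.inr (by rwa [inv_inv])
      · exact hmS x hx

theorem PD.quot_hyp (hD : DehnHyp) [Finite ι] (hbig : ∀ i, 1000 * A.th + (4 * A.k3 + 2 * A.c2) ≤ 2 * A.n (A.r i))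
    (N : Subgroup G) [N.Normal] (hr : ∀ i, A.r i ∈ N)
    (hN : ∀ n ∈ N, n ≠ 1 → ∃ i y, 2 * A.n (A.r i) ≤ oA A.d (A.apts (A.ax i y)) 1 n + (44 * A.th + 4 * A.k3 + 2 * A.c2)) :
    WordHyp (G ⧸ N) := by
  obtain ⟨K, hK⟩ := A.dehn hbig N hr hN
  let T : Set (G ⧸ N) := QuotientGroup.mk' N '' A.S
  let U : Set (G ⧸ N) := T ∪ (fun x => x⁻¹) '' T
  have hTf : T.Finite := A.fin.image _
  have hT : Subgroup.closure T = ⊤ := by
    have h1 : (Subgroup.closure A.S).map (QuotientGroup.mk' N) = Subgroup.closure T :=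
      MonoidHom.map_closure _ _
    rw [← h1, A.gen]
    exact Subgroup.map_top_of_surjective _ (QuotientGroup.mk'_surjective N)
  have hU : Subgroup.closure U = ⊤ := by
    rw [eq_top_iff, ← hT]
    exact Subgroup.closure_mono Set.subset_union_left
  have hUs : ∀ s ∈ U, s⁻¹ ∈ U := by
    rintro s (hs | ⟨x, hx, rfl⟩)
    · exact Or.inr ⟨s, hs, rfl⟩
    · left
      simpa using hx
  have hUT : ∀ x ∈ U, x ∈ T ∨ x⁻¹ ∈ T := by
    rintro s (hs | ⟨x, hx, rfl⟩)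
    · exact Or.inl hs
    · right
      simpa using hx
  have hwl : ∀ g, wl U g ≤ wl T g := by
    intro g
    obtain ⟨l, h1, h2, h3⟩ := exists_word hT g
    have h4 : wl U l.prod ≤ l.length := wl_le fun x hx => (h2 x hx).elim
      (fun h => Or.inl (Or.inl h)) (fun h => Or.inr (Or.inl h))
    rw [h3, h1] at h4
    exact h4
  obtain ⟨D', hD'⟩ := hD (G ⧸ N) U (hTf.union (hTf.image _)) hU hUs K (by
    intro l hl hlU hlp
    obtain ⟨m, hm, hmS⟩ := q4_lift N A.S l fun x hx => hUT x (hlU x hx)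
    have hmp : m.prod ∈ N := by
      rw [← QuotientGroup.eq_one_iff]
      have : QuotientGroup.mk' N m.prod = 1 := by
        rw [map_list_prod, hm, hlp]
      exact this
    have hmne : m ≠ [] := by
      rintro rfl
      exact hl hm.symm
    obtain ⟨l1, w, l2, hw, hwK, hwl'⟩ := hK m hmne hmS hmp
    refine ⟨l1.map (QuotientGroup.mk' N), w.map (QuotientGroup.mk' N), l2.map (QuotientGroup.mk' N),
      ?_, by simpa using hwK, ?_⟩
    · rw [← hm, hw, List.map_append, List.map_append]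
    · rw [List.length_map, ← map_list_prod]
      exact (hwl _).trans_lt hwl')
  exact ⟨U, hTf.union (hTf.image _), hU, D', hD'⟩

theorem PD.quot_ne (hbig : ∀ i, 1000 * A.th + (4 * A.k3 + 2 * A.c2) ≤ 2 * A.n (A.r i))
    (N : Subgroup G) [N.Normal]
    (hN : ∀ n ∈ N, n ≠ 1 → ∃ i y, 2 * A.n (A.r i) ≤ oA A.d (A.apts (A.ax i y)) 1 n + (44 * A.th + 4 * A.k3 + 2 * A.c2))
    (s : κ) (c : G) (hc : c ∉ Eh (A.h s)) (hcm : A.n c ≤ A.m0) : NonElem (G ⧸ N) := by
  have hyp := A.toHG.hyp4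
  set h := A.h s with hh
  have hnrm : Nrm A.toHG h := A.nrm s
  -- constants
  have ct0 : A.t0 = 2 * A.W * A.lM + 2 * A.c2 := rfl
  have cth : A.th = 2 * A.t0 + 6 * A.c2 + 2 * A.D := rfl
  have cc2 : A.c2 = 4 * A.lM + 2 * A.k3 + 2 * A.D := rfl
  have clM := A.m0_lM
  obtain ⟨-, -, -, -, k5, k6, -⟩ := A.consts
  -- (0)
  have z0 : ∀ (a : A.Ax) (g : G) (k : ℤ), oA A.d (A.apts a) g (g * h ^ k) ≤ A.t0 := by
    intro a g k
    refine A.line_ax a (A.ln s g) g (g * h ^ k) ?_ ?_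
    · rw [LD.pts_ln]
      exact self_mem_line _ _
    · rw [LD.pts_ln]
      exact mem_line_zpow (self_mem_line _ _) k
  -- (1)
  have z1 : ∀ k : ℤ, k ≠ 0 → h ^ k ∉ N := by
    intro k hk hmem
    obtain ⟨i, y, hi⟩ := hN _ hmem (nrm_pow_ne hnrm k hk)
    have h1 := z0 (A.ax i y) 1 k
    rw [one_mul] at h1
    have h2 := hbig i
    omega
  -- (2)
  intro g hg
  have hfi : ∀ x : G ⧸ N, ∃ n : ℕ, 0 < n ∧ ∃ b : ℤ, x ^ n = g ^ b := by
    intro x
    obtain ⟨n, hn, _, hx⟩ := Subgroup.exists_pow_mem_of_index_ne_zero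
      (H := Subgroup.zpowers g) hg.index_ne_zero x
    obtain ⟨b, hb⟩ := Subgroup.mem_zpowers_iff.1 hx
    exact ⟨n, hn, b, hb.symm⟩
  let π := QuotientGroup.mk' N
  have hπ : ∀ x, π x = 1 ↔ x ∈ N := fun x => QuotientGroup.eq_one_iff x
  obtain ⟨a, ha, b, hab⟩ := hfi (π h)
  obtain ⟨a', ha', b', hab'⟩ := hfi (π (c * h * c⁻¹))
  have hb : b ≠ 0 := by
    rintro rfl
    rw [zpow_zero, ← map_pow, hπ] at hab
    exact z1 a (by omega) (by rwa [zpow_natCast])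
  have hb' : b' ≠ 0 := by
    rintro rfl
    rw [zpow_zero, ← map_pow, hπ, conj_pow] at hab'
    have h1 : h ^ a' ∈ N := by
      have h2 := Subgroup.Normal.conj_mem inferInstance _ hab' c⁻¹
      have h3 : c⁻¹ * (c * h ^ a' * c⁻¹) * (c⁻¹)⁻¹ = h ^ a' := by group
      rwa [h3] at h2
    exact z1 a' (by omega) (by rwa [zpow_natCast])
  -- the relation
  have e1 : π (c * h ^ ((a' : ℤ) * b) * c⁻¹) = π (h ^ ((a : ℤ) * b')) := by
    have h1 : π (c * h ^ ((a' : ℤ) * b) * c⁻¹) = (π (c * h * c⁻¹) ^ a') ^ b := by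
      rw [← map_pow, ← map_zpow, conj_pow, conj_zpow, zpow_mul, zpow_natCast]
    have h2 : π (h ^ ((a : ℤ) * b')) = (π h ^ a) ^ b' := by
      rw [← map_pow, ← map_zpow, zpow_mul, zpow_natCast]
    rw [h1, h2, hab, hab', ← zpow_mul, ← zpow_mul, mul_comm]
  set x := c * h ^ ((a' : ℤ) * b) * c⁻¹ * (h ^ ((a : ℤ) * b'))⁻¹ with hx
  have hxN : x ∈ N := by
    rw [← hπ, hx, map_mul, map_inv, e1, mul_inv_cancel]
  have hx1 : x ≠ 1 := by
    intro h1
    apply hc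
    rw [mem_Eh]
    refine ⟨(a' : ℤ) * b, (a : ℤ) * b', ?_, ?_, ?_⟩
    · exact mul_ne_zero (by omega) hb
    · exact mul_ne_zero (by omega) hb'
    · rw [hx, mul_inv_eq_one] at h1
      exact h1
  obtain ⟨i, y, hi⟩ := hN x hxN hx1
  have hPne := A.ax_ne (A.ax i y)
  have t1 := oA_tri hyp hPne 1 c x
  have t2 := oA_tri hyp hPne c (c * h ^ ((a' : ℤ) * b)) x
  have t3 := oA_tri hyp hPne (c * h ^ ((a' : ℤ) * b)) (c * h ^ ((a' : ℤ) * b) * c⁻¹) x
  have u1 := oA_le_two hyp hPne 1 c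
  have u2 := z0 (A.ax i y) c ((a' : ℤ) * b)
  have u3 := oA_le_two hyp hPne (c * h ^ ((a' : ℤ) * b)) (c * h ^ ((a' : ℤ) * b) * c⁻¹)
  have u4 : oA A.d (A.apts (A.ax i y)) (c * h ^ ((a' : ℤ) * b) * c⁻¹) x ≤ A.t0 := by
    have := z0 (A.ax i y) (c * h ^ ((a' : ℤ) * b) * c⁻¹) (-((a : ℤ) * b'))
    rwa [zpow_neg] at this
  rw [A.toHG.d_one] at u1
  rw [A.toHG.d_mul, A.toHG.n_inv] at u3
  have h2 := hbig i
  omega

end

end Pool.SC
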