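import Pool.Agent.Lib.MP_565fc2_lc.SC.R1

/-!
# SC-R13: connectors with test rounds; corners (paper, section 6, data)

`exists_corners`: define `x` on `ℕ` by recursion upwards and on negative integers by recursion downwards.
`exists_conn`: `T : ℕ → G` (test elements `T 0, …, T (q-1)`, `q ≥ 1`), `w` the wrap element, `R ≥ 1`, `k0 = 2 q R + 1`.  With `b = j mod k0` (`0 ≤ b < k0`):
`c j = w` if `b = k0 - 1`; otherwise `b' = b mod (2 q)`, `c j = T (b'/2)` if `b'` is even, `(T (b'/2))⁻¹` if `b'` is odd.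
Test property.  Window `[a, a + W0)`, `W0 = 6 q + 4`.  There is `j0` with `a ≤ j0`, `j0 + 2 q ≤ a + W0` and `c (j0 + 2 u) = T u`, `c (j0 + 2 u + 1) = (T u)⁻¹` for `u < q`:
let `b = a mod k0`; if the next multiple `b1` of `2 q` with `b1 ≥ b` satisfies `b1 + 2 q ≤ k0 - 1` take `j0 = a + (b1 - b)` (`b1 - b < 2 q`); otherwise (then `b > k0 - 1 - 4 q`) take the start of the
next period `j0 = a + (k0 - b)`, `k0 - b ≤ 4 q + 1`.  (As `k0 - 1 = 2 q R`, a full round fits at the start of a period.)
Let `s = s_(j0)`.  `s_(j0+1) = (T 0)⁻¹ s T 0 ∈ P`, `s_(j0+2) = T 0 s_(j0+1) (T 0)⁻¹ = s`, and by induction `s_(j0+2u) = s`, `s_(j0+2u+1) = (T u)⁻¹ s (T u) ∈ P`.  So `s = 1` by the hypothesis on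
`T`, and `s_a` is conjugate to `s_(j0)`, so `s_a = 1`.
-/

set_option autoImplicit false

namespace Pool.SC

variable {G : Type} [Group G]

private def upw (b : ℤ → G) : ℕ → G
  | 0 => 1
  | n + 1 => upw b n * b (n : ℤ)

private def dnw (b : ℤ → G) : ℕ → G
  | 0 => 1
  | n + 1 => dnw b n * (b (-((n : ℤ) + 1)))⁻¹

private def crn (b : ℤ → G) : ℤ → G
  | Int.ofNat n => upw b n
  | Int.negSucc n => dnw b (n + 1)

theorem exists_corners (b : ℤ → G) : ∃ x : ℤ → G, x 0 = 1 ∧ ∀ j, x (j + 1) = x j * b j := by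
  refine ⟨crn b, rfl, ?_⟩
  intro j
  rcases j with n | n
  · show crn b (Int.ofNat (n + 1)) = upw b n * b (n : ℤ)
    rfl
  · rcases n with _ | m
    · have e : Int.negSucc 0 + 1 = 0 := by decide
      rw [e]
      show (1 : G) = (1 * (b (-(((0 : ℕ) : ℤ) + 1)))⁻¹) * b (Int.negSucc 0)
      have e2 : (-(((0 : ℕ) : ℤ) + 1)) = Int.negSucc 0 := by decide
      rw [e2, one_mul, inv_mul_cancel]
    · have e : Int.negSucc (m + 1) + 1 = Int.negSucc m := by
        rw [Int.negSucc_eq, Int.negSucc_eq]
        push_cast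
        ring
      rw [e]
      show dnw b (m + 1) = (dnw b (m + 1) * (b (-(((m + 1 : ℕ) : ℤ) + 1)))⁻¹) * b (Int.negSucc (m + 1))
      have e2 : (-(((m + 1 : ℕ) : ℤ) + 1)) = Int.negSucc (m + 1) := by
        rw [Int.negSucc_eq]
      rw [e2, inv_mul_cancel_right]

/-- the round: test elements and their inverses alternate -/
private def rnd (T : ℕ → G) (i : ℕ) : G := if i % 2 = 0 then T (i / 2) else (T (i / 2))⁻¹

private def cN (T : ℕ → G) (q R : ℕ) (w : G) (r : ℕ) : G :=
  if r = 2 * q * R then w else rnd T (r % (2 * q))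

private lemma rnd_cases (T : ℕ → G) {q i : ℕ} (hi : i < 2 * q) :
    ∃ u, u < q ∧ (rnd T i = T u ∨ rnd T i = (T u)⁻¹) := by
  refine ⟨i / 2, by omega, ?_⟩
  unfold rnd
  split_ifs
  · exact Or.inl rfl
  · exact Or.inr rfl

/-- the connector word -/
private def conn (T : ℕ → G) (q R : ℕ) (w : G) (j : ℤ) : G :=
  cN T q R w (j % ((2 * q * R + 1 : ℕ) : ℤ)).toNat

private lemma conn_add (T : ℕ → G) (q R : ℕ) (w : G) (r m : ℕ) (a : ℤ)
    (hr : ((r : ℕ) : ℤ) = a % ((2 * q * R + 1 : ℕ) : ℤ)) (hm : r + m < 2 * q * R + 1) :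
    conn T q R w (a + m) = cN T q R w (r + m) := by
  unfold conn
  have h1 : (a + (m : ℤ)) % ((2 * q * R + 1 : ℕ) : ℤ) = ((r + m : ℕ) : ℤ) := by
    rw [← Int.emod_add_emod, ← hr]
    have : ((r : ℤ) + (m : ℤ)) = ((r + m : ℕ) : ℤ) := by push_cast; ring
    rw [this]
    exact Int.emod_eq_of_lt (by positivity) (by exact_mod_cast hm)
  rw [h1, Int.toNat_natCast]

theorem exists_conn (T : ℕ → G) (q R : ℕ) (hq : 1 ≤ q) (hR : 1 ≤ R) (w : G) (P : Subgroup G)
    (hT : ∀ s ∈ P, (∀ u, u < q → (T u)⁻¹ * s * T u ∈ P) → s = 1) :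
    ∃ c : ℤ → G, (∀ j, c (j + (2 * q * R + 1 : ℕ)) = c j) ∧
      (∀ j : ℤ, 0 ≤ j → j < (2 * q * R : ℕ) → ∃ u, u < q ∧ (c j = T u ∨ c j = (T u)⁻¹)) ∧
      c (2 * q * R : ℕ) = w ∧
      (∀ j, c j = w ∨ ∃ u, u < q ∧ (c j = T u ∨ c j = (T u)⁻¹)) ∧
      (∀ (a : ℤ) (s : ℤ → G), (∀ j, a ≤ j → j < a + (6 * q + 4 : ℕ) → s j ∈ P ∧ s (j + 1) = (c j)⁻¹ * s j * c j) →
        s a = 1) := by
  have hq2 : 0 < 2 * q := by omega
  refine ⟨conn T q R w, ?_, ?_, ?_, ?_, ?_⟩
  · intro j
    unfold conn
    rw [Int.add_emod_right]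
  · intro j h0 h1
    have e : j % ((2 * q * R + 1 : ℕ) : ℤ) = j := by
      apply Int.emod_eq_of_lt h0
      push_cast at h1 ⊢
      linarith
    obtain ⟨n, rfl⟩ := Int.eq_ofNat_of_zero_le h0
    have h2 : n < 2 * q * R := by exact_mod_cast h1
    unfold conn
    rw [e, Int.toNat_natCast]
    unfold cN
    rw [if_neg (by omega)]
    exact rnd_cases T (Nat.mod_lt _ hq2)
  · unfold conn
    have e : ((2 * q * R : ℕ) : ℤ) % ((2 * q * R + 1 : ℕ) : ℤ) = ((2 * q * R : ℕ) : ℤ) := by
      apply Int.emod_eq_of_lt (by positivity)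
      push_cast
      linarith
    rw [e, Int.toNat_natCast]
    unfold cN
    rw [if_pos rfl]
  · intro j
    unfold conn cN
    split_ifs with h
    · exact Or.inl rfl
    · exact Or.inr (rnd_cases T (Nat.mod_lt _ hq2))
  · intro a s hs
    -- the start of the round
    obtain ⟨t, ht, hc⟩ : ∃ t : ℕ, t + 2 * q ≤ 6 * q + 4 ∧
        ∀ i : ℕ, i < 2 * q → conn T q R w (a + t + i) = rnd T i := by
      have hk : (0 : ℤ) < ((2 * q * R + 1 : ℕ) : ℤ) := by positivity
      obtain ⟨r, hr⟩ := Int.eq_ofNat_of_zero_le (Int.emod_nonneg a (ne_of_gt hk))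
      have hr' : ((r : ℕ) : ℤ) = a % ((2 * q * R + 1 : ℕ) : ℤ) := hr.symm
      have hrlt : r < 2 * q * R + 1 := by
        have := Int.emod_lt_of_pos a hk
        rw [hr] at this
        exact_mod_cast this
      -- the next multiple
      obtain ⟨M, hM1, hM2⟩ : ∃ M : ℕ, r ≤ 2 * q * M ∧ 2 * q * M < r + 2 * q := by
        refine ⟨(r + (2 * q - 1)) / (2 * q), ?_, ?_⟩
        · have := Nat.lt_div_mul_add (a := r + (2 * q - 1)) hq2
          rw [mul_comm]
          omega
        · have := Nat.div_mul_le_self (r + (2 * q - 1)) (2 * q)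
          rw [mul_comm]
          omega
      by_cases hcase : 2 * q * M + 2 * q ≤ 2 * q * R
      · refine ⟨2 * q * M - r, by omega, ?_⟩
        intro i hi
        have e1 : a + ((2 * q * M - r : ℕ) : ℤ) + (i : ℤ) = a + ((2 * q * M - r + i : ℕ) : ℤ) := by
          push_cast
          ring
        rw [e1, conn_add T q R w r _ a hr' (by omega)]
        have e2 : r + (2 * q * M - r + i) = 2 * q * M + i := by omega
        rw [e2]
        unfold cN
        rw [if_neg (by omega), Nat.mul_add_mod, Nat.mod_eq_of_lt hi]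
      · have hMR : R ≤ M := by
          by_contra h
          apply hcase
          have h1 : M + 1 ≤ R := by omega
          calc 2 * q * M + 2 * q = 2 * q * (M + 1) := by ring
            _ ≤ 2 * q * R := Nat.mul_le_mul_left _ h1
        have hb : 2 * q * R ≤ 2 * q * M := Nat.mul_le_mul_left _ hMR
        refine ⟨2 * q * R + 1 - r, by omega, ?_⟩
        intro i hi
        have hqR : 2 * q ≤ 2 * q * R := Nat.le_mul_of_pos_right _ (by omega)
        have e1 : a + ((2 * q * R + 1 - r : ℕ) : ℤ) + (i : ℤ) =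
            (a - r + i) + ((2 * q * R + 1 : ℕ) : ℤ) := by
          have : ((2 * q * R + 1 - r : ℕ) : ℤ) = ((2 * q * R + 1 : ℕ) : ℤ) - (r : ℤ) := by
            rw [Nat.cast_sub (le_of_lt hrlt)]
          rw [this]
          ring
        have e2 : (a - r + i) % ((2 * q * R + 1 : ℕ) : ℤ) = ((i : ℕ) : ℤ) := by
          have h3 : a - (r : ℤ) = ((2 * q * R + 1 : ℕ) : ℤ) * (a / ((2 * q * R + 1 : ℕ) : ℤ)) := by
            have := Int.mul_ediv_add_emod a ((2 * q * R + 1 : ℕ) : ℤ)
            rw [hr'] 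
            linarith
          rw [h3, Int.mul_add_emod_self_left]
          exact Int.emod_eq_of_lt (by positivity) (by exact_mod_cast (by omega : i < 2 * q * R + 1))
        unfold conn
        rw [e1, Int.add_emod_right, e2, Int.toNat_natCast]
        unfold cN
        rw [if_neg (by omega), Nat.mod_eq_of_lt hi]
    -- the round acts
    have hstep : ∀ m : ℕ, m < 6 * q + 4 → s (a + m) ∈ P ∧
        s (a + m + 1) = (conn T q R w (a + m))⁻¹ * s (a + m) * conn T q R w (a + m) := by
      intro m hm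
      apply hs
      · have : (0 : ℤ) ≤ (m : ℤ) := by positivity
        linarith
      · have : (m : ℤ) < ((6 * q + 4 : ℕ) : ℤ) := by exact_mod_cast hm
        linarith
    have hround : ∀ u : ℕ, u < q → s (a + t + (2 * u : ℕ)) = s (a + t) ∧
        s (a + t + (2 * u : ℕ) + 1) = (T u)⁻¹ * s (a + t) * T u := by
      intro u
      induction u with
      | zero =>
        intro hu
        have h1 := (hstep t (by omega)).2
        have h2 := hc 0 (by omega)
        have h3 : rnd T 0 = T 0 := by unfold rnd; simp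
        rw [h3] at h2
        simp only [Nat.cast_zero, add_zero] at h2
        refine ⟨by simp, ?_⟩
        simp only [mul_zero, Nat.cast_zero, add_zero]
        rw [h1, h2]
      | succ u ih =>
        intro hu
        obtain ⟨h1, h2⟩ := ih (by omega)
        have hodd := hc (2 * u + 1) (by omega)
        have hev := hc (2 * (u + 1)) (by omega)
        have r1 : rnd T (2 * u + 1) = (T u)⁻¹ := by
          unfold rnd
          rw [if_neg (by omega)]
          congr 2
          omega
        have r2 : rnd T (2 * (u + 1)) = T (u + 1) := by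
          unfold rnd
          rw [if_pos (by omega)]
          congr 1
          omega
        rw [r1] at hodd
        rw [r2] at hev
        have s1 := (hstep (t + (2 * u + 1)) (by omega)).2
        have s2 := (hstep (t + (2 * (u + 1))) (by omega)).2
        have e1 : a + ((t + (2 * u + 1) : ℕ) : ℤ) = a + t + ((2 * u + 1 : ℕ) : ℤ) := by
          push_cast
          ring
        have e2 : a + ((t + (2 * (u + 1)) : ℕ) : ℤ) = a + t + ((2 * (u + 1) : ℕ) : ℤ) := by
          push_cast
          ring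
        rw [e1, hodd] at s1
        rw [e2, hev] at s2
        have e3 : a + t + ((2 * u + 1 : ℕ) : ℤ) + 1 = a + t + ((2 * (u + 1) : ℕ) : ℤ) := by
          push_cast
          ring
        have e4 : a + t + ((2 * u + 1 : ℕ) : ℤ) = a + t + ((2 * u : ℕ) : ℤ) + 1 := by
          push_cast
          ring
        rw [e3, e4, h2] at s1
        have s3 : s (a + t + ((2 * (u + 1) : ℕ) : ℤ)) = s (a + t) := by
          rw [s1]
          group
        refine ⟨s3, ?_⟩
        rw [s2, s3]
    have hone : s (a + t) = 1 := by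
      apply hT _ (hstep t (by omega)).1
      intro u hu
      have h1 := (hround u hu).2
      have h2 := (hstep (t + (2 * u + 1)) (by omega)).1
      have e1 : a + ((t + (2 * u + 1) : ℕ) : ℤ) = a + t + ((2 * u : ℕ) : ℤ) + 1 := by
        push_cast
        ring
      rw [e1, h1] at h2
      exact h2
    -- back to the start
    have hback : ∀ i : ℕ, i ≤ t → s (a + i) = 1 → s a = 1 := by
      intro i
      induction i with
      | zero => intro _ h; simpa using h
      | succ i ih =>
        intro hi h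
        apply ih (by omega)
        have h1 := (hstep i (by omega)).2
        have e : a + ((i + 1 : ℕ) : ℤ) = a + i + 1 := by push_cast; ring
        rw [e, h1] at h
        have h2 : s (a + i) = conn T q R w (a + i) * ((conn T q R w (a + i))⁻¹ * s (a + i) *
            conn T q R w (a + i)) * (conn T q R w (a + i))⁻¹ := by group
        rw [h2, h]
        group
    exact hback t le_rfl hone

end Pool.SC
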