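import Pool.Agent.Lib.MP_565fc2_lc.SC.R10
import Pool.Agent.Lib.MP_565fc2_lc.SC.R13

/-!
# SC-R14: choice of the constants (paper 6.8)

`exists_LD`: `t1` = maximum of the constants of `line_overlap` over all pairs of classes (finite), `hM = 1 + max n (h s)`.
`exists_PD`.  PROOF.  For every class in the range of `cl` take `T` from `exists_tests` (list; all lists extended to a common length `q ≥ 1` by repeating an element).  `c'_i ∈ K (cl i)` with
`g i * c'_i ∉ E(h)`: `c'_i = 1` if `g i ∉ E(h)`, otherwise an element of `K \ E(h)` (`not_le_Eh`).  `w_i = g i * c'_i`.  `cM` = maximum of the lengths of all `T u`, `w_i` (finitely many).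
`B0 = hM + D + t1 + cM`.  `bN` from `HG.pig (100 B0)`.  `e0 = bN !`.  `sp = 200 B0 + 1`.  `W0 = 6 q + 4`, `W = W0 + 12`.  Choose `R` with `k0 = 2 q R + 1 ≥ 10^6 (W + 100) hM`
(only `≥` some explicit number depending on `W, hM`).  Enumerate `ι`: injection `f : ι → ℕ`, `f i < N`.  Then `M ≥ sp * N * k0 + 1000 B0 + bN + Mb + …` and `m i j = e0 * (M + sp * (f i * k0 + (j mod k0)))`.
So `e0 M ≤ m i j ≤ 2 e0 M`.  `m0 = e0 M`, `lM = 2 e0 M hM + cM` (`n_pow`).  `lab`: if the exponents differ by at most `200 B0 < sp ≤ e0 sp` the numbers `f i * k0 + (j mod k0)` are equal,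
so `f i = f i'` and `j ≡ j'` mod `k0`.
`big`: by `r_ge`: `2 n (r i) ≥ k0 (m0 - cM) ≥ k0 m0 / 2`; `lM ≤ 3 m0 hM`; `k3 ≤ 22 B0 ≤ lM`, `c2 ≤ 4 lM + 2 lM + 2 lM = 8 lM`, `t0 ≤ (2 W + 16) lM`, `th ≤ (4 W + 32 + 48 + 2) lM`, so
`1000 th + 4 k3 + 2 c2 ≤ (4000 W + 82100) lM ≤ (4000 W + 82100) * 3 hM m0 ≤ k0 m0 / 2` for `k0 ≥ 6 hM (4000 W + 82100)`.
`r`: `r i = x i k0 = (∏_(j < k0 - 1) h^(m_j) c_j) * h^(m_(k0-1)) * w_i = v * g i * c'_i` with `v ∈ K (cl i)` (all `h`, `T u ∈ K`): induction: `x i j ∈ K` for `0 ≤ j ≤ k0 - 1`.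
-/

set_option autoImplicit false

namespace Pool.SC

noncomputable section

variable {G : Type} [Group G]

private theorem lab_aux {e0 sp M k0 fi fi' B : ℕ} {j j' : ℤ} (he : 1 ≤ e0) (hk : 1 ≤ k0) (hsp : B < sp)
    (h1 : e0 * (M + sp * (fi * k0 + (j % k0).toNat)) ≤ e0 * (M + sp * (fi' * k0 + (j' % k0).toNat)) + B)
    (h2 : e0 * (M + sp * (fi' * k0 + (j' % k0).toNat)) ≤ e0 * (M + sp * (fi * k0 + (j % k0).toNat)) + B) :
    fi = fi' ∧ (k0 : ℤ) ∣ j - j' := by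
  have hk' : (0 : ℤ) < k0 := by exact_mod_cast hk
  obtain ⟨a, ha⟩ : ∃ a : ℕ, (j % k0).toNat = a := ⟨_, rfl⟩
  obtain ⟨a', ha'⟩ : ∃ a' : ℕ, (j' % k0).toNat = a' := ⟨_, rfl⟩
  have b1 := Int.emod_nonneg j hk'.ne'
  have b2 := Int.emod_lt_of_pos j hk'
  have b1' := Int.emod_nonneg j' hk'.ne'
  have b2' := Int.emod_lt_of_pos j' hk'
  have hak : a < k0 := by omega
  have hak' : a' < k0 := by omega
  rw [ha, ha'] at h1 h2
  have key : ∀ u u' : ℕ, e0 * (M + sp * u') ≤ e0 * (M + sp * u) + B → u' ≤ u := by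
    intro u u' h
    by_contra hlt
    push Not at hlt
    have c1 : sp * (u + 1) ≤ sp * u' := Nat.mul_le_mul_left sp hlt
    have c2 : e0 * (M + sp * u + sp) ≤ e0 * (M + sp * u') := Nat.mul_le_mul_left e0 (by
      have : sp * (u + 1) = sp * u + sp := by ring
      omega)
    have c3 : e0 * (M + sp * u + sp) = e0 * (M + sp * u) + e0 * sp := by ring
    have c4 : sp ≤ e0 * sp := Nat.le_mul_of_pos_left sp he
    omega
  have e1 := key _ _ h1
  have e2 := key _ _ h2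
  have e3 : fi * k0 + a = fi' * k0 + a' := le_antisymm e1 e2
  have e4 : fi = fi' := by
    have d1 : (fi * k0 + a) / k0 = fi := by
      rw [Nat.add_comm, Nat.add_mul_div_right _ _ hk, Nat.div_eq_of_lt hak, Nat.zero_add]
    have d2 : (fi' * k0 + a') / k0 = fi' := by
      rw [Nat.add_comm, Nat.add_mul_div_right _ _ hk, Nat.div_eq_of_lt hak', Nat.zero_add]
    rw [← d1, ← d2, e3]
  subst e4
  refine ⟨rfl, ?_⟩
  have e5 : a = a' := by omega
  have e6 : j % k0 = j' % k0 := by omega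
  exact Int.ModEq.dvd (show j' ≡ j [ZMOD k0] from e6.symm)

private theorem big_aux {k0 m0 cM lM W k3 c2 t0 th D B0 hM n : ℕ} (h0 : 6 * hM * (4000 * W + 82100) ≤ k0)
    (hB : 1000 * B0 ≤ m0) (hc : cM ≤ B0) (hD : D ≤ B0) (hk3 : k3 ≤ 22 * B0) (hM1 : 1 ≤ hM) (hlM : lM = 2 * m0 * hM + cM)
    (hc2 : c2 = 4 * lM + 2 * k3 + 2 * D) (ht0 : t0 = 2 * W * lM + 2 * c2) (hth : th = 2 * t0 + 6 * c2 + 2 * D)
    (hn : k0 * (m0 - cM) ≤ n) : 1000 * th + (4 * k3 + 2 * c2) ≤ n := by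
  have hm0 : m0 ≤ m0 * hM := Nat.le_mul_of_pos_right m0 hM1
  have hl1 : lM ≤ 3 * (m0 * hM) := by
    have : 2 * m0 * hM = 2 * (m0 * hM) := by ring
    omega
  have hl2 : m0 ≤ lM := by
    have : 2 * m0 * hM = 2 * (m0 * hM) := by ring
    omega
  have hc2' : c2 ≤ 5 * lM := by omega
  have ht0' : t0 ≤ (2 * W + 10) * lM := by
    have : (2 * W + 10) * lM = 2 * W * lM + 10 * lM := by ring
    omega
  have hth' : th ≤ (4 * W + 51) * lM := by
    have e1 : (4 * W + 51) * lM = 2 * ((2 * W + 10) * lM) + 31 * lM := by ring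
    omega
  have h1 : 1000 * th + (4 * k3 + 2 * c2) ≤ (4000 * W + 82100) * lM := by
    have e1 : (4000 * W + 82100) * lM = 1000 * ((4 * W + 51) * lM) + 31100 * lM := by ring
    omega
  have h2 : (4000 * W + 82100) * lM ≤ (4000 * W + 82100) * (3 * (m0 * hM)) := Nat.mul_le_mul_left _ hl1
  have h3 : 2 * ((4000 * W + 82100) * (3 * (m0 * hM))) ≤ k0 * m0 := by
    calc 2 * ((4000 * W + 82100) * (3 * (m0 * hM))) = 6 * hM * (4000 * W + 82100) * m0 := by ring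
      _ ≤ k0 * m0 := Nat.mul_le_mul_right _ h0
  have h4 : k0 * m0 ≤ 2 * (k0 * (m0 - cM)) := by
    calc k0 * m0 ≤ k0 * (2 * (m0 - cM)) := Nat.mul_le_mul_left _ (by omega)
      _ = 2 * (k0 * (m0 - cM)) := by ring
  omega

theorem exists_LD (H : HG G) (κ : Type) [Finite κ] (h : κ → G) (hn : ∀ s, Nrm H (h s))
    (hc : ∀ s t, s ≠ t → ¬ Comm (h s) (h t)) : ∃ A : LD G κ, A.toHG = H ∧ A.h = h := by
  classical
  have hne : ∀ s t, s ≠ t → h s ≠ h t := by
    intro s t hst e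
    exact hc s t hst ⟨1, 1, 1, one_ne_zero, one_ne_zero, by rw [e]; group⟩
  have h1 : ∀ q : κ × κ, ∃ t : ℕ, ∀ y y' : G, (h q.1 ≠ h q.2 ∨ y⁻¹ * y' ∉ Eh (h q.1)) →
      ∀ z ∈ line (h q.2) y', ∀ z' ∈ line (h q.2) y', oA H.d (line (h q.1) y) z z' ≤ t := by
    intro q
    refine line_overlap (hn q.1) (hn q.2) ?_
    by_cases e : q.1 = q.2
    · exact Or.inl (by rw [e])
    · exact Or.inr (hc _ _ e)
  choose t ht using h1
  obtain ⟨t1, ht1⟩ := (Set.finite_range t).bddAbove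
  obtain ⟨M, hM⟩ := (Set.finite_range (fun s => H.n (h s))).bddAbove
  refine ⟨{ toHG := H, h := h, nrm := hn, ncomm := hc, hM := M + 1,
            hM_le := fun s => (hM ⟨s, rfl⟩).trans (Nat.le_succ M), hM_pos := Nat.succ_pos M, t1 := t1,
            ov := ?_ }, rfl, rfl⟩
  intro s t' y y' hy z hz z' hz'
  refine (ht (s, t') y y' ?_ z hz z' hz').trans (ht1 ⟨(s, t'), rfl⟩)
  rcases hy with hy | hy
  · exact Or.inl (hne s t' hy)
  · exact Or.inr hy

theorem exists_PD {κ : Type} (A0 : LD G κ) (K : κ → Subgroup G) (hK : ∀ s, A0.h s ∈ K s)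
    (hf : ∀ s x, FinConj (K s) x → x = 1) (ι : Type) [Finite ι] [Nonempty ι] (cl : ι → κ) (g : ι → G) (Mb : ℕ) :
    ∃ A : PD G κ ι cl, A.toLD = A0 ∧ (∀ i, ∃ v ∈ K (cl i), ∃ c' ∈ K (cl i), A.r i = v * g i * c') ∧
      (∀ i, 1000 * A.th + (4 * A.k3 + 2 * A.c2) ≤ 2 * A.n (A.r i)) ∧ Mb ≤ A.m0 := by
  classical
  -- tests
  have hT : ∀ s, ∃ T : List G, T ≠ [] ∧ (∀ c ∈ T, c ∈ K s ∧ c ∉ Eh (A0.h s)) ∧
      ∀ t, t ∈ Ep (A0.h s) → (∀ c ∈ T, c⁻¹ * t * c ∈ Ep (A0.h s)) → t = 1 := fun s =>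
    exists_tests (A0.nrm s) (K s) (hK s) (hf s)
  choose T hT0 hT1 hT2 using hT
  obtain ⟨q, hq⟩ : ∃ q, ∀ i, (T (cl i)).length ≤ q := by
    obtain ⟨q, hq⟩ := (Set.finite_range (fun i => (T (cl i)).length)).bddAbove
    exact ⟨q, fun i => hq ⟨i, rfl⟩⟩
  have hq1 : 1 ≤ q := by
    obtain ⟨i⟩ := (inferInstance : Nonempty ι)
    have := List.length_pos_of_ne_nil (hT0 (cl i))
    have := hq i
    omega
  -- test functions
  have hTf : ∀ i, ∃ F : ℕ → G, (∀ u, F u ∈ T (cl i)) ∧ ∀ c ∈ T (cl i), ∃ u, u < q ∧ F u = c := by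
    intro i
    obtain ⟨b0, hb0⟩ := List.exists_mem_of_ne_nil _ (hT0 (cl i))
    refine ⟨fun u => (T (cl i)).getD u b0, ?_, ?_⟩
    · intro u
      rcases Nat.lt_or_ge u (T (cl i)).length with hu | hu
      · show (T (cl i)).getD u b0 ∈ T (cl i)
        rw [List.getD_eq_getElem _ _ hu]
        exact List.getElem_mem hu
      · show (T (cl i)).getD u b0 ∈ T (cl i)
        rw [List.getD_eq_default _ _ hu]
        exact hb0
    · intro c hc
      obtain ⟨u, hu, rfl⟩ := List.getElem_of_mem hc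
      exact ⟨u, hu.trans_le (hq i), List.getD_eq_getElem _ _ hu⟩
  choose F hF1 hF2 using hTf
  -- wrap elements
  have hw : ∀ i, ∃ c' ∈ K (cl i), g i * c' ∉ Eh (A0.h (cl i)) := by
    intro i
    by_cases hg : g i ∈ Eh (A0.h (cl i))
    · obtain ⟨c', h1, h2⟩ := not_le_Eh (A0.nrm (cl i)) (K (cl i)) (hK (cl i)) (hf (cl i))
      exact ⟨c', h1, fun h3 => h2 ((Subgroup.mul_mem_cancel_left _ hg).mp h3)⟩
    · exact ⟨1, (K (cl i)).one_mem, by rwa [mul_one]⟩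
  choose c' hc'1 hc'2 using hw
  -- lengths
  obtain ⟨cM, hcM1, hcM2⟩ : ∃ cM : ℕ, (∀ i, ∀ c ∈ T (cl i), A0.n c ≤ cM) ∧ ∀ i, A0.n (g i * c' i) ≤ cM := by
    obtain ⟨a1, ha1⟩ := (Set.finite_range (fun i => ((T (cl i)).map A0.n).sum)).bddAbove
    obtain ⟨a2, ha2⟩ := (Set.finite_range (fun i => A0.n (g i * c' i))).bddAbove
    refine ⟨a1 + a2, ?_, fun i => (ha2 ⟨i, rfl⟩).trans (Nat.le_add_left _ _)⟩
    intro i c hc
    have e1 : A0.n c ≤ ((T (cl i)).map A0.n).sum := List.single_le_sum (by simp) _ (List.mem_map_of_mem hc)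
    exact (e1.trans (ha1 ⟨i, rfl⟩)).trans (Nat.le_add_right _ _)
  obtain ⟨B0, hB0⟩ : ∃ B0, B0 = A0.hM + A0.D + A0.t1 + cM := ⟨_, rfl⟩
  obtain ⟨bN, hbN⟩ := A0.pig (100 * (A0.hM + A0.D + A0.t1 + cM))
  obtain ⟨e0, he0⟩ : ∃ e0, e0 = Nat.factorial bN := ⟨_, rfl⟩
  have he1 : 1 ≤ e0 := by rw [he0]; exact Nat.factorial_pos bN
  obtain ⟨R, hR⟩ : ∃ R, R = 6 * A0.hM * (4000 * (6 * q + 4 + 12) + 82100) := ⟨_, rfl⟩
  have hR1 : 1 ≤ R := by
    rw [hR]
    have := A0.hM_pos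
    have : 0 < 6 * A0.hM * (4000 * (6 * q + 4 + 12) + 82100) := by positivity
    omega
  have hk0R : R ≤ 2 * q * R + 1 := by
    have : 1 * R ≤ 2 * q * R := Nat.mul_le_mul_right R (by omega)
    omega
  have hk03 : 3 ≤ 2 * q * R + 1 := by
    have : 2 * q * 1 ≤ 2 * q * R := Nat.mul_le_mul_left _ hR1
    omega
  -- connectors
  have hconn := fun i => exists_conn (F i) q R hq1 hR1 (g i * c' i) (Ep (A0.h (cl i))) (by
    intro s hs hs2
    refine hT2 (cl i) s hs ?_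
    intro c hc
    obtain ⟨u, hu, rfl⟩ := hF2 i c hc
    exact hs2 u hu)
  choose c hc1 hc2 hc3 hc4 hc5 using hconn
  -- enumeration of the relators
  obtain ⟨N, f, hfN, hfi⟩ : ∃ (N : ℕ) (f : ι → ℕ), (∀ i, f i < N) ∧ Function.Injective f := by
    obtain ⟨N, ⟨e⟩⟩ := Finite.exists_equiv_fin ι
    exact ⟨N, fun i => (e i : ℕ), fun i => (e i).2, fun a b hab => e.injective (Fin.ext hab)⟩
  obtain ⟨k0, hk0⟩ : ∃ k0, k0 = 2 * q * R + 1 := ⟨_, rfl⟩
  obtain ⟨sp, hsp⟩ : ∃ sp, sp = 200 * B0 + 1 := ⟨_, rfl⟩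
  obtain ⟨M, hM⟩ : ∃ M, M = sp * (N * k0) + 1000 * B0 + bN + Mb := ⟨_, rfl⟩
  have hk0pos : (0 : ℤ) < k0 := by rw [hk0]; positivity
  obtain ⟨m, hm⟩ : ∃ m : ι → ℤ → ℕ, ∀ i j, m i j = e0 * (M + sp * (f i * k0 + (j % k0).toNat)) := ⟨fun i j => _, fun i j => rfl⟩
  have hMe : M ≤ e0 * M := Nat.le_mul_of_pos_left M he1
  have hm0 : ∀ i j, e0 * M ≤ m i j := by
    intro i j
    rw [hm]
    exact Nat.mul_le_mul_left e0 (Nat.le_add_right _ _)
  have hm2 : ∀ i j, m i j ≤ 2 * (e0 * M) := by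
    intro i j
    have b2 := Int.emod_lt_of_pos j hk0pos
    have b1 := Int.emod_nonneg j hk0pos.ne'
    have e1 : f i * k0 + (j % k0).toNat ≤ N * k0 := by
      have : (f i + 1) * k0 ≤ N * k0 := Nat.mul_le_mul_right k0 (hfN i)
      have e2 : (f i + 1) * k0 = f i * k0 + k0 := by ring
      omega
    have e2 : sp * (f i * k0 + (j % k0).toNat) ≤ M := (Nat.mul_le_mul_left sp e1).trans (by omega)
    rw [hm]
    calc e0 * (M + sp * (f i * k0 + (j % k0).toNat)) ≤ e0 * (M + M) := Nat.mul_le_mul_left e0 (by omega)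
      _ = 2 * (e0 * M) := by ring
  have hcn : ∀ i j, A0.n (c i j) ≤ cM := by
    intro i j
    rcases hc4 i j with h | ⟨u, -, h | h⟩
    · rw [h]
      exact hcM2 i
    · rw [h]
      exact hcM1 i _ (hF1 i u)
    · rw [h, HG.n_inv]
      exact hcM1 i _ (hF1 i u)
  have hcE : ∀ i j, c i j ∉ Eh (A0.h (cl i)) := by
    intro i j
    rcases hc4 i j with h | ⟨u, -, h | h⟩
    · rw [h]
      exact hc'2 i
    · rw [h]
      exact (hT1 (cl i) _ (hF1 i u)).2
    · rw [h]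
      exact fun h3 => (hT1 (cl i) _ (hF1 i u)).2 ((Subgroup.inv_mem_iff _).mp h3)
  -- corners
  have hcor := fun i => exists_corners (fun j => A0.h (cl i) ^ m i j * c i j)
  choose x hx0 hx1 using hcor
  obtain ⟨lM, hlM⟩ : ∃ lM, lM = 2 * (e0 * M) * A0.hM + cM := ⟨_, rfl⟩
  have hM1 := A0.hM_pos
  have hlMle : ∀ i j, A0.n (A0.h (cl i) ^ m i j * c i j) ≤ lM := by
    intro i j
    have e1 := A0.n_mul (A0.h (cl i) ^ m i j) (c i j)
    have e2 := A0.n_pow (A0.h (cl i)) (m i j)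
    have e3 : m i j * A0.n (A0.h (cl i)) ≤ 2 * (e0 * M) * A0.hM := Nat.mul_le_mul (hm2 i j) (A0.hM_le (cl i))
    have e4 := hcn i j
    omega
  have hm0lM : e0 * M ≤ lM := by
    have : e0 * M * 1 ≤ e0 * M * A0.hM := Nat.mul_le_mul_left _ hM1
    have e2 : 2 * (e0 * M) * A0.hM = 2 * (e0 * M * A0.hM) := by ring
    omega
  let A : PD G κ ι cl :=
    { toLD := A0
      k0 := k0
      k0_ge := by rw [hk0]; exact hk03
      c := c
      m := m
      c_per := by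
        intro i j
        rw [hk0]
        exact hc1 i j
      m_per := by
        intro i j
        rw [hm, hm, Int.add_emod_right]
      cM := cM
      c_le := hcn
      c_nin := hcE
      x := x
      x_zero := hx0
      x_succ := hx1
      m0 := e0 * M
      m0_le := hm0
      m0_big := by omega
      lab := by
        intro i j i' j' _ h1 h2
        rw [hm, hm] at h1 h2
        have h3 := lab_aux he1 (by omega) (by omega) h1 h2
        exact ⟨hfi h3.1, h3.2⟩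
      bN := bN
      pg := hbN
      bN_le := by omega
      bN_dvd := by
        intro i j
        rw [hm, ← he0]
        exact Nat.dvd_mul_right _ _
      W0 := 6 * q + 4
      test := by
        intro i a s h
        exact hc5 i a s h
      lM := lM
      lM_le := hlMle
      m0_lM := hm0lM }
  refine ⟨A, rfl, ?_, ?_, ?_⟩
  · intro i
    have hmem : ∀ j : ℕ, j ≤ 2 * q * R → x i j ∈ K (cl i) := by
      intro j
      induction j with
      | zero =>
        intro _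
        rw [Nat.cast_zero, hx0]
        exact (K (cl i)).one_mem
      | succ j ih =>
        intro hj
        push_cast
        rw [hx1]
        refine (K (cl i)).mul_mem (ih (by omega)) ((K (cl i)).mul_mem (Subgroup.pow_mem _ (hK (cl i)) _) ?_)
        obtain ⟨u, -, h | h⟩ := hc2 i j (by positivity) (by exact_mod_cast hj)
        · rw [h]
          exact (hT1 (cl i) _ (hF1 i u)).1
        · rw [h]
          exact (K (cl i)).inv_mem (hT1 (cl i) _ (hF1 i u)).1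
    refine ⟨x i (2 * q * R : ℕ) * A0.h (cl i) ^ m i (2 * q * R : ℕ), (K (cl i)).mul_mem (hmem _ le_rfl)
      (Subgroup.pow_mem _ (hK (cl i)) _), c' i, hc'1 i, ?_⟩
    show x i (k0 : ℕ) = _
    have e1 : ((k0 : ℕ) : ℤ) = ((2 * q * R : ℕ) : ℤ) + 1 := by rw [hk0]; push_cast; ring
    rw [e1, hx1, hc3]
    simp only [mul_assoc]
  · intro i
    have hcs := A.consts
    have hr := A.r_ge i
    have hB : A.B0 = B0 := hB0.symm
    have hkk : 6 * A0.hM * (4000 * (6 * q + 4 + 12) + 82100) ≤ k0 := by omega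
    exact big_aux (k0 := k0) (m0 := e0 * M) (cM := cM) (lM := lM) (W := 6 * q + 4 + 12) (k3 := A.k3) (c2 := A.c2) (t0 := A.t0)
      (th := A.th) (D := A0.D) (B0 := A.B0) (hM := A0.hM) hkk hcs.2.2.2.2.1 hcs.2.2.2.2.2.2.2.2.1 hcs.2.2.2.2.2.2.1 hcs.2.2.2.1 hM1 hlM
      rfl rfl rfl hr
  · show Mb ≤ e0 * M
    omega

end

end Pool.SC
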