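import Pool.Agent.Lib.MP_565fc2_lc.SC.R12
import Pool.Agent.Lib.MP_565fc2_lc.SC.R14
import Pool.Agent.Lib.MP_565fc2_lc.SC.Q4
import Pool.Agent.Lib.MP_565fc2_lc.SC.FWL

/-!
# SC-Q5: the small cancellation theorem (paper, sections 6 and 7)

PROOF of `scGen`.  `G = D ⧸ E`, `φ = mk' E`; `WordHyp G` by `B4`; `H : HG G`.  `h' s = (φ (h s))^(n_s)` normalized (`exists_nrm`; `Lox (φ (h s))` by `B4`); `¬ Comm (h' s) (h' t)` for `s ≠ t`: if `γ (φ h_s)^a γ⁻¹ = (φ h_t)^b`,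
`a, b ≠ 0`, lift `γ`: `γ̂ h_s^a γ̂⁻¹ = h_t^b e`, `e ∈ E` finite; `h_t^b e` and `h_t^b`: as `e` commutes with `h_t` (`H t ≤ C(E)`), the power with exponent `#E`: `γ̂ h_s^(a #E) γ̂⁻¹ = h_t^(b #E) e^(#E) = h_t^(b #E)`: `Comm (h s) (h t)`.
`K s = (H s).map φ`; `h' s ∈ K s`; `FinConj (K s) x → x = 1`: lift `x̂`; the `H s`-conjugates of `x̂` lie in the preimage (finite, `E` finite) of the finite set of `K s`-conjugates; so `x̂ ∈ E`.
`exists_LD`, `exists_PD` with `g' i = φ (g i)` and `Mb` = maximum of `n (φ m)`, `m ∈ M`, and of `n c` for one element `c ∈ K s \ E(h' s)` (`not_le_Eh`, `s = cl i₀`).  So `r i = v * g' i * c'`, `v, c' ∈ K (cl i)`; lift: `v = φ v̂`,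
`c' = φ ĉ`, `v̂, ĉ ∈ H (cl i)`; `R i = v̂ * g i * ĉ`; `φ (R i) = r i`; `R i ∈ centralizer E` (`H ≤ C(E)`, `g i ∈ C(E)`), which is `hc` (`ker φ = E`).  `u i = ĉ * v̂ ∈ H (cl i)`: `g i * u i = v̂⁻¹ (R i) v̂`, so the normal closures of
`{g i * u i}` and of `{R i}` coincide: call it `N`.  `green`: for `1 ≠ n ∈ N` there are `i, y` with `2 n (r i) ≤ oA … 1 (φ n) + …`.
(a) `m ∈ M`, `m ∈ N`: `2 n (r i) ≤ 2 n (φ m) + … ≤ 2 m0 + 44 th + 4 k3 + 2 c2`, `m0 ≤ lM ≤ th`: contradiction to `hbig`.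
(b) `N̄ = N.map φ ≤ G` (normal): satisfies `hN`: `n̄ = φ n ≠ 1` gives `n ≠ 1`.  `quot_hyp`, `quot_ne`: `G ⧸ N̄` is `NEH`.
(c) `D ⧸ N`: the image `F` of `E` in `D ⧸ N` is a finite normal subgroup and `(D ⧸ N) ⧸ F ≃* G ⧸ N̄` (both are `D ⧸ (N ⊔ E)`; third isomorphism theorem); `B4` and invariance of `WordHyp`, `NonElem` under `≃*` (F part: `FWL`, `FKer`).
-/

set_option autoImplicit false

namespace Pool.SC

/-- commensurability lifts through a finite normal subgroup centralized by `h'` -/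
private theorem Q5_comm {D : Type} [Group D] (E : Subgroup D) [E.Normal] [Finite E] {h h' : D}
    (hc : h' ∈ Subgroup.centralizer (E : Set D)) {p q : ℕ} (hp : 0 < p) (hq : 0 < q)
    (hC : Comm (QuotientGroup.mk' E h ^ p) (QuotientGroup.mk' E h' ^ q)) : Comm h h' := by
  obtain ⟨γ, a, b, ha, hb, h1⟩ := hC
  obtain ⟨γ', rfl⟩ := QuotientGroup.mk'_surjective E γ
  have e1 : QuotientGroup.mk' E (h' ^ ((q : ℤ) * b)) =
      QuotientGroup.mk' E (γ' * h ^ ((p : ℤ) * a) * γ'⁻¹) := by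
    rw [map_mul, map_mul, map_inv, map_zpow, map_zpow, zpow_mul, zpow_mul, zpow_natCast,
      zpow_natCast]
    exact h1.symm
  set e : D := (h' ^ ((q : ℤ) * b))⁻¹ * (γ' * h ^ ((p : ℤ) * a) * γ'⁻¹) with he
  have heE : e ∈ E := QuotientGroup.eq.mp e1
  have e2 : γ' * h ^ ((p : ℤ) * a) * γ'⁻¹ = h' ^ ((q : ℤ) * b) * e := by
    rw [he, mul_inv_cancel_left]
  have hcomm : Commute h' e := (Subgroup.mem_centralizer_iff.mp hc e heE).symm
  have hcard : 0 < Nat.card E := Nat.card_pos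
  have heN : e ^ Nat.card E = 1 := by
    have := pow_card_eq_one' (x := (⟨e, heE⟩ : E))
    exact congrArg Subtype.val this
  have hcard' : ((Nat.card E : ℕ) : ℤ) ≠ 0 := by exact_mod_cast hcard.ne'
  have hp' : (p : ℤ) ≠ 0 := by exact_mod_cast hp.ne'
  have hq' : (q : ℤ) ≠ 0 := by exact_mod_cast hq.ne'
  refine ⟨γ', (p : ℤ) * a * (Nat.card E : ℕ), (q : ℤ) * b * (Nat.card E : ℕ),
    mul_ne_zero (mul_ne_zero hp' ha) hcard', mul_ne_zero (mul_ne_zero hq' hb) hcard', ?_⟩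
  rw [zpow_mul, ← conj_zpow, e2, zpow_natCast, (hcomm.zpow_left _).mul_pow, heN, mul_one,
    zpow_mul _ ((q : ℤ) * b), zpow_natCast]

/-- elements with finitely many conjugates, modulo a finite normal subgroup -/
private theorem Q5_finconj {D : Type} [Group D] (E : Subgroup D) [E.Normal] [Finite E] (H : Subgroup D)
    (hf : ∀ x, FinConj H x → x ∈ E) (x : D ⧸ E) (hx : FinConj (H.map (QuotientGroup.mk' E)) x) : x = 1 := by
  obtain ⟨x', rfl⟩ := QuotientGroup.mk'_surjective E x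
  have hfin : FinConj H x' := by
    have h1 : ((QuotientGroup.mk' E) ⁻¹' {y | ∃ h ∈ H.map (QuotientGroup.mk' E),
        y = h * QuotientGroup.mk' E x' * h⁻¹}).Finite := by
      refine Set.Finite.preimage' hx fun b _ => ?_
      obtain ⟨b', rfl⟩ := QuotientGroup.mk'_surjective E b
      have hE : (E : Set D).Finite := Set.toFinite _
      refine (hE.image fun e => b' * e).subset ?_
      intro z hz
      have hz' : QuotientGroup.mk' E b' = QuotientGroup.mk' E z := hz.symm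
      have hz2 : b'⁻¹ * z ∈ E := QuotientGroup.eq.mp hz'
      exact ⟨b'⁻¹ * z, hz2, by group⟩
    refine h1.subset ?_
    rintro y ⟨k, hk, rfl⟩
    refine ⟨QuotientGroup.mk' E k, Subgroup.mem_map_of_mem _ hk, ?_⟩
    rw [map_mul, map_mul, map_inv]
  have h2 : x' ∈ E := hf x' hfin
  exact (QuotientGroup.eq_one_iff x').mpr h2

/-- hyperbolicity of `D ⧸ N` from that of the quotient of `D ⧸ E` by the image of `N` -/
private theorem Q5_quot (hB4 : B4) {D : Type} [Group D] (E : Subgroup D) [E.Normal] [Finite E]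
    (N : Subgroup D) [N.Normal] (N' : Subgroup (D ⧸ E)) [N'.Normal]
    (hN' : N' = N.map (QuotientGroup.mk' E)) (h1 : WordHyp ((D ⧸ E) ⧸ N')) (h2 : NonElem ((D ⧸ E) ⧸ N')) :
    NEH (D ⧸ N) := by
  have hle : N ≤ N'.comap (QuotientGroup.mk' E) := by
    rw [hN']
    exact Subgroup.le_comap_map _ _
  set f : D ⧸ N →* (D ⧸ E) ⧸ N' := QuotientGroup.map N N' (QuotientGroup.mk' E) hle with hf
  have hfs : Function.Surjective f := by
    intro y
    obtain ⟨y', rfl⟩ := QuotientGroup.mk'_surjective N' y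
    obtain ⟨d, rfl⟩ := QuotientGroup.mk'_surjective E y'
    exact ⟨QuotientGroup.mk' N d, rfl⟩
  have hker : (f.ker : Set (D ⧸ N)).Finite := by
    have hE : (E : Set D).Finite := Set.toFinite _
    refine (hE.image (QuotientGroup.mk' N)).subset ?_
    intro x hx
    obtain ⟨d, rfl⟩ := QuotientGroup.mk'_surjective N x
    have hx' : QuotientGroup.mk' N' (QuotientGroup.mk' E d) = 1 := hx
    have hd : QuotientGroup.mk' E d ∈ N' := (QuotientGroup.eq_one_iff _).mp hx'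
    rw [hN'] at hd
    obtain ⟨n, hn, hnd⟩ := hd
    have he : n⁻¹ * d ∈ E := QuotientGroup.eq.mp hnd
    refine ⟨n⁻¹ * d, he, ?_⟩
    rw [map_mul, map_inv]
    have : QuotientGroup.mk' N n = 1 := (QuotientGroup.eq_one_iff n).mpr hn
    rw [this, inv_one, one_mul]
  have : Finite f.ker := hker.to_subtype
  have e : (D ⧸ N) ⧸ f.ker ≃* (D ⧸ E) ⧸ N' := QuotientGroup.quotientKerEquivOfSurjective f hfs
  have hb := hB4 (D ⧸ N) f.ker inferInstance
  exact ⟨hb.1.mp (h1.equiv e.symm), hb.2.1.mp (h2.equiv e.symm)⟩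

theorem scGen (hD : DehnHyp) (hB4 : B4) : ScGen := by
  intro D _ E _ _ hWD κ _ H h hκ hHC hhH hLox hnc hfc ι _ _ cl g hgC M hM hM1
  set φ : D →* D ⧸ E := QuotientGroup.mk' E with hφ
  have hφs : Function.Surjective φ := QuotientGroup.mk'_surjective E
  have hb := hB4 D E inferInstance
  have hHG : Nonempty (HG (D ⧸ E)) := by
    obtain ⟨S, h1, h2, D0, h3⟩ := hb.1.mpr hWD
    exact ⟨⟨S, h1, h2, D0, h3⟩⟩
  obtain ⟨HGG⟩ := hHG
  obtain ⟨h', hh'n, hh'c, hh'K⟩ : ∃ h' : κ → D ⧸ E, (∀ s, Nrm HGG (h' s)) ∧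
      (∀ s t, s ≠ t → ¬ Comm (h' s) (h' t)) ∧ ∀ s, h' s ∈ (H s).map φ := by
    have h1 : ∀ s, Lox (φ (h s)) := fun s => (hb.2.2 (h s)).mpr (hLox s)
    choose ns hns0 hns using fun s => exists_nrm (H := HGG) (h1 s)
    refine ⟨fun s => φ (h s) ^ ns s, hns, fun s t hst hC => ?_, fun s => ?_⟩
    · exact hnc s t hst (Q5_comm E (hHC t (hhH t)) (hns0 s) (hns0 t) hC)
    · exact Subgroup.pow_mem _ (Subgroup.mem_map_of_mem _ (hhH s)) _
  have hKf : ∀ s x, FinConj ((H s).map φ) x → x = 1 := fun s x hx => Q5_finconj E (H s) (hfc s) x hx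
  obtain ⟨A0, rfl, rfl⟩ := exists_LD HGG κ h' hh'n hh'c
  obtain ⟨s0⟩ := hκ
  obtain ⟨c0, hc0K, hc0E⟩ := not_le_Eh (A0.nrm s0) ((H s0).map φ) (hh'K s0) (hKf s0)
  obtain ⟨M0, hM0⟩ : ∃ M0 : ℕ, ∀ m ∈ M, A0.n (φ m) ≤ M0 := by
    obtain ⟨B, hB⟩ := (hM.image fun m => A0.n (φ m)).bddAbove
    exact ⟨B, fun m hm => hB ⟨m, hm, rfl⟩⟩
  obtain ⟨A, rfl, hr, hbig, hMb⟩ := exists_PD A0 (fun s => (H s).map φ) hh'K hKf ι cl (fun i => φ (g i))
    (M0 + A0.n c0)
  choose v hvK c hcK hr using hr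
  choose v' hv'H hv' using fun i => Subgroup.mem_map.mp (hvK i)
  choose c' hc'H hc' using fun i => Subgroup.mem_map.mp (hcK i)
  set R : ι → D := fun i => v' i * g i * c' i with hR
  have hRr : ∀ i, φ (R i) = A.r i := by
    intro i
    rw [hr i, hR]
    simp only [map_mul]
    rw [hv' i, hc' i]
  have hRC : ∀ i, R i ∈ Subgroup.centralizer (E : Set D) := fun i =>
    Subgroup.mul_mem _ (Subgroup.mul_mem _ (hHC _ (hv'H i)) (hgC i)) (hHC _ (hc'H i))
  have hker : ∀ i, ∀ e ∈ φ.ker, e * R i = R i * e := by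
    intro i e he
    have heE : e ∈ E := by rwa [hφ, QuotientGroup.ker_mk'] at he
    exact Subgroup.mem_centralizer_iff.mp (hRC i) e heE
  set N : Subgroup D := Subgroup.normalClosure (Set.range fun i => g i * (c' i * v' i)) with hN
  have hNR : N = Subgroup.normalClosure (Set.range R) := by
    apply le_antisymm
    · apply Subgroup.normalClosure_le_normal
      rintro _ ⟨i, rfl⟩
      have h1 : R i ∈ Subgroup.normalClosure (Set.range R) := Subgroup.subset_normalClosure ⟨i, rfl⟩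
      have h2 := Subgroup.normalClosure_normal.conj_mem _ h1 (v' i)⁻¹
      have h3 : (v' i)⁻¹ * R i * (v' i)⁻¹⁻¹ = g i * (c' i * v' i) := by
        rw [hR]
        group
      rw [h3] at h2
      exact h2
    · apply Subgroup.normalClosure_le_normal
      rintro _ ⟨i, rfl⟩
      have h1 : g i * (c' i * v' i) ∈ N := Subgroup.subset_normalClosure ⟨i, rfl⟩
      have h2 := Subgroup.normalClosure_normal.conj_mem _ h1 (v' i)
      have h3 : v' i * (g i * (c' i * v' i)) * (v' i)⁻¹ = R i := by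
        rw [hR]
        group
      rw [h3] at h2
      exact h2
  have hbig' : ∀ i, 100 * A.th + (4 * A.k3 + 2 * A.c2) ≤ 2 * A.n (A.r i) := by
    intro i
    have := hbig i
    omega
  have hgreen : ∀ n ∈ N, n ≠ 1 → ∃ i y, 2 * A.n (A.r i) ≤
      oA A.d (A.apts (A.ax i y)) 1 (φ n) + (44 * A.th + 4 * A.k3 + 2 * A.c2) := by
    intro n hn h1
    rw [hNR] at hn
    exact A.green φ hφs R hRr hker hbig' hn h1
  have hth : A.m0 ≤ A.th ∧ 1 ≤ A.th := by
    have h1 := A.m0_lM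
    have h2 := A.m0_big
    have h3 := A.hM_pos
    have h4 : A.th = 2 * A.t0 + 6 * A.c2 + 2 * A.D := rfl
    have h5 : A.c2 = 4 * A.lM + 2 * A.k3 + 2 * A.D := rfl
    constructor <;> omega
  refine ⟨fun i => c' i * v' i, fun i => Subgroup.mul_mem _ (hc'H i) (hv'H i), ?_, ?_⟩
  · have : (N.map φ).Normal := Subgroup.Normal.map inferInstance φ hφs
    have hrN : ∀ i, A.r i ∈ N.map φ := by
      intro i
      refine ⟨R i, ?_, hRr i⟩
      rw [hNR]
      exact Subgroup.subset_normalClosure ⟨i, rfl⟩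
    have hgN : ∀ n ∈ N.map φ, n ≠ 1 → ∃ i y, 2 * A.n (A.r i) ≤
        oA A.d (A.apts (A.ax i y)) 1 n + (44 * A.th + 4 * A.k3 + 2 * A.c2) := by
      rintro _ ⟨n, hn, rfl⟩ h1
      exact hgreen n hn fun h2 => h1 (by rw [h2, map_one])
    exact Q5_quot hB4 E N (N.map φ) rfl (A.quot_hyp hD hbig (N.map φ) hrN hgN)
      (A.quot_ne hbig (N.map φ) hgN s0 c0 hc0E (by omega))
  · intro m hm hmN
    have hm1 : m ≠ 1 := fun h => hM1 (h ▸ hm)
    obtain ⟨i, y, h1⟩ := hgreen m hmN hm1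
    have h2 := oA_le_two A.hyp4 (A.ax_ne (A.ax i y)) 1 (φ m)
    have h3 := A.d_one (φ m)
    have h4 := hM0 m hm
    have h5 := hbig i
    obtain ⟨h6, h7⟩ := hth
    omega

end Pool.SC
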