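import Pool.Agent.Lib.MP_565fc2_lc.SC.L5
import Pool.Agent.Lib.MP_565fc2_lc.SC.G4
import Pool.Agent.Lib.MP_565fc2_lc.SC.P2

/-!
# SC-R1: line data and path data (paper, sections 5.10 and 6)

`LD G κ`: a hyperbolic group, normalized, pairwise non-commensurable elements `h s` (`s : κ`, the classes), and an overlap constant `t1`.
`PD G κ ι cl`: relator data: connectors `c i j` and exponents `m i j` (periodic in `j` with period `k0`), corners `x i j`, and all numerical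
conditions.  `B0 = hM + D + t1 + cM` bounds all constants of the level of lines: `c1 ≤ 10 B0`, `tb ≤ 60 B0`, `k2 ≤ 20 B0`, `k3 ≤ 22 B0`.
PROOFS.  `x_per`: both sides satisfy the same recursion in `j` (upwards and downwards), and agree at `j = 0`.  `x_per_mul`: induction on `t : ℤ`.
-/

set_option autoImplicit false

namespace Pool.SC

noncomputable section

/-- line data -/
structure LD (G : Type) [Group G] (κ : Type) extends HG G where
  h : κ → G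
  nrm : ∀ s, Nrm toHG (h s)
  ncomm : ∀ s t, s ≠ t → ¬ Comm (h s) (h t)
  hM : ℕ
  hM_le : ∀ s, toHG.n (h s) ≤ hM
  hM_pos : 1 ≤ hM
  t1 : ℕ
  ov : ∀ s t y y', (s ≠ t ∨ y⁻¹ * y' ∉ Eh (h s)) → ∀ z ∈ line (h t) y', ∀ z' ∈ line (h t) y',
    oA toHG.d (line (h s) y) z z' ≤ t1

variable {G : Type} [Group G] {κ : Type}

/-- nearest point constant of lines -/
def LD.c1 (A : LD G κ) : ℕ := 10 * A.hM + 8 * A.D
/-- threshold of the projection system of lines -/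
def LD.tb (A : LD G κ) : ℕ := 2 * A.t1 + 6 * A.c1 + 2 * A.D

/-- lines -/
def LD.Ln (A : LD G κ) : Type := Σ s : κ, G ⧸ Eh (A.h s)

/-- the line through `y` of class `s` -/
def LD.ln (A : LD G κ) (s : κ) (y : G) : A.Ln := ⟨s, (y : G ⧸ Eh (A.h s))⟩

/-- its set of points -/
def LD.pts (A : LD G κ) (l : A.Ln) : Set G := {x | (x : G ⧸ Eh (A.h l.1)) = l.2}

/-- path data -/
structure PD (G : Type) [Group G] (κ ι : Type) (cl : ι → κ) extends LD G κ where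
  k0 : ℕ
  k0_ge : 3 ≤ k0
  c : ι → ℤ → G
  m : ι → ℤ → ℕ
  c_per : ∀ i j, c i (j + k0) = c i j
  m_per : ∀ i j, m i (j + k0) = m i j
  cM : ℕ
  c_le : ∀ i j, toHG.n (c i j) ≤ cM
  c_nin : ∀ i j, c i j ∉ Eh (h (cl i))
  /-- corners -/
  x : ι → ℤ → G
  x_zero : ∀ i, x i 0 = 1
  x_succ : ∀ i j, x i (j + 1) = x i j * (h (cl i) ^ m i j * c i j)
  /-- lower bound for the exponents -/
  m0 : ℕ
  m0_le : ∀ i j, m0 ≤ m i j
  m0_big : 1000 * (hM + D + t1 + cM) ≤ m0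
  /-- labels are determined by exponents -/
  lab : ∀ i j i' j', cl i = cl i' → m i j ≤ m i' j' + 200 * (hM + D + t1 + cM) →
    m i' j' ≤ m i j + 200 * (hM + D + t1 + cM) → i = i' ∧ (k0 : ℤ) ∣ j - j'
  /-- pigeonhole number of a ball -/
  bN : ℕ
  pg : ∀ f : ℕ → G, (∀ i, i ≤ bN → toHG.n (f i) ≤ 100 * (hM + D + t1 + cM)) → ∃ i j, i < j ∧ j ≤ bN ∧ f i = f j
  bN_le : bN ≤ m0
  bN_dvd : ∀ i j, Nat.factorial bN ∣ m i j
  /-- tests: the length of a window which contains a complete round of tests -/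
  W0 : ℕ
  test : ∀ i (a : ℤ) (s : ℤ → G), (∀ j, a ≤ j → j < a + W0 → s j ∈ Ep (h (cl i)) ∧ s (j + 1) = (c i j)⁻¹ * s j * c i j) →
    s a = 1
  /-- upper bound for the edges -/
  lM : ℕ
  lM_le : ∀ i j, toHG.n (h (cl i) ^ m i j * c i j) ≤ lM
  m0_lM : m0 ≤ lM

variable {ι : Type} {cl : ι → κ} (A : PD G κ ι cl)

/-- the sum of the constants of the level of lines -/
def PD.B0 : ℕ := A.hM + A.D + A.t1 + A.cM
/-- corner constants -/
def PD.k2 : ℕ := 2 * A.c1 + A.t1 + 4 * A.cM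
def PD.k3 : ℕ := A.k2 + 2 * A.D
/-- constants of the axes -/
def PD.c2 : ℕ := 4 * A.lM + 2 * A.k3 + 2 * A.D
def PD.W : ℕ := A.W0 + 12
def PD.t0 : ℕ := 2 * A.W * A.lM + 2 * A.c2
def PD.th : ℕ := 2 * A.t0 + 6 * A.c2 + 2 * A.D
/-- the relator -/
def PD.r (i : ι) : G := A.x i A.k0

/-- the `j`-th line of the path of class `i` translated by `y` -/
def PD.pl (i : ι) (y : G) (j : ℤ) : A.Ln := A.ln (cl i) (y * A.x i j)

/-- axes -/
def PD.Ax : Type := Σ i : ι, G ⧸ Subgroup.zpowers (A.r i)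

/-- the axis of class `i` through `y` -/
def PD.ax (i : ι) (y : G) : A.Ax := ⟨i, (y : G ⧸ Subgroup.zpowers (A.r i))⟩

/-- its set of corners -/
def PD.apts (a : A.Ax) : Set G := {g | ∃ (y : G) (j : ℤ), (y : G ⧸ Subgroup.zpowers (A.r a.1)) = a.2 ∧ g = y * A.x a.1 j}

theorem PD.x_per (i : ι) (j : ℤ) : A.x i (j + A.k0) = A.r i * A.x i j := by
  have step : ∀ j : ℤ, A.x i (j + 1 + A.k0) = A.x i (j + A.k0) * (A.h (cl i) ^ A.m i j * A.c i j) := by
    intro j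
    have e : j + 1 + (A.k0 : ℤ) = (j + A.k0) + 1 := by ring
    rw [e, A.x_succ, A.c_per, A.m_per]
  induction j using Int.induction_on with
  | zero => rw [zero_add, A.x_zero, mul_one]; rfl
  | succ j ih => rw [step, ih, A.x_succ, mul_assoc]
  | pred j ih =>
    have h1 := step (-(j : ℤ) - 1)
    have h2 := A.x_succ i (-(j : ℤ) - 1)
    rw [sub_add_cancel] at h1 h2
    rw [ih, h2] at h1
    have h3 : A.r i * A.x i (-(j : ℤ) - 1) * (A.h (cl i) ^ A.m i (-(j : ℤ) - 1) * A.c i (-(j : ℤ) - 1)) =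
        A.x i (-(j : ℤ) - 1 + A.k0) * (A.h (cl i) ^ A.m i (-(j : ℤ) - 1) * A.c i (-(j : ℤ) - 1)) := by
      rw [← h1, mul_assoc]
    exact (mul_right_cancel h3).symm

theorem PD.x_per_mul (i : ι) (t j : ℤ) : A.x i (j + t * A.k0) = A.r i ^ t * A.x i j := by
  induction t using Int.induction_on with
  | zero => rw [zero_mul, add_zero, zpow_zero, one_mul]
  | succ t ih =>
    have e : j + ((t : ℤ) + 1) * A.k0 = (j + t * A.k0) + A.k0 := by ring
    rw [e, A.x_per, ih, ← mul_assoc, ← zpow_one_add, add_comm]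
  | pred t ih =>
    have e : j + -(t : ℤ) * A.k0 = (j + (-(t : ℤ) - 1) * A.k0) + A.k0 := by ring
    rw [e, A.x_per] at ih
    rw [← mul_right_inj (A.r i), ih, ← mul_assoc, ← zpow_one_add]
    congr 2
    ring

private theorem PD.coset_iff (i : ι) (y z : G) :
    ((y : G ⧸ Subgroup.zpowers (A.r i)) = z) ↔ ∃ t : ℤ, z = y * A.r i ^ t := by
  rw [QuotientGroup.eq, Subgroup.mem_zpowers_iff]
  constructor
  · rintro ⟨t, ht⟩
    exact ⟨t, by rw [ht, mul_inv_cancel_left]⟩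
  · rintro ⟨t, ht⟩
    exact ⟨t, by rw [ht, inv_mul_cancel_left]⟩

theorem PD.apts_ax (i : ι) (y : G) : A.apts (A.ax i y) = {g | ∃ j : ℤ, g = y * A.x i j} := by
  ext g
  constructor
  · rintro ⟨z, j, hz, hg⟩
    change ((z : G ⧸ Subgroup.zpowers (A.r i)) = y) at hz
    change g = z * A.x i j at hg
    obtain ⟨t, ht⟩ := (A.coset_iff i y z).1 hz.symm
    refine ⟨j + t * A.k0, ?_⟩
    rw [A.x_per_mul, hg, ht, mul_assoc]
  · rintro ⟨j, hg⟩
    exact ⟨y, j, rfl, hg⟩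

theorem PD.ax_eq (i : ι) (y z : G) : A.ax i y = A.ax i z ↔ ∃ t : ℤ, z = y * A.r i ^ t := by
  rw [← A.coset_iff i y z]
  constructor
  · intro h
    have h2 := (Sigma.mk.inj_iff.1 h).2
    exact eq_of_heq h2
  · intro h
    show (⟨i, (y : G ⧸ Subgroup.zpowers (A.r i))⟩ : Σ i : ι, G ⧸ Subgroup.zpowers (A.r i)) = ⟨i, (z : G ⧸ Subgroup.zpowers (A.r i))⟩
    rw [h]

theorem LD.pts_ln (A : LD G κ) (s : κ) (y : G) : A.pts (A.ln s y) = line (A.h s) y := by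
  ext x
  show ((x : G ⧸ Eh (A.h s)) = y) ↔ y⁻¹ * x ∈ Eh (A.h s)
  rw [eq_comm, QuotientGroup.eq]

theorem LD.ln_eq (A : LD G κ) (s : κ) (y z : G) : A.ln s y = A.ln s z ↔ y⁻¹ * z ∈ Eh (A.h s) := by
  rw [← QuotientGroup.eq]
  constructor
  · intro h
    have h2 := (Sigma.mk.inj_iff.1 h).2
    exact eq_of_heq h2
  · intro h
    show (⟨s, (y : G ⧸ Eh (A.h s))⟩ : Σ s : κ, G ⧸ Eh (A.h s)) = ⟨s, (z : G ⧸ Eh (A.h s))⟩
    rw [h]

theorem LD.ln_eq_cl (A : LD G κ) {s t : κ} {y z : G} (h : A.ln s y = A.ln t z) : s = t :=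
  (Sigma.mk.inj_iff.1 h).1

theorem LD.exists_ln (A : LD G κ) (l : A.Ln) : ∃ s y, l = A.ln s y := by
  obtain ⟨s, c⟩ := l
  obtain ⟨y, rfl⟩ := QuotientGroup.mk_surjective c
  exact ⟨s, y, rfl⟩

theorem PD.exists_ax (a : A.Ax) : ∃ i y, a = A.ax i y := by
  obtain ⟨i, c⟩ := a
  obtain ⟨y, rfl⟩ := QuotientGroup.mk_surjective c
  exact ⟨i, y, rfl⟩

/-- the numerical relations between the constants (for `omega`) -/
theorem PD.consts : A.c1 ≤ 10 * A.B0 ∧ A.tb ≤ 60 * A.B0 ∧ A.k2 ≤ 20 * A.B0 ∧ A.k3 ≤ 22 * A.B0 ∧ 1000 * A.B0 ≤ A.m0 ∧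
    1 ≤ A.B0 ∧ A.D ≤ A.B0 ∧ A.t1 ≤ A.B0 ∧ A.cM ≤ A.B0 ∧ A.hM ≤ A.B0 := by
  have h1 := A.m0_big
  have h2 := A.hM_pos
  unfold PD.k3 PD.k2 LD.tb LD.c1 PD.B0
  omega

end

end Pool.SC
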