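import Pool.Agent.Lib.MP_565fc2_lc.SC.R5

/-!
# SC-R10: translation lengths of the relators (paper 6.7)

Notation `x_j = x i j`, `r = r i = x_(k0)`, `d(x_0, x_(k0)) = n r`.
`per_ge`, `per_le`: `n r ≤ d(x_j, x_(j+k0)) + k3` and `d(x_j, x_(j+k0)) ≤ n r + k3`.  PROOF.  `j = e k0 + j0`, `0 ≤ j0 < k0` (Euclidean division), `x_(j) = r^e x_(j0)` (`x_per_mul`), left
invariance: so `j = j0`.  `d(x_(k0), x_(k0+j0)) = d(r x_0, r x_(j0)) = d(x_0,x_(j0))`.  `bt_x` for `(j0, k0, k0 + j0)`: `d(x_(j0),x_(k0)) + d(x_(k0),x_(k0+j0)) ≤ d(x_(j0),x_(j0+k0)) + k3`, and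
`n r ≤ d(x_0,x_(j0)) + d(x_(j0),x_(k0))`.  Upper bound: `d(x_(j0),x_(j0+k0)) ≤ d(x_(j0),x_(k0)) + d(x_0,x_(j0)) ≤ n r + k3` (`bt_x` for `(0,j0,k0)`).
`per_mul_ge`: `t ≠ 0`: `n r ≤ d(x_j, x_(j+t k0)) + 2 k3`: `t ≥ 1`: `bt_x` for `(j, j+k0, j+t k0)`; `t ≤ -1`: the same for `(j + t k0, j + (t+1) k0, j)`.
`rot_ge`: `a : G`, `ρ = y r^t y⁻¹`, `P = apts (ax i y)`; `ρ P = P` (`ρ y x_j = y r^t x_j = y x_(j+t k0)`).  Nearest corner `α = y x_j` to `a`; then `ρ α = y x_(j+t k0)` is nearest to `ρ a`.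
`nc_two` (`ax_nc`): `2 d(α,ρα) ≤ oA P a (ρ a) + 2 c2`.
-/

set_option autoImplicit false

namespace Pool.SC

noncomputable section

variable {G : Type} [Group G] {κ : Type} {ι : Type} {cl : ι → κ} (A : PD G κ ι cl)

private theorem PD.r10_zero (i : ι) : A.d (A.x i 0) (A.x i A.k0) = A.n (A.r i) := by
  rw [A.x_zero, A.d_one]
  rfl

/-- reduction to `0 ≤ j < k0` -/
private theorem PD.r10_red (i : ι) (j : ℤ) : ∃ j0 : ℤ, 0 ≤ j0 ∧ j0 ≤ A.k0 ∧
    A.d (A.x i j) (A.x i (j + A.k0)) = A.d (A.x i j0) (A.x i (A.k0 + j0)) ∧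
    A.d (A.x i A.k0) (A.x i (A.k0 + j0)) = A.d (A.x i 0) (A.x i j0) := by
  have hk : (0 : ℤ) < A.k0 := by
    have := A.k0_ge
    omega
  refine ⟨j % A.k0, Int.emod_nonneg _ (ne_of_gt hk), (Int.emod_lt_of_pos _ hk).le, ?_, ?_⟩
  · have e1 : j = j % A.k0 + j / A.k0 * A.k0 := by
      have := Int.emod_add_mul_ediv j A.k0
      rw [mul_comm] at this
      exact this.symm
    have e2 : j + A.k0 = (A.k0 + j % A.k0) + j / A.k0 * A.k0 := by
      conv_lhs => rw [e1]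
      ring
    have h1 := A.x_per_mul i (j / A.k0) (j % A.k0)
    have h2 := A.x_per_mul i (j / A.k0) (A.k0 + j % A.k0)
    rw [← e1] at h1
    rw [← e2] at h2
    rw [h1, h2]
    exact A.toHG.d_left _ _ _
  · have h1 := A.x_per i (j % A.k0)
    rw [add_comm] at h1
    have h2 : A.x i A.k0 = A.r i * A.x i 0 := by
      rw [A.x_zero, mul_one]
      rfl
    rw [h1, h2]
    exact A.toHG.d_left _ _ _

theorem PD.per_ge (i : ι) (j : ℤ) : A.n (A.r i) ≤ A.d (A.x i j) (A.x i (j + A.k0)) + A.k3 := by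
  obtain ⟨j0, h0, h1, e1, e2⟩ := A.r10_red i j
  have hz := A.r10_zero i
  have hb := A.bt_x i j0 A.k0 (A.k0 + j0) h1 (by omega)
  unfold Bt at hb
  have ht := A.hyp4.tri (A.x i 0) (A.x i j0) (A.x i A.k0)
  have e3 : A.toHG.d (A.x i A.k0) (A.x i (A.k0 + j0)) = A.d (A.x i 0) (A.x i j0) := e2
  omega

theorem PD.per_le (i : ι) (j : ℤ) : A.d (A.x i j) (A.x i (j + A.k0)) ≤ A.n (A.r i) + A.k3 := by
  obtain ⟨j0, h0, h1, e1, e2⟩ := A.r10_red i j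
  have hz := A.r10_zero i
  have hb := A.bt_x i 0 j0 A.k0 h0 h1
  unfold Bt at hb
  have ht := A.hyp4.tri (A.x i j0) (A.x i A.k0) (A.x i (A.k0 + j0))
  omega

theorem PD.per_mul_ge (i : ι) (j t : ℤ) (ht : t ≠ 0) :
    A.n (A.r i) ≤ A.d (A.x i j) (A.x i (j + t * A.k0)) + 2 * A.k3 := by
  have hk : (0 : ℤ) ≤ A.k0 := Int.natCast_nonneg _
  rcases lt_or_gt_of_ne ht with h | h
  · have e0 : j + t * A.k0 + A.k0 = j + (t + 1) * A.k0 := by ring
    have h1 := A.per_ge i (j + t * A.k0)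
    rw [e0] at h1
    have h3 : (t + 1) * (A.k0 : ℤ) ≤ 0 := mul_nonpos_of_nonpos_of_nonneg (by omega) hk
    have h2 := A.bt_x i (j + t * A.k0) (j + (t + 1) * A.k0) j (by rw [← e0]; omega) (by omega)
    unfold Bt at h2
    have hs := A.hyp4.symm (A.x i (j + t * A.k0)) (A.x i j)
    omega
  · have h1 := A.per_ge i j
    have h3 : (A.k0 : ℤ) ≤ t * A.k0 := le_mul_of_one_le_left hk (by omega)
    have h2 := A.bt_x i j (j + A.k0) (j + t * A.k0) (by omega) (by omega)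
    unfold Bt at h2
    omega

theorem PD.rot_ge (i : ι) (y a : G) (t : ℤ) (ht : t ≠ 0) :
    2 * A.n (A.r i) ≤ oA A.d (A.apts (A.ax i y)) a (y * A.r i ^ t * y⁻¹ * a) + (4 * A.k3 + 2 * A.c2) := by
  obtain ⟨α, hα⟩ := exists_near A.d (A.ax_ne (A.ax i y)) a
  have hα1 := hα.1
  rw [A.apts_ax] at hα1
  obtain ⟨j, hj⟩ := hα1
  have hrot : ∀ (s j : ℤ), y * A.r i ^ s * y⁻¹ * (y * A.x i j) = y * A.x i (j + s * A.k0) := by
    intro s j
    rw [A.x_per_mul]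
    group
  have hβ : Near A.d (A.apts (A.ax i y)) (y * A.r i ^ t * y⁻¹ * a) (y * A.x i (j + t * A.k0)) := by
    refine ⟨?_, ?_⟩
    · rw [A.apts_ax]
      exact ⟨_, rfl⟩
    · intro p hp
      rw [A.apts_ax] at hp
      obtain ⟨j', rfl⟩ := hp
      have h1 := hα.2 (y * A.x i (j' + -t * A.k0)) (by rw [A.apts_ax]; exact ⟨_, rfl⟩)
      have h2 := A.toHG.d_left (y * A.r i ^ t * y⁻¹) a α
      have h3 := A.toHG.d_left (y * A.r i ^ t * y⁻¹) a (y * A.x i (j' + -t * A.k0))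
      rw [hj, hrot t j] at h2
      have e : j' + -t * (A.k0 : ℤ) + t * A.k0 = j' := by ring
      rw [hrot t (j' + -t * A.k0), e] at h3
      rw [hj] at h1
      rw [h2, h3]
      exact h1
  have h1 := nc_two A.hyp4 (A.ax_nc (A.ax i y)) hα hβ
  have h2 := A.per_mul_ge i j t ht
  have h3 := A.toHG.d_left y (A.x i j) (A.x i (j + t * A.k0))
  rw [hj] at h1
  omega

/-- lower bound for the relators -/
theorem PD.r_ge (i : ι) : A.k0 * (A.m0 - A.cM) ≤ 2 * A.n (A.r i) := by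
  have h1 := A.len_x i 0 A.k0
  rw [zero_add, A.r10_zero] at h1
  exact h1

end

end Pool.SC
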