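import Pool.Agent.Lib.MP_565fc2_lc.SC.R9
import Pool.Agent.Lib.MP_565fc2_lc.SC.R10

/-!
# SC-R11: the projection system of axes (paper 6.8, 6.9)

`sys2`: `ax_ne`, `ax_nc`, `ax_ax`.  Its threshold is `A.th` (`ps_th`).
`dax a` = distance from `1` to `apts a`.
`dax_lt`: `b ≠ a`, `10 th ≤ pp a (inr 1) (inl b)` ⟹ `dax a < dax b`.  PROOF.  `g ∈ apts b` nearest to `1`.  `pp ≤ oA (apts a) 1 g + t0`: (`pp_le`: for `g' ∈ apts b`
`oA 1 g' ≤ oA 1 g + oA g g' ≤ oA 1 g + t0`).  So `oA (apts a) 1 g ≥ 10 th - t0`.  `α, β ∈ apts a` nearest to `1`, `g`: `nc_two`: `2 d(α,β) ≥ 10 th - t0 - 2 c2 > 2 (2 c2 + D)`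
(`th = 2 t0 + 6 c2 + 2 D`, `c2 ≥ 1`); so `d(α,β) > 2 c2 + D`, `nc_long`: `d(1,α) + d(α,β) + d(β,g) ≤ d(1,g) + 2 c2 + D`, so `d(1,α) < d(1,g)`.
-/

set_option autoImplicit false

namespace Pool.SC

noncomputable section

variable {G : Type} [Group G] {κ : Type} {ι : Type} {cl : ι → κ} (A : PD G κ ι cl)

/-- the projection system of the axes -/
def PD.sys2 : SetSys A.Ax G A.toHG.d A.D where
  hyp := A.toHG.hyp4
  A := A.apts
  ne := A.ax_ne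
  c := A.c2
  t0 := A.t0
  nc := A.ax_nc
  ov := fun y z h a ha b hb => A.ax_ax y z h a b ha hb

theorem PD.sys2_th : A.sys2.ps.th = A.th := A.sys2.ps_th

/-- distance from `1` to the axis -/
def PD.dax (a : A.Ax) : ℕ := sInf {n | ∃ g ∈ A.apts a, A.d 1 g = n}

theorem PD.dax_lt (a b : A.Ax) (hab : b ≠ a) (h : 10 * A.th ≤ A.sys2.pp a (Sum.inr 1) (Sum.inl b)) :
    A.dax a < A.dax b := by
  have hyp := A.toHG.hyp4
  have hneb : {n | ∃ g ∈ A.apts b, A.d 1 g = n}.Nonempty := by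
    obtain ⟨g, hg⟩ := A.ax_ne b
    exact ⟨_, g, hg, rfl⟩
  obtain ⟨g, hg, hgn⟩ : ∃ g ∈ A.apts b, A.d 1 g = A.dax b := Nat.sInf_mem hneb
  have h1 : A.sys2.pp a (Sum.inr 1) (Sum.inl b) ≤ oA A.d (A.apts a) 1 g + A.t0 := by
    refine A.sys2.pp_le a fun a' ha' b' hb' => ?_
    have ha1 : a' = 1 := ha'
    subst ha1
    have e1 := oA_tri hyp (A.ax_ne a) 1 g b'
    have e2 := A.ax_ax a b hab.symm g b' hg hb'
    exact e1.trans (Nat.add_le_add_left e2 _)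
  obtain ⟨α, hα⟩ := exists_near A.d (A.ax_ne a) 1
  obtain ⟨β, hβ⟩ := exists_near A.d (A.ax_ne a) g
  have h2 := (nc_two hyp (A.ax_nc a) hα hβ).1
  have hcon := A.consts
  have hm := A.m0_lM
  have hth : A.th = 2 * A.t0 + 6 * A.c2 + 2 * A.D := rfl
  have hc2 : A.c2 = 4 * A.lM + 2 * A.k3 + 2 * A.D := rfl
  have h3 : A.c2 + A.D < A.d α β := by
    have h0 : 2 * A.d α β + 2 * A.c2 + A.t0 ≥ 10 * A.th := by omega
    omega
  have h4 := nc_long hyp (A.ax_nc a) hα hβ h3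
  have h5 : A.dax a ≤ A.d 1 α := Nat.sInf_le ⟨α, hα.1, rfl⟩
  omega

end

end Pool.SC
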