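import Pool.Agent.Lib.MP_565fc2_lc.SC.R11
import Pool.Agent.Lib.MP_565fc2_lc.SC.P8

/-!
# SC-R12: Greendlinger's lemma (paper, end of section 6)

`φ : D' → G` onto, `R i ∈ D'` with `φ (R i) = r i`, the kernel of `φ` commutes with every `R i`.
Construction of the rotating family `Rot D' A.Ax (A.Ax ⊕ G)` over `A.sys2.ps`:
`aY g ⟨i, q⟩ = ⟨i, φ g • q⟩`, so `aY g (ax i y) = ax i (φ g * y)`;  `aV g = Sum.map (aY g) (φ g * ·)`;  `e = Sum.inl` (`ps_e`);  `equi`: `SetSys.equi` (with `ps_p`);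
`x0 = Sum.inr 1`;  `Γ a`: the set of all `ŷ * R i ^ t * ŷ⁻¹` with `a = ax i (φ ŷ)`, `t : ℤ`.  It is the cyclic group generated by `ŷ₀ R i ŷ₀⁻¹` for any fixed `ŷ₀` with
`a = ax i (φ ŷ₀)`: if `ax i (φ ŷ) = ax i (φ ŷ₀)` then `φ ŷ = φ ŷ₀ * r i ^ t` (`ax_eq`), so `ŷ = ŷ₀ * R i ^ t * e`, `e ∈ ker φ`, and `ŷ R ŷ⁻¹ = ŷ₀ R ŷ₀⁻¹`.
`Γ_conj`, `Γ_fix` (`φ n = y r^t y⁻¹`, `ax i (y r^t y⁻¹ y) = ax i y`).  `L a = 2 n (r i) - (4 k3 + 2 c2)`;  `rot`: `n ≠ 1` forces `t ≠ 0`, `pp a (inr 1) (inr (φ n)) = oA (apts a) 1 (φ n)` (`pp_points`),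
`rot_ge` with `a = 1`.  `rank`: `dax_lt`.  `th_pos`: `c2 ≥ lM ≥ m0 ≥ 1`.  `NN = normalClosure (range R)` (`Subgroup.normalClosure_le_normal`, `NN` is normal by `Γ_conj`).
Then `windmill`.
-/

set_option autoImplicit false

namespace Pool.SC

open Function

noncomputable section

variable {G : Type} [Group G] {κ : Type} {ι : Type} {cl : ι → κ} (A : PD G κ ι cl)

private theorem R12_normal {D' Y V : Type} [Group D'] (Q : Rot D' Y V) : Q.NN.Normal := by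
  refine ⟨fun n hn g => ?_⟩
  refine Subgroup.iSup_induction (C := fun x => g * x * g⁻¹ ∈ Q.NN) Q.Γ hn ?_ ?_ ?_
  · intro y x hx
    exact (le_iSup Q.Γ (Q.aY g y)) (Q.Γ_conj g y x hx)
  · show g * 1 * g⁻¹ ∈ Q.NN
    rw [mul_one, mul_inv_cancel]
    exact Q.NN.one_mem
  · intro x y hx hy
    have h1 := Q.NN.mul_mem hx hy
    have h2 : g * x * g⁻¹ * (g * y * g⁻¹) = g * (x * y) * g⁻¹ := by group
    rw [h2] at h1
    exact h1

private theorem R12_closure {D' Y V ι : Type} [Group D'] (Q : Rot D' Y V) (R : ι → D')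
    (h : ∀ i, ∃ y, R i ∈ Q.Γ y) : Subgroup.normalClosure (Set.range R) ≤ Q.NN := by
  have hnorm := R12_normal Q
  refine Subgroup.normalClosure_le_normal ?_
  rintro _ ⟨i, rfl⟩
  obtain ⟨y, hy⟩ := h i
  exact (le_iSup Q.Γ y) hy

/-- translation of the axes -/
private def R12_tr (g : G) (a : A.Ax) : A.Ax :=
  (⟨a.1, g • a.2⟩ : Σ i : ι, G ⧸ Subgroup.zpowers (A.r i))

private theorem R12_tr_ax (g : G) (i : ι) (y : G) : R12_tr A g (A.ax i y) = A.ax i (g * y) := rfl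

private theorem R12_tr_one (a : A.Ax) : R12_tr A 1 a = a := by
  obtain ⟨i, y, rfl⟩ := A.exists_ax a
  rw [R12_tr_ax, one_mul]

private theorem R12_tr_mul (g h : G) (a : A.Ax) : R12_tr A (g * h) a = R12_tr A g (R12_tr A h a) := by
  obtain ⟨i, y, rfl⟩ := A.exists_ax a
  rw [R12_tr_ax, R12_tr_ax, R12_tr_ax, mul_assoc]

private theorem R12_tr_apts (g : G) (a : A.Ax) :
    (fun x => g * x) '' A.apts a = A.apts (R12_tr A g a) := by
  obtain ⟨i, y, rfl⟩ := A.exists_ax a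
  rw [R12_tr_ax, A.apts_ax, A.apts_ax]
  ext z
  constructor
  · rintro ⟨w, ⟨j, hj⟩, rfl⟩
    refine ⟨j, ?_⟩
    show g * w = g * y * A.x i j
    rw [hj, mul_assoc]
  · rintro ⟨j, hj⟩
    refine ⟨y * A.x i j, ⟨j, rfl⟩, ?_⟩
    show g * (y * A.x i j) = z
    rw [hj, mul_assoc]

section

variable {D' : Type} [Group D'] (φ : D' →* G) (hφ : Surjective φ) (R : ι → D') (hR : ∀ i, φ (R i) = A.r i)
    (hc : ∀ i, ∀ e ∈ φ.ker, e * R i = R i * e)

include hR hc in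
private theorem R12_key (i : ι) (u v : D') (h : A.ax i (φ u) = A.ax i (φ v)) :
    v * R i * v⁻¹ = u * R i * u⁻¹ := by
  obtain ⟨t, ht⟩ := (A.ax_eq i (φ u) (φ v)).1 h
  have h1 : (u * R i ^ t)⁻¹ * v ∈ φ.ker := by
    rw [MonoidHom.mem_ker, map_mul, map_inv, map_mul, map_zpow, hR, ht]
    group
  have h2 := hc i _ h1
  obtain ⟨e, he⟩ : ∃ e, e = (u * R i ^ t)⁻¹ * v := ⟨_, rfl⟩
  rw [← he] at h2
  have h3 : v = u * R i ^ t * e := by rw [he]; group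
  have h4 : e * R i * e⁻¹ = R i := by rw [h2]; group
  calc v * R i * v⁻¹ = u * R i ^ t * (e * R i * e⁻¹) * (R i ^ t)⁻¹ * u⁻¹ := by rw [h3]; group
    _ = u * R i ^ t * R i * (R i ^ t)⁻¹ * u⁻¹ := by rw [h4]
    _ = u * R i * u⁻¹ := by group

include hφ in
private theorem R12_rep (a : A.Ax) : ∃ u : D', A.ax a.1 (φ u) = a := by
  obtain ⟨i, y, rfl⟩ := A.exists_ax a
  obtain ⟨u, hu⟩ := hφ y
  refine ⟨u, ?_⟩
  show A.ax i (φ u) = A.ax i y
  rw [hu]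

/-- a representative -/
private def R12_c (a : A.Ax) : D' := (R12_rep A φ hφ a).choose

private theorem R12_c_spec (a : A.Ax) : A.ax a.1 (φ (R12_c A φ hφ a)) = a := (R12_rep A φ hφ a).choose_spec

/-- the rotation group of an axis -/
private def R12_gam (a : A.Ax) : Subgroup D' :=
  Subgroup.zpowers (R12_c A φ hφ a * R a.1 * (R12_c A φ hφ a)⁻¹)

include hR hc in
private theorem R12_mem (i : ι) (u n : D') :
    n ∈ R12_gam A φ hφ R (A.ax i (φ u)) ↔ ∃ t : ℤ, n = u * R i ^ t * u⁻¹ := by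
  have h1 : A.ax i (φ (R12_c A φ hφ (A.ax i (φ u)))) = A.ax i (φ u) := R12_c_spec A φ hφ (A.ax i (φ u))
  have h2 := R12_key A φ R hR hc i _ _ h1
  have h3 : R12_gam A φ hφ R (A.ax i (φ u)) = Subgroup.zpowers (u * R i * u⁻¹) := by
    rw [h2]
    rfl
  rw [h3, Subgroup.mem_zpowers_iff]
  constructor
  · rintro ⟨t, ht⟩
    refine ⟨t, ?_⟩
    rw [← ht, conj_zpow]
  · rintro ⟨t, ht⟩
    refine ⟨t, ?_⟩
    rw [ht, conj_zpow]

include hφ in
private theorem R12_ax_rep (a : A.Ax) : ∃ i, ∃ u : D', a = A.ax i (φ u) := by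
  obtain ⟨i, y, rfl⟩ := A.exists_ax a
  obtain ⟨u, hu⟩ := hφ y
  exact ⟨i, u, by rw [hu]⟩

end

theorem PD.exists_rot {D' : Type} [Group D'] (φ : D' →* G) (hφ : Surjective φ) (R : ι → D') (hR : ∀ i, φ (R i) = A.r i)
    (hc : ∀ i, ∀ e ∈ φ.ker, e * R i = R i * e)
    (hbig : ∀ i, 100 * A.th + (4 * A.k3 + 2 * A.c2) ≤ 2 * A.n (A.r i)) :
    ∃ Q : Rot D' A.Ax (A.Ax ⊕ G), Q.toPS = A.sys2.ps ∧ Q.x0 = Sum.inr 1 ∧ (∀ g x, Q.aV g (Sum.inr x) = Sum.inr (φ g * x)) ∧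
      (∀ i y, Q.L (A.ax i y) + (4 * A.k3 + 2 * A.c2) = 2 * A.n (A.r i)) ∧
      Subgroup.normalClosure (Set.range R) ≤ Q.NN := by
  have hmem := R12_mem A φ hφ R hR hc
  refine ⟨{
    toPS := A.sys2.ps
    aY := fun g a => R12_tr A (φ g) a
    aV := fun g => Sum.map (R12_tr A (φ g)) (fun x => φ g * x)
    aV_one := ?_
    aV_mul := ?_
    e_a := ?_
    equi := ?_
    Γ := R12_gam A φ hφ R
    Γ_conj := ?_
    Γ_fix := ?_
    x0 := Sum.inr 1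
    x0_ne := ?_
    L := fun a => 2 * A.n (A.r a.1) - (4 * A.k3 + 2 * A.c2)
    L_inv := fun g y => rfl
    rot := ?_
    th_pos := ?_
    L_big := ?_
    r := A.dax
    rank := ?_ }, rfl, rfl, fun g x => rfl, ?_, ?_⟩
  · intro v
    cases v with
    | inl a => show Sum.inl (R12_tr A (φ 1) a) = Sum.inl a
               rw [map_one, R12_tr_one]
    | inr x => show Sum.inr (φ 1 * x) = Sum.inr x
               rw [map_one, one_mul]
  · intro g h v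
    cases v with
    | inl a => show Sum.inl (R12_tr A (φ (g * h)) a) = Sum.inl (R12_tr A (φ g) (R12_tr A (φ h) a))
               rw [map_mul, R12_tr_mul]
    | inr x => show Sum.inr (φ (g * h) * x) = Sum.inr (φ g * (φ h * x))
               rw [map_mul, mul_assoc]
  · intro g y
    rw [A.sys2.ps_e]
    rfl
  · intro g y u v
    rw [A.sys2.ps_p]
    exact A.sys2.equi (fun x => φ g * x) (R12_tr A (φ g)) (fun x y => A.toHG.d_left (φ g) x y)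
      (fun a => R12_tr_apts A (φ g) a) y u v
  · intro g y n hn
    obtain ⟨i, u, rfl⟩ := R12_ax_rep A φ hφ y
    obtain ⟨t, ht⟩ := (hmem i u n).1 hn
    have e1 : R12_tr A (φ g) (A.ax i (φ u)) = A.ax i (φ (g * u)) := by rw [R12_tr_ax, map_mul]
    rw [e1, hmem i (g * u)]
    refine ⟨t, ?_⟩
    rw [ht]
    group
  · intro y n hn
    obtain ⟨i, u, rfl⟩ := R12_ax_rep A φ hφ y
    obtain ⟨t, ht⟩ := (hmem i u n).1 hn
    rw [R12_tr_ax]
    have e1 : φ n * φ u = φ u * A.r i ^ t := by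
      rw [ht, map_mul, map_mul, map_zpow, map_inv, hR]
      group
    rw [e1]
    exact ((A.ax_eq i (φ u) (φ u * A.r i ^ t)).2 ⟨t, rfl⟩).symm
  · intro g y
    rw [A.sys2.ps_e]
    show Sum.inr (φ g * 1) ≠ Sum.inl y
    exact Sum.inr_ne_inl
  · intro y n hn h1
    obtain ⟨i, u, rfl⟩ := R12_ax_rep A φ hφ y
    obtain ⟨t, ht⟩ := (hmem i u n).1 hn
    have ht0 : t ≠ 0 := by
      intro h0
      apply h1
      rw [ht, h0, zpow_zero, mul_one, mul_inv_cancel]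
    rw [A.sys2.ps_p]
    show 2 * A.n (A.r i) - (4 * A.k3 + 2 * A.c2) ≤ A.sys2.pp (A.ax i (φ u)) (Sum.inr 1) (Sum.inr (φ n * 1))
    have h2 := A.rot_ge i (φ u) 1 t ht0
    have e1 : φ u * A.r i ^ t * (φ u)⁻¹ = φ n := by
      rw [ht, map_mul, map_mul, map_zpow, map_inv, hR]
    rw [e1] at h2
    have h3 : A.sys2.pp (A.ax i (φ u)) (Sum.inr 1) (Sum.inr (φ n * 1)) =
        oA A.d (A.apts (A.ax i (φ u))) 1 (φ n * 1) := A.sys2.pp_points _ _ _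
    rw [h3]
    omega
  · have h1 := A.consts
    have h2 := A.m0_lM
    have h3 : A.c2 = 4 * A.lM + 2 * A.k3 + 2 * A.D := rfl
    have h4 : A.th = 2 * A.t0 + 6 * A.c2 + 2 * A.D := rfl
    rw [A.sys2_th]
    omega
  · intro y
    rw [A.sys2_th]
    have := hbig y.1
    show 100 * A.th ≤ 2 * A.n (A.r y.1) - (4 * A.k3 + 2 * A.c2)
    omega
  · intro y z hzy h
    rw [A.sys2_th, A.sys2.ps_p, A.sys2.ps_e] at h
    exact A.dax_lt z y hzy.symm h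
  · intro i y
    show 2 * A.n (A.r i) - (4 * A.k3 + 2 * A.c2) + (4 * A.k3 + 2 * A.c2) = 2 * A.n (A.r i)
    have := hbig i
    omega
  · refine R12_closure _ R fun i => ⟨A.ax i (φ 1), ?_⟩
    show R i ∈ R12_gam A φ hφ R (A.ax i (φ 1))
    rw [hmem i 1]
    exact ⟨1, by group⟩

theorem PD.green {D' : Type} [Group D'] (φ : D' →* G) (hφ : Surjective φ) (R : ι → D') (hR : ∀ i, φ (R i) = A.r i)
    (hc : ∀ i, ∀ e ∈ φ.ker, e * R i = R i * e)
    (hbig : ∀ i, 100 * A.th + (4 * A.k3 + 2 * A.c2) ≤ 2 * A.n (A.r i)) {n : D'}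
    (hn : n ∈ Subgroup.normalClosure (Set.range R)) (h1 : n ≠ 1) :
    ∃ i y, 2 * A.n (A.r i) ≤ oA A.d (A.apts (A.ax i y)) 1 (φ n) + (44 * A.th + 4 * A.k3 + 2 * A.c2) := by
  obtain ⟨Q, hQ, hx0, hV, hL, hN⟩ := A.exists_rot φ hφ R hR hc hbig
  obtain ⟨a, ha⟩ := windmill Q (hN hn) h1
  obtain ⟨i, y, rfl⟩ := A.exists_ax a
  refine ⟨i, y, ?_⟩
  have h2 := hL i y
  rw [hx0, hV, hQ, A.sys2.ps_p, A.sys2_th, mul_one] at ha
  have h3 : A.sys2.pp (A.ax i y) (Sum.inr 1) (Sum.inr (φ n)) =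
      oA A.d (A.apts (A.ax i y)) 1 (φ n) := A.sys2.pp_points _ _ _
  rw [h3] at ha
  omega

end

end Pool.SC
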