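import Pool.Agent.Lib.MP_565fc2_lc.SC.R1

/-!
# SC-R2: the projection system of lines; the lines of a path (paper 6.1: P2, P3)

`LD.sys`: `pts ⟨s, q⟩ = line (h s) y` for every `y` with class `q` (`pts_ln`); `nc` from `Eh_nc` (`n (h s) ≤ hM`, `Bt.mono`); `ov` from `LD.ov`
(`⟨s,q⟩ ≠ ⟨t,q'⟩` gives `s ≠ t` or, for `s = t`, `y⁻¹ y' ∉ Eh`).
All statements below are about `A.sys.pp` with vertices `Sum.inl (A.pl i y j)`.
Points: `y x_j ∈ pl j` and `y x_j h^(m_j) ∈ pl j`; `d(y x_j h^(m_j), y x_(j+1)) = n (c_j) ≤ cM`.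
`pl_ne_succ`: `x_j⁻¹ x_(j+1) = h^m c ∉ E(h)` because `c ∉ E(h)`.
`pl_adj` (P2): `le_pp`/`pp_le_of` for the points `y x_j h^(m_j)` and `y x_(j+1)`: `pp ≤ oA + 2 t1 ≤ 2 cM + 2 t1`.
`pl_loc` (P3): `pp (pl j) (pl (j-1)) (pl (j+1))` is at least `oA` of the points `P = y x_(j-1) h^(m_(j-1))`, `Q = y x_(j+1)`, and at most that `+ 2 t1`;
`oA (y x_j) (y x_j h^(m_j)) = 2 n (h^(m_j))` (`oA_mem`), `d(P, y x_j) ≤ cM`, `d(Q, y x_j h^(m_j)) ≤ cM`, `oA_tri`, `oA_le_two`.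
`pl_chain`: `2 n (h^m) ≥ 2 m0 ≥ 2000 B0` and `4 tb ≤ 240 B0`.
-/

set_option autoImplicit false

namespace Pool.SC

noncomputable section

variable {G : Type} [Group G] {κ : Type}

/-- the projection system of lines -/
def LD.sys (A : LD G κ) : SetSys A.Ln G A.toHG.d A.D where
  hyp := A.toHG.hyp4
  A := A.pts
  ne := by
    intro l
    obtain ⟨s, y, rfl⟩ := A.exists_ln l
    rw [A.pts_ln]
    exact ⟨y, self_mem_line _ _⟩
  c := A.c1
  t0 := A.t1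
  nc := by
    intro l
    obtain ⟨s, y, rfl⟩ := A.exists_ln l
    rw [A.pts_ln]
    intro a α hα p hp
    refine (Eh_nc (A.nrm s) y a α hα p hp).mono ?_
    have := A.hM_le s
    unfold LD.c1
    omega
  ov := by
    intro l l' hne
    obtain ⟨s, y, rfl⟩ := A.exists_ln l
    obtain ⟨t, z, rfl⟩ := A.exists_ln l'
    rw [A.pts_ln, A.pts_ln]
    refine A.ov s t y z ?_
    by_cases hst : s = t
    · subst hst
      right
      intro h
      exact hne ((A.ln_eq s y z).2 h)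
    · left
      exact hst

variable {ι : Type} {cl : ι → κ} (A : PD G κ ι cl)

/-- the points of the line -/
theorem PD.mem_pl (i : ι) (y : G) (j : ℤ) (k : ℤ) : y * A.x i j * A.h (cl i) ^ k ∈ A.pts (A.pl i y j) := by
  unfold PD.pl
  rw [A.pts_ln]
  exact mem_line_zpow (self_mem_line _ _) k

theorem PD.x_mem_pl (i : ι) (y : G) (j : ℤ) : y * A.x i j ∈ A.pts (A.pl i y j) := by
  unfold PD.pl
  rw [A.pts_ln]
  exact self_mem_line _ _

private theorem R2_hm_mem (i : ι) (y : G) (j : ℤ) :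
    y * A.x i j * A.h (cl i) ^ A.m i j ∈ A.pts (A.pl i y j) := by
  have h := A.mem_pl i y j (A.m i j : ℤ)
  rwa [zpow_natCast] at h

private theorem R2_dist (i : ι) (y : G) (j : ℤ) :
    A.toHG.d (y * A.x i j * A.h (cl i) ^ A.m i j) (y * A.x i (j + 1)) = A.toHG.n (A.c i j) := by
  rw [A.x_succ]
  have e : y * (A.x i j * (A.h (cl i) ^ A.m i j * A.c i j)) =
      y * A.x i j * A.h (cl i) ^ A.m i j * A.c i j := by group
  rw [e, HG.d_mul]

theorem PD.pl_ne_succ (i : ι) (y : G) (j : ℤ) : A.pl i y j ≠ A.pl i y (j + 1) := by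
  intro h
  have h1 := (A.ln_eq (cl i) _ _).1 h
  rw [A.x_succ] at h1
  have e : (y * A.x i j)⁻¹ * (y * (A.x i j * (A.h (cl i) ^ A.m i j * A.c i j))) =
      A.h (cl i) ^ A.m i j * A.c i j := by group
  rw [e] at h1
  have h2 : A.h (cl i) ^ A.m i j ∈ Eh (A.h (cl i)) := by
    have := zpow_mem_Eh (A.h (cl i)) (A.m i j : ℤ)
    rwa [zpow_natCast] at this
  exact A.c_nin i j ((Subgroup.mul_mem_cancel_left _ h2).1 h1)

theorem PD.pl_adj (i : ι) (y : G) (j : ℤ) (l : A.Ln) (h1 : l ≠ A.pl i y j) (h2 : l ≠ A.pl i y (j + 1)) :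
    A.sys.pp l (Sum.inl (A.pl i y j)) (Sum.inl (A.pl i y (j + 1))) ≤ 2 * A.t1 + 2 * A.cM := by
  have n1 : (Sum.inl (A.pl i y j) : A.Ln ⊕ G) ≠ Sum.inl l := fun h => h1 (Sum.inl_injective h).symm
  have n2 : (Sum.inl (A.pl i y (j + 1)) : A.Ln ⊕ G) ≠ Sum.inl l :=
    fun h => h2 (Sum.inl_injective h).symm
  have a1 := A.sys.pp_le_of l n1 n2 (a := y * A.x i j * A.h (cl i) ^ A.m i j)
    (b := y * A.x i (j + 1)) (R2_hm_mem A i y j) (A.x_mem_pl i y (j + 1))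
  have a2 := oA_le_two A.sys.hyp (A.sys.ne l) (y * A.x i j * A.h (cl i) ^ A.m i j)
    (y * A.x i (j + 1))
  rw [R2_dist] at a2
  have a3 := A.c_le i j
  have a4 : A.sys.t0 = A.t1 := rfl
  omega

theorem PD.pl_loc (i : ι) (y : G) (j : ℤ) :
    2 * A.n (A.h (cl i) ^ A.m i j) ≤
        A.sys.pp (A.pl i y j) (Sum.inl (A.pl i y (j - 1))) (Sum.inl (A.pl i y (j + 1))) + (4 * A.cM + 2 * A.t1) ∧
      A.sys.pp (A.pl i y j) (Sum.inl (A.pl i y (j - 1))) (Sum.inl (A.pl i y (j + 1))) ≤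
        2 * A.n (A.h (cl i) ^ A.m i j) + (4 * A.cM + 2 * A.t1) := by
  have m1 : A.pl i y (j - 1) ≠ A.pl i y j := by
    have := A.pl_ne_succ i y (j - 1)
    rwa [sub_add_cancel] at this
  have m2 := A.pl_ne_succ i y j
  have n1 : (Sum.inl (A.pl i y (j - 1)) : A.Ln ⊕ G) ≠ Sum.inl (A.pl i y j) :=
    fun h => m1 (Sum.inl_injective h)
  have n2 : (Sum.inl (A.pl i y (j + 1)) : A.Ln ⊕ G) ≠ Sum.inl (A.pl i y j) :=
    fun h => m2 (Sum.inl_injective h).symm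
  set P : G := y * A.x i (j - 1) * A.h (cl i) ^ A.m i (j - 1) with hP
  set Q : G := y * A.x i (j + 1) with hQ
  set X0 : G := y * A.x i j with hX0
  set X1 : G := y * A.x i j * A.h (cl i) ^ A.m i j with hX1
  have hPm : P ∈ A.sys.vs (Sum.inl (A.pl i y (j - 1))) := R2_hm_mem A i y (j - 1)
  have hQm : Q ∈ A.sys.vs (Sum.inl (A.pl i y (j + 1))) := A.x_mem_pl i y (j + 1)
  have hX0m : X0 ∈ A.sys.A (A.pl i y j) := A.x_mem_pl i y j
  have hX1m : X1 ∈ A.sys.A (A.pl i y j) := R2_hm_mem A i y j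
  have d1 : A.toHG.d P X0 = A.toHG.n (A.c i (j - 1)) := by
    have := R2_dist A i y (j - 1)
    rwa [sub_add_cancel] at this
  have d2 : A.toHG.d X1 Q = A.toHG.n (A.c i j) := R2_dist A i y j
  have d3 : A.toHG.d X0 X1 = A.toHG.n (A.h (cl i) ^ A.m i j) := by
    rw [hX1, hX0, HG.d_mul]
  have c1 := A.c_le i (j - 1)
  have c2 := A.c_le i j
  have hyp := A.sys.hyp
  have hne := A.sys.ne (A.pl i y j)
  have p1 := A.sys.pp_le_of (A.pl i y j) n1 n2 hPm hQm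
  have p2 := A.sys.le_pp (A.pl i y j) n1 n2 hPm hQm
  have o1 := oA_le_two hyp hne P X0
  have o2 := oA_le_two hyp hne X1 Q
  have o3 := oA_mem hyp hX0m hX1m
  have o4 := oA_tri hyp hne P X0 Q
  have o5 := oA_tri hyp hne X0 X1 Q
  have o6 := oA_tri hyp hne X0 P X1
  have o7 := oA_tri hyp hne P Q X1
  rw [oA_symm _ X0 P] at o6
  rw [oA_symm _ Q X1] at o7
  have a4 : A.sys.t0 = A.t1 := rfl
  constructor <;> omega

/-- long blocks -/
theorem PD.block_ge (i : ι) (j : ℤ) : A.m0 ≤ A.n (A.h (cl i) ^ A.m i j) := by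
  have h1 := nrm_diff (A.nrm (cl i)) 0 (A.m i j) (Nat.zero_le _)
  have h2 := A.m0_le i j
  omega

theorem PD.pl_chain (i : ι) (y : G) : ZChain A.sys.ps (A.pl i y) := by
  refine ⟨fun j => A.pl_ne_succ i y j, fun j => ?_⟩
  rw [A.sys.ps_e, A.sys.ps_p, A.sys.ps_th]
  have h1 := (A.pl_loc i y j).1
  have h2 := A.block_ge i j
  obtain ⟨-, h4, -, -, h5, h6, -, h7, h8, -⟩ := A.consts
  have e1 : A.sys.t0 = A.t1 := rfl
  have e2 : A.sys.c = A.c1 := rfl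
  have e3 : A.tb = 2 * A.t1 + 6 * A.c1 + 2 * A.D := rfl
  rw [e1, e2]
  omega

end

end Pool.SC
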