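import Pool.Agent.Lib.MP_565fc2_lc.SC.R2

/-!
# SC-R3: global properties of the lines of a path (paper 6.1: P4, P5)

PROOFS.  `zc_inj`, `zc_mid`, `zc_side`, `zc_left`, `zc_right`, `zc_far` (P2) for the chain `pl_chain` of the system `A.sys.ps` (rewrite with `ps_e`, `ps_p`,
`ps_th`: threshold `tb`), together with `pl_loc`, `pl_adj` and `consts` (`tb ≤ 60 B0`, `4 cM + 2 t1 + 2 tb ≤ 126 B0`, hmm: use
`4 cM + 2 t1 + 2 tb = 4 cM + 6 t1 + 120 hM + 100 D ≤ 120 B0` by unfolding; `2 t1 + 2 cM + 3 tb ≤ 200 B0`).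
-/

set_option autoImplicit false

namespace Pool.SC

noncomputable section

variable {G : Type} [Group G] {κ : Type} {ι : Type} {cl : ι → κ} (A : PD G κ ι cl)

private theorem PD.r3_th : A.sys.ps.th = A.tb := by
  rw [A.sys.ps_th]
  rfl

private theorem PD.r3_num : 4 * A.cM + 2 * A.t1 + 2 * A.tb ≤ 120 * A.B0 ∧
    2 * A.t1 + 2 * A.cM + 3 * A.tb ≤ 200 * A.B0 := by
  unfold LD.tb LD.c1 PD.B0
  constructor <;> omega

theorem PD.pl_inj (i : ι) (y : G) : Function.Injective (A.pl i y) :=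
  zc_inj (A.pl_chain i y)

theorem PD.pl_mid (i : ι) (y : G) (p q r : ℤ) (h1 : p < q) (h2 : q < r) :
    2 * A.n (A.h (cl i) ^ A.m i q) ≤
        A.sys.pp (A.pl i y q) (Sum.inl (A.pl i y p)) (Sum.inl (A.pl i y r)) + 120 * A.B0 ∧
      A.sys.pp (A.pl i y q) (Sum.inl (A.pl i y p)) (Sum.inl (A.pl i y r)) ≤
        2 * A.n (A.h (cl i) ^ A.m i q) + 120 * A.B0 := by
  have h3 := zc_mid (A.pl_chain i y) p q r h1 h2
  have h4 := A.pl_loc i y q
  have h5 := A.r3_num.1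
  rw [A.sys.ps_e, A.sys.ps_p, A.r3_th] at h3
  omega

theorem PD.pl_side (i : ι) (y : G) (p q r : ℤ) (h : (p < q ∧ r < q) ∨ (q < p ∧ q < r)) :
    A.sys.pp (A.pl i y q) (Sum.inl (A.pl i y p)) (Sum.inl (A.pl i y r)) ≤ 120 * A.B0 := by
  have h3 := zc_side (A.pl_chain i y) p q r h
  have h5 := A.r3_num.1
  rw [A.sys.ps_e, A.sys.ps_p, A.r3_th] at h3
  omega

theorem PD.pl_left (i : ι) (y : G) (p q : ℤ) (h : p < q) :
    A.sys.pp (A.pl i y q) (Sum.inl (A.pl i y (q - 1))) (Sum.inl (A.pl i y p)) ≤ A.tb := by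
  have h3 := zc_left (A.pl_chain i y) p q h
  rw [A.sys.ps_e, A.sys.ps_p, A.r3_th] at h3
  exact h3

theorem PD.pl_right (i : ι) (y : G) (p q : ℤ) (h : q < p) :
    A.sys.pp (A.pl i y q) (Sum.inl (A.pl i y (q + 1))) (Sum.inl (A.pl i y p)) ≤ A.tb := by
  have h3 := zc_right (A.pl_chain i y) q p h
  rw [A.sys.ps_e, A.sys.ps_p, A.r3_th] at h3
  exact h3

theorem PD.pl_far (i : ι) (y : G) (l : A.Ln) (hl : ∀ j, A.pl i y j ≠ l) (p r : ℤ) :
    A.sys.pp l (Sum.inl (A.pl i y p)) (Sum.inl (A.pl i y r)) ≤ 200 * A.B0 := by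
  have h3 := zc_far (A.pl_chain i y) l (2 * A.t1 + 2 * A.cM) hl (fun j => by
    rw [A.sys.ps_e, A.sys.ps_p]
    exact A.pl_adj i y j l (hl j).symm (hl (j + 1)).symm) p r
  have h5 := A.r3_num.2
  rw [A.sys.ps_e, A.sys.ps_p, A.r3_th] at h3
  omega

end

end Pool.SC
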