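import Pool.Agent.Lib.MP_565fc2_lc.SC.R1

/-!
# SC-R4: corners of a path (paper 6.2)

PROOFS.  `edge_le`, `edge_ge`: `x_j⁻¹ x_(j+1) = h^m c`, `n c ≤ cM`.
`bt_corner`: translate `x_j` to `1`: `P = x_j⁻¹ x_(j-1) = c⁻¹ h^(-m)` (`c = c_(j-1)`), `Q = x_j⁻¹ x_(j+1) = h^m' c'`.  `corner` with `h' = h`, `c := c⁻¹ ∉ E(h)` (the lines
`line h 1`, `line h c⁻¹` are different, overlap `≤ t1` by `A.ov`), `p = h^m' ∈ E(h)`, `q = c⁻¹ h^(-m) ∈ line h c⁻¹`: `Bt (2 c1 + t1 + 2 cM) h^m' 1 P`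
(`n (h s) ≤ hM`, so `10 n h + 8 D ≤ c1`); `Bt.move` from `h^m'` to `Q` (distance `≤ cM`): `Bt (2 c1 + t1 + 4 cM) P 1 Q`.
`bt_x`: `lg_int` with `k = k2` (edges `≥ m0 - cM`, `2 k2 + 3 D < 2 (m0 - cM)` by `consts`).
`len_x`: `lg_len` with `e = m0 - cM`, `2 (k2 + D) ≤ e`.  `len_le`: triangle inequality, `lM_le`.
-/

set_option autoImplicit false

namespace Pool.SC

noncomputable section

variable {G : Type} [Group G] {κ : Type} {ι : Type} {cl : ι → κ} (A : PD G κ ι cl)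

theorem PD.edge_ge (i : ι) (j : ℤ) : A.n (A.h (cl i) ^ A.m i j) ≤ A.d (A.x i j) (A.x i (j + 1)) + A.cM := by
  rw [A.x_succ i j, A.d_mul]
  have h1 := A.n_mul (A.h (cl i) ^ A.m i j * A.c i j) (A.c i j)⁻¹
  rw [mul_inv_cancel_right, A.n_inv] at h1
  have h2 := A.c_le i j
  omega

theorem PD.edge_m0 (i : ι) (j : ℤ) : A.m0 ≤ A.d (A.x i j) (A.x i (j + 1)) + A.cM := by
  have h1 := A.edge_ge i j
  have h2 := nrm_diff (A.nrm (cl i)) 0 (A.m i j) (Nat.zero_le _)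
  have h3 := A.m0_le i j
  omega

theorem PD.edge_le (i : ι) (j : ℤ) : A.d (A.x i j) (A.x i (j + 1)) ≤ A.lM := by
  rw [A.x_succ i j, A.d_mul]
  exact A.lM_le i j

theorem PD.bt_corner (i : ι) (j : ℤ) : Bt A.d A.k2 (A.x i (j - 1)) (A.x i j) (A.x i (j + 1)) := by
  set y := A.x i j with hy
  set h := A.h (cl i) with hh
  have e1 : A.x i j = A.x i (j - 1) * (h ^ A.m i (j - 1) * A.c i (j - 1)) := by
    have := A.x_succ i (j - 1)
    rwa [sub_add_cancel] at this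
  have e2 : A.x i (j + 1) = y * (h ^ A.m i j * A.c i j) := A.x_succ i j
  have e3 : A.x i (j - 1) = y * ((A.c i (j - 1))⁻¹ * (h ^ A.m i (j - 1))⁻¹) := by
    rw [hy, e1]
    group
  have hcc : (1 : G)⁻¹ * (A.c i (j - 1))⁻¹ ∉ Eh h := by
    rw [inv_one, one_mul]
    intro hc
    exact A.c_nin i (j - 1) ((Subgroup.inv_mem_iff _).1 hc)
  have hp : h ^ A.m i j ∈ Eh h := by
    have := zpow_mem_Eh h (A.m i j : ℤ)
    rwa [zpow_natCast] at this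
  have hq : (A.c i (j - 1))⁻¹ * (h ^ A.m i (j - 1))⁻¹ ∈ line h (A.c i (j - 1))⁻¹ := by
    show ((A.c i (j - 1))⁻¹)⁻¹ * ((A.c i (j - 1))⁻¹ * (h ^ A.m i (j - 1))⁻¹) ∈ Eh h
    rw [inv_inv, mul_inv_cancel_left]
    refine (Eh h).inv_mem ?_
    have := zpow_mem_Eh h (A.m i (j - 1) : ℤ)
    rwa [zpow_natCast] at this
  have hb := corner (A.nrm (cl i)) (A.ov (cl i) (cl i) 1 (A.c i (j - 1))⁻¹ (Or.inr hcc)) hp hq
  have hn := A.hM_le (cl i)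
  have hc1 : A.n (A.c i (j - 1))⁻¹ ≤ A.cM := by
    rw [A.n_inv]
    exact A.c_le i (j - 1)
  have hb1 : Bt A.d (2 * A.c1 + A.t1 + 2 * A.cM) (h ^ A.m i j) 1 ((A.c i (j - 1))⁻¹ * (h ^ A.m i (j - 1))⁻¹) := by
    refine hb.mono ?_
    unfold LD.c1
    omega
  have hb2 := (Bt.symm A.hyp4 hb1).move A.hyp4 (x' := (A.c i (j - 1))⁻¹ * (h ^ A.m i (j - 1))⁻¹) (y' := 1)
    (z' := h ^ A.m i j * A.c i j)
  rw [A.hyp4.zero, A.hyp4.zero, A.d_mul] at hb2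
  have hc2 := A.c_le i j
  have hb3 : Bt A.d A.k2 ((A.c i (j - 1))⁻¹ * (h ^ A.m i (j - 1))⁻¹) 1 (h ^ A.m i j * A.c i j) := by
    refine hb2.mono ?_
    unfold PD.k2
    omega
  rw [e3, e2]
  have t1 := A.d_left y ((A.c i (j - 1))⁻¹ * (h ^ A.m i (j - 1))⁻¹) 1
  have t2 := A.d_left y 1 (h ^ A.m i j * A.c i j)
  have t3 := A.d_left y ((A.c i (j - 1))⁻¹ * (h ^ A.m i (j - 1))⁻¹) (h ^ A.m i j * A.c i j)
  rw [mul_one] at t1 t2
  unfold Bt at hb3 ⊢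
  rw [t1, t2, t3]
  exact hb3

theorem PD.bt_x (i : ι) (a b c : ℤ) (h1 : a ≤ b) (h2 : b ≤ c) : Bt A.d A.k3 (A.x i a) (A.x i b) (A.x i c) := by
  obtain ⟨-, -, h3, -, h5, h6, h7, -, h9, -⟩ := A.consts
  have hb := lg_int A.hyp4 A.k2 (A.x i) (A.bt_corner i) (fun j => by
    have := A.edge_m0 i j
    omega) a b c h1 h2
  exact hb

theorem PD.len_x (i : ι) (j : ℤ) (a : ℕ) : a * (A.m0 - A.cM) ≤ 2 * A.d (A.x i j) (A.x i (j + a)) := by
  obtain ⟨-, -, h3, -, h5, h6, h7, -, h9, -⟩ := A.consts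
  exact lg_len A.hyp4 A.k2 (A.m0 - A.cM) (A.x i) (A.bt_corner i) (fun j => by
    have := A.edge_m0 i j
    omega) (fun j => by
    have := A.edge_m0 i j
    omega) (by omega) j a

theorem PD.len_le (i : ι) (j : ℤ) (a : ℕ) : A.d (A.x i j) (A.x i (j + a)) ≤ a * A.lM := by
  induction a with
  | zero =>
    rw [Nat.cast_zero, add_zero, A.hyp4.zero]
    exact Nat.zero_le _
  | succ a ih =>
    have h1 := A.hyp4.tri (A.x i j) (A.x i (j + a)) (A.x i (j + (a + 1 : ℕ)))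
    have h2 := A.edge_le i (j + a)
    have h3 : j + ((a + 1 : ℕ) : ℤ) = j + a + 1 := by push_cast; ring
    rw [h3] at h1 ⊢
    rw [Nat.succ_mul]
    omega

end

end Pool.SC
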