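import Pool.Agent.Lib.MP_565fc2_lc.SC.R4

/-!
# SC-R5: nearest point control of the axes (paper 6.3)

PROOF of `ax_nc`.  `apts_ax`.  `α = y x_s` nearest to `a`, `p = y x_t`.  If `s ≤ t`: `ncc` with the chain `i ↦ y x_(s+i)`, `i ≤ t - s`, `k = k3` (`bt_x`, left
invariance), `l = lM` (`edge_le`): `Bt (4 lM + 2 k3 + 2 D)`.  If `t < s`: the chain `i ↦ y x_(s-i)`.
-/

set_option autoImplicit false

namespace Pool.SC

noncomputable section

variable {G : Type} [Group G] {κ : Type} {ι : Type} {cl : ι → κ} (A : PD G κ ι cl)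

private theorem PD.r5_bt (i : ι) (y : G) (a b c : ℤ) (h1 : a ≤ b) (h2 : b ≤ c) :
    Bt A.d A.k3 (y * A.x i a) (y * A.x i b) (y * A.x i c) := by
  have h := A.bt_x i a b c h1 h2
  unfold Bt at h ⊢
  have e1 : A.d (y * A.x i a) (y * A.x i b) = A.d (A.x i a) (A.x i b) := A.toHG.d_left _ _ _
  have e2 : A.d (y * A.x i b) (y * A.x i c) = A.d (A.x i b) (A.x i c) := A.toHG.d_left _ _ _
  have e3 : A.d (y * A.x i a) (y * A.x i c) = A.d (A.x i a) (A.x i c) := A.toHG.d_left _ _ _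
  rw [e1, e2, e3]
  exact h

private theorem PD.r5_edge (i : ι) (y : G) (j j' : ℤ) (hj : j' = j + 1) :
    A.d (y * A.x i j) (y * A.x i j') ≤ A.lM := by
  subst hj
  have e1 : A.d (y * A.x i j) (y * A.x i (j + 1)) = A.d (A.x i j) (A.x i (j + 1)) :=
    A.toHG.d_left _ _ _
  rw [e1]
  exact A.edge_le i j

theorem PD.ax_nc (a : A.Ax) : NC A.d (A.apts a) A.c2 := by
  obtain ⟨i, y, rfl⟩ := A.exists_ax a
  intro w α hα p hp
  have hα1 := hα.1
  have hα2 := hα.2
  rw [A.apts_ax] at hα1 hα2 hp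
  obtain ⟨s, rfl⟩ := hα1
  obtain ⟨t, rfl⟩ := hp
  have hyp : Hyp4 A.d A.D := A.toHG.hyp4
  show Bt A.d (4 * A.lM + 2 * A.k3 + 2 * A.D) w (y * A.x i s) (y * A.x i t)
  rcases le_total s t with hst | hst
  · obtain ⟨n, rfl⟩ := Int.le.dest hst
    have h := ncc hyp A.k3 A.lM n (fun u => y * A.x i (s + (u : ℤ))) w ?_ ?_ ?_
    · simpa using h
    · intro u _
      have h1 := hα2 (y * A.x i (s + (u : ℤ))) ⟨_, rfl⟩
      simpa using h1
    · intro u hu
      have h1 := A.r5_bt i y s (s + (u : ℤ)) (s + (n : ℤ)) (by omega) (by omega)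
      simpa using h1
    · intro u _
      exact A.r5_edge i y _ _ (by push_cast; ring)
  · obtain ⟨n, hn⟩ := Int.le.dest hst
    have ht : t = s - (n : ℤ) := by omega
    subst ht
    have h := ncc hyp A.k3 A.lM n (fun u => y * A.x i (s - (u : ℤ))) w ?_ ?_ ?_
    · simpa using h
    · intro u _
      have h1 := hα2 (y * A.x i (s - (u : ℤ))) ⟨_, rfl⟩
      simpa using h1
    · intro u hu
      have h1 := (A.r5_bt i y (s - (n : ℤ)) (s - (u : ℤ)) s (by omega) (by omega)).symm hyp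
      simpa using h1
    · intro u _
      rw [hyp.symm]
      exact A.r5_edge i y _ _ (by push_cast; ring)

theorem PD.ax_ne (a : A.Ax) : (A.apts a).Nonempty := by
  obtain ⟨i, y, rfl⟩ := A.exists_ax a
  rw [A.apts_ax]
  exact ⟨y * A.x i 0, 0, rfl⟩

end

end Pool.SC
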