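import Pool.Agent.Lib.MP_565fc2_lc.SC.R3
import Pool.Agent.Lib.MP_565fc2_lc.SC.R5

/-!
# SC-R6: seen from the middle lines, two points are as far as their nearest corners (paper 6.4)

Notation: `a_j = y x_j`, `b_j = a_j h^(m_j)`, `l_j = pl i y j`, `o = oA d (pts l_j)`; `d(b_j, a_(j+1)) ≤ cM`.
PROOF of `mid`.  `s < s'`, `s + 1 ≤ j ≤ s' - 2`; `a_s` nearest corner to `z`, `a_(s')` nearest corner to `z'`.
(1) `o a_s a_j ≤ tb + 2 cM + t1`: `a_s ∈ l_s`, `b_(j-1) ∈ l_(j-1)`, so `o a_s b_(j-1) ≤ pp l_j l_s l_(j-1)`, which is `≤ tb` by `pl_left` (`s < j`; if `s = j-1` it is also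
covered: `pp l_j l_(j-1) l_(j-1) ≤ tb`), and `d(b_(j-1), a_j) ≤ cM`, `oA_le_two`.   (2) in the same way `o b_j a_(s') ≤ tb + 2 cM` by `pl_right`.
(3) `o z a_s ≤ 4 c1 + 2 D`.  Let `ζ, ω` be nearest in `l_j` to `z`, `a_s` (`NC` with `c1`).  If `d(ζ,ω) ≤ c1 + D`: `nc_two`.  Otherwise `nc_long`:
`d(z,ζ) + d(ζ,ω) + d(ω,a_s) ≤ d(z,a_s) + 2 c1 + D`.  `2 d(ω,a_j) = o ω a_j ≤ o ω a_s + o a_s a_j ≤ c1 + tb + 2 cM + t1`.
So `d(z,a_j) + d(a_j,a_s) ≤ d(z,ω) + d(ω,a_s) + 2 d(ω,a_j) ≤ d(z,a_s) + 2 c1 + D + c1 + tb + 2 cM + t1`.  But `d(z,a_s) ≤ d(z,a_j)` (nearest corner), so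
`d(a_j,a_s) ≤ 3 c1 + D + tb + 2 cM + t1 ≤ 100 B0`; while `d(a_s,a_j) ≥ d(a_s,a_(s+1)) - k3 ≥ m0 - cM - k3 > 900 B0` (`bt_x`, `edge_m0`).  Contradiction.
(4) `o z' a_(s') ≤ 4 c1 + 2 D` in the same way: `ω'` nearest in `l_j` to `a_(s')`: `2 d(ω',b_j) ≤ c1 + tb + 2 cM`, `d(ω',a_(j+1)) ≤ d(ω',b_j) + cM`, and
`d(a_(j+1),a_(s')) ≥ m0 - cM - k3` because `j + 1 < s'`.
(5) `2 n (h^(m_j)) = o a_j b_j ≤ o a_j a_s + o a_s z + o z z' + o z' a_(s') + o a_(s') b_j ≤ o z z' + 2 tb + 4 cM + t1 + 8 c1 + 4 D ≤ o z z' + 210 B0`.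
-/

set_option autoImplicit false

namespace Pool.SC

noncomputable section

variable {G : Type} [Group G] {κ : Type} {ι : Type} {cl : ι → κ} (A : PD G κ ι cl)

/-- the corner lemma for a line and a nearest corner -/
private theorem near_aux {X : Type} {d : X → X → ℕ} {D : ℕ} (hy : Hyp4 d D) {P : Set X} {c1 : ℕ} (hP : NC d P c1)
    {z as b a' : X} {e K : ℕ} (hb : b ∈ P) (hoa : oA d P as b ≤ e) (hnear : d z as ≤ d z a')
    (hba : d b a' ≤ K) (hfar : 3 * c1 + D + e + 2 * K < d a' as) : oA d P z as ≤ 4 * c1 + 2 * D := by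
  have hne : P.Nonempty := ⟨b, hb⟩
  obtain ⟨ζ, hζ⟩ := exists_near d hne z
  obtain ⟨ω, hω⟩ := exists_near d hne as
  have h2 := nc_two hy hP hζ hω
  by_cases hl : c1 + D < d ζ ω
  · exfalso
    have h3 := nc_long hy hP hζ hω hl
    have h4 := nc_oA hy hP hω
    have h5 := oA_mem hy hω.1 hb
    have h6 := oA_tri hy hne ω as b
    have h7 := oA_symm (d := d) P as ω
    have t1 := hy.tri z ζ a'
    have t2 := hy.tri ζ ω a'
    have t3 := hy.tri ω b a'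
    have t4 := hy.tri a' b as
    have t5 := hy.tri b ω as
    have s1 := hy.symm a' b
    have s2 := hy.symm b ω
    omega
  · omega

theorem PD.mid (i : ι) (y z z' : G) (s s' j : ℤ) (h1 : s + 1 ≤ j) (h2 : j ≤ s' - 2)
    (hz : Near A.d (A.apts (A.ax i y)) z (y * A.x i s)) (hz' : Near A.d (A.apts (A.ax i y)) z' (y * A.x i s')) :
    2 * A.n (A.h (cl i) ^ A.m i j) ≤ oA A.d (A.pts (A.pl i y j)) z z' + 300 * A.B0 := by
  have hy : Hyp4 A.d A.D := A.toHG.hyp4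
  have hNC : NC A.d (A.pts (A.pl i y j)) A.c1 := A.sys.nc (A.pl i y j)
  have hinj := A.pl_inj i y
  obtain ⟨k1, k2, -, k4, k5, k6, k7, k8, k9, -⟩ := A.consts
  have hne : (A.pts (A.pl i y j)).Nonempty := ⟨_, A.x_mem_pl i y j⟩
  -- the end of the block `t` and the next corner
  have hbm : ∀ t : ℤ, y * A.x i t * A.h (cl i) ^ A.m i t ∈ A.pts (A.pl i y t) := by
    intro t
    have := A.mem_pl i y t (A.m i t : ℤ)
    rwa [zpow_natCast] at this
  have hbd : ∀ t : ℤ, A.d (y * A.x i t * A.h (cl i) ^ A.m i t) (y * A.x i (t + 1)) ≤ A.cM := by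
    intro t
    have e : y * A.x i (t + 1) = y * A.x i t * A.h (cl i) ^ A.m i t * A.c i t := by
      rw [A.x_succ]
      group
    rw [e]
    have := A.toHG.d_mul (y * A.x i t * A.h (cl i) ^ A.m i t) (A.c i t)
    have h3 := A.c_le i t
    omega
  have hap : ∀ t : ℤ, y * A.x i t ∈ A.apts (A.ax i y) := by
    intro t
    rw [A.apts_ax]
    exact ⟨t, rfl⟩
  have hdl : ∀ t t' : ℤ, A.d (y * A.x i t) (y * A.x i t') = A.d (A.x i t) (A.x i t') :=
    fun t t' => A.toHG.d_left y _ _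
  have hneq : ∀ t : ℤ, t ≠ j → (Sum.inl (A.pl i y t) : A.Ln ⊕ G) ≠ Sum.inl (A.pl i y j) := by
    intro t ht h
    exact ht (hinj (Sum.inl_injective h))
  -- (1)
  have o1 : oA A.d (A.pts (A.pl i y j)) (y * A.x i s) (y * A.x i j) ≤ A.tb + 2 * A.cM := by
    have e1 : oA A.d (A.pts (A.pl i y j)) (y * A.x i (j - 1) * A.h (cl i) ^ A.m i (j - 1)) (y * A.x i s) ≤
        A.sys.pp (A.pl i y j) (Sum.inl (A.pl i y (j - 1))) (Sum.inl (A.pl i y s)) :=
      A.sys.le_pp (A.pl i y j) (hneq _ (by omega)) (hneq _ (by omega)) (hbm (j - 1)) (A.x_mem_pl i y s)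
    have e2 := A.pl_left i y s j (by omega)
    have e3 := hbd (j - 1)
    rw [sub_add_cancel] at e3
    have e4 := oA_tri hy hne (y * A.x i s) (y * A.x i (j - 1) * A.h (cl i) ^ A.m i (j - 1)) (y * A.x i j)
    have e5 := oA_symm (d := A.d) (A.pts (A.pl i y j)) (y * A.x i (j - 1) * A.h (cl i) ^ A.m i (j - 1))
      (y * A.x i s)
    have e6 := oA_le_two hy hne (y * A.x i (j - 1) * A.h (cl i) ^ A.m i (j - 1)) (y * A.x i j)
    omega
  -- (2)
  have o2 : oA A.d (A.pts (A.pl i y j)) (y * A.x i s') (y * A.x i j * A.h (cl i) ^ A.m i j) ≤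
      A.tb + 2 * A.cM := by
    have e1 : oA A.d (A.pts (A.pl i y j)) (y * A.x i (j + 1)) (y * A.x i s') ≤
        A.sys.pp (A.pl i y j) (Sum.inl (A.pl i y (j + 1))) (Sum.inl (A.pl i y s')) :=
      A.sys.le_pp (A.pl i y j) (hneq _ (by omega)) (hneq _ (by omega)) (A.x_mem_pl i y (j + 1))
        (A.x_mem_pl i y s')
    have e2 := A.pl_right i y s' j (by omega)
    have e3 := hbd j
    have e4 := oA_tri hy hne (y * A.x i s') (y * A.x i (j + 1)) (y * A.x i j * A.h (cl i) ^ A.m i j)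
    have e5 := oA_symm (d := A.d) (A.pts (A.pl i y j)) (y * A.x i (j + 1)) (y * A.x i s')
    have e6 := oA_le_two hy hne (y * A.x i (j + 1)) (y * A.x i j * A.h (cl i) ^ A.m i j)
    have e7 := hy.symm (y * A.x i (j + 1)) (y * A.x i j * A.h (cl i) ^ A.m i j)
    omega
  -- (3)
  have o3 : oA A.d (A.pts (A.pl i y j)) z (y * A.x i s) ≤ 4 * A.c1 + 2 * A.D := by
    refine near_aux hy hNC (A.x_mem_pl i y j) o1 (hz.2 _ (hap j)) (K := 0) (le_of_eq (hy.zero _)) ?_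
    have e1 : A.d (A.x i s) (A.x i (s + 1)) + A.d (A.x i (s + 1)) (A.x i j) ≤ A.d (A.x i s) (A.x i j) + A.k3 :=
      A.bt_x i s (s + 1) j (by omega) h1
    have e2 := A.edge_m0 i s
    have e3 := hdl s j
    have e4 := hy.symm (y * A.x i s) (y * A.x i j)
    omega
  -- (4)
  have o4 : oA A.d (A.pts (A.pl i y j)) z' (y * A.x i s') ≤ 4 * A.c1 + 2 * A.D := by
    refine near_aux hy hNC (hbm j) o2 (hz'.2 _ (hap (j + 1))) (hbd j) ?_
    have e1 : A.d (A.x i (j + 1)) (A.x i (j + 1 + 1)) + A.d (A.x i (j + 1 + 1)) (A.x i s') ≤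
        A.d (A.x i (j + 1)) (A.x i s') + A.k3 :=
      A.bt_x i (j + 1) (j + 1 + 1) s' (by omega) (by omega)
    have e2 := A.edge_m0 i (j + 1)
    have e3 := hdl (j + 1) s'
    omega
  -- (5)
  have o5 := oA_mem hy (A.x_mem_pl i y j) (hbm j)
  have e0 := A.toHG.d_mul (y * A.x i j) (A.h (cl i) ^ A.m i j)
  have t1 := oA_tri hy hne (y * A.x i j) (y * A.x i s) (y * A.x i j * A.h (cl i) ^ A.m i j)
  have t2 := oA_tri hy hne (y * A.x i s) z (y * A.x i j * A.h (cl i) ^ A.m i j)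
  have t3 := oA_tri hy hne z z' (y * A.x i j * A.h (cl i) ^ A.m i j)
  have t4 := oA_tri hy hne z' (y * A.x i s') (y * A.x i j * A.h (cl i) ^ A.m i j)
  have s1 := oA_symm (d := A.d) (A.pts (A.pl i y j)) (y * A.x i j) (y * A.x i s)
  have s2 := oA_symm (d := A.d) (A.pts (A.pl i y j)) (y * A.x i s) z
  omega

end

end Pool.SC
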