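import Pool.Agent.Lib.MP_565fc2_lc.SC.R3

/-!
# SC-R7: matching the lines of two paths (paper 6.6, first half)

PROOF of `match_lines`.  Notation `l_j = pl i y j`, `l'_q = pl i' z q`, `pp` of the system of lines.  Choose `p(j)` with `l_j = l'_(p j)` for `a ≤ j ≤ b`; `p` is injective
(`pl_inj`).  `cl i = cl i'` (`ln_eq_cl`).  Let `a < j < b`.
(M1) `pp l_j l_(j-1) l_(j+1) ≥ 2 n (h^(m i j)) - 120 B0 ≥ 2 m0 - 120 B0 > 120 B0` (`pl_mid`), and the same number is `pp l'_(p j) l'_(p (j-1)) l'_(p (j+1))`; by `pl_side`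
`p j` is not on one side of both, so it lies strictly between `p (j-1)` and `p (j+1)` (all different); `pl_mid` for the second path (or its mirror image: `pp` is symmetric)
gives `|2 n (h^(m i j)) - 2 n (h'^(m i' (p j)))| ≤ 240 B0`, `h' = h (cl i') = h (cl i)`; by `nrm_diff` `|m i j - m i' (p j)| ≤ 120 B0`; so `lab` gives `i = i'` and `k0 ∣ j - p j`.
(M2) for `a < j`, `j + 1 < b`: `|p (j+1) - p j| = 1`.  Otherwise some `t` lies strictly between `p j` and `p (j+1)`; `l'_t` is different from `l_j = l'_(p j)` and from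
`l_(j+1) = l'_(p (j+1))`, so `pp l'_t l_j l_(j+1) ≤ 2 t1 + 2 cM` (`pl_adj` for the first path), but `pl_mid` for the second path gives `≥ 2 m0 - 120 B0`.
(M3) `k0 ∣ j - p j` and `k0 ∣ (j+1) - p (j+1)`, so `k0 ∣ 1 - (p (j+1) - p j)`; as `k0 ≥ 3` the difference is not `-1`; so `p (j+1) = p j + 1`.  By induction
`p j = j + (p (a+1) - (a+1))` for `a + 1 ≤ j ≤ b - 1`, and the constant is a multiple of `k0`.
-/

set_option autoImplicit false

namespace Pool.SC

noncomputable section

variable {G : Type} [Group G] {κ : Type} {ι : Type} {cl : ι → κ} (A : PD G κ ι cl)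

private theorem R7_symm (l : A.Ln) (u v : A.Ln ⊕ G) : A.sys.pp l u v = A.sys.pp l v u := by
  have := A.sys.ps.symm l u v
  rwa [A.sys.ps_p] at this

/-- the middle line of three lines of a path, when its projection is large -/
private theorem R7_mid (i' : ι) (z : G) (r q s : ℤ) (hrq : r ≠ q) (hsq : s ≠ q)
    (hbig : 120 * A.B0 < A.sys.pp (A.pl i' z q) (Sum.inl (A.pl i' z r)) (Sum.inl (A.pl i' z s))) :
    2 * A.n (A.h (cl i') ^ A.m i' q) ≤
        A.sys.pp (A.pl i' z q) (Sum.inl (A.pl i' z r)) (Sum.inl (A.pl i' z s)) + 120 * A.B0 ∧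
      A.sys.pp (A.pl i' z q) (Sum.inl (A.pl i' z r)) (Sum.inl (A.pl i' z s)) ≤
        2 * A.n (A.h (cl i') ^ A.m i' q) + 120 * A.B0 := by
  have hside : ¬ ((r < q ∧ s < q) ∨ (q < r ∧ q < s)) := by
    intro h
    have := A.pl_side i' z r q s h
    omega
  have hcase : (r < q ∧ q < s) ∨ (s < q ∧ q < r) := by omega
  rcases hcase with ⟨h1, h2⟩ | ⟨h1, h2⟩
  · exact A.pl_mid i' z r q s h1 h2
  · have := A.pl_mid i' z s q r h1 h2
    rw [R7_symm]
    exact this

private theorem R7_exp {h : G} (hh : Nrm A.toHG h) {m m' c : ℕ}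
    (h1 : 2 * A.n (h ^ m) ≤ 2 * A.n (h ^ m') + 2 * c) : m ≤ m' + c := by
  by_contra hcon
  push Not at hcon
  have := nrm_diff hh m' m (by omega)
  omega

theorem PD.match_lines (i i' : ι) (y z : G) (a b : ℤ) (hab : a + 3 ≤ b)
    (h : ∀ j, a ≤ j → j ≤ b → ∃ q, A.pl i y j = A.pl i' z q) :
    i = i' ∧ ∃ t : ℤ, ∀ j, a + 1 ≤ j → j ≤ b - 1 → A.pl i y j = A.pl i' z (j + t * A.k0) := by
  classical
  obtain ⟨-, -, -, -, hm0, hB1, -, ht1, hcM, -⟩ := A.consts
  have hk0 := A.k0_ge
  have h' : ∀ j, ∃ q, a ≤ j → j ≤ b → A.pl i y j = A.pl i' z q := by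
    intro j
    by_cases hj : a ≤ j ∧ j ≤ b
    · obtain ⟨q, hq⟩ := h j hj.1 hj.2
      exact ⟨q, fun _ _ => hq⟩
    · exact ⟨0, fun h1 h2 => absurd ⟨h1, h2⟩ hj⟩
  choose p hp using h'
  have hpne : ∀ j j', a ≤ j → j ≤ b → a ≤ j' → j' ≤ b → j ≠ j' → p j ≠ p j' := by
    intro j j' h1 h2 h3 h4 h5 h6
    apply h5
    apply A.pl_inj i y
    rw [hp j h1 h2, hp j' h3 h4, h6]
  have hcl : cl i = cl i' := A.toLD.ln_eq_cl (hp a le_rfl (by omega))
  -- (M1)
  have M1 : ∀ j, a < j → j < b → i = i' ∧ (A.k0 : ℤ) ∣ j - p j := by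
    intro j h1 h2
    have e0 := hp j (by omega) (by omega)
    have e1 := hp (j - 1) (by omega) (by omega)
    have e2 := hp (j + 1) (by omega) (by omega)
    have hm := A.pl_mid i y (j - 1) j (j + 1) (by omega) (by omega)
    have hb := A.block_ge i j
    rw [e0, e1, e2] at hm
    have n1 := hpne (j - 1) j (by omega) (by omega) (by omega) (by omega) (by omega)
    have n2 := hpne (j + 1) j (by omega) (by omega) (by omega) (by omega) (by omega)
    have hm' := R7_mid A i' z (p (j - 1)) (p j) (p (j + 1)) n1 n2 (by omega)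
    rw [← hcl] at hm'
    have hB : A.B0 = A.hM + A.D + A.t1 + A.cM := rfl
    have x1 : A.m i j ≤ A.m i' (p j) + 120 * A.B0 :=
      R7_exp A (A.nrm (cl i)) (by omega)
    have x2 : A.m i' (p j) ≤ A.m i j + 120 * A.B0 :=
      R7_exp A (A.nrm (cl i)) (by omega)
    exact A.lab i j i' (p j) hcl (by omega) (by omega)
  -- (M2)
  have M2 : ∀ j, a ≤ j → j + 1 ≤ b → p (j + 1) = p j + 1 ∨ p j = p (j + 1) + 1 := by
    intro j h1 h2
    by_contra hcon
    push Not at hcon
    have e0 := hp j h1 (by omega)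
    have e2 := hp (j + 1) (by omega) h2
    have n1 := hpne (j + 1) j (by omega) (by omega) (by omega) (by omega) (by omega)
    have key : ∀ t, t ≠ p j → t ≠ p (j + 1) →
        A.sys.pp (A.pl i' z t) (Sum.inl (A.pl i' z (p j))) (Sum.inl (A.pl i' z (p (j + 1))))
          ≤ 2 * A.t1 + 2 * A.cM := by
      intro t h3 h4
      have := A.pl_adj i y j (A.pl i' z t)
        (by rw [e0]; exact fun h5 => h3 (A.pl_inj i' z h5))
        (by rw [e2]; exact fun h5 => h4 (A.pl_inj i' z h5))
      rwa [e0, e2] at this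
    rcases lt_or_gt_of_ne n1 with h3 | h3
    · have k1 := key (p (j + 1) + 1) (by omega) (by omega)
      have k2 := A.pl_mid i' z (p (j + 1)) (p (j + 1) + 1) (p j) (by omega) (by omega)
      have k3 := A.block_ge i' (p (j + 1) + 1)
      rw [R7_symm] at k1
      omega
    · have k1 := key (p j + 1) (by omega) (by omega)
      have k2 := A.pl_mid i' z (p j) (p j + 1) (p (j + 1)) (by omega) (by omega)
      have k3 := A.block_ge i' (p j + 1)
      omega
  -- (M3)
  have M3 : ∀ j, a < j → j + 1 < b → p (j + 1) = p j + 1 := by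
    intro j h1 h2
    rcases M2 j (by omega) (by omega) with h3 | h3
    · exact h3
    · exfalso
      have d1 := (M1 j h1 (by omega)).2
      have d2 := (M1 (j + 1) (by omega) h2).2
      have d3 := dvd_sub d2 d1
      have e : j + 1 - p (j + 1) - (j - p j) = 2 := by omega
      rw [e] at d3
      have := Int.le_of_dvd (by norm_num) d3
      omega
  obtain ⟨hi, t, ht⟩ := M1 (a + 1) (by omega) (by omega)
  refine ⟨hi, -t, ?_⟩
  have hind : ∀ n : ℕ, a + 1 + n ≤ b - 1 → p (a + 1 + n) = a + 1 + n + (-t) * A.k0 := by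
    intro n
    induction n with
    | zero =>
      intro _
      have e1 : a + 1 + ((0 : ℕ) : ℤ) = a + 1 := by simp
      rw [e1]
      linarith [mul_comm (A.k0 : ℤ) t]
    | succ n ih =>
      intro hn
      push_cast at hn ⊢
      have e1 := ih (by omega)
      have e2 := M3 (a + 1 + n) (by omega) (by omega)
      have e3 : a + 1 + ((n : ℤ) + 1) = a + 1 + n + 1 := by ring
      rw [e3, e2, e1]
      ring
  intro j h1 h2
  obtain ⟨n, hn⟩ := Int.eq_ofNat_of_zero_le (show 0 ≤ j - (a + 1) by omega)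
  have e1 : a + 1 + (n : ℤ) = j := by omega
  have e2 := hind n (by omega)
  rw [e1] at e2
  rw [hp j (by omega) (by omega), e2]

end

end Pool.SC
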