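import Pool.Agent.Lib.MP_565fc2_lc.SC.R3
import Pool.Agent.Lib.MP_565fc2_lc.SC.R4

/-!
# SC-R8: an element preserving many consecutive lines of a path is trivial (paper 6.6, second half)

Notation: `E = Eh (h (cl i))`, `x_j = x i j`, `s_j = x_j⁻¹ g x_j ∈ E` for `a ≤ j ≤ b`; `l_j = pl i 1 j = line h x_j`; `g l_j = l_j`.
PROOF of `fix_one`.  Let `a + 1 ≤ j ≤ b - 1`, `o = oA d (pts l_j)`, `m = m i j`, `h = h (cl i)`.
(1) `2 d(x_j, g x_j) ≤ 4 cM + t1`: `q = x_(j-1) h^(m i (j-1)) ∈ l_(j-1)`, `d(q,x_j) ≤ cM`; `g q ∈ g l_(j-1) = l_(j-1)` (because `s_(j-1) ∈ E`; `g q = x_(j-1) s_(j-1) h^(...)`), so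
`o q (g q) ≤ t1` (`A.ov`, lines `l_j ≠ l_(j-1)`), `d(g q, g x_j) ≤ cM`; so `o x_j (g x_j) ≤ t1 + 4 cM`; both points are in `l_j` (`oA_mem`).
(2) in the same way with `q = x_(j+1) ∈ l_(j+1)`, `d(x_(j+1), x_j h^m) ≤ cM`: `2 d(x_j h^m, g x_j h^m) ≤ 4 cM + t1`.
(3) for `0 ≤ k ≤ m`: `|h^(-k) s_j h^k| = d(x_j h^k, g x_j h^k) ≤ hM + 4 cM + t1 + D`: four point inequality with the pairs `(P_k, Q_k), (P_0, P_m)`, `P_k = x_j h^k`, `Q_k = g x_j h^k`: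
`d(P_k,Q_k) + d(P_0,P_m) ≤ max (d(P_k,P_0) + d(Q_k,P_m)) (d(P_k,P_m) + d(Q_k,P_0)) + D`, `d(Q_k,P_m) ≤ d(Q_k,Q_m) + d(Q_m,P_m)`, `d(Q_k,Q_m) = d(P_k,P_m)`,
`d(P_0,P_k) + d(P_k,P_m) ≤ d(P_0,P_m) + hM` (`nrm_bt`).
(4) `pg` with `f k = h^(-k) s_j h^k` (`k ≤ bN ≤ m0 ≤ m`): `f k = f k'`, `k < k' ≤ bN`, so `s_j` commutes with `h^(k'-k)`, `0 < k' - k ≤ bN`, so with `h^(bN !)`; hence
`s_j ∈ Ep h` and `s_j` commutes with `h^m` (`bN_dvd`); so `s_(j+1) = (h^m c_j)⁻¹ s_j (h^m c_j) = c_j⁻¹ s_j c_j`.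
(5) `test` with `a + 1` (`a + 1 + W0 ≤ b - 1 + 1`): `s_(a+1) = 1`, so `g = 1`.
-/

set_option autoImplicit false

namespace Pool.SC

noncomputable section

variable {G : Type} [Group G] {κ : Type} {ι : Type} {cl : ι → κ} (A : PD G κ ι cl)

private theorem R8_move (B : LD G κ) {s : κ} {y y' g p q : G} {c : ℕ} (hg : y⁻¹ * g * y ∈ Eh (B.h s))
    (hg' : y'⁻¹ * g * y' ∈ Eh (B.h s)) (hne : y⁻¹ * y' ∉ Eh (B.h s)) (hp : p ∈ line (B.h s) y)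
    (hq : q ∈ line (B.h s) y') (hd : B.d p q ≤ c) : 2 * B.d p (g * p) ≤ 4 * c + B.t1 := by
  have hmem : ∀ {z w : G}, z⁻¹ * g * z ∈ Eh (B.h s) → w ∈ line (B.h s) z → g * w ∈ line (B.h s) z := by
    intro z w h1 h2
    show z⁻¹ * (g * w) ∈ Eh (B.h s)
    have h3 := (Eh (B.h s)).mul_mem h1 h2
    have e : z⁻¹ * g * z * (z⁻¹ * w) = z⁻¹ * (g * w) := by group
    rwa [e] at h3
  have hne0 : (line (B.h s) y).Nonempty := ⟨y, self_mem_line _ _⟩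
  have h1 := B.ov s s y y' (Or.inr hne) q hq (g * q) (hmem hg' hq)
  have h2 := oA_mem B.hyp4 hp (hmem hg hp)
  have h3 := oA_tri B.hyp4 hne0 p q (g * p)
  have h4 := oA_tri B.hyp4 hne0 q (g * q) (g * p)
  have h5 := oA_le_two B.hyp4 hne0 p q
  have h6 := oA_le_two B.hyp4 hne0 (g * q) (g * p)
  have h7 := B.toHG.d_left g q p
  have h8 := B.hyp4.symm q p
  omega

private theorem R8_mid (B : LD G κ) (s : κ) (x g : G) (e k m : ℕ) (hk : k ≤ m)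
    (h0 : 2 * B.d x (g * x) ≤ e) (hm : 2 * B.d (x * B.h s ^ m) (g * (x * B.h s ^ m)) ≤ e) :
    B.d (x * B.h s ^ k) (g * (x * B.h s ^ k)) ≤ B.hM + e + B.D := by
  have hb := nrm_bt (B.nrm s) 0 (k : ℤ) (m : ℤ) (by omega) (by omega)
  unfold Bt at hb
  rw [zpow_zero, zpow_natCast, zpow_natCast] at hb
  have f := B.hyp4.four (x * B.h s ^ k) (g * (x * B.h s ^ k)) x (x * B.h s ^ m)
  have t1 := B.hyp4.tri (g * (x * B.h s ^ k)) (g * (x * B.h s ^ m)) (x * B.h s ^ m)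
  have t2 := B.hyp4.tri (g * (x * B.h s ^ k)) (g * x) x
  have l1 := B.toHG.d_left g (x * B.h s ^ k) (x * B.h s ^ m)
  have l2 := B.toHG.d_left g (x * B.h s ^ k) x
  have l3 := B.toHG.d_left x 1 (B.h s ^ k)
  have l4 := B.toHG.d_left x (B.h s ^ k) (B.h s ^ m)
  have l5 := B.toHG.d_left x 1 (B.h s ^ m)
  rw [mul_one] at l3 l5
  have s1 := B.hyp4.symm (g * (x * B.h s ^ m)) (x * B.h s ^ m)
  have s2 := B.hyp4.symm (g * x) x
  have s3 := B.hyp4.symm (x * B.h s ^ k) x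
  have hM := B.hM_le s
  omega

private theorem R8_ne (i : ι) (j : ℤ) : (A.x i j)⁻¹ * A.x i (j + 1) ∉ Eh (A.h (cl i)) := by
  rw [A.x_succ, inv_mul_cancel_left]
  intro h1
  have h2 : A.h (cl i) ^ A.m i j ∈ Eh (A.h (cl i)) := by
    have := zpow_mem_Eh (A.h (cl i)) (A.m i j : ℤ)
    rwa [zpow_natCast] at this
  exact A.c_nin i j ((Subgroup.mul_mem_cancel_left _ h2).1 h1)

private theorem R8_d (i : ι) (j : ℤ) : A.d (A.x i j * A.h (cl i) ^ A.m i j) (A.x i (j + 1)) ≤ A.cM := by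
  have e : A.x i (j + 1) = A.x i j * A.h (cl i) ^ A.m i j * A.c i j := by
    rw [A.x_succ]
    group
  rw [e, A.d_mul]
  exact A.c_le i j

private theorem R8_pow_line (i : ι) (j : ℤ) (k : ℕ) : A.x i j * A.h (cl i) ^ k ∈ line (A.h (cl i)) (A.x i j) := by
  have h := mem_line_zpow (self_mem_line (A.h (cl i)) (A.x i j)) (k : ℤ)
  rwa [zpow_natCast] at h

/-- step (1) -/
private theorem R8_left (i : ι) (g : G) (j : ℤ)
    (h0 : (A.x i (j - 1))⁻¹ * g * A.x i (j - 1) ∈ Eh (A.h (cl i)))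
    (h1 : (A.x i j)⁻¹ * g * A.x i j ∈ Eh (A.h (cl i))) :
    2 * A.d (A.x i j) (g * A.x i j) ≤ 4 * A.cM + A.t1 := by
  have hn := R8_ne A i (j - 1)
  have hd := R8_d A i (j - 1)
  rw [sub_add_cancel] at hn hd
  refine R8_move A.toLD h1 h0 ?_ (self_mem_line _ _) (R8_pow_line A i (j - 1) (A.m i (j - 1))) ?_
  · intro h2
    apply hn
    have h3 := (Eh (A.h (cl i))).inv_mem h2
    rwa [mul_inv_rev, inv_inv] at h3
  · have hs := A.hyp4.symm (A.x i j) (A.x i (j - 1) * A.h (cl i) ^ A.m i (j - 1))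
    rw [hs]
    exact hd

/-- step (2) -/
private theorem R8_right (i : ι) (g : G) (j : ℤ)
    (h1 : (A.x i j)⁻¹ * g * A.x i j ∈ Eh (A.h (cl i)))
    (h2 : (A.x i (j + 1))⁻¹ * g * A.x i (j + 1) ∈ Eh (A.h (cl i))) :
    2 * A.d (A.x i j * A.h (cl i) ^ A.m i j) (g * (A.x i j * A.h (cl i) ^ A.m i j)) ≤ 4 * A.cM + A.t1 :=
  R8_move A.toLD h1 h2 (R8_ne A i j) (R8_pow_line A i j (A.m i j)) (self_mem_line _ _) (R8_d A i j)

/-- steps (3), (4) -/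
private theorem R8_comm (i : ι) (g : G) (j : ℤ)
    (h0 : (A.x i (j - 1))⁻¹ * g * A.x i (j - 1) ∈ Eh (A.h (cl i)))
    (h1 : (A.x i j)⁻¹ * g * A.x i j ∈ Eh (A.h (cl i)))
    (h2 : (A.x i (j + 1))⁻¹ * g * A.x i (j + 1) ∈ Eh (A.h (cl i))) :
    (A.x i j)⁻¹ * g * A.x i j ∈ Ep (A.h (cl i)) ∧
      Commute ((A.x i j)⁻¹ * g * A.x i j) (A.h (cl i) ^ A.m i j) := by
  set h := A.h (cl i) with hh
  set s := (A.x i j)⁻¹ * g * A.x i j with hs
  have hL := R8_left A i g j h0 h1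
  have hR := R8_right A i g j h1 h2
  obtain ⟨k, k', hkk, hk', he⟩ := A.pg (fun k => (h ^ k)⁻¹ * s * h ^ k) (fun k hk => by
    have hkm : k ≤ A.m i j := by
      have e1 := A.bN_le
      have e2 := A.m0_le i j
      omega
    have h3 := R8_mid A.toLD (cl i) (A.x i j) g (4 * A.cM + A.t1) k (A.m i j) hkm hL hR
    have h4 := A.toHG.d_eq (A.x i j * h ^ k) (g * (A.x i j * h ^ k))
    have e : (A.x i j * h ^ k)⁻¹ * (g * (A.x i j * h ^ k)) = (h ^ k)⁻¹ * s * h ^ k := by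
      rw [hs]
      group
    rw [e] at h4
    show A.n ((h ^ k)⁻¹ * s * h ^ k) ≤ _
    rw [← h4]
    refine h3.trans ?_
    omega)
  have hc : Commute s (h ^ (k' - k)) := by
    have he' : (h ^ k)⁻¹ * s * h ^ k = (h ^ k')⁻¹ * s * h ^ k' := he
    have e1 : h ^ k' = h ^ k * h ^ (k' - k) := by
      rw [← pow_add]
      congr 1
      omega
    have e1' : h ^ k' = h ^ (k' - k) * h ^ k := by
      rw [← pow_add]
      congr 1
      omega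
    have e2 : h ^ k * ((h ^ k')⁻¹ * s * h ^ k') * (h ^ k)⁻¹ = s := by
      rw [← he']
      group
    have e3 : h ^ k * ((h ^ k')⁻¹ * s * h ^ k') * (h ^ k)⁻¹ = (h ^ (k' - k))⁻¹ * s * h ^ (k' - k) := by
      have e4 : h ^ k * (h ^ k')⁻¹ = (h ^ (k' - k))⁻¹ := by
        rw [e1', mul_inv_rev, mul_inv_cancel_left]
      have e5 : h ^ k' * (h ^ k)⁻¹ = h ^ (k' - k) := by
        rw [e1', mul_inv_cancel_right]
      rw [← e4, ← e5]
      group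
    rw [e3] at e2
    show s * h ^ (k' - k) = h ^ (k' - k) * s
    have e6 := congrArg (fun z => h ^ (k' - k) * z) e2
    simp only [mul_assoc, mul_inv_cancel_left] at e6
    exact e6
  refine ⟨⟨k' - k, by omega, hc⟩, ?_⟩
  have hd : k' - k ∣ A.m i j := (Nat.dvd_factorial (by omega) (by omega)).trans (A.bN_dvd i j)
  obtain ⟨u, hu⟩ := hd
  rw [hu, pow_mul]
  exact hc.pow_right u

theorem PD.fix_one (i : ι) (g : G) (a b : ℤ) (hab : a + A.W0 + 3 ≤ b)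
    (h : ∀ j, a ≤ j → j ≤ b → (A.x i j)⁻¹ * g * A.x i j ∈ Eh (A.h (cl i))) : g = 1 := by
  have h1 := A.test i (a + 1) (fun j => (A.x i j)⁻¹ * g * A.x i j) (fun j hj1 hj2 => by
    have h2 := R8_comm A i g j (h (j - 1) (by omega) (by omega)) (h j (by omega) (by omega))
      (h (j + 1) (by omega) (by omega))
    refine ⟨h2.1, ?_⟩
    show (A.x i (j + 1))⁻¹ * g * A.x i (j + 1) = (A.c i j)⁻¹ * ((A.x i j)⁻¹ * g * A.x i j) * A.c i j
    have h3 := h2.2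
    have e1 : (A.h (cl i) ^ A.m i j)⁻¹ * ((A.x i j)⁻¹ * g * A.x i j) * A.h (cl i) ^ A.m i j =
        (A.x i j)⁻¹ * g * A.x i j := by
      have h4 : ((A.x i j)⁻¹ * g * A.x i j) * A.h (cl i) ^ A.m i j =
        A.h (cl i) ^ A.m i j * ((A.x i j)⁻¹ * g * A.x i j) := h3
      rw [mul_assoc, h4, inv_mul_cancel_left]
    rw [A.x_succ]
    conv_rhs => rw [← e1]
    group)
  have h2 : (A.x i (a + 1))⁻¹ * g * A.x i (a + 1) = 1 := h1
  have h3 : g = A.x i (a + 1) * ((A.x i (a + 1))⁻¹ * g * A.x i (a + 1)) * (A.x i (a + 1))⁻¹ := by group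
  rw [h3, h2]
  group

end

end Pool.SC
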