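import Pool.Agent.Lib.MP_565fc2_lc.SC.R6
import Pool.Agent.Lib.MP_565fc2_lc.SC.R7
import Pool.Agent.Lib.MP_565fc2_lc.SC.R8

/-!
# SC-R9: bounded overlaps (paper 6.5, 6.6)

Common beginning.  `u, u'` two points with `oA (apts (ax i y)) u u' > t0 = 2 W lM + 2 c2`.  Nearest corners `y x_s`, `y x_(s')` (`exists_near`, `apts_ax`).
`nc_two`: `2 d(x_s,x_(s')) ≥ oA - 2 c2 > 2 W lM`, so `|s - s'| > W` (`len_le`).  By symmetry (`oA_symm`) `s < s'`, `s' - s > W = W0 + 12`.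
For `s + 1 ≤ j ≤ s' - 2`: `mid`: `oA (pts l_j) u u' ≥ 2 m0 - 300 B0 ≥ 1700 B0`  (`block_ge`, `m0 ≥ 1000 B0`).
`line_ax`: `u, u'` in one line `l`: for `j = s + 1` and `j = s + 2`: `l = l_j`, otherwise `A.ov` gives `oA (pts l_j) u u' ≤ t1`.  So `l_(s+1) = l_(s+2)`: contradiction to `pl_inj`.
`ax_ax`: `u = z x'_p`, `u' = z x'_(p')` corners of `ax i' z`.  For `s + 1 ≤ j ≤ s' - 2`: `l_j = l'_q` for some `q`, otherwise `pl_far` gives `pp l_j l'_p l'_(p') ≤ 200 B0`, but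
`oA (pts l_j) u u' ≤ pp` (`le_pp`).  `match_lines` (`a = s + 1`, `b = s' - 2`): `i = i'` and `l_j = pl i z (j + t k0)` for `s + 2 ≤ j ≤ s' - 3`.  `x (j + t k0) = r^t x_j` (`x_per_mul`), so
`g = y⁻¹ z r^t` satisfies `x_j⁻¹ g x_j = (y x_j)⁻¹ (z r^t x_j) ∈ E` (`ln_eq`).  `fix_one`: `g = 1`, so `y = z r^t` and `ax i y = ax i z` (`ax_eq`).
-/

set_option autoImplicit false

namespace Pool.SC

noncomputable section

variable {G : Type} [Group G] {κ : Type} {ι : Type} {cl : ι → κ} (A : PD G κ ι cl)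

/-- two points with far nearest corners see many lines of the path -/
private theorem R9_mid (i : ι) (y u u' : G) (s s' : ℤ) (hlt : s + A.W < s')
    (hu : Near A.d (A.apts (A.ax i y)) u (y * A.x i s)) (hu' : Near A.d (A.apts (A.ax i y)) u' (y * A.x i s'))
    (j : ℤ) (h1 : s + 1 ≤ j) (h2 : j ≤ s + A.W - 1) : 1700 * A.B0 ≤ oA A.d (A.pts (A.pl i y j)) u u' := by
  have hm := A.mid i y u u' s s' j h1 (by omega) hu hu'
  have hb := A.block_ge i j
  obtain ⟨-, -, -, -, hc, -⟩ := A.consts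
  omega

/-- the length of a piece of the path bounds the difference of the indices -/
private theorem R9_idx (i : ι) (y : G) (s s' : ℤ) (h : s ≤ s')
    (hd : A.W * A.lM < A.d (y * A.x i s) (y * A.x i s')) : s + A.W < s' := by
  obtain ⟨a, ha⟩ := Int.eq_ofNat_of_zero_le (show 0 ≤ s' - s by omega)
  have hs : s' = s + (a : ℤ) := by omega
  rw [A.d_left, hs] at hd
  have h1 := A.len_le i s a
  by_contra hcon
  have h2 : a ≤ A.W := by omega
  have h3 := Nat.mul_le_mul_right A.lM h2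
  omega

private theorem R9_core (i : ι) (y u u' : G) (ht : A.t0 < oA A.d (A.apts (A.ax i y)) u u') :
    ∃ s : ℤ, ∀ j : ℤ, s + 1 ≤ j → j ≤ s + A.W - 1 → 1700 * A.B0 ≤ oA A.d (A.pts (A.pl i y j)) u u' := by
  obtain ⟨α, hα⟩ := exists_near A.d (A.ax_ne (A.ax i y)) u
  obtain ⟨β, hβ⟩ := exists_near A.d (A.ax_ne (A.ax i y)) u'
  have h1 := (nc_two A.hyp4 (A.ax_nc (A.ax i y)) hα hβ).1
  have hα1 := hα.1
  have hβ1 := hβ.1
  rw [A.apts_ax] at hα1 hβ1
  obtain ⟨s, rfl⟩ := hα1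
  obtain ⟨s', rfl⟩ := hβ1
  have hd : A.W * A.lM < A.d (y * A.x i s) (y * A.x i s') := by
    have ht' : 2 * A.W * A.lM + 2 * A.c2 < oA A.d (A.apts (A.ax i y)) u u' := ht
    have e : 2 * A.W * A.lM = 2 * (A.W * A.lM) := by ring
    omega
  rcases le_total s s' with h | h
  · exact ⟨s, fun j hj1 hj2 => R9_mid A i y u u' s s' (R9_idx A i y s s' h hd) hα hβ j hj1 hj2⟩
  · rw [A.hyp4.symm] at hd
    refine ⟨s', fun j hj1 hj2 => ?_⟩
    rw [oA_symm]
    exact R9_mid A i y u' u s' s (R9_idx A i y s' s h hd) hβ hα j hj1 hj2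

/-- a line overlaps an axis only boundedly -/
theorem PD.line_ax (a : A.Ax) (l : A.Ln) (u u' : G) (hu : u ∈ A.pts l) (hu' : u' ∈ A.pts l) :
    oA A.d (A.apts a) u u' ≤ A.t0 := by
  obtain ⟨i, y, rfl⟩ := A.exists_ax a
  by_contra hcon
  obtain ⟨s, hs⟩ := R9_core A i y u u' (by omega)
  obtain ⟨-, -, -, -, -, hB, -, ht, -⟩ := A.consts
  have hW : A.W = A.W0 + 12 := rfl
  have key : ∀ j : ℤ, s + 1 ≤ j → j ≤ s + A.W - 1 → A.pl i y j = l := by
    intro j h1 h2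
    by_contra hne
    have h3 := hs j h1 h2
    have h4 : oA A.d (A.pts (A.pl i y j)) u u' ≤ A.t1 := A.sys.ov (A.pl i y j) l hne u hu u' hu'
    omega
  have h1 := key (s + 1) (by omega) (by omega)
  have h2 := key (s + 2) (by omega) (by omega)
  have h3 := A.pl_inj i y (h1.trans h2.symm)
  omega

/-- different axes overlap only boundedly -/
theorem PD.ax_ax (a a' : A.Ax) (ha : a ≠ a') (u u' : G) (hu : u ∈ A.apts a') (hu' : u' ∈ A.apts a') :
    oA A.d (A.apts a) u u' ≤ A.t0 := by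
  obtain ⟨i, y, rfl⟩ := A.exists_ax a
  obtain ⟨i', z, rfl⟩ := A.exists_ax a'
  by_contra hcon
  obtain ⟨s, hs⟩ := R9_core A i y u u' (by omega)
  obtain ⟨-, -, -, -, -, hB, -⟩ := A.consts
  have hW : A.W = A.W0 + 12 := rfl
  rw [A.apts_ax] at hu hu'
  obtain ⟨p, rfl⟩ := hu
  obtain ⟨p', rfl⟩ := hu'
  have key : ∀ j : ℤ, s + 1 ≤ j → j ≤ s + A.W - 1 → ∃ q, A.pl i y j = A.pl i' z q := by
    intro j h1 h2
    by_contra hne
    push Not at hne
    have h3 := hs j h1 h2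
    have h4 := A.pl_far i' z (A.pl i y j) (fun q hq => hne q hq.symm) p p'
    have h5 : oA A.d (A.pts (A.pl i y j)) (z * A.x i' p) (z * A.x i' p') ≤
        A.sys.pp (A.pl i y j) (Sum.inl (A.pl i' z p)) (Sum.inl (A.pl i' z p')) :=
      A.sys.le_pp (A.pl i y j) (fun h => hne p (Sum.inl_injective h).symm)
        (fun h => hne p' (Sum.inl_injective h).symm) (A.x_mem_pl i' z p) (A.x_mem_pl i' z p')
    omega
  obtain ⟨hi, t, ht⟩ := A.match_lines i i' y z (s + 1) (s + A.W - 1) (by omega) key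
  subst hi
  have hg := A.fix_one i (y⁻¹ * z * A.r i ^ t) (s + 2) (s + A.W - 2) (by omega) (fun j h1 h2 => by
    have h3 := ht j (by omega) (by omega)
    have h4 : (y * A.x i j)⁻¹ * (z * A.x i (j + t * A.k0)) ∈ Eh (A.h (cl i)) :=
      (A.ln_eq (cl i) (y * A.x i j) (z * A.x i (j + t * A.k0))).1 h3
    rw [A.x_per_mul] at h4
    have e : (A.x i j)⁻¹ * (y⁻¹ * z * A.r i ^ t) * A.x i j = (y * A.x i j)⁻¹ * (z * (A.r i ^ t * A.x i j)) := by
      group
    rw [e]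
    exact h4)
  apply ha
  refine ((A.ax_eq i z y).2 ⟨t, ?_⟩).symm
  have h5 : y * (y⁻¹ * z * A.r i ^ t) = y * 1 := by rw [hg]
  rw [mul_one] at h5
  rw [← h5]
  group

end

end Pool.SC
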