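import Pool.Agent.Lib.MP_565fc2_lc.SC.SLoop

/-!
# SC-SAvg: a geodesic is on average close to every path with the same ends (helper28)
-/

set_option autoImplicit false
set_option linter.unusedSectionVars false

namespace Pool.SC

section

variable {G : Type} [Group G] {S : Set G}

/-- `a` and `b` are joined by a path with `n` steps and with all its vertices in `T` -/
def PathIn (S T : Set G) (a b : G) (n : ℕ) : Prop :=
  ∃ p : ℕ → G, p 0 = a ∧ p n = b ∧ (∀ i < n, wd S (p i) (p (i + 1)) ≤ 1) ∧ ∀ i ≤ n, p i ∈ T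

theorem PathIn.symm (hS : Subgroup.closure S = ⊤) {T : Set G} {a b : G} {n : ℕ} (h : PathIn S T a b n) :
    PathIn S T b a n := by
  obtain ⟨p, h0, h1, h2, h3⟩ := h
  refine ⟨fun i => p (n - i), by simpa using h1, by simpa using h0, fun i hi => ?_, fun i _ => h3 _ (Nat.sub_le _ _)⟩
  have e : n - i = (n - (i + 1)) + 1 := by omega
  show wd S (p (n - i)) (p (n - (i + 1))) ≤ 1
  rw [e, wd_comm hS]
  exact h2 _ (by omega)

theorem PathIn.trans {T : Set G} {a b c : G} {n m : ℕ} (h : PathIn S T a b n) (h' : PathIn S T b c m) :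
    PathIn S T a c (n + m) := by
  obtain ⟨p, h0, h1, h2, h3⟩ := h
  obtain ⟨q, k0, k1, k2, k3⟩ := h'
  refine ⟨fun i => if i ≤ n then p i else q (i - n), by simpa using h0, ?_, fun i hi => ?_, fun i hi => ?_⟩
  · show (if n + m ≤ n then p (n + m) else q (n + m - n)) = c
    by_cases hm : m = 0
    · subst hm
      rw [if_pos (by omega), add_zero, h1, ← k0, k1]
    · rw [if_neg (by omega), Nat.add_sub_cancel_left, k1]
  · show wd S (if i ≤ n then p i else q (i - n)) (if i + 1 ≤ n then p (i + 1) else q (i + 1 - n)) ≤ 1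
    rcases lt_trichotomy i n with hin | hin | hin
    · rw [if_pos hin.le, if_pos (by omega)]
      exact h2 i hin
    · subst hin
      rw [if_pos le_rfl, if_neg (by omega), h1, ← k0, Nat.add_sub_cancel_left]
      exact k2 0 (by omega)
    · rw [if_neg (by omega), if_neg (by omega)]
      have e : i + 1 - n = (i - n) + 1 := by omega
      rw [e]
      exact k2 _ (by omega)
  · show (if i ≤ n then p i else q (i - n)) ∈ T
    split_ifs with hin
    · exact h3 i hin
    · exact k3 _ (by omega)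

theorem PathIn.mono {T T' : Set G} {a b : G} {n : ℕ} (h : PathIn S T a b n) (hT : T ⊆ T') : PathIn S T' a b n := by
  obtain ⟨p, h0, h1, h2, h3⟩ := h
  exact ⟨p, h0, h1, h2, fun i hi => hT (h3 i hi)⟩

theorem PathIn.pad {T : Set G} {a b : G} {n m : ℕ} (h : PathIn S T a b n) (hnm : n ≤ m) : PathIn S T a b m := by
  obtain ⟨p, h0, h1, h2, h3⟩ := h
  refine ⟨fun i => p (min i n), by simpa using h0, ?_, fun i hi => ?_, fun i _ => h3 _ (min_le_right _ _)⟩
  · show p (min m n) = b
    rw [min_eq_right hnm, h1]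
  · show wd S (p (min i n)) (p (min (i + 1) n)) ≤ 1
    rcases lt_or_ge i n with hin | hin
    · rw [min_eq_left hin.le, min_eq_left (by omega)]
      exact h2 i hin
    · rw [min_eq_right hin, min_eq_right (by omega), wd_self]
      exact Nat.zero_le _

theorem PathIn.left_mem {T : Set G} {a b : G} {n : ℕ} (h : PathIn S T a b n) : a ∈ T := by
  obtain ⟨p, h0, h1, h2, h3⟩ := h
  rw [← h0]
  exact h3 0 (Nat.zero_le _)

/-- distance to a set -/
noncomputable def sd (S T : Set G) (v : G) : ℕ := sInf {n | ∃ w ∈ T, wd S v w = n}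

theorem sd_le {T : Set G} {v w : G} (hw : w ∈ T) : sd S T v ≤ wd S v w := Nat.sInf_le ⟨w, hw, rfl⟩

theorem exists_sd {T : Set G} (hT : T.Nonempty) (v : G) : ∃ w ∈ T, wd S v w = sd S T v := by
  obtain ⟨w, hw⟩ := hT
  exact Nat.sInf_mem (s := {n | ∃ w ∈ T, wd S v w = n}) ⟨_, w, hw, rfl⟩

theorem sd_zero {T : Set G} {v : G} (hv : v ∈ T) : sd S T v = 0 := by
  have := sd_le (S := S) (v := v) hv
  rw [wd_self] at this
  omega

theorem sd_lip (hS : Subgroup.closure S = ⊤) {T : Set G} (hT : T.Nonempty) : Lip S (sd S T) := by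
  intro u v
  obtain ⟨w, hw, h⟩ := exists_sd (S := S) hT u
  have h1 := sd_le (S := S) (v := v) hw
  have h2 := wd_tri hS v u w
  have h3 := wd_comm hS u v
  omega

theorem wd_lip (hS : Subgroup.closure S = ⊤) (a : G) : Lip S (wd S a) := fun u v => wd_tri hS a u v

/-- `α` is a geodesic of length `l` -/
def Geod (S : Set G) (α : ℕ → G) (l : ℕ) : Prop := ∀ i j, i ≤ j → j ≤ l → wd S (α i) (α j) = j - i

/-- **(AVG)** -/
theorem avg {K : ℕ} (hD : DehnData S K) {T : Set G} {α : ℕ → G} {l n : ℕ} (hα : Geod S α l)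
    (hη : PathIn S T (α l) (α 0) n) :
    ∑ i ∈ Finset.range l, min (sd S T (α i)) (sd S T (α (i + 1))) ≤ 4 * K ^ 2 * (l + n) := by
  have hT : T.Nonempty := ⟨_, hη.left_mem⟩
  obtain ⟨p, h0, h1, h2, h3⟩ := hη
  have hf := sd_lip hD.gen hT
  have hφ := wd_lip hD.gen (α 0)
  set q : ℕ → G := fun i => if i ≤ l then α i else p (i - l) with hq
  have q1 : ∀ i ≤ l, q i = α i := fun i hi => if_pos hi
  have q2 : ∀ i, q (l + i) = p i := by
    intro i
    rcases Nat.eq_zero_or_pos i with rfl | hi
    · rw [add_zero, q1 l le_rfl, h0]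
    · show (if l + i ≤ l then α (l + i) else p (l + i - l)) = p i
      rw [if_neg (by omega), Nat.add_sub_cancel_left]
  have key := closed_sum hD hf hφ q (l + n) (by
    intro i hi
    rcases lt_or_ge i l with hil | hil
    · rw [q1 i hil.le, q1 (i + 1) (by omega), hα i (i + 1) (by omega) (by omega)]
      omega
    · obtain ⟨j, rfl⟩ := Nat.exists_eq_add_of_le hil
      rw [add_assoc, q2, q2]
      exact h2 j (by omega)) (by rw [q2, h1, q1 0 (Nat.zero_le _)])
  rw [Finset.sum_range_add] at key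
  have e1 : ∑ i ∈ Finset.range l, wform (sd S T) (wd S (α 0)) (q i) (q (i + 1)) =
      ∑ i ∈ Finset.range l, (min (sd S T (α i)) (sd S T (α (i + 1))) : ℤ) := by
    refine Finset.sum_congr rfl fun i hi => ?_
    have hi' := Finset.mem_range.1 hi
    rw [q1 i hi'.le, q1 (i + 1) (by omega), wform, hα 0 i (by omega) (by omega), hα 0 (i + 1) (by omega) (by omega)]
    push_cast
    simp
  have e2 : ∑ i ∈ Finset.range n, wform (sd S T) (wd S (α 0)) (q (l + i)) (q (l + i + 1)) = 0 := by
    refine Finset.sum_eq_zero fun i hi => ?_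
    have hi' := Finset.mem_range.1 hi
    rw [add_assoc, q2, q2, wform, sd_zero (h3 i hi'.le), sd_zero (h3 (i + 1) (by omega))]
    simp
  rw [e1, e2, add_zero] at key
  exact_mod_cast key

end

end Pool.SC
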