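import Pool.Agent.Lib.MP_565fc2_lc.SC.SBasic

/-!
# SC-SLoop: sums of antisymmetric functions along null words (helper28)

`DehnData S K`: the Dehn property with constant `K`.  Main result `closed_sum`: along every closed path of length `n` the
sum of `min (f u) (f v) * (φ v - φ u)` is at most `4 K^2 n` if `f`, `φ` are 1-Lipschitz.
-/

set_option autoImplicit false
set_option linter.unusedSectionVars false

namespace Pool.SC

section

variable {G : Type} [Group G] {S : Set G}

/-- the Dehn property with constant `K` -/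
structure DehnData (S : Set G) (K : ℕ) : Prop where
  gen : Subgroup.closure S = ⊤
  sym : ∀ s ∈ S, s⁻¹ ∈ S
  dehn : ∀ l : List G, l ≠ [] → (∀ x ∈ l, x ∈ S) → l.prod = 1 →
      ∃ l₁ m l₂ : List G, l = l₁ ++ m ++ l₂ ∧ m.length ≤ K ∧ wl S m.prod < m.length

/-- sum of `ω` along the path which starts at `g` and reads the word `l` -/
def psum (ω : G → G → ℤ) : G → List G → ℤ
  | _, [] => 0
  | g, s :: l => ω g (g * s) + psum ω (g * s) l

theorem psum_append (ω : G → G → ℤ) (l m : List G) (g : G) :
    psum ω g (l ++ m) = psum ω g l + psum ω (g * l.prod) m := by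
  induction l generalizing g with
  | nil => simp [psum]
  | cons s l ih =>
    rw [List.cons_append, psum, psum, ih, List.prod_cons, mul_assoc, add_assoc]

theorem psum_inv {ω : G → G → ℤ} (hω : ∀ u v, ω u v = - ω v u) (l : List G) (g : G) :
    psum ω (g * l.prod) (l.map fun x => x⁻¹).reverse = - psum ω g l := by
  induction l generalizing g with
  | nil => simp [psum]
  | cons s l ih =>
    rw [List.map_cons, List.reverse_cons, psum_append, List.prod_cons, ← mul_assoc, ih, prod_inv_word,
      mul_inv_cancel_right, psum, psum, psum, mul_inv_cancel_right, hω (g * s) g]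
    ring

theorem dehn_sum {K : ℕ} (hD : DehnData S K) {ω : G → G → ℤ} (hω : ∀ u v, ω u v = - ω v u) {B : ℤ}
    (hB : ∀ (g : G) (m : List G), (∀ x ∈ m, x ∈ S) → m.prod = 1 → m.length ≤ 2 * K → |psum ω g m| ≤ B)
    (g : G) (l : List G) (hl : ∀ x ∈ l, x ∈ S) (h1 : l.prod = 1) : |psum ω g l| ≤ B * l.length := by
  have hB0 : 0 ≤ B := by
    have := hB g [] (by simp) rfl (by simp)
    simpa [psum] using this
  induction hn : l.length using Nat.strong_induction_on generalizing l with
  | _ n ih =>
    by_cases hne : l = []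
    · subst hne
      simp only [psum, abs_zero]
      positivity
    · obtain ⟨l₁, m, l₂, rfl, hmK, hmw⟩ := hD.dehn l hne hl h1
      obtain ⟨m', k1, k2, k3⟩ := exists_word_sym hD.gen hD.sym m.prod
      have hm : ∀ x ∈ m, x ∈ S := fun x hx => hl x (by simp [hx])
      have e1 : (l₁ ++ m' ++ l₂).prod = 1 := by
        rw [List.prod_append, List.prod_append, k3, ← List.prod_append, ← List.prod_append, h1]
      have e2 : ∀ x ∈ l₁ ++ m' ++ l₂, x ∈ S := by
        intro x hx
        rw [List.mem_append, List.mem_append] at hx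
        rcases hx with (hx | hx) | hx
        · exact hl x (by simp [hx])
        · exact k2 x hx
        · exact hl x (by simp [hx])
      have e3 : (l₁ ++ m' ++ l₂).length < n := by
        rw [← hn]
        simp only [List.length_append]
        omega
      have e4 := ih _ e3 _ e2 e1 rfl
      have e5 : |psum ω (g * l₁.prod) (m ++ (m'.map fun x => x⁻¹).reverse)| ≤ B := by
        apply hB
        · intro x hx
          rw [List.mem_append] at hx
          rcases hx with hx | hx
          · exact hm x hx
          · rw [List.mem_reverse, List.mem_map] at hx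
            obtain ⟨y, hy, rfl⟩ := hx
            exact hD.sym y (k2 y hy)
        · rw [List.prod_append, prod_inv_word, k3, mul_inv_cancel]
        · simp only [List.length_append, List.length_reverse, List.length_map]
          omega
      rw [psum_append] at e5
      have e6 : psum ω (g * l₁.prod * m.prod) (m'.map fun x => x⁻¹).reverse = - psum ω (g * l₁.prod) m' := by
        rw [← k3]
        exact psum_inv hω m' _
      rw [e6] at e5
      have e7 : psum ω g (l₁ ++ m ++ l₂) = psum ω g (l₁ ++ m' ++ l₂) +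
          (psum ω (g * l₁.prod) m + - psum ω (g * l₁.prod) m') := by
        rw [psum_append, psum_append, psum_append, psum_append]
        simp only [List.prod_append, k3]
        ring
      rw [e7]
      have e8 : ((l₁ ++ m' ++ l₂).length : ℤ) + 1 ≤ n := by exact_mod_cast e3
      calc |psum ω g (l₁ ++ m' ++ l₂) + (psum ω (g * l₁.prod) m + - psum ω (g * l₁.prod) m')|
          ≤ |psum ω g (l₁ ++ m' ++ l₂)| + |psum ω (g * l₁.prod) m + - psum ω (g * l₁.prod) m'| :=
            abs_add_le _ _
        _ ≤ B * (l₁ ++ m' ++ l₂).length + B := add_le_add e4 e5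
        _ = B * ((l₁ ++ m' ++ l₂).length + 1) := by ring
        _ ≤ B * n := mul_le_mul_of_nonneg_left e8 hB0

/-- the 1-form -/
def wform (f φ : G → ℕ) (u v : G) : ℤ := min (f u : ℤ) (f v) * ((φ v : ℤ) - φ u)

theorem wform_anti (f φ : G → ℕ) (u v : G) : wform f φ u v = - wform f φ v u := by
  rw [wform, wform, min_comm]
  ring

theorem wform_self (f φ : G → ℕ) (u : G) : wform f φ u u = 0 := by
  rw [wform, sub_self, mul_zero]

/-- a function which is 1-Lipschitz for the word metric -/
def Lip (S : Set G) (f : G → ℕ) : Prop := ∀ u v, f v ≤ f u + wd S u v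

theorem Lip.step {f : G → ℕ} (hf : Lip S f) (hS : Subgroup.closure S = ⊤) {u v : G} (h : wd S u v ≤ 1) :
    |(f v : ℤ) - f u| ≤ 1 := by
  have h1 := hf u v
  have h2 := hf v u
  have h3 := wd_comm hS u v
  rw [abs_le]
  omega

/-- the 1-form with a constant subtracted from `f` -/
theorem psum_wform (f φ : G → ℕ) (c : ℤ) (m : List G) (g : G) : psum (wform f φ) g m =
    c * ((φ (g * m.prod) : ℤ) - φ g) +
      psum (fun u v => (min (f u : ℤ) (f v) - c) * ((φ v : ℤ) - φ u)) g m := by
  induction m generalizing g with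
  | nil => simp [psum]
  | cons s m ih =>
    rw [psum, psum, ih, List.prod_cons, ← mul_assoc, wform]
    ring

theorem psum_bound {f φ : G → ℕ} (hS : Subgroup.closure S = ⊤) (hf : Lip S f) (hφ : Lip S φ) (c : ℤ) (m : List G)
    (hm : ∀ x ∈ m, x ∈ S) (g : G) (r : ℤ) (hr : |(f g : ℤ) - c| ≤ r) :
    |psum (fun u v => (min (f u : ℤ) (f v) - c) * ((φ v : ℤ) - φ u)) g m| ≤ m.length * (r + m.length) := by
  induction m generalizing g r with
  | nil => simp [psum]
  | cons s m ih =>
    have hs : wd S g (g * s) ≤ 1 := wd_mul_right_le (Or.inl (hm s (by simp)))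
    have h1 := hf.step hS hs
    have h2 := hφ.step hS hs
    have h3 : |(f (g * s) : ℤ) - c| ≤ r + 1 := by
      rw [abs_le] at *
      omega
    have h4 := ih (fun x hx => hm x (by simp [hx])) (g * s) (r + 1) h3
    have h5 : |min (f g : ℤ) (f (g * s)) - c| ≤ r + 1 := by
      rw [abs_le] at *
      rcases min_choice (f g : ℤ) (f (g * s)) with h | h <;> rw [h] <;> omega
    have h6 : |(min (f g : ℤ) (f (g * s)) - c) * ((φ (g * s) : ℤ) - φ g)| ≤ r + 1 := by
      rw [abs_mul]
      calc |min (f g : ℤ) (f (g * s)) - c| * |(φ (g * s) : ℤ) - φ g|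
          ≤ (r + 1) * 1 := mul_le_mul h5 h2 (abs_nonneg _) ((abs_nonneg _).trans h5)
        _ = r + 1 := mul_one _
    rw [psum, List.length_cons]
    push_cast
    calc |(min (f g : ℤ) (f (g * s)) - c) * ((φ (g * s) : ℤ) - φ g) +
          psum (fun u v => (min (f u : ℤ) (f v) - c) * ((φ v : ℤ) - φ u)) (g * s) m|
        ≤ (r + 1) + m.length * (r + 1 + m.length) := (abs_add_le _ _).trans (add_le_add h6 h4)
      _ ≤ ((m.length : ℤ) + 1) * (r + (m.length + 1)) := by
          have : (0 : ℤ) ≤ m.length := by positivity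
          nlinarith

theorem closed_word {f φ : G → ℕ} (hS : Subgroup.closure S = ⊤) (hf : Lip S f) (hφ : Lip S φ) (m : List G)
    (hm : ∀ x ∈ m, x ∈ S) (h1 : m.prod = 1) (g : G) : |psum (wform f φ) g m| ≤ m.length * m.length := by
  rw [psum_wform f φ (f g) m g, h1, mul_one, sub_self, mul_zero, zero_add]
  have := psum_bound hS hf hφ (f g) m hm g 0 (by simp)
  rwa [zero_add] at this

/-- paths are words -/
theorem path_word (hS : Subgroup.closure S = ⊤) (hsym : ∀ s ∈ S, s⁻¹ ∈ S) (f φ : G → ℕ) (p : ℕ → G) (n : ℕ)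
    (hp : ∀ i < n, wd S (p i) (p (i + 1)) ≤ 1) : ∃ l : List G, (∀ x ∈ l, x ∈ S) ∧ p 0 * l.prod = p n ∧
      l.length ≤ n ∧ psum (wform f φ) (p 0) l = ∑ i ∈ Finset.range n, wform f φ (p i) (p (i + 1)) := by
  induction n with
  | zero => exact ⟨[], by simp, by simp, by simp, by simp [psum]⟩
  | succ n ih =>
    obtain ⟨l, h1, h2, h3, h4⟩ := ih fun i hi => hp i (by omega)
    rw [Finset.sum_range_succ, ← h4]
    rcases eq_or_mem_of_wd_le_one hS (hp n (by omega)) with h | h
    · refine ⟨l, h1, by rw [h2, h], by omega, ?_⟩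
      rw [← h, wform_self, add_zero]
    · have h5 : (p n)⁻¹ * p (n + 1) ∈ S := by
        rcases h with h | h
        · exact h
        · have := hsym _ h
          rwa [inv_inv] at this
      refine ⟨l ++ [(p n)⁻¹ * p (n + 1)], ?_, ?_, ?_, ?_⟩
      · intro x hx
        rw [List.mem_append, List.mem_singleton] at hx
        rcases hx with hx | hx
        · exact h1 x hx
        · rwa [hx]
      · rw [List.prod_append, ← mul_assoc, h2, List.prod_singleton, mul_inv_cancel_left]
      · simp only [List.length_append, List.length_singleton]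
        omega
      · rw [psum_append, h2, psum, psum, mul_inv_cancel_left, add_zero]

/-- **closed paths** -/
theorem closed_sum {K : ℕ} (hD : DehnData S K) {f φ : G → ℕ} (hf : Lip S f) (hφ : Lip S φ) (p : ℕ → G) (n : ℕ)
    (hp : ∀ i < n, wd S (p i) (p (i + 1)) ≤ 1) (hc : p n = p 0) :
    ∑ i ∈ Finset.range n, wform f φ (p i) (p (i + 1)) ≤ 4 * K ^ 2 * n := by
  obtain ⟨l, h1, h2, h3, h4⟩ := path_word hD.gen hD.sym f φ p n hp
  rw [← h4]
  have h5 : l.prod = 1 := by
    rw [hc] at h2
    exact mul_eq_left.1 h2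
  have h6 := dehn_sum hD (wform_anti f φ) (B := 4 * K ^ 2) (by
    intro g m hm hm1 hmK
    refine (closed_word hD.gen hf hφ m hm hm1 g).trans ?_
    have : (m.length : ℤ) ≤ 2 * K := by exact_mod_cast hmK
    have h0 : (0 : ℤ) ≤ m.length := by positivity
    nlinarith) (p 0) l h1 h5
  have h7 : (l.length : ℤ) ≤ n := by exact_mod_cast h3
  calc psum (wform f φ) (p 0) l ≤ |psum (wform f φ) (p 0) l| := le_abs_self _
    _ ≤ 4 * K ^ 2 * l.length := h6
    _ ≤ 4 * K ^ 2 * n := mul_le_mul_of_nonneg_left h7 (by positivity)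

end

end Pool.SC
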