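import Pool.Agent.Lib.MP_565fc2_lc.SC.SAvg

/-!
# SC-SMorse: geodesics are close to 3-quasigeodesics with the same ends (helper28)
-/

set_option autoImplicit false
set_option linter.unusedSectionVars false

namespace Pool.SC

section

variable {G : Type} [Group G] {S : Set G}

/-- the constant of the Morse lemma -/
def mC (K : ℕ) : ℕ := 88 * (4 * K ^ 2 + 1) + 4

theorem exists_last (P : ℕ → Prop) (h0 : P 0) (t : ℕ) : ∃ i ≤ t, P i ∧ ∀ k, i < k → k ≤ t → ¬ P k := by
  induction t with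
  | zero => exact ⟨0, le_rfl, h0, fun k h1 h2 => by omega⟩
  | succ t ih =>
    by_cases h : P (t + 1)
    · exact ⟨t + 1, le_rfl, h, fun k h1 h2 => by omega⟩
    · obtain ⟨i, h1, h2, h3⟩ := ih
      refine ⟨i, by omega, h2, fun k h4 h5 => ?_⟩
      rcases Nat.eq_or_lt_of_le h5 with h6 | h6
      · rwa [h6]
      · exact h3 k h4 (by omega)

theorem exists_first (P : ℕ → Prop) (t l : ℕ) (htl : t ≤ l) (hl : P l) :
    ∃ i, t ≤ i ∧ i ≤ l ∧ P i ∧ ∀ k, t ≤ k → k < i → ¬ P k := by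
  obtain ⟨i, h1, h2, h3⟩ := exists_last (fun i => P (l - i)) (by simpa using hl) (l - t)
  refine ⟨l - i, by omega, by omega, h2, fun k h4 h5 => ?_⟩
  have := h3 (l - k) (by omega) (by omega)
  have e : l - (l - k) = k := by omega
  rwa [e] at this

theorem pathIn_sub {T : Set G} {u : ℕ → G} {m : ℕ} (hu : ∀ i < m, wd S (u i) (u (i + 1)) ≤ 1)
    (hT : ∀ i ≤ m, u i ∈ T) {a b : ℕ} (hab : a ≤ b) (hb : b ≤ m) : PathIn S T (u a) (u b) (b - a) := by
  refine ⟨fun i => u (a + i), rfl, ?_, fun i hi => hu _ (by omega), fun i hi => hT _ (by omega)⟩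
  show u (a + (b - a)) = u b
  congr 1
  omega

theorem pathIn_ball (hS : Subgroup.closure S = ⊤) {a b : G} {r : ℕ} (h : wd S a b ≤ r) :
    PathIn S {w | wd S a w ≤ r} a b r := by
  obtain ⟨p, h0, h1, h2⟩ := exists_geod hS a b
  refine PathIn.pad ⟨p, h0, h1, fun i hi => ?_, fun i hi => ?_⟩ h
  · rw [h2 i (i + 1) (by omega) (by omega)]
    omega
  · show wd S a (p i) ≤ r
    rw [← h0, h2 0 i (Nat.zero_le _) hi]
    omega

/-- **(M)** -/
theorem morse {K : ℕ} (hD : DehnData S K) {α : ℕ → G} {l : ℕ} (hα : Geod S α l) {u : ℕ → G} {m : ℕ}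
    (hu : ∀ i < m, wd S (u i) (u (i + 1)) ≤ 1) (h0 : u 0 = α 0) (hm : u m = α l)
    (hq : ∀ i j, i ≤ j → j ≤ m → j - i ≤ 3 * wd S (u i) (u j)) {t : ℕ} (ht : t ≤ l) :
    ∃ j ≤ m, wd S (α t) (u j) ≤ mC K := by
  have hS := hD.gen
  set C := 4 * K ^ 2 + 1 with hC
  set C1 := 8 * C with hC1
  set T : Set G := {w | ∃ j ≤ m, w = u j} with hT
  have hTu : ∀ i ≤ m, u i ∈ T := fun i hi => ⟨i, hi, rfl⟩
  have hTne : T.Nonempty := ⟨_, hTu 0 (Nat.zero_le _)⟩
  have hf := sd_lip hS hTne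
  suffices hsuf : sd S T (α t) ≤ mC K by
    obtain ⟨w, ⟨j, hj, rfl⟩, hw⟩ := exists_sd (S := S) hTne (α t)
    exact ⟨j, hj, by rw [hw]; exact hsuf⟩
  by_cases hft : sd S T (α t) ≤ C1
  · refine hft.trans ?_
    rw [mC]
    omega
  obtain ⟨i1, a1, a2, a3⟩ := exists_last (fun i => sd S T (α i) ≤ C1) (by
    show sd S T (α 0) ≤ C1
    rw [← h0, sd_zero (hTu 0 (Nat.zero_le _))]
    exact Nat.zero_le _) t
  obtain ⟨i2, b1, b2, b3, b4⟩ := exists_first (fun i => sd S T (α i) ≤ C1) t l ht (by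
    show sd S T (α l) ≤ C1
    rw [← hm, sd_zero (hTu m le_rfl)]
    exact Nat.zero_le _)
  have c1 : i1 < t := by
    rcases Nat.eq_or_lt_of_le a1 with h | h
    · rw [h] at a2
      exact absurd a2 hft
    · exact h
  have c2 : t < i2 := by
    rcases Nat.eq_or_lt_of_le b1 with h | h
    · rw [← h] at b3
      exact absurd b3 hft
    · exact h
  have hint : ∀ i, i1 < i → i < i2 → C1 < sd S T (α i) := by
    intro i h1 h2
    rcases le_or_gt i t with h | h
    · exact not_le.1 (a3 i h1 h)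
    · exact not_le.1 (b4 i h.le h2)
  obtain ⟨w1, ⟨j1, hj1, rfl⟩, d1⟩ := exists_sd (S := S) hTne (α i1)
  obtain ⟨w2, ⟨j2, hj2, rfl⟩, d2⟩ := exists_sd (S := S) hTne (α i2)
  have e1 : wd S (α i1) (u j1) ≤ C1 := d1 ▸ a2
  have e2 : wd S (α i2) (u j2) ≤ C1 := d2 ▸ b3
  obtain ⟨l', hl'⟩ := Nat.exists_eq_add_of_le (show i1 ≤ i2 by omega)
  set T'' : Set G := T ∪ {w | wd S (α i1) w ≤ C1} ∪ {w | wd S (α i2) w ≤ C1} with hT''
  have e3 : wd S (α i1) (α i2) = l' := by
    rw [hα i1 i2 (by omega) b2]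
    omega
  have e4 : wd S (u j1) (u j2) ≤ l' + 2 * C1 := by
    have h1 := wd_tri hS (u j1) (α i1) (u j2)
    have h2 := wd_tri hS (α i1) (α i2) (u j2)
    have h3 := wd_comm hS (u j1) (α i1)
    omega
  have p1 : PathIn S T'' (α i2) (u j2) C1 := (pathIn_ball hS e2).mono Set.subset_union_right
  have p2 : PathIn S T'' (u j2) (u j1) (3 * (l' + 2 * C1)) := by
    have hTT : T ⊆ T'' := fun x hx => Or.inl (Or.inl hx)
    rcases le_total j1 j2 with h | h
    · refine (((pathIn_sub hu hTu h hj2).mono hTT).symm hS).pad ?_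
      have := hq j1 j2 h hj2
      omega
    · refine ((pathIn_sub hu hTu h hj1).mono hTT).pad ?_
      have := hq j2 j1 h hj1
      have h3 := wd_comm hS (u j1) (u j2)
      omega
  have p3 : PathIn S T'' (u j1) (α i1) C1 :=
    ((pathIn_ball hS e1).mono (fun x hx => Or.inl (Or.inr hx))).symm hS
  have p4 : PathIn S T'' (α (i1 + l')) (α (i1 + 0)) (C1 + 3 * (l' + 2 * C1) + C1) := by
    rw [← hl', add_zero]
    exact (p1.trans p2).trans p3
  have hβ : Geod S (fun i => α (i1 + i)) l' := by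
    intro i j hij hj
    show wd S (α (i1 + i)) (α (i1 + j)) = j - i
    rw [hα _ _ (by omega) (by omega)]
    omega
  have key := avg hD hβ (T := T'') p4
  have hT''ne : T''.Nonempty := ⟨_, p1.left_mem⟩
  -- lower bound for the distance to `T''`
  have low : ∀ i, 2 * C1 + 1 ≤ i → i + (2 * C1 + 1) ≤ l' → C1 + 1 ≤ sd S T'' (α (i1 + i)) := by
    intro i h1 h2
    obtain ⟨w, hw, hd⟩ := exists_sd (S := S) hT''ne (α (i1 + i))
    rw [← hd]
    rcases hw with (hw | hw) | hw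
    · have h3 := hint (i1 + i) (by omega) (by omega)
      have h4 := sd_le (S := S) (v := α (i1 + i)) hw
      omega
    · have h3 : wd S (α i1) w ≤ C1 := hw
      have h4 := wd_tri hS (α i1) w (α (i1 + i))
      have h5 := hα i1 (i1 + i) (by omega) (by omega)
      have h6 := wd_comm hS w (α (i1 + i))
      omega
    · have h3 : wd S (α i2) w ≤ C1 := hw
      have h4 := wd_tri hS (α (i1 + i)) w (α i2)
      have h5 := hα (i1 + i) i2 (by omega) (by omega)
      have h6 := wd_comm hS w (α i2)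
      omega
  have cnt : (l' - (2 * C1 + 1) - (2 * C1 + 1)) * (C1 + 1) ≤
      ∑ i ∈ Finset.range l', min (sd S T'' (α (i1 + i))) (sd S T'' (α (i1 + (i + 1)))) := by
    calc (l' - (2 * C1 + 1) - (2 * C1 + 1)) * (C1 + 1)
        = (Finset.Ico (2 * C1 + 1) (l' - (2 * C1 + 1))).card • (C1 + 1) := by
          rw [Nat.card_Ico, smul_eq_mul]
      _ ≤ ∑ i ∈ Finset.Ico (2 * C1 + 1) (l' - (2 * C1 + 1)),
            min (sd S T'' (α (i1 + i))) (sd S T'' (α (i1 + (i + 1)))) := by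
          refine Finset.card_nsmul_le_sum _ _ _ fun i hi => ?_
          have hi' := Finset.mem_Ico.1 hi
          exact le_min (low i (by omega) (by omega)) (low (i + 1) (by omega) (by omega))
      _ ≤ _ := by
          refine Finset.sum_le_sum_of_subset fun i hi => ?_
          have hi' := Finset.mem_Ico.1 hi
          exact Finset.mem_range.2 (by omega)
  have hl : l' ≤ 10 * C1 + 4 := by
    by_contra hcon
    have hx : ∃ x, l' = x + (4 * C1 + 2) ∧ 6 * C1 + 3 ≤ x := ⟨l' - (4 * C1 + 2), by omega, by omega⟩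
    obtain ⟨x, hx1, hx2⟩ := hx
    have e5 : l' - (2 * C1 + 1) - (2 * C1 + 1) = x := by omega
    have h1 := cnt.trans key
    rw [e5] at h1
    have h2 : 4 * K ^ 2 * (l' + (C1 + 3 * (l' + 2 * C1) + C1)) ≤ C * (4 * x + 24 * C1 + 8) := by
      have e6 : l' + (C1 + 3 * (l' + 2 * C1) + C1) = 4 * x + 24 * C1 + 8 := by omega
      rw [e6]
      exact Nat.mul_le_mul_right _ (by omega)
    have h3 := h1.trans h2
    have h4 : C * (4 * (6 * C1 + 3)) ≤ C * (4 * x) := Nat.mul_le_mul_left _ (by omega)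
    have h5 : 1 ≤ C := by omega
    have h6 : x * (C1 + 1) = C * (8 * x) + x := by rw [hC1]; ring
    have h7 : C * (4 * x + 24 * C1 + 8) = C * (4 * x) + C * (24 * C1) + C * 8 := by ring
    have h8 : C * (4 * (6 * C1 + 3)) = C * (24 * C1) + C * 12 := by ring
    have h9 : C * (8 * x) = C * (4 * x) + C * (4 * x) := by ring
    omega
  have h1 := hf (α i1) (α t)
  have h2 := hα i1 t (by omega) ht
  have h3 : sd S T (α i1) ≤ C1 := a2
  rw [mC]
  omega

end

end Pool.SC
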