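import Pool.Agent.Lib.MP_565fc2_lc.SC.TBorel

/-!
Finitary automorphisms of the free group act by homeomorphisms on the space of marked groups, and
two marked groups are isomorphic iff they lie in one orbit.
-/

namespace Pool.SC

/-- pull back along an automorphism of the free group that fixes almost all letters -/
def pull (φ : FreeGroup ℕ ≃* FreeGroup ℕ) (hφ : ∃ m, ∀ i, m ≤ i → φ (FreeGroup.of i) =
    FreeGroup.of i) (M : MGrp) : MGrp where
  ker := M.ker.comap φ.toMonoidHom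
  normal := inferInstance
  fin := by
    obtain ⟨m, hm⟩ := hφ
    obtain ⟨n, hn⟩ := M.fin
    refine ⟨max m n, fun i hi => ?_⟩
    change φ (FreeGroup.of i) ∈ M.ker
    rw [hm i ((le_max_left _ _).trans hi)]
    exact hn i ((le_max_right _ _).trans hi)

theorem mem_pull {φ : FreeGroup ℕ ≃* FreeGroup ℕ} {hφ : ∃ m, ∀ i, m ≤ i → φ (FreeGroup.of i) =
    FreeGroup.of i} {M : MGrp} {w : FreeGroup ℕ} : w ∈ (pull φ hφ M).ker ↔ φ w ∈ M.ker := Iff.rfl

theorem fin_symm {φ : FreeGroup ℕ ≃* FreeGroup ℕ} (hφ : ∃ m, ∀ i, m ≤ i → φ (FreeGroup.of i) =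
    FreeGroup.of i) : ∃ m, ∀ i, m ≤ i → φ.symm (FreeGroup.of i) = FreeGroup.of i := by
  obtain ⟨m, hm⟩ := hφ
  refine ⟨m, fun i hi => ?_⟩
  rw [MulEquiv.symm_apply_eq, hm i hi]

theorem continuous_pull (φ : FreeGroup ℕ ≃* FreeGroup ℕ) (hφ : ∃ m, ∀ i, m ≤ i →
    φ (FreeGroup.of i) = FreeGroup.of i) : Continuous (pull φ hφ) := by
  classical
  refine continuous_def.2 fun U hU => ?_
  rw [MGrp.isOpen_iff]
  intro n M hM hn
  obtain ⟨m, hm⟩ := hφ
  have hlev : ∀ M' ∈ MGrp.lev n, pull φ ⟨m, hm⟩ M' ∈ MGrp.lev (max m n) := by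
    intro M' hM' i hi
    change φ (FreeGroup.of i) ∈ M'.ker
    rw [hm i ((le_max_left _ _).trans hi)]
    exact hM' i ((le_max_right _ _).trans hi)
  obtain ⟨W, hW⟩ := MGrp.exists_bas hU hM (hlev M hn)
  refine ⟨W.image φ, fun M' hM' h => hW ⟨hlev M' hM', fun w hw => ?_⟩⟩
  exact h (φ w) (Finset.mem_image_of_mem _ hw)

/-- the homeomorphism of the space of marked groups given by a finitary automorphism -/
def pullHomeo (φ : FreeGroup ℕ ≃* FreeGroup ℕ) (hφ : ∃ m, ∀ i, m ≤ i →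
    φ (FreeGroup.of i) = FreeGroup.of i) : MGrp ≃ₜ MGrp where
  toFun := pull φ hφ
  invFun := pull φ.symm (fin_symm hφ)
  left_inv := by
    intro M
    apply MGrp.ext'
    ext w
    rw [mem_pull, mem_pull, MulEquiv.apply_symm_apply]
  right_inv := by
    intro M
    apply MGrp.ext'
    ext w
    rw [mem_pull, mem_pull, MulEquiv.symm_apply_apply]
  continuous_toFun := continuous_pull φ hφ
  continuous_invFun := continuous_pull φ.symm (fin_symm hφ)

/-- the pulled back marked group is isomorphic to the original one -/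
theorem pull_equiv (φ : FreeGroup ℕ ≃* FreeGroup ℕ) (hφ : ∃ m, ∀ i, m ≤ i →
    φ (FreeGroup.of i) = FreeGroup.of i) (M : MGrp) : Nonempty ((pull φ hφ M).grp ≃* M.grp) := by
  refine ⟨QuotientGroup.congr _ _ φ ?_⟩
  ext w
  constructor
  · rintro ⟨v, hv, rfl⟩
    exact hv
  · intro hw
    refine ⟨φ.symm w, ?_, φ.apply_symm_apply w⟩
    change φ (φ.symm w) ∈ M.ker
    rwa [φ.apply_symm_apply]

/-- the subgroup generated by the letters in a set -/
abbrev lett (A : Set ℕ) : Subgroup (FreeGroup ℕ) := Subgroup.closure (FreeGroup.of '' A)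

theorem eq_on_lett {G : Type} [Group G] {A : Set ℕ} {f g : FreeGroup ℕ →* G}
    (h : ∀ i ∈ A, f (FreeGroup.of i) = g (FreeGroup.of i)) {w : FreeGroup ℕ} (hw : w ∈ lett A) :
    f w = g w := by
  have : Set.EqOn f g (FreeGroup.of '' A) := by
    rintro _ ⟨i, hi, rfl⟩
    exact h i hi
  exact MonoidHom.eqOn_closure this hw

theorem exists_lett {G : Type} [Group G] (κ : FreeGroup ℕ →* G) (n : ℕ)
    (h : ∀ i, n ≤ i → κ (FreeGroup.of i) = 1) (x : FreeGroup ℕ) :
    ∃ w ∈ lett {i | i < n}, κ w = κ x := by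
  induction x using FreeGroup.induction_on with
  | C1 => exact ⟨1, one_mem _, rfl⟩
  | of i =>
    by_cases hi : i < n
    · exact ⟨FreeGroup.of i, Subgroup.subset_closure ⟨i, hi, rfl⟩, rfl⟩
    · exact ⟨1, one_mem _, by rw [map_one]; exact (h i (not_lt.1 hi)).symm⟩
  | inv_of i ih =>
    obtain ⟨w, hw, hκ⟩ := ih
    exact ⟨w⁻¹, inv_mem hw, by rw [map_inv, map_inv, hκ]⟩
  | mul a b iha ihb =>
    obtain ⟨u, hu, hκu⟩ := iha
    obtain ⟨v, hv, hκv⟩ := ihb
    exact ⟨u * v, mul_mem hu hv, by rw [map_mul, map_mul, hκu, hκv]⟩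

open scoped Classical in
/-- transvection endomorphism: multiply the letters of `A` on the right -/
noncomputable def trv (A : Set ℕ) (t : ℕ → FreeGroup ℕ) : FreeGroup ℕ →* FreeGroup ℕ :=
  FreeGroup.lift fun i => if i ∈ A then FreeGroup.of i * t i else FreeGroup.of i

theorem trv_of_mem {A : Set ℕ} {t : ℕ → FreeGroup ℕ} {i : ℕ} (h : i ∈ A) :
    trv A t (FreeGroup.of i) = FreeGroup.of i * t i := by
  classical
  unfold trv
  rw [FreeGroup.lift_apply_of, if_pos h]

theorem trv_of_notMem {A : Set ℕ} {t : ℕ → FreeGroup ℕ} {i : ℕ} (h : i ∉ A) :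
    trv A t (FreeGroup.of i) = FreeGroup.of i := by
  classical
  unfold trv
  rw [FreeGroup.lift_apply_of, if_neg h]

theorem trv_fix {A : Set ℕ} {t : ℕ → FreeGroup ℕ} {w : FreeGroup ℕ} (hw : w ∈ lett Aᶜ) :
    trv A t w = w := by
  have := eq_on_lett (f := trv A t) (g := MonoidHom.id _) (A := Aᶜ)
    (fun i hi => trv_of_notMem hi) hw
  exact this

theorem trv_trv {A : Set ℕ} {t s : ℕ → FreeGroup ℕ} (hs : ∀ i, s i ∈ lett Aᶜ)
    (hst : ∀ i, t i * s i = 1) (w : FreeGroup ℕ) : trv A t (trv A s w) = w := by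
  have : (trv A t).comp (trv A s) = MonoidHom.id _ := by
    ext i
    simp only [MonoidHom.comp_apply, MonoidHom.id_apply]
    by_cases h : i ∈ A
    · rw [trv_of_mem h, map_mul, trv_of_mem h, trv_fix (hs i), mul_assoc, hst, mul_one]
    · rw [trv_of_notMem h, trv_of_notMem h]
  exact DFunLike.congr_fun this w

/-- transvection automorphism -/
noncomputable def trvE (A : Set ℕ) (t : ℕ → FreeGroup ℕ) (ht : ∀ i, t i ∈ lett Aᶜ) :
    FreeGroup ℕ ≃* FreeGroup ℕ where
  toFun := trv A t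
  invFun := trv A fun i => (t i)⁻¹
  left_inv := trv_trv (fun i => ht i) (fun _ => inv_mul_cancel _)
  right_inv := trv_trv (fun i => inv_mem (ht i)) (fun _ => mul_inv_cancel _)
  map_mul' := map_mul _

theorem exists_aut (M M' : MGrp) (e : M'.grp ≃* M.grp) :
    ∃ (φ : FreeGroup ℕ ≃* FreeGroup ℕ) (hφ : ∃ m, ∀ i, m ≤ i → φ (FreeGroup.of i) =
      FreeGroup.of i), pull φ hφ M' = M := by
  classical
  obtain ⟨n1, h1⟩ := M.fin
  obtain ⟨n2, h2⟩ := M'.fin
  obtain ⟨n, hn1, hn2⟩ : ∃ n, n1 ≤ n ∧ n2 ≤ n := ⟨max n1 n2, le_max_left _ _, le_max_right _ _⟩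
  have h1 : ∀ i, n ≤ i → FreeGroup.of i ∈ M.ker := fun i hi => h1 i (hn1.trans hi)
  have h2 : ∀ i, n ≤ i → FreeGroup.of i ∈ M'.ker := fun i hi => h2 i (hn2.trans hi)
  let κ : FreeGroup ℕ →* M.grp := QuotientGroup.mk' M.ker
  let κ' : FreeGroup ℕ →* M.grp := e.toMonoidHom.comp (QuotientGroup.mk' M'.ker)
  have hκ : ∀ w, κ w = 1 ↔ w ∈ M.ker := fun w => QuotientGroup.eq_one_iff w
  have hκ' : ∀ w, κ' w = 1 ↔ w ∈ M'.ker := by
    intro w
    change e (QuotientGroup.mk' M'.ker w) = 1 ↔ _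
    rw [EmbeddingLike.map_eq_one_iff]
    exact QuotientGroup.eq_one_iff w
  have k1 : ∀ i, n ≤ i → κ (FreeGroup.of i) = 1 := fun i hi => (hκ _).2 (h1 i hi)
  have k2 : ∀ i, n ≤ i → κ' (FreeGroup.of i) = 1 := fun i hi => (hκ' _).2 (h2 i hi)
  have hsurj : ∀ g : M.grp, ∃ x, κ x = g := QuotientGroup.mk'_surjective M.ker
  have hsurj' : ∀ g : M.grp, ∃ x, κ' x = g := by
    intro g
    obtain ⟨x, hx⟩ := QuotientGroup.mk'_surjective M'.ker (e.symm g)
    refine ⟨x, ?_⟩
    change e (QuotientGroup.mk' M'.ker x) = g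
    rw [hx, MulEquiv.apply_symm_apply]
  have hu : ∀ i, ∃ u ∈ lett {i | i < n}, κ u = κ' (FreeGroup.of i) := by
    intro i
    obtain ⟨x, hx⟩ := hsurj (κ' (FreeGroup.of i))
    obtain ⟨w, hw, hwx⟩ := exists_lett κ n k1 x
    exact ⟨w, hw, hwx.trans hx⟩
  have hv : ∀ i, ∃ v ∈ lett {i | i < n}, κ' v = κ (FreeGroup.of i) := by
    intro i
    obtain ⟨x, hx⟩ := hsurj' (κ (FreeGroup.of i))
    obtain ⟨w, hw, hwx⟩ := exists_lett κ' n k2 x
    exact ⟨w, hw, hwx.trans hx⟩
  choose u hu1 hu2 using hu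
  choose v hv1 hv2 using hv
  -- the permutation exchanging `i` and `i + n` for `i < n`
  let sw : ℕ → ℕ := fun i => if i < n then i + n else if i < 2 * n then i - n else i
  have hsw : ∀ i, sw (sw i) = i := by
    intro i
    simp only [sw]
    split_ifs <;> omega
  let swE : ℕ ≃ ℕ := ⟨sw, sw, hsw, hsw⟩
  let S : FreeGroup ℕ ≃* FreeGroup ℕ := FreeGroup.freeGroupCongr swE
  have hS : ∀ i, S (FreeGroup.of i) = FreeGroup.of (sw i) := fun i => by
    simp [S, swE]
  have hSS : ∀ w, S (S w) = w := by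
    intro w
    have : (S.toMonoidHom).comp S.toMonoidHom = MonoidHom.id _ := by
      ext i
      change S (S (FreeGroup.of i)) = FreeGroup.of i
      rw [hS, hS, hsw]
    exact DFunLike.congr_fun this w
  have hSl : ∀ w ∈ lett {i | i < n}, S w ∈ lett ({i | i < n} : Set ℕ)ᶜ := by
    intro w hw
    have : lett {i | i < n} ≤ (lett ({i | i < n} : Set ℕ)ᶜ).comap S.toMonoidHom := by
      rw [Subgroup.closure_le]
      rintro _ ⟨i, hi, rfl⟩
      change S (FreeGroup.of i) ∈ lett ({i | i < n} : Set ℕ)ᶜ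
      rw [hS]
      refine Subgroup.subset_closure ⟨sw i, ?_, rfl⟩
      have : i < n := hi
      simp only [sw, this, if_true, Set.mem_compl_iff, Set.mem_ofPred_eq]
      omega
    exact this hw
  have hlA : lett {i | i < n} ≤ lett ({i | n ≤ i ∧ i < 2 * n} : Set ℕ)ᶜ := by
    apply Subgroup.closure_mono
    apply Set.image_mono
    intro i hi
    have : i < n := hi
    simp only [Set.mem_compl_iff, Set.mem_ofPred_eq]
    omega
  let β : FreeGroup ℕ ≃* FreeGroup ℕ := trvE {i | i < n} (fun i => S (v i))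
    (fun i => hSl _ (hv1 i))
  let α : FreeGroup ℕ ≃* FreeGroup ℕ := trvE {i | n ≤ i ∧ i < 2 * n} (fun i => (u (i - n))⁻¹)
    (fun i => hlA (inv_mem (hu1 _)))
  have hβ1 : ∀ i, i < n → β (FreeGroup.of i) = FreeGroup.of i * S (v i) := fun i hi =>
    trv_of_mem (A := {i | i < n}) (t := fun i => S (v i)) hi
  have hβ2 : ∀ i, n ≤ i → β (FreeGroup.of i) = FreeGroup.of i := fun i hi =>
    trv_of_notMem (A := {i | i < n}) (t := fun i => S (v i)) (not_lt.2 hi)
  have hα1 : ∀ i, n ≤ i → i < 2 * n → α (FreeGroup.of i) = FreeGroup.of i * (u (i - n))⁻¹ :=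
    fun i hi hi2 => trv_of_mem (A := {i | n ≤ i ∧ i < 2 * n}) (t := fun i => (u (i - n))⁻¹)
      ⟨hi, hi2⟩
  have hα2 : ∀ i, ¬ (n ≤ i ∧ i < 2 * n) → α (FreeGroup.of i) = FreeGroup.of i := fun i hi =>
    trv_of_notMem (A := {i | n ≤ i ∧ i < 2 * n}) (t := fun i => (u (i - n))⁻¹) hi
  -- first stage
  have st1 : ∀ i, i < n → κ' (S (β (FreeGroup.of i))) = κ (FreeGroup.of i) := by
    intro i hi
    rw [hβ1 i hi, map_mul, map_mul, hS, hSS, hv2]
    have : sw i = i + n := by simp only [sw, hi, if_true]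
    rw [this, k2 (i + n) (by omega), one_mul]
  have st1' : ∀ w ∈ lett {i | i < n}, κ' (S (β w)) = κ w := by
    intro w hw
    exact eq_on_lett (f := κ'.comp (S.toMonoidHom.comp β.toMonoidHom)) (g := κ)
      (fun i hi => st1 i hi) hw
  have st2 : (κ'.comp ((S.toMonoidHom.comp β.toMonoidHom).comp α.toMonoidHom)) = κ := by
    ext i
    change κ' (S (β (α (FreeGroup.of i)))) = κ (FreeGroup.of i)
    by_cases hi : i < n
    · rw [hα2 i (by omega), st1 i hi]
    · by_cases hi2 : i < 2 * n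
      · have hi3 : n ≤ i := by omega
        rw [hα1 i hi3 hi2, map_mul, map_mul, map_mul, hβ2 i hi3, hS, map_inv, map_inv, map_inv,
          st1' _ (hu1 _), hu2, k1 i hi3]
        have : sw i = i - n := by simp only [sw, hi, hi2, if_true, if_false]
        rw [this, mul_inv_cancel]
      · rw [hα2 i (by omega), hβ2 i (by omega), hS]
        have : sw i = i := by simp only [sw, hi, hi2, if_false]
        rw [this, k2 i (by omega), k1 i (by omega)]
  refine ⟨α.trans (β.trans S), ⟨2 * n, fun i hi => ?_⟩, ?_⟩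
  · change S (β (α (FreeGroup.of i))) = FreeGroup.of i
    rw [hα2 i (by omega), hβ2 i (by omega), hS]
    have : sw i = i := by
      simp only [sw]
      split_ifs <;> omega
    rw [this]
  · apply MGrp.ext'
    ext w
    rw [mem_pull, ← hκ', ← hκ, ← DFunLike.congr_fun st2 w]
    rfl

end Pool.SC
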