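import Pool.Agent.Lib.MP_565fc2_lc.SC.TTop

/-!
The set of marked groups satisfying a first-order sentence is Borel.
-/

namespace Pool.SC

open FirstOrder FirstOrder.Language

theorem funMap_one (G : Type) [Group G] (x : Fin 0 → G) :
    Structure.funMap (L := LG) (GrpFun.one : LG.Functions 0) x = (1 : G) := rfl

theorem funMap_inv (G : Type) [Group G] (x : Fin 1 → G) :
    Structure.funMap (L := LG) (GrpFun.inv : LG.Functions 1) x = (x 0)⁻¹ := rfl

theorem funMap_mul (G : Type) [Group G] (x : Fin 2 → G) :
    Structure.funMap (L := LG) (GrpFun.mul : LG.Functions 2) x = x 0 * x 1 := rfl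

theorem hom_funMap {G K : Type} [Group G] [Group K] (f : G →* K) {n : ℕ}
    (s : LG.Functions n) (x : Fin n → G) :
    Structure.funMap s (fun i => f (x i)) = f (Structure.funMap s x) := by
  change GrpFun n at s
  cases s with
  | one => exact (map_one f).symm
  | inv => exact (map_inv f (x 0)).symm
  | mul => exact (map_mul f (x 0) (x 1)).symm

theorem realize_hom {G K : Type} [Group G] [Group K] (f : G →* K) {α : Type}
    (t : LG.Term α) (v : α → G) : t.realize (fun i => f (v i)) = f (t.realize v) := by
  induction t with
  | var i => rfl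
  | func s ts ih =>
    simp only [Term.realize]
    rw [← hom_funMap]
    congr 1
    funext i
    exact ih i

instance : Countable LG.Symbols := by
  have h : Countable (Σ n, GrpFun n) := by
    have : Function.Injective (fun s : (Σ n, GrpFun n) => s.1) := by
      rintro ⟨n, s⟩ ⟨m, t⟩ h
      simp only at h
      subst h
      cases s <;> cases t <;> rfl
    exact this.countable
  have h2 : Countable (Σ n, LG.Relations n) := by
    have : IsEmpty (Σ n, LG.Relations n) := ⟨fun s => Empty.elim s.2⟩
    infer_instance
  have h1 : Countable (Σ n, LG.Functions n) := h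
  unfold Language.Symbols
  infer_instance

instance : Countable LG.Sentence := inferInstanceAs (Countable (LG.Formula Empty))

theorem mk_eq_mk_iff (M : MGrp) (a b : FreeGroup ℕ) :
    (QuotientGroup.mk' M.ker a = QuotientGroup.mk' M.ker b) ↔ a⁻¹ * b ∈ M.ker :=
  QuotientGroup.eq

theorem borel_formula {n : ℕ} (φ : LG.BoundedFormula Empty n) :
    ∀ x : Fin n → FreeGroup ℕ, @MeasurableSet MGrp (borel MGrp)
      {M : MGrp | φ.Realize (fun e : Empty => (e.elim : M.grp))
        (fun i => QuotientGroup.mk' M.ker (x i))} := by
  let _ : MeasurableSpace MGrp := borel MGrp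
  have : BorelSpace MGrp := ⟨rfl⟩
  induction φ with
  | @falsum k =>
    intro x
    have h0 : {M : MGrp | (BoundedFormula.falsum (L := LG) (α := Empty) (n := k)).Realize (fun e : Empty => (e.elim : M.grp))
        (fun i => QuotientGroup.mk' M.ker (x i))} = ∅ := by
      ext M
      exact Iff.rfl
    rw [h0]
    exact MeasurableSet.empty
  | equal t₁ t₂ =>
    intro x
    have key : ∀ (M : MGrp) (t : LG.Term (Empty ⊕ Fin _)),
        t.realize (Sum.elim (fun e : Empty => (e.elim : M.grp))
          (fun i => QuotientGroup.mk' M.ker (x i))) = QuotientGroup.mk' M.ker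
          (t.realize (Sum.elim (fun e : Empty => (e.elim : FreeGroup ℕ)) x)) := by
      intro M t
      rw [← realize_hom]
      congr 1
      funext i
      rcases i with i | i
      · exact i.elim
      · rfl
    have : {M : MGrp | (BoundedFormula.equal t₁ t₂).Realize (fun e : Empty => (e.elim : M.grp))
        (fun i => QuotientGroup.mk' M.ker (x i))} =
        {M : MGrp | (t₁.realize (Sum.elim (fun e : Empty => (e.elim : FreeGroup ℕ)) x))⁻¹ *
          t₂.realize (Sum.elim (fun e : Empty => (e.elim : FreeGroup ℕ)) x) ∈ M.ker} := by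
      ext M
      change t₁.realize _ = t₂.realize _ ↔ _
      rw [key, key, mk_eq_mk_iff]
      rfl
    rw [this]
    exact (MGrp.isOpen_mem _).measurableSet
  | rel R ts => exact Empty.elim R
  | imp φ ψ ih1 ih2 =>
    intro x
    have : {M : MGrp | (φ.imp ψ).Realize (fun e : Empty => (e.elim : M.grp))
        (fun i => QuotientGroup.mk' M.ker (x i))} =
        {M : MGrp | φ.Realize (fun e : Empty => (e.elim : M.grp))
        (fun i => QuotientGroup.mk' M.ker (x i))}ᶜ ∪
        {M : MGrp | ψ.Realize (fun e : Empty => (e.elim : M.grp))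
        (fun i => QuotientGroup.mk' M.ker (x i))} := by
      ext M
      simp only [Set.mem_ofPred_eq, Set.mem_union, Set.mem_compl_iff, BoundedFormula.realize_imp]
      tauto
    rw [this]
    exact (ih1 x).compl.union (ih2 x)
  | all φ ih =>
    intro x
    have : {M : MGrp | φ.all.Realize (fun e : Empty => (e.elim : M.grp))
        (fun i => QuotientGroup.mk' M.ker (x i))} =
        ⋂ w : FreeGroup ℕ, {M : MGrp | φ.Realize (fun e : Empty => (e.elim : M.grp))
        (fun i => QuotientGroup.mk' M.ker ((Fin.snoc x w : Fin _ → FreeGroup ℕ) i))} := by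
      ext M
      simp only [Set.mem_ofPred_eq, Set.mem_iInter, BoundedFormula.realize_all]
      have e : ∀ w : FreeGroup ℕ, (fun i => QuotientGroup.mk' M.ker
          ((Fin.snoc x w : Fin _ → FreeGroup ℕ) i)) =
          (Fin.snoc (fun i => QuotientGroup.mk' M.ker (x i)) (QuotientGroup.mk' M.ker w) :
            Fin _ → M.grp) := by
        intro w
        funext i
        refine Fin.lastCases ?_ (fun i => ?_) i
        · simp [Fin.snoc_last]
        · simp [Fin.snoc_castSucc]
      constructor
      · intro h w
        rw [e w]
        exact h _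
      · intro h g
        obtain ⟨w, rfl⟩ := QuotientGroup.mk'_surjective M.ker g
        rw [← e w]
        exact h w
    rw [this]
    exact MeasurableSet.iInter fun w => ih _

/-- the marked groups satisfying a sentence -/
def holds (σ : LG.Sentence) : Set MGrp := {M | M.grp ⊨ σ}

theorem borel_holds (σ : LG.Sentence) : @MeasurableSet MGrp (borel MGrp) (holds σ) := by
  have h := borel_formula σ (fun i => i.elim0)
  have e : holds σ = {M : MGrp | BoundedFormula.Realize σ (fun e : Empty => (e.elim : M.grp))
        (fun i : Fin 0 => QuotientGroup.mk' M.ker (i.elim0))} := by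
    ext M
    change Sentence.Realize M.grp σ ↔ _
    unfold Sentence.Realize Formula.Realize
    refine iff_of_eq ?_
    change BoundedFormula.Realize σ _ _ = BoundedFormula.Realize σ _ _
    congr 1
    · exact funext fun e => e.elim
    · exact funext fun i => i.elim0
  rw [e]
  exact h

theorem th_eq_iff {M M' : MGrp} : Th M = Th M' ↔ ∀ σ, M ∈ holds σ ↔ M' ∈ holds σ := by
  constructor
  · intro h σ
    have : σ ∈ Th M ↔ σ ∈ Th M' := by rw [h]
    exact this
  · intro h
    ext σ
    exact h σ

theorem th_eq_of_equiv {M M' : MGrp} (e : M.grp ≃* M'.grp) : Th M = Th M' := by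
  have : ∀ {G K : Type} [Group G] [Group K] (e : G ≃* K), Nonempty (G ≃[LG] K) := by
    intro G K _ _ e
    refine ⟨{ toEquiv := e.toEquiv, map_fun' := ?_, map_rel' := ?_ }⟩
    · intro n s x
      exact (hom_funMap e.toMonoidHom s x).symm
    · intro n r x
      exact Empty.elim r
  obtain ⟨f⟩ := this e
  exact f.toElementaryEmbedding.elementarilyEquivalent.completeTheory_eq

/-- In a subspace: the property of Baire for sentences. -/
theorem baire_holds (X : Set MGrp) (σ : LG.Sentence) :
    BaireMeasurableSet ((fun x : X => (x : MGrp)) ⁻¹' (holds σ)) := by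
  borelize ↥X
  let _ : MeasurableSpace MGrp := borel MGrp
  have : BorelSpace MGrp := ⟨rfl⟩
  exact (continuous_subtype_val.measurable (borel_holds σ)).baireMeasurableSet

end Pool.SC
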