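import Pool.Agent.Lib.MP_565fc2_lc.SC.TAut

/-!
The two category frames: a local topological 0-1 law gives countably many classes, local splitting
by sentences gives uncountably many.
-/

namespace Pool.SC

open FirstOrder FirstOrder.Language Topology

/-- the question Q1 for an arbitrary set of marked groups -/
def Q1H (H : Set MGrp) : Prop :=
  ∃ S : Set (closure H), S ∈ residual (closure H) ∧ ((fun p : closure H => Th p.1) '' S).Countable

theorem q1H_HH : Q1H HH ↔ Q1 := Iff.rfl

/-- invariance under isomorphism -/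
def IsoInv (H : Set MGrp) : Prop := ∀ M M' : MGrp, Nonempty (M.grp ≃* M'.grp) → M ∈ H → M' ∈ H

/-- the topological transitivity property of an open set relative to `H` -/
def Trans (H V : Set MGrp) : Prop := ∀ V1 V2 : Set MGrp, V1 ⊆ V → V2 ⊆ V → IsOpen V1 →
  IsOpen V2 → (V1 ∩ H).Nonempty → (V2 ∩ H).Nonempty →
  ∃ M1 ∈ V1, ∃ M2 ∈ V2, M1 ∈ H ∧ Nonempty (M1.grp ≃* M2.grp)

/-- the restriction of a finitary automorphism to the closure of an invariant set -/
noncomputable def pullX {H : Set MGrp} (hinv : IsoInv H) (φ : FreeGroup ℕ ≃* FreeGroup ℕ) (hφ : ∃ m, ∀ i,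
    m ≤ i → φ (FreeGroup.of i) = FreeGroup.of i) : closure H ≃ₜ closure H :=
  (pullHomeo φ hφ).subtype (by
    intro M
    have h : (pullHomeo φ hφ) ⁻¹' H = H := by
      ext M
      constructor
      · intro h
        exact hinv _ _ (pull_equiv φ hφ M) h
      · intro h
        refine hinv _ _ ?_ h
        obtain ⟨e⟩ := pull_equiv φ hφ M
        exact ⟨e.symm⟩
    have h2 := (pullHomeo φ hφ).preimage_closure H
    rw [h] at h2
    constructor
    · intro hM
      rw [← h2] at hM
      exact hM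
    · intro hM
      rw [← h2]
      exact hM)

theorem pullX_coe {H : Set MGrp} (hinv : IsoInv H) (φ : FreeGroup ℕ ≃* FreeGroup ℕ) (hφ : ∃ m,
    ∀ i, m ≤ i → φ (FreeGroup.of i) = FreeGroup.of i) (x : closure H) :
    ((pullX hinv φ hφ x : closure H) : MGrp) = pull φ hφ x := rfl

/-- nonempty relatively open subsets of the closure meet the set -/
theorem meets {H : Set MGrp} {U : Set MGrp} (hU : IsOpen U) {x : closure H}
    (hx : (x : MGrp) ∈ U) : (U ∩ H).Nonempty := by
  exact mem_closure_iff.1 x.2 U hU hx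

theorem zero_one {H : Set MGrp} (hinv : IsoInv H) {V : Set MGrp} (hV : IsOpen V)
    (hT : Trans H V) {A : Set (closure H)} (hA : BaireMeasurableSet A)
    (hAinv : ∀ x y : closure H, Nonempty ((x : MGrp).grp ≃* (y : MGrp).grp) → x ∈ A → y ∈ A) :
    IsMeagre ((fun x : closure H => (x : MGrp)) ⁻¹' V ∩ A) ∨
      IsMeagre ((fun x : closure H => (x : MGrp)) ⁻¹' V \ A) := by
  by_contra hcon
  push Not at hcon
  obtain ⟨hc1, hc2⟩ := hcon
  obtain ⟨u, hu, hAu⟩ := hA.residualEq_isOpen
  have hd1 : IsMeagre (A \ u) := by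
    have : (A \ u)ᶜ ∈ residual (closure H) := by
      filter_upwards [hAu.mem_iff] with x hx
      simp only [Set.mem_compl_iff, Set.mem_sdiff, not_and, not_not]
      exact hx.1
    exact this
  have hd2 : IsMeagre (u \ A) := by
    have : (u \ A)ᶜ ∈ residual (closure H) := by
      filter_upwards [hAu.mem_iff] with x hx
      simp only [Set.mem_compl_iff, Set.mem_sdiff, not_and, not_not]
      exact hx.2
    exact this
  have hd3 : IsMeagre (closure u \ u) := by
    have h := closure_residualEq hu.isLocallyClosed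
    have : (closure u \ u)ᶜ ∈ residual (closure H) := by
      filter_upwards [h.mem_iff] with x hx
      simp only [Set.mem_compl_iff, Set.mem_sdiff, not_and, not_not]
      exact hx.1
    exact this
  set V' := (fun x : closure H => (x : MGrp)) ⁻¹' V with hV'
  have hV'o : IsOpen V' := hV.preimage continuous_subtype_val
  have n1 : (V' ∩ u).Nonempty := by
    by_contra hne
    rw [Set.not_nonempty_iff_eq_empty] at hne
    apply hc1
    refine hd1.mono ?_
    rintro x ⟨hx1, hx2⟩
    refine ⟨hx2, fun hxu => ?_⟩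
    have : x ∈ V' ∩ u := ⟨hx1, hxu⟩
    rw [hne] at this
    exact this
  have n2 : (V' \ closure u).Nonempty := by
    by_contra hne
    rw [Set.not_nonempty_iff_eq_empty] at hne
    apply hc2
    refine (hd2.union hd3).mono ?_
    rintro x ⟨hx1, hx2⟩
    by_cases hxu : x ∈ u
    · exact Or.inl ⟨hxu, hx2⟩
    · right
      refine ⟨?_, hxu⟩
      by_contra hxc
      have : x ∈ V' \ closure u := ⟨hx1, hxc⟩
      rw [hne] at this
      exact this
  obtain ⟨U1, hU1, hU1e⟩ := isOpen_induced_iff.1 hu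
  obtain ⟨U2, hU2, hU2e⟩ := isOpen_induced_iff.1 (isClosed_closure (s := u)).isOpen_compl
  obtain ⟨x1, hx1⟩ := n1
  obtain ⟨x2, hx2⟩ := n2
  have m1 : (x1 : MGrp) ∈ V ∩ U1 := ⟨hx1.1, by
    have : x1 ∈ (fun x : closure H => (x : MGrp)) ⁻¹' U1 := by
      rw [hU1e]; exact hx1.2
    exact this⟩
  have m2 : (x2 : MGrp) ∈ V ∩ U2 := ⟨hx2.1, by
    have : x2 ∈ (fun x : closure H => (x : MGrp)) ⁻¹' U2 := by
      rw [hU2e]; exact hx2.2
    exact this⟩
  obtain ⟨M1, hM1, M2, hM2, hM1H, ⟨e⟩⟩ := hT (V ∩ U1) (V ∩ U2) Set.inter_subset_left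
    Set.inter_subset_left (hV.inter hU1) (hV.inter hU2) (meets (hV.inter hU1) m1)
    (meets (hV.inter hU2) m2)
  obtain ⟨φ, hφ, hφM⟩ := exists_aut M2 M1 e
  let g := pullX hinv φ hφ
  let y1 : closure H := ⟨M1, subset_closure hM1H⟩
  have hy1 : y1 ∈ V' ∩ u := ⟨hM1.1, by
    have : y1 ∈ (fun x : closure H => (x : MGrp)) ⁻¹' U1 := hM1.2
    rw [hU1e] at this
    exact this⟩
  have hgy : g y1 ∈ V' \ closure u := by
    have h1 : ((g y1 : closure H) : MGrp) = M2 := by
      rw [pullX_coe]
      exact hφM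
    refine ⟨?_, ?_⟩
    · change ((g y1 : closure H) : MGrp) ∈ V
      rw [h1]
      exact hM2.1
    · have : g y1 ∈ (fun x : closure H => (x : MGrp)) ⁻¹' U2 := by
        change ((g y1 : closure H) : MGrp) ∈ U2
        rw [h1]
        exact hM2.2
      rw [hU2e] at this
      exact this
  have hWo : IsOpen ((V' ∩ u) ∩ g ⁻¹' (V' \ closure u)) :=
    (hV'o.inter hu).inter ((hV'o.inter (isClosed_closure (s := u)).isOpen_compl).preimage
      g.continuous)
  have : BaireSpace (closure H) := baire_closure H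
  refine not_isMeagre_of_isOpen hWo ⟨y1, hy1, hgy⟩ ?_
  refine (hd2.union (hd1.preimage_of_isOpenMap g.continuous g.isOpenMap)).mono ?_
  rintro x ⟨hx, hgx⟩
  by_cases hxA : x ∈ A
  · right
    refine ⟨?_, fun h => hgx.2 (subset_closure h)⟩
    refine hAinv x (g x) ?_ hxA
    obtain ⟨e⟩ := pull_equiv φ hφ (x : MGrp)
    exact ⟨e.symm⟩
  · left
    exact ⟨hx.2, hxA⟩

/-- FRAME for a positive answer. -/
theorem q1_of_trans {H : Set MGrp} (hinv : IsoInv H)
    (hd : ∀ U : Set MGrp, IsOpen U → (U ∩ H).Nonempty →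
      ∃ V ⊆ U, IsOpen V ∧ (V ∩ H).Nonempty ∧ Trans H V) : Q1H H := by
  classical
  have hB : BaireSpace (closure H) := baire_closure H
  obtain ⟨T, hTc, hTS, hTU⟩ := TopologicalSpace.isOpen_sUnion_countable
    {V : Set MGrp | IsOpen V ∧ Trans H V} (fun V hV => hV.1)
  let val : closure H → MGrp := fun x => (x : MGrp)
  let A : LG.Sentence → Set (closure H) := fun σ => val ⁻¹' (holds σ)
  let TV : Set MGrp → Set LG.Sentence := fun V => {σ | ¬ IsMeagre (val ⁻¹' V ∩ A σ)}
  have key : ∀ V ∈ T, {x : closure H | val x ∈ V → Th (val x) = TV V} ∈ residual (closure H) := by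
    intro V hVT
    have hV := hTS hVT
    let Z : LG.Sentence → Set (closure H) := fun σ =>
      if IsMeagre (val ⁻¹' V ∩ A σ) then val ⁻¹' V ∩ A σ else val ⁻¹' V \ A σ
    have hZ : ∀ σ, (Z σ)ᶜ ∈ residual (closure H) := by
      intro σ
      have : IsMeagre (Z σ) := by
        simp only [Z]
        split_ifs with h
        · exact h
        · rcases zero_one hinv hV.1 hV.2 (baire_holds (closure H) σ) (A := A σ) (by
            intro x y he hx
            obtain ⟨e⟩ := he
            exact (th_eq_iff.1 (th_eq_of_equiv e) σ).1 hx) with h1 | h1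
          · exact absurd h1 h
          · exact h1
      exact this
    have hall : (⋂ σ, (Z σ)ᶜ) ∈ residual (closure H) := countable_iInter_mem.2 hZ
    filter_upwards [hall] with x hx hxV
    rw [Set.mem_iInter] at hx
    ext σ
    have hxσ := hx σ
    have hmem : σ ∈ Th (val x) ↔ x ∈ A σ := Iff.rfl
    rw [hmem]
    change x ∈ A σ ↔ ¬ IsMeagre (val ⁻¹' V ∩ A σ)
    simp only [Z] at hxσ
    split_ifs at hxσ with h
    · constructor
      · intro h1
        exact absurd ⟨hxV, h1⟩ hxσ
      · intro h1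
        exact absurd h h1
    · constructor
      · intro _
        exact h
      · intro _
        by_contra h2
        exact hxσ ⟨hxV, h2⟩
  refine ⟨{x | ∃ V ∈ T, val x ∈ V ∧ Th (val x) = TV V}, ?_, ?_⟩
  · have hopen : IsOpen (val ⁻¹' (⋃₀ T)) := by
      refine IsOpen.preimage continuous_subtype_val (isOpen_sUnion fun V hV => (hTS hV).1)
    have hdense : Dense (val ⁻¹' (⋃₀ T)) := by
      rw [dense_iff_inter_open]
      intro O hO hOne
      obtain ⟨U, hU, hUO⟩ := isOpen_induced_iff.1 hO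
      obtain ⟨x, hx⟩ := hOne
      have hxU : (x : MGrp) ∈ U := by
        rw [← hUO] at hx
        exact hx
      obtain ⟨V, hVU, hVo, ⟨M, hMV, hMH⟩, hVT⟩ := hd U hU (meets hU hxU)
      refine ⟨⟨M, subset_closure hMH⟩, ?_, ?_⟩
      · rw [← hUO]
        exact hVU hMV
      · change M ∈ ⋃₀ T
        rw [hTU]
        exact ⟨V, ⟨hVo, hVT⟩, hMV⟩
    have h1 : val ⁻¹' (⋃₀ T) ∈ residual (closure H) := residual_of_dense_open hopen hdense
    have h2 : (⋂ V ∈ T, {x : closure H | val x ∈ V → Th (val x) = TV V}) ∈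
        residual (closure H) := (countable_bInter_mem hTc).2 key
    filter_upwards [h1, h2] with x hx1 hx2
    obtain ⟨V, hV, hxV⟩ := hx1
    rw [Set.mem_iInter₂] at hx2
    exact ⟨V, hV, hxV, hx2 V hV hxV⟩
  · refine (hTc.image TV).mono ?_
    rintro _ ⟨x, ⟨V, hV, _, h⟩, rfl⟩
    exact ⟨V, hV, h.symm⟩

/-- FRAME for a negative answer. -/
theorem not_q1_of_split {H : Set MGrp} (hne : H.Nonempty)
    (hs : ∀ U : Set MGrp, IsOpen U → (U ∩ H).Nonempty →
      ∃ (σ : LG.Sentence) (V1 V2 : Set MGrp), V1 ⊆ U ∧ V2 ⊆ U ∧ IsOpen V1 ∧ IsOpen V2 ∧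
        (V1 ∩ H).Nonempty ∧ (V2 ∩ H).Nonempty ∧ (∀ M ∈ V1, M ∈ closure H → M ∈ holds σ) ∧
        (∀ M ∈ V2, M ∈ closure H → M ∉ holds σ)) : ¬ Q1H H := by
  have hB : BaireSpace (closure H) := baire_closure H
  rintro ⟨S, hSr, hSc⟩
  let val : closure H → MGrp := fun x => (x : MGrp)
  have key : ∀ T : Set LG.Sentence, {x : closure H | Th (val x) ≠ T} ∈
      residual (closure H) := by
    intro T
    have hdense : Dense (interior {x : closure H | Th (val x) ≠ T}) := by
      rw [dense_iff_inter_open]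
      intro O hO hOne
      obtain ⟨U, hU, hUO⟩ := isOpen_induced_iff.1 hO
      obtain ⟨x, hx⟩ := hOne
      have hxU : (x : MGrp) ∈ U := by
        rw [← hUO] at hx
        exact hx
      obtain ⟨σ, V1, V2, h1U, h2U, h1o, h2o, ⟨M1, hM1, hM1H⟩, ⟨M2, hM2, hM2H⟩, hσ1, hσ2⟩ :=
        hs U hU (meets hU hxU)
      by_cases hσ : σ ∈ T
      · refine ⟨⟨M2, subset_closure hM2H⟩, ?_, ?_⟩
        · rw [← hUO]
          exact h2U hM2
        · refine mem_interior.2 ⟨val ⁻¹' V2, ?_, h2o.preimage continuous_subtype_val, hM2⟩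
          intro y hy hyT
          rw [← hyT] at hσ
          exact hσ2 _ hy y.2 hσ
      · refine ⟨⟨M1, subset_closure hM1H⟩, ?_, ?_⟩
        · rw [← hUO]
          exact h1U hM1
        · refine mem_interior.2 ⟨val ⁻¹' V1, ?_, h1o.preimage continuous_subtype_val, hM1⟩
          intro y hy hyT
          apply hσ
          rw [← hyT]
          exact hσ1 _ hy y.2
    exact Filter.mem_of_superset (residual_of_dense_open isOpen_interior hdense)
      interior_subset
  have h2 : (⋂ T ∈ (fun p : closure H => Th p.1) '' S, {x : closure H | Th (val x) ≠ T}) ∈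
      residual (closure H) := (countable_bInter_mem hSc).2 fun T _ => key T
  have h3 := Filter.inter_mem hSr h2
  have : Nonempty (closure H) := hne.mono subset_closure |>.to_subtype
  obtain ⟨x, hx1, hx2⟩ := (dense_of_mem_residual h3).nonempty
  rw [Set.mem_iInter₂] at hx2
  exact hx2 _ ⟨x, hx1, rfl⟩ rfl

end Pool.SC
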