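import Pool.Agent.Lib.MP_565fc2_lc.SC.TNeh

/-!
# SC-TMain (helper12): the two theorems of part T
-/

namespace Pool.SC

open Function

/-- Neighbourhoods and quotients: if `U` is an open neighbourhood of `p` then there is a finite set
`M ∌ 1` in the group of `p` such that all marked quotients on which `M` survives are in `U`. -/
theorem exists_finite_avoid {U : Set MGrp} (hU : IsOpen U) {p : MGrp} (hp : p ∈ U) :
    ∃ M : Set p.grp, M.Finite ∧ (1 : p.grp) ∉ M ∧ ∀ (G' : Type) [Group G'] (π : p.grp →* G'),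
      (∀ m ∈ M, π m ≠ 1) → quoM p π ∈ U := by
  classical
  obtain ⟨W, hW⟩ := MGrp.exists_bas hU hp p.mem_lev_rk
  refine ⟨(fun w => QuotientGroup.mk' p.ker w) '' {w | w ∈ W ∧ w ∉ p.ker}, ?_, ?_, ?_⟩
  · exact (W.finite_toSet.subset fun w hw => hw.1).image _
  · rintro ⟨w, hw, h1⟩
    exact hw.2 ((QuotientGroup.eq_one_iff w).1 h1)
  · intro G' _ π hπ
    apply hW
    refine ⟨fun i hi => le_quoM p π (p.mem_lev_rk i hi), fun w hw => ?_⟩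
    constructor
    · intro h
      by_contra hn
      exact hπ _ ⟨w, ⟨hw, hn⟩, rfl⟩ ((mem_quoM p π w).1 h)
    · intro h
      exact le_quoM p π h

/-- The open set of all marked quotients of `quoM p π` in which a finite set survives. -/
theorem exists_open_quotients (hfp : FPk) (p : MGrp) {G' : Type} [Group G'] (π : p.grp →* G')
    (hπ : Surjective π) (hG' : WordHyp G') (M' : Set G') (hM' : M'.Finite) (h1 : (1 : G') ∉ M') :
    ∃ V : Set MGrp, IsOpen V ∧ quoM p π ∈ V ∧ ∀ q ∈ V, ∃ f : G' →* q.grp, Surjective f ∧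
      ∀ m ∈ M', f m ≠ 1 := by
  classical
  have hhyp : WordHyp (quoM p π).grp := t_wordHyp_equiv (quoE p π hπ).symm hG'
  have hlift : ∀ m : G', ∃ w : FreeGroup ℕ, π (QuotientGroup.mk' p.ker w) = m := by
    intro m
    obtain ⟨x, rfl⟩ := hπ m
    obtain ⟨w, rfl⟩ := QuotientGroup.mk'_surjective p.ker x
    exact ⟨w, rfl⟩
  choose lift hl using hlift
  refine ⟨{q : MGrp | (quoM p π).ker ≤ q.ker} ∩ ⋂ m ∈ M', {q : MGrp | lift m ∉ q.ker}, ?_, ?_, ?_⟩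
  · exact (isOpen_above hfp (quoM p π) hhyp).inter
      (hM'.isOpen_biInter fun m _ => MGrp.isOpen_notMem _)
  · refine ⟨le_refl (quoM p π).ker, ?_⟩
    simp only [Set.mem_iInter, Set.mem_ofPred_eq]
    intro m hm h
    rw [mem_quoM, hl] at h
    rw [h] at hm
    exact h1 hm
  · rintro q ⟨hq1, hq2⟩
    obtain ⟨f, hf, hfw⟩ := exists_factor p π hπ q hq1
    refine ⟨f, hf, fun m hm h => ?_⟩
    simp only [Set.mem_iInter, Set.mem_ofPred_eq] at hq2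
    apply hq2 m hm
    rw [← QuotientGroup.eq_one_iff]
    have := hfw (lift m)
    rw [hl, h] at this
    exact this.symm

/-- PART T, positive half. -/
theorem T_yes (hfp : FPk) (h : TRG) : Q1 := by
  rw [← q1H_HH]
  refine q1_of_trans isoInv_HH ?_
  rintro U hU ⟨p, hpU, hpH⟩
  obtain ⟨M, hM, hM1, hMU⟩ := exists_finite_avoid hU hpU
  obtain ⟨G', _, π, hπ, hG', hπM, M', hM', hM'1, htr⟩ := h p.grp hpH M hM hM1
  obtain ⟨V, hVo, hpV, hV⟩ := exists_open_quotients hfp p π hπ hG'.1 M' hM' hM'1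
  refine ⟨U ∩ V, Set.inter_subset_left, hU.inter hVo, ⟨quoM p π, ⟨hMU G' π hπM, hpV⟩,
    t_neh_equiv (quoE p π hπ).symm hG'⟩, ?_⟩
  rintro V1 V2 hV1 hV2 hV1o hV2o ⟨q1, hq1V, hq1H⟩ ⟨q2, hq2V, hq2H⟩
  obtain ⟨f1, hf1, hf1M⟩ := hV q1 (hV1 hq1V).2
  obtain ⟨f2, hf2, hf2M⟩ := hV q2 (hV2 hq2V).2
  obtain ⟨M1, hM1f, hM11, hM1V⟩ := exists_finite_avoid hV1o hq1V
  obtain ⟨M2, hM2f, hM21, hM2V⟩ := exists_finite_avoid hV2o hq2V
  obtain ⟨L, _, g1, g2, hg1, hg2, hL, hg1M, hg2M⟩ := htr q1.grp q2.grp f1 f2 hf1 hf2 hq1H hq2H hf1M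
    hf2M M1 M2 hM1f hM2f hM11 hM21
  exact ⟨quoM q1 g1, hM1V L g1 hg1M, quoM q2 g2, hM2V L g2 hg2M,
    t_neh_equiv (quoE q1 g1 hg1).symm hL, ⟨(quoE q1 g1 hg1).trans (quoE q2 g2 hg2).symm⟩⟩

/-- PART T, negative half. -/
theorem T_no' (hfp : FPk) (hne : HH.Nonempty) (h : SPG) : ¬ Q1 := by
  rw [← q1H_HH]
  refine not_q1_of_split hne ?_
  rintro U hU ⟨p, hpU, hpH⟩
  obtain ⟨M, hM, hM1, hMU⟩ := exists_finite_avoid hU hpU
  obtain ⟨φ, ⟨G1, _, π1, hπ1, hG1, hπ1M, M1, hM1f, hM11, hL1⟩,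
    ⟨G2, _, π2, hπ2, hG2, hπ2M, M2, hM2f, hM21, hL2⟩⟩ := h p.grp hpH M hM hM1
  obtain ⟨V1, hV1o, hpV1, hV1⟩ := exists_open_quotients hfp p π1 hπ1 hG1.1 M1 hM1f hM11
  obtain ⟨V2, hV2o, hpV2, hV2⟩ := exists_open_quotients hfp p π2 hπ2 hG2.1 M2 hM2f hM21
  refine ⟨φ, U ∩ V1, U ∩ V2, Set.inter_subset_left, Set.inter_subset_left, hU.inter hV1o,
    hU.inter hV2o, ⟨quoM p π1, ⟨hMU G1 π1 hπ1M, hpV1⟩, t_neh_equiv (quoE p π1 hπ1).symm hG1⟩,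
    ⟨quoM p π2, ⟨hMU G2 π2 hπ2M, hpV2⟩, t_neh_equiv (quoE p π2 hπ2).symm hG2⟩, ?_, ?_⟩
  · rintro q ⟨_, hq⟩ _
    obtain ⟨f, hf, hfM⟩ := hV1 q hq
    exact hL1 q.grp f hf hfM
  · rintro q ⟨_, hq⟩ _
    obtain ⟨f, hf, hfM⟩ := hV2 q hq
    exact hL2 q.grp f hf hfM

end Pool.SC
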