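import Pool.Agent.Lib.MP_565fc2_lc.SC.TFrame
import Pool.Agent.Lib.MP_565fc2_lc.SC.Iface

/-!
# SC-TNeh (helper12): invariance of `NEH` under isomorphism, quotients of marked groups, the open set
of all quotients of a marked hyperbolic group
-/

namespace Pool.SC

open Function

theorem t_wl_image {G G' : Type} [Group G] [Group G'] (e : G ≃* G') (S : Set G) (g : G) :
    wl (e '' S) (e g) = wl S g := by
  unfold wl
  congr 1
  ext n
  constructor
  · rintro ⟨l, hl, hS, hp⟩
    refine ⟨l.map e.symm, by simpa using hl, ?_, ?_⟩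
    · intro x hx
      obtain ⟨y, hy, rfl⟩ := List.mem_map.1 hx
      rcases hS y hy with ⟨z, hz, hzy⟩ | ⟨z, hz, hzy⟩
      · left
        rw [← hzy, MulEquiv.symm_apply_apply]
        exact hz
      · right
        rw [← map_inv, ← hzy, MulEquiv.symm_apply_apply]
        exact hz
    · have : (l.map e.symm).prod = e.symm l.prod := (map_list_prod e.symm l).symm
      rw [this, hp, MulEquiv.symm_apply_apply]
  · rintro ⟨l, hl, hS, hp⟩
    refine ⟨l.map e, by simpa using hl, ?_, ?_⟩
    · intro x hx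
      obtain ⟨y, hy, rfl⟩ := List.mem_map.1 hx
      rcases hS y hy with h | h
      · exact Or.inl ⟨y, h, rfl⟩
      · exact Or.inr ⟨y⁻¹, h, map_inv e y⟩
    · have : (l.map e).prod = e l.prod := (map_list_prod e l).symm
      rw [this, hp]

theorem t_wordHyp_equiv {G G' : Type} [Group G] [Group G'] (e : G ≃* G') (h : WordHyp G) :
    WordHyp G' := by
  obtain ⟨S, hS, hc, D, hD⟩ := h
  refine ⟨e '' S, hS.image _, ?_, D, ?_⟩
  · have h1 : (Subgroup.closure S).map e.toMonoidHom = Subgroup.closure (e '' S) :=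
      MonoidHom.map_closure e.toMonoidHom S
    rw [← h1, hc]
    exact Subgroup.map_top_of_surjective _ e.surjective
  · have hwd : ∀ x y : G, wd (e '' S) (e x) (e y) = wd S x y := by
      intro x y
      unfold wd
      rw [← map_inv, ← map_mul, t_wl_image]
    intro x y z w
    obtain ⟨x, rfl⟩ := e.surjective x
    obtain ⟨y, rfl⟩ := e.surjective y
    obtain ⟨z, rfl⟩ := e.surjective z
    obtain ⟨w, rfl⟩ := e.surjective w
    simp only [hwd]
    exact hD x y z w

theorem t_nonElem_equiv {G G' : Type} [Group G] [Group G'] (e : G ≃* G') (h : NonElem G) :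
    NonElem G' := by
  intro g' hg'
  apply h (e.symm g')
  have h1 : Subgroup.zpowers (e.symm g') = (Subgroup.zpowers g').comap e.toMonoidHom := by
    ext x
    rw [Subgroup.mem_comap, Subgroup.mem_zpowers_iff, Subgroup.mem_zpowers_iff]
    constructor
    · rintro ⟨k, rfl⟩
      refine ⟨k, ?_⟩
      change g' ^ k = e (e.symm g' ^ k)
      rw [map_zpow, MulEquiv.apply_symm_apply]
    · rintro ⟨k, hk⟩
      refine ⟨k, ?_⟩
      have : e x = g' ^ k := hk.symm
      rw [← map_zpow, ← this, MulEquiv.symm_apply_apply]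
  rw [Subgroup.finiteIndex_iff] at hg' ⊢
  rw [h1, Subgroup.index_comap_of_surjective _ e.surjective]
  exact hg'

theorem t_neh_equiv {G G' : Type} [Group G] [Group G'] (e : G ≃* G') (h : NEH G) : NEH G' :=
  ⟨t_wordHyp_equiv e h.1, t_nonElem_equiv e h.2⟩

theorem isoInv_HH : IsoInv HH := by
  rintro M M' ⟨e⟩ h
  exact t_neh_equiv e h

/-- the marked quotient group given by a homomorphism defined on a marked group -/
def quoM (p : MGrp) {G' : Type} [Group G'] (π : p.grp →* G') : MGrp where
  ker := (π.comp (QuotientGroup.mk' p.ker)).ker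
  normal := inferInstance
  fin := by
    obtain ⟨n, hn⟩ := p.fin
    refine ⟨n, fun k hk => ?_⟩
    rw [MonoidHom.mem_ker]
    change π (QuotientGroup.mk' p.ker (FreeGroup.of k)) = 1
    have : QuotientGroup.mk' p.ker (FreeGroup.of k) = 1 :=
      (QuotientGroup.eq_one_iff _).2 (hn k hk)
    rw [this, map_one]

theorem mem_quoM (p : MGrp) {G' : Type} [Group G'] (π : p.grp →* G') (w : FreeGroup ℕ) :
    w ∈ (quoM p π).ker ↔ π (QuotientGroup.mk' p.ker w) = 1 := MonoidHom.mem_ker

theorem le_quoM (p : MGrp) {G' : Type} [Group G'] (π : p.grp →* G') : p.ker ≤ (quoM p π).ker := by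
  intro w hw
  rw [mem_quoM]
  have : QuotientGroup.mk' p.ker w = 1 := (QuotientGroup.eq_one_iff _).2 hw
  rw [this, map_one]

/-- the group of the marked quotient -/
noncomputable def quoE (p : MGrp) {G' : Type} [Group G'] (π : p.grp →* G') (hπ : Surjective π) :
    (quoM p π).grp ≃* G' :=
  QuotientGroup.quotientKerEquivOfSurjective (π.comp (QuotientGroup.mk' p.ker))
    (hπ.comp (QuotientGroup.mk'_surjective p.ker))

theorem quoE_mk (p : MGrp) {G' : Type} [Group G'] (π : p.grp →* G') (hπ : Surjective π)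
    (w : FreeGroup ℕ) : quoE p π hπ (QuotientGroup.mk' (quoM p π).ker w) =
      π (QuotientGroup.mk' p.ker w) := rfl

theorem exists_factor (p : MGrp) {G' : Type} [Group G'] (π : p.grp →* G') (hπ : Surjective π)
    (q : MGrp) (hq : (quoM p π).ker ≤ q.ker) : ∃ f : G' →* q.grp, Surjective f ∧
      ∀ w, f (π (QuotientGroup.mk' p.ker w)) = QuotientGroup.mk' q.ker w := by
  let h : (quoM p π).grp →* q.grp := QuotientGroup.map _ _ (MonoidHom.id _) hq
  have hh : ∀ w, h (QuotientGroup.mk' (quoM p π).ker w) = QuotientGroup.mk' q.ker w := fun w => rfl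
  refine ⟨h.comp (quoE p π hπ).symm.toMonoidHom, ?_, ?_⟩
  · intro x
    obtain ⟨w, rfl⟩ := QuotientGroup.mk'_surjective q.ker x
    refine ⟨quoE p π hπ (QuotientGroup.mk' _ w), ?_⟩
    change h ((quoE p π hπ).symm (quoE p π hπ (QuotientGroup.mk' _ w))) = _
    rw [MulEquiv.symm_apply_apply, hh]
  · intro w
    rw [← quoE_mk p π hπ]
    change h ((quoE p π hπ).symm (quoE p π hπ (QuotientGroup.mk' _ w))) = _
    rw [MulEquiv.symm_apply_apply, hh]

/-- two homomorphisms that agree on the letters agree -/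
theorem hom_ext_letters {G : Type} [Group G] {α : Type} {f g : FreeGroup α →* G}
    (h : ∀ i, f (FreeGroup.of i) = g (FreeGroup.of i)) (w : FreeGroup α) : f w = g w := by
  have : f = g := FreeGroup.ext_hom _ _ h
  rw [this]

/-- the marked quotients of a marked hyperbolic group form an open set -/
theorem isOpen_above (hfp : FPk) (p : MGrp) (hp : WordHyp p.grp) :
    IsOpen {q : MGrp | p.ker ≤ q.ker} := by
  obtain ⟨n, hn⟩ := p.fin
  let f : FreeGroup (Fin n) →* p.grp :=
    FreeGroup.lift fun i => QuotientGroup.mk' p.ker (FreeGroup.of (i : ℕ))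
  let ι : FreeGroup (Fin n) →* FreeGroup ℕ := FreeGroup.lift fun i => FreeGroup.of (i : ℕ)
  let ρ : FreeGroup ℕ →* FreeGroup (Fin n) :=
    FreeGroup.lift fun i => if h : i < n then FreeGroup.of (⟨i, h⟩ : Fin n) else 1
  have hρ1 : ∀ i (h : i < n), ρ (FreeGroup.of i) = FreeGroup.of (⟨i, h⟩ : Fin n) := by
    intro i h
    simp only [ρ, FreeGroup.lift_apply_of, h, dite_true]
  have hρ2 : ∀ i, ¬ i < n → ρ (FreeGroup.of i) = 1 := by
    intro i h
    simp only [ρ, FreeGroup.lift_apply_of, h, dite_false]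
  have hfι : ∀ w, f w = QuotientGroup.mk' p.ker (ι w) := by
    intro w
    refine hom_ext_letters (f := f) (g := (QuotientGroup.mk' p.ker).comp ι) (fun i => ?_) w
    simp only [f, ι, MonoidHom.comp_apply, FreeGroup.lift_apply_of]
  have hιρ : ∀ q : MGrp, q ∈ MGrp.lev n → ∀ w, QuotientGroup.mk' q.ker (ι (ρ w)) =
      QuotientGroup.mk' q.ker w := by
    intro q hq w
    refine hom_ext_letters (f := (QuotientGroup.mk' q.ker).comp (ι.comp ρ))
      (g := QuotientGroup.mk' q.ker) (fun i => ?_) w
    by_cases hi : i < n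
    · simp only [MonoidHom.comp_apply, hρ1 i hi, ι, FreeGroup.lift_apply_of]
    · simp only [MonoidHom.comp_apply, hρ2 i hi, map_one]
      exact ((QuotientGroup.eq_one_iff _).2 (hq i (not_lt.1 hi))).symm
  have hsurj : Surjective f := by
    intro x
    obtain ⟨w, rfl⟩ := QuotientGroup.mk'_surjective p.ker x
    refine ⟨ρ w, ?_⟩
    rw [hfι]
    exact hιρ p hn w
  obtain ⟨R, hR, hRn⟩ := hfp p.grp hp n f hsurj
  have hset : {q : MGrp | p.ker ≤ q.ker} = MGrp.lev n ∩ ⋂ r ∈ R, {q : MGrp | ι r ∈ q.ker} := by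
    ext q
    simp only [Set.mem_ofPred_eq, Set.mem_inter_iff, Set.mem_iInter]
    constructor
    · intro h
      refine ⟨fun i hi => h (hn i hi), fun r hr => h ?_⟩
      have : r ∈ f.ker := hRn ▸ Subgroup.subset_normalClosure hr
      rw [MonoidHom.mem_ker, hfι] at this
      exact (QuotientGroup.eq_one_iff _).1 this
    · rintro ⟨h1, h2⟩ w hw
      have h3 : ρ w ∈ f.ker := by
        rw [MonoidHom.mem_ker, hfι, hιρ p hn]
        exact (QuotientGroup.eq_one_iff _).2 hw
      rw [← hRn] at h3
      have h4 : Subgroup.normalClosure R ≤ q.ker.comap ι := by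
        apply Subgroup.normalClosure_le_normal
        intro r hr
        exact h2 r hr
      have h5 : ι (ρ w) ∈ q.ker := h4 h3
      rw [← QuotientGroup.eq_one_iff]
      have h6 := hιρ q h1 w
      have h7 : QuotientGroup.mk' q.ker (ι (ρ w)) = 1 := (QuotientGroup.eq_one_iff _).2 h5
      rw [h7] at h6
      exact h6.symm
  rw [hset]
  exact (MGrp.isOpen_lev n).inter (hR.isOpen_biInter fun r _ => MGrp.isOpen_mem _)

end Pool.SC
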