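import Pool.Agent.Lib.MP_565fc2_lc.SC.TMain

/-!
# SC-TNonempty (helper12): there are non-elementary hyperbolic groups; final form of the negative half
-/

namespace Pool.SC

open Function

theorem t_wl_int_le (l : List (Multiplicative ℤ))
    (hl : ∀ x ∈ l, x ∈ ({Multiplicative.ofAdd 1} : Set (Multiplicative ℤ)) ∨
      x⁻¹ ∈ ({Multiplicative.ofAdd 1} : Set (Multiplicative ℤ))) :
    (Multiplicative.toAdd l.prod).natAbs ≤ l.length := by
  induction l with
  | nil => simp
  | cons a l ih =>
    have h1 := ih fun x hx => hl x (List.mem_cons_of_mem a hx)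
    have h2 : (Multiplicative.toAdd a).natAbs = 1 := by
      rcases hl a List.mem_cons_self with h | h
      · rw [Set.mem_singleton_iff] at h
        rw [h]
        rfl
      · rw [Set.mem_singleton_iff] at h
        have : a = (Multiplicative.ofAdd 1 : Multiplicative ℤ)⁻¹ := by rw [← h, inv_inv]
        rw [this]
        rfl
    rw [List.prod_cons, toAdd_mul, List.length_cons]
    omega

theorem t_wl_int (k : ℤ) : wl ({Multiplicative.ofAdd 1} : Set (Multiplicative ℤ))
    (Multiplicative.ofAdd k) = k.natAbs := by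
  apply le_antisymm
  · apply Nat.sInf_le
    rcases Int.natAbs_eq k with h | h
    · refine ⟨List.replicate k.natAbs (Multiplicative.ofAdd 1), by simp, ?_, ?_⟩
      · intro x hx
        rw [List.eq_of_mem_replicate hx]
        exact Or.inl rfl
      · rw [List.prod_replicate, ← ofAdd_nsmul]
        congr 1
        simp only [nsmul_eq_mul, mul_one]
        omega
    · refine ⟨List.replicate k.natAbs (Multiplicative.ofAdd 1)⁻¹, by simp, ?_, ?_⟩
      · intro x hx
        rw [List.eq_of_mem_replicate hx]
        exact Or.inr (by rw [inv_inv]; rfl)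
      · rw [List.prod_replicate, ← ofAdd_neg, ← ofAdd_nsmul]
        congr 1
        simp only [nsmul_eq_mul, mul_neg, mul_one]
        omega
  · apply le_csInf
    · refine ⟨k.natAbs, ?_⟩
      rcases Int.natAbs_eq k with h | h
      · refine ⟨List.replicate k.natAbs (Multiplicative.ofAdd 1), by simp, ?_, ?_⟩
        · intro x hx
          rw [List.eq_of_mem_replicate hx]
          exact Or.inl rfl
        · rw [List.prod_replicate, ← ofAdd_nsmul]
          congr 1
          simp only [nsmul_eq_mul, mul_one]
          omega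
      · refine ⟨List.replicate k.natAbs (Multiplicative.ofAdd 1)⁻¹, by simp, ?_, ?_⟩
        · intro x hx
          rw [List.eq_of_mem_replicate hx]
          exact Or.inr (by rw [inv_inv]; rfl)
        · rw [List.prod_replicate, ← ofAdd_neg, ← ofAdd_nsmul]
          congr 1
          simp only [nsmul_eq_mul, mul_neg, mul_one]
          omega
    · rintro n ⟨l, rfl, hl, hp⟩
      have := t_wl_int_le l hl
      rw [hp] at this
      exact this

theorem t_wordHyp_int : WordHyp (Multiplicative ℤ) := by
  refine ⟨{Multiplicative.ofAdd 1}, Set.finite_singleton _, ?_, 0, ?_⟩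
  · rw [eq_top_iff]
    intro x _
    rw [← Subgroup.zpowers_eq_closure, Subgroup.mem_zpowers_iff]
    refine ⟨Multiplicative.toAdd x, ?_⟩
    rw [← ofAdd_zsmul]
    simp
  · intro x y z w
    have h : ∀ a b : Multiplicative ℤ, wd ({Multiplicative.ofAdd 1} : Set (Multiplicative ℤ)) a b =
        (Multiplicative.toAdd b - Multiplicative.toAdd a).natAbs := by
      intro a b
      unfold wd
      have : a⁻¹ * b = Multiplicative.ofAdd (Multiplicative.toAdd b - Multiplicative.toAdd a) := by
        rw [ofAdd_sub, ofAdd_toAdd, ofAdd_toAdd, mul_comm, div_eq_mul_inv]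
      rw [this, t_wl_int]
    simp only [h]
    omega

theorem t_nonElem_of_surj {G G' : Type} [Group G] [Group G'] (f : G →* G') (hf : Surjective f)
    (h : NonElem G') : NonElem G := by
  intro g hg
  apply h (f g)
  have h1 : (Subgroup.zpowers g).map f = Subgroup.zpowers (f g) := by
    rw [MonoidHom.map_zpowers]
  rw [← h1, Subgroup.finiteIndex_iff]
  rw [Subgroup.finiteIndex_iff] at hg
  intro h0
  apply hg
  have h2 := Subgroup.index_map_dvd (Subgroup.zpowers g) hf
  rw [h0] at h2
  exact Nat.eq_zero_of_zero_dvd h2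

theorem t_nonElem_int2 : NonElem (Multiplicative ℤ × Multiplicative ℤ) := by
  rintro ⟨a, b⟩ hfi
  have hx : ∀ x : Multiplicative ℤ × Multiplicative ℤ, ∃ n : ℕ, 0 < n ∧
      x ^ n ∈ Subgroup.zpowers ((a, b) : Multiplicative ℤ × Multiplicative ℤ) := by
    intro x
    obtain ⟨n, hn, _, h⟩ := Subgroup.exists_pow_mem_of_index_ne_zero
      (H := Subgroup.zpowers ((a, b) : Multiplicative ℤ × Multiplicative ℤ)) hfi.index_ne_zero x
    exact ⟨n, hn, h⟩
  obtain ⟨n, hn, h1⟩ := hx (Multiplicative.ofAdd 1, 1)
  obtain ⟨m, hm, h2⟩ := hx (1, Multiplicative.ofAdd 1)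
  obtain ⟨k, hk⟩ := Subgroup.mem_zpowers_iff.1 h1
  obtain ⟨l, hl⟩ := Subgroup.mem_zpowers_iff.1 h2
  have e1 : k * Multiplicative.toAdd a = n := by
    have := congrArg (fun p => Multiplicative.toAdd p.1) hk
    simpa using this
  have e2 : k * Multiplicative.toAdd b = 0 := by
    have := congrArg (fun p => Multiplicative.toAdd p.2) hk
    simpa using this
  have e3 : l * Multiplicative.toAdd a = 0 := by
    have := congrArg (fun p => Multiplicative.toAdd p.1) hl
    simpa using this
  have e4 : l * Multiplicative.toAdd b = m := by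
    have := congrArg (fun p => Multiplicative.toAdd p.2) hl
    simpa using this
  have k0 : k ≠ 0 := by
    rintro rfl
    rw [zero_mul] at e1
    omega
  have b0 : Multiplicative.toAdd b = 0 := by
    rcases mul_eq_zero.1 e2 with h | h
    · exact absurd h k0
    · exact h
  rw [b0, mul_zero] at e4
  omega

theorem t_nonElem_coprod : NonElem (Monoid.Coprod (Multiplicative ℤ) (Multiplicative ℤ)) := by
  refine t_nonElem_of_surj (Monoid.Coprod.toProd) ?_ t_nonElem_int2
  rintro ⟨a, b⟩
  refine ⟨Monoid.Coprod.inl a * Monoid.Coprod.inr b, ?_⟩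
  simp

/-- every non-elementary hyperbolic group has a marking -/
theorem exists_marking {G : Type} [Group G] (h : NEH G) : ∃ p : MGrp, p ∈ HH ∧
    Nonempty (p.grp ≃* G) := by
  classical
  obtain ⟨S, hS, hc, hD⟩ := h.1
  obtain ⟨n, s, hs⟩ : ∃ (n : ℕ) (s : Fin n → G), Set.range s = S := by
    obtain ⟨T, rfl⟩ := hS.exists_finset_coe
    refine ⟨T.card, fun i => (T.equivFin.symm i : G), ?_⟩
    ext x
    constructor
    · rintro ⟨i, rfl⟩
      exact (T.equivFin.symm i).2
    · intro hx
      exact ⟨T.equivFin ⟨x, hx⟩, by simp⟩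
  let f : FreeGroup ℕ →* G := FreeGroup.lift fun i => if h : i < n then s ⟨i, h⟩ else 1
  have hsurj : Surjective f := by
    rw [← MonoidHom.range_eq_top, eq_top_iff, ← hc, Subgroup.closure_le]
    intro x hx
    rw [← hs] at hx
    obtain ⟨i, rfl⟩ := hx
    refine ⟨FreeGroup.of (i : ℕ), ?_⟩
    simp only [f, FreeGroup.lift_apply_of, i.2, dite_true]
  let p : MGrp :=
    { ker := f.ker
      normal := inferInstance
      fin := ⟨n, fun k hk => by
        rw [MonoidHom.mem_ker]
        simp only [f, FreeGroup.lift_apply_of, not_lt.2 hk, dite_false]⟩ }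
  let e : p.grp ≃* G := QuotientGroup.quotientKerEquivOfSurjective f hsurj
  exact ⟨p, t_neh_equiv e.symm h, ⟨e⟩⟩

theorem HH_nonempty (hfree : FreeProdHyp) : HH.Nonempty := by
  obtain ⟨p, hp, _⟩ := exists_marking
    (⟨hfree _ _ t_wordHyp_int t_wordHyp_int, t_nonElem_coprod⟩ :
      NEH (Monoid.Coprod (Multiplicative ℤ) (Multiplicative ℤ)))
  exact ⟨p, hp⟩

/-- PART T, negative half. -/
theorem T_no (hfp : FPk) (hfree : FreeProdHyp) (h : SPG) : ¬ Q1 :=
  T_no' hfp (HH_nonempty hfree) h

end Pool.SC
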