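import Pool.Agent.Lib.MP_565fc2_lc.SC.Defs

/-!
# SC-TTop (helper12): topology of the space of marked groups

The space is closed in `(FreeGroup ℕ → Bool) × ℕ`; so it is Hausdorff, locally compact and second
countable, and every closed subset is a Baire space.  Its open sets are those of the union topology
(`MGrp.isOpen_iff`).
-/

namespace Pool.SC

open FirstOrder

theorem MGrp.ext' {M M' : MGrp} (h : M.ker = M'.ker) : M = M' := by
  cases M; cases M'; cases h; rfl

/-- the marked groups with `n` generators (the copy of `𝒢_n` in `𝒢`) -/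
def MGrp.lev (n : ℕ) : Set MGrp := {M | ∀ i, n ≤ i → FreeGroup.of i ∈ M.ker}

theorem MGrp.lev_mono {m n : ℕ} (h : m ≤ n) : MGrp.lev m ⊆ MGrp.lev n :=
  fun _ hM i hi => hM i (h.trans hi)

theorem MGrp.mem_lev_rk (M : MGrp) : M ∈ MGrp.lev M.rk :=
  Nat.sInf_mem (s := {n | ∀ k, n ≤ k → FreeGroup.of k ∈ M.ker}) M.fin

theorem MGrp.rk_le_iff {M : MGrp} {n : ℕ} : M.rk ≤ n ↔ M ∈ MGrp.lev n :=
  ⟨fun h => MGrp.lev_mono h M.mem_lev_rk, fun h => Nat.sInf_le h⟩

open Classical in
/-- The embedding into a product of discrete spaces. -/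
noncomputable def MGrp.emb (p : MGrp) : (FreeGroup ℕ → Bool) × ℕ :=
  ((fun w => decide (w ∈ p.ker) : FreeGroup ℕ → Bool), p.rk)

theorem MGrp.isInducing_emb : Topology.IsInducing MGrp.emb := ⟨rfl⟩

theorem MGrp.continuous_emb : Continuous MGrp.emb := MGrp.isInducing_emb.continuous

theorem MGrp.emb_fst {M : MGrp} {w : FreeGroup ℕ} : M.emb.1 w = true ↔ w ∈ M.ker := by
  classical
  simp [MGrp.emb]

theorem MGrp.emb_snd {M : MGrp} : M.emb.2 = M.rk := rfl

theorem MGrp.emb_injective : Function.Injective MGrp.emb := by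
  intro M M' h
  apply MGrp.ext'
  ext w
  rw [← MGrp.emb_fst, ← MGrp.emb_fst, h]

/-- the levels are open -/
theorem MGrp.isOpen_lev (n : ℕ) : IsOpen (MGrp.lev n) := by
  have : MGrp.lev n = (fun M : MGrp => M.emb.2) ⁻¹' {k | k ≤ n} := by
    ext M
    exact MGrp.rk_le_iff.symm
  rw [this]
  exact (isOpen_discrete _).preimage (continuous_snd.comp MGrp.continuous_emb)

/-- word conditions are open -/
theorem MGrp.isOpen_mem (w : FreeGroup ℕ) : IsOpen {M : MGrp | w ∈ M.ker} := by
  have : {M : MGrp | w ∈ M.ker} = (fun M : MGrp => M.emb.1 w) ⁻¹' {true} := by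
    ext M
    exact MGrp.emb_fst.symm
  rw [this]
  exact (isOpen_discrete _).preimage
    ((continuous_apply w).comp (continuous_fst.comp MGrp.continuous_emb))

theorem MGrp.isOpen_notMem (w : FreeGroup ℕ) : IsOpen {M : MGrp | w ∉ M.ker} := by
  have : {M : MGrp | w ∉ M.ker} = (fun M : MGrp => M.emb.1 w) ⁻¹' {false} := by
    ext M
    change ¬ (w ∈ M.ker) ↔ M.emb.1 w = false
    rw [← MGrp.emb_fst, Bool.not_eq_true]
  rw [this]
  exact (isOpen_discrete _).preimage
    ((continuous_apply w).comp (continuous_fst.comp MGrp.continuous_emb))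

/-- The basic open set of `M`, level `n`, word set `W`. -/
def MGrp.bas (n : ℕ) (W : Finset (FreeGroup ℕ)) (M : MGrp) : Set MGrp :=
  {M' | M' ∈ MGrp.lev n ∧ ∀ w ∈ W, w ∈ M'.ker ↔ w ∈ M.ker}

theorem MGrp.isOpen_bas (n : ℕ) (W : Finset (FreeGroup ℕ)) (M : MGrp) :
    IsOpen (MGrp.bas n W M) := by
  have : MGrp.bas n W M = MGrp.lev n ∩ ⋂ w ∈ W, {M' : MGrp | w ∈ M'.ker ↔ w ∈ M.ker} := by
    ext M'
    simp [MGrp.bas]
  rw [this]
  refine (MGrp.isOpen_lev n).inter (isOpen_biInter_finset fun w _ => ?_)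
  by_cases h : w ∈ M.ker
  · simpa [h] using MGrp.isOpen_mem w
  · simpa [h] using MGrp.isOpen_notMem w

/-- The topology is the union topology: `U` is open iff for every `n` and every `M ∈ U` with `n` marked
generators there is a finite set `W` of words such that every `M'` with `n` marked generators in
which the same words of `W` are trivial as in `M` belongs to `U`. -/
theorem MGrp.isOpen_iff {U : Set MGrp} : IsOpen U ↔
    ∀ n, ∀ M ∈ U, M ∈ MGrp.lev n → ∃ W : Finset (FreeGroup ℕ), ∀ M' ∈ MGrp.lev n,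
      (∀ w ∈ W, w ∈ M'.ker ↔ w ∈ M.ker) → M' ∈ U := by
  classical
  constructor
  · intro hU n M hM hn
    obtain ⟨O, hO, rfl⟩ := MGrp.isInducing_emb.isOpen_iff.1 hU
    obtain ⟨u, hu, v, hv, hMu, hMv, huv⟩ : ∃ u : Set (FreeGroup ℕ → Bool), IsOpen u ∧
        ∃ v : Set ℕ, IsOpen v ∧ M.emb.1 ∈ u ∧ M.emb.2 ∈ v ∧ u ×ˢ v ⊆ O := by
      obtain ⟨u, v, hu, hv, h1, h2, h3⟩ := isOpen_prod_iff.1 hO M.emb.1 M.emb.2 hM
      exact ⟨u, hu, v, hv, h1, h2, h3⟩
    obtain ⟨I, t, ht, hI⟩ := isOpen_pi_iff.1 hu _ hMu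
    refine ⟨I ∪ (Finset.range n).image FreeGroup.of, fun M' hM' h => huv ⟨?_, ?_⟩⟩
    · apply hI
      intro w hw
      have h2 := h w (Finset.mem_union_left _ hw)
      have : M'.emb.1 w = M.emb.1 w := by
        rw [Bool.eq_iff_iff, MGrp.emb_fst, MGrp.emb_fst, h2]
      rw [this]
      exact (ht w hw).2
    · have h3 : ∀ i, FreeGroup.of i ∈ M'.ker ↔ FreeGroup.of i ∈ M.ker := by
        intro i
        by_cases hi : i < n
        · exact h _ (Finset.mem_union_right _ (Finset.mem_image_of_mem _ (Finset.mem_range.2 hi)))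
        · exact ⟨fun _ => hn i (not_lt.1 hi), fun _ => hM' i (not_lt.1 hi)⟩
      have : M'.emb.2 = M.emb.2 := by
        change M'.rk = M.rk
        unfold MGrp.rk
        simp only [h3]
      rw [this]
      exact hMv
  · intro h
    rw [isOpen_iff_forall_mem_open]
    intro M hM
    obtain ⟨W, hW⟩ := h M.rk M hM M.mem_lev_rk
    exact ⟨MGrp.bas M.rk W M, fun M' hM' => hW M' hM'.1 hM'.2, MGrp.isOpen_bas _ _ _,
      M.mem_lev_rk, fun w _ => Iff.rfl⟩

theorem MGrp.exists_bas {U : Set MGrp} (hU : IsOpen U) {M : MGrp} (hM : M ∈ U) {n : ℕ}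
    (hn : M ∈ MGrp.lev n) : ∃ W, MGrp.bas n W M ⊆ U := by
  obtain ⟨W, hW⟩ := MGrp.isOpen_iff.1 hU n M hM hn
  exact ⟨W, fun M' hM' => hW M' hM'.1 hM'.2⟩

theorem MGrp.isClosed_range_emb : IsClosed (Set.range MGrp.emb) := by
  have key : Set.range MGrp.emb = {p : (FreeGroup ℕ → Bool) × ℕ |
      (p.1 1 = true) ∧ (∀ a b, p.1 a = true → p.1 b = true → p.1 (a * b) = true) ∧
      (∀ a, p.1 a = true → p.1 a⁻¹ = true) ∧ (∀ a b, p.1 a = true → p.1 (b * a * b⁻¹) = true) ∧
      (∀ i, p.2 ≤ i → p.1 (FreeGroup.of i) = true) ∧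
      (p.2 ≠ 0 → p.1 (FreeGroup.of (p.2 - 1)) = false)} := by
    ext p
    constructor
    · rintro ⟨M, rfl⟩
      refine ⟨?_, ?_, ?_, ?_, ?_, ?_⟩
      · rw [MGrp.emb_fst]; exact M.ker.one_mem
      · intro a b; rw [MGrp.emb_fst, MGrp.emb_fst, MGrp.emb_fst]; exact M.ker.mul_mem
      · intro a; rw [MGrp.emb_fst, MGrp.emb_fst]; exact M.ker.inv_mem
      · intro a b; rw [MGrp.emb_fst, MGrp.emb_fst]; exact fun h => M.normal.conj_mem a h b
      · intro i hi; rw [MGrp.emb_fst]; exact M.mem_lev_rk i hi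
      · intro h0
        rw [← Bool.not_eq_true, MGrp.emb_fst]
        intro hmem
        rw [MGrp.emb_snd] at h0 hmem
        have : M ∈ MGrp.lev (M.rk - 1) := by
          intro i hi
          rcases Nat.eq_or_lt_of_le hi with h1 | h1
          · rw [← h1]; exact hmem
          · exact M.mem_lev_rk i (by omega)
        rw [← MGrp.rk_le_iff] at this
        omega
    · rintro ⟨h1, h2, h3, h4, h5, h6⟩
      let M : MGrp :=
        { ker :=
            { carrier := {w | p.1 w = true}
              one_mem' := h1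
              mul_mem' := fun {a b} ha hb => h2 a b ha hb
              inv_mem' := fun {a} ha => h3 a ha }
          normal := ⟨fun a ha b => h4 a b ha⟩
          fin := ⟨p.2, h5⟩ }
      refine ⟨M, ?_⟩
      have hM : ∀ w, w ∈ M.ker ↔ p.1 w = true := fun w => Iff.rfl
      have h7 : M.rk = p.2 := by
        refine le_antisymm (MGrp.rk_le_iff.2 h5) ?_
        by_contra hlt
        push Not at hlt
        have h8 := h6 (by omega)
        have h9 : M ∈ MGrp.lev (p.2 - 1) := MGrp.rk_le_iff.1 (by omega)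
        have := (hM _).1 (h9 (p.2 - 1) le_rfl)
        rw [h8] at this
        exact Bool.noConfusion this
      refine Prod.ext ?_ h7
      funext w
      rw [Bool.eq_iff_iff, MGrp.emb_fst]
      exact hM w
  have hc : ∀ w : FreeGroup ℕ, Continuous fun p : (FreeGroup ℕ → Bool) × ℕ => p.1 w :=
    fun w => (continuous_apply w).comp continuous_fst
  have ht : ∀ w : FreeGroup ℕ, IsClopen {p : (FreeGroup ℕ → Bool) × ℕ | p.1 w = true} :=
    fun w => (isClopen_discrete ({true} : Set Bool)).preimage (hc w)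
  rw [key]
  have e1 : IsClosed {p : (FreeGroup ℕ → Bool) × ℕ | p.1 1 = true} := (ht 1).1
  have e2 : IsClosed {p : (FreeGroup ℕ → Bool) × ℕ |
      ∀ a b, p.1 a = true → p.1 b = true → p.1 (a * b) = true} := by
    simp only [Set.ofPred_forall]
    refine isClosed_iInter fun a => isClosed_iInter fun b => ?_
    have : {p : (FreeGroup ℕ → Bool) × ℕ | p.1 a = true → p.1 b = true → p.1 (a * b) = true} =
        {p : (FreeGroup ℕ → Bool) × ℕ | p.1 a = true}ᶜ ∪
        ({p : (FreeGroup ℕ → Bool) × ℕ | p.1 b = true}ᶜ ∪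
          {p : (FreeGroup ℕ → Bool) × ℕ | p.1 (a * b) = true}) := by
      ext p
      simp only [Set.mem_ofPred_eq, Set.mem_union, Set.mem_compl_iff]
      tauto
    rw [this]
    exact (ht a).2.isClosed_compl.union ((ht b).2.isClosed_compl.union (ht _).1)
  have e3 : IsClosed {p : (FreeGroup ℕ → Bool) × ℕ | ∀ a, p.1 a = true → p.1 a⁻¹ = true} := by
    simp only [Set.ofPred_forall]
    refine isClosed_iInter fun a => ?_
    have : {p : (FreeGroup ℕ → Bool) × ℕ | p.1 a = true → p.1 a⁻¹ = true} =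
        {p : (FreeGroup ℕ → Bool) × ℕ | p.1 a = true}ᶜ ∪
          {p : (FreeGroup ℕ → Bool) × ℕ | p.1 a⁻¹ = true} := by
      ext p
      simp only [Set.mem_ofPred_eq, Set.mem_union, Set.mem_compl_iff]
      tauto
    rw [this]
    exact (ht a).2.isClosed_compl.union (ht _).1
  have e4 : IsClosed {p : (FreeGroup ℕ → Bool) × ℕ |
      ∀ a b, p.1 a = true → p.1 (b * a * b⁻¹) = true} := by
    simp only [Set.ofPred_forall]
    refine isClosed_iInter fun a => isClosed_iInter fun b => ?_
    have : {p : (FreeGroup ℕ → Bool) × ℕ | p.1 a = true → p.1 (b * a * b⁻¹) = true} =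
        {p : (FreeGroup ℕ → Bool) × ℕ | p.1 a = true}ᶜ ∪
          {p : (FreeGroup ℕ → Bool) × ℕ | p.1 (b * a * b⁻¹) = true} := by
      ext p
      simp only [Set.mem_ofPred_eq, Set.mem_union, Set.mem_compl_iff]
      tauto
    rw [this]
    exact (ht a).2.isClosed_compl.union (ht _).1
  have hs : ∀ s : Set ℕ, IsClopen {p : (FreeGroup ℕ → Bool) × ℕ | p.2 ∈ s} :=
    fun s => (isClopen_discrete s).preimage continuous_snd
  have e5 : IsClosed {p : (FreeGroup ℕ → Bool) × ℕ | ∀ i, p.2 ≤ i → p.1 (FreeGroup.of i) = true} := by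
    simp only [Set.ofPred_forall]
    refine isClosed_iInter fun i => ?_
    have : {p : (FreeGroup ℕ → Bool) × ℕ | p.2 ≤ i → p.1 (FreeGroup.of i) = true} =
        {p : (FreeGroup ℕ → Bool) × ℕ | p.2 ∈ {k | ¬ k ≤ i}} ∪
          {p : (FreeGroup ℕ → Bool) × ℕ | p.1 (FreeGroup.of i) = true} := by
      ext p
      simp only [Set.mem_ofPred_eq, Set.mem_union]
      tauto
    rw [this]
    exact (hs _).1.union (ht _).1
  have e6 : IsClosed {p : (FreeGroup ℕ → Bool) × ℕ |
      p.2 ≠ 0 → p.1 (FreeGroup.of (p.2 - 1)) = false} := by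
    have : {p : (FreeGroup ℕ → Bool) × ℕ | p.2 ≠ 0 → p.1 (FreeGroup.of (p.2 - 1)) = false} =
        ⋂ k : ℕ, ({p : (FreeGroup ℕ → Bool) × ℕ | p.2 ∈ {j | ¬ (j = k + 1)}} ∪
          {p : (FreeGroup ℕ → Bool) × ℕ | p.1 (FreeGroup.of k) = true}ᶜ) := by
      ext p
      simp only [Set.mem_ofPred_eq, Set.mem_iInter, Set.mem_union, Set.mem_compl_iff]
      constructor
      · intro h k
        by_cases hk : p.2 = k + 1
        · right
          have := h (by omega)
          rw [hk] at this
          simpa using this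
        · exact Or.inl hk
      · intro h h0
        rcases h (p.2 - 1) with h1 | h1
        · exact absurd (by omega) h1
        · simpa using h1
    rw [this]
    exact isClosed_iInter fun k => (hs _).1.union (ht _).2.isClosed_compl
  exact e1.inter (e2.inter (e3.inter (e4.inter (e5.inter e6))))

theorem MGrp.isClosedEmbedding_emb : Topology.IsClosedEmbedding MGrp.emb :=
  ⟨⟨MGrp.isInducing_emb, MGrp.emb_injective⟩, MGrp.isClosed_range_emb⟩

instance : T2Space MGrp := MGrp.isClosedEmbedding_emb.isEmbedding.t2Space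

instance : LocallyCompactSpace MGrp := MGrp.isClosedEmbedding_emb.locallyCompactSpace

instance countableFree : Countable (FreeGroup ℕ) := by
  have : Function.Surjective (FreeGroup.mk : List (ℕ × Bool) → FreeGroup ℕ) := by
    intro x
    exact ⟨x.toWord, FreeGroup.mk_toWord⟩
  exact this.countable

instance : SecondCountableTopology MGrp :=
  MGrp.isInducing_emb.secondCountableTopology

theorem baire_closure (H : Set MGrp) : BaireSpace (closure H) := by
  have : LocallyCompactSpace (closure H) :=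
    isClosed_closure.isClosedEmbedding_subtypeVal.locallyCompactSpace
  infer_instance

end Pool.SC
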